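import Mathlib

-- merged part: Pool.Agent.Work.MP_8c679b_co.Six.Ab
section
-- merged part: Pool.Agent.Work.MP_8c679b_co.Basic
section
/-!
Signed multigraphs given by an edge set and end maps: parity, reachability, balance.
-/

set_option autoImplicit false

namespace Pool.Agent.Work.MP_8c679b_co

open Finset

/-- A signed multigraph: active edges, the two end maps, and the sign (`1` means negative). -/
structure SG (V E : Type) where
  A : Finset E
  s : E → V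
  t : E → V
  n : E → ZMod 2

/-- the sign attached to a parity -/
def chi {R : Type} [Ring R] (a : ZMod 2) : R := if a = 0 then 1 else -1

/-- the indicator of a proposition -/
def iv {R : Type} [Zero R] [One R] (p : Prop) [Decidable p] : R := if p then 1 else 0

lemma z2 (a : ZMod 2) : a = 0 ∨ a = 1 := by revert a; decide

lemma z2_add_self (a : ZMod 2) : a + a = 0 := by revert a; decide

lemma z2_ne (a : ZMod 2) : a ≠ 0 ↔ a = 1 := by revert a; decide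

lemma z2_eq_of_add {a b : ZMod 2} (h : a + b = 0) : a = b := by revert a b; decide

@[simp] lemma chi_zero {R : Type} [Ring R] : (chi 0 : R) = 1 := by simp [chi]

@[simp] lemma chi_one {R : Type} [Ring R] : (chi 1 : R) = -1 := by simp [chi]

lemma chi_add {R : Type} [Ring R] (a b : ZMod 2) : (chi (a + b) : R) = chi a * chi b := by
  rcases z2 a with rfl | rfl <;> rcases z2 b with rfl | rfl <;> simp [z2_add_self]

lemma chi_mul_self {R : Type} [Ring R] (a : ZMod 2) : (chi a : R) * chi a = 1 := by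
  rw [← chi_add, z2_add_self, chi_zero]

lemma sum_symmDiff2 {E : Type} [DecidableEq E] (S T : Finset E) (g : E → ZMod 2) :
    ∑ e ∈ symmDiff S T, g e = ∑ e ∈ S, g e + ∑ e ∈ T, g e := by
  have h1 := sum_sdiff (f := g) (inter_subset_left (s₁ := S) (s₂ := T))
  have h2 := sum_sdiff (f := g) (inter_subset_right (s₁ := S) (s₂ := T))
  rw [sdiff_inter_self_left] at h1
  rw [sdiff_inter_self_right] at h2
  rw [symmDiff_def, sup_eq_union, sum_union disjoint_sdiff_sdiff, ← h1, ← h2]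
  linear_combination -z2_add_self (∑ e ∈ S ∩ T, g e)

lemma sum_sdiff2 {E : Type} [DecidableEq E] {S T : Finset E} (h : T ⊆ S) (g : E → ZMod 2) :
    ∑ e ∈ S \ T, g e = ∑ e ∈ S, g e + ∑ e ∈ T, g e := by
  rw [← sum_sdiff h]
  linear_combination -z2_add_self (∑ e ∈ T, g e)

namespace SG

variable {V E : Type} [DecidableEq V] [DecidableEq E] (G : SG V E)

/-- the number of ends of `e` at `v` -/
def inc (e : E) (v : V) : ℕ := iv (G.s e = v) + iv (G.t e = v)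

/-- the degree of `v` in the edge set `S` -/
def deg (S : Finset E) (v : V) : ℕ := ∑ e ∈ S, G.inc e v

/-- the parity of the degree -/
def dg (S : Finset E) (v : V) : ZMod 2 := ∑ e ∈ S, (iv (G.s e = v) + iv (G.t e = v))

/-- `v` is an end of `e` -/
def At (e : E) (v : V) : Prop := G.s e = v ∨ G.t e = v

/-- edges with both ends in `W` -/
def ins (W : Finset V) : Finset E := G.A.filter fun e => G.s e ∈ W ∧ G.t e ∈ W

/-- edges with an end in `W` -/
def tch (W : Finset V) : Finset E := G.A.filter fun e => G.s e ∈ W ∨ G.t e ∈ W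

/-- edges of `S` with exactly one end in `W` -/
def crs (S : Finset E) (W : Finset V) : Finset E := S.filter fun e => ¬ (G.s e ∈ W ↔ G.t e ∈ W)

/-- edges with exactly one end in `W` -/
def cut (W : Finset V) : Finset E := G.crs G.A W

/-- the ends of the edges of `S` -/
def vs (S : Finset E) : Finset V := S.image G.s ∪ S.image G.t

/-- all degrees are even -/
def Ev (S : Finset E) : Prop := ∀ v, G.dg S v = 0

/-- exactly `a` and `b` have odd degree -/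
def Od (S : Finset E) (a b : V) : Prop := ∀ v, G.dg S v = iv (v = a) + iv (v = b)

/-- the parity of the number of negative edges -/
def par (S : Finset E) : ZMod 2 := ∑ e ∈ S, G.n e

/-- the sign of `e` after switching by `p` -/
def sw (p : V → ZMod 2) (e : E) : ZMod 2 := G.n e + p (G.s e) + p (G.t e)

/-- balanced edge sets -/
def Bal (S : Finset E) : Prop := ∃ p : V → ZMod 2, ∀ e ∈ S, G.sw p e = 0

/-- adjacency through `S` -/
def Adj (S : Finset E) (a b : V) : Prop :=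
  ∃ e ∈ S, (G.s e = a ∧ G.t e = b) ∨ (G.s e = b ∧ G.t e = a)

/-- reachability through `S` -/
def Rch (S : Finset E) : V → V → Prop := Relation.ReflTransGen (G.Adj S)

/-- the vertices of `U` are connected through `S` -/
def Cn (U : Finset V) (S : Finset E) : Prop := ∀ a ∈ U, ∀ b ∈ U, G.Rch S a b

/-- connected edge sets whose odd vertices are `a` and `b` -/
def Jn (P : Finset E) (a b : V) : Prop := a ≠ b ∧ G.Od P a b ∧ G.Cn (G.vs P) P

/-- nonempty connected even edge sets -/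
def Cc (C : Finset E) : Prop := C.Nonempty ∧ G.Ev C ∧ G.Cn (G.vs C) C

/-- the boundary of an edge function -/
def bd {R : Type} [Ring R] (f : E → R) (v : V) : R :=
  ∑ e ∈ G.A, (iv (G.s e = v) - iv (G.t e = v) * chi (G.n e)) * f e

/-- the coefficient of an edge in the switched sum of the boundary over `U` -/
def kap {R : Type} [Ring R] (p : V → ZMod 2) (U : Finset V) (e : E) : R :=
  iv (G.s e ∈ U) * chi (p (G.s e)) - iv (G.t e ∈ U) * chi (p (G.t e)) * chi (G.n e)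

/-- every vertex has degree zero or three -/
def Cub : Prop := ∀ v, G.deg G.A v = 0 ∨ G.deg G.A v = 3

/-- the vertex set `W` is two-edge-connected through `S` -/
def Two (W : Finset V) (S : Finset E) : Prop :=
  ∀ X ⊆ W, X.Nonempty → X ≠ W → 2 ≤ (G.crs S X).card

/-- an even edge set inside `W` and a flow modulo three conserved on `W` covering all edges
that meet `W` -/
def Sol (W : Finset V) (ε : ZMod 2) : Prop :=
  ∃ O ⊆ G.ins W, G.Ev O ∧ G.par O = ε ∧ ∃ φ : E → ZMod 3, (∀ v ∈ W, G.bd φ v = 0) ∧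
    ∀ e ∈ G.tch W, e ∉ O → φ e ≠ 0

/-- both parities occur -/
def Flex (W : Finset V) : Prop := G.Sol W 0 ∧ G.Sol W 1

/-- no even set inside `W` leaves `Q` at a vertex of `Q` -/
def Iso (W : Finset V) (Q : Finset E) : Prop :=
  ∀ C ⊆ G.ins W, G.Ev C → ∀ e ∈ C, ∀ v ∈ G.vs Q, G.At e v → e ∈ Q

/-- sets with a single leaving edge are unbalanced -/
def Adm1 : Prop := ∀ X : Finset V, (G.cut X).card = 1 → ¬ G.Bal (G.ins X)

variable {G}

section mem

variable {W X : Finset V} {S T : Finset E} {e : E} {v a b c : V}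

lemma mem_ins : e ∈ G.ins W ↔ e ∈ G.A ∧ G.s e ∈ W ∧ G.t e ∈ W := mem_filter

lemma mem_tch : e ∈ G.tch W ↔ e ∈ G.A ∧ (G.s e ∈ W ∨ G.t e ∈ W) := mem_filter

lemma mem_crs : e ∈ G.crs S W ↔ e ∈ S ∧ ¬ (G.s e ∈ W ↔ G.t e ∈ W) := mem_filter

lemma mem_cut : e ∈ G.cut W ↔ e ∈ G.A ∧ ¬ (G.s e ∈ W ↔ G.t e ∈ W) := mem_filter

lemma mem_vs : v ∈ G.vs S ↔ ∃ e ∈ S, G.At e v := by
  simp only [vs, mem_union, mem_image, At]
  constructor
  · rintro (⟨e, h, h'⟩ | ⟨e, h, h'⟩)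
    exacts [⟨e, h, Or.inl h'⟩, ⟨e, h, Or.inr h'⟩]
  · rintro ⟨e, h, h' | h'⟩
    exacts [Or.inl ⟨e, h, h'⟩, Or.inr ⟨e, h, h'⟩]

lemma s_mem_vs (h : e ∈ S) : G.s e ∈ G.vs S := mem_vs.2 ⟨e, h, Or.inl rfl⟩

lemma t_mem_vs (h : e ∈ S) : G.t e ∈ G.vs S := mem_vs.2 ⟨e, h, Or.inr rfl⟩

lemma ins_sub_A : G.ins W ⊆ G.A := filter_subset _ _

lemma ins_mono (h : X ⊆ W) : G.ins X ⊆ G.ins W := fun _ he =>
  mem_ins.2 ⟨(mem_ins.1 he).1, h (mem_ins.1 he).2.1, h (mem_ins.1 he).2.2⟩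

lemma vs_mono (h : S ⊆ T) : G.vs S ⊆ G.vs T := fun _ hv => by
  obtain ⟨e, h1, h2⟩ := mem_vs.1 hv
  exact mem_vs.2 ⟨e, h h1, h2⟩

lemma vs_union : G.vs (S ∪ T) = G.vs S ∪ G.vs T := by
  ext v
  simp only [mem_union, mem_vs]
  constructor
  · rintro ⟨e, h | h, h'⟩
    exacts [Or.inl ⟨e, h, h'⟩, Or.inr ⟨e, h, h'⟩]
  · rintro (⟨e, h, h'⟩ | ⟨e, h, h'⟩)
    exacts [⟨e, Or.inl h, h'⟩, ⟨e, Or.inr h, h'⟩]

lemma sub_ins_iff : S ⊆ G.ins W ↔ S ⊆ G.A ∧ G.vs S ⊆ W := by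
  constructor
  · refine fun h => ⟨h.trans ins_sub_A, fun v hv => ?_⟩
    obtain ⟨e, h1, rfl | rfl⟩ := mem_vs.1 hv
    exacts [(mem_ins.1 (h h1)).2.1, (mem_ins.1 (h h1)).2.2]
  · exact fun h e he => mem_ins.2 ⟨h.1 he, h.2 (s_mem_vs he), h.2 (t_mem_vs he)⟩

lemma sub_ins_vs (h : S ⊆ G.A) : S ⊆ G.ins (G.vs S) := sub_ins_iff.2 ⟨h, Subset.rfl⟩

lemma inc_pos : 0 < G.inc e v ↔ G.At e v := by
  unfold inc At iv
  by_cases h1 : G.s e = v <;> by_cases h2 : G.t e = v <;> simp [h1, h2]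

lemma inc_le_two : G.inc e v ≤ 2 := by
  unfold inc iv
  split_ifs <;> simp

lemma deg_pos : 0 < G.deg S v ↔ v ∈ G.vs S := by
  rw [deg, mem_vs, Nat.pos_iff_ne_zero, Ne, sum_eq_zero_iff]
  push Not
  exact exists_congr fun e => and_congr_right fun _ => by rw [← inc_pos, Nat.pos_iff_ne_zero]

lemma deg_mono (h : S ⊆ T) : G.deg S v ≤ G.deg T v := sum_le_sum_of_subset h

lemma deg_sdiff (h : S ⊆ T) : G.deg (T \ S) v + G.deg S v = G.deg T v := sum_sdiff h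

lemma deg_union (h : Disjoint S T) : G.deg (S ∪ T) v = G.deg S v + G.deg T v := sum_union h

lemma dg_eq : G.dg S v = (G.deg S v : ZMod 2) := by
  simp [dg, deg, inc, iv]

lemma dg_eq_zero : G.dg S v = 0 ↔ Even (G.deg S v) := by
  rw [dg_eq, ZMod.natCast_eq_zero_iff_even]

lemma dg_eq_one : G.dg S v = 1 ↔ Odd (G.deg S v) := by
  rw [dg_eq, ZMod.natCast_eq_one_iff_odd]

lemma dg_of_not_mem (h : v ∉ G.vs S) : G.dg S v = 0 := by
  rw [← deg_pos] at h
  rw [dg_eq, Nat.eq_zero_of_not_pos h, Nat.cast_zero]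

lemma mem_vs_of_dg (h : G.dg S v ≠ 0) : v ∈ G.vs S := by
  by_contra k
  exact h (dg_of_not_mem k)

lemma dg_symmDiff : G.dg (symmDiff S T) v = G.dg S v + G.dg T v := sum_symmDiff2 _ _ _

lemma dg_sdiff (h : T ⊆ S) : G.dg (S \ T) v = G.dg S v + G.dg T v := sum_sdiff2 h _

lemma dg_union (h : Disjoint S T) : G.dg (S ∪ T) v = G.dg S v + G.dg T v := sum_union h

lemma dg_singleton : G.dg {e} v = iv (G.s e = v) + iv (G.t e = v) := sum_singleton _ _

lemma par_symmDiff : G.par (symmDiff S T) = G.par S + G.par T := sum_symmDiff2 _ _ _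

lemma par_sdiff (h : T ⊆ S) : G.par (S \ T) = G.par S + G.par T := sum_sdiff2 h _

lemma par_union (h : Disjoint S T) : G.par (S ∪ T) = G.par S + G.par T := sum_union h

lemma ev_empty : G.Ev ∅ := fun _ => sum_empty

lemma Ev.symmDiff (h : G.Ev S) (h' : G.Ev T) : G.Ev (symmDiff S T) := fun v => by
  rw [dg_symmDiff, h v, h' v, add_zero]

lemma Ev.union (h : G.Ev S) (h' : G.Ev T) (d : Disjoint S T) : G.Ev (S ∪ T) := fun v => by
  rw [dg_union d, h v, h' v, add_zero]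

lemma Od.symm (h : G.Od S a b) : G.Od S b a := fun v => by rw [h v, add_comm]

lemma od_self : G.Od S a a ↔ G.Ev S := forall_congr' fun v => by rw [z2_add_self]

lemma Od.symmDiff (h : G.Od S a b) (h' : G.Od T b c) : G.Od (symmDiff S T) a c := fun v => by
  rw [dg_symmDiff, h v, h' v]
  linear_combination z2_add_self (iv (v = b))

lemma Od.union (h : G.Od S a b) (h' : G.Od T b c) (d : Disjoint S T) : G.Od (S ∪ T) a c :=
  fun v => by
    rw [dg_union d, h v, h' v]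
    linear_combination z2_add_self (iv (v = b))

lemma Od.sdiff (h : G.Od S a c) (h' : G.Od T a b) (d : T ⊆ S) : G.Od (S \ T) b c := fun v => by
  rw [dg_sdiff d, h v, h' v]
  linear_combination z2_add_self (iv (v = a))

lemma Ev.sdiff (h : G.Ev S) (h' : G.Od T a b) (d : T ⊆ S) : G.Od (S \ T) a b := fun v => by
  rw [dg_sdiff d, h v, h' v, zero_add]

lemma od_edge (h : (G.s e = a ∧ G.t e = b) ∨ (G.s e = b ∧ G.t e = a)) : G.Od {e} a b := by
  intro v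
  rw [dg_singleton]
  rcases h with ⟨rfl, rfl⟩ | ⟨rfl, rfl⟩
  · simp only [eq_comm]
  · simp only [eq_comm, add_comm]

lemma Od.left (h : G.Od S a b) (hab : a ≠ b) : G.dg S a = 1 := by
  rw [h a]
  simp [iv, hab]

lemma Od.other (h : G.Od S a b) (ha : v ≠ a) (hb : v ≠ b) : G.dg S v = 0 := by
  rw [h v]
  simp [iv, ha, hb]

lemma Jn.symm (h : G.Jn S a b) : G.Jn S b a := ⟨h.1.symm, h.2.1.symm, h.2.2⟩

lemma Jn.left_mem (h : G.Jn S a b) : a ∈ G.vs S :=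
  mem_vs_of_dg (by rw [h.2.1.left h.1]; exact one_ne_zero)

lemma Jn.right_mem (h : G.Jn S a b) : b ∈ G.vs S := h.symm.left_mem

lemma sum_iv {R : Type} [Semiring R] (X : Finset V) (a : V) (g : V → R) :
    ∑ v ∈ X, iv (a = v) * g v = iv (a ∈ X) * g a := by
  simp only [iv, ite_mul, one_mul, zero_mul, sum_ite_eq]

/-- the handshake lemma on a vertex set -/
lemma sum_dg (S : Finset E) (X : Finset V) : ∑ v ∈ X, G.dg S v = ((G.crs S X).card : ZMod 2) := by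
  simp only [dg]
  rw [sum_comm, crs, card_filter, Nat.cast_sum]
  refine sum_congr rfl fun e _ => ?_
  rw [sum_add_distrib]
  simp only [iv, sum_ite_eq]
  by_cases h1 : G.s e ∈ X <;> by_cases h2 : G.t e ∈ X <;> simp [h1, h2, z2_add_self]

lemma Ev.even_crs (h : G.Ev S) (X : Finset V) : Even (G.crs S X).card := by
  rw [← ZMod.natCast_eq_zero_iff_even, ← sum_dg]
  exact sum_eq_zero fun v _ => h v

lemma Od.crs_card (h : G.Od S a b) (X : Finset V) :
    ((G.crs S X).card : ZMod 2) = iv (a ∈ X) + iv (b ∈ X) := by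
  rw [← sum_dg, sum_congr rfl fun v _ => h v, sum_add_distrib]
  simp only [iv, sum_ite_eq']

lemma Adj.symm (h : G.Adj S a b) : G.Adj S b a := by
  obtain ⟨e, h1, h2⟩ := h
  exact ⟨e, h1, h2.symm⟩

lemma Rch.refl (S : Finset E) (a : V) : G.Rch S a a := Relation.ReflTransGen.refl

lemma Rch.trans (h : G.Rch S a b) (h' : G.Rch S b c) : G.Rch S a c :=
  Relation.ReflTransGen.trans h h'

lemma Rch.symm (h : G.Rch S a b) : G.Rch S b a := by
  induction h with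
  | refl => exact Rch.refl _ _
  | tail _ h2 ih => exact Relation.ReflTransGen.head h2.symm ih

lemma Rch.mono (h : G.Rch S a b) (hS : S ⊆ T) : G.Rch T a b := by
  induction h with
  | refl => exact Rch.refl _ _
  | tail _ h2 ih =>
    obtain ⟨e, h3, h4⟩ := h2
    exact ih.tail ⟨e, hS h3, h4⟩

lemma rch_edge (h : e ∈ S) : G.Rch S (G.s e) (G.t e) :=
  Relation.ReflTransGen.single ⟨e, h, Or.inl ⟨rfl, rfl⟩⟩

lemma rch_at (h : e ∈ S) (ha : G.At e a) (hb : G.At e b) : G.Rch S a b := by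
  rcases ha with rfl | rfl <;> rcases hb with rfl | rfl
  exacts [Rch.refl _ _, rch_edge h, (rch_edge h).symm, Rch.refl _ _]

lemma Rch.closed {P : V → Prop} (h : G.Rch S a b) (hP : ∀ e ∈ S, P (G.s e) ↔ P (G.t e))
    (ha : P a) : P b := by
  induction h with
  | refl => exact ha
  | tail _ h2 ih =>
    obtain ⟨e, h3, ⟨rfl, rfl⟩ | ⟨rfl, rfl⟩⟩ := h2
    exacts [(hP e h3).1 ih, (hP e h3).2 ih]

lemma Rch.mem_vs (h : G.Rch S a b) (hab : a ≠ b) : a ∈ G.vs S := by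
  rcases Relation.ReflTransGen.cases_head h with h | ⟨c, ⟨e, h1, h2⟩, -⟩
  · exact absurd h hab
  · exact SG.mem_vs.2 ⟨e, h1, h2.elim (fun k => Or.inl k.1) fun k => Or.inr k.2⟩

lemma cn_of_base {U : Finset V} (h : ∀ v ∈ U, G.Rch S a v) : G.Cn U S := fun x hx y hy =>
  (h x hx).symm.trans (h y hy)

lemma Cn.union (h : G.Cn (G.vs S) S) (h' : G.Cn (G.vs T) T) (ha : a ∈ G.vs S) (ha' : a ∈ G.vs T) :
    G.Cn (G.vs (S ∪ T)) (S ∪ T) := by
  refine cn_of_base (a := a) fun v hv => ?_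
  rw [vs_union, mem_union] at hv
  rcases hv with hv | hv
  exacts [(h a ha v hv).mono subset_union_left, (h' a ha' v hv).mono subset_union_right]

lemma cn_edge : G.Cn (G.vs {e}) {e} := fun a ha b hb => by
  obtain ⟨x, h1, h2⟩ := mem_vs.1 ha
  obtain ⟨y, h3, h4⟩ := mem_vs.1 hb
  rw [mem_singleton] at h1 h3
  exact rch_at (mem_singleton_self e) (h1 ▸ h2) (h3 ▸ h4)

lemma Rch.od (h : G.Rch S a b) : ∃ P ⊆ S, G.Od P a b := by
  induction h with
  | refl => exact ⟨∅, empty_subset _, od_self.2 ev_empty⟩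
  | tail _ h2 ih =>
    obtain ⟨P, h3, h4⟩ := ih
    obtain ⟨e, h5, h6⟩ := h2
    exact ⟨_, symmDiff_subset_union.trans (union_subset h3 (singleton_subset_iff.2 h5)),
      h4.symmDiff (od_edge h6)⟩

open Classical in
/-- the component of `a` in `S` -/
lemma exists_cmp (S : Finset E) (a : V) : ∃ K ⊆ S, (∀ e ∈ S, e ∈ K ↔ G.Rch S a (G.s e)) ∧
    (∀ v, G.dg K v = if G.Rch S a v then G.dg S v else 0) ∧ (∀ v ∈ G.vs K, G.Rch K a v) ∧
    (∀ v, G.Rch S a v → G.Rch K a v) := by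
  have k3 : ∀ v, G.Rch S a v → G.Rch (S.filter fun e => G.Rch S a (G.s e)) a v := by
    intro v hv
    induction hv with
    | refl => exact Rch.refl _ _
    | tail h1 h2 ih =>
      obtain ⟨e, h3, h4⟩ := h2
      refine ih.tail ⟨e, mem_filter.2 ⟨h3, ?_⟩, h4⟩
      rcases h4 with ⟨rfl, rfl⟩ | ⟨rfl, rfl⟩
      exacts [h1, Rch.trans h1 (rch_edge h3).symm]
  refine ⟨S.filter fun e => G.Rch S a (G.s e), filter_subset _ _, fun e he => by simp [he],
    fun v => ?_, fun v hv => k3 v ?_, k3⟩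
  · rw [dg, sum_filter]
    split_ifs with h
    · refine sum_congr rfl fun e he => ?_
      split_ifs with h1
      · rfl
      · have h2 : G.s e ≠ v := fun k => h1 (k ▸ h)
        have h3 : G.t e ≠ v := fun k => h1 (h.trans (k ▸ rch_edge he).symm)
        simp [iv, h2, h3]
    · refine sum_eq_zero fun e he => ?_
      split_ifs with h1
      · have h2 : G.s e ≠ v := fun k => h (k ▸ h1)
        have h3 : G.t e ≠ v := fun k => h (k ▸ h1.trans (rch_edge he))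
        simp [iv, h2, h3]
      · rfl
  · obtain ⟨e, h1, h2⟩ := mem_vs.1 hv
    obtain ⟨h3, h4⟩ := mem_filter.1 h1
    exact h4.trans (rch_at h3 (Or.inl rfl) h2)

lemma Od.rch [Fintype V] (h : G.Od S a b) : G.Rch S a b := by
  classical
  by_contra k
  have h1 := h.crs_card (univ.filter fun v => G.Rch S a v)
  rw [show G.crs S (univ.filter fun v => G.Rch S a v) = ∅ from filter_eq_empty_iff.2 fun e he => by
    simp only [mem_filter, mem_univ, true_and, not_not]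
    exact ⟨fun k => k.trans (rch_edge he), fun k => k.trans (rch_edge he).symm⟩] at h1
  simp [iv, k, Rch.refl] at h1

lemma Od.jn [Fintype V] (h : G.Od S a b) (hab : a ≠ b) : ∃ P ⊆ S, G.Jn P a b := by
  obtain ⟨K, h1, -, h2, h3, -⟩ := exists_cmp (G := G) S a
  refine ⟨K, h1, hab, fun v => ?_, cn_of_base h3⟩
  rw [h2 v]
  split_ifs with k
  · exact h v
  · have k1 : v ≠ a := fun k1 => k (k1 ▸ Rch.refl _ _)
    have k2 : v ≠ b := fun k2 => k (k2 ▸ h.rch)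
    simp [iv, k1, k2]

lemma Rch.jn [Fintype V] (h : G.Rch S a b) (hab : a ≠ b) : ∃ P ⊆ S, G.Jn P a b := by
  obtain ⟨P, h1, h2⟩ := h.od
  obtain ⟨Q, h3, h4⟩ := h2.jn hab
  exact ⟨Q, h3.trans h1, h4⟩

/-- the component of an edge in an even set -/
lemma Ev.cc (h : G.Ev S) (he : e ∈ S) : ∃ C ⊆ S, e ∈ C ∧ G.Cc C ∧
    ∀ v, G.Rch S (G.s e) v → G.Rch C (G.s e) v := by
  obtain ⟨K, h1, h0, h2, h3, h4⟩ := exists_cmp (G := G) S (G.s e)
  have h5 := (h0 e he).2 (Rch.refl _ _)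
  refine ⟨K, h1, h5, ⟨⟨e, h5⟩, fun v => ?_, cn_of_base h3⟩, h4⟩
  rw [h2 v, h v, ite_self]

lemma sum_sw [Fintype V] (p : V → ZMod 2) (S : Finset E) :
    ∑ e ∈ S, G.sw p e = G.par S + ∑ v, G.dg S v * p v := by
  simp only [sw, par, dg, sum_mul, add_mul]
  rw [sum_comm, ← sum_add_distrib]
  refine sum_congr rfl fun e _ => ?_
  rw [sum_add_distrib, sum_iv, sum_iv]
  simp [iv, add_assoc]

lemma Ev.par_eq [Fintype V] (h : G.Ev S) (p : V → ZMod 2) : G.par S = ∑ e ∈ S, G.sw p e := by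
  rw [sum_sw]
  simp [h _]

lemma Od.par_eq [Fintype V] (h : G.Od S a b) (p : V → ZMod 2) :
    ∑ e ∈ S, G.sw p e = G.par S + p a + p b := by
  rw [sum_sw, add_assoc]
  simp [h _, iv, add_mul, sum_add_distrib]

lemma Bal.mono (h : G.Bal T) (hS : S ⊆ T) : G.Bal S := by
  obtain ⟨p, hp⟩ := h
  exact ⟨p, fun e he => hp e (hS he)⟩

lemma Bal.par_zero [Fintype V] (h : G.Bal T) (hS : S ⊆ T) (h' : G.Ev S) : G.par S = 0 := by
  obtain ⟨p, hp⟩ := h
  rw [h'.par_eq p]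
  exact sum_eq_zero fun e he => hp e (hS he)

lemma Ev.odd_cc (h : G.Ev S) (hp : G.par S = 1) : ∃ C ⊆ S, G.Cc C ∧ G.par C = 1 := by
  induction S using Finset.strongInduction with
  | H S ih =>
    rcases S.eq_empty_or_nonempty with rfl | ⟨e, he⟩
    · simp [par] at hp
    obtain ⟨C, h1, h2, h3, -⟩ := h.cc he
    rcases z2 (G.par C) with h4 | h4
    · obtain ⟨D, h5, h6⟩ := ih (S \ C) (sdiff_ssubset h1 ⟨e, h2⟩)
        (fun v => by rw [dg_sdiff h1, h v, h3.2.1 v, add_zero])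
        (by rw [par_sdiff h1, hp, h4, add_zero])
      exact ⟨D, h5.trans sdiff_subset, h6⟩
    · exact ⟨C, h1, h3, h4⟩

lemma exists_odd_cc [Fintype V] (h : ¬ G.Bal S) : ∃ C ⊆ S, G.Cc C ∧ G.par C = 1 := by
  classical
  let r : Setoid V := ⟨G.Rch S, fun a => Rch.refl _ _, Rch.symm, Rch.trans⟩
  have k : ∀ v : V, ∃ P ⊆ S, G.Od P (Quotient.mk r v).out v := fun v =>
    Rch.od (Quotient.mk_out (s := r) v)
  choose P h1 h2 using k
  by_contra k
  refine h ⟨fun v => G.par (P v), fun e he => ?_⟩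
  by_contra k2
  have h3 : Quotient.mk r (G.s e) = Quotient.mk r (G.t e) := Quotient.sound (rch_edge he)
  have h4 : G.Ev (symmDiff (symmDiff (P (G.s e)) {e}) (P (G.t e))) :=
    od_self.1 (((h2 _).symmDiff (od_edge (Or.inl ⟨rfl, rfl⟩))).symmDiff (h3 ▸ (h2 _).symm))
  obtain ⟨C, h5, h6⟩ := h4.odd_cc (by
    rw [par_symmDiff, par_symmDiff, ← (z2_ne _).1 k2, sw, par, par, par, sum_singleton]
    ring)
  exact k ⟨C, h5.trans (symmDiff_subset_union.trans (union_subset (symmDiff_subset_union.trans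
    (union_subset (h1 _) (singleton_subset_iff.2 he))) (h1 _))), h6⟩

lemma sum_bd {R : Type} [CommRing R] (p : V → ZMod 2) (U : Finset V) (f : E → R) :
    ∑ v ∈ U, chi (p v) * G.bd f v = ∑ e ∈ G.A, G.kap p U e * f e := by
  simp only [bd, mul_sum]
  rw [sum_comm]
  refine sum_congr rfl fun e _ => ?_
  rw [kap, ← sum_iv U (G.s e) fun v => (chi (p v) : R), ← sum_iv U (G.t e) fun v => (chi (p v) : R),
    sum_mul, ← sum_sub_distrib, sum_mul]
  exact sum_congr rfl fun v _ => by ring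

lemma kap_ins {R : Type} [CommRing R] {p : V → ZMod 2} {U : Finset V} (h1 : G.s e ∈ U)
    (h2 : G.t e ∈ U) : (G.kap p U e : R) = chi (p (G.s e)) * (1 - chi (G.sw p e)) := by
  simp only [kap, iv, h1, h2, if_true, sw, chi_add]
  linear_combination (chi (G.n e) * chi (p (G.t e)) : R) * chi_mul_self (R := R) (p (G.s e))

lemma kap_out {R : Type} [CommRing R] {p : V → ZMod 2} {U : Finset V} (h1 : G.s e ∉ U)
    (h2 : G.t e ∉ U) : (G.kap p U e : R) = 0 := by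
  simp [kap, iv, h1, h2]

lemma bd_congr {R : Type} [Ring R] {f g : E → R} (h : ∀ e ∈ G.A, G.At e v → f e = g e) :
    G.bd f v = G.bd g v := by
  refine sum_congr rfl fun e he => ?_
  by_cases k : G.At e v
  · rw [h e he k]
  · have h1 : G.s e ≠ v := fun k1 => k (Or.inl k1)
    have h2 : G.t e ≠ v := fun k1 => k (Or.inr k1)
    simp [iv, h1, h2]

lemma bd_add {R : Type} [Ring R] (f g : E → R) :
    G.bd (fun e => f e + g e) v = G.bd f v + G.bd g v := by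
  simp only [bd, mul_add, sum_add_distrib]

lemma bd_mul {R : Type} [CommRing R] (x : R) (f : E → R) :
    G.bd (fun e => x * f e) v = x * G.bd f v := by
  simp only [bd, mul_sum]
  exact sum_congr rfl fun e _ => by ring

end mem

end SG

end Pool.Agent.Work.MP_8c679b_co
end

-- merged part: Pool.Agent.Work.MP_8c679b_co.Circ
section
/-!
Circuits, arcs, rungs and rings in cubic signed graphs.
-/

set_option autoImplicit false

namespace Pool.Agent.Work.MP_8c679b_co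

open Finset

namespace SG

variable {V E : Type} [Fintype V] [DecidableEq V] [DecidableEq E] {G : SG V E}
  {W X : Finset V} {S T C D B P Q H F J : Finset E} {e : E} {u v a b c : V}

lemma Cub.deg3 (hc : G.Cub) (hv : v ∈ G.vs G.A) : G.deg G.A v = 3 :=
  (hc v).resolve_left (deg_pos.2 hv).ne'

lemma Cub.le3 (hc : G.Cub) (h : S ⊆ G.A) (v : V) : G.deg S v ≤ 3 := by
  have := deg_mono (G := G) (v := v) h
  rcases hc v with k | k <;> omega

lemma deg2_of_dg (hc : G.Cub) (h : S ⊆ G.A) (hv : v ∈ G.vs S) (h0 : G.dg S v = 0) :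
    G.deg S v = 2 := by
  have h1 := hc.le3 h v
  have h2 := deg_pos.2 hv
  obtain ⟨k, hk⟩ := dg_eq_zero.1 h0
  omega

lemma mem_of_deg_le (h : D ⊆ C) (hd : G.deg C v ≤ G.deg D v) (he : e ∈ C) (hv : G.At e v) :
    e ∈ D := by
  by_contra k
  have h1 := deg_sdiff (G := G) (v := v) h
  have h2 := deg_pos.2 (mem_vs.2 ⟨e, mem_sdiff.2 ⟨he, k⟩, hv⟩)
  omega

/-- two different edges at a vertex of degree one do not exist -/
lemma eq_of_deg_le_one (hd : G.deg S v ≤ 1) {e e' : E} (he : e ∈ S) (he' : e' ∈ S)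
    (hv : G.At e v) (hv' : G.At e' v) : e' = e :=
  mem_singleton.1 (mem_of_deg_le (G := G) (singleton_subset_iff.2 he)
    (hd.trans (by rw [deg, sum_singleton]; exact inc_pos.2 hv)) he' hv')

lemma ne_of_deg_le_one (hd : G.deg S v ≤ 1) (he : e ∈ S) (hv : G.At e v) : G.s e ≠ G.t e := by
  intro k
  have h1 : G.inc e v ≤ G.deg S v := single_le_sum (f := fun e => G.inc e v)
    (fun _ _ => Nat.zero_le _) he
  have h2 : G.inc e v = 2 := by
    rcases hv with h | h <;> simp [inc, iv, k, ← h]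
  omega

/-- at an even vertex of `D` inside an even set `C` all edges of `C` belong to `D` -/
lemma mem_of_even (hc : G.Cub) (hA : C ⊆ G.A) (hC : G.dg C v = 0) (h : D ⊆ C) (hv : v ∈ G.vs D)
    (h0 : G.dg D v = 0) (he : e ∈ C) (hv' : G.At e v) : e ∈ D :=
  mem_of_deg_le h (by rw [deg2_of_dg hc hA (vs_mono h hv) hC, deg2_of_dg hc (h.trans hA) hv h0])
    he hv'

lemma Cc.min (hC : G.Cc C) (hc : G.Cub) (hA : C ⊆ G.A) (h : D ⊆ C) (hD : G.Ev D)
    (hn : D.Nonempty) : D = C := by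
  obtain ⟨e0, h0⟩ := hn
  have k : ∀ e ∈ C, ∀ v ∈ G.vs D, G.At e v → e ∈ D := fun e he v hv hv' =>
    mem_of_even hc hA (hC.2.1 v) h hv (hD v) he hv'
  refine Subset.antisymm h fun e he => k e he (G.s e) ?_ (Or.inl rfl)
  refine (hC.2.2 _ (s_mem_vs (h h0)) _ (s_mem_vs he)).closed (P := fun v => v ∈ G.vs D)
    (fun x hx => ⟨fun k1 => t_mem_vs (k x hx _ k1 (Or.inl rfl)),
      fun k1 => s_mem_vs (k x hx _ k1 (Or.inr rfl))⟩) (s_mem_vs h0)

lemma Cc.bal (hC : G.Cc C) (hc : G.Cub) (hA : C ⊆ G.A) (h : G.par C = 0) : G.Bal C := by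
  by_contra k
  obtain ⟨D, h1, h2, h3⟩ := exists_odd_cc k
  rw [hC.min hc hA h1 h2.2.1 h2.1, h] at h3
  exact zero_ne_one h3

lemma Cc.not_bal (hC : G.Cc C) (h : G.par C = 1) (hS : C ⊆ S) : ¬ G.Bal S := fun k =>
  zero_ne_one ((k.par_zero hS hC.2.1).symm.trans h)

lemma Jn.nonempty (h : G.Jn B a b) : B.Nonempty := by
  obtain ⟨e, h1, -⟩ := mem_vs.1 h.left_mem
  exact ⟨e, h1⟩

/-- a subset of a circuit with two odd vertices is connected -/
lemma Cc.jn (hC : G.Cc C) (hc : G.Cub) (hA : C ⊆ G.A) (h : B ⊆ C) (hB : G.Od B a b)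
    (hab : a ≠ b) : G.Jn B a b := by
  obtain ⟨P, h1, h2⟩ := hB.jn hab
  rcases (B \ P).eq_empty_or_nonempty with k | k
  · rwa [Subset.antisymm (sdiff_eq_empty_iff_subset.1 k) h1]
  · obtain ⟨e, he⟩ := h2.nonempty
    have h3 := hC.min hc hA (sdiff_subset.trans h) (od_self.1 (hB.sdiff h2.2.1 h1)) k
    exact absurd he (mem_sdiff.1 (h3 ▸ h (h1 he))).2

lemma Cc.compl (hC : G.Cc C) (hc : G.Cub) (hA : C ⊆ G.A) (h : B ⊆ C) (hB : G.Jn B a b) :
    G.Jn (C \ B) a b :=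
  hC.jn hc hA sdiff_subset (hC.2.1.sdiff hB.2.1 h) hB.1

lemma Cc.arc (hC : G.Cc C) (ha : a ∈ G.vs C) (hb : b ∈ G.vs C) (hab : a ≠ b) :
    ∃ B ⊆ C, G.Jn B a b := (hC.2.2 a ha b hb).jn hab

lemma vs_split (h : B ⊆ C) : v ∈ G.vs C ↔ v ∈ G.vs B ∨ v ∈ G.vs (C \ B) := by
  rw [← mem_union, ← vs_union, union_sdiff_of_subset h]

/-- an arc and its complement share only their ends -/
lemma Cc.ends (hC : G.Cc C) (hc : G.Cub) (hA : C ⊆ G.A) (h : B ⊆ C) (hB : G.Od B a b)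
    (h1 : v ∈ G.vs B) (h2 : v ∈ G.vs (C \ B)) : v = a ∨ v = b := by
  by_contra k
  push Not at k
  obtain ⟨e, h3, h4⟩ := mem_vs.1 h2
  exact (mem_sdiff.1 h3).2 (mem_of_even hc hA (hC.2.1 v) h h1 (hB.other k.1 k.2)
    (mem_sdiff.1 h3).1 h4)

lemma Cc.arc_avoid (hC : G.Cc C) (hc : G.Cub) (hA : C ⊆ G.A) (ha : a ∈ G.vs C) (hb : b ∈ G.vs C)
    (hab : a ≠ b) (h1 : v ≠ a) (h2 : v ≠ b) : ∃ B ⊆ C, G.Jn B a b ∧ v ∉ G.vs B := by
  obtain ⟨B, h3, h4⟩ := hC.arc ha hb hab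
  by_cases k : v ∈ G.vs B
  · exact ⟨C \ B, sdiff_subset, hC.compl hc hA h3 h4, fun k2 =>
      (hC.ends hc hA h3 h4.2.1 k k2).elim h1 h2⟩
  · exact ⟨B, h3, h4, k⟩

lemma Cc.arc_mem (hC : G.Cc C) (hc : G.Cub) (hA : C ⊆ G.A) (ha : a ∈ G.vs C) (hb : b ∈ G.vs C)
    (hab : a ≠ b) (hv : v ∈ G.vs C) : ∃ B ⊆ C, G.Jn B a b ∧ v ∈ G.vs B := by
  obtain ⟨B, h3, h4⟩ := hC.arc ha hb hab
  rcases (vs_split h3).1 hv with k | k
  exacts [⟨B, h3, h4, k⟩, ⟨C \ B, sdiff_subset, hC.compl hc hA h3 h4, k⟩]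

/-- the degree outside an even set at one of its vertices is one -/
lemma deg_third (hc : G.Cub) (hA : C ⊆ G.A) (hv : v ∈ G.vs C) (h0 : G.dg C v = 0) :
    G.deg (G.A \ C) v = 1 := by
  have h1 := deg_sdiff (G := G) (v := v) hA
  have h2 := deg2_of_dg hc hA hv h0
  have h3 := hc.deg3 (vs_mono hA hv)
  omega

lemma third_unique (hc : G.Cub) (hA : C ⊆ G.A) (hv : v ∈ G.vs C) (h0 : G.dg C v = 0) {e e' : E}
    (he : e ∈ G.A) (he' : e' ∈ G.A) (h1 : e ∉ C) (h1' : e' ∉ C) (h2 : G.At e v)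
    (h2' : G.At e' v) : e' = e :=
  eq_of_deg_le_one (deg_third hc hA hv h0).le (mem_sdiff.2 ⟨he, h1⟩) (mem_sdiff.2 ⟨he', h1'⟩)
    h2 h2'

lemma third_exists (hc : G.Cub) (hA : C ⊆ G.A) (hv : v ∈ G.vs C) (h0 : G.dg C v = 0) :
    ∃ e ∈ G.A, e ∉ C ∧ G.At e v := by
  obtain ⟨e, h1, h2⟩ := mem_vs.1 (deg_pos.1 ((deg_third hc hA hv h0).symm ▸ one_pos))
  exact ⟨e, (mem_sdiff.1 h1).1, (mem_sdiff.1 h1).2, h2⟩

lemma third_ne (hc : G.Cub) (hA : C ⊆ G.A) (hv : v ∈ G.vs C) (h0 : G.dg C v = 0)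
    (he : e ∈ G.A) (h1 : e ∉ C) (h2 : G.At e v) : G.s e ≠ G.t e :=
  ne_of_deg_le_one (deg_third hc hA hv h0).le (mem_sdiff.2 ⟨he, h1⟩) h2

/-- the end of an arc has degree one in the arc -/
lemma Cc.deg_end (hC : G.Cc C) (hc : G.Cub) (hA : C ⊆ G.A) (h : B ⊆ C) (hB : G.Jn B a b) :
    G.deg B a = 1 := by
  have h1 := deg_mono (G := G) (v := a) h
  have h2 := deg2_of_dg hc hA (vs_mono h hB.left_mem) (hC.2.1 a)
  obtain ⟨k, hk⟩ := dg_eq_one.1 (hB.2.1.left hB.1)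
  omega

/-- splitting an arc at an inner vertex -/
lemma Cc.split (hC : G.Cc C) (hc : G.Cub) (hA : C ⊆ G.A) (h : B ⊆ C) (hB : G.Jn B a b)
    (hv : v ∈ G.vs B) (h1 : v ≠ a) (h2 : v ≠ b) :
    ∃ B1 ⊆ B, G.Jn B1 a v ∧ G.Jn (B \ B1) v b ∧ b ∉ G.vs B1 ∧ a ∉ G.vs (B \ B1) := by
  obtain ⟨B1, h3, h4⟩ := (hB.2.2 a hB.left_mem v hv).jn h1.symm
  have h5 := hC.jn hc hA (sdiff_subset.trans h) (hB.2.1.sdiff h4.2.1 h3) h2
  have k : ∀ {B' : Finset E} {x y : V}, G.Jn B x y → B' ⊆ B → G.dg B' x = 0 → x ∉ G.vs B' := by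
    intro B' x y k1 k2 k3 k4
    have k5 := deg_mono (G := G) (v := x) k2
    rw [hC.deg_end hc hA h k1, deg2_of_dg hc (k2.trans (h.trans hA)) k4 k3] at k5
    omega
  exact ⟨B1, h3, h4, h5, k hB.symm h3 (h4.2.1.other hB.1.symm h2.symm),
    k hB sdiff_subset (h5.2.1.other h1.symm hB.1)⟩

lemma Jn.union (h : G.Jn P a b) (h' : G.Jn Q b c) (d : Disjoint P Q) (hac : a ≠ c) :
    G.Jn (P ∪ Q) a c :=
  ⟨hac, h.2.1.union h'.2.1 d, h.2.2.union h'.2.2 h.right_mem h'.left_mem⟩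

lemma Jn.cc (h : G.Jn P a b) (h' : G.Jn Q a b) (d : Disjoint P Q) : G.Cc (P ∪ Q) :=
  ⟨h.nonempty.mono subset_union_left, od_self.1 (h.2.1.union h'.2.1.symm d),
    h.2.2.union h'.2.2 h.left_mem h'.left_mem⟩

lemma jn_edge (h : G.s e ≠ G.t e) : G.Jn {e} (G.s e) (G.t e) :=
  ⟨h, od_edge (Or.inl ⟨rfl, rfl⟩), cn_edge⟩

lemma disjoint_of_vs (h : Disjoint (G.vs S) (G.vs T)) : Disjoint S T :=
  disjoint_left.2 fun _ h1 h2 => disjoint_left.1 h (s_mem_vs h1) (s_mem_vs h2)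

/-- replacing an arc by an ear -/
lemma Cc.reroute (hC : G.Cc C) (hc : G.Cub) (hA : C ⊆ G.A) (h : J ⊆ C) (hJ : G.Jn J a b)
    (hF : G.Jn F a b) (d : Disjoint F C) : G.Cc ((C \ J) ∪ F) :=
  (hC.compl hc hA h hJ).cc hF (d.symm.mono_left sdiff_subset)

/-- an even set that meets a circuit only along it and misses a vertex of it avoids it -/
lemma Cc.avoid (hQ : G.Cc Q) (hc : G.Cub) (hA : Q ⊆ G.A) (hC : G.Ev C)
    (h : ∀ e ∈ C, ∀ v ∈ G.vs Q, G.At e v → e ∈ Q) (ha : a ∈ G.vs Q) (ha' : a ∉ G.vs C) :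
    Disjoint (G.vs C) (G.vs Q) := by
  have h1 : G.Ev (C ∩ Q) := fun v => by
    by_cases k : v ∈ G.vs Q
    · rw [← hC v, ← sdiff_union_inter C Q, dg_union (disjoint_sdiff_inter _ _),
        sdiff_union_inter, dg_of_not_mem (S := C \ Q), zero_add]
      intro k1
      obtain ⟨e, k2, k3⟩ := mem_vs.1 k1
      exact (mem_sdiff.1 k2).2 (h e (mem_sdiff.1 k2).1 v k k3)
    · exact dg_of_not_mem fun k1 => k (vs_mono inter_subset_right k1)
  refine disjoint_left.2 fun v h2 h3 => ?_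
  obtain ⟨e, h4, h5⟩ := mem_vs.1 h2
  have h6 := hQ.min hc hA inter_subset_right h1 ⟨e, mem_inter.2 ⟨h4, h e h4 v h3 h5⟩⟩
  exact ha' (vs_mono inter_subset_left (h6.symm ▸ ha))

variable (G) in
/-- vertices of `Q` whose third edge stays inside `W` -/
def Br (W : Finset V) (Q : Finset E) (v : V) : Prop :=
  v ∈ G.vs Q ∧ ∃ e ∈ G.ins W, e ∉ Q ∧ G.At e v

variable (G) in
/-- vertices with an edge leaving `W` -/
def Ex (W : Finset V) (v : V) : Prop := v ∈ W ∧ ∃ e ∈ G.cut W, G.At e v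

lemma ex_of_not_br (hc : G.Cub) (hQ : Q ⊆ G.ins W) (hE : G.Ev Q) (hv : v ∈ G.vs Q)
    (h : ¬ G.Br W Q v) : G.Ex W v := by
  obtain ⟨e, h1, h2, h3⟩ := third_exists hc (hQ.trans ins_sub_A) hv (hE v)
  have h4 := (sub_ins_iff.1 hQ).2 hv
  refine ⟨h4, e, mem_cut.2 ⟨h1, fun k => h ⟨hv, e, mem_ins.2 ⟨h1, ?_⟩, h2, h3⟩⟩, h3⟩
  rcases h3 with rfl | rfl
  exacts [⟨h4, k.1 h4⟩, ⟨k.2 h4, h4⟩]

lemma not_br_of_ex (hc : G.Cub) (hQ : Q ⊆ G.ins W) (hE : G.Ev Q) (h : G.Ex W v) :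
    ¬ G.Br W Q v := by
  rintro ⟨hv, e, h1, h2, h3⟩
  obtain ⟨-, e', h4, h5⟩ := h
  have h6 : e' ∉ G.ins W := fun k => (mem_cut.1 h4).2 (iff_of_true (mem_ins.1 k).2.1
    (mem_ins.1 k).2.2)
  exact h6 (third_unique hc (hQ.trans ins_sub_A) hv (hE v) (ins_sub_A h1) (mem_cut.1 h4).1 h2
    (fun k => h6 (hQ k)) h3 h5 ▸ h1)

lemma two_br (hc : G.Cub) (h2 : G.Two W (G.ins W)) (hQ : Q ⊆ G.ins W) (hC : G.Cc Q)
    (hW : G.vs Q ≠ W) : ∃ v v', v ≠ v' ∧ G.Br W Q v ∧ G.Br W Q v' := by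
  obtain ⟨e0, h0⟩ := hC.1
  obtain ⟨e, he, e', he', hne⟩ := one_lt_card.1
    (h2 _ (sub_ins_iff.1 hQ).2 ⟨_, s_mem_vs h0⟩ hW)
  have k : ∀ e ∈ G.crs (G.ins W) (G.vs Q), e ∉ Q ∧ ∃ v ∈ G.vs Q, G.At e v := fun e he => by
    refine ⟨fun k => (mem_crs.1 he).2 (iff_of_true (s_mem_vs k) (t_mem_vs k)), ?_⟩
    by_cases k1 : G.s e ∈ G.vs Q
    · exact ⟨_, k1, Or.inl rfl⟩
    · refine ⟨_, ?_, Or.inr rfl⟩
      by_contra k2
      exact (mem_crs.1 he).2 (iff_of_false k1 k2)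
  obtain ⟨h3, v, h4, h5⟩ := k e he
  obtain ⟨h3', v', h4', h5'⟩ := k e' he'
  refine ⟨v, v', ?_, ⟨h4, e, (mem_crs.1 he).1, h3, h5⟩, ⟨h4', e', (mem_crs.1 he').1, h3', h5'⟩⟩
  rintro rfl
  exact hne (third_unique hc (hQ.trans ins_sub_A) h4 (hC.2.1 v) (ins_sub_A (mem_crs.1 he').1)
    (ins_sub_A (mem_crs.1 he).1) h3' h3 h5' h5)

/-- two vertices of an isolated circuit are not joined outside it -/
lemma Iso.eq_of_od (hI : G.Iso W Q) (hQ : Q ⊆ G.ins W) (hC : G.Cc Q) (ha : a ∈ G.vs Q)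
    (hb : b ∈ G.vs Q) (hP : P ⊆ G.ins W) (d : Disjoint P Q) (h : G.Od P a b) : a = b := by
  by_contra k
  obtain ⟨B, h1, h2⟩ := hC.arc ha hb k
  obtain ⟨e, h3, h4⟩ := mem_vs.1 (mem_vs_of_dg (S := P) (v := a) (by
    rw [h.left k]; exact one_ne_zero))
  exact disjoint_left.1 d h3 (hI (P ∪ B) (union_subset hP (h1.trans hQ))
    (od_self.1 (h.union h2.2.1.symm (d.mono_right h1))) e (mem_union_left _ h3) a ha h4)

variable (G) in
/-- a path from `v` on `Q` to `a` on `H` -/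
def Rung (W : Finset V) (H Q P : Finset E) (v a : V) : Prop :=
  a ∈ G.vs H ∧ P ⊆ G.ins W ∧ G.Jn P v a ∧ Disjoint P H ∧ Disjoint P Q ∧
    (∀ u ∈ G.vs P, u ∈ G.vs Q → u = v) ∧ (∀ u ∈ G.vs P, u ∈ G.vs H → u = a)

lemma exists_rung1 (hc : G.Cub) (h2 : G.Two W (G.ins W)) (hH : H ⊆ G.ins W) (cH : G.Cc H)
    (hQ : Q ⊆ G.ins (W \ G.vs H)) (cQ : G.Cc Q) (hI : G.Iso (W \ G.vs H) Q)
    (hv : G.Br W Q v) : ∃ a P, G.Rung W H Q P v a ∧
      ∀ u ∈ G.vs P, u ≠ a → G.Rch (G.ins (W \ G.vs H) \ Q) v u := by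
  classical
  set S0 := G.ins (W \ G.vs H) \ Q with hS0
  have hQA := hQ.trans ins_sub_A
  have t1 : ∀ u, G.Rch S0 v u → u ∈ W \ G.vs H := fun u hu =>
    hu.closed (P := fun u => u ∈ W \ G.vs H) (fun e he => iff_of_true
      (mem_ins.1 (mem_sdiff.1 he).1).2.1 (mem_ins.1 (mem_sdiff.1 he).1).2.2)
      ((sub_ins_iff.1 hQ).2 hv.1)
  have t2 : ∀ u, G.Rch S0 v u → u ∈ G.vs Q → u = v := fun u hu hu' => by
    obtain ⟨P, h3, h4⟩ := hu.od
    exact (hI.eq_of_od hQ cQ hv.1 hu' (h3.trans sdiff_subset)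
      (sdiff_disjoint.mono_left h3) h4).symm
  have key : ∃ e ∈ G.ins W, ∃ x a, G.Rch S0 v x ∧ a ∈ G.vs H ∧
      ((G.s e = x ∧ G.t e = a) ∨ (G.s e = a ∧ G.t e = x)) := by
    by_contra k
    push Not at k
    have k1 : ∀ e ∈ G.ins W, ∀ x, G.Rch S0 v x → G.At e x → e ∈ G.ins (W \ G.vs H) := by
      intro e he x hx hx'
      obtain ⟨k2, k3, k4⟩ := mem_ins.1 he
      rcases hx' with rfl | rfl
      · exact mem_ins.2 ⟨k2, t1 _ hx, mem_sdiff.2 ⟨k4, fun k5 => (k e he _ _ hx k5).1 rfl rfl⟩⟩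
      · exact mem_ins.2 ⟨k2, mem_sdiff.2 ⟨k3, fun k5 => (k e he _ _ hx k5).2 rfl rfl⟩, t1 _ hx⟩
    obtain ⟨hv1, e0, h3, h4, h5⟩ := hv
    have h6 : e0 ∈ S0 := mem_sdiff.2 ⟨k1 e0 h3 v (Rch.refl _ _) h5, h4⟩
    have h7 := third_ne hc hQA hv1 (cQ.2.1 v) (ins_sub_A h3) h4 h5
    set X := univ.filter fun u => G.Rch S0 v u ∧ u ≠ v with hX
    have mX : ∀ u, u ∈ X ↔ G.Rch S0 v u ∧ u ≠ v := fun u => by simp [hX]
    have h8 := h2 X (fun u hu => (mem_sdiff.1 (t1 u ((mX u).1 hu).1)).1) (by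
      rcases h5 with rfl | rfl
      exacts [⟨_, (mX _).2 ⟨rch_edge h6, h7.symm⟩⟩, ⟨_, (mX _).2 ⟨(rch_edge h6).symm, h7⟩⟩])
      fun k2 => ((mX v).1 (k2 ▸ (mem_sdiff.1 (t1 v (Rch.refl _ _))).1)).2 rfl
    have h9 : G.crs (G.ins W) X ⊆ {e0} := fun e he => by
      obtain ⟨k2, k3⟩ := mem_crs.1 he
      have k4 : ∀ x ∈ X, G.At e x → e ∈ S0 := fun x hx hx' => by
        refine mem_sdiff.2 ⟨k1 e k2 x ((mX x).1 hx).1 hx', fun k5 => ?_⟩
        exact ((mX x).1 hx).2 (t2 x ((mX x).1 hx).1 (mem_vs.2 ⟨e, k5, hx'⟩))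
      have k5 : e ∈ S0 ∧ G.At e v := by
        by_cases k6 : G.s e ∈ X
        · have k7 := k4 _ k6 (Or.inl rfl)
          refine ⟨k7, Or.inr ?_⟩
          by_contra k8
          exact k3 (iff_of_true k6 ((mX _).2 ⟨((mX _).1 k6).1.trans (rch_edge k7), k8⟩))
        · have k6' : G.t e ∈ X := by
            by_contra k8
            exact k3 (iff_of_false k6 k8)
          have k7 := k4 _ k6' (Or.inr rfl)
          refine ⟨k7, Or.inl ?_⟩
          by_contra k8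
          exact k6 ((mX _).2 ⟨((mX _).1 k6').1.trans (rch_edge k7).symm, k8⟩)
      exact mem_singleton.2 (third_unique hc hQA hv1 (cQ.2.1 v) (ins_sub_A h3) (ins_sub_A k2) h4
        (mem_sdiff.1 k5.1).2 h5 k5.2)
    have := card_le_card h9
    rw [card_singleton] at this
    omega
  obtain ⟨e, h3, x, a, h4, h5, h6⟩ := key
  have h7 : v ≠ a := fun k => (mem_sdiff.1 (t1 v (Rch.refl _ _))).2 (k ▸ h5)
  obtain ⟨P, h8, h9⟩ := ((h4.mono (subset_insert e S0)).trans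
    (Relation.ReflTransGen.single ⟨e, mem_insert_self _ _, h6⟩)).jn h7
  have t3 : ∀ u ∈ G.vs P, G.Rch S0 v u ∨ u = a := fun u hu => by
    refine (h9.2.2 v h9.left_mem u hu).closed (P := fun u => G.Rch S0 v u ∨ u = a)
      (fun y hy => ?_) (Or.inl (Rch.refl _ _))
    rcases mem_insert.1 (h8 hy) with rfl | k
    · rcases h6 with ⟨rfl, rfl⟩ | ⟨rfl, rfl⟩
      exacts [iff_of_true (Or.inl h4) (Or.inr rfl), iff_of_true (Or.inr rfl) (Or.inl h4)]
    · have k1 : ∀ z ∈ W \ G.vs H, z ≠ a := fun z hz k2 => (mem_sdiff.1 hz).2 (k2 ▸ h5)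
      have k2 := mem_ins.1 (mem_sdiff.1 k).1
      simp only [k1 _ k2.2.1, k1 _ k2.2.2, or_false]
      exact ⟨fun k3 => k3.trans (rch_edge k), fun k3 => k3.trans (rch_edge k).symm⟩
  have xa : G.At e x ∧ G.At e a := by
    rcases h6 with ⟨k1, k2⟩ | ⟨k1, k2⟩
    exacts [⟨Or.inl k1, Or.inr k2⟩, ⟨Or.inr k2, Or.inl k1⟩]
  refine ⟨a, P, ⟨h5, h8.trans (insert_subset h3 (sdiff_subset.trans (ins_mono sdiff_subset))), h9,
    disjoint_left.2 fun y hy hy' => ?_, disjoint_left.2 fun y hy hy' => ?_, fun u hu hu' => ?_,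
    fun u hu hu' => ?_⟩, fun u hu hu' => (t3 u hu).resolve_right hu'⟩
  · rcases mem_insert.1 (h8 hy) with rfl | k
    · exact (mem_sdiff.1 (t1 x h4)).2 (mem_vs.2 ⟨y, hy', xa.1⟩)
    · exact (mem_sdiff.1 (mem_ins.1 (mem_sdiff.1 k).1).2.1).2 (s_mem_vs hy')
  · rcases mem_insert.1 (h8 hy) with rfl | k
    · exact (mem_sdiff.1 ((sub_ins_iff.1 hQ).2 (mem_vs.2 ⟨y, hy', xa.2⟩))).2 h5
    · exact (mem_sdiff.1 k).2 hy'
  · rcases t3 u hu with k | rfl
    · exact t2 u k hu'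
    · exact absurd h5 (mem_sdiff.1 ((sub_ins_iff.1 hQ).2 hu')).2
  · exact (t3 u hu).resolve_left fun k => (mem_sdiff.1 (t1 u k)).2 hu'

/-- pairwise disjoint rungs from the branch vertices of an isolated circuit -/
lemma exists_rungs (hc : G.Cub) (h2 : G.Two W (G.ins W)) (hH : H ⊆ G.ins W) (cH : G.Cc H)
    (hQ : Q ⊆ G.ins (W \ G.vs H)) (cQ : G.Cc Q) (hI : G.Iso (W \ G.vs H) Q) :
    ∃ (a : V → V) (P : V → Finset E), (∀ v, G.Br W Q v → G.Rung W H Q (P v) v (a v)) ∧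
      ∀ v v', G.Br W Q v → G.Br W Q v' → v ≠ v' → Disjoint (G.vs (P v)) (G.vs (P v')) := by
  choose! a P h3 h4 using fun v hv => exists_rung1 (v := v) hc h2 hH cH hQ cQ hI hv
  refine ⟨a, P, h3, fun v v' hv hv' hne => ?_⟩
  obtain ⟨a1, a2, a3, a4, -, -, a7⟩ := h3 v hv
  obtain ⟨b1, b2, b3, b4, -, -, b7⟩ := h3 v' hv'
  have k : ∀ u ∈ G.vs (P v), u ∈ G.vs (P v') → u ∈ G.vs H := fun u hu hu' => by
    by_contra k
    obtain ⟨R, k1, k2⟩ := ((h4 v hv u hu fun k1 => k (k1 ▸ a1)).trans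
      (h4 v' hv' u hu' fun k1 => k (k1 ▸ b1)).symm).od
    exact hne (hI.eq_of_od hQ cQ hv.1 hv'.1 (k1.trans sdiff_subset)
      (sdiff_disjoint.mono_left k1) k2)
  refine disjoint_left.2 fun u hu hu' => ?_
  have k1 := k u hu hu'
  obtain ⟨e, k2, k3⟩ := mem_vs.1 hu
  obtain ⟨e', k4, k5⟩ := mem_vs.1 hu'
  have hHA := hH.trans ins_sub_A
  obtain rfl := third_unique hc hHA k1 (cH.2.1 u) (ins_sub_A (a2 k2)) (ins_sub_A (b2 k4))
    (disjoint_left.1 a4 k2) (disjoint_left.1 b4 k4) k3 k5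
  exact third_ne hc hHA k1 (cH.2.1 u) (ins_sub_A (a2 k2)) (disjoint_left.1 a4 k2) k3
    ((a7 _ (s_mem_vs k2) (k _ (s_mem_vs k2) (s_mem_vs k4))).trans
      (a7 _ (t_mem_vs k2) (k _ (t_mem_vs k2) (t_mem_vs k4))).symm)

/-- the circuit formed by two rungs and two arcs -/
lemma ring_cc {P P' A : Finset E} {v' a' : V} (hH : H ⊆ G.ins W)
    (hQ : Q ⊆ G.ins (W \ G.vs H)) (h : G.Rung W H Q P v a) (h' : G.Rung W H Q P' v' a')
    (d : Disjoint (G.vs P) (G.vs P')) (hA : A ⊆ Q) (jA : G.Jn A v v') (hB : B ⊆ H)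
    (jB : G.Jn B a a') : G.Cc ((A ∪ P') ∪ (P ∪ B)) ∧ (A ∪ P') ∪ (P ∪ B) ⊆ G.ins W ∧
      ∀ g : E → ZMod 2, ∑ e ∈ (A ∪ P') ∪ (P ∪ B), g e =
        ∑ e ∈ A, g e + ∑ e ∈ P', g e + (∑ e ∈ P, g e + ∑ e ∈ B, g e) := by
  obtain ⟨a1, a2, a3, a4, a5, -, -⟩ := h
  obtain ⟨b1, b2, b3, b4, b5, -, -⟩ := h'
  have k0 : v ≠ a' := fun k => disjoint_left.1 d a3.left_mem (k ▸ b3.right_mem)
  have d1 : Disjoint A P' := (b5.mono_right hA).symm
  have d2 : Disjoint P B := a4.mono_right hB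
  have d3 : Disjoint A B := disjoint_left.2 fun e h1 h2 =>
    (mem_sdiff.1 (mem_ins.1 (hQ (hA h1))).2.1).2 (s_mem_vs (hB h2))
  have d4 : Disjoint (A ∪ P') (P ∪ B) := disjoint_union_left.2
    ⟨disjoint_union_right.2 ⟨(a5.mono_right hA).symm, d3⟩,
      disjoint_union_right.2 ⟨(disjoint_of_vs d).symm, b4.mono_right hB⟩⟩
  exact ⟨(jA.union b3 d1 k0).cc (a3.union jB d2 k0) d4,
    union_subset (union_subset (hA.trans (hQ.trans (ins_mono sdiff_subset))) b2)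
      (union_subset a2 (hB.trans hH)),
    fun g => by rw [sum_union d4, sum_union d1, sum_union d2]⟩

/-- an odd arc between two marked vertices of minimal size -/
lemma exists_min_arc (hc : G.Cub) (hA : Q ⊆ G.A) (cQ : G.Cc Q) (M : V → Prop)
    (hM : ∀ v, M v → v ∈ G.vs Q) (h : ∃ v v', v ≠ v' ∧ M v ∧ M v') (g : E → ZMod 2)
    (hg : ∑ e ∈ Q, g e = 1) : ∃ v v' A, M v ∧ M v' ∧ A ⊆ Q ∧ G.Jn A v v' ∧ ∑ e ∈ A, g e = 1 ∧
      (∀ u ∈ G.vs A, M u → u = v ∨ u = v') ∧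
      ∀ u u' A', M u → M u' → A' ⊆ Q → G.Jn A' u u' → ∑ e ∈ A', g e = 1 → A.card ≤ A'.card := by
  classical
  have ex : ∃ k, ∃ v v' A, M v ∧ M v' ∧ A ⊆ Q ∧ G.Jn A v v' ∧ ∑ e ∈ A, g e = 1 ∧ A.card = k := by
    obtain ⟨v, v', h1, h2, h3⟩ := h
    obtain ⟨A, h4, h5⟩ := cQ.arc (hM v h2) (hM v' h3) h1
    rcases z2 (∑ e ∈ A, g e) with k | k
    · exact ⟨_, v, v', Q \ A, h2, h3, sdiff_subset, cQ.compl hc hA h4 h5,
        by rw [sum_sdiff2 h4, hg, k, add_zero], rfl⟩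
    · exact ⟨_, v, v', A, h2, h3, h4, h5, k, rfl⟩
  obtain ⟨v, v', A, h1, h2, h3, h4, h5, h6⟩ := Nat.find_spec ex
  have mn : ∀ u u' A', M u → M u' → A' ⊆ Q → G.Jn A' u u' → ∑ e ∈ A', g e = 1 →
      A.card ≤ A'.card := fun u u' A' k1 k2 k3 k4 k5 =>
    h6 ▸ Nat.find_min' ex ⟨u, u', A', k1, k2, k3, k4, k5, rfl⟩
  refine ⟨v, v', A, h1, h2, h3, h4, h5, fun u hu hu' => ?_, mn⟩
  by_contra k
  push Not at k
  obtain ⟨B, k1, k2, k3, -, -⟩ := cQ.split hc hA h3 h4 hu k.1 k.2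
  have k4 := card_sdiff_add_card_eq_card k1
  have k5 := k2.nonempty.card_pos
  have k6 := k3.nonempty.card_pos
  rcases z2 (∑ e ∈ B, g e) with k7 | k7
  · have := mn u v' _ hu' h2 (sdiff_subset.trans h3) k3 (by rw [sum_sdiff2 k1, h5, k7, add_zero])
    omega
  · have := mn v u _ h1 hu' (k1.trans h3) k2 k7
    omega

end SG

end Pool.Agent.Work.MP_8c679b_co
end

-- merged part: Pool.Agent.Work.MP_8c679b_co.Men
section
set_option autoImplicit false

namespace Pool.Agent.Work.MP_8c679b_co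

open Finset

namespace SG

variable {V E : Type} [Fintype V] [DecidableEq V] [DecidableEq E] {G : SG V E}

/-- unsigned divergence of an integer edge function -/
def dv (G : SG V E) (S : Finset E) (th : E → ℤ) (v : V) : ℤ :=
  ∑ e ∈ S, (iv (G.s e = v) - iv (G.t e = v)) * th e

/-- unit flows on `S` that vanish on the edges inside `T` -/
def Okf (G : SG V E) (S : Finset E) (T : Finset V) (th : E → ℤ) : Prop :=
  ∀ e, (-1 ≤ th e ∧ th e ≤ 1) ∧ (G.s e ∈ T ∧ G.t e ∈ T → th e = 0)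

lemma sum_dv (S : Finset E) (th : E → ℤ) (X : Finset V) :
    ∑ v ∈ X, G.dv S th v = ∑ e ∈ S, (iv (G.s e ∈ X) - iv (G.t e ∈ X)) * th e := by
  simp only [dv]
  rw [sum_comm]
  refine sum_congr rfl fun e _ => ?_
  rw [← sum_mul, sum_sub_distrib]
  simp only [iv, sum_ite_eq]

lemma dv_update {S : Finset E} (th : E → ℤ) {e : E} (he : e ∈ S) (a : ℤ) (u : V) :
    G.dv S (Function.update th e (th e + a)) u =
      G.dv S th u + (iv (G.s e = u) - iv (G.t e = u)) * a := by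
  simp only [dv]
  rw [← add_sum_erase S _ he, ← add_sum_erase S (fun e => (iv (G.s e = u) - iv (G.t e = u)) * th e) he,
    Function.update_self, sum_congr rfl fun x hx => by
      rw [Function.update_of_ne (ne_of_mem_erase hx)]]
  ring

lemma augment (S : Finset E) (T : Finset V) (th : E → ℤ) (hth : G.Okf S T th) (x : V)
    (hx : x ∉ T) :
    (∃ w ∈ T, ∃ th', G.Okf S T th' ∧
      ∀ u, G.dv S th' u = G.dv S th u + iv (x = u) - iv (w = u)) ∨
    ∃ R : Finset V, Disjoint R T ∧ x ∈ R ∧ ((G.crs S R).card : ℤ) = ∑ v ∈ R, G.dv S th v := by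
  classical
  let P : Finset V → Prop := fun R => Disjoint R T ∧ x ∈ R ∧ ∀ v ∈ R, ∃ th' : E → ℤ,
    (∀ e, -1 ≤ th' e ∧ th' e ≤ 1) ∧ (∀ e, ¬ (G.s e ∈ R ∧ G.t e ∈ R) → th' e = th e) ∧
      ∀ u, G.dv S th' u = G.dv S th u + iv (x = u) - iv (v = u)
  obtain ⟨R, hR, hmax⟩ := exists_max_image (univ.filter P) card ⟨{x}, mem_filter.2 ⟨mem_univ _,
    disjoint_singleton_left.2 hx, mem_singleton_self x, fun v hv =>
      ⟨th, fun e => (hth e).1, fun _ _ => rfl, fun u => by rw [mem_singleton.1 hv]; ring⟩⟩⟩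
  obtain ⟨r1, r2, r3⟩ := (mem_filter.1 hR).2
  by_contra hcon
  rw [not_or] at hcon
  obtain ⟨c1, c2⟩ := hcon
  have step : ∀ e ∈ S, ∀ v ∈ R, ∀ w, w ∉ R → ∀ a : ℤ,
      ((G.s e = v ∧ G.t e = w ∧ a = 1) ∨ (G.s e = w ∧ G.t e = v ∧ a = -1)) → a * th e = 1 := by
    intro e he v hv w hw a ha
    by_contra hne
    obtain ⟨th', b1, b2, b3⟩ := r3 v hv
    have e0 : th' e = th e := b2 e (by
      rcases ha with ⟨_, h, _⟩ | ⟨h, _, _⟩
      · exact fun k => hw (h ▸ k.2)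
      · exact fun k => hw (h ▸ k.1))
    have d1 : ∀ e', -1 ≤ Function.update th' e (th' e + a) e' ∧
        Function.update th' e (th' e + a) e' ≤ 1 := by
      intro e'
      by_cases k : e' = e
      · subst k
        rw [Function.update_self, e0]
        have := (hth e').1
        rcases ha with ⟨_, _, h⟩ | ⟨_, _, h⟩ <;> subst h <;> omega
      · rw [Function.update_of_ne k]; exact b1 e'
    have d2 : ∀ u, G.dv S (Function.update th' e (th' e + a)) u =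
        G.dv S th u + iv (x = u) - iv (w = u) := by
      intro u
      rw [dv_update th' he, b3 u]
      rcases ha with ⟨h1, h2, h3⟩ | ⟨h1, h2, h3⟩ <;> rw [h1, h2, h3] <;> ring
    have d3 : ∀ e', e' ≠ e → ¬ (G.s e' ∈ R ∧ G.t e' ∈ R) →
        Function.update th' e (th' e + a) e' = th e' := fun e' k k' => by
      rw [Function.update_of_ne k, b2 e' k']
    by_cases hwT : w ∈ T
    · refine c1 ⟨w, hwT, _, fun e' => ⟨d1 e', fun k => ?_⟩, d2⟩
      have hvT : v ∉ T := disjoint_left.1 r1 hv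
      rw [d3 e' ?_ fun k' => disjoint_left.1 r1 k'.1 k.1, (hth e').2 k]
      rintro rfl
      rcases ha with ⟨h, _, _⟩ | ⟨_, h, _⟩
      exacts [hvT (h ▸ k.1), hvT (h ▸ k.2)]
    · have := hmax (insert w R) (mem_filter.2 ⟨mem_univ _, disjoint_insert_left.2 ⟨hwT, r1⟩,
        mem_insert_of_mem r2, fun v' hv' => ?_⟩)
      · rw [card_insert_of_notMem hw] at this
        omega
      rcases mem_insert.1 hv' with rfl | k
      · refine ⟨_, d1, fun e' k => d3 e' ?_ fun k' =>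
          k ⟨mem_insert_of_mem k'.1, mem_insert_of_mem k'.2⟩, d2⟩
        rintro rfl
        rcases ha with ⟨h1, h2, _⟩ | ⟨h1, h2, _⟩ <;> rw [h1, h2] at k
        exacts [k ⟨mem_insert_of_mem hv, mem_insert_self _ _⟩,
          k ⟨mem_insert_self _ _, mem_insert_of_mem hv⟩]
      · obtain ⟨t2, g1, g2, g3⟩ := r3 v' k
        exact ⟨t2, g1, fun e' k => g2 e' fun k' =>
          k ⟨mem_insert_of_mem k'.1, mem_insert_of_mem k'.2⟩, g3⟩
  refine c2 ⟨R, r1, r2, ?_⟩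
  rw [sum_dv, crs, card_filter, Nat.cast_sum]
  refine sum_congr rfl fun e he => ?_
  by_cases h1 : G.s e ∈ R <;> by_cases h2 : G.t e ∈ R
  · simp [iv, h1, h2]
  · have := step e he _ h1 _ h2 1 (Or.inl ⟨rfl, rfl, rfl⟩)
    simp [iv, h1, h2]; omega
  · have := step e he _ h2 _ h1 (-1) (Or.inr ⟨rfl, rfl, rfl⟩)
    simp [iv, h1, h2]; omega
  · simp [iv, h1, h2]

lemma sum_iv_eq (X : Finset V) (a : V) : ∑ v ∈ X, (iv (a = v) : ℤ) = iv (a ∈ X) := by
  simp only [iv, sum_ite_eq]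

lemma iv_cast (p : Prop) [Decidable p] : ((iv p : ℕ) : ℤ) = iv p := by
  unfold iv; split_ifs <;> simp

/-- two edge-disjoint paths from two sources into a target set -/
theorem two_paths (S : Finset E) (T : Finset V) (x1 x2 : V) (h1 : x1 ∉ T) (h2 : x2 ∉ T)
    (hc : ∀ X : Finset V, Disjoint X T → iv (x1 ∈ X) + iv (x2 ∈ X) ≤ (G.crs S X).card) :
    ∃ p ∈ T, ∃ q ∈ T, ∃ R ⊆ S,
      (∀ v, G.dg R v = iv (v = x1) + iv (v = x2) + (iv (v = p) + iv (v = q))) ∧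
      (∀ e ∈ R, ¬ (G.s e ∈ T ∧ G.t e ∈ T)) ∧
      ∀ X : Finset V, (∀ e ∈ R, G.s e ∈ X ↔ G.t e ∈ X) →
        (iv (x1 ∈ X) + iv (x2 ∈ X) : ℕ) = iv (p ∈ X) + iv (q ∈ X) := by
  classical
  have z0 : ∀ u, G.dv S (fun _ => 0) u = 0 := fun u => by simp [dv]
  rcases augment (G := G) S T (fun _ => 0) (fun e => by simp) x1 h1 with
    ⟨p, hp, t1, a1, a2⟩ | ⟨R, a1, a2, a3⟩
  swap
  · have := hc R a1
    simp only [z0, sum_const_zero, Nat.cast_eq_zero] at a3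
    rw [a3] at this
    simp [iv, a2] at this
  rcases augment (G := G) S T t1 a1 x2 h2 with ⟨q, hq, t2, b1, b2⟩ | ⟨R, b1, b2, b3⟩
  swap
  · have k : ((iv (x1 ∈ R) + iv (x2 ∈ R) : ℕ) : ℤ) ≤ (G.crs S R).card := Nat.cast_le.2 (hc R b1)
    have k2 : p ∉ R := fun h => disjoint_left.1 b1 h hp
    simp only [a2, z0, zero_add, sum_sub_distrib, sum_iv_eq] at b3
    rw [b3, Nat.cast_add, iv_cast, iv_cast] at k
    simp [iv, b2, k2] at k
  have c : ∀ u, G.dv S t2 u = iv (x1 = u) + iv (x2 = u) - iv (p = u) - iv (q = u) := fun u => by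
    rw [b2, a2, z0]; ring
  refine ⟨p, hp, q, hq, S.filter fun e => t2 e ≠ 0, filter_subset _ _, fun v => ?_,
    fun e he k => (mem_filter.1 he).2 ((b1 e).2 k), fun X hX => ?_⟩
  · have k : G.dg (S.filter fun e => t2 e ≠ 0) v = ((G.dv S t2 v : ℤ) : ZMod 2) := by
      rw [dg, dv, sum_filter, Int.cast_sum]
      refine sum_congr rfl fun e _ => ?_
      have h3 : t2 e = 0 ∨ t2 e = 1 ∨ t2 e = -1 := by have := (b1 e).1; omega
      by_cases k1 : G.s e = v <;> by_cases k2 : G.t e = v <;> rcases h3 with h | h | h <;>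
        simp [iv, k1, k2, h] <;> decide
    rw [k, c]
    simp only [iv, eq_comm (a := v)]
    split_ifs <;> decide
  · have k := sum_dv (G := G) S t2 X
    rw [sum_eq_zero (s := S)] at k
    · simp only [c, sum_sub_distrib, sum_add_distrib, sum_iv_eq] at k
      have : ((iv (x1 ∈ X) + iv (x2 ∈ X) : ℕ) : ℤ) = ((iv (p ∈ X) + iv (q ∈ X) : ℕ) : ℤ) := by
        simp only [Nat.cast_add, iv_cast]; omega
      exact Nat.cast_injective this
    · intro e he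
      by_cases k1 : t2 e = 0
      · rw [k1, mul_zero]
      · have := hX e (mem_filter.2 ⟨he, k1⟩)
        simp [iv, this]

/-- a connected even set through two vertices -/
theorem cc_through (S : Finset E) {c c' : V} (hne : c ≠ c')
    (hc : ∀ X : Finset V, c ∈ X → c' ∉ X → 2 ≤ (G.crs S X).card) :
    ∃ C ⊆ S, G.Cc C ∧ c ∈ G.vs C ∧ c' ∈ G.vs C := by
  classical
  have hT : c ∉ ({c'} : Finset V) := by simpa using hne
  obtain ⟨p, hp, q, hq, R, r1, r2, -, r4⟩ := two_paths (G := G) S {c'} c c hT hT (fun X hX => by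
    by_cases k : c ∈ X
    · simpa [iv, k] using hc X k (disjoint_singleton_right.1 hX)
    · simp [iv, k])
  rw [mem_singleton] at hp hq
  subst hp
  subst hq
  have hE : G.Ev R := fun v => by rw [r2 v, z2_add_self, z2_add_self, add_zero]
  have hr : G.Rch R c q := by
    have := r4 (univ.filter fun v => G.Rch R c v) fun e he => by
      simp only [mem_filter, mem_univ, true_and]
      exact ⟨fun k => k.trans (rch_edge he), fun k => k.trans (rch_edge he).symm⟩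
    by_contra k
    simp [iv, k, Rch.refl] at this
  obtain ⟨e, he, hat⟩ := mem_vs.1 (hr.mem_vs hne)
  obtain ⟨C, c1, c2, c3, c4⟩ := hE.cc he
  have k1 : G.Rch R (G.s e) c := rch_at he (Or.inl rfl) hat
  have k2 : G.Rch C c q := (c4 c k1).symm.trans (c4 q (k1.trans hr))
  exact ⟨C, c1.trans r1, c3, k2.mem_vs hne, k2.symm.mem_vs hne.symm⟩

theorem Two.cc_through {W : Finset V} {S : Finset E} (h : G.Two W S) (hS : S ⊆ G.ins W) {c c' : V}
    (hc : c ∈ W) (hc' : c' ∈ W) (hne : c ≠ c') :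
    ∃ C ⊆ S, G.Cc C ∧ c ∈ G.vs C ∧ c' ∈ G.vs C := by
  refine SG.cc_through S hne fun X k1 k2 => ?_
  have e : G.crs S X = G.crs S (X ∩ W) := by
    refine filter_congr fun e he => ?_
    have := mem_ins.1 (hS he)
    simp [this.2.1, this.2.2]
  rw [e]
  exact h _ inter_subset_right ⟨c, mem_inter.2 ⟨k1, hc⟩⟩ fun k => k2 (mem_inter.1 (k.symm ▸ hc')).1

/-- an ear of a circuit through prescribed vertices -/
theorem fan (hc : G.Cub) {C S P : Finset E} (hC : C ⊆ G.A) (cC : G.Cc C) (hS : S ⊆ G.A)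
    {x1 x2 : V} (hP : G.Od P x1 x2) (d : Disjoint P S) (dv : Disjoint (G.vs P) (G.vs C))
    (h1 : x1 ∉ G.vs C) (h2 : x2 ∉ G.vs C)
    (hcut : ∀ X : Finset V, Disjoint X (G.vs C) →
      iv (x1 ∈ X) + iv (x2 ∈ X) ≤ (G.crs S X).card) :
    ∃ p q F, p ∈ G.vs C ∧ q ∈ G.vs C ∧ G.Jn F p q ∧ F ⊆ S ∪ P ∧ Disjoint F C ∧
      x1 ∈ G.vs F ∧ x2 ∈ G.vs F ∧ ∀ u ∈ G.vs F, u ∈ G.vs C → u = p ∨ u = q := by
  classical
  obtain ⟨p, hp, q, hq, R, r1, r2, r3, r4⟩ := two_paths (G := G) S (G.vs C) x1 x2 h1 h2 hcut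
  have dRC : Disjoint R C := disjoint_left.2 fun e k1 k2 => r3 e k1 ⟨s_mem_vs k2, t_mem_vs k2⟩
  have dRP : Disjoint R P := (d.mono_right r1).symm
  have dPC : Disjoint P C := disjoint_of_vs dv
  have hdeg : ∀ u ∈ G.vs C, G.deg (R ∪ P) u ≤ 1 := by
    intro u hu
    have k1 : G.deg P u = 0 := by
      by_contra k
      exact disjoint_left.1 dv (deg_pos.1 (Nat.pos_of_ne_zero k)) hu
    rw [deg_union dRP, k1, add_zero, ← deg_third hc hC hu (cC.2.1 u)]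
    exact deg_mono (subset_sdiff.2 ⟨r1.trans hS, dRC⟩)
  have hod : G.Od (R ∪ P) p q := fun v => by
    rw [dg_union dRP, r2 v, hP v]
    linear_combination z2_add_self (iv (v = x1)) + z2_add_self (iv (v = x2))
  have hzero : ∀ u ∈ G.vs C, G.dg (R ∪ P) u = 0 → u ∉ G.vs (R ∪ P) := by
    intro u hu k k'
    have k1 := hdeg u hu
    have k2 := deg_pos.2 k'
    have k3 := dg_eq_zero.1 k
    rw [show G.deg (R ∪ P) u = 1 by omega] at k3
    exact absurd k3 (by decide)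
  have hpq : p ≠ q := by
    rintro rfl
    have k := hzero p hp (od_self.1 hod p)
    have := r4 (univ.erase p) fun e he => by
      have k1 : G.s e ≠ p := fun h => k (h ▸ s_mem_vs (mem_union_left _ he))
      have k2 : G.t e ≠ p := fun h => k (h ▸ t_mem_vs (mem_union_left _ he))
      simp [k1, k2]
    have k3 : x1 ≠ p := fun h => h1 (h ▸ hp)
    simp [iv, k3] at this
  obtain ⟨K, k1, -, k2, k3, k4⟩ := exists_cmp (G := G) (R ∪ P) p
  have hq' : G.Rch (R ∪ P) p q := hod.rch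
  have hx : G.Rch (R ∪ P) p x1 ∧ G.Rch (R ∪ P) p x2 := by
    have := r4 (univ.filter fun v => G.Rch (R ∪ P) p v) fun e he => by
      have he' : e ∈ R ∪ P := mem_union_left _ he
      simp only [mem_filter, mem_univ, true_and]
      exact ⟨fun k => k.trans (rch_edge he'), fun k => k.trans (rch_edge he').symm⟩
    by_cases a1 : G.Rch (R ∪ P) p x1 <;> by_cases a2 : G.Rch (R ∪ P) p x2 <;>
      simp [iv, a1, a2, hq', Rch.refl] at this
    exact ⟨a1, a2⟩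
  refine ⟨p, q, K, hp, hq, ⟨hpq, fun v => ?_, cn_of_base k3⟩,
    k1.trans (union_subset_union_left r1),
    (disjoint_union_left.2 ⟨dRC, dPC⟩).mono_left k1,
    (k4 x1 hx.1).symm.mem_vs fun h => h1 (h ▸ hp),
    (k4 x2 hx.2).symm.mem_vs fun h => h2 (h ▸ hp), fun u hu hu' => ?_⟩
  · rw [k2 v]
    split_ifs with k
    · exact hod v
    · have a1 : v ≠ p := fun h => k (h ▸ Rch.refl _ _)
      have a2 : v ≠ q := fun h => k (h ▸ hq')
      simp [iv, a1, a2]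
  · by_contra k
    push Not at k
    exact hzero u hu' (hod.other k.1 k.2) (vs_mono k1 hu)

end SG

end Pool.Agent.Work.MP_8c679b_co
end

-- merged part: Pool.Agent.Work.MP_8c679b_co.Sol1
section
set_option autoImplicit false

namespace Pool.Agent.Work.MP_8c679b_co

open Finset

namespace SG

variable {V E : Type} [Fintype V] [DecidableEq V] [DecidableEq E] {G : SG V E}

lemma sol1_z3 {x : ZMod 3} (h : x ≠ 0) : x * x = 1 := by
  revert x; decide

lemma sol1_chi_ne {R : Type} [Ring R] [Nontrivial R] (a : ZMod 2) : (chi a : R) ≠ 0 := by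
  rcases z2 a with rfl | rfl <;> simp

lemma sol1_bd_sum {R ι : Type} [Ring R] (I : Finset ι) (f : ι → E → R) (v : V) :
    G.bd (fun e => ∑ i ∈ I, f i e) v = ∑ i ∈ I, G.bd (f i) v := by
  simp only [bd, mul_sum]
  exact sum_comm

lemma sol1_bd_edge {R : Type} [Ring R] {e : E} (he : e ∈ G.A) (v : V) :
    G.bd (fun y => (iv (y = e) : R)) v = iv (G.s e = v) - iv (G.t e = v) * chi (G.n e) := by
  simp only [bd]
  rw [sum_eq_single_of_mem e he fun y _ hy => by simp [iv, hy]]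
  simp [iv]

lemma sol1_kap_cut {R : Type} [CommRing R] [Nontrivial R] [NoZeroDivisors R] {p : V → ZMod 2}
    {U : Finset V} {e : E} (h : ¬ (G.s e ∈ U ↔ G.t e ∈ U)) : (G.kap p U e : R) ≠ 0 := by
  by_cases h1 : G.s e ∈ U
  · have h2 : G.t e ∉ U := fun k => h (iff_of_true h1 k)
    simp [kap, iv, h1, h2, sol1_chi_ne]
  · have h2 : G.t e ∈ U := by
      by_contra k
      exact h (iff_of_false h1 k)
    simp [kap, iv, h1, h2, sol1_chi_ne]

lemma sol1_kap_zero {R : Type} [CommRing R] {p : V → ZMod 2} {U : Finset V} {e : E}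
    (h : e ∈ G.ins U) (hp : G.sw p e = 0) : (G.kap p U e : R) = 0 := by
  rw [kap_ins (mem_ins.1 h).2.1 (mem_ins.1 h).2.2, hp, chi_zero, sub_self, mul_zero]

variable (G) in
/-- the unit boundary at `v` can be moved to `x` along `H` with the sign `c` -/
def Sol1T (H : Finset E) (x v : V) (c : ZMod 2) : Prop :=
  ∃ θ : E → ZMod 3, (∀ e, e ∉ H → θ e = 0) ∧ ∀ w, G.bd θ w = iv (v = w) - chi c * iv (x = w)

lemma sol1T_st {H : Finset E} (hH : H ⊆ G.A) {x : V} {e : E} (he : e ∈ H) {c : ZMod 2}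
    (h : G.Sol1T H x (G.s e) c) : G.Sol1T H x (G.t e) (G.n e + c) := by
  obtain ⟨θ, h1, h2⟩ := h
  refine ⟨fun y => (-chi (G.n e)) * iv (y = e) + chi (G.n e) * θ y, fun y hy => ?_, fun w => ?_⟩
  · have k : y ≠ e := fun k => hy (k ▸ he)
    simp [iv, k, h1 y hy]
  · rw [bd_add, bd_mul, bd_mul, sol1_bd_edge (hH he), h2, chi_add]
    linear_combination (iv (G.t e = w) : ZMod 3) * chi_mul_self (R := ZMod 3) (G.n e)

lemma sol1T_ts {H : Finset E} (hH : H ⊆ G.A) {x : V} {e : E} (he : e ∈ H) {c : ZMod 2}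
    (h : G.Sol1T H x (G.t e) c) : G.Sol1T H x (G.s e) (G.n e + c) := by
  obtain ⟨θ, h1, h2⟩ := h
  refine ⟨fun y => iv (y = e) + chi (G.n e) * θ y, fun y hy => ?_, fun w => ?_⟩
  · have k : y ≠ e := fun k => hy (k ▸ he)
    simp [iv, k, h1 y hy]
  · rw [bd_add, bd_mul, sol1_bd_edge (hH he), h2, chi_add]
    ring

lemma sol1T_rch {H : Finset E} (hH : H ⊆ G.A) {x v : V} (h : G.Rch H x v) :
    ∃ c, G.Sol1T H x v c := by
  induction h with
  | refl => exact ⟨0, fun _ => 0, fun _ _ => rfl, fun w => by simp [bd]⟩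
  | tail _ h2 ih =>
    obtain ⟨c, hc⟩ := ih
    obtain ⟨e, h3, ⟨rfl, rfl⟩ | ⟨rfl, rfl⟩⟩ := h2
    exacts [⟨_, sol1T_st hH h3 hc⟩, ⟨_, sol1T_ts hH h3 hc⟩]

lemma sol1_full {Z : Finset V} {ε : ZMod 2} (h : G.Sol Z ε) : ∃ O ⊆ G.ins Z, G.Ev O ∧
    G.par O = ε ∧ ∃ ψ : E → ZMod 3, (∀ v ∈ Z, G.bd ψ v = 0) ∧ ∀ e, e ∉ O → ψ e ≠ 0 := by
  obtain ⟨O, h1, h2, h3, φ, h4, h5⟩ := h
  refine ⟨O, h1, h2, h3, fun e => if e ∈ G.tch Z then φ e else 1, fun v hv => ?_, fun e he => ?_⟩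
  · rw [← h4 v hv]
    refine bd_congr fun e he h6 => if_pos (mem_tch.2 ⟨he, ?_⟩)
    rcases h6 with rfl | rfl
    exacts [Or.inl hv, Or.inr hv]
  · dsimp only
    split_ifs with k
    exacts [h5 e k he, one_ne_zero]

lemma sol1_at_tch {Z : Finset V} {e : E} {v : V} (he : e ∈ G.A) (hv : v ∈ Z) (h : G.At e v) :
    e ∈ G.tch Z := by
  refine mem_tch.2 ⟨he, ?_⟩
  rcases h with rfl | rfl
  exacts [Or.inl hv, Or.inr hv]

lemma sol1_upd (S : Finset E) (e1 : E) (g ψ : E → ZMod 3) (y : ZMod 3) :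
    ∑ e ∈ S.erase e1, g e * Function.update ψ e1 y e = ∑ e ∈ S.erase e1, g e * ψ e :=
  sum_congr rfl fun e he => by rw [Function.update_of_ne (ne_of_mem_erase he)]

/-- correcting the boundary along a connected edge set -/
theorem ext3 {U : Finset V} {H : Finset E} (hH : H ⊆ G.ins U) (hcn : G.Cn U H) (ψ : E → ZMod 3)
    (h : ¬ G.Bal H ∨ ∃ p, (∀ e ∈ H, G.sw p e = 0) ∧ ∑ e ∈ G.A, G.kap p U e * ψ e = 0) :
    ∃ ψ' : E → ZMod 3, (∀ e, e ∉ H → ψ' e = ψ e) ∧ ∀ v ∈ U, G.bd ψ' v = 0 := by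
  rcases U.eq_empty_or_nonempty with rfl | ⟨x, hx⟩
  · exact ⟨ψ, fun _ _ => rfl, fun v hv => absurd hv (notMem_empty v)⟩
  have hA := hH.trans ins_sub_A
  have k0 : ∀ v ∈ U, ∃ c, G.Sol1T H x v c := fun v hv => sol1T_rch hA (hcn x hx v hv)
  choose! c hc using k0
  have k1 : ∃ ψ1 : E → ZMod 3, (∀ e, e ∉ H → ψ1 e = ψ e) ∧ ∀ v ∈ U, v ≠ x → G.bd ψ1 v = 0 := by
    choose! θ h1 h2 using hc
    refine ⟨fun e => ψ e + ∑ v ∈ U, (-G.bd ψ v) * θ v e, fun e he => ?_, fun w hw hne => ?_⟩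
    · dsimp only
      rw [sum_eq_zero fun v hv => by rw [h1 v hv e he, mul_zero], add_zero]
    · rw [bd_add, sol1_bd_sum, sum_eq_single_of_mem w hw fun v hv hvw => by
        rw [bd_mul, h2 v hv]
        simp [iv, hvw, hne.symm], bd_mul, h2 w hw]
      simp [iv, hne.symm]
  obtain ⟨ψ1, h1, h2⟩ := k1
  rcases h with h | ⟨p, hp, h⟩
  · have k2 : ∃ v, G.Sol1T H x v 0 ∧ G.Sol1T H x v 1 := by
      by_contra k
      refine h ⟨c, fun e he => ?_⟩
      have k3 := sol1T_st hA he (hc _ (mem_ins.1 (hH he)).2.1)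
      have k4 := hc _ (mem_ins.1 (hH he)).2.2
      rw [sw]
      rcases z2 (G.n e + c (G.s e)) with k5 | k5 <;> rcases z2 (c (G.t e)) with k6 | k6 <;>
        rw [k5] at k3 ⊢ <;> rw [k6] at k4 ⊢
      · rfl
      · exact absurd ⟨_, k3, k4⟩ k
      · exact absurd ⟨_, k4, k3⟩ k
      · rfl
    obtain ⟨v, ⟨θ0, a1, a2⟩, θ1, b1, b2⟩ := k2
    refine ⟨fun e => ψ1 e + G.bd ψ1 x * (θ1 e + (-1) * θ0 e), fun e he => ?_, fun w hw => ?_⟩
    · simp [h1 e he, a1 e he, b1 e he]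
    · rw [bd_add, bd_mul, bd_add, bd_mul, a2, b2]
      by_cases k : w = x
      · subst k
        simp only [iv, chi_zero, chi_one, if_true]
        have k3 : (3 : ZMod 3) = 0 := rfl
        linear_combination G.bd ψ1 w * k3
      · rw [h2 w hw k, show (iv (x = w) : ZMod 3) = 0 from if_neg (Ne.symm k)]
        ring
  · refine ⟨ψ1, h1, fun w hw => ?_⟩
    by_cases k : w = x
    · subst k
      have k2 := sum_bd (G := G) p U ψ1
      rw [sum_eq_single_of_mem w hw fun v hv hvw => by rw [h2 v hv hvw, mul_zero],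
        sum_congr rfl (g := fun e => G.kap p U e * ψ e) fun e _ => by
          by_cases k3 : e ∈ H
          · rw [sol1_kap_zero (hH k3) (hp e k3), zero_mul, zero_mul]
          · rw [h1 e k3], h] at k2
      exact (mul_eq_zero.1 k2).resolve_left (sol1_chi_ne _)
    · exact h2 w hw k

theorem sol_empty : G.Sol ∅ 0 := by
  refine ⟨∅, empty_subset _, ev_empty, sum_empty, fun _ => 1, fun v hv => ?_,
    fun _ _ _ => one_ne_zero⟩
  exact absurd hv (notMem_empty v)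

theorem Sol.split {W1 W2 : Finset V} {a b : ZMod 2} (h1 : G.Sol W1 a) (h2 : G.Sol W2 b)
    (hd : Disjoint W1 W2) (hb : (G.tch W1 ∩ G.tch W2).card ≤ 1) : G.Sol (W1 ∪ W2) (a + b) := by
  obtain ⟨O1, a1, a2, a3, φ1, a4, a5⟩ := h1
  obtain ⟨O2, b1, b2, b3, φ2, b4, b5⟩ := h2
  have n1 : ∀ e ∈ G.tch W2, e ∉ O1 := fun e he k => (mem_tch.1 he).2.elim
    (disjoint_left.1 hd (mem_ins.1 (a1 k)).2.1) (disjoint_left.1 hd (mem_ins.1 (a1 k)).2.2)
  have n2 : ∀ e ∈ G.tch W1, e ∉ O2 := fun e he k => (mem_tch.1 he).2.elim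
    (disjoint_right.1 hd (mem_ins.1 (b1 k)).2.1) (disjoint_right.1 hd (mem_ins.1 (b1 k)).2.2)
  have d : Disjoint O1 O2 := disjoint_left.2 fun e k1 k2 =>
    disjoint_left.1 hd (mem_ins.1 (a1 k1)).2.1 (mem_ins.1 (b1 k2)).2.1
  have k : ∃ c : ZMod 3, c ≠ 0 ∧ ∀ e ∈ G.tch W1, e ∈ G.tch W2 → φ1 e = c * φ2 e := by
    rcases (G.tch W1 ∩ G.tch W2).eq_empty_or_nonempty with k | ⟨e0, k⟩
    · exact ⟨1, one_ne_zero, fun e k1 k2 => absurd (k ▸ mem_inter.2 ⟨k1, k2⟩) (notMem_empty e)⟩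
    · have k1 := a5 e0 (mem_inter.1 k).1 (n1 e0 (mem_inter.1 k).2)
      have k2 := b5 e0 (mem_inter.1 k).2 (n2 e0 (mem_inter.1 k).1)
      refine ⟨φ1 e0 * φ2 e0, mul_ne_zero k1 k2, fun e k3 k4 => ?_⟩
      obtain rfl := card_le_one.1 hb e (mem_inter.2 ⟨k3, k4⟩) e0 k
      rw [mul_assoc, sol1_z3 k2, mul_one]
  obtain ⟨c, hc, k⟩ := k
  refine ⟨O1 ∪ O2, union_subset (a1.trans (ins_mono subset_union_left))
    (b1.trans (ins_mono subset_union_right)), a2.union b2 d, by rw [par_union d, a3, b3],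
    fun e => if e ∈ G.tch W1 then φ1 e else c * φ2 e, fun v hv => ?_, fun e he hO => ?_⟩
  · rcases mem_union.1 hv with hv | hv
    · rw [← a4 v hv]
      exact bd_congr fun e he h => if_pos (sol1_at_tch he hv h)
    · rw [← mul_zero c, ← b4 v hv, ← bd_mul]
      refine bd_congr fun e he h => ?_
      split_ifs with k1
      exacts [k e k1 (sol1_at_tch he hv h), rfl]
  · dsimp only
    split_ifs with k1
    · exact a5 e k1 fun k2 => hO (mem_union_left _ k2)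
    · refine mul_ne_zero hc (b5 e ?_ fun k2 => hO (mem_union_right _ k2))
      simp only [mem_tch, mem_union] at he k1 ⊢
      (clear * - he k1; tauto)

theorem tch_inter {W X : Finset V} (h : X ⊆ W) :
    G.tch X ∩ G.tch (W \ X) = G.crs (G.ins W) X := by
  ext e
  have h1 := @h (G.s e)
  have h2 := @h (G.t e)
  simp only [mem_inter, mem_tch, mem_crs, mem_ins, mem_sdiff]
  (clear * - h1 h2; grind)

theorem abs_gen {W U : Finset V} {H O : Finset E} (hU : U ⊆ W) (hH : H ⊆ G.ins U) (hE : G.Ev H)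
    (hcn : G.Cn U H) (hO : O ⊆ G.ins (W \ U)) (hOE : G.Ev O) (ψ : E → ZMod 3)
    (h1 : ∀ v ∈ W \ U, G.bd ψ v = 0) (h2 : ∀ e ∈ G.tch W, e ∉ O → e ∉ H → ψ e ≠ 0)
    (h : ¬ G.Bal H ∨ ∃ p, (∀ e ∈ H, G.sw p e = 0) ∧ ∑ e ∈ G.A, G.kap p U e * ψ e = 0) :
    G.Sol W (G.par O + G.par H) := by
  obtain ⟨ψ', a1, a2⟩ := ext3 hH hcn ψ h
  have d : Disjoint O H := disjoint_left.2 fun e k1 k2 =>
    (mem_sdiff.1 (mem_ins.1 (hO k1)).2.1).2 (mem_ins.1 (hH k2)).2.1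
  refine ⟨O ∪ H, union_subset (hO.trans (ins_mono sdiff_subset)) (hH.trans (ins_mono hU)),
    hOE.union hE d, par_union d, ψ', fun v hv => ?_, fun e he k => ?_⟩
  · by_cases k : v ∈ U
    · exact a2 v k
    · rw [← h1 v (mem_sdiff.2 ⟨hv, k⟩)]
      refine bd_congr fun e _ k1 => a1 e fun k2 => k ?_
      rcases k1 with rfl | rfl
      exacts [(mem_ins.1 (hH k2)).2.1, (mem_ins.1 (hH k2)).2.2]
  · have k1 : e ∉ H := fun k1 => k (mem_union_right _ k1)
    rw [a1 e k1]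
    exact h2 e he (fun k2 => k (mem_union_left _ k2)) k1

theorem abs_odd {W : Finset V} {H : Finset E} {ε : ZMod 2} (hH : H ⊆ G.ins W) (cH : G.Cc H)
    (hp : G.par H = 1) (h : G.Sol (W \ G.vs H) ε) : G.Sol W (ε + 1) := by
  obtain ⟨O, a1, a2, a3, ψ, a4, a5⟩ := sol1_full h
  rw [← a3, ← hp]
  exact abs_gen (sub_ins_iff.1 hH).2 (sub_ins_vs (hH.trans ins_sub_A)) cH.2.1 cH.2.2 a1 a2 ψ a4
    (fun e _ k _ => a5 e k) (Or.inl (cH.not_bal hp Subset.rfl))

variable (G) in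
/-- edges whose value can be used to correct the switched boundary sum over `U` -/
def Fl (p : V → ZMod 2) (W U : Finset V) (H : Finset E) (e : E) : Prop :=
  e ∈ G.A ∧ e ∉ H ∧ e ∉ G.tch (W \ U) ∧ (G.kap p U e : ZMod 3) ≠ 0

theorem fl_cut {p : V → ZMod 2} {W U : Finset V} {H : Finset E} {e : E} {v : V} (hU : U ⊆ W)
    (hH : H ⊆ G.ins U) (he : e ∈ G.cut W) (hv : v ∈ U) (h : G.At e v) : G.Fl p W U H e := by
  obtain ⟨h1, h2⟩ := mem_cut.1 he
  have h3 := @hU (G.s e)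
  have h4 := @hU (G.t e)
  refine ⟨h1, fun k => h2 (iff_of_true (h3 (mem_ins.1 (hH k)).2.1) (h4 (mem_ins.1 (hH k)).2.2)),
    ?_, sol1_kap_cut ?_⟩
  · simp only [mem_tch, mem_sdiff]
    rcases h with rfl | rfl <;> tauto
  · rcases h with rfl | rfl <;> tauto

theorem fl_chord {p : V → ZMod 2} {W U : Finset V} {H : Finset E} {e : E} (he : e ∈ G.ins U)
    (hH : ∀ e ∈ H, G.sw p e = 0) (h : G.sw p e = 1) : G.Fl p W U H e := by
  obtain ⟨h1, h2, h3⟩ := mem_ins.1 he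
  refine ⟨h1, fun k => zero_ne_one ((hH e k).symm.trans h), ?_, ?_⟩
  · simp only [mem_tch, mem_sdiff]
    tauto
  · rw [kap_ins h2 h3, h, chi_one]
    exact mul_ne_zero (sol1_chi_ne _) (by decide)

/-- one flexible edge suffices when the remaining sum does not vanish -/
theorem abs_one {W U : Finset V} {H O : Finset E} (hU : U ⊆ W) (hH : H ⊆ G.ins U) (hE : G.Ev H)
    (hcn : G.Cn U H) (hO : O ⊆ G.ins (W \ U)) (hOE : G.Ev O) (ψ : E → ZMod 3)
    (h1 : ∀ v ∈ W \ U, G.bd ψ v = 0) (h2 : ∀ e ∈ G.tch W, e ∉ O → e ∉ H → ψ e ≠ 0)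
    {p : V → ZMod 2} (hp : ∀ e ∈ H, G.sw p e = 0) {e1 : E} (f1 : G.Fl p W U H e1)
    (h : ∑ e ∈ G.A.erase e1, G.kap p U e * ψ e ≠ 0) : G.Sol W (G.par O) := by
  obtain ⟨a1, a2, a3, a4⟩ := f1
  have k := abs_gen hU hH hE hcn hO hOE
    (Function.update ψ e1 (-(∑ e ∈ G.A.erase e1, G.kap p U e * ψ e) * G.kap p U e1))
    (fun v hv => by
      rw [← h1 v hv]
      refine bd_congr fun e he k => Function.update_of_ne ?_ _ _
      rintro rfl
      exact a3 (sol1_at_tch he hv k))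
    (fun e he k1 k2 => by
      by_cases k3 : e = e1
      · rw [k3, Function.update_self]
        exact mul_ne_zero (neg_ne_zero.2 h) a4
      · rw [Function.update_of_ne k3]
        exact h2 e he k1 k2)
    (Or.inr ⟨p, hp, by
      rw [← add_sum_erase _ _ a1, Function.update_self, sol1_upd]
      linear_combination (-(∑ e ∈ G.A.erase e1, G.kap p U e * ψ e)) * sol1_z3 a4⟩)
  rwa [Bal.par_zero ⟨p, hp⟩ Subset.rfl hE, add_zero] at k

theorem abs_two {W U : Finset V} {H : Finset E} {ε : ZMod 2} (hU : U ⊆ W) (hH : H ⊆ G.ins U)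
    (hE : G.Ev H) (hcn : G.Cn U H) {p : V → ZMod 2} (hp : ∀ e ∈ H, G.sw p e = 0) {e1 e2 : E}
    (hne : e1 ≠ e2) (f1 : G.Fl p W U H e1) (f2 : G.Fl p W U H e2) (h : G.Sol (W \ U) ε) :
    G.Sol W ε := by
  obtain ⟨O, a1, a2, a3, ψ, a4, a5⟩ := sol1_full h
  obtain ⟨b1, b2, b3, b4⟩ := f2
  have k : ∀ x T : ZMod 3, x ≠ 0 → ∃ y : ZMod 3, y ≠ 0 ∧ x * y + T ≠ 0 := by decide
  obtain ⟨y, k1, k2⟩ := k _ (∑ e ∈ (G.A.erase e1).erase e2, G.kap p U e * ψ e) b4
  rw [← a3]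
  refine abs_one hU hH hE hcn a1 a2 (Function.update ψ e2 y) (fun v hv => ?_)
    (fun e _ k3 _ => ?_) hp f1 ?_
  · rw [← a4 v hv]
    refine bd_congr fun e he k => Function.update_of_ne ?_ _ _
    rintro rfl
    exact b3 (sol1_at_tch he hv k)
  · by_cases k4 : e = e2
    · rwa [k4, Function.update_self]
    · rw [Function.update_of_ne k4]
      exact a5 e k3
  · rwa [← add_sum_erase _ _ (mem_erase.2 ⟨hne.symm, b1⟩), Function.update_self,
      sol1_upd]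

variable (G) in
/-- the induction hypothesis in the form in which it is used -/
def DecH (W : Finset V) : Prop :=
  ∀ W' ⊂ W, ∀ Q ⊆ G.ins W', G.Cc Q → G.par Q = 1 →
    G.Flex W' ∨ (G.Iso W' Q ∧ ¬ G.Sol (G.vs Q) 0)

variable (G) in
/-- any two odd circuits inside `W` meet -/
def K1 (W : Finset V) : Prop :=
  ∀ H ⊆ G.ins W, ∀ Q ⊆ G.ins W, G.Cc H → G.par H = 1 → G.Cc Q → G.par Q = 1 →
    ¬ Disjoint (G.vs H) (G.vs Q)

variable (G) in
/-- nontrivial connected balanced sets have at least four leaving edges -/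
def S3 (W : Finset V) : Prop :=
  ∀ X ⊆ W, 2 ≤ X.card → G.Cn X (G.ins X) → G.Bal (G.ins X) → 4 ≤ (G.cut X).card

variable (G) in
/-- a nowhere-zero integer flow exists -/
def Adm : Prop := ∃ f : E → ℤ, (∀ v, G.bd f v = 0) ∧ ∀ e ∈ G.A, f e ≠ 0

variable (G) in
/-- an even set with an even number of negative edges and a flow modulo three cover the edges -/
def Cov : Prop := ∃ O ⊆ G.A, G.Ev O ∧ G.par O = 0 ∧ ∃ φ : E → ZMod 3, (∀ v, G.bd φ v = 0) ∧
  ∀ e ∈ G.A, e ∉ O → φ e ≠ 0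

theorem Adm.adm1 (h : G.Adm) : G.Adm1 := by
  obtain ⟨f, h1, h2⟩ := h
  rintro X hX ⟨p, hp⟩
  obtain ⟨e0, h3⟩ := card_eq_one.1 hX
  obtain ⟨h4, h5⟩ := mem_cut.1 (h3 ▸ mem_singleton_self e0)
  have k := sum_bd (G := G) p X f
  rw [sum_eq_zero fun v _ => by rw [h1 v, mul_zero], sum_eq_single_of_mem e0 h4 fun e he hne => by
    have k1 : G.s e ∈ X ↔ G.t e ∈ X := by
      by_contra k1
      exact hne (mem_singleton.1 (h3 ▸ mem_cut.2 ⟨he, k1⟩))
    by_cases k2 : G.s e ∈ X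
    · have k3 := mem_ins.2 ⟨he, k2, k1.1 k2⟩
      rw [sol1_kap_zero k3 (hp e k3), zero_mul]
    · rw [kap_out k2 fun k3 => k2 (k1.2 k3), zero_mul]] at k
  exact mul_ne_zero (sol1_kap_cut h5) (h2 e0 h4) k.symm

theorem Adm.erase (h : G.Adm) {W : Finset V} (hW : G.cut W = ∅) (hU : ¬ G.Bal (G.ins W)) (z : E) :
    ¬ G.Bal ((G.ins W).erase z) := by
  obtain ⟨f, h1, h2⟩ := h
  rintro ⟨p, hp⟩
  have h3 : z ∈ G.ins W ∧ G.sw p z = 1 := by
    by_contra k
    refine hU ⟨p, fun e he => ?_⟩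
    by_cases k1 : e = z
    · subst k1
      exact (z2 _).resolve_right fun k2 => k ⟨he, k2⟩
    · exact hp e (mem_erase.2 ⟨k1, he⟩)
  obtain ⟨h4, h5, h6⟩ := mem_ins.1 h3.1
  have k := sum_bd (G := G) p W f
  rw [sum_eq_zero fun v _ => by rw [h1 v, mul_zero], sum_eq_single_of_mem z h4 fun e he hne => by
    have k1 : G.s e ∈ W ↔ G.t e ∈ W := by
      by_contra k1
      exact notMem_empty e (hW ▸ mem_cut.2 ⟨he, k1⟩)
    by_cases k2 : G.s e ∈ W
    · have k3 := mem_ins.2 ⟨he, k2, k1.1 k2⟩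
      rw [sol1_kap_zero k3 (hp e (mem_erase.2 ⟨hne, k3⟩)), zero_mul]
    · rw [kap_out k2 fun k3 => k2 (k1.2 k3), zero_mul], kap_ins h5 h6, h3.2, chi_one] at k
  exact mul_ne_zero (mul_ne_zero (sol1_chi_ne _) (by norm_num)) (h2 z h4) k.symm

theorem Adm.restrict (h : G.Adm) {W : Finset V} (hW : G.cut W = ∅) :
    ({ G with A := G.ins W } : SG V E).Adm := by
  obtain ⟨f, h1, h2⟩ := h
  refine ⟨f, fun v => ?_, fun e he => h2 e (ins_sub_A he)⟩
  by_cases k : v ∈ W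
  · rw [← h1 v]
    refine sum_subset ins_sub_A fun e he k1 => ?_
    have k2 : G.s e ∈ W ↔ G.t e ∈ W := by
      by_contra k2
      exact notMem_empty e (hW ▸ mem_cut.2 ⟨he, k2⟩)
    have k3 : G.s e ≠ v := fun k3 => k1 (mem_ins.2 ⟨he, k3 ▸ k, k2.1 (k3 ▸ k)⟩)
    have k4 : G.t e ≠ v := fun k4 => k1 (mem_ins.2 ⟨he, k2.2 (k4 ▸ k), k4 ▸ k⟩)
    simp [iv, k3, k4]
  · refine sum_eq_zero fun e he => ?_
    have k3 : G.s e ≠ v := fun k3 => k (k3 ▸ (mem_ins.1 he).2.1)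
    have k4 : G.t e ≠ v := fun k4 => k (k4 ▸ (mem_ins.1 he).2.2)
    simp [iv, k3, k4]

end SG

end Pool.Agent.Work.MP_8c679b_co
end

-- merged part: Pool.Agent.Work.MP_8c679b_co.Sol
section
set_option autoImplicit false

namespace Pool.Agent.Work.MP_8c679b_co

open Finset

namespace SG

variable {V E : Type} [Fintype V] [DecidableEq V] [DecidableEq E] {G : SG V E}

lemma Sol_sdiff_ssub {W U : Finset V} (hU : U ⊆ W) (hn : U.Nonempty) : W \ U ⊂ W :=
  sdiff_ssubset hU hn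

lemma Sol_vs_nonempty {C : Finset E} (h : G.Cc C) : (G.vs C).Nonempty := by
  obtain ⟨e, he⟩ := h.1
  exact ⟨_, s_mem_vs he⟩

lemma Sol_cut_end {W : Finset V} {e : E} (he : e ∈ G.cut W) : ∃ x ∈ W, G.At e x := by
  obtain ⟨-, h⟩ := mem_cut.1 he
  by_cases k : G.s e ∈ W
  · exact ⟨_, k, Or.inl rfl⟩
  · refine ⟨G.t e, ?_, Or.inr rfl⟩
    by_contra k'
    exact h (iff_of_false k k')

lemma Sol_join {W X : Finset V} {a b : ZMod 2} (hX : X ⊆ W)
    (hc : (G.crs (G.ins W) X).card ≤ 1) (h1 : G.Sol X a) (h2 : G.Sol (W \ X) b) :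
    G.Sol W (a + b) := by
  have h := h1.split h2 disjoint_sdiff (by rw [tch_inter hX]; exact hc)
  rwa [union_sdiff_of_subset hX] at h

lemma Sol_closed {W : Finset V} {p : V → ZMod 2} (hp : ∀ e ∈ G.ins W, G.sw p e = 0)
    (hW : G.cut W = ∅) {x : V} (hx : x ∈ W) {ε : ZMod 2} (h : G.Sol (W \ {x}) ε) :
    ∃ ε, G.Sol W ε := by
  obtain ⟨O, h1, h2, -, φ, h4, h5⟩ := h
  set ψ : E → ZMod 3 := fun e => if e ∈ G.tch (W \ {x}) then φ e else 1 with hψ
  have k1 : ∀ v ∈ W \ {x}, G.bd ψ v = 0 := fun v hv => by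
    rw [← h4 v hv]
    refine bd_congr fun e he hv' => ?_
    have : e ∈ G.tch (W \ {x}) := mem_tch.2 ⟨he, by
      rcases hv' with rfl | rfl
      exacts [Or.inl hv, Or.inr hv]⟩
    simp only [hψ, this, if_true]
  refine ⟨_, abs_gen (U := {x}) (H := ∅) (singleton_subset_iff.2 hx) (empty_subset _) ev_empty
    (fun a ha b hb => by
      rw [mem_singleton.1 ha, mem_singleton.1 hb]
      exact Rch.refl _ _) h1 h2 ψ k1 (fun e he hO _ => ?_)
    (Or.inr ⟨p, fun e he => absurd he (notMem_empty e), ?_⟩)⟩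
  · by_cases k : e ∈ G.tch (W \ {x})
    · simp only [hψ, k, if_true]
      exact h5 e k hO
    · simp only [hψ, k, if_false]
      exact one_ne_zero
  · rw [← sum_bd]
    have k2 : ∑ v ∈ W, chi (p v) * G.bd ψ v = 0 := by
      rw [sum_bd]
      refine sum_eq_zero fun e he => ?_
      have k3 : G.s e ∈ W ↔ G.t e ∈ W := by
        by_contra k3
        exact notMem_empty e (hW ▸ mem_cut.2 ⟨he, k3⟩)
      by_cases k4 : G.s e ∈ W
      · rw [kap_ins k4 (k3.1 k4), hp e (mem_ins.2 ⟨he, k4, k3.1 k4⟩), chi_zero, sub_self,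
          mul_zero, zero_mul]
      · rw [kap_out k4 (fun k5 => k4 (k3.2 k5)), zero_mul]
    rw [← sum_sdiff (singleton_subset_iff.2 hx),
      sum_eq_zero (fun v hv => by rw [k1 v hv, mul_zero]), zero_add] at k2
    exact k2

theorem sol_exists (hA : G.Adm1) (W : Finset V) : ∃ ε, G.Sol W ε := by
  induction W using Finset.strongInduction with
  | H W ih =>
    by_cases hb : G.Bal (G.ins W)
    swap
    · obtain ⟨C, h1, h2, h3⟩ := exists_odd_cc hb
      obtain ⟨ε, h4⟩ := ih _ (Sol_sdiff_ssub (sub_ins_iff.1 h1).2 (Sol_vs_nonempty h2))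
      exact ⟨_, abs_odd h1 h2 h3 h4⟩
    by_cases ht : G.Two W (G.ins W)
    swap
    · unfold Two at ht
      push Not at ht
      obtain ⟨X, h1, h2, h3, h4⟩ := ht
      obtain ⟨a, h5⟩ := ih X (Finset.ssubset_iff_subset_ne.2 ⟨h1, h3⟩)
      obtain ⟨b, h6⟩ := ih _ (Sol_sdiff_ssub h1 h2)
      exact ⟨_, Sol_join h1 (by omega) h5 h6⟩
    rcases W.eq_empty_or_nonempty with rfl | ⟨x, hx⟩
    · exact ⟨0, sol_empty⟩
    have hb' := hb
    obtain ⟨p, hp⟩ := hb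
    rcases Nat.lt_trichotomy (G.cut W).card 1 with h | h | h
    · obtain ⟨ε, h1⟩ := ih _ (Sol_sdiff_ssub (singleton_subset_iff.2 hx) (singleton_nonempty x))
      exact Sol_closed hp (card_eq_zero.1 (by omega)) hx h1
    · exact absurd hb' (hA W h)
    · obtain ⟨e1, h1, e2, h2, hne⟩ := one_lt_card.1 h
      obtain ⟨x1, h3, h4⟩ := Sol_cut_end h1
      obtain ⟨x2, h5, h6⟩ := Sol_cut_end h2
      by_cases hx12 : x1 = x2
      · subst hx12
        have hU := singleton_subset_iff.2 h3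
        obtain ⟨ε, h7⟩ := ih _ (Sol_sdiff_ssub hU (singleton_nonempty x1))
        exact ⟨ε, abs_two (H := ∅) (p := p) hU (empty_subset _) ev_empty
          (fun a ha b hb => by
            rw [mem_singleton.1 ha, mem_singleton.1 hb]
            exact Rch.refl _ _) (fun e he => absurd he (notMem_empty e)) hne
          (fl_cut hU (empty_subset _) h1 (mem_singleton_self _) h4)
          (fl_cut hU (empty_subset _) h2 (mem_singleton_self _) h6) h7⟩
      · obtain ⟨C, h7, h8, h9, h10⟩ := ht.cc_through Subset.rfl h3 h5 hx12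
        have hU := (sub_ins_iff.1 h7).2
        have hH := sub_ins_vs (G := G) (h7.trans ins_sub_A)
        obtain ⟨ε, h11⟩ := ih _ (Sol_sdiff_ssub hU (Sol_vs_nonempty h8))
        exact ⟨ε, abs_two (p := p) hU hH h8.2.1 h8.2.2 (fun e he => hp e (h7 he)) hne
          (fl_cut hU hH h1 h9 h4) (fl_cut hU hH h2 h10 h6) h11⟩

theorem sol_of_bal (hA : G.Adm1) {W : Finset V} (h : G.Bal (G.ins W)) : G.Sol W 0 := by
  obtain ⟨ε, O, h1, h2, h3, h4⟩ := sol_exists hA W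
  exact ⟨O, h1, h2, h.par_zero h1 h2, h4⟩

theorem Flex.all {W : Finset V} (h : G.Flex W) (ε : ZMod 2) : G.Sol W ε := by
  rcases z2 ε with rfl | rfl
  exacts [h.1, h.2]

theorem flex_of_ne {W : Finset V} {ε : ZMod 2} (h : G.Sol W ε) (h' : G.Sol W (ε + 1)) :
    G.Flex W := by
  rcases z2 ε with rfl | rfl
  exacts [⟨h, by simpa using h'⟩, ⟨by simpa [z2_add_self] using h', h⟩]

lemma Sol_chi_ne (a : ZMod 2) : (chi a : ZMod 3) ≠ 0 := by
  rcases z2 a with rfl | rfl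
  · rw [chi_zero]; decide
  · rw [chi_one]; decide

theorem flex_of_cut (hA : G.Adm1) {W : Finset V} (h : (G.cut W).card = 1) : G.Flex W := by
  have : Fact (Nat.Prime 3) := ⟨Nat.prime_three⟩
  obtain ⟨e0, h0⟩ := card_eq_one.1 h
  obtain ⟨ε, hS⟩ := sol_exists hA W
  have hS' := hS
  obtain ⟨O, h1, h2, h3, φ, h4, h5⟩ := hS
  have m0 : e0 ∈ G.cut W := h0 ▸ mem_singleton_self e0
  obtain ⟨a0, b0⟩ := mem_cut.1 m0
  have nb : ¬ G.Bal ((G.ins W).filter fun e => φ e ≠ 0) := by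
    rintro ⟨p, hp⟩
    have k1 : ∑ v ∈ W, chi (p v) * G.bd φ v = 0 :=
      sum_eq_zero fun v hv => by rw [h4 v hv, mul_zero]
    rw [sum_bd, sum_eq_single_of_mem e0 a0] at k1
    · have k2 : φ e0 ≠ 0 := by
        refine h5 e0 (mem_tch.2 ⟨a0, ?_⟩) fun k => ?_
        · by_contra k
          push Not at k
          exact b0 (iff_of_false k.1 k.2)
        · exact b0 (iff_of_true (mem_ins.1 (h1 k)).2.1 (mem_ins.1 (h1 k)).2.2)
      refine mul_ne_zero ?_ k2 k1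
      by_cases k3 : G.s e0 ∈ W
      · have k4 : G.t e0 ∉ W := fun k => b0 (iff_of_true k3 k)
        simp only [kap, iv, k3, k4, if_true, if_false, one_mul, zero_mul, sub_zero]
        exact Sol_chi_ne _
      · have k4 : G.t e0 ∈ W := by
          by_contra k
          exact b0 (iff_of_false k3 k)
        simp only [kap, iv, k3, k4, if_true, if_false, one_mul, zero_mul, zero_sub]
        exact neg_ne_zero.2 (mul_ne_zero (Sol_chi_ne _) (Sol_chi_ne _))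
    · intro e he hne
      have k3 : G.s e ∈ W ↔ G.t e ∈ W := by
        by_contra k3
        exact hne (mem_singleton.1 (h0 ▸ mem_cut.2 ⟨he, k3⟩))
      by_cases k4 : G.s e ∈ W
      · by_cases k5 : φ e = 0
        · rw [k5, mul_zero]
        · rw [kap_ins k4 (k3.1 k4), hp e (mem_filter.2 ⟨mem_ins.2 ⟨he, k4, k3.1 k4⟩, k5⟩),
            chi_zero, sub_self, mul_zero, zero_mul]
      · rw [kap_out k4 (fun k5 => k4 (k3.2 k5)), zero_mul]
  obtain ⟨C, h6, h7, h8⟩ := exists_odd_cc nb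
  refine flex_of_ne hS' ⟨symmDiff O C, symmDiff_subset_union.trans
    (union_subset h1 (h6.trans (filter_subset _ _))), h2.symmDiff h7.2.1,
    by rw [par_symmDiff, h3, h8], φ, h4, fun e he hn => ?_⟩
  by_cases k : e ∈ O
  · have k1 : e ∈ C := by
      by_contra k1
      exact hn (mem_symmDiff.2 (Or.inl ⟨k, k1⟩))
    exact (mem_filter.1 (h6 k1)).2
  · exact h5 e he k

theorem greedy (hA : G.Adm1) (Z : Finset V) : ∃ ε, ∀ Z', Z ⊆ Z' →
    (∀ C ⊆ G.ins Z', G.Cc C → G.par C = 1 → C ⊆ G.ins Z) → G.Sol Z' ε := by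
  induction Z using Finset.strongInduction with
  | H Z ih =>
    by_cases hb : G.Bal (G.ins Z)
    · refine ⟨0, fun Z' _ h => sol_of_bal hA ?_⟩
      by_contra k
      obtain ⟨C, h1, h2, h3⟩ := exists_odd_cc k
      exact h2.not_bal h3 (h C h1 h2 h3) hb
    · obtain ⟨Q, h1, h2, h3⟩ := exists_odd_cc hb
      obtain ⟨ε, h4⟩ := ih _ (Sol_sdiff_ssub (sub_ins_iff.1 h1).2 (Sol_vs_nonempty h2))
      refine ⟨ε + 1, fun Z' h5 h6 => abs_odd (h1.trans (ins_mono h5)) h2 h3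
        (h4 _ (sdiff_subset_sdiff h5 Subset.rfl) fun C h7 h8 h9 e he => ?_)⟩
      obtain ⟨k1, k2, k3⟩ := mem_ins.1 (h6 C (h7.trans (ins_mono sdiff_subset)) h8 h9 he)
      obtain ⟨-, k4, k5⟩ := mem_ins.1 (h7 he)
      exact mem_ins.2 ⟨k1, mem_sdiff.2 ⟨k2, (mem_sdiff.1 k4).2⟩,
        mem_sdiff.2 ⟨k3, (mem_sdiff.1 k5).2⟩⟩

lemma Sol_no_cross {W Y : Finset V} (hc : (G.crs (G.ins W) Y).card ≤ 1) {C : Finset E}
    (hC : C ⊆ G.ins W) (hE : G.Ev C) {e : E} (he : e ∈ C) : G.s e ∈ Y ↔ G.t e ∈ Y := by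
  by_contra k
  have h1 : G.crs C Y ⊆ G.crs (G.ins W) Y := fun x hx =>
    mem_crs.2 ⟨hC (mem_crs.1 hx).1, (mem_crs.1 hx).2⟩
  have h2 := card_le_card h1
  have h3 := card_pos.2 ⟨e, mem_crs.2 ⟨he, k⟩⟩
  obtain ⟨m, hm⟩ := hE.even_crs Y
  omega

lemma Sol_ev_inter {Y : Finset V} {C : Finset E} (hA : C ⊆ G.A) (hE : G.Ev C)
    (h : ∀ e ∈ C, G.s e ∈ Y ↔ G.t e ∈ Y) : G.Ev (C ∩ G.ins Y) := by
  intro v
  by_cases hv : v ∈ Y
  · rw [← hE v]
    refine sum_subset inter_subset_left fun e he hn => ?_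
    have k1 : G.s e ∉ Y := fun k =>
      hn (mem_inter.2 ⟨he, mem_ins.2 ⟨hA he, k, (h e he).1 k⟩⟩)
    have k2 : G.t e ∉ Y := fun k => k1 ((h e he).2 k)
    have k3 : G.s e ≠ v := fun k => k1 (k ▸ hv)
    have k4 : G.t e ≠ v := fun k => k2 (k ▸ hv)
    simp [iv, k3, k4]
  · refine dg_of_not_mem fun k => hv ?_
    exact (sub_ins_iff.1 inter_subset_right).2 k

theorem reduce_two (hA : G.Adm1) {W : Finset V} {Q : Finset E} (hQ : Q ⊆ G.ins W) (cQ : G.Cc Q) :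
    ∃ L, G.vs Q ⊆ L ∧ L ⊆ W ∧ G.Two L (G.ins L) ∧
      (∀ C ⊆ G.ins W, G.Ev C → ∀ e ∈ C, e ∈ G.tch L → e ∈ G.ins L) ∧
      ∃ δ, ∀ ε, G.Sol L ε → G.Sol W (ε + δ) := by
  induction W using Finset.strongInduction with
  | H W ih =>
    by_cases ht : G.Two W (G.ins W)
    · exact ⟨W, (sub_ins_iff.1 hQ).2, Subset.rfl, ht, fun C hC _ e he _ => hC he, 0,
        fun ε h => by rwa [add_zero]⟩
    have key : ∀ Y ⊂ W, (G.crs (G.ins W) Y).card ≤ 1 → G.vs Q ⊆ Y →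
        ∃ L, G.vs Q ⊆ L ∧ L ⊆ W ∧ G.Two L (G.ins L) ∧
          (∀ C ⊆ G.ins W, G.Ev C → ∀ e ∈ C, e ∈ G.tch L → e ∈ G.ins L) ∧
          ∃ δ, ∀ ε, G.Sol L ε → G.Sol W (ε + δ) := by
      intro Y hY hc hv
      obtain ⟨L, h1, h2, h3, h4, δ, h5⟩ := ih Y hY (sub_ins_iff.2 ⟨hQ.trans ins_sub_A, hv⟩)
      obtain ⟨b, h6⟩ := sol_exists hA (W \ Y)
      refine ⟨L, h1, h2.trans hY.subset, h3, fun C hC hE e he he' => ?_, δ + b, fun ε h => ?_⟩
      · have k1 := fun x (hx : x ∈ C) => Sol_no_cross hc hC hE hx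
        refine h4 (C ∩ G.ins Y) inter_subset_right
          (Sol_ev_inter (hC.trans ins_sub_A) hE k1) e (mem_inter.2 ⟨he, ?_⟩) he'
        obtain ⟨k2, k3 | k3⟩ := mem_tch.1 he'
        · exact mem_ins.2 ⟨k2, h2 k3, (k1 e he).1 (h2 k3)⟩
        · exact mem_ins.2 ⟨k2, (k1 e he).2 (h2 k3), h2 k3⟩
      · rw [← add_assoc]
        exact Sol_join hY.subset hc (h5 ε h) h6
    unfold Two at ht
    push Not at ht
    obtain ⟨X, h1, h2, h3, h4⟩ := ht
    have h5 : (G.crs (G.ins W) X).card ≤ 1 := by omega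
    obtain ⟨a, ha⟩ := Sol_vs_nonempty cQ
    have cl := fun e (he : e ∈ Q) => Sol_no_cross h5 hQ cQ.2.1 he
    by_cases hx : a ∈ X
    · exact key X (Finset.ssubset_iff_subset_ne.2 ⟨h1, h3⟩) h5 fun v hv =>
        (cQ.2.2 a ha v hv).closed (P := fun u => u ∈ X) cl hx
    · refine key (W \ X) (Sol_sdiff_ssub h1 h2) (h5.trans' (card_le_card fun e he => ?_))
        fun v hv => mem_sdiff.2 ⟨(sub_ins_iff.1 hQ).2 hv, fun k =>
          hx ((cQ.2.2 v hv a ha).closed (P := fun u => u ∈ X) cl k)⟩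
      obtain ⟨k1, k2⟩ := mem_crs.1 he
      obtain ⟨-, k3, k4⟩ := mem_ins.1 k1
      refine mem_crs.2 ⟨k1, fun k => k2 ?_⟩
      simp only [mem_sdiff, k3, k4, true_and, k]

end SG

end Pool.Agent.Work.MP_8c679b_co
end

-- merged part: Pool.Agent.Work.MP_8c679b_co.Red
section
set_option autoImplicit false

namespace Pool.Agent.Work.MP_8c679b_co

open Finset

namespace SG

variable {V E : Type} [Fintype V] [DecidableEq V] [DecidableEq E] {G : SG V E}

lemma red_three : ∀ a1 a2 a3 b1 b2 b3 : ZMod 3, a1 ≠ 0 → a2 ≠ 0 → a3 ≠ 0 → b1 ≠ 0 → b2 ≠ 0 →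
    b3 ≠ 0 → a1 + (a2 + a3) = 0 → b1 + (b2 + b3) = 0 →
    ∃ c : ZMod 3, c ≠ 0 ∧ c * b1 = a1 ∧ c * b2 = a2 ∧ c * b3 = a3 := by decide

lemma red_one : ∀ a b : ZMod 3, a ≠ 0 → b ≠ 0 → ∃ c : ZMod 3, c ≠ 0 ∧ c * b = a := by decide

lemma red_cancel : ∀ k c a b : ZMod 3, k ≠ 0 → c * (k * b) = k * a → c * b = a := by decide

lemma red_iv {R : Type} [Zero R] [One R] {a b : Prop} [Decidable a] [Decidable b] (h : a ↔ b) :
    (iv a : R) = iv b := by
  simp only [iv, h]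

lemma red_chi_ne (a : ZMod 2) : (chi a : ZMod 3) ≠ 0 := by
  rcases z2 a with rfl | rfl <;> decide

lemma red_kap_ne {p : V → ZMod 2} {X : Finset V} {e : E} (h : e ∈ G.cut X) :
    (G.kap p X e : ZMod 3) ≠ 0 := by
  have := (mem_cut.1 h).2
  by_cases h1 : G.s e ∈ X <;> by_cases h2 : G.t e ∈ X
  · simp [h1, h2] at this
  · simpa [kap, iv, h1, h2] using red_chi_ne _
  · simpa [kap, iv, h1, h2] using ⟨red_chi_ne _, red_chi_ne _⟩
  · simp [h1, h2] at this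

lemma red_kap_zero {R : Type} [CommRing R] {p : V → ZMod 2} {X : Finset V}
    (hp : ∀ e ∈ G.ins X, G.sw p e = 0) {e : E} (h : e ∈ G.ins X) : (G.kap p X e : R) = 0 := by
  rw [kap_ins (mem_ins.1 h).2.1 (mem_ins.1 h).2.2, hp e h]
  simp

lemma red_sum_cut {R : Type} [CommRing R] {p : V → ZMod 2} {X : Finset V}
    (hp : ∀ e ∈ G.ins X, G.sw p e = 0) (f : E → R) :
    ∑ e ∈ G.A, G.kap p X e * f e = ∑ e ∈ G.cut X, G.kap p X e * f e := by
  refine (sum_subset (filter_subset _ _) fun e he h => ?_).symm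
  by_cases h1 : G.s e ∈ X <;> by_cases h2 : G.t e ∈ X
  · rw [red_kap_zero hp (mem_ins.2 ⟨he, h1, h2⟩), zero_mul]
  · exact absurd (mem_cut.2 ⟨he, by simp [h1, h2]⟩) h
  · exact absurd (mem_cut.2 ⟨he, by simp [h1, h2]⟩) h
  · rw [kap_out h1 h2, zero_mul]

lemma red_core (hA : G.Adm1) {X U : Finset V} {q : V → ZMod 2}
    (hq : ∀ e ∈ G.ins X, G.sw q e = 0) {O P : Finset E} (hO : O ⊆ G.A)
    (hO' : ∀ e ∈ O, e ∉ G.ins X) (hpar : ∑ e ∈ O, G.sw q e = 0) {φ : E → ZMod 3}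
    (h1 : ∀ v ∉ X, G.bd φ v = 0) (h2 : ∑ e ∈ G.A, G.kap q X e * φ e = 0)
    (h3 : ∀ e ∈ G.A, e ∉ G.ins X → e ∉ O → φ e ≠ 0) (hU : U ⊆ X) (hP : P ⊆ G.ins U)
    (hcn : G.Cn U P) (hE : ∀ v, G.dg O v + G.dg P v = 0)
    (hm : ∀ φ1 : E → ZMod 3, (∀ v ∈ X \ U, G.bd φ1 v = 0) →
      (∀ e ∈ G.cut X, e ∈ G.tch (X \ U) → φ1 e ≠ 0) →
      ∃ c : ZMod 3, c ≠ 0 ∧ ∀ e ∈ G.cut X, e ∈ G.tch (X \ U) → c * φ1 e = φ e) : G.Cov := by
  have hsub : G.ins (X \ U) ⊆ G.ins X := ins_mono sdiff_subset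
  have hPX : P ⊆ G.ins X := hP.trans (ins_mono hU)
  obtain ⟨O1, a1, a2, -, φ1, a3, a4⟩ := sol_of_bal hA (W := X \ U) ⟨q, fun e he => hq e (hsub he)⟩
  obtain ⟨c, hc, hcm⟩ := hm φ1 a3 fun e he ht => a4 e ht fun h => by
    have := mem_ins.1 (hsub (a1 h))
    exact (mem_cut.1 he).2 (by simp [this.2.1, this.2.2])
  let ψ : E → ZMod 3 := fun e =>
    if e ∈ G.tch (X \ U) then c * φ1 e else if e ∈ G.ins X then 1 else φ e
  have b1 : ∀ e ∈ G.A, e ∉ G.ins X → ψ e = φ e := fun e he h => by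
    simp only [ψ, h, if_false]
    split_ifs with k
    · refine hcm e (mem_cut.2 ⟨he, fun k2 => h (mem_ins.2 ⟨he, ?_⟩)⟩) k
      rcases (mem_tch.1 k).2 with k3 | k3
      · exact ⟨(mem_sdiff.1 k3).1, k2.1 (mem_sdiff.1 k3).1⟩
      · exact ⟨k2.2 (mem_sdiff.1 k3).1, (mem_sdiff.1 k3).1⟩
    · rfl
  have b2 : ∀ v ∈ X \ U, G.bd ψ v = 0 := fun v hv => by
    rw [bd_congr (g := fun e => c * φ1 e), bd_mul, a3 v hv, mul_zero]
    intro e he h
    have : e ∈ G.tch (X \ U) := mem_tch.2 ⟨he, Or.imp (fun k : G.s e = v => k.symm ▸ hv)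
      (fun k : G.t e = v => k.symm ▸ hv) h⟩
    simp only [ψ, this, if_true]
  have b3 : ∑ e ∈ G.A, G.kap q U e * ψ e = 0 := by
    have k1 : ∑ e ∈ G.A, G.kap q X e * ψ e = 0 := by
      rw [← h2]
      refine sum_congr rfl fun e he => ?_
      by_cases h : e ∈ G.ins X
      · rw [red_kap_zero hq h, zero_mul, zero_mul]
      · rw [b1 e he h]
    rw [← sum_bd, ← sum_sdiff hU, sum_eq_zero fun v hv => by rw [b2 v hv, mul_zero],
      zero_add, sum_bd] at k1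
    exact k1
  obtain ⟨ψ', c1, c2⟩ := ext3 hP hcn ψ (Or.inr ⟨q, fun e he => hq e (hPX he), b3⟩)
  have d1 : Disjoint O P := disjoint_left.2 fun e he h => hO' e he (hPX h)
  have d2 : Disjoint (O ∪ P) O1 := disjoint_left.2 fun e he h => by
    rcases mem_union.1 he with he | he
    · exact hO' e he (hsub (a1 h))
    · exact (mem_sdiff.1 (mem_ins.1 (a1 h)).2.1).2 (mem_ins.1 (hP he)).2.1
  have hEv : G.Ev (O ∪ P ∪ O1) := Ev.union (fun v => by rw [dg_union d1, hE v]) a2 d2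
  refine ⟨O ∪ P ∪ O1, union_subset (union_subset hO (hP.trans ins_sub_A)) (a1.trans ins_sub_A),
    hEv, ?_, ψ', fun v => ?_, fun e he h => ?_⟩
  · rw [hEv.par_eq q, sum_union d2, sum_union d1, hpar, sum_eq_zero fun e he => hq e (hPX he),
      sum_eq_zero fun e he => hq e (hsub (a1 he))]
    simp
  · by_cases hv : v ∈ U
    · exact c2 v hv
    have k : G.bd ψ' v = G.bd ψ v := bd_congr fun e he h => c1 e fun k => by
      have := mem_ins.1 (hP k)
      rcases h with rfl | rfl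
      exacts [hv this.2.1, hv this.2.2]
    rw [k]
    by_cases hv' : v ∈ X
    · exact b2 v (mem_sdiff.2 ⟨hv', hv⟩)
    · rw [← h1 v hv']
      refine bd_congr fun e he h => b1 e he fun k => ?_
      have := mem_ins.1 k
      rcases h with rfl | rfl
      exacts [hv' this.2.1, hv' this.2.2]
  · simp only [mem_union, not_or] at h
    rw [c1 e h.1.2]
    simp only [ψ]
    split_ifs with k1 k2
    · exact mul_ne_zero hc (a4 e k1 h.2)
    · exact one_ne_zero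
    · exact h3 e he k2 h.1.1

lemma red_inner {X : Finset V} {e : E} (h : ¬ (G.s e ∈ X ↔ G.t e ∈ X)) :
    ∃ x ∈ X, (∀ v ∈ X, (iv (G.s e = v) + iv (G.t e = v) : ZMod 2) = iv (v = x)) ∧
      ∀ v ∈ X, G.At e v → v = x := by
  by_cases h1 : G.s e ∈ X
  · have h2 : G.t e ∉ X := fun k => h (by simp [h1, k])
    refine ⟨_, h1, fun v hv => ?_, fun v hv k => k.elim Eq.symm fun k => absurd (k ▸ hv) h2⟩
    have : G.t e ≠ v := fun k => h2 (k ▸ hv)
    simp [iv, this, eq_comm]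
  · have h2 : G.t e ∈ X := by_contra fun k => h (by simp [h1, k])
    refine ⟨_, h2, fun v hv => ?_, fun v hv k => k.elim (fun k => absurd (k ▸ hv) h1) Eq.symm⟩
    have : G.s e ≠ v := fun k => h1 (k ▸ hv)
    simp [iv, this, eq_comm]

lemma red_back (hA : G.Adm1) {X : Finset V} (hcn : G.Cn X (G.ins X)) (hc3 : (G.cut X).card = 3)
    {q : V → ZMod 2} (hq : ∀ e ∈ G.ins X, G.sw q e = 0) {O : Finset E} (hO : O ⊆ G.A)
    (hO' : ∀ e ∈ O, e ∉ G.ins X) (hpar : ∑ e ∈ O, G.sw q e = 0) {φ : E → ZMod 3}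
    (h1 : ∀ v ∉ X, G.bd φ v = 0) (h2 : ∑ e ∈ G.A, G.kap q X e * φ e = 0)
    (h3 : ∀ e ∈ G.A, e ∉ G.ins X → e ∉ O → φ e ≠ 0) (hE : ∀ v ∉ X, G.dg O v = 0)
    (hE' : Even (G.crs O X).card) : G.Cov := by
  have hsub : G.crs O X ⊆ G.cut X := fun e he => mem_cut.2 ⟨hO (mem_crs.1 he).1, (mem_crs.1 he).2⟩
  have hdg : ∀ v ∈ X, G.dg O v = G.dg (G.crs O X) v := fun v hv => by
    refine (sum_subset (filter_subset _ _) fun e he h => ?_).symm
    have k1 : G.s e ∈ X ↔ G.t e ∈ X := by_contra fun k => h (mem_crs.2 ⟨he, k⟩)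
    have k2 : G.s e ∉ X := fun k => hO' e he (mem_ins.2 ⟨hO he, k, k1.1 k⟩)
    have k3 : G.s e ≠ v := fun k => k2 (k ▸ hv)
    have k4 : G.t e ≠ v := fun k => k2 (k1.2 (k ▸ hv))
    simp [iv, k3, k4]
  have hφ : ∀ e ∈ G.cut X, e ∉ G.crs O X → φ e ≠ 0 := fun e he h =>
    h3 e (mem_cut.1 he).1 (fun k => (mem_cut.1 he).2 (by
      simp [(mem_ins.1 k).2.1, (mem_ins.1 k).2.2])) fun k => h (mem_crs.2 ⟨k, (mem_cut.1 he).2⟩)
  have hle := card_le_card hsub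
  have hcase : (G.crs O X).card = 0 ∨ (G.crs O X).card = 2 := by
    obtain ⟨k, hk⟩ := hE'
    omega
  rcases hcase with h0 | h0
  · rw [card_eq_zero] at h0
    refine red_core hA hq hO hO' hpar h1 h2 h3 (U := ∅) (P := ∅) (empty_subset _) (empty_subset _)
      (fun a ha => by simp at ha) (fun v => ?_) fun φ1 b1 b2 => ?_
    · by_cases hv : v ∈ X
      · rw [hdg v hv, h0, z2_add_self]
      · rw [hE v hv, ev_empty v, add_zero]
    · rw [sdiff_empty] at b1 b2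
      have t : ∀ e ∈ G.cut X, e ∈ G.tch X := fun e he => mem_tch.2 ⟨(mem_cut.1 he).1, by
        have := (mem_cut.1 he).2
        tauto⟩
      have k1 : ∑ e ∈ G.A, G.kap q X e * φ1 e = 0 := by
        rw [← sum_bd]
        exact sum_eq_zero fun v hv => by rw [b1 v hv, mul_zero]
      rw [red_sum_cut hq] at k1 h2
      obtain ⟨e1, e2, e3, n1, n2, n3, he⟩ := card_eq_three.1 hc3
      have m1 : e1 ∈ G.cut X := by simp [he]
      have m2 : e2 ∈ G.cut X := by simp [he]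
      have m3 : e3 ∈ G.cut X := by simp [he]
      rw [he, sum_insert (by simp [n1, n2]), sum_insert (by simp [n3]), sum_singleton] at k1 h2
      have f : ∀ e ∈ G.cut X, G.kap q X e * φ e ≠ 0 := fun e he =>
        mul_ne_zero (red_kap_ne he) (hφ e he (by simp [h0]))
      have g : ∀ e ∈ G.cut X, G.kap q X e * φ1 e ≠ 0 := fun e he =>
        mul_ne_zero (red_kap_ne he) (b2 e he (t e he))
      obtain ⟨c, c0, c1, c2, c3⟩ := red_three _ _ _ _ _ _ (f e1 m1) (f e2 m2) (f e3 m3)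
        (g e1 m1) (g e2 m2) (g e3 m3) h2 k1
      refine ⟨c, c0, fun e h _ => red_cancel _ _ _ _ (red_kap_ne (p := q) h) ?_⟩
      rw [he] at h
      simp only [mem_insert, mem_singleton] at h
      rcases h with rfl | rfl | rfl
      exacts [c1, c2, c3]
  · obtain ⟨e3, he3⟩ : ∃ e3, G.cut X \ G.crs O X = {e3} :=
      card_eq_one.1 (by rw [card_sdiff_of_subset hsub]; omega)
    obtain ⟨e1, e2, n1, he⟩ := card_eq_two.1 h0
    obtain ⟨x1, a1, a2, a3⟩ := red_inner (mem_crs.1 (show e1 ∈ G.crs O X by simp [he])).2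
    obtain ⟨x2, b1, b2, b3⟩ := red_inner (mem_crs.1 (show e2 ∈ G.crs O X by simp [he])).2
    obtain ⟨U, P, u1, u2, u3, u4, u5, u6⟩ : ∃ U P, U ⊆ X ∧ P ⊆ G.ins U ∧ G.Cn U P ∧
        G.Od P x1 x2 ∧ x1 ∈ U ∧ x2 ∈ U := by
      by_cases k : x1 = x2
      · subst k
        refine ⟨{x1}, ∅, singleton_subset_iff.2 a1, empty_subset _, fun a ha b hb => ?_,
          od_self.2 ev_empty, mem_singleton_self _, mem_singleton_self _⟩
        rw [mem_singleton.1 ha, mem_singleton.1 hb]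
        exact Rch.refl _ _
      · obtain ⟨P, p1, p2⟩ := (hcn x1 a1 x2 b1).jn k
        exact ⟨G.vs P, P, (sub_ins_iff.1 p1).2, sub_ins_vs (p1.trans ins_sub_A), p2.2.2, p2.2.1,
          p2.left_mem, p2.right_mem⟩
    refine red_core hA hq hO hO' hpar h1 h2 h3 u1 u2 u3 (fun v => ?_) fun φ1 _ c2 => ?_
    · rw [u4 v]
      by_cases hv : v ∈ X
      · rw [hdg v hv, he, dg, sum_pair n1, a2 v hv, b2 v hv, z2_add_self]
      · have k1 : v ≠ x1 := fun k => hv (k ▸ a1)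
        have k2 : v ≠ x2 := fun k => hv (k ▸ b1)
        simp [hE v hv, iv, k1, k2]
    · have key : ∀ e ∈ G.cut X, e ∈ G.tch (X \ U) → e = e3 ∧ e ∉ G.crs O X := fun e h ht => by
        have k : e ∉ G.crs O X := fun k => by
          obtain ⟨v, hv, hat⟩ : ∃ v ∈ X \ U, G.At e v :=
            (mem_tch.1 ht).2.elim (fun k => ⟨_, k, Or.inl rfl⟩) fun k => ⟨_, k, Or.inr rfl⟩
          rw [he] at k
          simp only [mem_insert, mem_singleton] at k
          rcases k with rfl | rfl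
          · exact (mem_sdiff.1 hv).2 (a3 v (mem_sdiff.1 hv).1 hat ▸ u5)
          · exact (mem_sdiff.1 hv).2 (b3 v (mem_sdiff.1 hv).1 hat ▸ u6)
        exact ⟨mem_singleton.1 (he3 ▸ mem_sdiff.2 ⟨h, k⟩), k⟩
      by_cases k : e3 ∈ G.cut X ∧ e3 ∈ G.tch (X \ U)
      · obtain ⟨c, c0, c1⟩ := red_one _ _ (hφ e3 k.1 (key e3 k.1 k.2).2) (c2 e3 k.1 k.2)
        exact ⟨c, c0, fun e h ht => (key e h ht).1.symm ▸ c1⟩
      · exact ⟨1, one_ne_zero, fun e h ht => absurd ((key e h ht).1 ▸ ⟨h, ht⟩) k⟩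

variable (G) in
/-- contraction of `X` to `x` after switching by `q` -/
def redC (X : Finset V) (x : V) (q : V → ZMod 2) : SG V E where
  A := G.A \ G.ins X
  s e := if G.s e ∈ X then x else G.s e
  t e := if G.t e ∈ X then x else G.t e
  n := G.sw q

/-- the vertices sent to `w` by the contraction -/
def redF (X : Finset V) (x w : V) : Finset V := univ.filter fun v => (if v ∈ X then x else v) = w

lemma redF_out {X : Finset V} {x w : V} (hx : x ∈ X) (hw : w ∉ X) : redF X x w = {w} := by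
  ext v
  simp only [redF, mem_filter, mem_univ, true_and, mem_singleton]
  split_ifs with h
  · exact ⟨fun k => absurd (k ▸ hx) hw, fun k => absurd (k ▸ h) hw⟩
  · rfl

lemma redF_self {X : Finset V} {x : V} (hx : x ∈ X) : redF X x x = X := by
  ext v
  simp only [redF, mem_filter, mem_univ, true_and]
  split_ifs with h
  · simp [h]
  · exact ⟨fun k => absurd (k ▸ hx) h, fun k => absurd k h⟩

lemma redF_in {X : Finset V} {x w : V} (hw : w ∈ X) (h : w ≠ x) : redF X x w = ∅ := by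
  refine filter_eq_empty_iff.2 fun v _ => ?_
  split_ifs with k
  · exact h.symm
  · exact fun k2 => k (k2 ▸ hw)

lemma redC_bd {R : Type} [CommRing R] {X : Finset V} {x : V} {q : V → ZMod 2}
    (hq : ∀ e ∈ G.ins X, G.sw q e = 0) (f : E → R) (w : V) :
    (G.redC X x q).bd (fun e => chi (q (G.s e)) * f e) w =
      ∑ v ∈ redF X x w, chi (q v) * G.bd f v := by
  rw [sum_bd, ← sum_sdiff (ins_sub_A (W := X)), sum_eq_zero (s := G.ins X), add_zero]
  · refine sum_congr rfl fun e _ => ?_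
    have e1 : (iv (G.s e ∈ redF X x w) : R) = iv ((G.redC X x q).s e = w) :=
      red_iv (by simp [redF, redC])
    have e2 : (iv (G.t e ∈ redF X x w) : R) = iv ((G.redC X x q).t e = w) :=
      red_iv (by simp [redF, redC])
    have e3 : (G.redC X x q).n e = G.n e + q (G.s e) + q (G.t e) := rfl
    rw [kap, e1, e2, e3, chi_add, chi_add]
    linear_combination (-(iv ((G.redC X x q).t e = w) * chi (G.n e) *
      chi (q (G.t e)) * f e) : R) * chi_mul_self (R := R) (q (G.s e))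
  · intro e he
    have k := mem_ins.1 he
    by_cases h : x = w
    · rw [kap_ins (by simp [redF, k.2.1, h]) (by simp [redF, k.2.2, h]), hq e he]
      simp
    · rw [kap_out (by simp [redF, k.2.1, h]) (by simp [redF, k.2.2, h]), zero_mul]

lemma redC_deg {X : Finset V} {x : V} {q : V → ZMod 2} (S : Finset E) (w : V) :
    (G.redC X x q).deg S w = ∑ v ∈ redF X x w, G.deg S v := by
  simp only [deg]
  rw [sum_comm]
  refine sum_congr rfl fun e _ => ?_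
  simp only [inc, sum_add_distrib, iv, sum_ite_eq]
  congr 1 <;> exact red_iv (by simp [redF, redC])

/-- contraction of a balanced connected set with three leaving edges -/
theorem red3 (hc : G.Cub) (hA : G.Adm) {X : Finset V} (hX : 2 ≤ X.card) (hcn : G.Cn X (G.ins X))
    (hB : G.Bal (G.ins X)) (h3 : (G.cut X).card = 3) :
    ∃ G' : SG V E, G'.Cub ∧ G'.Adm ∧ G'.A.card < G.A.card ∧ (G'.Cov → G.Cov) := by
  obtain ⟨p, hp⟩ := hB
  obtain ⟨x, hx, y, hy, hxy⟩ := one_lt_card.1 hX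
  let q : V → ZMod 2 := fun v => if v ∈ X then p v else 0
  have hq : ∀ e ∈ G.ins X, G.sw q e = 0 := fun e he => by
    rw [← hp e he]
    simp only [sw, q, (mem_ins.1 he).2.1, (mem_ins.1 he).2.2, if_true]
  refine ⟨G.redC X x q, fun w => ?_, ?_, ?_, ?_⟩
  · rw [redC_deg]
    by_cases hw : w ∈ X
    · by_cases h : w = x
      · right
        rw [h, redF_self hx, ← h3, cut, crs, card_filter, ← sum_sdiff (ins_sub_A (W := X)),
          sum_eq_zero (s := G.ins X) fun e he => by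
            simp [(mem_ins.1 he).2.1, (mem_ins.1 he).2.2], add_zero]
        simp only [deg]
        rw [sum_comm]
        refine sum_congr rfl fun e he => ?_
        have k := mem_sdiff.1 he
        have k2 : ¬ (G.s e ∈ X ∧ G.t e ∈ X) := fun k2 => k.2 (mem_ins.2 ⟨k.1, k2⟩)
        simp only [inc, sum_add_distrib, iv, sum_ite_eq]
        by_cases h1 : G.s e ∈ X <;> by_cases h2 : G.t e ∈ X <;> simp_all
      · left
        rw [redF_in hw h, sum_empty]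
    · rw [redF_out hx hw, sum_singleton]
      have k : G.deg (G.ins X) w = 0 := by
        by_contra k
        exact hw ((sub_ins_iff.1 Subset.rfl).2 (deg_pos.1 (Nat.pos_of_ne_zero k)))
      have := deg_sdiff (G := G) (v := w) (ins_sub_A (G := G) (W := X))
      rw [k, add_zero] at this
      exact this.symm ▸ hc w
  · obtain ⟨f, f1, f2⟩ := hA
    refine ⟨fun e => chi (q (G.s e)) * f e, fun w => ?_, fun e he => ?_⟩
    · rw [redC_bd hq]
      exact sum_eq_zero fun v _ => by rw [f1 v, mul_zero]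
    · refine mul_ne_zero ?_ (f2 e (mem_sdiff.1 he).1)
      rcases z2 (q (G.s e)) with h | h <;> simp [h]
  · obtain ⟨e, he, -⟩ := mem_vs.1 ((hcn x hx y hy).mem_vs hxy)
    exact card_lt_card (sdiff_ssubset ins_sub_A ⟨e, he⟩)
  · rintro ⟨O, o1, o2, o3, φ, o4, o5⟩
    have k : ∀ w, ∑ v ∈ redF X x w, chi (q v) * G.bd (fun e => chi (q (G.s e)) * φ e) v = 0 :=
      fun w => by
        rw [← redC_bd hq, ← o4 w]
        simp only [← mul_assoc, chi_mul_self, one_mul]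
    have kd : ∀ w, ∑ v ∈ redF X x w, G.dg O v = 0 := fun w => by
      have := o2 w
      rw [dg_eq, redC_deg, Nat.cast_sum] at this
      simpa only [dg_eq] using this
    refine red_back hA.adm1 hcn h3 hq (o1.trans sdiff_subset) (fun e he => (mem_sdiff.1 (o1 he)).2)
      o3 (φ := fun e => chi (q (G.s e)) * φ e) (fun v hv => ?_) ?_ (fun e he h h' => ?_)
      (fun v hv => ?_) ?_
    · have := k v
      rw [redF_out hx hv, sum_singleton] at this
      simpa [q, hv] using this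
    · have := k x
      rwa [redF_self hx, sum_bd] at this
    · exact mul_ne_zero (red_chi_ne _) (o5 e (mem_sdiff.2 ⟨he, h⟩) h')
    · have := kd v
      rwa [redF_out hx hv, sum_singleton] at this
    · have := kd x
      rwa [redF_self hx, sum_dg, ZMod.natCast_eq_zero_iff_even] at this

/-- a balanced connected set with two leaving edges extends to one with three -/
theorem red2 (hc : G.Cub) (h2 : G.Two (G.vs G.A) G.A) {X : Finset V} (hX : X.Nonempty)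
    (hcn : G.Cn X (G.ins X)) (hB : G.Bal (G.ins X)) (h3 : (G.cut X).card = 2) :
    ∃ X' : Finset V, 2 ≤ X'.card ∧ G.Cn X' (G.ins X') ∧ G.Bal (G.ins X') ∧
      (G.cut X').card = 3 := by
  obtain ⟨e1, he1⟩ := card_pos.1 (show 0 < (G.cut X).card by omega)
  obtain ⟨m1, m2⟩ := mem_cut.1 he1
  obtain ⟨x, u, hx, hu, hxu⟩ : ∃ x u, x ∈ X ∧ u ∉ X ∧
      ((G.s e1 = x ∧ G.t e1 = u) ∨ (G.s e1 = u ∧ G.t e1 = x)) := by
    by_cases h : G.s e1 ∈ X
    · exact ⟨_, _, h, fun k => m2 (by simp [h, k]), Or.inl ⟨rfl, rfl⟩⟩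
    · exact ⟨_, _, by_contra fun k => m2 (by simp [h, k]), h, Or.inr ⟨rfl, rfl⟩⟩
  have hne : x ≠ u := fun k => hu (k ▸ hx)
  have atu : G.At e1 u := hxu.elim (fun k => Or.inr k.2) fun k => Or.inl k.1
  have atx : G.At e1 x := hxu.elim (fun k => Or.inl k.1) fun k => Or.inr k.2
  have uv : u ∈ G.vs G.A := mem_vs.2 ⟨e1, m1, atu⟩
  have xv : x ∈ G.vs G.A := mem_vs.2 ⟨e1, m1, atx⟩
  have d3 := hc.deg3 uv
  have noloop : ∀ e ∈ G.A, G.s e = u → G.t e ≠ u := fun l hl l1 l2 => by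
    have k1 : l ≠ e1 := by
      rintro rfl
      exact m2 (by rw [l1, l2])
    have k2 := h2 {u} (singleton_subset_iff.2 uv) (singleton_nonempty _)
      fun k => hne (mem_singleton.1 (k ▸ xv))
    obtain ⟨e, he, k3⟩ := exists_mem_ne k2 e1
    obtain ⟨k4, k5⟩ := mem_crs.1 he
    have k6 : l ≠ e := by
      rintro rfl
      exact k5 (by rw [l1, l2])
    have k7 : G.At e u := by
      simp only [mem_singleton] at k5
      unfold At
      (clear * - hxu k5 m2; tauto)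
    have k8 : G.deg {l, e1, e} u ≤ G.deg G.A u :=
      deg_mono (by simp [insert_subset_iff, hl, m1, k4])
    rw [deg, sum_insert (by simp [k1, k6]), sum_pair k3.symm] at k8
    have k9 : G.inc l u = 2 := by simp [inc, iv, l1, l2]
    have := inc_pos.2 atu
    have := inc_pos.2 k7
    omega
  let T := G.A.filter fun e => G.s e = u ∨ G.t e = u
  have hT : T.card = 3 := by
    rw [← d3, card_filter, deg]
    refine sum_congr rfl fun e he => ?_
    have := noloop e he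
    unfold inc iv
    by_cases k1 : G.s e = u <;> by_cases k2 : G.t e = u <;> simp_all
  have hcut : G.cut (insert u X) = (G.cut X \ T) ∪ (T \ G.cut X) := by
    ext e
    simp only [mem_union, mem_sdiff, mem_cut, T, mem_filter, mem_insert]
    by_cases he : e ∈ G.A
    · have := noloop e he
      by_cases k1 : G.s e = u <;> by_cases k2 : G.t e = u <;> simp_all
    · simp [he]
  have e1T : e1 ∈ T ∩ G.cut X := mem_inter.2 ⟨mem_filter.2 ⟨m1, atu⟩, he1⟩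
  have c1 := card_sdiff_add_card_inter (G.cut X) T
  have c2 := card_sdiff_add_card_inter T (G.cut X)
  have c3 : (G.cut (insert u X)).card = (G.cut X \ T).card + (T \ G.cut X).card := by
    rw [hcut, card_union_of_disjoint disjoint_sdiff_sdiff]
  have c4 := card_pos.2 ⟨e1, e1T⟩
  rw [inter_comm] at c1
  have c5 : 2 ≤ (G.cut (insert u X)).card := by
    have k1 : G.crs G.A (insert u X ∩ G.vs G.A) = G.cut (insert u X) :=
      filter_congr fun e he => by simp only [mem_inter, s_mem_vs he, t_mem_vs he, and_true]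
    rw [← k1]
    refine h2 _ inter_subset_right ⟨u, mem_inter.2 ⟨mem_insert_self _ _, uv⟩⟩ fun k => ?_
    obtain ⟨e, he⟩ := card_pos.1 (show 0 < (G.cut (insert u X)).card by omega)
    obtain ⟨k2, k3⟩ := mem_cut.1 he
    have k4 := (mem_inter.1 (k.ge (s_mem_vs k2))).1
    have k5 := (mem_inter.1 (k.ge (t_mem_vs k2))).1
    exact k3 (by simp only [k4, k5])
  have c6 : (T ∩ G.cut X).card = 1 := by omega
  have hins : ∀ e ∈ G.ins (insert u X), e ∈ G.ins X ∨ e = e1 := fun e he => by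
    obtain ⟨k1, k2, k3⟩ := mem_ins.1 he
    by_cases k : G.At e u
    · refine Or.inr (card_le_one.1 c6.le e (mem_inter.2 ⟨mem_filter.2 ⟨k1, k⟩,
        mem_cut.2 ⟨k1, ?_⟩⟩) e1 e1T)
      have := noloop e k1
      rw [mem_insert] at k2 k3
      rcases k with k | k <;> simp_all
    · rw [mem_insert] at k2 k3
      exact Or.inl (mem_ins.2 ⟨k1, k2.resolve_left fun j => k (Or.inl j),
        k3.resolve_left fun j => k (Or.inr j)⟩)
  have e1i : e1 ∈ G.ins (insert u X) := mem_ins.2 ⟨m1, by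
    rcases hxu with ⟨k1, k2⟩ | ⟨k1, k2⟩ <;> simp [k1, k2, hx]⟩
  refine ⟨insert u X, ?_, cn_of_base (a := x) fun v hv => ?_, ?_, by omega⟩
  · rw [card_insert_of_notMem hu]
    have := card_pos.2 hX
    omega
  · rcases mem_insert.1 hv with rfl | hv
    · exact rch_at e1i atx atu
    · exact (hcn x hx v hv).mono (ins_mono (subset_insert _ _))
  · obtain ⟨p, hp⟩ := hB
    refine ⟨Function.update p u (G.n e1 + p x), fun e he => ?_⟩
    rcases hins e he with k | rfl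
    · have k1 : G.s e ≠ u := fun j => hu (j ▸ (mem_ins.1 k).2.1)
      have k2 : G.t e ≠ u := fun j => hu (j ▸ (mem_ins.1 k).2.2)
      rw [← hp e k]
      simp only [sw, Function.update_of_ne k1, Function.update_of_ne k2]
    · rcases hxu with ⟨k1, k2⟩ | ⟨k1, k2⟩
      · simp only [sw, k1, k2, Function.update_of_ne hne, Function.update_self]
        exact z2_add_self _
      · simp only [sw, k1, k2, Function.update_of_ne hne, Function.update_self]
        linear_combination z2_add_self (G.n e + p x)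

end SG

end Pool.Agent.Work.MP_8c679b_co
end

-- merged part: Pool.Agent.Work.MP_8c679b_co.Six.Defs
section
/-!
Definitions for the six-flow proof.  See `PROOF.md` in this folder.
-/

set_option autoImplicit false

namespace Pool.Agent.Work.MP_8c679b_co

open Finset

/-- relations between an incoming and an outgoing residue -/
abbrev Rl : Type := ZMod 3 → ZMod 3 → Prop

namespace Rl

/-- contains the permutation with sign `σ` and constant `c` -/
def PC (σ : ZMod 2) (c : ZMod 3) (R : Rl) : Prop := ∀ x y, x + chi σ * y = c → R x y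

/-- contains a permutation with sign `σ` -/
def P (σ : ZMod 2) (R : Rl) : Prop := ∃ c, PC σ c R

/-- contains two permutations with sign `σ` -/
def U (σ : ZMod 2) (R : Rl) : Prop := ∃ c, ∀ x y, x + chi σ * y ≠ c → R x y

/-- contains a full row and a full column -/
def Cs (R : Rl) : Prop := ∃ x0 y0, ∀ x y, (x = x0 ∨ y = y0) → R x y

/-- contains a cross without its centre -/
def Xi (R : Rl) : Prop := ∃ x0 y0, ∀ x y, (x = x0 ↔ y ≠ y0) → R x y

/-- contains all pairs with exactly one zero -/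
def X0 (R : Rl) : Prop := ∀ x y, (x = 0 ↔ y ≠ 0) → R x y

/-- total in both directions -/
def Tt (R : Rl) : Prop := (∀ x, ∃ y, R x y) ∧ ∀ y, ∃ x, R x y

/-- total and meets every cross without centre -/
def Gd (R : Rl) : Prop := Tt R ∧ ∀ α β, ∃ x y, R x y ∧ (x = α ↔ y ≠ β)

/-- a permutation or a cross without centre -/
def PX (R : Rl) : Prop := (∃ σ, P σ R) ∨ Xi R

/-- nonempty -/
def Nv (R : Rl) : Prop := ∃ x y, R x y

/-- composition of `Rs 0, …, Rs n` along links with signs `τ 1, …, τ n` -/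
def chain (τ : ℕ → ZMod 2) (Rs : ℕ → Rl) : ℕ → Rl
  | 0 => Rs 0
  | n + 1 => fun x z => ∃ y, chain τ Rs n x y ∧ Rs (n + 1) (-(chi (τ (n + 1))) * y) z

/-- the chain closes up along the link with sign `τ 0` -/
def Cl (τ : ℕ → ZMod 2) (Rs : ℕ → Rl) (n : ℕ) : Prop :=
  ∃ x y, chain τ Rs n x y ∧ x = -(chi (τ 0)) * y

/-- the total sign of a chain -/
def sg (σ τ : ℕ → ZMod 2) (n : ℕ) : ZMod 2 :=
  ∑ i ∈ range (n + 1), σ i + ∑ i ∈ range n, τ (i + 1)

end Rl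

/-- the node of a vertex: the member of `Ns` containing it, or the vertex alone -/
def nd {V : Type} [DecidableEq V] (Ns : Finset (Finset V)) (v : V) : Finset V :=
  insert v ((Ns.filter fun N => v ∈ N).biUnion id)

/-- pairwise disjoint families -/
def PD {V : Type} (Ns : Finset (Finset V)) : Prop :=
  ∀ N ∈ Ns, ∀ N' ∈ Ns, N ≠ N' → Disjoint N N'

/-- the vertices of `Y` whose node lies in `Z` -/
def un {V : Type} [DecidableEq V] (Y : Finset V) (Ns Z : Finset (Finset V)) : Finset V :=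
  Y.filter fun v => nd Ns v ∈ Z

/-- the terms with index at most `n` -/
def pv {V : Type} [DecidableEq V] (n : ℕ) (v : ℕ → V) : Finset V := (range (n + 1)).image v

/-- the terms with index less than `n` -/
def pe {E : Type} [DecidableEq E] (n : ℕ) (g : ℕ → E) : Finset E := (range n).image g

/-- the union of the sets with index at most `n` -/
def bu {α : Type} [DecidableEq α] (n : ℕ) (X : ℕ → Finset α) : Finset α :=
  (range (n + 1)).biUnion X

/-- the union of the target families with index at most `n` -/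
def ku {α : Type} (n : ℕ) (K : ℕ → Set α) : Set α := {t | ∃ i ≤ n, t ∈ K i}

/-- entry edge, inner edges and exit edge of a path as one sequence -/
def es {E : Type} (a b : E) (n : ℕ) (g : ℕ → E) (i : ℕ) : E :=
  if i = 0 then a else if i ≤ n then g (i - 1) else b

namespace SG

variable {V E : Type} [Fintype V] [DecidableEq V] [DecidableEq E] (G : SG V E)

/-! ### paths and quotients -/

/-- `e` joins `a` and `b` -/
def Je (e : E) (a b : V) : Prop := (G.s e = a ∧ G.t e = b) ∨ (G.s e = b ∧ G.t e = a)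

/-- a path `v 0, g 0, v 1, …, g (n-1), v n` in the edge set `S` -/
structure Pth (S : Finset E) (n : ℕ) (v : ℕ → V) (g : ℕ → E) : Prop where
  inj : ∀ i ≤ n, ∀ j ≤ n, v i = v j → i = j
  mem : ∀ i < n, g i ∈ S
  jn : ∀ i < n, G.Je (g i) (v i) (v (i + 1))

/-- a circuit: a path closed by the edge `g n` -/
structure Cyc (S : Finset E) (n : ℕ) (v : ℕ → V) (g : ℕ → E) : Prop where
  pth : G.Pth S n v g
  pos : 1 ≤ n
  cm : g n ∈ S
  cj : G.Je (g n) (v n) (v 0)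
  cn : g n ≠ g 0

/-- the edges of `S` without an end in `M` -/
def avo (S : Finset E) (M : Finset V) : Finset E := S.filter fun e => G.s e ∉ M ∧ G.t e ∉ M

/-- the graph inside `Y` with every member of `Ns` contracted -/
def quo (Y : Finset V) (Ns : Finset (Finset V)) : SG (Finset V) E where
  A := (G.ins Y).filter fun e => nd Ns (G.s e) ≠ nd Ns (G.t e)
  s e := nd Ns (G.s e)
  t e := nd Ns (G.t e)
  n := G.n

/-- a sequence of disjoint regions inside `Y` linked by the edges `e i` -/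
def Trk (Y : Finset V) (n : ℕ) (N : ℕ → Finset V) (e : ℕ → E) : Prop :=
  (∀ i ≤ n, N i ⊆ Y) ∧ (∀ i ≤ n, ∀ j ≤ n, i ≠ j → Disjoint (N i) (N j)) ∧
    ∀ i ≤ n, e i ∈ G.cut (N i) ∧ e (i + 1) ∈ G.cut (N i) ∧ e i ≠ e (i + 1)

/-- a connected edge set `P` spanning `U` whose odd vertices are `x` and `y` -/
def Pp (U : Finset V) (P : Finset E) (x y : V) : Prop :=
  P ⊆ G.ins U ∧ G.Cn U P ∧ G.Od P x y ∧ x ∈ U ∧ y ∈ U

/-! ### cuts -/

/-- the end of `e` inside `X` -/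
def ie (X : Finset V) (e : E) : V := if G.s e ∈ X then G.s e else G.t e

/-- the end of `e` outside `X` -/
def oe (X : Finset V) (e : E) : V := if G.s e ∈ X then G.t e else G.s e

/-- the standing cut condition -/
def HT (T : Finset V) : Prop :=
  ∀ X ⊆ T, X.Nonempty → 3 ≤ (G.cut X).card ∧ ((G.cut X).card = 3 → X.card = 1 ∨ X = T)

/-- unbalanced sides -/
def US (S : Finset V) : Prop := (G.cut S).card = 4 ∧ ¬ G.Bal (G.ins S)

/-- the cut of `S` consists of four different edges -/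
def Q4 (S : Finset V) (a b c d : E) : Prop :=
  G.cut S = {a, b, c, d} ∧ a ≠ b ∧ a ≠ c ∧ a ≠ d ∧ b ≠ c ∧ b ≠ d ∧ c ≠ d

/-- the cut of `S` consists of three different edges -/
def Q3 (S : Finset V) (a b c : E) : Prop := G.cut S = {a, b, c} ∧ a ≠ b ∧ a ≠ c ∧ b ≠ c

/-- the inner ends are different -/
def Dv (S : Finset V) (c d : E) : Prop := G.ie S c ≠ G.ie S d

/-- splits of `S` for the pair `a, b` -/
def Sp (S : Finset V) (a b : E) (X : Finset V) : Prop :=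
  X ⊆ S ∧ (G.cut X).card = 4 ∧ G.cut X ∩ G.cut S = {a, b}

/-- not a chain for the pair `a, b` -/
def NC (S : Finset V) (a b : E) : Prop := ∀ X, ¬ G.Sp S a b X

/-- a four-cycle with a diagonal pair -/
def Qd (S : Finset V) (a b : E) : Prop := S.card = 4 ∧ ¬ G.Adj G.A (G.ie S a) (G.ie S b)

/-- a bridge of the graph inside `Y` -/
def Bri (Y : Finset V) (e : E) : Prop := ∃ X ⊆ Y, G.crs (G.ins Y) X = {e}

/-! ### residue solutions -/

/-- the flow leaving `X` through `e` -/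
def out {R : Type} [Ring R] (X : Finset V) (φ : E → R) (e : E) : R := G.kap (fun _ => 0) X e * φ e

/-- the target `t` has an edge at `X` which is off `O` or has residue zero -/
def Hit (X : Finset V) (O : Finset E) (φ : E → ZMod 3) (t : Finset E) : Prop :=
  ∃ e ∈ t, e ∈ G.tch X ∧ (e ∉ O ∨ φ e = 0)

/-- a solution on `X` hitting all targets of `K` -/
def Sl (X : Finset V) (O : Finset E) (K : Set (Finset E)) (φ : E → ZMod 3) : Prop :=
  (∀ v ∈ X, G.bd φ v = 0) ∧ (∀ e ∈ G.tch X, e ∉ O → φ e ≠ 0) ∧ ∀ t ∈ K, G.Hit X O φ t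

/-- admissible given values -/
def Pre (X : Finset V) (O Fr : Finset E) (ψ : E → ZMod 3) : Prop :=
  ∀ e ∈ G.tch X, e ∉ Fr → e ∉ O → ψ e ≠ 0

/-- a solution that changes the given values only on `Fr` -/
def Re (X : Finset V) (O Fr : Finset E) (K : Set (Finset E)) (ψ φ : E → ZMod 3) : Prop :=
  (∀ e, e ∉ Fr → φ e = ψ e) ∧ G.Sl X O K φ

/-- absorbing `X` under the condition `I` on the given values -/
def Ab (X : Finset V) (O Fr : Finset E) (K : Set (Finset E)) (I : (E → ZMod 3) → Prop) : Prop :=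
  Fr ⊆ G.tch X ∧ ∀ ψ, G.Pre X O Fr ψ → I ψ → ∃ φ, G.Re X O Fr K ψ φ

/-- passing `X` from `a` to `b` with a relation of class `C` -/
def Pa (X : Finset V) (O Fr : Finset E) (K : Set (Finset E)) (a b : E)
    (C : (E → ZMod 3) → Rl → Prop) : Prop :=
  Fr ⊆ G.tch X ∧ ∀ ψ, G.Pre X O Fr ψ → ∃ R, C ψ R ∧
    ∀ x y, R x y → ∃ φ, G.Re X O Fr K ψ φ ∧ G.out X φ a = x ∧ G.out X φ b = y

/-- `O` is even at `X` and leaves `X` exactly through `J` -/
def St (X : Finset V) (O J : Finset E) : Prop :=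
  O ⊆ G.tch X ∧ (∀ v ∈ X, G.dg O v = 0) ∧ O ∩ G.cut X = J

/-- the free edges: inner edges and the leaving edges in `L` -/
def fr (X : Finset V) (L : Finset E) : Finset E := G.ins X ∪ (G.cut X ∩ L)

/-- absorbing `X` with live edges `L` -/
def Abs0 (X : Finset V) (O L : Finset E) (K : Set (Finset E)) : Prop :=
  G.St X O ∅ ∧ G.Ab X O (G.fr X L) K fun _ => True

/-- a pass with leaving edges `J` of `O` and free leaving edges `L` -/
def PasG (X : Finset V) (O J L : Finset E) (K : Set (Finset E)) (a b : E) (C : Rl → Prop) : Prop :=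
  G.St X O J ∧ G.Pa X O (G.fr X L) K a b fun _ => C

/-- the standard pass from `a` to `b` with live edges `L` -/
def Pas0 (X : Finset V) (O : Finset E) (a b : E) (L : Finset E) (K : Set (Finset E))
    (C : Rl → Prop) : Prop :=
  a ≠ b ∧ G.PasG X O {a, b} (insert a (insert b L)) K a b C

/-- every target of `K` contains a target of `K'` or an edge at `X` off `O` -/
def Cvr (X : Finset V) (O : Finset E) (K' K : Set (Finset E)) : Prop :=
  ∀ t ∈ K, (∃ t' ∈ K', t' ⊆ t) ∨ ∃ e ∈ t, e ∈ G.tch X ∧ e ∉ O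

/-! ### targets, rungs, boxes -/

/-- the cuts of the unbalanced sides inside `X` -/
def Kus (X : Finset V) : Set (Finset E) := {t | ∃ S ⊆ X, G.US S ∧ t = G.cut S}

/-- `X` is all of `S` or `S` without the rung at `c, d` -/
def Rg (S X : Finset V) (c d : E) : Prop :=
  X = S ∨ (X ⊆ S ∧ S \ X = {G.ie S c, G.ie S d} ∧ G.Dv S c d ∧ G.Adj G.A (G.ie S c) (G.ie S d))

/-- the targets a pass of `S` has to hit -/
def Kp (S X : Finset V) (c d : E) : Set (Finset E) :=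
  {t | t ∈ G.Kus S ∧ (X = S ∨ c ∉ t ∨ d ∉ t)}

/-- the links of the splits of `S` -/
def Lk (S : Finset V) (a b : E) : Set (Finset E) :=
  {t | ∃ X, G.Sp S a b X ∧ t = G.cut X \ {a, b}}

/-- the end edges of a rung inside `W` -/
def tg (W ρ : Finset V) : Finset E := G.cut ρ ∩ G.ins W

/-- a rung of `W` both of whose vertices have a leaving edge off `J` and an end edge -/
def Rdy (W : Finset V) (J : Finset E) (ρ : Finset V) : Prop :=
  ρ ⊆ W ∧ (∃ u v, u ≠ v ∧ ρ = {u, v} ∧ G.Adj G.A u v) ∧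
    ∀ x ∈ ρ, (∃ e ∈ G.cut W, e ∉ J ∧ G.At e x) ∧ ∃ e ∈ G.tg W ρ, G.At e x

/-- a family of disjoint ready rungs -/
def VD (W : Finset V) (J : Finset E) (Ds : Finset (Finset V)) : Prop :=
  PD Ds ∧ ∀ ρ ∈ Ds, G.Rdy W J ρ

/-- the targets of a region -/
def Tg (Fm : Set (Finset V)) (W : Finset V) (Ds : Finset (Finset V)) : Set (Finset E) :=
  {t | (∃ S ∈ Fm, S ⊆ W ∧ t = G.cut S) ∨ ∃ ρ ∈ Ds, t = G.tg W ρ}

/-- all unbalanced sides -/
def AU : Set (Finset V) := {S | G.US S}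

/-- the boxes of `W`: the maximal members of `Fm` whose cut lies inside `W` or in `J` -/
def Bx (Fm : Set (Finset V)) (W : Finset V) (J : Finset E) (Bs : Finset (Finset V)) : Prop :=
  (∀ B ∈ Bs, B ∈ Fm ∧ B ⊆ W ∧ G.cut B ⊆ G.ins W ∪ J) ∧ PD Bs ∧
    ∀ S ∈ Fm, S ⊆ W → G.cut S ⊆ G.ins W ∪ J → ∃ B ∈ Bs, S ⊆ B

/-- bookkeeping for an absorbed set `X` and the targets `K` it hits -/
def BS (W : Finset V) (Bs Ds : Finset (Finset V)) (X : Finset V) (K : Set (Finset E)) : Prop :=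
  X ⊆ W ∧
    (∀ B ∈ Bs, Disjoint B X ∨
      ∃ a b c d, G.Q4 B a b c d ∧ G.Rg B (B ∩ X) c d ∧ G.Kp B (B ∩ X) c d ⊆ K) ∧
    ∀ ρ ∈ Ds, Disjoint ρ X ∨ (ρ ⊆ X ∧ G.tg W ρ ∈ K)

/-- the output of the bookkeeping lemma -/
def Fo (Fm : Set (Finset V)) (W : Finset V) (J : Finset E) (Bs Ds : Finset (Finset V))
    (X : Finset V) (K : Set (Finset E)) (Ds' : Finset (Finset V)) : Prop :=
  G.VD (W \ X) (J \ G.tch X) Ds' ∧
    (∀ ρ ∈ Ds', (ρ ∈ Ds ∧ G.tg (W \ X) ρ = G.tg W ρ) ∨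
      ∃ B ∈ Bs, ρ = B \ X ∧ ¬ Disjoint B X) ∧
    ∀ t ∈ G.Tg Fm W Ds, (∃ t' ∈ K, t' ⊆ t) ∨
      (∃ S ∈ Fm, ∃ B ∈ Bs, S ⊆ B ∧ Disjoint B X ∧ t = G.cut S) ∨
      (∃ ρ ∈ Ds', G.tg (W \ X) ρ ⊆ t) ∨
      ∃ e ∈ t, (e ∈ G.cut W ∧ e ∉ J) ∨
        (e ∈ G.ins W ∧ e ∈ G.cut X ∧ ∀ B ∈ Bs, e ∉ G.ins B)

/-- the absorbed part `X` and the targets `K` of a pass of the node `N` from `a` to `b` -/
def NP (W : Finset V) (Bs Ds : Finset (Finset V)) (N : Finset V) (a b : E) (X : Finset V)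
    (K : Set (Finset E)) : Prop :=
  ((∀ B ∈ Bs, Disjoint B N) ∧ (∀ ρ ∈ Ds, Disjoint ρ N) ∧ X = N) ∨
    (N ∈ Ds ∧ X = N ∧ G.tg W N ∈ K) ∨
    (N ∈ Bs ∧ ∃ c d, G.Q4 N a b c d ∧ G.Rg N X c d ∧ G.Kp N X c d ⊆ K)

/-- the class of the default pass of a node -/
def Ncl (L : Finset E) (Bs Ds : Finset (Finset V)) (N : Finset V) (σ : ZMod 2) (R : Rl) : Prop :=
  (N ∈ Ds → R.Cs) ∧ (N ∈ Bs → R.P σ) ∧
    (N ∉ Ds → N ∉ Bs → R.P 0 ∧ ((∃ g ∈ L, g ∈ G.cut N) → R.U 0))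

/-! ### the statements of the killing layer -/

/-- a clean solution on `W` with parity `ε` -/
def CSp (W : Finset V) (Ds : Finset (Finset V)) (ε : ZMod 2) : Prop :=
  ∃ O, G.par O = ε ∧ G.Abs0 W O (G.cut W) (G.Tg G.AU W Ds)

/-- clean solutions exist -/
def CS (W : Finset V) : Prop := ∀ Ds, G.VD W ∅ Ds → ∃ ε, G.CSp W Ds ε

/-- passes of both signs -/
def PS (S : Finset V) : Prop :=
  ∀ a b c d, G.Q4 S a b c d → ∀ σ, ∃ X O, G.Rg S X c d ∧
    G.Pas0 X O a b ∅ (G.Kp S X c d) (Rl.P σ)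

/-- the induction hypothesis of the killing layer -/
def IHK (Y : Finset V) : Prop := ∀ W ⊂ Y, G.CS W ∧ (G.US W → G.PS W)

/-- the result of the killing layer -/
def KILL (T : Finset V) : Prop := ∀ W ⊆ T, G.CS W ∧ (G.US W → G.PS W)

/-- complete passes of both signs when the side is not a chain -/
def PSN (S : Finset V) : Prop :=
  G.US S → ∀ a b c d, G.Q4 S a b c d → G.NC S a b → ∀ σ, ∃ O,
    G.Pas0 S O a b ∅ (G.Kus S) (Rl.P σ)

/-- the pass of a balanced side -/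
def BP (S : Finset V) : Prop :=
  ∀ a b c d, G.Q4 S a b c d → G.Dv S a b → ∀ p, (∀ e ∈ G.ins S, G.sw p e = 0) → ∃ O,
    G.par (O ∩ G.ins S) = p (G.ie S a) + p (G.ie S b) ∧
    G.Pas0 S O a b ∅ ∅ (Rl.P (p (G.ie S a) + p (G.ie S b)))

/-- absorbing a piece with two live and two dead edges -/
def ABp (S : Finset V) : Prop :=
  2 < S.card → ∀ a b c d, G.Q4 S a b c d → G.NC S a b → ∃ O, G.Abs0 S O {a, b} (G.Kus S)

/-- the sweep -/
def SWp (S : Finset V) : Prop :=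
  ∀ a b c d, G.Q4 S a b c d → G.Dv S c d → ∃ X O, G.Rg S X c d ∧
    G.Abs0 X O {a, b} (G.Kp S X c d ∪ G.Lk S a b)

/-- completing a pass of a split by the sweep of the rest -/
def TLp (S : Finset V) : Prop :=
  ∀ a b c d, G.Q4 S a b c d → ∀ X1, (X1 = S ∨ G.Sp S a b X1) → ∃ X δ, G.Rg S X c d ∧
    ∀ O1 C, G.Pas0 X1 O1 a b ∅ (G.Kus X1) C → ∃ O, G.Pas0 X O a b ∅ (G.Kp S X c d) C ∧
      G.par (O ∩ G.ins X) = G.par (O1 ∩ G.ins X1) + δ

/-- two paths through a balanced split `X0` joined by a pass of the next piece -/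
def HDp (S : Finset V) : Prop :=
  (G.cut S).card = 4 → ∀ a b X0 x y, G.Sp S a b X0 → G.Q4 X0 a b x y → ∀ p, (∀ e ∈ G.ins X0, G.sw p e = 0) →
    ∀ Om K C, G.Pas0 (S \ X0) Om x y ∅ K C → ∃ O,
      G.par (O ∩ G.ins S) = p (G.ie X0 a) + p (G.ie X0 b) + (p (G.ie X0 x) + p (G.ie X0 y)) +
        (G.n x + G.n y) + G.par (Om ∩ G.ins (S \ X0)) ∧
      (∀ σ, (∀ R, C R → R.P σ) → G.Pas0 S O a b ∅ K (Rl.P (p (G.ie X0 a) + p (G.ie X0 b) +
        (p (G.ie X0 x) + p (G.ie X0 y)) + (G.n x + G.n y) + σ))) ∧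
      ((∀ R, C R → R.PX) → G.Pas0 S O a b ∅ K Rl.PX) ∧
      ∀ σ, (∀ R, C R → R.P σ) → p (G.ie X0 x) + p (G.ie X0 y) + (G.n x + G.n y) + σ = 1 →
        G.Pas0 S O a b ∅ K Rl.Gd

/-! ### the statements of the parity layer -/

/-- some odd circuit inside `W` is not isolated -/
def FH (W : Finset V) : Prop := ∃ C ⊆ G.ins W, G.Cc C ∧ G.par C = 1 ∧ ¬ G.Iso W C

open Classical in
/-- the edges on odd circuits inside `W` -/
noncomputable def oc (W : Finset V) : Finset E :=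
  (G.ins W).filter fun e => ∃ C ⊆ G.ins W, G.Cc C ∧ G.par C = 1 ∧ e ∈ C

/-- the parity of the number of odd circuits when they are isolated -/
noncomputable def nu (W : Finset V) : ZMod 2 := G.par (G.oc W)

/-- clean solutions with prescribed parity -/
def CP (W : Finset V) : Prop :=
  ∀ Ds, G.VD W ∅ Ds → ∀ ε, (G.FH W ∨ ε = G.nu W) → G.CSp W Ds ε

/-- a double pass: the edges `c, d` of `O` are frozen -/
def Dbl (S : Finset V) (O : Finset E) (a b c d : E) : Prop :=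
  G.PasG S O {a, b, c, d} {a, b} ∅ a b Rl.Xi

/-- the exceptional case: a balanced split followed by a last rung -/
def E1 (S : Finset V) (a b c d : E) : Prop :=
  ∃ X0, X0 ≠ S ∧ G.Rg S X0 c d ∧ (∀ t ∈ G.Kus S, c ∈ t ∧ d ∈ t) ∧ ∃ π,
    (∃ O, G.par (O ∩ G.ins S) = π + 1 ∧ G.Pas0 S O a b ∅ (G.Kus S) Rl.PX) ∧
    (∃ O, G.par (O ∩ G.ins X0) = π ∧ G.Pas0 X0 O a b ∅ ∅ Rl.PX) ∧
    ∃ O, G.par (O ∩ G.ins S) + G.par (G.ins (S \ X0)) = π + 1 ∧ G.Dbl S O a b c d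

/-- passes of both parities -/
def FP (S : Finset V) : Prop :=
  ∀ a b c d, G.Q4 S a b c d →
    (∃ X, G.Rg S X c d ∧ ∀ ε, ∃ O, G.par (O ∩ G.ins X) = ε ∧
      G.Pas0 X O a b ∅ (G.Kp S X c d) Rl.PX) ∨ G.E1 S a b c d

/-- complete passes of both parities when the side is not a chain -/
def FPN (S : Finset V) : Prop :=
  G.US S → ∀ a b c d, G.Q4 S a b c d → G.NC S a b → ∀ ε, ∃ O,
    G.par (O ∩ G.ins S) = ε ∧ G.Pas0 S O a b ∅ (G.Kus S) Rl.PX

/-- the double pass through a balanced split and the rung after it -/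
def DBp (S : Finset V) : Prop :=
  G.US S → ∀ a b c d X0, G.Q4 S a b c d → X0 ≠ S → G.Rg S X0 c d →
    ∀ p, (∀ e ∈ G.ins X0, G.sw p e = 0) → ∃ O,
      G.par (O ∩ G.ins S) + G.par (G.ins (S \ X0)) = p (G.ie S a) + p (G.ie S b) + 1 ∧
      G.Dbl S O a b c d

/-- the induction hypothesis of the parity layer -/
def IHP (Y : Finset V) : Prop := ∀ W ⊂ Y, G.CP W ∧ (G.US W → G.FP W)

/-- the result of the parity layer -/
def PAR (T : Finset V) : Prop := ∀ W ⊆ T, G.CP W ∧ (G.US W → G.FP W)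

/-- a run around a hole `w`: every pass of the hole completes it to a pass of class `C0` -/
def Hole (w XR : Finset V) (OR J0 L : Finset E) (KR : Set (Finset E)) (a b a0 b0 : E)
    (C0 : Rl → Prop) (δ : ZMod 2) : Prop :=
  ∀ (Xw : Finset V) (Ow Z : Finset E) (Kw : Set (Finset E)), Xw ⊆ w → (∀ e ∈ Z, e ∉ G.tch XR) →
    G.PasG Xw Ow (insert a (insert b Z)) {a, b} Kw a b Rl.PX →
    G.PasG (XR ∪ Xw) (OR ∪ Ow) (J0 ∪ Z) L (KR ∪ Kw) a0 b0 C0 ∧
      G.par ((OR ∪ Ow) ∩ G.ins (XR ∪ Xw)) = δ + G.par (Ow ∩ G.ins Xw)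

/-- good passes -/
def RP (S : Finset V) : Prop :=
  ∀ a b c d, G.Q4 S a b c d → ¬ G.Qd S a b → ∃ X O, G.Rg S X c d ∧
    G.Pas0 X O a b ∅ (G.Kp S X c d) Rl.Gd

/-- complete good passes when the side is not a chain -/
def RPN (S : Finset V) : Prop :=
  G.US S → ∀ a b c d, G.Q4 S a b c d → G.NC S a b → ¬ G.Qd S a b → ∃ O,
    G.Pas0 S O a b ∅ (G.Kus S) Rl.Gd

/-! ### ports and the process with ports -/

/-- a digon with two signs and two leaving edges -/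
def Dg (N : Finset V) : Prop :=
  ∃ u v e1 e2, u ≠ v ∧ N = {u, v} ∧ e1 ∈ G.A ∧ e2 ∈ G.A ∧ G.Je e1 u v ∧ G.Je e2 u v ∧
    G.n e1 ≠ G.n e2 ∧ (G.cut N).card = 2

/-- a vertex with a loop -/
def Lv (l : V) : Prop := ∃ e ∈ G.A, G.s e = l ∧ G.t e = l

/-- vertices of ports -/
def Pt (v : V) : Prop := G.Lv v ∨ ∃ N, G.Dg N ∧ v ∈ N

/-- port-free sets of active vertices -/
def PF (X : Finset V) : Prop := ∀ v ∈ X, v ∈ G.vs G.A ∧ ¬ G.Pt v

/-- one port -/
def Po (N : Finset V) : Prop := (∃ l, G.Lv l ∧ N = {l}) ∨ G.Dg N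

/-- the leaving edges of a family -/
def ends (H : Finset (Finset V)) : Finset E := H.biUnion G.cut

/-- families of dangerous sides -/
def FF (Fm : Set (Finset V)) (T : Finset V) : Prop :=
  (∀ S ∈ Fm, S ⊆ T ∧ G.US S ∧ G.cut S ⊆ G.ins T) ∧
    ∀ S ∈ Fm, ∀ S' ∈ Fm, ¬ Disjoint S S' → S ∪ S' ∈ Fm

/-- joins of the ends `J` inside `W` -/
def Tj (W : Finset V) (J F : Finset E) : Prop := F ⊆ G.ins W ∧ ∀ v ∈ W, G.dg (F ∪ J) v = 0

/-- joins modulo the boxes that use every box at most once -/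
def Tq (W : Finset V) (J : Finset E) (Bs : Finset (Finset V)) (F : Finset E) : Prop :=
  F ⊆ G.ins W ∧ (∀ v ∈ W, (∀ B ∈ Bs, v ∉ B) → G.dg (F ∪ J) v = 0) ∧
    ∀ B ∈ Bs, (F ∩ G.cut B).card = 0 ∨ (F ∩ G.cut B).card = 2

/-- no dangerous side has its whole cut in `F` -/
def As (Fm : Set (Finset V)) (W : Finset V) (F : Finset E) : Prop :=
  ∀ S ∈ Fm, S ⊆ W → ¬ G.cut S ⊆ F

/-- no nonempty even subset -/
def Acy (F : Finset E) : Prop := ∀ C ⊆ F, G.Ev C → C = ∅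

/-- the vertices of `W` on the join -/
def uf (W : Finset V) (J F : Finset E) : Finset V := W ∩ G.vs (F ∪ J)

open Classical in
/-- the component of `y` inside `Y` -/
noncomputable def cmp (Y : Finset V) (y : V) : Finset V := Y.filter fun v => G.Rch (G.ins Y) y v

/-- states of the process with hard digons `Hh`, soft digons `Hs` and rungs `Ds` -/
structure SPS (T W : Finset V) (Hh Hs Ds : Finset (Finset V)) : Prop where
  sub : W ⊆ T
  dg : ∀ N ∈ Hh ∪ Hs, G.Dg N ∧ Disjoint N T ∧ G.cut N ⊆ G.cut W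
  pd : PD (Hh ∪ Hs)
  dj : Disjoint Hh Hs
  vd : G.VD W (G.ends (Hh ∪ Hs)) Ds
  inv : ∀ U ⊆ W ∪ Hh.biUnion id, U.Nonempty → (G.cut U).Nonempty

/-- the residue conditions at the digons -/
def Dc (Hh Hs : Finset (Finset V)) (φ : E → ZMod 3) : Prop :=
  (∀ N ∈ Hh ∪ Hs, ∃ e ∈ G.cut N, φ e ≠ 0) ∧ ∀ N ∈ Hh, ∃ e ∈ G.cut N, φ e = 0

/-- the conclusion of the process -/
def SPc (Fm : Set (Finset V)) (W : Finset V) (Hh Hs Ds : Finset (Finset V)) : Prop :=
  ∃ O φ, G.St W O (G.ends (Hh ∪ Hs)) ∧ G.Sl W O (G.Tg Fm W Ds) φ ∧ G.Dc Hh Hs φ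

/-- the induction hypothesis of the process -/
def SPI (Fm : Set (Finset V)) (T W : Finset V) : Prop :=
  ∀ W' ⊂ W, ∀ Hh Hs Ds F, G.SPS T W' Hh Hs Ds → G.Tj W' (G.ends (Hh ∪ Hs)) F → G.As Fm W' F →
    G.SPc Fm W' Hh Hs Ds

/-- a circuit of the join through nodes -/
def Fc (W : Finset V) (H Bs Ds : Finset (Finset V)) (F : Finset E) (n : ℕ) (N : ℕ → Finset V)
    (e : ℕ → E) : Prop :=
  G.Trk (W ∪ H.biUnion id) n N e ∧ 1 ≤ n ∧ e (n + 1) = e 0 ∧
    (∀ i ≤ n, e i ∈ F ∪ G.ends H) ∧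
    (∀ i ≤ n, ∀ f ∈ F ∪ G.ends H, f ∈ G.cut (N i) → f = e i ∨ f = e (i + 1)) ∧
    ∀ i ≤ n, ∃ v ∈ W ∪ H.biUnion id, N i = nd (Bs ∪ Ds ∪ H) v

/-- the reasons for which a circuit of the join closes -/
def Why (W : Finset V) (Hh Hs Bs Ds : Finset (Finset V)) (n : ℕ) (N : ℕ → Finset V)
    (e : ℕ → E) : Prop :=
  (∃ i ≤ n, N i ∈ Ds) ∨ (∃ i ≤ n, N i ∈ Hs) ∨
    ((∀ i ≤ n, N i ∉ Hh) ∧ ∃ i ≤ n, N i ∈ Bs) ∨
    ((∃ i ≤ n, N i ∈ Hh) ∧ (Even ((range (n + 1)).filter fun i => N i ∈ Hh).card ∨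
      (∃ i ≤ n, ∃ g ∈ G.cut W, g ∉ G.ends (Hh ∪ Hs) ∧ g ∈ G.cut (N i)) ∨
      (∃ i ≤ n, N i ∈ Bs ∧ ¬ G.Qd (N i) (e i) (e (i + 1))) ∨
      ∃ Y ⊆ W, Disjoint Y (N 0) ∧ ∃ g g', g ∈ G.crs (G.ins W) Y ∧ G.crs (G.ins W) Y ⊆ {g, g'} ∧
        ((∃ v, N 0 = {v} ∧ g' = g ∧ G.Q3 {v} (e 0) (e 1) g) ∨
          (N 0 ∈ Bs ∧ G.Qd (N 0) (e 0) (e 1) ∧ G.Q4 (N 0) (e 0) (e 1) g g'))))

/-! ### integer flows -/

/-- the two admissible integer values of an edge -/
def Av (O : Finset E) (φ : E → ZMod 3) (e : E) (x : ℤ) : Prop :=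
  |x| ≤ 5 ∧ (Odd x ↔ e ∈ O) ∧ (x : ZMod 3) = φ e

/-- boundary values of `K` of the wrong parity -/
def Df (O : Finset E) (φ : E → ZMod 3) (K : Finset V) (g : E → ℤ) : Prop :=
  (∀ e ∈ G.cut K, Av O φ e (g e)) ∧
    ¬ (4 : ℤ) ∣ ∑ e ∈ G.cut K, G.out K g e + 2 * ((G.par (O ∩ G.ins K)).val : ℤ)

/-- nowhere-zero six-flows -/
def Fl6 (f : E → ℤ) : Prop := (∀ v, G.bd f v = 0) ∧ ∀ e ∈ G.A, f e ≠ 0 ∧ |f e| ≤ 5

/-- bridges -/
def Brg (e : E) : Prop := ∃ X, G.cut X = {e}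

/-- six-flows with a prescribed absolute value on one bridge -/
def Six : Prop := ∀ e0 : E, ∀ c : ℤ, (c = 2 ∨ c = 4) → ∃ f, G.Fl6 f ∧ (G.Brg e0 → |f e0| = c)

/-- the combinatorial form of admissibility -/
def Adm2 : Prop :=
  G.Adm1 ∧ ∀ X, G.cut X = ∅ → ¬ G.Bal (G.ins X) → ∀ z, ¬ G.Bal ((G.ins X).erase z)

/-- nonzero values of size at most five on the cut -/
def Bv (X : Finset V) (h : E → ℤ) : Prop := ∀ e ∈ G.cut X, h e ≠ 0 ∧ |h e| ≤ 5

/-- the boundary values `h` extend into `X` -/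
def Ext (X : Finset V) (h : E → ℤ) : Prop :=
  ∃ f : E → ℤ, (∀ e ∈ G.cut X, f e = h e) ∧ (∀ v ∈ X, G.bd f v = 0) ∧
    ∀ e ∈ G.ins X, f e ≠ 0 ∧ |f e| ≤ 5

/-- a flow outside `X` -/
def Out (X : Finset V) (h : E → ℤ) : Prop :=
  (∀ v ∉ X, G.bd h v = 0) ∧ ∀ e ∈ G.A, e ∉ G.ins X → h e ≠ 0 ∧ |h e| ≤ 5

/-- the twisted sum of the boundary values -/
def tw {R : Type} [Ring R] (q : V → ZMod 2) (X : Finset V) (h : E → R) : R :=
  ∑ e ∈ G.cut X, G.kap q X e * h e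

/-- the twist `q` is admissible for `T` -/
def AdT (T : Finset V) (q : V → ZMod 2) : Prop :=
  ∀ z, ¬ ∃ p : V → ZMod 2, (∀ e ∈ G.ins T, e ≠ z → G.sw p e = 0) ∧
    ∀ e ∈ G.cut T, e ≠ z → p (G.ie T e) = q (G.ie T e)

/-- the two twists agree up to a constant at the terminals -/
def Eqv (T : Finset V) (q q' : V → ZMod 2) : Prop :=
  ∃ c, ∀ e ∈ G.cut T, q (G.ie T e) = q' (G.ie T e) + c

/-- three-sides -/
def T3 (T : Finset V) : Prop := G.HT T ∧ (G.cut T).card = 3 ∧ ¬ G.Bal (G.ins T)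

/-- the rooted residue statement for the pattern with two odd values -/
def Root : Prop :=
  G.Cub → ∀ (r : V) (T : Finset V) (e1 e2 e3 : E), r ∉ T → G.vs G.A = insert r T → G.T3 T →
    G.Q3 T e1 e2 e3 → (∀ z, ¬ G.Bal (G.A.erase z)) → ∀ η : E → ZMod 3, G.bd η r = 0 → η e3 ≠ 0 →
    ∃ O ⊆ G.A, G.Ev O ∧ G.par O = 0 ∧ e1 ∈ O ∧ e2 ∈ O ∧ ∃ φ : E → ZMod 3, (∀ v, G.bd φ v = 0) ∧
      (∀ e ∈ G.A, e ∉ O → φ e ≠ 0) ∧ φ e1 = η e1 ∧ φ e2 = η e2 ∧ φ e3 = η e3 ∧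
      ∀ S ⊆ T, G.US S → (∃ e ∈ G.cut S, e ∉ O ∨ φ e = 0) ∨ G.Bal (G.ins (G.vs G.A \ S))

/-- extension into a three-side, two odd values, every admissible twist -/
def X3O : Prop :=
  ∀ T q h, G.T3 T → G.AdT T q → G.Bv T h → G.tw q T h = 0 → (∃ e ∈ G.cut T, Odd (h e)) →
    G.Ext T h

/-- extension into a three-side for one admissible twist -/
def X3N : Prop :=
  ∀ T, G.T3 T → ∃ q, G.AdT T q ∧ ∀ h, G.Bv T h → G.tw q T h = 0 → G.Ext T h

/-- extension into an unbalanced two-side -/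
def SRD : Prop :=
  ∀ X a b h, G.cut X = {a, b} → a ≠ b → (∀ Y ⊂ X, Y.Nonempty → 3 ≤ (G.cut Y).card) →
    ¬ G.Bal (G.ins X) → G.Bv X h → Even (h a + h b) → |h a| ≠ |h b| → G.Ext X h

/-- connected graphs -/
def Con : Prop := G.Cn (G.vs G.A) G.A

/-- the induction hypothesis of the main induction -/
def IHM : Prop := ∀ G' : SG V E, G'.Cub → G'.Adm2 → G'.A.card < G.A.card → G'.Six

/-- every bridge ends in a single vertex -/
def N1 : Prop := ∀ X e, G.cut X = {e} → (X ∩ G.vs G.A).card = 1 ∨ (G.vs G.A \ X).card = 1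

/-- no balanced two-side -/
def N2 : Prop := ∀ X, (G.cut X).card = 2 → ¬ G.Bal (G.ins X)

/-- no balanced nontrivial three-side -/
def N3 : Prop := ∀ X, (G.cut X).card = 3 → 2 ≤ (X ∩ G.vs G.A).card → ¬ G.Bal (G.ins X)

/-- no port-free two-side -/
def N4 : Prop := ∀ X, G.PF X → (G.cut X).card ≠ 2

/-- no two ports are adjacent -/
def N5 : Prop := ∀ N N', G.Po N → G.Po N' → N ≠ N' → Disjoint (G.cut N) (G.cut N')

/-- no port-free nontrivial three-side -/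
def N6 : Prop := ∀ X, G.PF X → (G.cut X).card = 3 → X.card = 1

/-- there are two ports -/
def TwoP : Prop := ∃ N N', G.Po N ∧ G.Po N' ∧ Disjoint N N'

end SG

end Pool.Agent.Work.MP_8c679b_co
end

-- merged part: Pool.Agent.Work.MP_8c679b_co.Six.Ab
section
/-!
Basic calculus of `Ab` and `Pa`: change of `O`, of the free set, of the targets, sequencing,
negation, composition along a link.  No cubicity is needed.
-/

set_option autoImplicit false

namespace Pool.Agent.Work.MP_8c679b_co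

open Finset

namespace SG

variable {V E : Type} [Fintype V] [DecidableEq V] [DecidableEq E] {G : SG V E}
  {X X1 X2 W Y : Finset V} {O O' Fr Fr' Fr1 Fr2 J L : Finset E} {K K' K1 K2 : Set (Finset E)}
  {a b e m : E} {φ ψ : E → ZMod 3} {I I' : (E → ZMod 3) → Prop}
  {C C' C1 C2 : (E → ZMod 3) → Rl → Prop}

theorem ins_sub_tch : G.ins X ⊆ G.tch X := by
  exact fun e he => mem_tch.2 ⟨(mem_ins.1 he).1, Or.inl (mem_ins.1 he).2.1⟩

theorem cut_sub_tch : G.cut X ⊆ G.tch X := by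
  intro e he
  rw [mem_cut] at he
  rw [mem_tch]
  tauto

theorem mem_tch_iff : e ∈ G.tch X ↔ e ∈ G.ins X ∨ e ∈ G.cut X := by
  simp only [mem_tch, mem_ins, mem_cut]
  tauto

theorem not_ins_of_cut (h : e ∈ G.cut X) : e ∉ G.ins X := by
  simp only [mem_ins, mem_cut] at *
  tauto

theorem tch_mono (h : X ⊆ Y) : G.tch X ⊆ G.tch Y := by
  intro e he
  rw [mem_tch] at *
  exact ⟨he.1, he.2.imp (@h _) (@h _)⟩

theorem tch_union : G.tch (X ∪ Y) = G.tch X ∪ G.tch Y := by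
  ext e
  simp only [mem_tch, mem_union]
  tauto

theorem fr_sub_tch : G.fr X L ⊆ G.tch X := by
  exact union_subset ins_sub_tch (inter_subset_left.trans cut_sub_tch)

theorem fr_cut : G.fr X (G.cut X) = G.tch X := by
  ext e
  simp only [fr, mem_union, inter_self, mem_tch_iff]

theorem ie_mem (h : e ∈ G.tch X) : G.ie X e ∈ X := by
  unfold ie
  split_ifs with k
  exacts [k, (mem_tch.1 h).2.resolve_left k]

theorem ie_at : G.At e (G.ie X e) := by
  unfold ie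
  split_ifs
  exacts [Or.inl rfl, Or.inr rfl]

theorem oe_at : G.At e (G.oe X e) := by
  unfold oe
  split_ifs
  exacts [Or.inr rfl, Or.inl rfl]

theorem oe_not_mem (h : e ∈ G.cut X) : G.oe X e ∉ X := by
  have k1 := (mem_cut.1 h).2
  unfold oe
  split_ifs with k
  · tauto
  · exact k

theorem je_ie_oe : G.Je e (G.ie X e) (G.oe X e) := by
  unfold ie oe
  split_ifs
  exacts [Or.inl ⟨rfl, rfl⟩, Or.inr ⟨rfl, rfl⟩]

theorem eq_ie {v : V} (h : e ∈ G.cut X) (hv : v ∈ X) (ha : G.At e v) : v = G.ie X e := by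
  have k1 := (mem_cut.1 h).2
  unfold ie
  rcases ha with rfl | rfl
  · rw [if_pos hv]
  · rw [if_neg (by tauto)]

theorem eq_oe {v : V} (h : e ∈ G.cut X) (hv : v ∉ X) (ha : G.At e v) : v = G.oe X e := by
  have k1 := (mem_cut.1 h).2
  unfold oe
  rcases ha with rfl | rfl
  · rw [if_neg hv]
  · rw [if_pos (by tauto)]

/-- a leaving edge of `Y` that touches a subset `X` leaves `X` with the same inner end -/
theorem cut_of_sub (hX : X ⊆ Y) (h : e ∈ G.cut Y) (h' : e ∈ G.tch X) :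
    e ∈ G.cut X ∧ G.ie X e = G.ie Y e := by
  refine ⟨?_, eq_ie h (hX (ie_mem h')) ie_at⟩
  have k1 := @hX (G.s e)
  have k2 := @hX (G.t e)
  rw [mem_cut] at *
  rw [mem_tch] at h'
  tauto

theorem ie_link (hd : Disjoint X1 X2) (h1 : m ∈ G.cut X1) (h2 : m ∈ G.cut X2) :
    G.ie X2 m = G.oe X1 m ∧ m ∈ G.ins (X1 ∪ X2) := by
  refine ⟨eq_oe h1 (disjoint_right.1 hd (ie_mem (cut_sub_tch h2))) ie_at, ?_⟩
  have k1 := @disjoint_left.1 hd (G.s m)
  have k2 := @disjoint_left.1 hd (G.t m)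
  rw [mem_cut] at h1 h2
  rw [mem_ins, mem_union, mem_union]
  (clear * - h1 h2 k1 k2; grind)

theorem Ab_kap {R : Type} [Ring R] (p : V → ZMod 2) (h1 : G.s e ∈ X ↔ G.s e ∈ Y)
    (h2 : G.t e ∈ X ↔ G.t e ∈ Y) : (G.kap p X e : R) = G.kap p Y e := by
  unfold kap
  rw [red_iv h1, red_iv h2]

theorem out_sub {R : Type} [CommRing R] (f : E → R) (hX : X ⊆ Y) (h : e ∈ G.cut Y)
    (h' : e ∈ G.tch X) : G.out X f e = G.out Y f e := by
  have k1 := @hX (G.s e)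
  have k2 := @hX (G.t e)
  rw [mem_cut] at h
  rw [mem_tch] at h'
  unfold out
  rw [Ab_kap _ (X := X) (Y := Y) (by tauto) (by tauto)]

theorem out_union {R : Type} [CommRing R] (f : E → R) (hA : e ∈ G.A) (h : e ∉ G.tch X1) :
    G.out (X1 ∪ X2) f e = G.out X2 f e := by
  rw [mem_tch] at h
  unfold out
  rw [Ab_kap _ (X := X1 ∪ X2) (Y := X2) (by rw [mem_union]; tauto) (by rw [mem_union]; tauto)]

theorem out_link {R : Type} [CommRing R] (f : E → R) (hd : Disjoint X1 X2) (h1 : m ∈ G.cut X1)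
    (h2 : m ∈ G.cut X2) : G.out X2 f m = -(chi (G.n m)) * G.out X1 f m := by
  have k1 := @disjoint_left.1 hd (G.s m)
  have k2 := @disjoint_left.1 hd (G.t m)
  rw [mem_cut] at h1 h2
  unfold out kap
  by_cases k : G.s m ∈ X1
  · have k3 : G.t m ∉ X1 := by tauto
    have k4 : G.t m ∈ X2 := by tauto
    simp [iv, k, k1 k, k3, k4]
  · have k3 : G.t m ∈ X1 := by (clear * - h1 h2 k k1 k2; grind)
    have k4 : G.s m ∈ X2 := by tauto
    simp only [iv, k, k2 k3, k3, k4, if_true, if_false, chi_zero]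
    linear_combination (-f m) * chi_mul_self (R := R) (G.n m)

/-- on a leaving edge the coefficient is a sign -/
theorem kap_sign {R : Type} [CommRing R] (p : V → ZMod 2) (h : e ∈ G.cut X) :
    (G.kap p X e : R) = chi (p (G.ie X e)) * G.kap (fun _ => 0) X e ∧
      (G.kap (fun _ => 0) X e : R) * G.kap (fun _ => 0) X e = 1 := by
  rw [mem_cut] at h
  unfold kap ie
  by_cases k : G.s e ∈ X
  · have k3 : G.t e ∉ X := by tauto
    simp [iv, k, k3]
  · have k3 : G.t e ∈ X := by tauto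
    simp [iv, k, k3, chi_mul_self]

theorem out_ne (h : e ∈ G.cut X) : G.out X φ e ≠ 0 ↔ φ e ≠ 0 := by
  unfold out
  rw [mul_ne_zero_iff, and_iff_right (red_kap_ne h)]

theorem out_inj {R : Type} [CommRing R] {f g : E → R} (h : e ∈ G.cut X)
    (hf : G.out X f e = G.out X g e) : f e = g e := by
  have k := (kap_sign (R := R) (fun _ => 0) h).2
  unfold out at hf
  linear_combination (G.kap (fun _ => 0) X e : R) * hf - (f e - g e) * k

/-- the boundary at a vertex without loop is the sum of the outflows -/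
theorem bd_single {R : Type} [CommRing R] (f : E → R) {v : V} (h : G.ins {v} = ∅) :
    G.bd f v = ∑ e ∈ G.cut {v}, G.out {v} f e := by
  have k := sum_bd (G := G) (fun _ => 0) {v} f
  rw [sum_singleton, chi_zero, one_mul, red_sum_cut (by simp [h])] at k
  exact k

theorem Hit.mono {t t' : Finset E} (h : G.Hit X O φ t) (hX : X ⊆ Y) (ht : t ⊆ t') :
    G.Hit Y O φ t' := by
  obtain ⟨e, h1, h2, h3⟩ := h
  exact ⟨e, ht h1, tch_mono hX h2, h3⟩

theorem Sl.congr (h : G.Sl X O K φ) (hφ : ∀ e ∈ G.tch X, ψ e = φ e)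
    (hO : ∀ e ∈ G.tch X, e ∈ O' ↔ e ∈ O) : G.Sl X O' K ψ := by
  refine ⟨fun v hv => ?_, fun e he h1 => ?_, fun t ht => ?_⟩
  · rw [← h.1 v hv]
    exact bd_congr fun e he ha => hφ e (sol1_at_tch he hv ha)
  · rw [hφ e he]
    exact h.2.1 e he fun k => h1 ((hO e he).2 k)
  · obtain ⟨e, h1, h2, h3⟩ := h.2.2 t ht
    exact ⟨e, h1, h2, by rwa [hφ e h2, hO e h2]⟩

theorem Sl.cov (h : G.Sl X O K' φ) (hK : G.Cvr X O K' K) : G.Sl X O K φ := by
  refine ⟨h.1, h.2.1, fun t ht => ?_⟩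
  rcases hK t ht with ⟨t', h1, h2⟩ | ⟨e, h1, h2, h3⟩
  exacts [(h.2.2 t' h1).mono Subset.rfl h2, ⟨e, h1, h2, Or.inl h3⟩]

theorem Sl.union (h1 : G.Sl X1 O K1 φ) (h2 : G.Sl X2 O K2 φ) : G.Sl (X1 ∪ X2) O (K1 ∪ K2) φ := by
  refine ⟨fun v hv => (mem_union.1 hv).elim (h1.1 v) (h2.1 v), fun e he => ?_, fun t ht => ?_⟩
  · rw [tch_union] at he
    exact (mem_union.1 he).elim (h1.2.1 e) (h2.2.1 e)
  · exact ht.elim (fun k => (h1.2.2 t k).mono subset_union_left Subset.rfl)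
      fun k => (h2.2.2 t k).mono subset_union_right Subset.rfl

theorem Ab_bd_neg {v : V} : G.bd (fun e => -φ e) v = -G.bd φ v := by
  simpa using bd_mul (G := G) (v := v) (-1) φ

theorem Sl.neg (h : G.Sl X O K φ) : G.Sl X O K fun e => -φ e := by
  refine ⟨fun v hv => by rw [Ab_bd_neg, h.1 v hv, neg_zero],
    fun e he h1 => neg_ne_zero.2 (h.2.1 e he h1), fun t ht => ?_⟩
  obtain ⟨e, h1, h2, h3⟩ := h.2.2 t ht
  exact ⟨e, h1, h2, h3.imp_right neg_eq_zero.2⟩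

/-- negation on the edges at `Y` when no edge at `Y` reaches the rest of `W` -/
theorem Sl.negOn (h : G.Sl W O K φ) (hY : ∀ e ∈ G.tch Y, ∀ v ∈ W, G.At e v → v ∈ Y) :
    G.Sl W O K fun e => if e ∈ G.tch Y then -φ e else φ e := by
  have k : ∀ e, (if e ∈ G.tch Y then -φ e else φ e) = 0 ↔ φ e = 0 := fun e => by
    split_ifs
    exacts [neg_eq_zero, Iff.rfl]
  refine ⟨fun v hv => ?_, fun e he h1 h2 => h.2.1 e he h1 ((k e).1 h2), fun t ht => ?_⟩
  · by_cases k1 : v ∈ Y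
    · rw [← h.neg.1 v hv]
      exact bd_congr fun e he ha => if_pos (sol1_at_tch he k1 ha)
    · rw [← h.1 v hv]
      exact bd_congr fun e _ ha => if_neg fun k2 => k1 (hY e k2 v hv ha)
  · obtain ⟨e, h1, h2, h3⟩ := h.2.2 t ht
    exact ⟨e, h1, h2, h3.imp_right (k e).2⟩

theorem Ab.congrO (h : G.Ab X O Fr K I) (hO : ∀ e ∈ G.tch X, e ∈ O' ↔ e ∈ O) :
    G.Ab X O' Fr K I := by
  refine ⟨h.1, fun ψ h1 h2 => ?_⟩
  obtain ⟨φ, h3, h4⟩ := h.2 ψ (fun e he k1 k2 => h1 e he k1 fun k => k2 ((hO e he).1 k)) h2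
  exact ⟨φ, h3, h4.congr (fun _ _ => rfl) hO⟩

theorem Pa.congrO (h : G.Pa X O Fr K a b C) (hO : ∀ e ∈ G.tch X, e ∈ O' ↔ e ∈ O) :
    G.Pa X O' Fr K a b C := by
  refine ⟨h.1, fun ψ h1 => ?_⟩
  obtain ⟨R, h2, h3⟩ := h.2 ψ fun e he k1 k2 => h1 e he k1 fun k => k2 ((hO e he).1 k)
  refine ⟨R, h2, fun x y hxy => ?_⟩
  obtain ⟨φ, h4, h5⟩ := h3 x y hxy
  exact ⟨φ, ⟨h4.1, h4.2.congr (fun _ _ => rfl) hO⟩, h5⟩

theorem Ab.cov (h : G.Ab X O Fr K' I) (hK : G.Cvr X O K' K) : G.Ab X O Fr K I := by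
  refine ⟨h.1, fun ψ h1 h2 => ?_⟩
  obtain ⟨φ, h3, h4⟩ := h.2 ψ h1 h2
  exact ⟨φ, h3, h4.cov hK⟩

theorem Pa.cov (h : G.Pa X O Fr K' a b C) (hK : G.Cvr X O K' K) : G.Pa X O Fr K a b C := by
  refine ⟨h.1, fun ψ h1 => ?_⟩
  obtain ⟨R, h2, h3⟩ := h.2 ψ h1
  refine ⟨R, h2, fun x y hxy => ?_⟩
  obtain ⟨φ, h4, h5⟩ := h3 x y hxy
  exact ⟨φ, ⟨h4.1, h4.2.cov hK⟩, h5⟩

theorem Ab.imp (h : G.Ab X O Fr K I) (hI : ∀ ψ, G.Pre X O Fr ψ → I' ψ → I ψ) :
    G.Ab X O Fr K I' := by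
  exact ⟨h.1, fun ψ h1 h2 => h.2 ψ h1 (hI ψ h1 h2)⟩

theorem Pa.imp (h : G.Pa X O Fr K a b C)
    (hC : ∀ ψ R, G.Pre X O Fr ψ → C ψ R → ∃ R', C' ψ R' ∧ ∀ x y, R' x y → R x y) :
    G.Pa X O Fr K a b C' := by
  refine ⟨h.1, fun ψ h1 => ?_⟩
  obtain ⟨R, h2, h3⟩ := h.2 ψ h1
  obtain ⟨R', h4, h5⟩ := hC ψ R h1 h2
  exact ⟨R', h4, fun x y hxy => h3 x y (h5 x y hxy)⟩

theorem Pa.symm (h : G.Pa X O Fr K a b C) :
    G.Pa X O Fr K b a fun ψ R => C ψ fun x y => R y x := by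
  refine ⟨h.1, fun ψ h1 => ?_⟩
  obtain ⟨R, h2, h3⟩ := h.2 ψ h1
  refine ⟨fun x y => R y x, h2, fun x y hxy => ?_⟩
  obtain ⟨φ, h4, h5, h6⟩ := h3 y x hxy
  exact ⟨φ, h4, h6, h5⟩

theorem Ab_over (h : G.Pre X O Fr' ψ) {χ : E → ZMod 3} (hχ : ∀ e, χ e ≠ 0) :
    G.Pre X O Fr fun e => if e ∈ Fr' then χ e else ψ e := by
  intro e he _ h2
  dsimp only
  split_ifs with k
  exacts [hχ e, h e he k h2]

theorem Ab_re {χ : E → ZMod 3} (h : G.Re X O Fr K (fun e => if e ∈ Fr' then χ e else ψ e) φ)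
    (h1 : Fr ⊆ Fr') : G.Re X O Fr' K ψ φ :=
  ⟨fun e he => (h.1 e fun k => he (h1 k)).trans (if_neg he), h.2⟩

/-- more free edges.  HINT: overwrite the given values by `1` on `Fr' \ O`. -/
theorem Ab.mono (h : G.Ab X O Fr K fun _ => True) (h1 : Fr ⊆ Fr') (h2 : Fr' ⊆ G.tch X) :
    G.Ab X O Fr' K fun _ => True := by
  refine ⟨h2, fun ψ h3 _ => ?_⟩
  obtain ⟨φ, h4⟩ := h.2 _ (Ab_over h3 (χ := fun _ => 1) fun _ => one_ne_zero) trivial
  exact ⟨φ, Ab_re h4 h1⟩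

theorem Pa.mono {C0 : Rl → Prop} (h : G.Pa X O Fr K a b fun _ => C0) (h1 : Fr ⊆ Fr')
    (h2 : Fr' ⊆ G.tch X) : G.Pa X O Fr' K a b fun _ => C0 := by
  refine ⟨h2, fun ψ h3 => ?_⟩
  obtain ⟨R, h4, h5⟩ := h.2 _ (Ab_over h3 (χ := fun _ => 1) fun _ => one_ne_zero)
  refine ⟨R, h4, fun x y hxy => ?_⟩
  obtain ⟨φ, h6, h7⟩ := h5 x y hxy
  exact ⟨φ, Ab_re h6 h1, h7⟩

theorem Ab_z3 : ∀ c c' z : ZMod 3, c ≠ c' → z ≠ -(c + c') → z = c ∨ z = c' := by decide

/-- A constant that is sensitive to the value of a frozen edge `g` gives class `U` once `g` is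
free.  HINT: overwrite by `1` on `Fr' \ O`, and by `-1` at `g`; take the realised relation
itself and `Rl.U` from two permutations (prove the small lemma locally, or import Z3). -/
theorem Pa.free {σ : ZMod 2} {c : (E → ZMod 3) → ZMod 3} {g : E}
    (h : G.Pa X O Fr K a b fun ψ R => R.PC σ (c ψ)) (h1 : Fr ⊆ Fr') (h2 : Fr' ⊆ G.tch X)
    (hg : g ∈ Fr') (hg' : g ∉ Fr) (hO : g ∉ O)
    (hs : ∀ ψ ψ' : E → ZMod 3, (∀ e, e ≠ g → ψ' e = ψ e) → ψ g ≠ 0 → ψ' g = -ψ g → c ψ ≠ c ψ') :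
    G.Pa X O Fr' K a b fun _ R => R.U σ := by
  refine ⟨h2, fun ψ h3 => ⟨fun x y => ∃ φ, G.Re X O Fr' K ψ φ ∧ G.out X φ a = x ∧
    G.out X φ b = y, ?_, fun _ _ => id⟩⟩
  have key : ∀ χ : E → ZMod 3, (∀ e, χ e ≠ 0) → ∀ x y,
      x + chi σ * y = c (fun e => if e ∈ Fr' then χ e else ψ e) →
      ∃ φ, G.Re X O Fr' K ψ φ ∧ G.out X φ a = x ∧ G.out X φ b = y := by
    intro χ hχ x y hxy
    obtain ⟨R, h4, h5⟩ := h.2 _ (Ab_over h3 hχ)
    obtain ⟨φ, h6, h7⟩ := h5 x y (h4 x y hxy)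
    exact ⟨φ, Ab_re h6 h1, h7⟩
  have hc := hs (fun e => if e ∈ Fr' then 1 else ψ e)
    (fun e => if e ∈ Fr' then (if e = g then -1 else 1) else ψ e)
    (fun e he => by simp only [if_neg he]) (by simp only [if_pos hg]; exact one_ne_zero)
    (by simp only [if_pos hg, if_true])
  refine ⟨_, fun x y hxy => (Ab_z3 _ _ _ hc hxy).elim (key (fun _ => 1) (fun _ => one_ne_zero) x y)
    (key (fun e => if e = g then -1 else 1) (fun e => ?_) x y)⟩
  split_ifs <;> decide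

/-- The constant can be chosen to depend only on the values at `X`.
HINT: apply `h` to the function that agrees with `ψ` on `tch X` and vanishes elsewhere. -/
theorem Pa.local {σ : ZMod 2} (h : G.Pa X O Fr K a b fun _ R => R.P σ) (ha : a ∈ G.tch X)
    (hb : b ∈ G.tch X) :
    ∃ c : (E → ZMod 3) → ZMod 3, (G.Pa X O Fr K a b fun ψ R => R.PC σ (c ψ)) ∧
      ∀ ψ ψ' : E → ZMod 3, (∀ e ∈ G.tch X, ψ' e = ψ e) → c ψ' = c ψ := by
  have key : ∀ ψ : E → ZMod 3, ∃ c, G.Pre X O Fr ψ → ∀ x y, x + chi σ * y = c →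
      ∃ φ, G.Re X O Fr K ψ φ ∧ G.out X φ a = x ∧ G.out X φ b = y := by
    intro ψ
    by_cases k : G.Pre X O Fr ψ
    · obtain ⟨R, ⟨c, h1⟩, h2⟩ := h.2 ψ k
      exact ⟨c, fun _ x y hxy => h2 x y (h1 x y hxy)⟩
    · exact ⟨0, fun k1 => absurd k1 k⟩
  choose c hc using key
  refine ⟨fun ψ => c fun e => if e ∈ G.tch X then ψ e else 0, ⟨h.1, fun ψ h1 =>
    ⟨fun x y => x + chi σ * y = c fun e => if e ∈ G.tch X then ψ e else 0, fun _ _ => id,
      fun x y hxy => ?_⟩⟩, fun ψ ψ' hψ => ?_⟩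
  · obtain ⟨φ, h2, h3, h4⟩ := hc _ (fun e he k1 k2 => by
      simp only [if_pos he]
      exact h1 e he k1 k2) x y hxy
    refine ⟨fun e => if e ∈ G.tch X then φ e else ψ e, ⟨fun e he => ?_,
      h2.2.congr (fun e he => if_pos he) fun _ _ => Iff.rfl⟩, ?_, ?_⟩
    · dsimp only
      split_ifs with k
      exacts [(h2.1 e he).trans (if_pos k), rfl]
    · rw [← h3]
      simp only [out, if_pos ha]
    · rw [← h4]
      simp only [out, if_pos hb]
  · dsimp only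
    congr 1
    funext e
    split_ifs with k
    exacts [hψ e k, rfl]

theorem ab_iff_pa : (G.Ab X O Fr K fun _ => True) ↔ G.Pa X O Fr K a b fun _ => Rl.Nv := by
  constructor
  · refine fun h => ⟨h.1, fun ψ h1 => ⟨fun x y => ∃ φ, G.Re X O Fr K ψ φ ∧ G.out X φ a = x ∧
      G.out X φ b = y, ?_, fun _ _ => id⟩⟩
    obtain ⟨φ, h2⟩ := h.2 ψ h1 trivial
    exact ⟨_, _, φ, h2, rfl, rfl⟩
  · refine fun h => ⟨h.1, fun ψ h1 _ => ?_⟩
    obtain ⟨R, ⟨x, y, h2⟩, h3⟩ := h.2 ψ h1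
    obtain ⟨φ, h4, -⟩ := h3 x y h2
    exact ⟨φ, h4⟩

/-- a total pass can put a zero on its entry edge -/
theorem Pa.toAb (h : G.Pa X O Fr K a b fun _ => Rl.Tt) (ha : a ∈ G.cut X) :
    G.Ab X O Fr (K ∪ {{a}}) fun _ => True := by
  refine ⟨h.1, fun ψ h1 _ => ?_⟩
  obtain ⟨R, h2, h3⟩ := h.2 ψ h1
  obtain ⟨y, h4⟩ := h2.1 0
  obtain ⟨φ, h5, h6, -⟩ := h3 0 y h4
  refine ⟨φ, h5.1, h5.2.1, h5.2.2.1, fun t ht => ht.elim (h5.2.2.2 t) ?_⟩
  rintro rfl
  exact ⟨a, mem_singleton_self a, cut_sub_tch ha, Or.inr (not_not.1 fun k => (out_ne ha).2 k h6)⟩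

theorem ab_of_sl (h : G.Sl X O K φ) : G.Ab X O (G.tch X) K fun _ => True := by
  exact ⟨Subset.rfl, fun ψ _ _ => ⟨fun e => if e ∈ G.tch X then φ e else ψ e,
    fun e he => if_neg he, h.congr (fun e he => if_pos he) fun _ _ => Iff.rfl⟩⟩

theorem Ab.sl (h : G.Ab X O Fr K fun _ => True) : ∃ φ, G.Sl X O K φ := by
  obtain ⟨φ, h1⟩ := h.2 (fun _ => 1) (fun _ _ _ _ => one_ne_zero) trivial
  exact ⟨φ, h1.2⟩

theorem ab_empty : G.Ab ∅ O ∅ ∅ I := by
  refine ⟨empty_subset _, fun ψ _ _ => ⟨ψ, fun _ _ => rfl, by simp, fun e he => ?_, by simp⟩⟩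
  simp [mem_tch] at he

theorem Ab_sgn : ∀ x y : ZMod 3, x ≠ 0 → y ≠ 0 → x = y ∨ -x = y := by decide

/-- one dead edge costs nothing -/
theorem Ab.neg {d : E} (h : G.Ab X O (G.tch X) K fun _ => True) (hd : d ∉ O) :
    G.Ab X O ((G.tch X).erase d) K fun _ => True := by
  refine ⟨erase_subset _ _, fun ψ h1 _ => ?_⟩
  obtain ⟨φ, h2⟩ := h.sl
  obtain ⟨χ, h3, h4⟩ : ∃ χ, G.Sl X O K χ ∧ (d ∈ G.tch X → χ d = ψ d) := by
    by_cases k : d ∈ G.tch X
    · rcases Ab_sgn _ _ (h2.2.1 d k hd) (h1 d k (notMem_erase _ _) hd) with k1 | k1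
      exacts [⟨φ, h2, fun _ => k1⟩, ⟨_, h2.neg, fun _ => k1⟩]
    · exact ⟨φ, h2, fun k1 => absurd k1 k⟩
  refine ⟨fun e => if e ∈ G.tch X then χ e else ψ e, fun e he => ?_,
    h3.congr (fun e he => if_pos he) fun _ _ => Iff.rfl⟩
  dsimp only
  split_ifs with k
  · obtain rfl : e = d := not_not.1 fun k1 => he (mem_erase.2 ⟨k1, k⟩)
    exact h4 k
  · rfl

theorem Ab_pre1 (h : G.Pre (X1 ∪ X2) O (Fr1 ∪ Fr2) ψ) (hF : ∀ e ∈ Fr2, e ∈ G.tch X1 → e ∈ O) :
    G.Pre X1 O Fr1 ψ := fun e he h1 h2 =>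
  h e (tch_mono subset_union_left he)
    (fun k => (mem_union.1 k).elim h1 fun k => h2 (hF e k he)) h2

theorem Ab_pre2 (h : G.Pre (X1 ∪ X2) O (Fr1 ∪ Fr2) ψ) (hF : ∀ e ∈ Fr1, e ∈ G.tch X2 → e ∈ O) :
    G.Pre X2 O Fr2 ψ := by
  rw [union_comm X1, union_comm Fr1] at h
  exact Ab_pre1 h hF

theorem Ab_pre3 (h : G.Pre (X1 ∪ X2) O (Fr1 ∪ Fr2) ψ) (hF : Fr1 ⊆ G.tch X1)
    (h1 : G.Re X1 O Fr1 K1 ψ φ) : G.Pre X2 O Fr2 φ := by
  intro e he h2 h3
  by_cases k : e ∈ G.tch X1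
  · exact h1.2.2.1 e k h3
  · have k1 : e ∉ Fr1 := fun k1 => k (hF k1)
    rw [h1.1 e k1]
    exact h e (tch_mono subset_union_right he) (fun k2 => (mem_union.1 k2).elim k1 h2) h3

theorem Ab_then {φ' : E → ZMod 3} (h1 : G.Re X1 O Fr1 K1 ψ φ) (h2 : G.Re X2 O Fr2 K2 φ φ')
    (hF : Disjoint Fr2 (G.tch X1)) : G.Re (X1 ∪ X2) O (Fr1 ∪ Fr2) (K1 ∪ K2) ψ φ' :=
  ⟨fun e he => (h2.1 e fun k => he (mem_union_right _ k)).trans
      (h1.1 e fun k => he (mem_union_left _ k)),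
    (h1.2.congr (fun e he => h2.1 e fun k => disjoint_left.1 hF k he) fun _ _ => Iff.rfl).union
      h2.2⟩

theorem Ab_glue {φ' : E → ZMod 3} (h1 : G.Re X1 O Fr1 K1 ψ φ) (h2 : G.Re X2 O Fr2 K2 ψ φ')
    (h : ∀ e ∈ G.tch X1, e ∈ G.tch X2 → φ e = φ' e) :
    ∃ χ, G.Re (X1 ∪ X2) O (Fr1 ∪ Fr2) (K1 ∪ K2) ψ χ ∧ (∀ e ∈ G.tch X1, χ e = φ e) ∧
      ∀ e ∈ G.tch X2, χ e = φ' e := by
  have k1 : ∀ e ∈ G.tch X1, (if e ∈ G.tch X1 then φ e else φ' e) = φ e := fun e he => if_pos he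
  have k2 : ∀ e ∈ G.tch X2, (if e ∈ G.tch X1 then φ e else φ' e) = φ' e := fun e he => by
    split_ifs with k
    exacts [h e k he, rfl]
  refine ⟨fun e => if e ∈ G.tch X1 then φ e else φ' e, ⟨fun e he => ?_,
    (h1.2.congr k1 fun _ _ => Iff.rfl).union (h2.2.congr k2 fun _ _ => Iff.rfl)⟩, k1, k2⟩
  dsimp only
  split_ifs
  exacts [h1.1 e fun k => he (mem_union_left _ k), h2.1 e fun k => he (mem_union_right _ k)]

theorem Ab_sub (h1 : Fr1 ⊆ G.tch X1) (h2 : Fr2 ⊆ G.tch X2) : Fr1 ∪ Fr2 ⊆ G.tch (X1 ∪ X2) := by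
  rw [tch_union]
  exact union_subset_union h1 h2

theorem Ab.seq (h1 : G.Ab X1 O Fr1 K1 fun _ => True) (h2 : G.Ab X2 O Fr2 K2 fun _ => True)
    (hF : Disjoint Fr2 (G.tch X1)) :
    G.Ab (X1 ∪ X2) O (Fr1 ∪ Fr2) (K1 ∪ K2) fun _ => True := by
  refine ⟨Ab_sub h1.1 h2.1, fun ψ h3 _ => ?_⟩
  obtain ⟨φ, h4⟩ := h1.2 ψ (Ab_pre1 h3 fun e k1 k2 => absurd k2 (disjoint_left.1 hF k1)) trivial
  obtain ⟨χ, h5⟩ := h2.2 φ (Ab_pre3 h3 h1.1 h4) trivial
  exact ⟨χ, Ab_then h4 h5 hF⟩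

theorem Ab.seqP {C0 : Rl → Prop} (h1 : G.Ab X1 O Fr1 K1 fun _ => True)
    (h2 : G.Pa X2 O Fr2 K2 a b fun _ => C0) (hF : Disjoint Fr2 (G.tch X1))
    (ha : a ∈ G.A ∧ a ∉ G.tch X1) (hb : b ∈ G.A ∧ b ∉ G.tch X1) :
    G.Pa (X1 ∪ X2) O (Fr1 ∪ Fr2) (K1 ∪ K2) a b fun _ => C0 := by
  refine ⟨Ab_sub h1.1 h2.1, fun ψ h3 => ?_⟩
  obtain ⟨φ, h4⟩ := h1.2 ψ (Ab_pre1 h3 fun e k1 k2 => absurd k2 (disjoint_left.1 hF k1)) trivial
  obtain ⟨R, h5, h6⟩ := h2.2 φ (Ab_pre3 h3 h1.1 h4)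
  refine ⟨R, h5, fun x y hxy => ?_⟩
  obtain ⟨χ, h7, h8, h9⟩ := h6 x y hxy
  exact ⟨χ, Ab_then h4 h7 hF, (out_union χ ha.1 ha.2).trans h8, (out_union χ hb.1 hb.2).trans h9⟩

/-- Composition along a link.  HINT: solve both parts from the same given values and glue:
`φ e = if e ∈ Fr1 then φ1 e else φ2 e`. -/
theorem Pa.comp (h1 : G.Pa X1 O Fr1 K1 a m C1) (h2 : G.Pa X2 O Fr2 K2 m b C2)
    (hd : Disjoint X1 X2) (m1 : m ∈ G.cut X1) (m2 : m ∈ G.cut X2) (mO : m ∈ O)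
    (f1 : ∀ e ∈ Fr1, e ∈ G.tch X2 → e = m) (f2 : ∀ e ∈ Fr2, e ∈ G.tch X1 → e = m)
    (ha : a ∈ G.cut X1 ∧ a ∉ G.tch X2) (hb : b ∈ G.cut X2 ∧ b ∉ G.tch X1) :
    G.Pa (X1 ∪ X2) O (Fr1 ∪ Fr2) (K1 ∪ K2) a b fun ψ R => ∃ R1 R2, C1 ψ R1 ∧ C2 ψ R2 ∧
      R = fun x z => ∃ y, R1 x y ∧ R2 (-(chi (G.n m)) * y) z := by
  refine ⟨Ab_sub h1.1 h2.1, fun ψ h3 => ?_⟩
  obtain ⟨R1, c1, r1⟩ := h1.2 ψ (Ab_pre1 h3 fun e k1 k2 => f2 e k1 k2 ▸ mO)
  obtain ⟨R2, c2, r2⟩ := h2.2 ψ (Ab_pre2 h3 fun e k1 k2 => f1 e k1 k2 ▸ mO)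
  refine ⟨_, ⟨R1, R2, c1, c2, rfl⟩, ?_⟩
  rintro x z ⟨y, k1, k2⟩
  obtain ⟨φ1, p1, p2, p3⟩ := r1 x y k1
  obtain ⟨φ2, q1, q2, q3⟩ := r2 _ z k2
  have hm : φ1 m = φ2 m := out_inj m2 (by rw [out_link φ1 hd m1 m2, p3, q2])
  obtain ⟨χ, s1, s2, s3⟩ := Ab_glue p1 q1 fun e e1 e2 => by
    by_cases k : e = m
    · rw [k, hm]
    · rw [p1.1 e fun k3 => k (f1 e k3 e2), q1.1 e fun k3 => k (f2 e k3 e1)]
  refine ⟨χ, s1, ?_, ?_⟩
  · rw [union_comm, out_union χ (mem_cut.1 ha.1).1 ha.2, ← p2, out, out, s2 a (cut_sub_tch ha.1)]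
  · rw [out_union χ (mem_cut.1 hb.1).1 hb.2, ← q3, out, out, s3 b (cut_sub_tch hb.1)]

/-- closing two passes along two links -/
theorem Pa.close (h1 : G.Pa X1 O Fr1 K1 a m C1) (h2 : G.Pa X2 O Fr2 K2 m a C2)
    (hd : Disjoint X1 X2) (m1 : m ∈ G.cut X1) (m2 : m ∈ G.cut X2) (mO : m ∈ O)
    (a1 : a ∈ G.cut X1) (a2 : a ∈ G.cut X2) (aO : a ∈ O)
    (f1 : ∀ e ∈ Fr1, e ∈ G.tch X2 → e = m ∨ e = a) (f2 : ∀ e ∈ Fr2, e ∈ G.tch X1 → e = m ∨ e = a) :
    G.Ab (X1 ∪ X2) O (Fr1 ∪ Fr2) (K1 ∪ K2) fun ψ => ∀ R1 R2, C1 ψ R1 → C2 ψ R2 →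
      ∃ x y z, R1 x y ∧ R2 (-(chi (G.n m)) * y) z ∧ x = -(chi (G.n a)) * z := by
  refine ⟨Ab_sub h1.1 h2.1, fun ψ h3 h4 => ?_⟩
  obtain ⟨R1, c1, r1⟩ := h1.2 ψ (Ab_pre1 h3 fun e k1 k2 => by
    rcases f2 e k1 k2 with rfl | rfl <;> assumption)
  obtain ⟨R2, c2, r2⟩ := h2.2 ψ (Ab_pre2 h3 fun e k1 k2 => by
    rcases f1 e k1 k2 with rfl | rfl <;> assumption)
  obtain ⟨x, y, z, k1, k2, k3⟩ := h4 R1 R2 c1 c2
  obtain ⟨φ1, p1, p2, p3⟩ := r1 x y k1
  obtain ⟨φ2, q1, q2, q3⟩ := r2 _ z k2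
  have hm : φ1 m = φ2 m := out_inj m2 (by rw [out_link φ1 hd m1 m2, p3, q2])
  have ha : φ1 a = φ2 a := out_inj a1 (by rw [out_link φ2 hd.symm a2 a1, q3, p2, k3])
  obtain ⟨χ, s1, -⟩ := Ab_glue p1 q1 fun e e1 e2 => by
    by_cases k : e = m ∨ e = a
    · rcases k with rfl | rfl <;> assumption
    · rw [p1.1 e fun k3 => k (f1 e k3 e2), q1.1 e fun k3 => k (f2 e k3 e1)]
  exact ⟨χ, s1⟩

theorem Ab_dg {S T : Finset E} {v : V} (h : ∀ e, G.At e v → (e ∈ S ↔ e ∈ T)) :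
    G.dg S v = G.dg T v := by
  have k : ∀ S T : Finset E, (∀ e, G.At e v → e ∈ S → e ∈ T) → G.dg S v = G.dg (S ∩ T) v := by
    intro S T h
    refine (sum_subset inter_subset_left fun e h1 h2 => ?_).symm
    have h3 : ¬ G.At e v := fun h3 => h2 (mem_inter.2 ⟨h1, h e h3 h1⟩)
    have h4 : G.s e ≠ v := fun k1 => h3 (Or.inl k1)
    have h5 : G.t e ≠ v := fun k1 => h3 (Or.inr k1)
    simp [iv, h4, h5]
  rw [k S T fun e he => (h e he).1, k T S fun e he => (h e he).2, inter_comm]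

theorem Ab_tch_sub : G.tch X ⊆ G.A := filter_subset _ _

theorem Ab_link (hd : Disjoint X1 X2) (h1 : e ∈ G.tch X1) (h2 : e ∈ G.tch X2) :
    e ∈ G.cut X1 ∧ e ∈ G.cut X2 := by
  have k1 := @disjoint_left.1 hd (G.s e)
  have k2 := @disjoint_left.1 hd (G.t e)
  rw [mem_tch] at h1 h2
  rw [mem_cut, mem_cut]
  tauto

theorem Ab_half {O1 O2 J1 J2 : Finset E} (h1 : G.St X1 O1 J1) (h2 : G.St X2 O2 J2)
    (hd : Disjoint X1 X2) (hJ : ∀ e ∈ G.tch X1, e ∈ G.tch X2 → e ∈ J2 → e ∈ J1) :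
    ∀ e ∈ G.tch X1, e ∈ O1 ∪ O2 ↔ e ∈ O1 := by
  refine fun e he => ⟨fun k => (mem_union.1 k).elim id fun k => ?_, mem_union_left _⟩
  have k1 := hJ e he (h2.1 k) (h2.2.2 ▸ mem_inter.2 ⟨k, (Ab_link hd he (h2.1 k)).2⟩)
  rw [← h1.2.2] at k1
  exact (mem_inter.1 k1).1

/-- the union of the even sets of two disjoint regions -/
theorem St.union {O1 O2 J1 J2 : Finset E} (h1 : G.St X1 O1 J1) (h2 : G.St X2 O2 J2)
    (hd : Disjoint X1 X2) (hJ : ∀ e ∈ G.tch X1, e ∈ G.tch X2 → (e ∈ J1 ↔ e ∈ J2)) :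
    G.St (X1 ∪ X2) (O1 ∪ O2) ((J1 ∪ J2) \ (J1 ∩ J2)) ∧
      (∀ e ∈ G.tch X1, e ∈ O1 ∪ O2 ↔ e ∈ O1) ∧ (∀ e ∈ G.tch X2, e ∈ O1 ∪ O2 ↔ e ∈ O2) ∧
      G.par ((O1 ∪ O2) ∩ G.ins (X1 ∪ X2)) =
        G.par (O1 ∩ G.ins X1) + G.par (O2 ∩ G.ins X2) + G.par (J1 ∩ J2) := by
  have g1 := Ab_half h1 h2 hd fun e e1 e2 => (hJ e e1 e2).2
  have g2 : ∀ e ∈ G.tch X2, e ∈ O1 ∪ O2 ↔ e ∈ O2 := by
    rw [union_comm]
    exact Ab_half h2 h1 hd.symm fun e e1 e2 => (hJ e e2 e1).1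
  have hA : O1 ∪ O2 ⊆ G.A := union_subset (h1.1.trans Ab_tch_sub) (h2.1.trans Ab_tch_sub)
  have j1 : ∀ e, e ∈ J1 ↔ e ∈ O1 ∧ e ∈ G.cut X1 := fun e => by rw [← h1.2.2, mem_inter]
  have j2 : ∀ e, e ∈ J2 ↔ e ∈ O2 ∧ e ∈ G.cut X2 := fun e => by rw [← h2.2.2, mem_inter]
  refine ⟨⟨Ab_sub h1.1 h2.1, fun v hv => ?_, ?_⟩, g1, g2, ?_⟩
  · rcases mem_union.1 hv with k | k
    · rw [← h1.2.1 v k]
      exact Ab_dg fun e he => ⟨fun k1 => (g1 e (sol1_at_tch (hA k1) k he)).1 k1, mem_union_left _⟩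
    · rw [← h2.2.1 v k]
      exact Ab_dg fun e he => ⟨fun k1 => (g2 e (sol1_at_tch (hA k1) k he)).1 k1, mem_union_right _⟩
  · ext e
    have k1 := @disjoint_left.1 hd (G.s e)
    have k2 := @disjoint_left.1 hd (G.t e)
    have k3 := g1 e
    have k4 := g2 e
    have k5 := @h1.1 e
    have k6 := @h2.1 e
    simp only [mem_inter, mem_sdiff, mem_union, j1, j2, mem_cut, mem_tch] at k3 k4 k5 k6 ⊢
    grind
  · have e1 : (O1 ∪ O2) ∩ G.ins (X1 ∪ X2) = (O1 ∩ G.ins X1 ∪ O2 ∩ G.ins X2) ∪ J1 ∩ J2 := by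
      ext e
      have k1 := @disjoint_left.1 hd (G.s e)
      have k2 := @disjoint_left.1 hd (G.t e)
      have k3 := g1 e
      have k4 := g2 e
      simp only [mem_inter, mem_union, j1, j2, mem_cut, mem_tch, mem_ins] at k3 k4 ⊢
      grind
    rw [e1, par_union, par_union]
    · refine disjoint_left.2 fun e k1 k2 => ?_
      exact disjoint_left.1 hd (mem_ins.1 (mem_inter.1 k1).2).2.1 (mem_ins.1 (mem_inter.1 k2).2).2.1
    · refine disjoint_left.2 fun e k1 k2 => ?_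
      rw [mem_inter, j1, j2] at k2
      rcases mem_union.1 k1 with k | k
      exacts [not_ins_of_cut k2.1.2 (mem_inter.1 k).2, not_ins_of_cut k2.2.2 (mem_inter.1 k).2]

theorem St.sub_ins (h : G.St X O ∅) : O ⊆ G.ins X := by
  intro e he
  refine (mem_tch_iff.1 (h.1 he)).resolve_right fun k => ?_
  exact notMem_empty e (h.2.2 ▸ mem_inter.2 ⟨he, k⟩)

theorem St.ev (h : G.St X O ∅) : G.Ev O := by
  intro v
  by_cases k : v ∈ X
  · exact h.2.1 v k
  · exact dg_of_not_mem fun k1 => k ((sub_ins_iff.1 h.sub_ins).2 k1)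

theorem st_of_ev (h : O ⊆ G.ins X) (hE : G.Ev O) : G.St X O ∅ := by
  refine ⟨h.trans ins_sub_tch, fun v _ => hE v, eq_empty_of_forall_notMem fun e he => ?_⟩
  exact not_ins_of_cut (mem_inter.1 he).2 (h (mem_inter.1 he).1)

theorem st_empty : G.St ∅ ∅ ∅ := by
  exact st_of_ev (empty_subset _) ev_empty

/-- an even set with balanced support inside has parity zero -/
theorem St.par_bal (h : G.St X O ∅) (hB : G.Bal (G.ins X)) : G.par O = 0 := by
  exact hB.par_zero h.sub_ins h.ev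

theorem St.card_even (h : G.St X O J) : Even J.card := by
  have k : G.crs O X = J := by
    rw [← h.2.2]
    ext e
    have k1 : e ∈ O → e ∈ G.A := fun k1 => (mem_tch.1 (h.1 k1)).1
    rw [mem_crs, mem_inter, mem_cut]
    tauto
  rw [← ZMod.natCast_eq_zero_iff_even, ← k, ← sum_dg]
  exact sum_eq_zero h.2.1

/-- restriction of an even set to a subset -/
theorem St.res (h : G.St Y O J) (hX : X ⊆ Y) : G.St X (O ∩ G.tch X) (O ∩ G.cut X) := by
  refine ⟨inter_subset_right, fun v hv => ?_, ?_⟩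
  · rw [← h.2.1 v (hX hv)]
    exact Ab_dg fun e he => ⟨fun k => (mem_inter.1 k).1,
      fun k => mem_inter.2 ⟨k, sol1_at_tch (mem_tch.1 (h.1 k)).1 hv he⟩⟩
  · rw [inter_assoc, inter_eq_right.2 cut_sub_tch]

end SG

end Pool.Agent.Work.MP_8c679b_co
end
end

-- merged part: Pool.Agent.Work.MP_8c679b_co.Six.Cut
section
/-!
Counting with cuts under the standing condition `HT`.
-/

set_option autoImplicit false

namespace Pool.Agent.Work.MP_8c679b_co

open Finset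

namespace SG

variable {V E : Type} [Fintype V] [DecidableEq V] [DecidableEq E] {G : SG V E}
  {T S S' X Y W : Finset V} {J : Finset E} {a b c d e f : E} {v : V}

theorem cut_compl : G.cut (univ \ X) = G.cut X := by
  ext e
  simp only [mem_cut, mem_sdiff, mem_univ, true_and, not_iff_not]

theorem cut_add (h : X ⊆ S) :
    (G.cut X).card + (G.cut (S \ X)).card = (G.cut S).card + 2 * (G.crs (G.ins S) X).card := by
  simp only [cut, crs, ins, filter_filter, card_filter, mul_sum, ← sum_add_distrib, mem_sdiff]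
  refine sum_congr rfl fun e _ => ?_
  have h1 := @h (G.s e)
  have h2 := @h (G.t e)
  by_cases p1 : G.s e ∈ X <;> by_cases p2 : G.t e ∈ X <;> by_cases p3 : G.s e ∈ S <;>
    by_cases p4 : G.t e ∈ S <;> simp_all

theorem crs_ins (h : X ⊆ S) : G.crs (G.ins S) X = G.cut X \ G.cut S := by
  ext e
  simp only [mem_crs, mem_ins, mem_cut, mem_sdiff]
  have h1 := @h (G.s e)
  have h2 := @h (G.t e)
  (clear * - h1 h2; grind)

theorem crs_sdiff (h : X ⊆ S) : G.crs (G.ins S) (S \ X) = G.crs (G.ins S) X := by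
  ext e
  simp only [mem_crs, mem_ins, mem_cut, mem_sdiff]
  have h1 := @h (G.s e)
  have h2 := @h (G.t e)
  (clear * - h1 h2; grind)

theorem cut_union_sub : G.cut (X ∪ Y) ⊆ G.cut X ∪ G.cut Y := by
  intro e
  simp only [mem_cut, mem_union, mem_inter, mem_sdiff]
  tauto

theorem cut_inter_sub : G.cut (X ∩ Y) ⊆ G.cut X ∪ G.cut Y := by
  intro e
  simp only [mem_cut, mem_union, mem_inter, mem_sdiff]
  tauto

theorem cut_sdiff_sub : G.cut (X \ Y) ⊆ G.cut X ∪ G.cut Y := by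
  intro e
  simp only [mem_cut, mem_union, mem_inter, mem_sdiff]
  tauto

/-- submodularity with the exact error term -/
theorem cut_submod : (G.cut (X ∩ Y)).card + (G.cut (X ∪ Y)).card +
    2 * (G.cut (X \ Y) ∩ G.cut (Y \ X)).card = (G.cut X).card + (G.cut Y).card := by
  simp only [cut, crs, ← filter_and, card_filter, mul_sum, ← sum_add_distrib, mem_sdiff, mem_inter,
    mem_union]
  refine sum_congr rfl fun e _ => ?_
  by_cases p1 : G.s e ∈ X <;> by_cases p2 : G.t e ∈ X <;> by_cases p3 : G.s e ∈ Y <;>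
    by_cases p4 : G.t e ∈ Y <;> simp [p1, p2, p3, p4]

/-- posimodularity with the exact error term -/
theorem cut_posi : (G.cut (X \ Y)).card + (G.cut (Y \ X)).card +
    2 * (G.cut (X ∩ Y) ∩ G.cut (X ∪ Y)).card = (G.cut X).card + (G.cut Y).card := by
  simp only [cut, crs, ← filter_and, card_filter, mul_sum, ← sum_add_distrib, mem_sdiff, mem_inter,
    mem_union]
  refine sum_congr rfl fun e _ => ?_
  by_cases p1 : G.s e ∈ X <;> by_cases p2 : G.t e ∈ X <;> by_cases p3 : G.s e ∈ Y <;>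
    by_cases p4 : G.t e ∈ Y <;> simp [p1, p2, p3, p4]

/-- degree sum -/
theorem deg_sum (hc : G.Cub) (h : X ⊆ G.vs G.A) :
    2 * (G.ins X).card + (G.cut X).card = 3 * X.card := by
  have h1 : ∑ v ∈ X, G.deg G.A v = 3 * X.card := by
    rw [sum_congr rfl fun v hv => hc.deg3 (h hv), sum_const, smul_eq_mul, mul_comm]
  rw [← h1]
  simp only [deg, inc]
  rw [sum_comm]
  simp only [cut, crs, ins, card_filter, mul_sum, ← sum_add_distrib]
  refine sum_congr rfl fun e _ => ?_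
  rw [sum_add_distrib]
  simp only [iv, sum_ite_eq]
  by_cases p1 : G.s e ∈ X <;> by_cases p2 : G.t e ∈ X <;> simp [p1, p2]

theorem HT.mono3 (hT : G.HT T) (hX : X ⊆ T) (hn : X.Nonempty) : 3 ≤ (G.cut X).card := by
  exact (hT X hX hn).1

theorem HT.act (hT : G.HT T) : T ⊆ G.vs G.A := by
  intro v hv
  obtain ⟨e, he⟩ := card_pos.1
    (lt_of_lt_of_le (by norm_num) (hT.mono3 (singleton_subset_iff.2 hv) (singleton_nonempty v)))
  exact mem_vs.2 ⟨e, (mem_cut.1 he).1, mem_singleton.1 (ie_mem (cut_sub_tch he)) ▸ ie_at⟩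

theorem HT.vtx (hc : G.Cub) (hT : G.HT T) (hv : v ∈ T) :
    (G.cut {v}).card = 3 ∧ G.ins {v} = ∅ ∧ G.tch {v} = G.cut {v} := by
  have h1 := deg_sum hc ((singleton_subset_iff.2 hv).trans hT.act)
  have h2 := hT.mono3 (singleton_subset_iff.2 hv) (singleton_nonempty v)
  rw [card_singleton] at h1
  have h3 : G.ins {v} = ∅ := card_eq_zero.1 (by omega)
  refine ⟨by omega, h3, ?_⟩
  ext e
  simp only [mem_tch_iff, h3, notMem_empty, false_or]

theorem HT.noloop (hc : G.Cub) (hT : G.HT T) (he : e ∈ G.tch T) : G.s e ≠ G.t e := by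
  intro h
  obtain ⟨h1, h2⟩ := mem_tch.1 he
  have h3 : G.s e ∈ T := h2.elim id fun k => h ▸ k
  have h4 : e ∈ G.ins {G.s e} := mem_ins.2 ⟨h1, mem_singleton_self _, mem_singleton.2 h.symm⟩
  rw [(hT.vtx hc h3).2.1] at h4
  exact notMem_empty _ h4

omit [Fintype V] in
theorem Cut_tch (he : e ∈ G.A) (h : G.At e v) (hv : v ∈ X) : e ∈ G.tch X := by
  rcases h with rfl | rfl
  exacts [mem_tch.2 ⟨he, Or.inl hv⟩, mem_tch.2 ⟨he, Or.inr hv⟩]

omit [Fintype V] in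
theorem Cut_je_ins {u : V} (he : e ∈ G.A) (h : G.Je e u v) (hu : u ∈ X) (hv : v ∈ X) :
    e ∈ G.ins X := by
  rcases h with ⟨rfl, rfl⟩ | ⟨rfl, rfl⟩
  exacts [mem_ins.2 ⟨he, hu, hv⟩, mem_ins.2 ⟨he, hv, hu⟩]

omit [Fintype V] [DecidableEq E] in
theorem Cut_pair {u : V} (hu : u ∈ T) (hv : v ∈ T) : ({u, v} : Finset V) ⊆ T :=
  insert_subset hu (singleton_subset_iff.2 hv)

/-- no parallel edges inside `T` -/
theorem HT.simple (hc : G.Cub) (hT : G.HT T) {u : V} (hu : u ∈ T) (hv : v ∈ T) (he : e ∈ G.A)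
    (hf : f ∈ G.A) (h1 : G.Je e u v) (h2 : G.Je f u v) : e = f := by
  by_contra hne
  have h3 := deg_sum hc ((Cut_pair hu hv).trans hT.act)
  have h4 := hT.mono3 (Cut_pair hu hv) (insert_nonempty _ _)
  have h5 : ({u, v} : Finset V).card ≤ 2 := card_le_two
  have h6 : 2 ≤ (G.ins {u, v}).card := one_lt_card.2 ⟨e, Cut_je_ins he h1 (by simp) (by simp), f,
    Cut_je_ins hf h2 (by simp) (by simp), hne⟩
  omega

omit [Fintype V] [DecidableEq V] in
theorem Cut_rest {F : Finset E} {k : ℕ} (h : F.card = k + 2) (ha : a ∈ F) (hb : b ∈ F)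
    (hab : a ≠ b) : ∃ R : Finset E, R.card = k ∧ F = insert a (insert b R) ∧ a ∉ R ∧ b ∉ R := by
  have h1 : b ∈ F.erase a := mem_erase.2 ⟨hab.symm, hb⟩
  refine ⟨(F.erase a).erase b, ?_, by rw [insert_erase h1, insert_erase ha], by simp, by simp⟩
  rw [card_erase_of_mem h1, card_erase_of_mem ha, h]
  rfl

/-- the third edge at a vertex -/
theorem HT.third (hc : G.Cub) (hT : G.HT T) (hv : v ∈ T) (ha : a ∈ G.cut {v}) (hb : b ∈ G.cut {v})
    (hab : a ≠ b) : ∃ g, G.Q3 {v} a b g := by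
  obtain ⟨R, h1, h2, h3, h4⟩ := Cut_rest (k := 1) (hT.vtx hc hv).1 ha hb hab
  obtain ⟨g, rfl⟩ := card_eq_one.1 h1
  exact ⟨g, h2, hab, notMem_singleton.1 h3, notMem_singleton.1 h4⟩

theorem mem_cut_single (hl : G.s e ≠ G.t e) : e ∈ G.cut {v} ↔ e ∈ G.A ∧ G.At e v := by
  simp only [mem_cut, mem_singleton, At]
  refine and_congr_right fun _ => ⟨fun h => by tauto, fun h k => hl ?_⟩
  rcases h with h | h
  exacts [h.trans (k.1 h).symm, (k.2 h).trans h.symm]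

theorem HT.par (hc : G.Cub) (hT : G.HT T) (hX : X ⊆ T) : (G.cut X).card % 2 = X.card % 2 := by
  have := deg_sum hc (hX.trans hT.act)
  omega

/-- proper subsets with at least two vertices of a subset of `T` -/
theorem HT.four (hT : G.HT T) (hS : S ⊆ T) (hX : X ⊂ S) (h2 : 2 ≤ X.card) :
    4 ≤ (G.cut X).card := by
  obtain ⟨h3, h4⟩ := hT X (hX.1.trans hS) (card_pos.1 (by omega))
  by_contra h5
  rcases h4 (by omega) with h | h
  · omega
  · exact hX.2 (h ▸ hS)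

/-- subsets with at least two vertices of a set with four leaving edges -/
theorem HT.four' (hT : G.HT T) (hS : S ⊆ T) (h4 : (G.cut S).card = 4) (hX : X ⊆ S)
    (h2 : 2 ≤ X.card) : 4 ≤ (G.cut X).card := by
  rcases eq_or_ne X S with rfl | h
  · exact h4.ge
  · exact hT.four hS (hX.ssubset_of_ne h) h2

theorem HT.sub (hT : G.HT T) (hS : S ⊆ T) : G.HT S := by
  intro X hX hn
  obtain ⟨h3, h4⟩ := hT X (hX.trans hS) hn
  exact ⟨h3, fun h => (h4 h).imp id fun k : X = T => hX.antisymm (k ▸ hS)⟩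

theorem Q4.card (h : G.Q4 S a b c d) : (G.cut S).card = 4 := by
  obtain ⟨h, h1, h2, h3, h4, h5, h6⟩ := h
  rw [h, card_insert_of_notMem (by simp [h1, h2, h3]), card_insert_of_notMem (by simp [h4, h5]),
    card_pair h6]

theorem Q4.mem (h : G.Q4 S a b c d) :
    a ∈ G.cut S ∧ b ∈ G.cut S ∧ c ∈ G.cut S ∧ d ∈ G.cut S := by
  rw [h.1]
  simp

theorem Q4.swap1 (h : G.Q4 S a b c d) : G.Q4 S b a c d := by
  obtain ⟨h, h1, h2, h3, h4, h5, h6⟩ := h
  exact ⟨h.trans (insert_comm _ _ _), h1.symm, h4, h5, h2, h3, h6⟩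

theorem Q4.swap2 (h : G.Q4 S a b c d) : G.Q4 S a b d c := by
  obtain ⟨h, h1, h2, h3, h4, h5, h6⟩ := h
  exact ⟨by rw [h, pair_comm c d], h1, h3, h2, h5, h4, h6.symm⟩

theorem Q4.flip (h : G.Q4 S a b c d) : G.Q4 S c d a b := by
  obtain ⟨h, h1, h2, h3, h4, h5, h6⟩ := h
  refine ⟨?_, h6, h2.symm, h4.symm, h3.symm, h5.symm, h1⟩
  ext x
  simp only [h, mem_insert, mem_singleton]
  tauto

theorem Q4.mid (h : G.Q4 S a b c d) : G.Q4 S a c b d := by
  obtain ⟨h, h1, h2, h3, h4, h5, h6⟩ := h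
  exact ⟨by rw [h, insert_comm b c], h2, h1, h3, h4.symm, h6, h5⟩

theorem exists_q4 (h4 : (G.cut S).card = 4) (ha : a ∈ G.cut S) (hb : b ∈ G.cut S) (hab : a ≠ b) :
    ∃ c d, G.Q4 S a b c d := by
  obtain ⟨R, h1, h2, h3, h5⟩ := Cut_rest (k := 2) h4 ha hb hab
  obtain ⟨c, d, h6, rfl⟩ := card_eq_two.1 h1
  simp only [mem_insert, mem_singleton, not_or] at h3 h5
  exact ⟨c, d, h2, hab, h3.1, h3.2, h5.1, h5.2, h6⟩

theorem exists_q3 (h3 : (G.cut S).card = 3) : ∃ a b c, G.Q3 S a b c := by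
  obtain ⟨a, b, c, h1, h2, h4, h5⟩ := card_eq_three.1 h3
  exact ⟨a, b, c, h5, h1, h2, h4⟩

/-- rungs -/
theorem HT.rung (hc : G.Cub) (hT : G.HT T) (hS : S ⊆ T) (h4 : (G.cut S).card = 4)
    (h2 : S.card ≤ 2) : ∃ u v e, u ≠ v ∧ S = {u, v} ∧ G.ins S = {e} ∧ G.Je e u v := by
  have h1 := deg_sum hc (hS.trans hT.act)
  obtain ⟨e, he⟩ := card_eq_one.1 (show (G.ins S).card = 1 by omega)
  have h3 : e ∈ G.ins S := he ▸ mem_singleton_self e
  have h5 := hT.noloop hc (tch_mono hS (ins_sub_tch h3))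
  obtain ⟨-, h6, h7⟩ := mem_ins.1 h3
  exact ⟨_, _, e, h5, (eq_of_subset_of_card_le (Cut_pair h6 h7) (by rw [card_pair h5]; exact h2)).symm,
    he, Or.inl ⟨rfl, rfl⟩⟩

omit [Fintype V] [DecidableEq E] in
theorem Cut_bal1 (h : G.s e ≠ G.t e) : G.Bal {e} := by
  refine ⟨fun x => if x = G.s e then G.n e else 0, fun f hf => ?_⟩
  rw [mem_singleton.1 hf]
  simp [sw, h.symm, z2_add_self]

theorem HT.rung' (hc : G.Cub) (hT : G.HT T) {u : V} (hu : u ∈ T) (hv : v ∈ T) (huv : u ≠ v)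
    (h : G.Adj G.A u v) : (G.cut {u, v}).card = 4 ∧ G.Bal (G.ins {u, v}) ∧
      ∃ e, G.ins {u, v} = {e} ∧ G.Je e u v := by
  obtain ⟨e, he, h1⟩ := h
  have h2 : e ∈ G.ins {u, v} := Cut_je_ins he h1 (by simp) (by simp)
  have h3 := deg_sum hc ((Cut_pair hu hv).trans hT.act)
  have h4 := hT.mono3 (Cut_pair hu hv) (insert_nonempty _ _)
  have h5 := card_pos.2 ⟨e, h2⟩
  rw [card_pair huv] at h3
  have h6 : G.ins {u, v} = {e} :=
    (eq_of_subset_of_card_le (singleton_subset_iff.2 h2) (by rw [card_singleton]; omega)).symm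
  exact ⟨by omega, h6 ▸ Cut_bal1 (hT.noloop hc (tch_mono (Cut_pair hu hv) (ins_sub_tch h2))),
    e, h6, h1⟩

theorem HT.us_card (hc : G.Cub) (hT : G.HT T) (hS : S ⊆ T) (h : G.US S) : 4 ≤ S.card := by
  have h1 := hT.par hc hS
  have h2 := h.1
  by_contra h3
  obtain ⟨u, v, e, -, -, h4, -⟩ := hT.rung hc hS h2 (by omega)
  exact h.2 (h4 ▸ Cut_bal1 (hT.noloop hc (tch_mono hS (ins_sub_tch (h4 ▸ mem_singleton_self e)))))

theorem Cut_ie (he : e ∈ G.cut S) (h : G.ie S e = v) : e ∈ G.cut {v} ∩ G.cut S := by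
  subst h
  refine mem_inter.2 ⟨(cut_of_sub (singleton_subset_iff.2 (ie_mem (cut_sub_tch he))) he ?_).1, he⟩
  exact Cut_tch (mem_cut.1 he).1 ie_at (mem_singleton_self _)

theorem Cut_vx (hc : G.Cub) (hT : G.HT T) (hS : S ⊆ T) (hv : v ∈ S) :
    (G.cut (S \ {v})).card + 2 * (G.cut {v} ∩ G.cut S).card = (G.cut S).card + 3 := by
  have h1 := cut_add (G := G) (singleton_subset_iff.2 hv)
  have h2 := card_sdiff_add_card_inter (G.cut {v}) (G.cut S)
  rw [crs_ins (singleton_subset_iff.2 hv)] at h1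
  have h3 := (hT.vtx hc (hS hv)).1
  omega

theorem Cut_two (he : e ∈ G.cut S) (hf : f ∈ G.cut S) (hef : e ≠ f) (h : G.ie S e = G.ie S f) :
    2 ≤ (G.cut {G.ie S e} ∩ G.cut S).card :=
  one_lt_card.2 ⟨e, Cut_ie he rfl, f, Cut_ie hf h.symm, hef⟩

/-- F2: the terminals of a side are different -/
theorem HT.f2 (hc : G.Cub) (hT : G.HT T) (hS : S ⊆ T) (h4 : (G.cut S).card = 4) (h2 : 2 < S.card)
    (he : e ∈ G.cut S) (hf : f ∈ G.cut S) (hef : e ≠ f) : G.Dv S e f := by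
  intro h
  have h1 := ie_mem (cut_sub_tch he)
  have h3 := Cut_vx hc hT hS h1
  have h5 := Cut_two he hf hef h
  have h6 := card_sdiff_add_card_eq_card (singleton_subset_iff.2 h1)
  rw [card_singleton] at h6
  have h7 := hT.four' hS h4 (sdiff_subset (t := {G.ie S e})) (by omega)
  omega

theorem HT.f2' (hc : G.Cub) (hT : G.HT T) (h3 : (G.cut T).card = 3) (h2 : 1 < T.card)
    (he : e ∈ G.cut T) (hf : f ∈ G.cut T) (hef : e ≠ f) : G.Dv T e f := by
  intro h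
  have h1 := ie_mem (cut_sub_tch he)
  have h4 := Cut_vx hc hT subset_rfl h1
  have h5 := Cut_two he hf hef h
  have h6 := card_sdiff_add_card_eq_card (singleton_subset_iff.2 h1)
  rw [card_singleton] at h6
  have h7 := hT.mono3 (sdiff_subset (t := {G.ie T e})) (card_pos.1 (by omega))
  omega

/-- F3: sides are two-edge-connected -/
theorem HT.f3 (hT : G.HT T) (hS : S ⊆ T) (h4 : (G.cut S).card = 4) (h2 : 2 < S.card) :
    G.Two S (G.ins S) := by
  intro X hX hn hne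
  have h1 := cut_add (G := G) hX
  have h3 := card_sdiff_add_card_eq_card hX
  have h5 := card_lt_card (hX.ssubset_of_ne hne)
  have h6 := hT.mono3 (hX.trans hS) hn
  have h7 := hT.mono3 ((sdiff_subset (t := X)).trans hS) (card_pos.1 (by omega))
  have h8 := hT.four' hS h4 hX
  have h9 := hT.four' hS h4 (sdiff_subset (t := X))
  omega

theorem HT.f3' (hT : G.HT T) (h3 : (G.cut T).card = 3) : G.Two T (G.ins T) := by
  intro X hX hn hne
  have h1 := cut_add (G := G) hX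
  have h6 := hT.mono3 hX hn
  have h7 := hT.mono3 (sdiff_subset (t := X)) (sdiff_nonempty.2 (hX.ssubset_of_ne hne).2)
  omega

theorem Two.conn (h : G.Two W (G.ins W)) : G.Cn W (G.ins W) := by
  classical
  intro x hx y hy
  by_contra k
  obtain ⟨e, he⟩ := card_pos.1 (lt_of_lt_of_le two_pos (h (W.filter (G.Rch (G.ins W) x))
    (filter_subset _ _) ⟨x, mem_filter.2 ⟨hx, Rch.refl _ _⟩⟩
    fun k1 => k (mem_filter.1 (k1.symm ▸ hy : y ∈ W.filter (G.Rch (G.ins W) x))).2))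
  obtain ⟨h1, h2⟩ := mem_crs.1 he
  obtain ⟨-, h3, h4⟩ := mem_ins.1 h1
  exact h2 ⟨fun k1 => mem_filter.2 ⟨h4, (mem_filter.1 k1).2.trans (rch_edge h1)⟩,
    fun k1 => mem_filter.2 ⟨h3, (mem_filter.1 k1).2.trans (rch_edge h1).symm⟩⟩

theorem HT.cn4 (hc : G.Cub) (hT : G.HT T) (hS : S ⊆ T) (h4 : (G.cut S).card = 4) :
    G.Cn S (G.ins S) := by
  rcases le_or_gt S.card 2 with h | h
  · obtain ⟨u, v, e, -, h1, h2, h3⟩ := hT.rung hc hS h4 h
    have h5 : ∀ x ∈ S, G.At e x := fun x hx => by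
      rw [h1, mem_insert, mem_singleton] at hx
      rcases hx with rfl | rfl <;> rcases h3 with k | k
      exacts [Or.inl k.1, Or.inr k.2, Or.inr k.2, Or.inl k.1]
    exact fun x hx y hy => rch_at (h2 ▸ mem_singleton_self e) (h5 x hx) (h5 y hy)
  · exact (hT.f3 hS h4 h).conn

/-- in a rung the two pairs are spread over both vertices simultaneously -/
theorem HT.dv_flip (hc : G.Cub) (hT : G.HT T) (hS : S ⊆ T) (h : G.Q4 S a b c d)
    (hd : G.Dv S c d) : G.Dv S a b := by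
  intro k
  obtain ⟨ma, mb, mc, md⟩ := h.mem
  have h4 := h.card
  rcases le_or_gt S.card 2 with h2 | h2
  swap
  · exact hT.f2 hc hS h4 h2 ma mb h.2.1 k
  have h1 := ie_mem (cut_sub_tch ma)
  have h3 := Cut_vx hc hT hS h1
  have h5 : ({G.ie S c, G.ie S d} : Finset V) = S := eq_of_subset_of_card_le
    (Cut_pair (ie_mem (cut_sub_tch mc)) (ie_mem (cut_sub_tch md))) (by rw [card_pair hd]; exact h2)
  have h6 := card_sdiff_add_card_eq_card (singleton_subset_iff.2 h1)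
  have h7 : S.card = 2 := by rw [← h5, card_pair hd]
  rw [card_singleton] at h6
  have h8 := hT.mono3 ((sdiff_subset (t := {G.ie S a})).trans hS) (card_pos.1 (by omega))
  have h9 : 2 < (G.cut {G.ie S a} ∩ G.cut S).card := by
    have h10 : G.ie S a ∈ ({G.ie S c, G.ie S d} : Finset V) := h5.symm ▸ h1
    rw [mem_insert, mem_singleton] at h10
    rcases h10 with k1 | k1
    · exact two_lt_card_iff.2 ⟨a, b, c, Cut_ie ma rfl, Cut_ie mb k.symm, Cut_ie mc k1.symm, h.2.1,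
        h.2.2.1, h.2.2.2.2.1⟩
    · exact two_lt_card_iff.2 ⟨a, b, d, Cut_ie ma rfl, Cut_ie mb k.symm, Cut_ie md k1.symm, h.2.1,
        h.2.2.2.1, h.2.2.2.2.2.1⟩
  omega

/-- F4: crossing sides -/
theorem HT.f4 (hc : G.Cub) (hT : G.HT T) (hS : S ⊆ T) (hS' : S' ⊆ T) (h4 : (G.cut S).card = 4)
    (h4' : (G.cut S').card = 4) (h2 : 2 < S.card) (h2' : 2 < S'.card)
    (hu : (G.cut (S ∪ S')).card ≠ 3) (h1 : (S ∩ S').Nonempty) (h5 : (S \ S').Nonempty)
    (h6 : (S' \ S).Nonempty) :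
    (G.cut (S ∩ S')).card = 4 ∧ (G.cut (S ∪ S')).card = 4 ∧ (G.cut (S \ S')).card = 4 ∧
      (G.cut (S' \ S)).card = 4 ∧ G.cut (S \ S') ∩ G.cut (S' \ S) = ∅ ∧
      G.cut (S ∩ S') ∩ G.cut (S ∪ S') = ∅ := by
  have a1 := cut_submod (G := G) (X := S) (Y := S')
  have a2 := cut_posi (G := G) (X := S) (Y := S')
  have b1 := card_sdiff_add_card_inter S S'
  have b2 := card_sdiff_add_card_inter S' S
  have b3 := card_union_add_card_inter S S'
  rw [inter_comm] at b2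
  have c1 := hT.par hc hS
  have c2 := hT.par hc hS'
  have c3 := hT.par hc (union_subset hS hS')
  have c4 := hT.par hc ((inter_subset_left (s₂ := S')).trans hS)
  have c5 := hT.par hc ((sdiff_subset (t := S')).trans hS)
  have c6 := hT.par hc ((sdiff_subset (t := S)).trans hS')
  have d3 := hT.mono3 (union_subset hS hS') (h1.mono (inter_subset_union))
  have d4 := hT.mono3 ((inter_subset_left (s₂ := S')).trans hS) h1
  have d5 := hT.mono3 ((sdiff_subset (t := S')).trans hS) h5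
  have d6 := hT.mono3 ((sdiff_subset (t := S)).trans hS') h6
  have e4 := hT.four' hS h4 (inter_subset_left (s₂ := S'))
  have e5 := hT.four' hS h4 (sdiff_subset (t := S'))
  have e6 := hT.four' hS' h4' (sdiff_subset (t := S))
  have f1 : (G.cut (S ∩ S')).card = 4 := by (clear * - a1 a2 b1 b2 b3 c1 c2 c3 c4 c5 c6 d3 d4 e4 e5 e6 h2 h2' h4 h4' hu; lia)
  have f2 : (G.cut (S \ S')).card = 4 := by (clear * - a1 a2 b1 b2 b3 c1 c2 c3 c4 c5 c6 d3 d5 d6 f1 h4 h4'; lia)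
  exact ⟨f1, by omega, f2, by (clear * - a1 a2 b1 b2 b3 c1 c2 c3 c4 c5 c6 d3 d6 f1 f2 h4 h4'; lia), card_eq_zero.1 (by omega), card_eq_zero.1 (by (clear * - a1 a2 b1 b2 b3 c1 c2 c3 c4 c5 c6 d3 d6 f1 f2 h4 h4'; lia))⟩

theorem Cut_boxes {Fm : Set (Finset V)} (h : ∀ S ∈ Fm, S ⊆ W → G.cut S ⊆ G.ins W ∪ J →
    ∀ S' ∈ Fm, S' ⊆ W → G.cut S' ⊆ G.ins W ∪ J → ¬ Disjoint S S' → S ∪ S' ∈ Fm) :
    ∃ Bs, G.Bx Fm W J Bs := by
  classical
  let P : Finset V → Prop := fun B => B ∈ Fm ∧ B ⊆ W ∧ G.cut B ⊆ G.ins W ∪ J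
  refine ⟨univ.filter (Maximal P), fun B hB => (mem_filter.1 hB).2.1, fun B hB B' hB' hne => ?_,
    fun S h1 h2 h3 => ?_⟩
  · have k := (mem_filter.1 hB).2
    have k' := (mem_filter.1 hB').2
    by_contra hd
    have k1 : P (B ∪ B') := ⟨h B k.1.1 k.1.2.1 k.1.2.2 B' k'.1.1 k'.1.2.1 k'.1.2.2 hd,
      union_subset k.1.2.1 k'.1.2.1, cut_union_sub.trans (union_subset k.1.2.2 k'.1.2.2)⟩
    exact hne ((k.eq_of_le k1 subset_union_left).trans (k'.eq_of_le k1 subset_union_right).symm)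
  · obtain ⟨B, k1, k2⟩ := Finite.exists_le_maximal (p := P) ⟨h1, h2, h3⟩
    exact ⟨B, mem_filter.2 ⟨mem_univ _, k2⟩, k1⟩

/-- boxes exist when at most two leaving edges are allowed -/
theorem HT.boxes (hc : G.Cub) (hT : G.HT T) (hW : W ⊆ T) (hJ : J.card ≤ 2) :
    ∃ Bs, G.Bx G.AU W J Bs := by
  refine Cut_boxes fun S h1 h2 h3 S' h4 h5 h6 hd => ?_
  by_cases k1 : S ⊆ S'
  · rwa [union_eq_right.2 k1]
  by_cases k2 : S' ⊆ S
  · rwa [union_eq_left.2 k2]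
  have c1 := hT.us_card hc (h2.trans hW) h1
  have c2 := hT.us_card hc (h5.trans hW) h4
  refine ⟨(hT.f4 hc (h2.trans hW) (h5.trans hW) h1.1 h4.1 (by omega) (by omega) (fun k => ?_)
    (not_disjoint_iff_nonempty_inter.1 hd) (sdiff_nonempty.2 k1) (sdiff_nonempty.2 k2)).2.1,
    fun k => h1.2 (k.mono (ins_mono subset_union_left))⟩
  have c3 := card_le_card (subset_union_left (s₁ := S) (s₂ := S'))
  rcases (hT _ ((union_subset h2 h5).trans hW) (card_pos.1 (by omega))).2 k with k3 | k3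
  · omega
  have k4 : W = S ∪ S' := (k3 ▸ hW).antisymm (union_subset h2 h5)
  have k5 : G.cut (S ∪ S') ⊆ J := fun e he =>
    (mem_union.1 (union_subset h3 h6 (cut_union_sub he))).resolve_left (k4 ▸ not_ins_of_cut he)
  have := card_le_card k5
  omega

theorem FF.boxes {Fm : Set (Finset V)} (hF : G.FF Fm T) (W : Finset V) :
    ∃ Bs, G.Bx Fm W ∅ Bs := by
  exact Cut_boxes fun S h1 _ _ S' h4 _ _ hd => hF.2 S h1 S' h4 hd

/-- for dangerous families the allowed set does not matter -/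
theorem Bx.ends {Fm : Set (Finset V)} {Bs : Finset (Finset V)} (hF : G.FF Fm T)
    (h : G.Bx Fm W ∅ Bs) (hJ : Disjoint J (G.ins T)) : G.Bx Fm W J Bs := by
  refine ⟨fun B hB => ⟨(h.1 B hB).1, (h.1 B hB).2.1,
    (h.1 B hB).2.2.trans (union_subset_union_right (empty_subset J))⟩, h.2.1,
    fun S h1 h2 h3 => h.2.2 S h1 h2 fun e he => mem_union_left _ ?_⟩
  exact (mem_union.1 (h3 he)).resolve_right fun k => disjoint_left.1 hJ k ((hF.1 S h1).2.2 he)

/-- a candidate that meets a box lies inside it -/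
theorem Bx.max {Fm : Set (Finset V)} {Bs : Finset (Finset V)} {B : Finset V}
    (h : G.Bx Fm W J Bs) (hB : B ∈ Bs) (hS : S ∈ Fm) (hW : S ⊆ W)
    (hc : G.cut S ⊆ G.ins W ∪ J) (hd : ¬ Disjoint S B) : S ⊆ B := by
  obtain ⟨B', h1, h2⟩ := h.2.2 S hS hW hc
  by_cases k : B' = B
  · exact k ▸ h2
  · exact absurd ((h.2.1 B' h1 B hB k).mono_left h2) hd

/-- a vertex with a leaving edge off `J` lies in no box -/
theorem Bx.not_mem {Fm : Set (Finset V)} {Bs : Finset (Finset V)} {B : Finset V}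
    (h : G.Bx Fm W J Bs) (hB : B ∈ Bs) (he : e ∈ G.cut W) (hJ : e ∉ J) (hv : G.At e v) :
    v ∉ B := by
  intro k
  obtain ⟨-, h1, h2⟩ := h.1 B hB
  have h3 := (cut_of_sub h1 he (Cut_tch (mem_cut.1 he).1 hv k)).1
  exact (mem_union.1 (h2 h3)).elim (not_ins_of_cut he) hJ

theorem Bx.ssub {Fm : Set (Finset V)} {Bs : Finset (Finset V)} {B : Finset V}
    (h : G.Bx Fm W J Bs) (hB : B ∈ Bs) (he : e ∈ G.cut W) (hJ : e ∉ J) : B ⊂ W := by
  exact ⟨(h.1 B hB).2.1, fun k => h.not_mem hB he hJ ie_at (k (ie_mem (cut_sub_tch he)))⟩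

/-- boxes and ready rungs together are pairwise disjoint -/
theorem Bx.pd {Fm : Set (Finset V)} {Bs Ds : Finset (Finset V)} (h : G.Bx Fm W J Bs)
    (hD : G.VD W J Ds) : PD (Bs ∪ Ds) ∧ Disjoint Bs Ds := by
  have k : ∀ B ∈ Bs, ∀ ρ ∈ Ds, Disjoint B ρ := fun B hB ρ hρ => disjoint_right.2 fun x hx => by
    obtain ⟨⟨e, h1, h2, h3⟩, -⟩ := (hD.2 ρ hρ).2.2 x hx
    exact h.not_mem hB h1 h2 h3
  refine ⟨fun N hN N' hN' hne => ?_, disjoint_left.2 fun N h1 h2 => ?_⟩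
  · rcases mem_union.1 hN with p | p <;> rcases mem_union.1 hN' with q | q
    exacts [h.2.1 N p N' q hne, k N p N' q, (k N' q N p).symm, hD.1 N p N' q hne]
  · obtain ⟨u, v, -, h3, -⟩ := (hD.2 N h2).2.1
    exact disjoint_left.1 (k N h1 N h2) (h3 ▸ mem_insert_self u _) (h3 ▸ mem_insert_self u _)

/-- the structure of a ready rung -/
theorem Rdy.str (hc : G.Cub) (hT : G.HT T) (hW : W ⊆ T) {ρ : Finset V} (h : G.Rdy W J ρ) :
    ∃ u v m a b c d, u ≠ v ∧ ρ = {u, v} ∧ G.ins ρ = {m} ∧ G.Je m u v ∧ G.Q4 ρ a b c d ∧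
      G.tg W ρ = {a, b} ∧ G.ie ρ a = u ∧ G.ie ρ b = v ∧ G.ie ρ c = u ∧ G.ie ρ d = v ∧
      c ∈ G.cut W ∧ d ∈ G.cut W ∧ c ∉ J ∧ d ∉ J := by
  obtain ⟨h1, ⟨u, v, huv, rfl, h2⟩, h3⟩ := h
  have hu : u ∈ ({u, v} : Finset V) := mem_insert_self _ _
  have hv : v ∈ ({u, v} : Finset V) := mem_insert_of_mem (mem_singleton_self _)
  obtain ⟨h4, -, m, h5, h6⟩ := hT.rung' hc (hW (h1 hu)) (hW (h1 hv)) huv h2
  obtain ⟨⟨c, c1, c2, c3⟩, a, a1, a2⟩ := h3 u hu
  obtain ⟨⟨d, d1, d2, d3⟩, b, b1, b2⟩ := h3 v hv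
  obtain ⟨a3, a4⟩ := mem_inter.1 a1
  obtain ⟨b3, b4⟩ := mem_inter.1 b1
  have c4 := (cut_of_sub h1 c1 (Cut_tch (mem_cut.1 c1).1 c3 hu)).1
  have d4 := (cut_of_sub h1 d1 (Cut_tch (mem_cut.1 d1).1 d3 hv)).1
  have a5 := (eq_ie a3 hu a2).symm
  have b5 := (eq_ie b3 hv b2).symm
  have c5 := (eq_ie c4 hu c3).symm
  have d5 := (eq_ie d4 hv d3).symm
  have n1 : a ≠ b := fun k => huv (a5.symm.trans (k ▸ b5))
  have n2 : a ≠ c := fun k => not_ins_of_cut c1 (k ▸ a4)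
  have n3 : a ≠ d := fun k => not_ins_of_cut d1 (k ▸ a4)
  have n4 : b ≠ c := fun k => not_ins_of_cut c1 (k ▸ b4)
  have n5 : b ≠ d := fun k => not_ins_of_cut d1 (k ▸ b4)
  have n6 : c ≠ d := fun k => huv (c5.symm.trans (k ▸ d5))
  have q : G.cut {u, v} = {a, b, c, d} := (eq_of_subset_of_card_le
    (insert_subset a3 (insert_subset b3 (insert_subset c4 (singleton_subset_iff.2 d4)))) (by
      rw [h4, card_insert_of_notMem (by simp [n1, n2, n3]),
        card_insert_of_notMem (by simp [n4, n5]), card_pair n6])).symm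
  refine ⟨u, v, m, a, b, c, d, huv, rfl, h5, h6, ⟨q, n1, n2, n3, n4, n5, n6⟩, ?_, a5, b5, c5, d5,
    c1, d1, c2, d2⟩
  refine Subset.antisymm (fun x hx => ?_) (insert_subset a1 (singleton_subset_iff.2 b1))
  obtain ⟨x1, x2⟩ := mem_inter.1 hx
  simp only [q, mem_insert, mem_singleton] at x1 ⊢
  rcases x1 with k | k | k | k
  exacts [Or.inl k, Or.inr k, absurd (k ▸ x2) (not_ins_of_cut c1),
    absurd (k ▸ x2) (not_ins_of_cut d1)]

theorem Cut_adj (hc : G.Cub) (hT : G.HT T) (hS : S ⊆ T) (h4 : (G.cut S).card = 4)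
    (h2 : 2 < S.card) (ha : a ∈ G.cut S) {w y z : V}
    (h : ∀ r ∈ S, r = G.ie S a ∨ r = w ∨ r = y ∨ r = z) (hw : ¬ G.Adj G.A (G.ie S a) w) :
    ∃ e ∈ G.A, G.Je e (G.ie S a) y := by
  by_contra k
  have h1 := ie_mem (cut_sub_tch ha)
  have key : ∀ g ∈ (G.cut {G.ie S a}).erase a, G.Je g (G.ie S a) z ∧ z ∈ S := fun g hg => by
    obtain ⟨g1, g2⟩ := mem_erase.1 hg
    have g3 := (mem_cut.1 g2).1
    have g4 : G.Je g (G.ie S a) (G.oe {G.ie S a} g) := by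
      have := je_ie_oe (G := G) (X := {G.ie S a}) (e := g)
      rwa [mem_singleton.1 (ie_mem (cut_sub_tch g2))] at this
    have g5 : g ∈ G.ins S := (mem_tch_iff.1 (tch_mono (singleton_subset_iff.2 h1)
      (cut_sub_tch g2))).resolve_right fun p => hT.f2 hc hS h4 h2 ha p g1.symm
        (eq_ie p h1 (g4.imp (fun q => q.1) fun q => q.2))
    have g6 : G.oe {G.ie S a} g ∈ S := by
      rcases oe_at (G := G) (X := {G.ie S a}) (e := g) with p | p
      exacts [p ▸ (mem_ins.1 g5).2.1, p ▸ (mem_ins.1 g5).2.2]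
    rcases h _ g6 with p | p | p | p
    · exact absurd (mem_singleton.2 p) (oe_not_mem g2)
    · exact absurd ⟨g, g3, p ▸ g4⟩ hw
    · exact absurd ⟨g, g3, p ▸ g4⟩ k
    · exact ⟨p ▸ g4, p ▸ g6⟩
  obtain ⟨g, g1, g', g2, g3⟩ := one_lt_card.1 (show 1 < ((G.cut {G.ie S a}).erase a).card by
    rw [card_erase_of_mem (mem_inter.1 (Cut_ie ha rfl)).1, (hT.vtx hc (hS h1)).1]
    norm_num)
  exact g3 (hT.simple hc (hS h1) (hS (key g g1).2) (mem_cut.1 (mem_erase.1 g1).2).1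
    (mem_cut.1 (mem_erase.1 g2).2).1 (key g g1).1 (key g' g2).1)

omit [Fintype V] [DecidableEq V] [DecidableEq E] in
theorem Cut_je_ne {x y x' y' : V} (h : G.Je e x y) (h' : G.Je f x' y') (h1 : x ≠ x') (h2 : x ≠ y') :
    e ≠ f := by
  rintro rfl
  rcases h with k | k <;> rcases h' with k' | k'
  exacts [h1 (k.1.symm.trans k'.1), h2 (k.1.symm.trans k'.1), h2 (k.2.symm.trans k'.2),
    h1 (k.2.symm.trans k'.2)]

omit [Fintype V] [DecidableEq V] [DecidableEq E] in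
theorem Cut_sw {x y : V} (h : G.Je e x y) (p : V → ZMod 2) : G.sw p e = G.n e + p x + p y := by
  rcases h with ⟨rfl, rfl⟩ | ⟨rfl, rfl⟩
  · rfl
  · exact add_right_comm _ _ _

/-- the structure of a four-cycle with a diagonal pair -/
theorem HT.qst (hc : G.Cub) (hT : G.HT T) (hS : S ⊆ T) (h : G.Q4 S a b c d) (hq : G.Qd S a b) :
    ∃ e1 e2 e3 e4, G.ins S = {e1, e2, e3, e4} ∧ S = {G.ie S a, G.ie S b, G.ie S c, G.ie S d} ∧
      G.Je e1 (G.ie S a) (G.ie S c) ∧ G.Je e2 (G.ie S c) (G.ie S b) ∧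
      G.Je e3 (G.ie S b) (G.ie S d) ∧ G.Je e4 (G.ie S d) (G.ie S a) ∧
      (G.US S → G.n e1 + G.n e2 + G.n e3 + G.n e4 = 1) := by
  obtain ⟨ma, mb, mc, md⟩ := h.mem
  have h4 := h.card
  have h2 : 2 < S.card := by rw [hq.1]; norm_num
  obtain ⟨-, n1, n2, n3, n4, n5, n6⟩ := h
  have d1 : G.ie S a ≠ G.ie S b := hT.f2 hc hS h4 h2 ma mb n1
  have d2 : G.ie S a ≠ G.ie S c := hT.f2 hc hS h4 h2 ma mc n2
  have d3 : G.ie S a ≠ G.ie S d := hT.f2 hc hS h4 h2 ma md n3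
  have d4 : G.ie S b ≠ G.ie S c := hT.f2 hc hS h4 h2 mb mc n4
  have d5 : G.ie S b ≠ G.ie S d := hT.f2 hc hS h4 h2 mb md n5
  have d6 : G.ie S c ≠ G.ie S d := hT.f2 hc hS h4 h2 mc md n6
  have ia := ie_mem (cut_sub_tch ma)
  have ib := ie_mem (cut_sub_tch mb)
  have ic := ie_mem (cut_sub_tch mc)
  have id := ie_mem (cut_sub_tch md)
  have q : S = {G.ie S a, G.ie S b, G.ie S c, G.ie S d} := (eq_of_subset_of_card_le
    (insert_subset ia (insert_subset ib (Cut_pair ic id))) (by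
      rw [hq.1, card_insert_of_notMem (by simp [d1, d2, d3]),
        card_insert_of_notMem (by simp [d4, d5]), card_pair d6])).symm
  have r : ∀ r ∈ S, r = G.ie S a ∨ r = G.ie S b ∨ r = G.ie S c ∨ r = G.ie S d := fun r hr => by
    rw [q] at hr
    simpa only [mem_insert, mem_singleton] using hr
  obtain ⟨e1, a1, j1⟩ := Cut_adj hc hT hS h4 h2 ma r hq.2
  obtain ⟨e4, a4, j4⟩ := Cut_adj hc hT hS h4 h2 ma (y := G.ie S d) (z := G.ie S c)
    (fun x hx => by have := r x hx; (clear * - this; tauto)) hq.2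
  obtain ⟨e2, a2, j2⟩ := Cut_adj hc hT hS h4 h2 mb (y := G.ie S c) (z := G.ie S d)
    (fun x hx => by have := r x hx; (clear * - this; tauto)) fun k => hq.2 k.symm
  obtain ⟨e3, a3, j3⟩ := Cut_adj hc hT hS h4 h2 mb (y := G.ie S d) (z := G.ie S c)
    (fun x hx => by have := r x hx; (clear * - this; tauto)) fun k => hq.2 k.symm
  have m1 := Cut_je_ne j1 j2 d1 d2
  have m2 := Cut_je_ne j1 j3 d1 d3
  have m3 := Cut_je_ne (Or.symm j1) j4 d2.symm d6
  have m4 := Cut_je_ne (Or.symm j2) j3 d4.symm d6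
  have m5 := Cut_je_ne j2 j4 d1.symm d5
  have m6 := Cut_je_ne j3 j4 d1.symm d5
  have h5 := deg_sum hc (hS.trans hT.act)
  have q2 : G.ins S = {e1, e2, e3, e4} := (eq_of_subset_of_card_le
    (insert_subset (Cut_je_ins a1 j1 ia ic) (insert_subset (Cut_je_ins a2 j2 ib ic)
      (insert_subset (Cut_je_ins a3 j3 ib id) (singleton_subset_iff.2 (Cut_je_ins a4 j4 ia id)))))
    (by
      rw [card_insert_of_notMem (by simp [m1, m2, m3]),
        card_insert_of_notMem (by simp [m4, m5]), card_pair m6]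
      have := hq.1
      omega)).symm
  refine ⟨e1, e2, e3, e4, q2, q, j1, Or.symm j2, j3, Or.symm j4, fun hu => (z2_ne _).1 fun k => hu.2 ?_⟩
  refine ⟨fun x => if x = G.ie S c then G.n e1 else if x = G.ie S b then G.n e1 + G.n e2
    else if x = G.ie S d then G.n e4 else 0, fun g hg => ?_⟩
  simp only [q2, mem_insert, mem_singleton] at hg
  rcases hg with rfl | rfl | rfl | rfl
  · simp [Cut_sw j1, d1, d2, d3, z2_add_self]
  · simp only [Cut_sw j2, d4, if_true, if_false]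
    linear_combination z2_add_self (G.n e1) + z2_add_self (G.n g)
  · simp only [Cut_sw j3, d4, d5.symm, d6.symm, if_true, if_false]
    linear_combination k
  · simp [Cut_sw j4, d1, d2, d3, d5.symm, d6.symm, z2_add_self]

/-- in a four-cycle the pairs through a third terminal are adjacent -/
theorem HT.qd_mid (hc : G.Cub) (hT : G.HT T) (hS : S ⊆ T) (h : G.Q4 S a b c d)
    (hq : G.Qd S a b) : ¬ G.Qd S a c ∧ ¬ G.Qd S c a ∧ ¬ G.Qd S b c ∧ ¬ G.Qd S c b := by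
  obtain ⟨e1, e2, e3, e4, h1, -, j1, j2, -⟩ := hT.qst hc hS h hq
  have a1 : G.Adj G.A (G.ie S a) (G.ie S c) := ⟨e1, ins_sub_A (W := S) (by simp [h1]), j1⟩
  have a2 : G.Adj G.A (G.ie S c) (G.ie S b) := ⟨e2, ins_sub_A (W := S) (by simp [h1]), j2⟩
  exact ⟨fun k => k.2 a1, fun k => k.2 a1.symm, fun k => k.2 a2.symm, fun k => k.2 a2⟩

theorem Qd.symm (h : G.Qd S a b) : G.Qd S b a := by
  exact ⟨h.1, fun k => h.2 k.symm⟩

/-- a four-cycle contains no smaller unbalanced side -/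
theorem HT.kus4 (hc : G.Cub) (hT : G.HT T) (hS : S ⊆ T) (h4 : S.card = 4) :
    ∀ t ∈ G.Kus S, t = G.cut S := by
  rintro _ ⟨S', h1, h2, rfl⟩
  rw [eq_of_subset_of_card_le h1 (h4.le.trans (hT.us_card hc (h1.trans hS) h2))]

theorem kus_bal (h : G.Bal (G.ins S)) : G.Kus S = ∅ := by
  refine Set.eq_empty_of_forall_notMem ?_
  rintro _ ⟨S', h1, h2, rfl⟩
  exact h2.2 (h.mono (ins_mono h1))

end SG

end Pool.Agent.Work.MP_8c679b_co
end
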