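import Pool.Agent.Work.MP_8c679b_co.Six.Cut

-- merged part: Pool.Agent.Work.MP_8c679b_co.Key.Defs
section
-- merged part: Pool.Agent.Work.MP_8c679b_co.Six.Pth
section
/-!
Paths and circuits given by index functions.
-/

set_option autoImplicit false
set_option linter.unusedSectionVars false

namespace Pool.Agent.Work.MP_8c679b_co

open Finset

/-- concatenation of vertex sequences -/
def catV {α : Type} (n : ℕ) (v u : ℕ → α) (k : ℕ) : α := if k ≤ n then v k else u (k - n)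

/-- concatenation of edge sequences -/
def catE {α : Type} (n : ℕ) (g h : ℕ → α) (k : ℕ) : α := if k < n then g k else h (k - n)

/-- the vertices after replacing the segment between `i` and `j` by an ear of length `m` -/
def rrV {α : Type} (i j m : ℕ) (v u : ℕ → α) (k : ℕ) : α :=
  if k ≤ i then v k else if k ≤ i + m then u (k - i) else v (k - (i + m) + j)

/-- the edges after replacing the segment between `i` and `j` by an ear of length `m` -/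
def rrE {α : Type} (i j m : ℕ) (g h : ℕ → α) (k : ℕ) : α :=
  if k < i then g k else if k < i + m then h (k - i) else g (k - (i + m) + j)

theorem Pth_catL {α : Type} {n k : ℕ} {v u : ℕ → α} (h : k ≤ n) : catV n v u k = v k := if_pos h

theorem Pth_catR {α : Type} {n k : ℕ} {v u : ℕ → α} (he : v n = u 0) (h : n ≤ k) :
    catV n v u k = u (k - n) := by
  unfold catV
  split_ifs with h1
  · rw [le_antisymm h1 h, Nat.sub_self, he]
  · rfl

theorem Pth_ceL {α : Type} {n k : ℕ} {g h : ℕ → α} (hk : k < n) : catE n g h k = g k := if_pos hk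

theorem Pth_ceR {α : Type} {n k : ℕ} {g h : ℕ → α} (hk : n ≤ k) : catE n g h k = h (k - n) :=
  if_neg (not_lt.2 hk)

theorem Pth_rr1 {α : Type} {i j m k : ℕ} {v u : ℕ → α} (h : k ≤ i) : rrV i j m v u k = v k :=
  if_pos h

theorem Pth_rr2 {α : Type} {i j m k : ℕ} {v u : ℕ → α} (h0 : u 0 = v i) (h : i ≤ k)
    (h' : k ≤ i + m) : rrV i j m v u k = u (k - i) := by
  unfold rrV
  split_ifs with h1
  · rw [le_antisymm h1 h, Nat.sub_self, h0]
  · rfl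

theorem Pth_rr3 {α : Type} {i j m k : ℕ} {v u : ℕ → α} (h0 : u 0 = v i) (hm : u m = v j)
    (h : i + m ≤ k) : rrV i j m v u k = v (k - (i + m) + j) := by
  rcases h.eq_or_lt with rfl | h1
  · rw [Pth_rr2 h0 (by omega) le_rfl, Nat.add_sub_cancel_left, Nat.sub_self, zero_add, hm]
  · unfold rrV
    rw [if_neg (by omega), if_neg (by omega)]

theorem Pth_re1 {α : Type} {i j m k : ℕ} {g h : ℕ → α} (hk : k < i) : rrE i j m g h k = g k :=
  if_pos hk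

theorem Pth_re2 {α : Type} {i j m k : ℕ} {g h : ℕ → α} (hk : i ≤ k) (hk' : k < i + m) :
    rrE i j m g h k = h (k - i) := by
  unfold rrE
  rw [if_neg (by omega), if_pos hk']

theorem Pth_re3 {α : Type} {i j m k : ℕ} {g h : ℕ → α} (hk : i + m ≤ k) :
    rrE i j m g h k = g (k - (i + m) + j) := by
  unfold rrE
  rw [if_neg (by omega), if_neg (by omega)]

theorem Pth_tele (f : ℕ → ZMod 2) (n : ℕ) : ∑ i ∈ range n, (f i + f (i + 1)) = f 0 + f n := by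
  induction n with
  | zero => rw [sum_range_zero, z2_add_self]
  | succ n ih =>
    rw [sum_range_succ, ih]
    linear_combination z2_add_self (f n)

theorem mem_pv {α : Type} [DecidableEq α] {n : ℕ} {v : ℕ → α} {x : α} :
    x ∈ pv n v ↔ ∃ i ≤ n, v i = x := by
  simp [pv]

theorem mem_pe {α : Type} [DecidableEq α] {n : ℕ} {g : ℕ → α} {x : α} :
    x ∈ pe n g ↔ ∃ i < n, g i = x := by
  simp [pe]

theorem mem_bu {α : Type} [DecidableEq α] {n : ℕ} {X : ℕ → Finset α} {x : α} :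
    x ∈ bu n X ↔ ∃ i ≤ n, x ∈ X i := by
  simp [bu]

theorem mem_pv_rr {α : Type} [DecidableEq α] {n i j m : ℕ} {v u : ℕ → α} {x : α} (hij : i ≤ j)
    (hj : j ≤ n) (h0 : u 0 = v i) (hm : u m = v j) :
    x ∈ pv (i + m + (n - j)) (rrV i j m v u) ↔
      (∃ k ≤ i, v k = x) ∨ x ∈ pv m u ∨ ∃ k, j ≤ k ∧ k ≤ n ∧ v k = x := by
  rw [mem_pv, mem_pv]
  constructor
  · rintro ⟨k, hk, rfl⟩
    by_cases h1 : k ≤ i
    · exact Or.inl ⟨k, h1, (Pth_rr1 h1).symm⟩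
    by_cases h2 : k ≤ i + m
    · exact Or.inr (Or.inl ⟨k - i, by omega, (Pth_rr2 h0 (by omega) h2).symm⟩)
    · exact Or.inr (Or.inr ⟨_, by omega, by omega, (Pth_rr3 h0 hm (by omega)).symm⟩)
  · rintro (⟨k, hk, rfl⟩ | ⟨k, hk, rfl⟩ | ⟨k, hk, hk', rfl⟩)
    · exact ⟨k, by omega, Pth_rr1 hk⟩
    · exact ⟨i + k, by omega, by rw [Pth_rr2 h0 (by omega) (by omega), Nat.add_sub_cancel_left]⟩
    · exact ⟨i + m + (k - j), by omega, by
        rw [Pth_rr3 h0 hm (by omega), Nat.add_sub_cancel_left, Nat.sub_add_cancel hk]⟩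

theorem mem_pe_rr {α : Type} [DecidableEq α] {n i j m : ℕ} {g h : ℕ → α} {x : α} (hij : i ≤ j)
    (hj : j ≤ n) :
    x ∈ pe (i + m + (n - j)) (rrE i j m g h) ↔
      (∃ k < i, g k = x) ∨ x ∈ pe m h ∨ ∃ k, j ≤ k ∧ k < n ∧ g k = x := by
  rw [mem_pe, mem_pe]
  constructor
  · rintro ⟨k, hk, rfl⟩
    by_cases h1 : k < i
    · exact Or.inl ⟨k, h1, (Pth_re1 h1).symm⟩
    by_cases h2 : k < i + m
    · exact Or.inr (Or.inl ⟨k - i, by omega, (Pth_re2 (by omega) h2).symm⟩)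
    · exact Or.inr (Or.inr ⟨_, by omega, by omega, (Pth_re3 (by omega)).symm⟩)
  · rintro (⟨k, hk, rfl⟩ | ⟨k, hk, rfl⟩ | ⟨k, hk, hk', rfl⟩)
    · exact ⟨k, by omega, Pth_re1 hk⟩
    · exact ⟨i + k, by omega, by rw [Pth_re2 (by omega) (by omega), Nat.add_sub_cancel_left]⟩
    · exact ⟨i + m + (k - j), by omega, by
        rw [Pth_re3 (by omega), Nat.add_sub_cancel_left, Nat.sub_add_cancel hk]⟩

theorem pv_rev {α : Type} [DecidableEq α] {n : ℕ} {v : ℕ → α} :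
    pv n (fun k => v (n - k)) = pv n v := by
  ext x
  simp only [mem_pv]
  constructor
  · rintro ⟨k, hk, rfl⟩
    exact ⟨n - k, by omega, rfl⟩
  · rintro ⟨k, hk, rfl⟩
    exact ⟨n - k, by omega, by rw [Nat.sub_sub_self hk]⟩

theorem pe_rev {α : Type} [DecidableEq α] {n : ℕ} {g : ℕ → α} :
    pe n (fun k => g (n - 1 - k)) = pe n g := by
  ext x
  simp only [mem_pe]
  constructor
  · rintro ⟨k, hk, rfl⟩
    exact ⟨n - 1 - k, by omega, rfl⟩
  · rintro ⟨k, hk, rfl⟩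
    exact ⟨n - 1 - k, by omega, congrArg g (by omega)⟩

theorem mem_pv_cat {α : Type} [DecidableEq α] {n m : ℕ} {v u : ℕ → α} {x : α} (h : v n = u 0) :
    x ∈ pv (n + m) (catV n v u) ↔ x ∈ pv n v ∨ x ∈ pv m u := by
  simp only [mem_pv]
  constructor
  · rintro ⟨k, hk, rfl⟩
    by_cases h1 : k ≤ n
    · exact Or.inl ⟨k, h1, (Pth_catL h1).symm⟩
    · exact Or.inr ⟨k - n, by omega, (Pth_catR h (by omega)).symm⟩
  · rintro (⟨k, hk, rfl⟩ | ⟨k, hk, rfl⟩)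
    · exact ⟨k, by omega, Pth_catL hk⟩
    · exact ⟨n + k, by omega, by rw [Pth_catR h (by omega), Nat.add_sub_cancel_left]⟩

theorem mem_pe_cat {α : Type} [DecidableEq α] {n m : ℕ} {g h : ℕ → α} {x : α} :
    x ∈ pe (n + m) (catE n g h) ↔ x ∈ pe n g ∨ x ∈ pe m h := by
  simp only [mem_pe]
  constructor
  · rintro ⟨k, hk, rfl⟩
    by_cases h1 : k < n
    · exact Or.inl ⟨k, h1, (Pth_ceL h1).symm⟩
    · exact Or.inr ⟨k - n, by omega, (Pth_ceR (by omega)).symm⟩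
  · rintro (⟨k, hk, rfl⟩ | ⟨k, hk, rfl⟩)
    · exact ⟨k, by omega, Pth_ceL hk⟩
    · exact ⟨n + k, by omega, by rw [Pth_ceR (by omega), Nat.add_sub_cancel_left]⟩

namespace SG

variable {V E : Type} [Fintype V] [DecidableEq V] [DecidableEq E] {G : SG V E}
  {S S' C : Finset E} {n m i j : ℕ} {v u : ℕ → V} {g h : ℕ → E} {a b x : V} {e : E}

theorem Je.symm (h : G.Je e a b) : G.Je e b a := by
  exact Or.symm h

theorem Je.at_iff (h : G.Je e a b) : G.At e x ↔ x = a ∨ x = b := by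
  unfold At
  rcases h with ⟨rfl, rfl⟩ | ⟨rfl, rfl⟩
  · simp only [eq_comm]
  · simp only [eq_comm, or_comm]

theorem adj_iff : G.Adj S a b ↔ ∃ e ∈ S, G.Je e a b := by
  rfl

theorem pth_zero (a : V) (g : ℕ → E) : G.Pth S 0 (fun _ => a) g := by
  exact ⟨fun _ _ _ _ _ => by omega, fun _ _ => by omega, fun _ _ => by omega⟩

theorem pth_one (he : e ∈ S) (hj : G.Je e a b) (hab : a ≠ b) :
    G.Pth S 1 (fun k => if k = 0 then a else b) fun _ => e := by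
  refine ⟨fun i hi j hj h => ?_, fun _ _ => he, fun i hi => ?_⟩
  · by_cases h1 : i = 0 <;> by_cases h2 : j = 0 <;> simp only [h1, h2, if_true, if_false] at h
    · omega
    · exact absurd h hab
    · exact absurd h.symm hab
    · omega
  · obtain rfl : i = 0 := by omega
    exact hj

theorem Pth.mono (h : G.Pth S n v g) (hS : ∀ i < n, g i ∈ S') : G.Pth S' n v g := by
  exact ⟨h.inj, hS, h.jn⟩

theorem Pth.congr {v' : ℕ → V} {g' : ℕ → E} (h : G.Pth S n v g) (hv : ∀ i ≤ n, v' i = v i)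
    (hg : ∀ i < n, g' i = g i) : G.Pth S n v' g' := by
  refine ⟨fun i hi j hj e => h.inj i hi j hj ?_, fun i hi => ?_, fun i hi => ?_⟩
  · rw [← hv i hi, ← hv j hj, e]
  · rw [hg i hi]; exact h.mem i hi
  · rw [hg i hi, hv i hi.le, hv (i + 1) hi]; exact h.jn i hi

theorem Pth_at (hp : G.Pth S n v g) (hi : i < n) (hj : j ≤ n) :
    G.At (g i) (v j) ↔ j = i ∨ j = i + 1 := by
  rw [(hp.jn i hi).at_iff]
  exact or_congr ⟨hp.inj j hj i hi.le, congrArg v⟩ ⟨hp.inj j hj _ hi, congrArg v⟩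

theorem Pth_init (hp : G.Pth S n v g) (hm : m ≤ n) : G.Pth S m v g :=
  ⟨fun i hi j hj => hp.inj i (hi.trans hm) j (hj.trans hm), fun i hi => hp.mem i (hi.trans_le hm),
    fun i hi => hp.jn i (hi.trans_le hm)⟩

theorem Pth.einj (hp : G.Pth S n v g) (hi : i < n) (hj : j < n) (h : g i = g j) : i = j := by
  have h1 := (Pth_at hp hi hj.le).1 (h ▸ (hp.jn j hj).at_iff.2 (Or.inl rfl))
  have h2 := (Pth_at hp hj hi.le).1 (h ▸ (hp.jn i hi).at_iff.2 (Or.inl rfl))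
  omega

theorem Pth.at_iff (hp : G.Pth S n v g) (hi : i < n) (hj : j ≤ n) :
    G.At (g i) (v j) ↔ j = i ∨ j = i + 1 := by
  exact Pth_at hp hi hj

theorem Pth.sub (hp : G.Pth S n v g) (hij : i + m ≤ n) :
    G.Pth S m (fun k => v (i + k)) fun k => g (i + k) := by
  exact ⟨fun a ha b hb e => by have := hp.inj _ (by omega) _ (by omega) e; omega,
    fun a ha => hp.mem _ (by omega), fun a ha => hp.jn _ (by omega)⟩

theorem Pth.rev (hp : G.Pth S n v g) :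
    G.Pth S n (fun k => v (n - k)) fun k => g (n - 1 - k) := by
  refine ⟨fun a ha b hb e => by have := hp.inj _ (by omega) _ (by omega) e; omega,
    fun a ha => hp.mem _ (by omega), fun a ha => ?_⟩
  have := (hp.jn (n - 1 - a) (by omega)).symm
  rwa [show n - 1 - a + 1 = n - a by omega, show v (n - 1 - a) = v (n - (a + 1)) from
    congrArg v (by omega)] at this

theorem Pth.cat (h1 : G.Pth S n v g) (h2 : G.Pth S m u h) (he : v n = u 0)
    (hd : ∀ i ≤ n, ∀ k ≤ m, v i = u k → k = 0) :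
    G.Pth S (n + m) (catV n v u) (catE n g h) := by
  refine ⟨fun a ha b hb e => ?_, fun a ha => ?_, fun a ha => ?_⟩
  · by_cases k1 : a ≤ n <;> by_cases k2 : b ≤ n
    · rw [Pth_catL k1, Pth_catL k2] at e
      exact h1.inj a k1 b k2 e
    · rw [Pth_catL k1, Pth_catR he (by omega)] at e
      have := hd a k1 _ (by omega) e
      omega
    · rw [Pth_catL k2, Pth_catR he (by omega)] at e
      have := hd b k2 _ (by omega) e.symm
      omega
    · rw [Pth_catR he (by omega), Pth_catR he (by omega)] at e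
      have := h2.inj _ (by omega) _ (by omega) e
      omega
  · by_cases k1 : a < n
    · rw [Pth_ceL k1]; exact h1.mem a k1
    · rw [Pth_ceR (by omega)]; exact h2.mem _ (by omega)
  · by_cases k1 : a < n
    · rw [Pth_ceL k1, Pth_catL k1.le, Pth_catL k1]; exact h1.jn a k1
    · rw [Pth_ceR (by omega), Pth_catR he (by omega), Pth_catR he (by omega),
        show a + 1 - n = a - n + 1 by omega]
      exact h2.jn _ (by omega)

/-- appending one edge -/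
theorem Pth.snoc (hp : G.Pth S n v g) (he : e ∈ S) (hj : G.Je e (v n) x) (hx : x ∉ pv n v) :
    G.Pth S (n + 1) (fun k => if k ≤ n then v k else x) fun k => if k < n then g k else e := by
  refine ⟨fun a ha b hb e => ?_, fun a ha => ?_, fun a ha => ?_⟩
  · by_cases k1 : a ≤ n <;> by_cases k2 : b ≤ n <;> simp only [k1, k2, if_true, if_false] at e
    · exact hp.inj a k1 b k2 e
    · exact absurd (mem_pv.2 ⟨a, k1, e⟩) hx
    · exact absurd (mem_pv.2 ⟨b, k2, e.symm⟩) hx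
    · omega
  · split_ifs with k
    exacts [hp.mem a k, he]
  · by_cases k : a < n
    · simp only [k, k.le, Nat.succ_le_of_lt k, if_true]
      exact hp.jn a k
    · obtain rfl : a = n := by omega
      simpa using hj

/-- prepending one edge -/
theorem Pth.cons (hp : G.Pth S n v g) (he : e ∈ S) (hj : G.Je e x (v 0)) (hx : x ∉ pv n v) :
    G.Pth S (n + 1) (fun k => if k = 0 then x else v (k - 1))
      fun k => if k = 0 then e else g (k - 1) := by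
  refine ⟨fun a ha b hb e => ?_, fun a ha => ?_, fun a ha => ?_⟩
  · by_cases k1 : a = 0 <;> by_cases k2 : b = 0 <;> simp only [k1, k2, if_true, if_false] at e
    · omega
    · exact absurd (mem_pv.2 ⟨b - 1, by omega, e.symm⟩) hx
    · exact absurd (mem_pv.2 ⟨a - 1, by omega, e⟩) hx
    · have := hp.inj _ (by omega) _ (by omega) e
      omega
  · split_ifs with k
    exacts [he, hp.mem _ (by omega)]
  · rcases a with _ | a
    · simpa using hj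
    · simpa using hp.jn a (by omega)

/-- rerouting along an ear -/
theorem Pth.rr (hp : G.Pth S n v g) (he : G.Pth S m u h) (hij : i < j) (hj : j ≤ n)
    (h0 : u 0 = v i) (hm : u m = v j)
    (hd : ∀ k, 0 < k → k < m → ∀ l ≤ n, (l ≤ i ∨ j ≤ l) → u k ≠ v l) :
    G.Pth S (i + m + (n - j)) (rrV i j m v u) (rrE i j m g h) := by
  have key : ∀ a ≤ i + m + (n - j), (∃ l ≤ n, (l ≤ i ∨ j ≤ l) ∧ rrV i j m v u a = v l ∧
      (l ≤ i → a = l) ∧ (j ≤ l → a + j = l + (i + m))) ∨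
      (i < a ∧ a < i + m ∧ rrV i j m v u a = u (a - i)) := by
    intro a ha
    by_cases k1 : a ≤ i
    · exact Or.inl ⟨a, by omega, Or.inl k1, Pth_rr1 k1, fun _ => rfl, fun _ => by omega⟩
    by_cases k2 : a < i + m
    · exact Or.inr ⟨by omega, k2, Pth_rr2 h0 (by omega) k2.le⟩
    · exact Or.inl ⟨_, by omega, Or.inr (by omega), Pth_rr3 h0 hm (by omega), fun _ => by omega,
        fun _ => by omega⟩
  refine ⟨fun a ha b hb e => ?_, fun a ha => ?_, fun a ha => ?_⟩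
  · rcases key a ha with ⟨l, a1, a2, a3, a4⟩ | ⟨a1, a2, a3⟩ <;>
      rcases key b hb with ⟨l', b1, b2, b3, b4⟩ | ⟨b1, b2, b3⟩ <;> rw [a3, b3] at e
    · have := hp.inj _ a1 _ b1 e
      omega
    · exact absurd e.symm (hd _ (by omega) (by omega) l a1 a2)
    · exact absurd e (hd _ (by omega) (by omega) l' b1 b2)
    · have := he.inj _ (by omega) _ (by omega) e
      omega
  · by_cases k1 : a < i
    · rw [Pth_re1 k1]; exact hp.mem a (by omega)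
    by_cases k2 : a < i + m
    · rw [Pth_re2 (by omega) k2]; exact he.mem _ (by omega)
    · rw [Pth_re3 (by omega)]; exact hp.mem _ (by omega)
  · by_cases k1 : a < i
    · rw [Pth_re1 k1, Pth_rr1 k1.le, Pth_rr1 k1]; exact hp.jn a (by omega)
    by_cases k2 : a < i + m
    · rw [Pth_re2 (by omega) k2, Pth_rr2 h0 (by omega) k2.le, Pth_rr2 h0 (by omega) k2,
        show a + 1 - i = a - i + 1 by omega]
      exact he.jn _ (by omega)
    · rw [Pth_re3 (by omega), Pth_rr3 h0 hm (by omega), Pth_rr3 h0 hm (by omega),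
        show a + 1 - (i + m) + j = a - (i + m) + j + 1 by omega]
      exact hp.jn _ (by omega)

theorem Cyc.rr (hp : G.Cyc S n v g) (he : G.Pth S m u h) (hij : i < j) (hj : j ≤ n)
    (h0 : u 0 = v i) (hm : u m = v j)
    (hd : ∀ k, 0 < k → k < m → ∀ l ≤ n, (l ≤ i ∨ j ≤ l) → u k ≠ v l) (hn : ∀ k < m, h k ≠ g n) :
    G.Cyc S (i + m + (n - j)) (rrV i j m v u) (rrE i j m g h) := by
  have h1 : 0 < m := Nat.pos_of_ne_zero fun k => by
    have := hp.pth.inj i (by omega) j hj (by rw [← h0, ← hm, k])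
    omega
  have h2 : rrE i j m g h (i + m + (n - j)) = g n := by
    rw [Pth_re3 (by omega), Nat.add_sub_cancel_left, Nat.sub_add_cancel hj]
  refine ⟨hp.pth.rr he hij hj h0 hm hd, by omega, h2 ▸ hp.cm, ?_, ?_⟩
  · rw [h2, Pth_rr3 h0 hm (by omega), Nat.add_sub_cancel_left, Nat.sub_add_cancel hj,
      Pth_rr1 (Nat.zero_le _)]
    exact hp.cj
  · rw [h2]
    by_cases k : 0 < i
    · rw [Pth_re1 k]; exact hp.cn
    · rw [Pth_re2 (by omega) (by omega)]; exact (hn _ (by omega)).symm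

theorem Pth.rch (hp : G.Pth S n v g) (hi : i ≤ n) (hj : j ≤ n) :
    G.Rch (pe n g) (v i) (v j) := by
  have key : ∀ k ≤ n, G.Rch (pe n g) (v 0) (v k) := by
    intro k hk
    induction k with
    | zero => exact Rch.refl _ _
    | succ k ih => exact (ih (by omega)).tail ⟨g k, mem_pe.2 ⟨k, hk, rfl⟩, hp.jn k hk⟩
  exact (key i hi).symm.trans (key j hj)

theorem Pth.pe_sub (hp : G.Pth S n v g) : pe n g ⊆ S := by
  intro e he
  obtain ⟨k, hk, rfl⟩ := mem_pe.1 he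
  exact hp.mem k hk

theorem Pth_sum {M : Type} [AddCommMonoid M] (hp : G.Pth S n v g) (f : E → M) :
    ∑ e ∈ pe n g, f e = ∑ i ∈ range n, f (g i) :=
  sum_image fun _ hi _ hj => hp.einj (mem_range.1 hi) (mem_range.1 hj)

theorem Pth_iv {M : Type} [AddCommMonoid M] [One M] (h : G.Je e a b) (x : V) :
    (iv (G.s e = x) + iv (G.t e = x) : M) = iv (a = x) + iv (b = x) := by
  rcases h with ⟨rfl, rfl⟩ | ⟨rfl, rfl⟩
  exacts [rfl, add_comm _ _]

theorem Pth_ends {Y : Finset V} (h : G.Je e a b) : (G.s e ∈ Y ∧ G.t e ∈ Y) ↔ a ∈ Y ∧ b ∈ Y := by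
  rcases h with ⟨rfl, rfl⟩ | ⟨rfl, rfl⟩
  exacts [Iff.rfl, and_comm]

theorem Pth_ins (hp : G.Pth S n v g) (hS : S ⊆ G.A) (hi : i < n) : g i ∈ G.ins (pv n v) :=
  mem_ins.2 ⟨hS (hp.mem i hi), (Pth_ends (hp.jn i hi)).2
    ⟨mem_pv.2 ⟨i, hi.le, rfl⟩, mem_pv.2 ⟨i + 1, hi, rfl⟩⟩⟩

theorem Pth.od (hp : G.Pth S n v g) : G.Od (pe n g) (v 0) (v n) := by
  intro x
  rw [dg, Pth_sum hp, sum_congr rfl fun k hk => Pth_iv (hp.jn k (mem_range.1 hk)) x,
    Pth_tele fun k => iv (v k = x)]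
  simp only [eq_comm]

theorem Pth.pp (hp : G.Pth S n v g) (hS : S ⊆ G.A) : G.Pp (pv n v) (pe n g) (v 0) (v n) := by
  refine ⟨fun e he => ?_, fun a ha b hb => ?_, hp.od, mem_pv.2 ⟨0, Nat.zero_le _, rfl⟩,
    mem_pv.2 ⟨n, le_rfl, rfl⟩⟩
  · obtain ⟨k, hk, rfl⟩ := mem_pe.1 he
    exact Pth_ins hp hS hk
  · obtain ⟨k, hk, rfl⟩ := mem_pv.1 ha
    obtain ⟨l, hl, rfl⟩ := mem_pv.1 hb
    exact hp.rch hk hl

theorem Pth.par (hp : G.Pth S n v g) : G.par (pe n g) = ∑ i ∈ range n, G.n (g i) := by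
  exact Pth_sum hp _

/-- the potential along a path -/
theorem Pth.pot (hp : G.Pth S n v g) : ∃ p : V → ZMod 2, (∀ e ∈ pe n g, G.sw p e = 0) ∧
    ∀ j ≤ n, p (v j) = ∑ i ∈ range j, G.n (g i) := by
  have key : ∀ x, ∃ c : ZMod 2, ∀ j ≤ n, v j = x → c = ∑ i ∈ range j, G.n (g i) := by
    intro x
    by_cases h : ∃ j ≤ n, v j = x
    · obtain ⟨j, hj, rfl⟩ := h
      exact ⟨_, fun k hk e => by rw [hp.inj k hk j hj e]⟩
    · exact ⟨0, fun k hk e => absurd ⟨k, hk, e⟩ h⟩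
  choose p hq using key
  refine ⟨p, fun e he => ?_, fun j hj => hq _ j hj rfl⟩
  obtain ⟨k, hk, rfl⟩ := mem_pe.1 he
  have h1 := hq _ k hk.le rfl
  have h2 := hq _ (k + 1) hk rfl
  rw [sum_range_succ, ← h1] at h2
  rw [sw]
  rcases hp.jn k hk with ⟨a1, a2⟩ | ⟨a1, a2⟩ <;> rw [a1, a2, h2] <;>
    linear_combination z2_add_self (p (v k)) + z2_add_self (G.n (g k))

theorem Pth.deg (hp : G.Pth S n v g) (hj : j ≤ n) :
    G.deg (pe n g) (v j) = iv (0 < j) + iv (j < n) := by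
  have h1 : ∀ k ∈ range n, G.inc (g k) (v j) =
      (if k = j then 1 else 0) + if k = j - 1 then iv (0 < j) else 0 := by
    intro k hk
    have hk' := mem_range.1 hk
    have a1 : v k = v j ↔ k = j := ⟨hp.inj k hk'.le j hj, congrArg v⟩
    have a2 : v (k + 1) = v j ↔ k + 1 = j := ⟨hp.inj _ hk' j hj, congrArg v⟩
    rw [inc, Pth_iv (hp.jn k hk')]
    simp only [iv, a1, a2]
    split_ifs <;> omega
  rw [SG.deg, Pth_sum hp, sum_congr rfl h1, sum_add_distrib, sum_ite_eq', sum_ite_eq']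
  simp only [iv, mem_range]
  split_ifs <;> omega

theorem Pth.par_rr (hp : G.Pth S n v g) (he : G.Pth S m u h) (hij : i < j) (hj : j ≤ n)
    (h0 : u 0 = v i) (hm : u m = v j)
    (hd : ∀ k, 0 < k → k < m → ∀ l ≤ n, (l ≤ i ∨ j ≤ l) → u k ≠ v l) :
    G.par (pe (i + m + (n - j)) (rrE i j m g h)) =
      G.par (pe n g) + ∑ k ∈ Ico i j, G.n (g k) + G.par (pe m h) := by
  rw [(hp.rr he hij hj h0 hm hd).par, hp.par, he.par, sum_range_add, sum_range_add,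
    ← sum_range_add_sum_Ico _ hj, ← sum_range_add_sum_Ico _ hij.le, sum_Ico_eq_sum_range _ j,
    sum_congr rfl fun k hk => congrArg G.n (Pth_re1 (mem_range.1 hk)),
    sum_congr rfl fun k hk => congrArg G.n
      (show rrE i j m g h (i + k) = h k by
        rw [Pth_re2 (by omega) (by have := mem_range.1 hk; omega), Nat.add_sub_cancel_left]),
    sum_congr rfl fun k hk => congrArg G.n
      (show rrE i j m g h (i + m + k) = g (j + k) by
        rw [Pth_re3 (by omega), Nat.add_sub_cancel_left, add_comm])]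
  linear_combination -z2_add_self (∑ k ∈ Ico i j, G.n (g k))

/-- a walk contains a path -/
theorem Rch.pth (h : G.Rch S a b) (e0 : E) : ∃ n v g, G.Pth S n v g ∧ v 0 = a ∧ v n = b := by
  induction h with
  | refl => exact ⟨0, _, _, pth_zero a fun _ => e0, rfl, rfl⟩
  | @tail b c _ h2 ih =>
    obtain ⟨n, v, g, hp, h0, rfl⟩ := ih
    obtain ⟨e, he, hj⟩ := h2
    by_cases hc : c ∈ pv n v
    · obtain ⟨k, hk, rfl⟩ := mem_pv.1 hc
      exact ⟨k, v, g, Pth_init hp hk, h0, rfl⟩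
    · exact ⟨n + 1, _, _, hp.snoc he hj hc, by simpa using h0, by simp⟩

/-- a path up to the first vertex in `M` -/
theorem Rch.pth_first {M : Finset V} (h : G.Rch S a b) (hb : b ∈ M) (e0 : E) :
    ∃ n v g, G.Pth S n v g ∧ v 0 = a ∧ v n ∈ M ∧ ∀ i < n, v i ∉ M := by
  obtain ⟨n, v, g, hp, h0, rfl⟩ := h.pth e0
  have hex : ∃ k, v k ∈ M := ⟨n, hb⟩
  exact ⟨Nat.find hex, v, g, Pth_init hp (Nat.find_min' hex hb), h0, Nat.find_spec hex,
    fun i hi => Nat.find_min hex hi⟩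

theorem Pth.sub_of_ins {Y : Finset V} (hp : G.Pth (G.ins Y) n v g) (h0 : v 0 ∈ Y) :
    pv n v ⊆ Y := by
  intro x hx
  obtain ⟨k, hk, rfl⟩ := mem_pv.1 hx
  rcases k with _ | k
  · exact h0
  · exact ((Pth_ends (hp.jn k hk)).1 (mem_ins.1 (hp.mem k hk)).2).2

theorem Pth.ins_pv (hp : G.Pth S n v g) (hS : S ⊆ G.A) : G.Pth (G.ins (pv n v)) n v g := by
  exact hp.mono fun _ hi => Pth_ins hp hS hi

theorem Cyc.mono (h : G.Cyc S n v g) (hS : ∀ i ≤ n, g i ∈ S') : G.Cyc S' n v g := by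
  exact ⟨h.pth.mono fun i hi => hS i hi.le, h.pos, hS n le_rfl, h.cj, h.cn⟩

theorem Cyc.einj (hp : G.Cyc S n v g) (hi : i ≤ n) (hj : j ≤ n) (h : g i = g j) : i = j := by
  have key : ∀ k < n, g k ≠ g n := fun k hk e => by
    have h1 := (hp.pth.at_iff hk (Nat.zero_le n)).1 (e ▸ hp.cj.at_iff.2 (Or.inr rfl))
    obtain rfl : k = 0 := by omega
    exact hp.cn e.symm
  rcases hi.eq_or_lt with rfl | hi' <;> rcases hj.eq_or_lt with rfl | hj'
  · rfl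
  · exact absurd h.symm (key j hj')
  · exact absurd h (key i hi')
  · exact hp.pth.einj hi' hj' h

theorem Cyc.cc (hp : G.Cyc S n v g) : G.Cc (pe (n + 1) g) ∧ G.vs (pe (n + 1) g) = pv n v ∧
    pe (n + 1) g ⊆ S ∧ G.par (pe (n + 1) g) = ∑ i ∈ range (n + 1), G.n (g i) ∧
    ∀ j ≤ n, G.deg (pe (n + 1) g) (v j) = 2 := by
  have hn : g n ∉ pe n g := fun k => by
    obtain ⟨l, hl, e⟩ := mem_pe.1 k
    exact hl.ne (hp.einj hl.le le_rfl e)
  have h1 : pe (n + 1) g = insert (g n) (pe n g) := by rw [pe, range_add_one, image_insert]; rfl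
  have h2 : ∀ j ≤ n, G.deg (pe (n + 1) g) (v j) = 2 := by
    intro j hj
    have a1 : v n = v j ↔ n = j := ⟨hp.pth.inj n le_rfl j hj, congrArg v⟩
    have a2 : v 0 = v j ↔ 0 = j := ⟨hp.pth.inj _ (Nat.zero_le _) j hj, congrArg v⟩
    have := hp.pth.deg hj
    have := hp.pos
    rw [h1, SG.deg, sum_insert hn, inc, Pth_iv hp.cj, ← SG.deg, hp.pth.deg hj]
    simp only [iv, a1, a2]
    split_ifs <;> omega
  have h3 : G.vs (pe (n + 1) g) = pv n v := by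
    ext x
    constructor
    · intro hx
      obtain ⟨e, he, hy⟩ := mem_vs.1 hx
      obtain ⟨k, hk, rfl⟩ := mem_pe.1 he
      rcases (Nat.lt_succ_iff.1 hk).eq_or_lt with rfl | hk'
      · rcases hp.cj.at_iff.1 hy with rfl | rfl
        exacts [mem_pv.2 ⟨_, le_rfl, rfl⟩, mem_pv.2 ⟨_, Nat.zero_le _, rfl⟩]
      · rcases (hp.pth.jn k hk').at_iff.1 hy with rfl | rfl
        exacts [mem_pv.2 ⟨_, hk'.le, rfl⟩, mem_pv.2 ⟨_, hk', rfl⟩]
    · intro hx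
      obtain ⟨k, hk, rfl⟩ := mem_pv.1 hx
      exact deg_pos.1 (by rw [h2 k hk]; omega)
  refine ⟨⟨⟨g n, mem_pe.2 ⟨n, by omega, rfl⟩⟩, fun x => ?_, fun a ha b hb => ?_⟩, h3, ?_,
    sum_image fun _ hi _ hj =>
      hp.einj (Nat.lt_succ_iff.1 (mem_range.1 hi)) (Nat.lt_succ_iff.1 (mem_range.1 hj)), h2⟩
  · by_cases hx : x ∈ G.vs (pe (n + 1) g)
    · obtain ⟨k, hk, rfl⟩ := mem_pv.1 (h3 ▸ hx)
      rw [dg_eq_zero, h2 k hk]
      exact even_two
    · exact dg_of_not_mem hx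
  · obtain ⟨k, hk, rfl⟩ := mem_pv.1 (h3 ▸ ha)
    obtain ⟨l, hl, rfl⟩ := mem_pv.1 (h3 ▸ hb)
    exact (hp.pth.rch hk hl).mono (h1 ▸ subset_insert _ _)
  · rw [h1]
    exact insert_subset hp.cm hp.pth.pe_sub

/-- an edge whose ends are joined without it lies on a circuit -/
theorem cyc_of_rch (he : e ∈ S) (hj : G.Je e a b) (hab : a ≠ b) (h : G.Rch (S.erase e) b a) :
    ∃ n v g, G.Cyc S n v g ∧ v 0 = a ∧ g 0 = e := by
  obtain ⟨n, v, g, hp, rfl, rfl⟩ := h.pth e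
  rcases n with _ | n
  · exact absurd rfl hab
  have h1 : G.Pth S n v g :=
    (Pth_init hp n.le_succ).mono fun i hi => mem_of_mem_erase (hp.mem i (by omega))
  have h2 : v (n + 1) ∉ pv n v := fun k => by
    obtain ⟨l, hl, e⟩ := mem_pv.1 k
    have := hp.inj l (by omega) _ le_rfl e
    omega
  have h3 := hp.mem n n.lt_succ_self
  refine ⟨n + 1, _, _, ⟨h1.cons he hj h2, by omega, ?_, ?_, ?_⟩, rfl, rfl⟩
  · simpa using mem_of_mem_erase h3
  · simpa using hp.jn n n.lt_succ_self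
  · simpa using ne_of_mem_erase h3

/-- a path closed by an edge -/
theorem Pth.close (hp : G.Pth S n v g) (hn : 1 ≤ n) (he : e ∈ S) (hj : G.Je e (v n) (v 0))
    (hne : e ≠ g 0) : G.Cyc S n v fun k => if k < n then g k else e := by
  refine ⟨hp.congr (fun _ _ => rfl) fun i hi => if_pos hi, hn, ?_, ?_, ?_⟩
  · simpa using he
  · simpa using hj
  · simpa [show 0 < n from hn] using hne

/-- two paths with common ends form a circuit -/
theorem cyc_of_two (h1 : G.Pth S n v g) (h2 : G.Pth S m u h) (hn : 1 ≤ n) (hm : 1 ≤ m)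
    (h0 : u 0 = v n) (hl : u m = v 0) (hd : ∀ k, 0 < k → k < m → u k ∉ pv n v)
    (hne : h (m - 1) ≠ g 0) : G.Cyc S (n + m - 1) (catV n v u) (catE n g h) := by
  have k1 : catE n g h (n + m - 1) = h (m - 1) := by
    rw [Pth_ceR (by omega)]; exact congrArg h (by omega)
  have k2 := h2.jn (m - 1) (by omega)
  refine ⟨?_, by omega, k1 ▸ h2.mem _ (by omega), ?_, ?_⟩
  · rw [Nat.add_sub_assoc hm]
    refine h1.cat (Pth_init h2 (by omega)) h0.symm fun i hi k hk e => ?_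
    by_contra k0
    exact hd k (by omega) (by omega) (mem_pv.2 ⟨i, hi, e⟩)
  · rw [k1, Pth_catR h0.symm (by omega), Pth_catL (Nat.zero_le _),
      show n + m - 1 - n = m - 1 by omega, ← hl]
    rwa [Nat.sub_add_cancel hm] at k2
  · rwa [k1, Pth_ceL hn]

theorem Pth_cyc (hE : G.Ev S) (hl : G.s e ≠ G.t e) (he : e ∈ S) (ha : G.At e a) :
    ∃ n v g, G.Cyc S n v g ∧ v 0 = a ∧ g 0 = e := by
  obtain ⟨b, hj, hab⟩ : ∃ b, G.Je e a b ∧ a ≠ b := by
    rcases ha with rfl | rfl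
    exacts [⟨_, Or.inl ⟨rfl, rfl⟩, hl⟩, ⟨_, Or.inr ⟨rfl, rfl⟩, hl.symm⟩]
  refine cyc_of_rch he hj hab ?_
  rw [← sdiff_singleton_eq_erase]
  exact (hE.sdiff (od_edge hj) (singleton_subset_iff.2 he)).symm.rch

/-- a loopless edge set with all degrees zero or two is a union of circuits -/
theorem cyc_of_deg (hl : ∀ f ∈ S, G.s f ≠ G.t f) (hd : ∀ x, G.deg S x = 0 ∨ G.deg S x = 2)
    (he : e ∈ S) (ha : G.At e a) : ∃ n v g, G.Cyc S n v g ∧ v 0 = a ∧ g 0 = e ∧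
      ∀ f ∈ S, ∀ i ≤ n, G.At f (v i) → f ∈ pe (n + 1) g := by
  have hE : G.Ev S := fun x => dg_eq_zero.2 (by rcases hd x with k | k <;> simp [k])
  obtain ⟨n, v, g, hp, h0, h1⟩ := Pth_cyc hE (hl e he) he ha
  refine ⟨n, v, g, hp, h0, h1, fun f hf i hi hat => mem_of_deg_le hp.cc.2.2.1 ?_ hf hat⟩
  rw [hp.cc.2.2.2.2 i hi]
  rcases hd (v i) with k | k <;> omega

/-- a circuit in a cubic graph in index form, with prescribed start -/
theorem Cc.cyc (hc : G.Cub) (hA : C ⊆ G.A) (hC : G.Cc C) (hl : ∀ f ∈ C, G.s f ≠ G.t f)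
    (he : e ∈ C) (ha : G.At e a) :
    ∃ n v g, G.Cyc C n v g ∧ v 0 = a ∧ g 0 = e ∧ pe (n + 1) g = C := by
  obtain ⟨n, v, g, hp, h0, h1⟩ := Pth_cyc hC.2.1 (hl e he) he ha
  exact ⟨n, v, g, hp, h0, h1, hC.min hc hA hp.cc.2.2.1 hp.cc.1.2.1 hp.cc.1.1⟩

/-- the edges of a circuit at a vertex, in terms of the entry and exit sequence -/
theorem Cyc.at_iff (hp : G.Cyc S n v g) (hi : i ≤ n) (hj : j ≤ n) :
    G.At (g j) (v i) ↔ g j = es (g n) (g n) n g i ∨ g j = es (g n) (g n) n g (i + 1) := by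
  have h1 : es (g n) (g n) n g i = g (if i = 0 then n else i - 1) := by
    unfold es
    split_ifs <;> rfl
  have h2 : es (g n) (g n) n g (i + 1) = g i := by
    unfold es
    rw [if_neg i.succ_ne_zero]
    split_ifs
    · rfl
    · exact congrArg g (by omega)
  have h3 : ∀ k ≤ n, g j = g k ↔ j = k := fun k hk => ⟨hp.einj hj hk, congrArg g⟩
  have h4 : ∀ k ≤ n, v i = v k ↔ i = k := fun k hk => ⟨hp.pth.inj i hi k hk, congrArg v⟩
  rw [h1, h2, h3 i hi, h3 _ (by split_ifs <;> omega)]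
  rcases hj.eq_or_lt with rfl | hj'
  · rw [hp.cj.at_iff, h4 _ le_rfl, h4 _ (Nat.zero_le _)]
    split_ifs <;> omega
  · rw [hp.pth.at_iff hj' hi]
    split_ifs <;> omega

/-- rotation of a circuit -/
theorem Cyc.rot (hp : G.Cyc S n v g) (hi : i ≤ n) :
    G.Cyc S n (fun k => v ((i + k) % (n + 1))) fun k => g ((i + k) % (n + 1)) := by
  have h1 : ∀ k, k % (n + 1) ≤ n := fun k => Nat.lt_succ_iff.1 (Nat.mod_lt _ n.succ_pos)
  have h2 : ∀ a ≤ n, ∀ b ≤ n, (i + a) % (n + 1) = (i + b) % (n + 1) → a = b :=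
    fun a ha b hb e => (Nat.ModEq.add_left_cancel' i e).eq_of_lt_of_lt (by omega) (by omega)
  have h3 : ∀ k, g (k % (n + 1)) ∈ S ∧
      G.Je (g (k % (n + 1))) (v (k % (n + 1))) (v ((k + 1) % (n + 1))) := by
    intro k
    rw [← Nat.mod_add_mod]
    rcases (h1 k).eq_or_lt with e | e
    · rw [e, Nat.mod_self]; exact ⟨hp.cm, hp.cj⟩
    · rw [Nat.mod_eq_of_lt (Nat.succ_lt_succ e)]; exact ⟨hp.pth.mem _ e, hp.pth.jn _ e⟩
  refine ⟨⟨fun a ha b hb e => h2 a ha b hb (hp.pth.inj _ (h1 _) _ (h1 _) e), fun a _ => (h3 _).1,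
    fun a _ => (h3 _).2⟩, hp.pos, (h3 _).1, ?_, fun e => ?_⟩
  · have := (h3 (i + n)).2
    rwa [add_assoc, Nat.add_mod_right] at this
  · have := h2 n le_rfl 0 (Nat.zero_le _) (hp.einj (h1 _) (h1 _) e)
    have := hp.pos
    omega

/-- an even set contains a two-regular set through each of its edges -/
theorem Ev.two_reg (hE : G.Ev S) (hl : ∀ f ∈ S, G.s f ≠ G.t f) (he : e ∈ S) :
    ∃ Z ⊆ S, e ∈ Z ∧ ∀ x, G.deg Z x = 0 ∨ G.deg Z x = 2 := by
  obtain ⟨n, v, g, hp, -, h1⟩ := Pth_cyc hE (hl e he) he (Or.inl rfl)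
  refine ⟨_, hp.cc.2.2.1, mem_pe.2 ⟨0, by omega, h1⟩, fun x => ?_⟩
  by_cases hx : x ∈ G.vs (pe (n + 1) g)
  · obtain ⟨k, hk, rfl⟩ := mem_pv.1 (hp.cc.2.1 ▸ hx)
    exact Or.inr (hp.cc.2.2.2.2 k hk)
  · exact Or.inl (Nat.eq_zero_of_not_pos fun k => hx (deg_pos.1 k))

/-- the two arcs of a circuit between two of its vertices, as paths -/
theorem Cyc.arcs (hp : G.Cyc S n v g) (hi : i ≤ n) (hj : j ≤ n) (hij : i ≠ j) (ε : ZMod 2)
    (ho : ∑ k ∈ range (n + 1), G.n (g k) = 1) :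
    ∃ m u h, G.Pth S m u h ∧ u 0 = v i ∧ u m = v j ∧ pv m u ⊆ pv n v ∧
      pe m h ⊆ pe (n + 1) g ∧ G.par (pe m h) = ε := by
  have flip : ∀ {a b : V}, (∃ m u h, G.Pth S m u h ∧ u 0 = a ∧ u m = b ∧ pv m u ⊆ pv n v ∧
      pe m h ⊆ pe (n + 1) g ∧ G.par (pe m h) = ε) → ∃ m u h, G.Pth S m u h ∧ u 0 = b ∧ u m = a ∧
      pv m u ⊆ pv n v ∧ pe m h ⊆ pe (n + 1) g ∧ G.par (pe m h) = ε := by
    rintro a b ⟨m, u, h, h1, h2, h3, h4⟩
    refine ⟨m, _, _, h1.rev, h3, by simpa using h2, ?_⟩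
    rwa [pv_rev, pe_rev]
  wlog hlt : i < j generalizing i j
  · exact flip (this hj hi hij.symm (by omega))
  have h1 : ∀ k, k % (n + 1) ≤ n := fun k => Nat.lt_succ_iff.1 (Nat.mod_lt _ n.succ_pos)
  have pA := hp.pth.sub (i := i) (m := j - i) (by omega)
  have pB := Pth_init (hp.rot hj).pth (m := n + 1 - j + i) (by omega)
  have hs : G.par (pe (j - i) fun k => g (i + k)) +
      G.par (pe (n + 1 - j + i) fun k => g ((j + k) % (n + 1))) = 1 := by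
    rw [pA.par, pB.par, ← ho, sum_range_add, ← sum_range_add_sum_Ico _ (hj.trans n.le_succ),
      ← sum_range_add_sum_Ico _ hlt.le, sum_Ico_eq_sum_range, sum_Ico_eq_sum_range,
      sum_congr rfl fun k hk => congrArg (fun l => G.n (g l))
        (show (j + k) % (n + 1) = j + k from
          Nat.mod_eq_of_lt (by have := mem_range.1 hk; omega)),
      sum_congr rfl fun k hk => congrArg (fun l => G.n (g l))
        (show (j + (n + 1 - j + k)) % (n + 1) = k by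
          have := mem_range.1 hk
          rw [show j + (n + 1 - j + k) = k + (n + 1) by omega, Nat.add_mod_right,
            Nat.mod_eq_of_lt (by omega)])]
    ring
  by_cases k : G.par (pe (j - i) fun k => g (i + k)) = ε
  · refine ⟨_, _, _, pA, rfl, congrArg v (by omega), fun x hx => ?_, fun x hx => ?_, k⟩
    · obtain ⟨l, hl, rfl⟩ := mem_pv.1 hx
      exact mem_pv.2 ⟨_, by omega, rfl⟩
    · obtain ⟨l, hl, rfl⟩ := mem_pe.1 hx
      exact mem_pe.2 ⟨_, by omega, rfl⟩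
  · refine flip ⟨_, _, _, pB, congrArg v (Nat.mod_eq_of_lt (by omega)), congrArg v ?_,
      fun x hx => ?_, fun x hx => ?_, ?_⟩
    · rw [show j + (n + 1 - j + i) = i + (n + 1) by omega, Nat.add_mod_right,
        Nat.mod_eq_of_lt (by omega)]
    · obtain ⟨l, hl, rfl⟩ := mem_pv.1 hx
      exact mem_pv.2 ⟨_, h1 _, rfl⟩
    · obtain ⟨l, hl, rfl⟩ := mem_pe.1 hx
      exact mem_pe.2 ⟨_, Nat.lt_succ_of_le (h1 _), rfl⟩
    · exact (by decide : ∀ x y z : ZMod 2, x + y = 1 → ¬ x = z → y = z) _ _ _ hs k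

theorem mem_avo {M : Finset V} : e ∈ G.avo S M ↔ e ∈ S ∧ G.s e ∉ M ∧ G.t e ∉ M := by
  exact mem_filter

theorem mem_cmp {Y : Finset V} : x ∈ G.cmp Y a ↔ x ∈ Y ∧ G.Rch (G.ins Y) a x := by
  classical
  unfold cmp
  exact mem_filter

/-- components are closed and connected -/
theorem cmp_spec {Y : Finset V} (ha : a ∈ Y) : a ∈ G.cmp Y a ∧ G.cmp Y a ⊆ Y ∧
    G.crs (G.ins Y) (G.cmp Y a) = ∅ ∧ G.Cn (G.cmp Y a) (G.ins (G.cmp Y a)) := by
  have h1 : ∀ e ∈ G.ins Y, (G.s e ∈ G.cmp Y a ↔ G.t e ∈ G.cmp Y a) := fun e he => by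
    rw [mem_cmp, mem_cmp]
    exact ⟨fun k => ⟨(mem_ins.1 he).2.2, k.2.trans (rch_edge he)⟩,
      fun k => ⟨(mem_ins.1 he).2.1, k.2.trans (rch_edge he).symm⟩⟩
  refine ⟨mem_cmp.2 ⟨ha, Rch.refl _ _⟩, fun x hx => (mem_cmp.1 hx).1,
    filter_eq_empty_iff.2 fun e he => not_not.2 (h1 e he), cn_of_base (a := a) fun x hx => ?_⟩
  have h2 := (mem_cmp.1 hx).2
  clear hx
  induction h2 with
  | refl => exact Rch.refl _ _
  | tail h3 h4 ih =>
    obtain ⟨e, he, hj⟩ := h4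
    have h5 := (Pth_ends hj).1 (mem_ins.1 he).2
    exact ih.tail ⟨e, mem_ins.2 ⟨(mem_ins.1 he).1, (Pth_ends hj).2
      ⟨mem_cmp.2 ⟨h5.1, h3⟩, mem_cmp.2 ⟨h5.2, h3.tail ⟨e, he, hj⟩⟩⟩⟩, hj⟩

theorem cmp_min {Y X : Finset V} (ha : a ∈ X) (h : G.crs (G.ins Y) X = ∅) : G.cmp Y a ⊆ X := by
  exact fun x hx => (mem_cmp.1 hx).2.closed (P := (· ∈ X))
    (fun e he => not_not.1 (filter_eq_empty_iff.1 h he)) ha

/-- a connected set that meets a closed set lies inside it -/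
theorem Cn.sub_of_crs {U X : Finset V} (h : G.Cn U S) (hX : G.crs S X = ∅) (ha : a ∈ U)
    (ha' : a ∈ X) : U ⊆ X := by
  exact fun x hx => (h a ha x hx).closed (P := (· ∈ X))
    (fun e he => not_not.1 (filter_eq_empty_iff.1 hX he)) ha'

end SG

end Pool.Agent.Work.MP_8c679b_co
end

-- merged part: Pool.Agent.Work.MP_8c679b_co.Six.Defs2
section
/-!
Bundles of the results of the killing layer.
-/

set_option autoImplicit false

namespace Pool.Agent.Work.MP_8c679b_co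

open Finset

namespace SG

variable {V E : Type} [Fintype V] [DecidableEq V] [DecidableEq E] {G : SG V E}

variable (G) in
/-- all results of the killing layer for the subsets of `T` -/
def KB (T : Finset V) : Prop :=
  ∀ S ⊆ T, G.BP S ∧ G.HDp S ∧ G.DBp S ∧ G.ABp S ∧ G.PSN S ∧ G.TLp S ∧ G.CS S ∧ (G.US S → G.PS S)

variable (G) in
/-- good passes of all unbalanced sides inside `T` -/
def RPA (T : Finset V) : Prop := ∀ S ⊆ T, G.US S → G.RP S

end SG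

end Pool.Agent.Work.MP_8c679b_co
end

-- merged part: Pool.Agent.Work.MP_8c679b_co.Key.Defs
section
/-!
Definitions for the two-line theorem (`thmM`): a region with four leaving edges in two pairs and
one more leaving edge.  See `README.md` in this folder.
-/

set_option autoImplicit false

namespace Pool.Agent.Work.MP_8c679b_co

open Finset

/-- relations between four residues -/
abbrev Rf : Type := ZMod 3 → ZMod 3 → ZMod 3 → ZMod 3 → Prop

/-- meets every line of slope `l` -/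
def Rl.Mt (l : ZMod 2) (R : Rl) : Prop := ∀ k, ∃ x y, R x y ∧ x + chi l * y = k

namespace Rf

/-- meets every pair of lines with slopes `l` and `t` -/
def L2 (l t : ZMod 2) (R : Rf) : Prop :=
  ∀ k k', ∃ x y u w, R x y u w ∧ x + chi l * y = k ∧ u + chi t * w = k'

/-- contains a product of two permutations of total sign `σ` -/
def PP (σ : ZMod 2) (R : Rf) : Prop :=
  ∃ σ1 σ2 c1 c2, σ1 + σ2 = σ ∧
    ((∀ x y u w, x + chi σ1 * u = c1 → y + chi σ2 * w = c2 → R x y u w) ∨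
      ∀ x y u w, x + chi σ1 * w = c1 → y + chi σ2 * u = c2 → R x y u w)

/-- composition along two links -/
def cp (τ τ' : ZMod 2) (R R' : Rf) : Rf :=
  fun x y u w => ∃ r s, R x y r s ∧ R' (-(chi τ) * r) (-(chi τ') * s) u w

/-- closing the second pair by a relation -/
def cl (τ τ' : ZMod 2) (R : Rf) (R' : Rl) : Rl :=
  fun x y => ∃ r s, R x y r s ∧ R' (-(chi τ) * r) (-(chi τ') * s)

end Rf

/-- the relations of two tracks close up: one ring (`ty = true`) or two rings -/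
def CL (ty : Bool) (l t : ZMod 2) (R : Bool → Rl) : Prop :=
  if ty then ∀ k k', ∃ x y u w, R false x u ∧ R true y w ∧ x + chi l * y = k ∧ u + chi t * w = k'
  else (R false).Mt l ∧ (R true).Mt t

/-- the inner terms of a sequence of sets -/
def inn {V : Type} [DecidableEq V] (m : ℕ) (u : ℕ → Finset V) : Finset V := (Ioo 0 m).biUnion u

/-- changing the sign of one node -/
def fl {V : Type} [DecidableEq V] (σ : Finset V → ZMod 2) (N : Finset V) : Finset V → ZMod 2 :=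
  Function.update σ N (σ N + 1)

/-- no label strictly between two positions -/
def ACo {α : Type} (At : Bool → ℕ → α → Prop) (i : Bool) (x y : ℕ) : Prop :=
  x < y ∧ ∀ k, x < k → k < y → ∀ a, ¬ At i k a

/-- neighbouring positions with different labels -/
def AGp {α : Type} (At : Bool → ℕ → α → Prop) (i : Bool) (x y : ℕ) : Prop :=
  ACo At i x y ∧ ∃ a b, a ≠ b ∧ At i x a ∧ At i y b

/-- the label `a` has exactly the position `x` on track `i` -/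
def ASi {α : Type} (At : Bool → ℕ → α → Prop) (i : Bool) (x : ℕ) (a : α) : Prop :=
  At i x a ∧ ∀ y, At i y a → y = x

/-- track `i` reads `c a c`, and `c` has no further position on it -/
def AAb {α : Type} (At : Bool → ℕ → α → Prop) (i : Bool) (x1 x x3 : ℕ) (c a : α) : Prop :=
  AGp At i x1 x ∧ AGp At i x x3 ∧ At i x1 c ∧ At i x3 c ∧ ASi At i x a ∧
    ∀ y, At i y c → y = x1 ∨ y = x3

/-- `a` is single on track `i` and has a partner that is not on the other track -/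
def ASh {α : Type} (At : Bool → ℕ → α → Prop) (i : Bool) (x : ℕ) (a : α) : Prop :=
  ASi At i x a ∧ (∃ u w, AGp At i u w) ∧ ∃ c, c ≠ a ∧ (∀ y, ¬ At (!i) y c) ∧
    ((∃ y, ASi At i y c) ∨ ∃ x1 x3, AAb At i x1 x x3 c a)

namespace SG

variable {V E : Type} [Fintype V] [DecidableEq V] [DecidableEq E] (G : SG V E)

/-! ### double passes -/

/-- passing `X` with a relation between the outflows on four edges -/
def Pq (X : Finset V) (O Fr : Finset E) (K : Set (Finset E)) (a b c d : E) (C : Rf → Prop) : Prop :=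
  Fr ⊆ G.tch X ∧ ∀ ψ, G.Pre X O Fr ψ → ∃ R, C R ∧ ∀ x y u w, R x y u w →
    ∃ φ, G.Re X O Fr K ψ φ ∧ G.out X φ a = x ∧ G.out X φ b = y ∧ G.out X φ c = u ∧ G.out X φ d = w

/-- the standard double pass with live edges `L` -/
def Dq (X : Finset V) (O L : Finset E) (K : Set (Finset E)) (a b c d : E) (C : Rf → Prop) : Prop :=
  (a ≠ b ∧ a ≠ c ∧ a ≠ d ∧ b ≠ c ∧ b ≠ d ∧ c ≠ d) ∧ G.St X O {a, b, c, d} ∧
    G.Pq X O (G.fr X ({a, b, c, d} ∪ L)) K a b c d C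

/-- the cuts of the unbalanced sides inside `X` that avoid `v` -/
def Kv (X : Finset V) (v : V) : Set (Finset E) := {t | ∃ S ⊆ X, G.US S ∧ v ∉ S ∧ t = G.cut S}

/-- the targets of a pass with tolerance `v` -/
def Kpv (S X : Finset V) (c d : E) (v : V) : Set (Finset E) :=
  {t | t ∈ G.Kv S v ∧ (X = S ∨ c ∉ t ∨ d ∉ t)}

/-- a double pass of parity `ε` that meets all pairs of lines -/
def Wk (X : Finset V) (a b c d : E) (l t ε : ZMod 2) (K : Set (Finset E)) : Prop :=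
  ∃ O, G.par (O ∩ G.ins X) = ε ∧ G.Dq X O ∅ K a b c d (Rf.L2 l t)

/-- the same with tolerance one vertex -/
def Win (X : Finset V) (a b c d : E) (l t ε : ZMod 2) : Prop :=
  ∃ v ∈ X, G.Wk X a b c d l t ε (G.Kv X v)

/-- double passes of the natural parity -/
def DP (S : Finset V) (a b c d : E) : Prop := ∀ l, ∃ t, G.Win S a b c d l t (1 + l + t)

/-- the same for a part `X` of `N`; the tolerance vertex lies in all sides of `N` not inside `X` -/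
def DPn (N X : Finset V) (a b x y : E) : Prop :=
  ∀ l, ∃ t, ∃ v ∈ X, (∀ S ⊆ N, G.US S → v ∉ S → S ⊆ X) ∧ G.Wk X a b x y l t (1 + l + t) (G.Kv X v)

/-- a complete pass of sign and parity `s` -/
def Rc (S : Finset V) (a b : E) (s : ZMod 2) : Prop :=
  ∃ O, G.par (O ∩ G.ins S) = s ∧ G.Pas0 S O a b ∅ (G.Kus S) (Rl.P s)

/-- complete real passes, or both parities with tolerance -/
def ER (S : Finset V) (a b : E) : Prop :=
  ∀ s, G.Rc S a b s ∨ ∀ ε, ∃ O, ∃ v ∈ S, G.par (O ∩ G.ins S) = ε ∧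
    G.Pas0 S O a b ∅ (G.Kv S v) (Rl.Mt (s + 1))

/-- the two statements proved by induction -/
def IHd (N : Finset V) : Prop :=
  ∀ S ⊆ N, G.US S → ∀ a b c d, G.Q4 S a b c d → G.NC S a b → G.ER S a b ∧ G.DP S a b c d

/-! ### packages of a node -/

/-- a pass of `N` on the set `X` with sign `s` and parity `π` -/
def Qr (N X : Finset V) (a b c d : E) (s π : ZMod 2) : Prop :=
  ∃ O, G.par (O ∩ G.ins X) = π ∧ G.Pas0 X O a b ∅ (G.Kp N X c d) (Rl.P s)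

/-- a pass with tolerance that closes as a pass of sign `s` does -/
def Tp (N X : Finset V) (a b c d : E) (s π : ZMod 2) : Prop :=
  ∃ O, ∃ v ∈ N, G.par (O ∩ G.ins X) = π ∧ G.Pas0 X O a b ∅ (G.Kpv N X c d v) (Rl.Mt (s + 1))

/-- first local win: both parities on one set -/
def Lw1 (N : Finset V) (a b c d : E) (s : ZMod 2) : Prop :=
  ∃ X, G.Rg N X c d ∧ ∀ ε, G.Tp N X a b c d s ε

/-- second local win: a real pass of a split with an unbalanced tail -/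
def Lw2 (N : Finset V) (a b c d : E) (s : ZMod 2) : Prop :=
  ∃ X, G.Sp N a b X ∧ ¬ G.Bal (G.ins (N \ X)) ∧ G.Rc X a b s ∧
    ((N \ X).card = 4 → ∃ X', G.Rg N X' c d ∧ X ⊂ X' ∧ G.Tp N X' a b c d s s)

/-- the good case: a real pass and double passes -/
def Gud (N : Finset V) (a b c d : E) (X : Finset V) (s : ZMod 2) : Prop :=
  G.Qr N X a b c d s s ∧ G.DP N a b c d ∧ (X ≠ N → ∀ x y, G.Q4 X a b x y → G.DPn N X a b x y)

/-- the package of a node `N` entered by `a` and left by `b`; `X s` carries the pass of sign `s` -/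
structure Pk (N : Finset V) (a b c d : E) (X : ZMod 2 → Finset V) : Prop where
  rg : ∀ s, G.Rg N (X s) c d
  qr : ∀ s, ∃ π, G.Qr N (X s) a b c d s π
  four : N.card = 4 → (∀ s, G.Qr N (X s) a b c d s s) ∧ ∃ s, X s = N
  alt : ∀ s, G.Gud N a b c d (X s) s ∨ G.Lw1 N a b c d s ∨ G.Lw2 N a b c d s
  both : X 0 = X 1 → X 0 ≠ N → (∃ O, G.Pas0 (X 0) O a b ∅ (G.Kp N (X 0) c d) Rl.Gd) ∨
    (∀ s, G.Tp N N a b c d s s) ∨ ∃ s, G.Lw1 N a b c d s ∨ G.Lw2 N a b c d s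

/-- the head of `S` for the pair `a, b`: `X1` is the first unbalanced initial part, `X0` the
balanced part before its last piece -/
structure Hd (S : Finset V) (a b : E) (X0 X1 : Finset V) : Prop where
  sp : X1 = S ∨ G.Sp S a b X1
  us : G.US X1
  pc : (X0 = ∅ ∧ G.NC X1 a b) ∨ (G.Sp X1 a b X0 ∧ G.Bal (G.ins X0) ∧
    ∀ x y, G.Q4 X0 a b x y → G.NC (X1 \ X0) x y)
  min : ∀ X, G.Sp S a b X → ¬ G.Bal (G.ins X) → X1 ⊆ X

/-- the sign `s` is available on the head: it is not the short sign of two balanced parts -/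
def Hs (a b : E) (X0 X1 : Finset V) (s : ZMod 2) : Prop :=
  X0 ≠ ∅ → G.Bal (G.ins (X1 \ X0)) → ∀ p : V → ZMod 2, (∀ e ∈ G.ins X0, G.sw p e = 0) →
    s = p (G.ie X0 a) + p (G.ie X0 b) + 1

/-- bookkeeping for one box `B`, the absorbed set `X`, the targets `K` and the tolerance `v` -/
def BK1 (B X : Finset V) (K : Set (Finset E)) (v : V) : Prop :=
  Disjoint B X ∨
    (∃ a b c d, G.Q4 B a b c d ∧ G.Rg B (B ∩ X) c d ∧
      ∀ t ∈ G.Kpv B (B ∩ X) c d v, ∃ t' ∈ K, t' ⊆ t) ∨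
    ∀ S ⊆ B, G.US S → v ∉ S → Disjoint S X ∨ ∃ t' ∈ K, t' ⊆ G.cut S

/-- the edges `e` at `N` and `f` at `N'` are equal or joined through the connected set `U` -/
def Lkn (U N : Finset V) (e : E) (N' : Finset V) (f : E) : Prop :=
  e ∈ G.cut N ∧ f ∈ G.cut N' ∧ G.Cn U (G.ins U) ∧ (e = f ∨ (G.oe N e ∈ U ∧ G.oe N' f ∈ U))

/-! ### odd circuits, labels -/

open Classical in
/-- the odd circuits inside `W` -/
noncomputable def ocs (W : Finset V) : Finset (Finset E) :=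
  (G.ins W).powerset.filter fun C => G.Cc C ∧ G.par C = 1

open Classical in
/-- the part of `W` that hangs at the vertex `q` of the circuit `Q` -/
noncomputable def lb (W : Finset V) (Q : Finset E) (q : V) : Finset V :=
  W.filter fun v => G.Rch (G.ins W \ Q) q v

/-- the circuit `Q` with all parts except the one at the root `q0` -/
noncomputable def clu (W : Finset V) (Q : Finset E) (q0 : V) : Finset V :=
  insert q0 (((G.vs Q).erase q0).biUnion (G.lb W Q))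

end SG

/-! ### frames and members -/

/-- A frame: the region `Y`, its boxes, the ends `p i, q i` of two tracks, the further leaving
edge `z`, a default tolerance vertex, the type (`true`: one ring with the lines on the pairs
`p, p` and `q, q`; `false`: two rings with the lines on `p i, q i`), the flag `f` (the second slope
is free), the slopes, and the sets that carry the passes of the boxes. -/
structure Kf (V E : Type) where
  Y : Finset V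
  Bs : Finset (Finset V)
  p : Bool → E
  q : Bool → E
  z : E
  v0 : V
  ty : Bool
  f : Bool
  lam : Bool → ZMod 2
  xf : Finset V → E → E → ZMod 2 → Finset V

/-- two tracks -/
structure Mb (V E : Type) where
  n : Bool → ℕ
  w : Bool → ℕ → Finset V
  g : Bool → ℕ → E

namespace Mb

variable {V E : Type} [DecidableEq V] (M : Mb V E)

/-- the vertices of a track -/
def vt (i : Bool) : Finset V := bu (M.n i) (M.w i)

/-- the vertices strictly between two positions -/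
def gap (i : Bool) (x y : ℕ) : Finset V := (Ioo x y).biUnion (M.w i)

/-- replacing the segment from `x` to `y` of track `i` by an ear -/
def rr (i : Bool) (x y m : ℕ) (u : ℕ → Finset V) (h : ℕ → E) : Mb V E where
  n := Function.update M.n i (x + m + (M.n i - y))
  w := Function.update M.w i (rrV x y m (M.w i) u)
  g := Function.update M.g i (rrE x y m (M.g i) h)

end Mb

namespace Kf

variable {V E : Type} [Fintype V] [DecidableEq V] [DecidableEq E] (F : Kf V E) (G : SG V E)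

/-- the four ends -/
def J : Finset E := {F.p false, F.q false, F.p true, F.q true}

/-- the quotient graph -/
def Γ : SG (Finset V) E := G.quo F.Y F.Bs

/-- the weak conditions on a frame -/
structure Wf : Prop where
  pd : PD F.Bs
  sub : ∀ B ∈ F.Bs, B ⊆ F.Y ∧ B.Nonempty
  pc : ∀ i, F.p i ∈ G.cut F.Y
  qc : ∀ i, F.q i ∈ G.cut F.Y
  pq : ∀ i j, F.p i ≠ F.q j
  pp : F.p false ≠ F.p true
  qq : F.q false ≠ F.q true

/-- the conditions on a frame -/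
structure Ok (T : Finset V) : Prop where
  hc : G.Cub
  hT : G.HT T
  hY : F.Y ⊆ T
  wf : F.Wf G
  ct : ∀ e ∈ G.cut F.Y, e ∈ F.J ∨ e = F.z
  bx : ∀ B ∈ F.Bs, G.US B ∧ G.cut B ⊆ G.ins F.Y ∪ F.J
  v0 : F.v0 ∈ F.Y
  cov : ∀ S ⊆ F.Y, G.US S → (∃ B ∈ F.Bs, S ⊆ B) ∨ (F.v0 ∈ S ∧ ∀ B ∈ F.Bs, B ⊆ S) ∨
    ∃ e ∈ G.cut S, e ∈ G.cut F.Y ∧ e ∉ F.J
  r2 : ∀ B ∈ F.Bs, ∀ B' ∈ F.Bs, B ≠ B' → (G.cut (B ∪ B')).card ≠ 4
  pk : ∀ N ∈ F.Bs, ∀ a b c d, G.Q4 N a b c d → G.Pk N a b c d (F.xf N a b)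
  fr : F.f = true → F.ty = true

/-- the double pass of `X` with the pairs of the frame -/
def WkF (X : Finset V) (t ε : ZMod 2) (K : Set (Finset E)) : Prop :=
  if F.ty then G.Wk X (F.p false) (F.p true) (F.q false) (F.q true) (F.lam false) t ε K
  else G.Wk X (F.p false) (F.q false) (F.p true) (F.q true) (F.lam false) t ε K

/-- the total parity `g` is possible with one tolerance vertex -/
def WinN (g : ZMod 2) : Prop :=
  ∃ t, (F.f = true ∨ t = F.lam true) ∧ ∃ v ∈ F.Y, F.WkF G F.Y t (g + F.lam false + t) (G.Kv F.Y v)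

/-- the natural parity -/
def nat : ZMod 2 := if F.ty then 1 else 0

/-- the tracks `i` and `j` lie on one ring -/
def Sg (i j : Bool) : Prop := F.ty = true ∨ i = j

/-- sets that contain the node of each of their vertices -/
def Sa (U : Finset V) : Prop := ∀ v ∈ U, nd F.Bs v ⊆ U

variable (M : Mb V E)

/-- members: two disjoint paths in the quotient -/
structure IsM : Prop where
  pth : ∀ i, (F.Γ G).Pth (F.Γ G).A (M.n i) (M.w i) (M.g i)
  fst : ∀ i, M.w i 0 = nd F.Bs (G.ie F.Y (F.p i))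
  lst : ∀ i, M.w i (M.n i) = nd F.Bs (G.ie F.Y (F.q i))
  dj : ∀ k ≤ M.n false, ∀ l ≤ M.n true, M.w false k ≠ M.w true l

/-- the edges of a track: position `k` is entered by `e k` and left by `e (k + 1)` -/
def e (i : Bool) (k : ℕ) : E := es (F.p i) (F.q i) (M.n i) (M.g i) k

/-- the rest -/
def rest : Finset V := F.Y \ (M.vt false ∪ M.vt true)

/-- position `k` of track `i` is a box -/
def Nd (i : Bool) (k : ℕ) : Prop := k ≤ M.n i ∧ M.w i k ∈ F.Bs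

/-- the node `N` is passed on track `i` from `a` to `b` -/
def Ps (i : Bool) (N : Finset V) (a b : E) : Prop :=
  ∃ k ≤ M.n i, M.w i k = N ∧ F.e M i k = a ∧ F.e M i (k + 1) = b

/-- both signs live on the same set -/
def Aj (i : Bool) (k : ℕ) : Prop :=
  F.Nd M i k ∧ F.xf (M.w i k) (F.e M i k) (F.e M i (k + 1)) 0 =
    F.xf (M.w i k) (F.e M i k) (F.e M i (k + 1)) 1

/-- an ear from position `x` to position `y` of track `i` through the rest -/
structure Ear (i : Bool) (x y m : ℕ) (u : ℕ → Finset V) (h : ℕ → E) : Prop where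
  lt : x < y
  le : y ≤ M.n i
  pth : (F.Γ G).Pth (F.Γ G).A m u h
  fst : u 0 = M.w i x
  lst : u m = M.w i y
  sub : inn m u ⊆ F.rest M

/-- a bead between the positions `x` and `y`: an ear through `Z` that closes an odd circuit with
the segment from `α` to `β` -/
structure Bd (i : Bool) (x y : ℕ) (Z : Finset V) (α β m : ℕ) (u : ℕ → Finset V) (h : ℕ → E) :
    Prop where
  lo : x < α
  hi : β < y
  ear : F.Ear G M i α β m u h
  sub : inn m u ⊆ Z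
  r1 : ∀ k, α ≤ k → k ≤ β → M.w i k ∉ F.Bs
  r2 : ∀ k ≤ m, u k ∉ F.Bs
  sgn : G.par (pe m h) = ∑ k ∈ Ico α β, G.n (M.g i k) + 1
  cyc : ∃ D ∈ G.ocs (Z ∪ M.gap i x y), G.vs D = inn m u ∪ M.gap i α β ∪ (M.w i α ∪ M.w i β)

/-- the sign of the links of a track -/
def sl (i : Bool) : ZMod 2 := ∑ k ∈ range (M.n i), G.n (M.g i k)

/-- the sign of the links of the ring that contains track `i` -/
def gs (i : Bool) : ZMod 2 := if F.ty then sl G M false + sl G M true else sl G M i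

variable (σ : Finset V → ZMod 2)

/-- the absorbed part of a position -/
def xs (i : Bool) (k : ℕ) : Finset V :=
  if M.w i k ∈ F.Bs then F.xf (M.w i k) (F.e M i k) (F.e M i (k + 1)) (σ (M.w i k)) else M.w i k

/-- the absorbed part of a track -/
def xt (i : Bool) : Finset V := bu (M.n i) (F.xs M σ i)

/-- the absorbed part of a track without the nodes in `Z` -/
def xo (i : Bool) (Z : Finset (Finset V)) : Finset V :=
  ((range (M.n i + 1)).filter fun k => M.w i k ∉ Z).biUnion (F.xs M σ i)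

/-- the rest together with the rungs that are left over -/
def W0 : Finset V := F.Y \ (F.xt M σ false ∪ F.xt M σ true)

/-- a rung is left over at position `k` -/
def Lf (i : Bool) (k : ℕ) : Prop := k ≤ M.n i ∧ F.xs M σ i k ≠ M.w i k

/-- the rungs left over on the other ring -/
def lo (i : Bool) : Finset V := if F.ty then ∅ else M.vt (!i) \ F.xt M σ (!i)

/-- the number of vertices left over -/
def lc : ℕ := (F.W0 M σ \ F.rest M).card

/-- the targets hit by the passes of the boxes of a track that are not in `Z` -/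
def ko (i : Bool) (Z : Finset (Finset V)) : Set (Finset E) :=
  {t | ∃ k, F.Nd M i k ∧ M.w i k ∉ Z ∧ ∃ c d, G.Q4 (M.w i k) (F.e M i k) (F.e M i (k + 1)) c d ∧
    t ∈ G.Kp (M.w i k) (F.xs M σ i k) c d}

/-- the sign of a track without the nodes in `Z` -/
def tz (i : Bool) (Z : Finset (Finset V)) : ZMod 2 :=
  sl G M i + ∑ k ∈ range (M.n i + 1), if M.w i k ∈ F.Bs ∧ M.w i k ∉ Z then σ (M.w i k) else 0

/-- the sign of a track -/
def ts (i : Bool) : ZMod 2 := F.tz G M σ i ∅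

/-- the signs `σ` close the member -/
def Cls : Prop :=
  if F.ty then F.f = true ∨ F.ts G M σ false + F.ts G M σ true = 1 + F.lam false + F.lam true
  else ∀ i, F.ts G M σ i = F.lam i + 1

/-- the ring that does not contain track `i` is closed -/
def Oc (i : Bool) : Prop := F.ty = false → F.ts G M σ (!i) = F.lam (!i) + 1

/-- closing signs with fewest rungs left over -/
def Mn : Prop := F.Cls G M σ ∧ ∀ σ', F.Cls G M σ' → F.lc M σ ≤ F.lc M σ'

/-- the boxes of track `i` outside `Z` have passes of sign `σ` and parity `π` -/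
def QS (π : Finset V → ZMod 2) (i : Bool) (Z : Finset (Finset V)) : Prop :=
  ∀ k, F.Nd M i k → M.w i k ∉ Z → ∀ c d, G.Q4 (M.w i k) (F.e M i k) (F.e M i (k + 1)) c d →
    G.Qr (M.w i k) (F.xs M σ i k) (F.e M i k) (F.e M i (k + 1)) c d (σ (M.w i k)) (π (M.w i k))

/-- closable members -/
def Cb : Prop := ∃ σ, F.Cls G M σ

/-- a box with both signs on one set and a good pass of parity `π` on this set -/
def GN (N : Finset V) (a b : E) (π : ZMod 2) : Prop :=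
  N ∈ F.Bs ∧ F.xf N a b 0 = F.xf N a b 1 ∧ ∃ c d O, G.Q4 N a b c d ∧
    G.par (O ∩ G.ins (F.xf N a b 0)) = π ∧
    G.Pas0 (F.xf N a b 0) O a b ∅ (G.Kp N (F.xf N a b 0) c d) Rl.Gd

/-- the node `N` lies between the vertices `N1, N3` of track `i`, outside them there is no box,
and the links outside have the sign `s` -/
def Jt (i : Bool) (N1 N N3 : Finset V) (a b : E) (s : ZMod 2) : Prop :=
  ∃ x1 x x3, x1 < x ∧ x < x3 ∧ x3 ≤ M.n i ∧ M.w i x1 = N1 ∧ M.w i x = N ∧ M.w i x3 = N3 ∧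
    F.e M i x = a ∧ F.e M i (x + 1) = b ∧ (∀ k ≤ M.n i, (k ≤ x1 ∨ x3 ≤ k) → M.w i k ∉ F.Bs) ∧
    ∑ k ∈ range x1, G.n (M.g i k) + ∑ k ∈ Ico x3 (M.n i), G.n (M.g i k) = s

/-- two rungs left over on one ring belong to nodes with both signs on one set -/
def Tl : Prop :=
  ∀ i k j l, F.Sg i j → F.Lf M σ i k → F.Lf M σ j l → ¬ (j = i ∧ l = k) → F.Aj M i k

/-- no odd circuit passes a rung that is left over -/
def Reg : Prop := G.ocs (F.W0 M σ) = G.ocs (F.rest M)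

/-! ### configurations -/

variable (Q : Finset E) (q0 : V)

/-- a configuration: a closed member, an odd circuit in the rest and a root -/
structure Cf : Prop where
  isM : F.IsM G M
  cls : F.Cls G M σ
  odd : Q ∈ G.ocs (F.rest M)
  root : q0 ∈ G.vs Q
  dead : ∀ q ∈ G.vs Q, q ≠ q0 → Disjoint (G.cut F.Y) (G.tch (G.lb (F.rest M) Q q))

/-- minimal configurations -/
structure MC : Prop where
  cf : F.Cf G M σ Q q0
  mx : ∀ M', F.IsM G M' → F.Cb G M' → (G.ocs (F.rest M')).card ≤ (G.ocs (F.rest M)).card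
  m1 : ∀ M' σ' Q' q', F.Cf G M' σ' Q' q' → (G.ocs (F.rest M')).card = (G.ocs (F.rest M)).card →
    (G.clu (F.rest M) Q q0).card ≤ (G.clu (F.rest M') Q' q').card
  m2 : ∀ M' σ' Q' q', F.Cf G M' σ' Q' q' → (G.ocs (F.rest M')).card = (G.ocs (F.rest M)).card →
    (G.clu (F.rest M') Q' q').card = (G.clu (F.rest M) Q q0).card → F.lc M σ ≤ F.lc M' σ'

/-- the rest without the cluster -/
noncomputable def y0 : Finset V := F.rest M \ G.clu (F.rest M) Q q0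

/-- the label `a` is attached at position `x` of track `i` -/
def At (i : Bool) (x : ℕ) (a : V) : Prop :=
  a ∈ G.vs Q ∧ a ≠ q0 ∧ x ≤ M.n i ∧ ∃ e ∈ G.cut (G.lb (F.rest M) Q a), e ∈ G.cut (M.w i x)

/-- no label is attached strictly between `x` and `y` -/
def Co (i : Bool) (x y : ℕ) : Prop := x < y ∧ ∀ k, x < k → k < y → ∀ a, ¬ F.At G M Q q0 i k a

/-- a gap between two different labels -/
def Gp (i : Bool) (x y : ℕ) : Prop :=
  F.Co G M Q q0 i x y ∧ ∃ a b, a ≠ b ∧ F.At G M Q q0 i x a ∧ F.At G M Q q0 i y b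

/-- the label `a` is tied to a rung left over on the other ring -/
def Ti (i : Bool) (a : V) : Prop :=
  F.ty = false ∧ ∃ x, F.At G M Q q0 (!i) x a ∧ F.Lf M σ (!i) x

/-- the label `a` is a unit at position `x` of track `i` -/
def Gu (i : Bool) (x : ℕ) (a : V) : Prop :=
  F.At G M Q q0 i x a ∧ (∀ j y, F.Sg i j → F.At G M Q q0 j y a → j = i ∧ y = x) ∧
    (¬ F.Ti G M σ Q q0 i a ∨ (F.Lf M σ i x ∧ F.Aj M i x))

/-- a good pass at position `x` of track `i` that may absorb the branch of the label `a` -/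
structure Un (i : Bool) (x : ℕ) (a : V) (X : Finset V) (O L : Finset E) (K : Set (Finset E)) :
    Prop where
  le : x ≤ M.n i
  pas : G.Pas0 X O (F.e M i x) (F.e M i (x + 1)) L K Rl.Gd
  lo : F.xs M σ i x ⊆ X
  hi : X ⊆ M.w i x ∪ (G.lb (F.rest M) Q a).erase a
  lv : ∀ e ∈ L, e ∈ G.cut X → e ∈ G.tch (G.vs Q) ∨ (F.ty = false ∧ e ∈ G.tch (F.xt M σ (!i)))
  bk : M.w i x ∈ F.Bs → ∀ v, G.BK1 (M.w i x) X K v
  full : M.w i x ⊆ X ∨ F.Aj M i x

end Kf

end Pool.Agent.Work.MP_8c679b_co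
end
end

-- merged part: Pool.Agent.Work.MP_8c679b_co.A3.GP
section
-- merged part: Pool.Agent.Work.MP_8c679b_co.Six.Quo
section
/-!
Quotients by a family of disjoint vertex sets.
-/

set_option autoImplicit false

namespace Pool.Agent.Work.MP_8c679b_co

open Finset

section nodes

variable {V : Type} [DecidableEq V] {Ns Z : Finset (Finset V)} {N Y : Finset V} {u v : V}

theorem Quo_mem_nd : u ∈ nd Ns v ↔ u = v ∨ ∃ N ∈ Ns, v ∈ N ∧ u ∈ N := by
  simp [nd, and_assoc]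

theorem mem_nd_self : v ∈ nd Ns v := mem_insert_self _ _

theorem nd_of_mem (h : PD Ns) (hN : N ∈ Ns) (hv : v ∈ N) : nd Ns v = N := by
  ext x
  rw [Quo_mem_nd]
  refine ⟨?_, fun hx => Or.inr ⟨N, hN, hv, hx⟩⟩
  rintro (rfl | ⟨N', h1, h2, h3⟩)
  · exact hv
  · by_cases k : N' = N
    · exact k ▸ h3
    · exact absurd hv (disjoint_left.1 (h N' h1 N hN k) h2)

theorem nd_of_not (h : ∀ N ∈ Ns, v ∉ N) : nd Ns v = {v} := by
  ext x
  rw [Quo_mem_nd, mem_singleton]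
  exact ⟨fun k => k.resolve_right fun ⟨N, h1, h2, _⟩ => h N h1 h2, Or.inl⟩

theorem nd_cases (h : PD Ns) (v : V) :
    (nd Ns v ∈ Ns) ∨ ((∀ N ∈ Ns, v ∉ N) ∧ nd Ns v = {v}) := by
  by_cases k : ∃ N ∈ Ns, v ∈ N
  · obtain ⟨N, h1, h2⟩ := k
    exact Or.inl ((nd_of_mem h h1 h2).symm ▸ h1)
  · push Not at k
    exact Or.inr ⟨k, nd_of_not k⟩

theorem nd_eq_iff (h : PD Ns) : nd Ns u = nd Ns v ↔ u ∈ nd Ns v := by
  refine ⟨fun k => k ▸ mem_nd_self, fun k => ?_⟩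
  rcases Quo_mem_nd.1 k with rfl | ⟨N, h1, h2, h3⟩
  · rfl
  · rw [nd_of_mem h h1 h2, nd_of_mem h h1 h3]

theorem nd_disj (h : PD Ns) (hne : nd Ns u ≠ nd Ns v) : Disjoint (nd Ns u) (nd Ns v) :=
  disjoint_left.2 fun _ h1 h2 => hne (((nd_eq_iff h).2 h1).symm.trans ((nd_eq_iff h).2 h2))

theorem nd_sub (hY : ∀ N ∈ Ns, N ⊆ Y) (hv : v ∈ Y) : nd Ns v ⊆ Y := by
  intro x hx
  rcases Quo_mem_nd.1 hx with rfl | ⟨N, h1, -, h3⟩
  exacts [hv, hY N h1 h3]

theorem mem_un : v ∈ un Y Ns Z ↔ v ∈ Y ∧ nd Ns v ∈ Z := mem_filter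

theorem un_single (h : PD Ns) (hY : ∀ N ∈ Ns, N ⊆ Y) (hv : v ∈ Y) :
    un Y Ns {nd Ns v} = nd Ns v := by
  ext x
  rw [mem_un, mem_singleton, nd_eq_iff h]
  exact ⟨fun k => k.2, fun k => ⟨nd_sub hY hv k, k⟩⟩

theorem PD.mono {Ns' : Finset (Finset V)} (h : PD Ns) (hs : Ns' ⊆ Ns) : PD Ns' :=
  fun N h1 N' h2 => h N (hs h1) N' (hs h2)

/-- a member of the family lies inside or outside a union of nodes -/
theorem un_dich (h : PD Ns) (hY : ∀ N ∈ Ns, N ⊆ Y) (hN : N ∈ Ns) (hn : N.Nonempty) :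
    (N ∈ Z → N ⊆ un Y Ns Z) ∧ (N ∉ Z → Disjoint N (un Y Ns Z)) :=
  have _ := hn
  ⟨fun k _ hx => mem_un.2 ⟨hY N hN hx, (nd_of_mem h hN hx).symm ▸ k⟩,
    fun k => disjoint_left.2 fun _ hx h2 => k (nd_of_mem h hN hx ▸ (mem_un.1 h2).2)⟩

end nodes

namespace SG

variable {V E : Type} [Fintype V] [DecidableEq V] [DecidableEq E] {G : SG V E}
  {Ns Z : Finset (Finset V)} {N M Y : Finset V} {u v : V} {e a b : E} {n : ℕ}
  {w : ℕ → Finset V} {g : ℕ → E}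

theorem mem_quo : e ∈ (G.quo Y Ns).A ↔ e ∈ G.ins Y ∧ nd Ns (G.s e) ≠ nd Ns (G.t e) := mem_filter

theorem quo_noloop (he : e ∈ (G.quo Y Ns).A) : (G.quo Y Ns).s e ≠ (G.quo Y Ns).t e :=
  (mem_quo.1 he).2

/-- an edge inside `Y` that leaves a node is an edge of the quotient at that node -/
theorem quo_at (h : PD Ns) :
    (e ∈ (G.quo Y Ns).A ∧ (G.quo Y Ns).At e (nd Ns v)) ↔ e ∈ G.ins Y ∧ e ∈ G.cut (nd Ns v) := by
  rw [mem_quo, mem_cut, ← nd_eq_iff h, ← nd_eq_iff h]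
  change _ ∧ (nd Ns (G.s e) = _ ∨ nd Ns (G.t e) = _) ↔ _
  have := @ins_sub_A _ _ _ _ G Y e
  grind

theorem quo_je (he : e ∈ G.ins Y) (hj : G.Je e u v) :
    (G.quo Y Ns).Je e (nd Ns u) (nd Ns v) := by
  have _ := he
  rcases hj with ⟨rfl, rfl⟩ | ⟨rfl, rfl⟩
  exacts [Or.inl ⟨rfl, rfl⟩, Or.inr ⟨rfl, rfl⟩]

/-- the ends in `G` of an edge of the quotient -/
theorem quo_je_inv (h : PD Ns) (he : e ∈ (G.quo Y Ns).A) (hj : (G.quo Y Ns).Je e N M) :
    e ∈ G.cut N ∧ e ∈ G.cut M ∧ G.ie N e ∈ Y ∧ G.ie M e ∈ Y ∧ nd Ns (G.ie N e) = N ∧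
      nd Ns (G.ie M e) = M ∧ G.Je e (G.ie N e) (G.ie M e) := by
  obtain ⟨h1, h2⟩ := mem_quo.1 he
  obtain ⟨hA, hs, ht⟩ := mem_ins.1 h1
  have a1 : G.s e ∈ nd Ns (G.s e) := mem_nd_self
  have a2 : G.t e ∈ nd Ns (G.t e) := mem_nd_self
  have a3 : G.s e ∉ nd Ns (G.t e) := fun k => h2 ((nd_eq_iff h).2 k)
  have a4 : G.t e ∉ nd Ns (G.s e) := fun k => h2 ((nd_eq_iff h).2 k).symm
  have b1 : G.ie (nd Ns (G.s e)) e = G.s e := if_pos a1
  have b2 : G.ie (nd Ns (G.t e)) e = G.t e := if_neg a3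
  have c1 : e ∈ G.cut (nd Ns (G.s e)) := mem_cut.2 ⟨hA, fun k => a4 (k.1 a1)⟩
  have c2 : e ∈ G.cut (nd Ns (G.t e)) := mem_cut.2 ⟨hA, fun k => a3 (k.2 a2)⟩
  rcases hj with ⟨k1, k2⟩ | ⟨k1, k2⟩
  · obtain rfl : nd Ns (G.s e) = N := k1
    obtain rfl : nd Ns (G.t e) = M := k2
    rw [b1, b2]
    exact ⟨c1, c2, hs, ht, rfl, rfl, Or.inl ⟨rfl, rfl⟩⟩
  · obtain rfl : nd Ns (G.s e) = M := k1
    obtain rfl : nd Ns (G.t e) = N := k2
    rw [b1, b2]
    exact ⟨c2, c1, ht, hs, rfl, rfl, Or.inr ⟨rfl, rfl⟩⟩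

theorem quo_crs (Z : Finset (Finset V)) :
    (G.quo Y Ns).crs (G.quo Y Ns).A Z = G.crs (G.ins Y) (un Y Ns Z) := by
  ext e
  rw [mem_crs, mem_crs, mem_quo, mem_un, mem_un, mem_ins]
  change _ ∧ ¬ (nd Ns (G.s e) ∈ Z ↔ nd Ns (G.t e) ∈ Z) ↔ _
  grind

theorem quo_deg (h : PD Ns) {S : Finset E} (hS : S ⊆ (G.quo Y Ns).A) :
    (G.quo Y Ns).deg S (nd Ns v) = (S ∩ G.cut (nd Ns v)).card := by
  rw [← filter_mem_eq_inter, card_filter]
  refine sum_congr rfl fun e he => ?_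
  have h1 := quo_at (G := G) (Y := Y) (e := e) (v := v) h
  have h2 := mem_quo.1 (hS he)
  have h3 : (G.quo Y Ns).At e (nd Ns v) ↔ nd Ns (G.s e) = nd Ns v ∨ nd Ns (G.t e) = nd Ns v :=
    Iff.rfl
  have h4 := hS he
  change iv (nd Ns (G.s e) = nd Ns v) + iv (nd Ns (G.t e) = nd Ns v) = _
  unfold iv
  grind

theorem quo_deg_zero {S : Finset E} (hS : S ⊆ (G.quo Y Ns).A) (hN : ∀ v ∈ Y, nd Ns v ≠ N) :
    (G.quo Y Ns).deg S N = 0 := by
  refine sum_eq_zero fun e he => ?_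
  obtain ⟨-, hs, ht⟩ := mem_ins.1 (mem_quo.1 (hS he)).1
  change iv (nd Ns (G.s e) = N) + iv (nd Ns (G.t e) = N) = 0
  simp [iv, hN _ hs, hN _ ht]

theorem Quo_desc {S S' : Finset E} (h : G.Rch S u v)
    (hS : ∀ e ∈ S, nd Ns (G.s e) ≠ nd Ns (G.t e) → e ∈ S') :
    (G.quo Y Ns).Rch S' (nd Ns u) (nd Ns v) := by
  induction h with
  | refl => exact Rch.refl _ _
  | tail _ h2 ih =>
    obtain ⟨e, h3, h4⟩ := h2
    have h5 : (G.quo Y Ns).Rch S' (nd Ns (G.s e)) (nd Ns (G.t e)) := by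
      by_cases k : nd Ns (G.s e) = nd Ns (G.t e)
      · exact k ▸ Rch.refl _ _
      · exact rch_edge (G := G.quo Y Ns) (hS e h3 k)
    rcases h4 with ⟨rfl, rfl⟩ | ⟨rfl, rfl⟩
    exacts [Rch.trans ih h5, Rch.trans ih h5.symm]

/-- walks descend to the quotient -/
theorem quo_rch {S : Finset E} (hS : S ⊆ G.ins Y) (h : G.Rch S u v) :
    (G.quo Y Ns).Rch (S ∩ (G.quo Y Ns).A) (nd Ns u) (nd Ns v) :=
  Quo_desc h fun _ he k => mem_inter.2 ⟨he, mem_quo.2 ⟨hS he, k⟩⟩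

/-- walks inside a union of nodes descend to walks that avoid the other nodes -/
theorem quo_rch_avo {U : Finset V} {Mq : Finset (Finset V)} (hU : U ⊆ Y)
    (hM : ∀ x ∈ U, nd Ns x ∉ Mq) (h : G.Rch (G.ins U) u v) :
    (G.quo Y Ns).Rch ((G.quo Y Ns).avo (G.quo Y Ns).A Mq) (nd Ns u) (nd Ns v) :=
  Quo_desc h fun _ he k => mem_avo.2 ⟨mem_quo.2 ⟨ins_mono hU he, k⟩,
    hM _ (mem_ins.1 he).2.1, hM _ (mem_ins.1 he).2.2⟩

/-- walks lift when the nodes are connected -/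
theorem quo_lift (h : PD Ns) (hY : ∀ N ∈ Ns, N ⊆ Y) (hcn : ∀ N ∈ Ns, G.Cn N (G.ins N))
    {S : Finset E} (hS : S ⊆ (G.quo Y Ns).A)
    (hZ : ∀ e ∈ S, nd Ns (G.s e) ∈ Z ∧ nd Ns (G.t e) ∈ Z) (hu : u ∈ un Y Ns Z) (hv : v ∈ Y)
    (hr : (G.quo Y Ns).Rch S (nd Ns u) (nd Ns v)) : G.Rch (G.ins (un Y Ns Z)) u v := by
  have k1 : ∀ x ∈ un Y Ns Z, ∀ y, nd Ns y = nd Ns x → G.Rch (G.ins (un Y Ns Z)) x y := by
    intro x hx y hy
    have h1 := (nd_eq_iff h).1 hy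
    rcases nd_cases h x with k | ⟨-, k⟩
    · exact (hcn _ k x mem_nd_self y h1).mono
        (ins_mono ((un_dich h hY k ⟨x, mem_nd_self⟩).1 (mem_un.1 hx).2))
    · rw [k, mem_singleton] at h1
      exact h1 ▸ Rch.refl _ _
  have k2 : ∀ M, (G.quo Y Ns).Rch S (nd Ns u) M → ∀ y, nd Ns y = M →
      G.Rch (G.ins (un Y Ns Z)) u y := by
    intro M hM
    induction hM with
    | refl => exact k1 u hu
    | tail _ h2 ih =>
      obtain ⟨e, h3, h4⟩ := h2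
      obtain ⟨hA, hs, ht⟩ := mem_ins.1 (mem_quo.1 (hS h3)).1
      have hs' : G.s e ∈ un Y Ns Z := mem_un.2 ⟨hs, (hZ e h3).1⟩
      have ht' : G.t e ∈ un Y Ns Z := mem_un.2 ⟨ht, (hZ e h3).2⟩
      have h5 := rch_edge (G := G) (mem_ins.2 ⟨hA, hs', ht'⟩)
      intro y hy
      rcases h4 with ⟨a1, a2⟩ | ⟨a1, a2⟩
      · exact ((ih _ a1).trans h5).trans (k1 _ ht' y (hy.trans a2.symm))
      · exact ((ih _ a2).trans h5.symm).trans (k1 _ hs' y (hy.trans a1.symm))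
  have _ := hv
  exact k2 _ hr v rfl

theorem Quo_node (he : e ∈ (G.quo Y Ns).A) (hj : (G.quo Y Ns).Je e N M) :
    ∃ v ∈ Y, M = nd Ns v := by
  obtain ⟨-, hs, ht⟩ := mem_ins.1 (mem_quo.1 he).1
  rcases hj with k | k
  exacts [⟨_, ht, k.2.symm⟩, ⟨_, hs, k.1.symm⟩]

/-- the terms of a path of the quotient are nodes -/
theorem quo_pth_node (hp : (G.quo Y Ns).Pth (G.quo Y Ns).A n w g) (hu : u ∈ Y)
    (h0 : w 0 = nd Ns u) : ∀ i ≤ n, ∃ v ∈ Y, w i = nd Ns v := by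
  rintro (_ | i) hi
  · exact ⟨u, hu, h0⟩
  · exact Quo_node (hp.mem i hi) (hp.jn i hi)

theorem quo_cyc_node (hp : (G.quo Y Ns).Cyc (G.quo Y Ns).A n w g) :
    ∀ i ≤ n, ∃ v ∈ Y, w i = nd Ns v := by
  obtain ⟨u, hu, h0⟩ := Quo_node hp.cm hp.cj
  exact quo_pth_node hp.pth hu h0

omit [DecidableEq E] in
theorem Quo_es_last : es a b n g (n + 1) = b := by simp [es]

omit [DecidableEq E] in
theorem Quo_es_succ {i : ℕ} (hi : i < n) : es a b n g (i + 1) = g i := by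
  simp [es, Nat.succ_le_of_lt hi]

theorem Quo_trk (h : PD Ns) (hY : ∀ N ∈ Ns, N ⊆ Y) (hp : (G.quo Y Ns).Pth (G.quo Y Ns).A n w g)
    (hw : ∀ i ≤ n, ∃ v ∈ Y, w i = nd Ns v) (ha : a ∈ G.cut (w 0)) (hb : b ∈ G.cut (w n))
    (h0 : n = 0 → a ≠ b) (h1 : 0 < n → a ≠ g 0) (h2 : ∀ i, i + 1 = n → g i ≠ b) :
    G.Trk Y n w (es a b n g) ∧ bu n w = un Y Ns (pv n w) := by
  have k1 : ∀ i ≤ n, w i ⊆ Y := fun i hi => by
    obtain ⟨v, hv, e⟩ := hw i hi
    exact e ▸ nd_sub hY hv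
  have k2 := fun i hi => quo_je_inv h (hp.mem i hi) (hp.jn i hi)
  refine ⟨⟨k1, fun i hi j hj hij => ?_, fun i hi => ?_⟩, ?_⟩
  · have hne : w i ≠ w j := fun k => hij (hp.inj i hi j hj k)
    obtain ⟨v, -, e⟩ := hw i hi
    obtain ⟨v', -, e'⟩ := hw j hj
    rw [e, e'] at hne ⊢
    exact nd_disj h hne
  · rcases i with _ | i
    · rcases hi.eq_or_lt with k | k
      · subst k
        rw [Quo_es_last]
        exact ⟨ha, hb, h0 rfl⟩
      · rw [Quo_es_succ k]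
        exact ⟨ha, (k2 0 k).1, h1 k⟩
    · rw [Quo_es_succ hi]
      rcases hi.eq_or_lt with k | k
      · subst k
        rw [Quo_es_last]
        exact ⟨(k2 i hi).2.1, hb, h2 i rfl⟩
      · rw [Quo_es_succ k]
        refine ⟨(k2 i hi).2.1, (k2 _ k).1, fun e => ?_⟩
        have := hp.einj hi k e
        omega
  · ext x
    rw [mem_bu, mem_un, mem_pv]
    constructor
    · rintro ⟨i, hi, hx⟩
      refine ⟨k1 i hi hx, i, hi, ?_⟩
      obtain ⟨v, -, e⟩ := hw i hi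
      rw [e] at hx ⊢
      exact ((nd_eq_iff h).2 hx).symm
    · rintro ⟨-, i, hi, e⟩
      exact ⟨i, hi, e ▸ mem_nd_self⟩

/-- an open track from a path of the quotient -/
theorem trk_of_pth (h : PD Ns) (hY : ∀ N ∈ Ns, N ⊆ Y) (hp : (G.quo Y Ns).Pth (G.quo Y Ns).A n w g)
    (ha : a ∈ G.cut Y) (hb : b ∈ G.cut Y) (hab : a ≠ b) (h0 : w 0 = nd Ns (G.ie Y a))
    (hn : w n = nd Ns (G.ie Y b)) :
    G.Trk Y n w (es a b n g) ∧ es a b n g 0 = a ∧ es a b n g (n + 1) = b ∧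
      bu n w = un Y Ns (pv n w) := by
  have h1 := quo_pth_node hp (ie_mem (cut_sub_tch ha)) h0
  have key : ∀ {c : E}, c ∈ G.cut Y → c ∈ G.cut (nd Ns (G.ie Y c)) := fun {c} hc =>
    (cut_of_sub (nd_sub hY (ie_mem (cut_sub_tch hc))) hc
      (sol1_at_tch (mem_cut.1 hc).1 mem_nd_self ie_at)).1
  have ne : ∀ {c : E}, c ∈ G.cut Y → ∀ i < n, c ≠ g i := fun {c} hc i hi k =>
    not_ins_of_cut hc (k ▸ (mem_quo.1 (hp.mem i hi)).1)
  obtain ⟨h2, h3⟩ := Quo_trk h hY hp h1 (h0 ▸ key ha) (hn ▸ key hb) (fun _ => hab) (ne ha 0)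
    fun i hi => (ne hb i (by omega)).symm
  exact ⟨h2, rfl, Quo_es_last, h3⟩

/-- a closed track from a circuit of the quotient -/
theorem trk_of_cyc (h : PD Ns) (hY : ∀ N ∈ Ns, N ⊆ Y)
    (hp : (G.quo Y Ns).Cyc (G.quo Y Ns).A n w g) :
    G.Trk Y n w (es (g n) (g n) n g) ∧ es (g n) (g n) n g (n + 1) = es (g n) (g n) n g 0 ∧
      bu n w = un Y Ns (pv n w) := by
  have h1 := quo_je_inv h hp.cm hp.cj
  have h0 := hp.pos
  obtain ⟨h2, h3⟩ := Quo_trk h hY hp.pth (quo_cyc_node hp) h1.2.1 h1.1 (fun k => by omega)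
    (fun _ => hp.cn) fun i hi k => by
      have := hp.einj (by omega) le_rfl k
      omega
  exact ⟨h2, Quo_es_last, h3⟩

/-- a two-edge-connected region: every node other than the whole region lies on a circuit -/
theorem quo_cyc (h : PD Ns) (hY : ∀ N ∈ Ns, N ⊆ Y) (h2 : G.Two Y (G.ins Y)) (hv : v ∈ Y)
    (hne : nd Ns v ≠ Y) : ∃ n w g, (G.quo Y Ns).Cyc (G.quo Y Ns).A n w g ∧ w 0 = nd Ns v := by
  classical
  obtain ⟨e, he⟩ := card_pos.1 (lt_of_lt_of_le two_pos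
    (h2 _ (nd_sub hY hv) ⟨v, mem_nd_self⟩ hne))
  obtain ⟨h3, h4⟩ := mem_crs.1 he
  obtain ⟨h5, h6⟩ := (quo_at h).2 ⟨h3, mem_cut.2 ⟨ins_sub_A h3, h4⟩⟩
  obtain ⟨x, hx, hj, hxv⟩ : ∃ x ∈ Y, (G.quo Y Ns).Je e (nd Ns v) (nd Ns x) ∧
      nd Ns v ≠ nd Ns x := by
    rcases h6 with k | k
    · exact ⟨G.t e, (mem_ins.1 h3).2.2, Or.inl ⟨k, rfl⟩, k ▸ quo_noloop h5⟩
    · exact ⟨G.s e, (mem_ins.1 h3).2.1, Or.inr ⟨rfl, k⟩, k ▸ (quo_noloop h5).symm⟩
  have hr : (G.quo Y Ns).Rch ((G.quo Y Ns).A.erase e) (nd Ns x) (nd Ns v) := by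
    by_contra hr
    let Z := univ.filter fun N => (G.quo Y Ns).Rch ((G.quo Y Ns).A.erase e) (nd Ns x) N
    have hZ : ∀ N, N ∈ Z ↔ (G.quo Y Ns).Rch ((G.quo Y Ns).A.erase e) (nd Ns x) N := fun N => by
      simp [Z]
    have h7 := h2 (un Y Ns Z) (filter_subset _ _) ⟨x, mem_un.2 ⟨hx, (hZ _).2 (Rch.refl _ _)⟩⟩
      fun k => hr ((hZ _).1 (mem_un.1 (k.symm ▸ hv : v ∈ un Y Ns Z)).2)
    rw [← quo_crs] at h7
    have h8 : (G.quo Y Ns).crs (G.quo Y Ns).A Z ⊆ {e} := fun f hf => by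
      by_contra k
      obtain ⟨a1, a2⟩ := mem_crs.1 hf
      have a3 := rch_edge (G := G.quo Y Ns) (mem_erase.2 ⟨notMem_singleton.1 k, a1⟩)
      exact a2 (by rw [hZ, hZ]; exact ⟨fun r => r.trans a3, fun r => r.trans a3.symm⟩)
    have := card_le_card h8
    rw [card_singleton] at this
    omega
  obtain ⟨n, w, g, a1, a2, -⟩ := cyc_of_rch h5 hj hxv hr
  exact ⟨n, w, g, a1, a2⟩

theorem Quo_ins {U X : Finset V} (h : e ∈ G.ins X) (hd : Disjoint U X) : e ∉ G.tch U := by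
  intro k
  rcases (mem_tch.1 k).2 with k | k
  exacts [disjoint_left.1 hd k (mem_ins.1 h).2.1, disjoint_left.1 hd k (mem_ins.1 h).2.2]

theorem Quo_two {U X : Finset V} (hU : U ⊆ Y) (hX : X ⊆ Y) (hd : Disjoint U X) (h1 : e ∈ G.tch U)
    (h2 : e ∈ G.tch X) : e ∈ G.ins Y := by
  refine mem_ins.2 ⟨(mem_tch.1 h1).1, ?_⟩
  rcases (mem_tch.1 h1).2 with k | k <;> rcases (mem_tch.1 h2).2 with k' | k'
  exacts [absurd k' (disjoint_left.1 hd k), ⟨hU k, hX k'⟩, ⟨hX k', hU k⟩,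
    absurd k' (disjoint_left.1 hd k)]

theorem Quo_three {U X X' : Finset V} (d1 : Disjoint U X) (d2 : Disjoint U X') (d3 : Disjoint X X')
    (h1 : e ∈ G.tch U) (h2 : e ∈ G.tch X) (h3 : e ∈ G.tch X') : False := by
  rw [disjoint_left] at d1 d2 d3
  rcases (mem_tch.1 h1).2 with k | k <;> rcases (mem_tch.1 h2).2 with k' | k' <;>
    rcases (mem_tch.1 h3).2 with k'' | k'' <;>
    first | exact d1 k k' | exact d2 k k'' | exact d3 k' k''

/-- Gluing even sets of the regions of a track; nothing touches the other nodes. -/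
theorem trk_st {X : ℕ → Finset V} {O : ℕ → Finset E} {e : ℕ → E} (ht : G.Trk Y n X e)
    (hS : ∀ i ≤ n, G.St (X i) (O i) {e i, e (i + 1)}) (h0 : e 0 ∈ G.cut Y)
    (h1 : e (n + 1) ∈ G.cut Y) :
    G.St Y (bu n O) {e 0, e (n + 1)} ∧ (∀ i ≤ n, bu n O ∩ G.tch (X i) = O i) ∧
      ∀ U ⊆ Y, Disjoint U (bu n X) → Disjoint (bu n O) (G.tch U) := by
  obtain ⟨t1, t2, t3⟩ := ht
  have m0 : ∀ i ≤ n, e i ∈ O i := fun i hi =>
    (mem_inter.1 ((hS i hi).2.2.symm ▸ mem_insert_self _ _ : e i ∈ O i ∩ G.cut (X i))).1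
  have m1 : ∀ i ≤ n, e (i + 1) ∈ O i := fun i hi =>
    (mem_inter.1 ((hS i hi).2.2.symm ▸ mem_insert_of_mem (mem_singleton_self _) :
      e (i + 1) ∈ O i ∩ G.cut (X i))).1
  have key : ∀ j ≤ n, ∀ f ∈ O j, f ∈ G.ins (X j) ∨ (f = e 0 ∨ f = e (n + 1)) ∨
      ∃ k ≤ n, k ≠ j ∧ f ∈ O k := by
    intro j hj f hf
    refine (mem_tch_iff.1 ((hS j hj).1 hf)).imp_right fun k => ?_
    have h2 : f ∈ ({e j, e (j + 1)} : Finset E) := (hS j hj).2.2 ▸ mem_inter.2 ⟨hf, k⟩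
    rcases mem_insert.1 h2 with rfl | h2
    · rcases j with _ | j
      · exact Or.inl (Or.inl rfl)
      · exact Or.inr ⟨j, by omega, by omega, m1 j (by omega)⟩
    · obtain rfl := mem_singleton.1 h2
      rcases hj.eq_or_lt with rfl | hj'
      · exact Or.inl (Or.inr rfl)
      · exact Or.inr ⟨j + 1, hj', by omega, m0 _ hj'⟩
  have key2 : ∀ j ≤ n, ∀ f ∈ O j, ∀ U ⊆ Y, Disjoint U (X j) → f ∈ G.tch U →
      ∃ k ≤ n, ¬ Disjoint U (X k) ∧ f ∈ O k := by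
    intro j hj f hf U hU hd hfU
    rcases key j hj f hf with k | k | ⟨k, a1, a2, a3⟩
    · exact absurd hfU (Quo_ins k hd)
    · refine absurd (Quo_two hU (t1 j hj) hd hfU ((hS j hj).1 hf)) (not_ins_of_cut ?_)
      rcases k with rfl | rfl
      exacts [h0, h1]
    · exact ⟨k, a1, fun a4 => Quo_three hd a4 (t2 j hj k a1 a2.symm) hfU ((hS j hj).1 hf)
        ((hS k a1).1 a3), a3⟩
  have r2 : ∀ i ≤ n, bu n O ∩ G.tch (X i) = O i := fun i hi => by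
    refine Subset.antisymm (fun f hf => ?_) fun f hf =>
      mem_inter.2 ⟨mem_bu.2 ⟨i, hi, hf⟩, (hS i hi).1 hf⟩
    obtain ⟨a1, a2⟩ := mem_inter.1 hf
    obtain ⟨j, hj, a3⟩ := mem_bu.1 a1
    by_cases k : i = j
    · exact k ▸ a3
    · obtain ⟨l, b1, b2, b3⟩ := key2 j hj f a3 _ (t1 i hi) (t2 i hi j hj k) a2
      by_cases k' : i = l
      · exact k' ▸ b3
      · exact absurd (t2 i hi l b1 k') b2
  have r3 : ∀ U ⊆ Y, Disjoint U (bu n X) → Disjoint (bu n O) (G.tch U) := fun U hU hd => by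
    have hd' : ∀ i ≤ n, Disjoint U (X i) := fun i hi =>
      hd.mono_right fun x hx => mem_bu.2 ⟨i, hi, hx⟩
    refine disjoint_left.2 fun f a1 a2 => ?_
    obtain ⟨j, hj, a3⟩ := mem_bu.1 a1
    obtain ⟨l, b1, b2, -⟩ := key2 j hj f a3 U hU (hd' j hj) a2
    exact b2 (hd' l b1)
  have r1 : bu n O ⊆ G.tch Y := fun f hf => by
    obtain ⟨j, hj, a3⟩ := mem_bu.1 hf
    exact tch_mono (t1 j hj) ((hS j hj).1 a3)
  refine ⟨⟨r1, fun v hv => ?_, Subset.antisymm (fun f hf => ?_) ?_⟩, r2, r3⟩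
  · by_cases k : v ∈ bu n X
    · obtain ⟨i, hi, a1⟩ := mem_bu.1 k
      rw [← (hS i hi).2.1 v a1, ← r2 i hi]
      refine (sum_subset inter_subset_left fun f a2 a3 => ?_).symm
      have a4 : ¬ G.At f v := fun a4 =>
        a3 (mem_inter.2 ⟨a2, sol1_at_tch (mem_tch.1 (r1 a2)).1 a1 a4⟩)
      simp [iv, (not_or.1 a4).1, (not_or.1 a4).2]
    · refine dg_of_not_mem fun a1 => ?_
      obtain ⟨f, a2, a3⟩ := mem_vs.1 a1
      exact disjoint_left.1 (r3 {v} (singleton_subset_iff.2 hv) (disjoint_singleton_left.2 k)) a2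
        (sol1_at_tch (mem_tch.1 (r1 a2)).1 (mem_singleton_self v) a3)
  · obtain ⟨a1, a2⟩ := mem_inter.1 hf
    obtain ⟨j, hj, a3⟩ := mem_bu.1 a1
    rcases key j hj f a3 with k | k | ⟨k, b1, b2, b3⟩
    · exact absurd (ins_mono (t1 j hj) k) (not_ins_of_cut a2)
    · simpa using k
    · exact absurd (Quo_two (t1 k b1) (t1 j hj) (t2 k b1 j hj b2) ((hS k b1).1 b3)
        ((hS j hj).1 a3)) (not_ins_of_cut a2)
  · exact insert_subset (mem_inter.2 ⟨mem_bu.2 ⟨0, Nat.zero_le _, m0 0 (Nat.zero_le _)⟩, h0⟩)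
      (singleton_subset_iff.2 (mem_inter.2 ⟨mem_bu.2 ⟨n, le_rfl, m1 n le_rfl⟩, h1⟩))

/-- A node that separates: the component `Zc` of a node in the quotient without the node set
`Mq`, as a set of nodes. -/
theorem quo_comp (Mq : Finset (Finset V)) (hv : v ∈ Y) (hM : nd Ns v ∉ Mq) :
    ∃ Zc : Finset (Finset V), nd Ns v ∈ Zc ∧ Disjoint Zc Mq ∧
      (∀ N, N ∈ Zc ↔
        (G.quo Y Ns).Rch ((G.quo Y Ns).avo (G.quo Y Ns).A Mq) (nd Ns v) N) ∧
      (∀ N ∈ Zc, ∃ x ∈ Y, N = nd Ns x) ∧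
      ∀ e ∈ G.crs (G.ins Y) (un Y Ns Zc), nd Ns (G.s e) ∈ Mq ∨ nd Ns (G.t e) ∈ Mq := by
  classical
  let Zc := univ.filter fun N => (G.quo Y Ns).Rch ((G.quo Y Ns).avo (G.quo Y Ns).A Mq) (nd Ns v) N
  have hZ : ∀ N, N ∈ Zc ↔
      (G.quo Y Ns).Rch ((G.quo Y Ns).avo (G.quo Y Ns).A Mq) (nd Ns v) N := fun N => by simp [Zc]
  refine ⟨Zc, (hZ _).2 (Rch.refl _ _), disjoint_left.2 fun N hN => ?_, hZ, fun N hN => ?_,
    fun e he => ?_⟩
  · exact ((hZ N).1 hN).closed (P := fun N => N ∉ Mq)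
      (fun e he => iff_of_true (mem_avo.1 he).2.1 (mem_avo.1 he).2.2) hM
  · refine ((hZ N).1 hN).closed (P := fun N => ∃ x ∈ Y, N = nd Ns x) (fun e he => ?_) ⟨v, hv, rfl⟩
    obtain ⟨-, hs, ht⟩ := mem_ins.1 (mem_quo.1 (mem_avo.1 he).1).1
    exact iff_of_true ⟨_, hs, rfl⟩ ⟨_, ht, rfl⟩
  · rw [← quo_crs] at he
    obtain ⟨a1, a2⟩ := mem_crs.1 he
    by_contra k
    have a3 := rch_edge (G := G.quo Y Ns)
      ((mem_avo (G := G.quo Y Ns) (M := Mq)).2 ⟨a1, (not_or.1 k).1, (not_or.1 k).2⟩)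
    exact a2 (by rw [hZ, hZ]; exact ⟨fun r => r.trans a3, fun r => r.trans a3.symm⟩)

end SG

end Pool.Agent.Work.MP_8c679b_co
end

-- merged part: Pool.Agent.Work.MP_8c679b_co.A3.GD
section
/-!
The pure graph part of the even case.  `G` is the quotient of a three-side by its boxes, `U` its
vertex set, `Nb` the set of boxes (vertices of degree four), `Tm` the three terminals (degree two).
-/

set_option autoImplicit false

namespace Pool.Agent.Work.MP_8c679b_co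

open Finset

namespace SG

variable {V E : Type} [Fintype V] [DecidableEq V] [DecidableEq E] (G : SG V E)

/-- a path from `a` to `b` with vertex set `X` and edge set `F` -/
def Pw (a b : V) (X : Finset V) (F : Finset E) : Prop :=
  ∃ n v g, G.Pth G.A n v g ∧ v 0 = a ∧ v n = b ∧ pv n v = X ∧ pe n g = F

/-- a ring with vertex set `X` and edge set `F` -/
def Cw (X : Finset V) (F : Finset E) : Prop :=
  ∃ n v g, G.Cyc G.A n v g ∧ pv n v = X ∧ pe (n + 1) g = F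

/-- the standing conditions on the quotient -/
structure QG (U Nb Tm : Finset V) : Prop where
  ins : ∀ e ∈ G.A, G.s e ∈ U ∧ G.t e ∈ U ∧ G.s e ≠ G.t e
  nb : Nb ⊆ U
  tm : Tm ⊆ U
  dj : Disjoint Nb Tm
  c3 : Tm.card = 3
  d4 : ∀ b ∈ Nb, (G.cut {b}).card = 4
  d2 : ∀ t ∈ Tm, (G.cut {t}).card = 2
  d3 : ∀ v ∈ U, v ∉ Nb → v ∉ Tm → (G.cut {v}).card = 3
  ht : ∀ X ⊆ U, X.Nonempty → 3 ≤ (G.cut X).card + (X ∩ Tm).card ∧
    ((G.cut X).card + (X ∩ Tm).card = 3 → X.card = 1 ∨ X = U)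
  s2 : ∀ X ⊆ U, Disjoint X Tm → (G.cut X).card = 4 → ¬ Disjoint X Nb → X.card = 1 ∨ Nb ⊆ X
  m3 : ∀ b ∈ Nb, ∀ b' ∈ Nb, b ≠ b' → (G.cut {b, b'}).card ≠ 4
  nj : ∀ t ∈ Tm, ∀ t' ∈ Tm, ¬ G.Adj G.A t t'

/-- objects: boxes and odd rings off the boxes -/
def Ob (Nb D : Finset V) : Prop :=
  (∃ b ∈ Nb, D = {b}) ∨ ∃ F, G.Cw D F ∧ G.par F = 1 ∧ Disjoint D Nb

/-- valid rings -/
def Vr (Nb X : Finset V) : Prop := ∃ F, G.Cw X F ∧ (G.par F = 1 ∨ ¬ Disjoint X Nb)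

/-- a valid ring through two terminals meets every object -/
def Ha (Nb Tm : Finset V) : Prop :=
  ∀ X, G.Vr Nb X → ∀ t ∈ Tm, ∀ t' ∈ Tm, t ≠ t' → t ∈ X → t' ∈ X →
    ∀ D, G.Ob Nb D → ¬ Disjoint X D

/-- two valid rings through terminals meet -/
def Hb (Nb Tm : Finset V) : Prop :=
  ∀ X X', G.Vr Nb X → G.Vr Nb X' → ∀ t ∈ Tm, ∀ t' ∈ Tm, t ∈ X → t' ∈ X' → ¬ Disjoint X X'

/-- a valid ring through a terminal does not miss two disjoint objects -/
def Hdd (Nb Tm : Finset V) : Prop :=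
  ∀ X, G.Vr Nb X → ∀ t ∈ Tm, t ∈ X → ∀ D D', G.Ob Nb D → G.Ob Nb D' → Disjoint D D' →
    Disjoint X D → ¬ Disjoint X D'

/-- every valid ring through a terminal meets every object -/
def He (Nb Tm : Finset V) : Prop :=
  ∀ X, G.Vr Nb X → ∀ t ∈ Tm, t ∈ X → ∀ D, G.Ob Nb D → ¬ Disjoint X D

/-- the three terminals -/
def T3n (Tm : Finset V) (s t u : V) : Prop := Tm = {s, t, u} ∧ s ≠ t ∧ s ≠ u ∧ t ≠ u

/-- reachability off `M` -/
def Rv (M : Finset V) (a b : V) : Prop := G.Rch (G.avo G.A M) a b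

open Classical in
/-- the vertices reached off `M` from the vertices of `Z` off `M` -/
noncomputable def rc (M Z : Finset V) : Finset V :=
  univ.filter fun v => ∃ z ∈ Z, z ∉ M ∧ G.Rv M z v

/-- the terminals off `M` lie in different components -/
def Goo (Tm M : Finset V) : Prop :=
  ∀ t ∈ Tm, ∀ t' ∈ Tm, t ∉ M → t' ∉ M → G.Rv M t t' → t = t'

/-- every object meets `M` -/
def Ofr (Nb M : Finset V) : Prop := ∀ D, G.Ob Nb D → ¬ Disjoint D M

/-- a ring through two terminals with the edges `e, f` -/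
def Mr (Tm : Finset V) (e f : E) (X : Finset V) (F : Finset E) : Prop :=
  G.Cw X F ∧ (∃ t ∈ Tm, ∃ t' ∈ Tm, t ≠ t' ∧ t ∈ X ∧ t' ∈ X) ∧ e ∈ F ∧ f ∈ F

/-- there is a ring through two terminals with the edges `e, f` -/
def Mo (Tm : Finset V) (e f : E) : Prop := ∃ X F, G.Mr Tm e f X F

/-- such rings close with both signs at the box `B` -/
def Mb (Nb Tm : Finset V) (B : V) (e f : E) : Prop :=
  ∀ ε, ∃ X F, G.Mr Tm e f X F ∧ (G.par F = ε ∨ ∃ b ∈ Nb, b ∈ X ∧ b ≠ B)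

/-- an edge of `S` that leaves `X` goes to `L` -/
def Clo (X L : Finset V) (S : Finset E) : Prop :=
  ∀ e ∈ G.A, ∀ x y, G.Je e x y → x ∈ X → y ∉ X → y ∈ L ∨ e ∈ S

/-- two paths from `v` to `M` off `L` that share only `v` and perhaps the last vertex -/
structure Ea (v : V) (M L : Finset V) (x y : V) (X1 X2 : Finset V) (F1 F2 : Finset E) : Prop where
  p1 : G.Pw v x X1 F1
  p2 : G.Pw v y X2 F2
  m1 : x ∈ M
  m2 : y ∈ M
  o1 : ∀ w ∈ X1, w ∈ M → w = x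
  o2 : ∀ w ∈ X2, w ∈ M → w = y
  i12 : ∀ w ∈ X1, w ∈ X2 → w = v ∨ (w = x ∧ w = y)
  dF : Disjoint F1 F2
  l1 : Disjoint X1 L
  l2 : Disjoint X2 L

/-- the terminal `v` separates a part `P` hanging on `L` from a part `Q` hanging on `M` -/
structure Sx (U : Finset V) (v : V) (M L P Q : Finset V) (f g : E) : Prop where
  cu : G.cut {v} = {f, g}
  ne : f ≠ g
  pu : P ⊆ U
  qu : Q ⊆ U
  dP : Disjoint P (insert v (M ∪ L))
  dQ : Disjoint Q (insert v (M ∪ L))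
  dPQ : Disjoint P Q
  cP : G.Clo P L {f}
  cQ : G.Clo Q M {g}
  eP : ∃ w, G.Je f v w ∧ (w ∈ P ∨ w ∈ L)
  eQ : ∃ w, G.Je g v w ∧ (w ∈ Q ∨ w ∈ M)

/-- a valid ring `H` through the terminal `s` and an object `D` off it -/
structure Tz (Nb Tm : Finset V) (s : V) (H : Finset V) (F : Finset E) (D : Finset V) : Prop where
  tm : s ∈ Tm
  cw : G.Cw H F
  sh : s ∈ H
  va : G.par F = 1 ∨ ¬ Disjoint H Nb
  ob : G.Ob Nb D
  dj : Disjoint H D

/-- an even ring off the boxes through the terminals `s, t`, cut by `x, y` into four segments, and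
a third path `S` from `x` to `y` that makes both halves valid -/
structure Th (Nb Tm : Finset V) (s t x y : V) (A1 A2 A3 A4 S : Finset V)
    (E1 E2 E3 E4 F : Finset E) : Prop where
  hs : s ∈ Tm
  ht : t ∈ Tm
  st : s ≠ t
  sx : s ≠ x
  sy : s ≠ y
  tx : t ≠ x
  ty : t ≠ y
  xy : x ≠ y
  p1 : G.Pw s x A1 E1
  p2 : G.Pw t x A2 E2
  p3 : G.Pw t y A3 E3
  p4 : G.Pw s y A4 E4
  ps : G.Pw x y S F
  i12 : ∀ v ∈ A1, v ∈ A2 → v = x
  i13 : Disjoint A1 A3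
  i14 : ∀ v ∈ A1, v ∈ A4 → v = s
  i23 : ∀ v ∈ A2, v ∈ A3 → v = t
  i24 : Disjoint A2 A4
  i34 : ∀ v ∈ A3, v ∈ A4 → v = y
  j1 : ∀ v ∈ A1, v ∈ S → v = x
  j2 : ∀ v ∈ A2, v ∈ S → v = x
  j3 : ∀ v ∈ A3, v ∈ S → v = y
  j4 : ∀ v ∈ A4, v ∈ S → v = y
  nb : Disjoint (A1 ∪ A2 ∪ A3 ∪ A4) Nb
  ev : G.par E1 + G.par E2 + G.par E3 + G.par E4 = 0
  va : G.par E1 + G.par E4 + G.par F = 1 ∨ ¬ Disjoint S Nb

/-- no such configuration off `L` has fewer than `k` edges on its third path -/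
def Tmin (Nb Tm L : Finset V) (k : ℕ) : Prop :=
  ∀ s t x y A1 A2 A3 A4 S E1 E2 E3 E4 F, G.Th Nb Tm s t x y A1 A2 A3 A4 S E1 E2 E3 E4 F →
    Disjoint (A1 ∪ A2 ∪ A3 ∪ A4 ∪ S) L → k ≤ F.card

/-! ### the final configurations -/

/-- an odd ring -/
def Oc (X : Finset V) : Prop := ∃ F, G.Cw X F ∧ G.par F = 1

/-- no box, two odd rings -/
def Z0 (Nb Tm : Finset V) : Prop :=
  Nb = ∅ ∧ ∃ X1 X2, G.Oc X1 ∧ G.Oc X2 ∧ Disjoint X1 X2 ∧ G.Goo Tm (X1 ∪ X2) ∧ G.Ofr Nb (X1 ∪ X2)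

/-- one free box on the first ring -/
def Z1 (Nb Tm : Finset V) : Prop :=
  ∃ B X1 F1 X2, Nb = {B} ∧ G.Cw X1 F1 ∧ B ∈ X1 ∧ G.Oc X2 ∧ Disjoint X1 X2 ∧
    G.Goo Tm ((X1 ∪ X2).erase B) ∧ G.Ofr Nb (X1 ∪ X2)

/-- one box on the first ring, its outer pair is on rings through two terminals -/
def Z2 (Nb Tm : Finset V) : Prop :=
  ∃ B a b c d X1 F1 X2, Nb = {B} ∧ G.Q4 {B} a b c d ∧ G.Cw X1 F1 ∧ a ∈ F1 ∧ b ∈ F1 ∧ G.Oc X2 ∧
    Disjoint X1 X2 ∧ G.Goo Tm (X1 ∪ X2) ∧ G.Ofr Nb (X1 ∪ X2) ∧ G.Mb Nb Tm B c d ∧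
    G.Goo Tm (insert B X2) ∧ G.Ofr Nb (insert B X2)

/-- one ring, a box `B` is dropped into the rest -/
def Z3c (Nb Tm : Finset V) : Prop :=
  ∃ B X1 F1, G.Cw X1 F1 ∧ B ∉ X1 ∧ G.Ofr Nb (insert B X1) ∧
    ((Nb = {B} ∧ G.par F1 = 1 ∧ G.Goo Tm X1) ∨
      ∃ B1, Nb = {B1, B} ∧ B1 ∈ X1 ∧ G.Goo Tm (X1.erase B1))

/-- a ring with one free box, and a box `B` five of whose pairs are on rings through two
terminals -/
def Z4 (Nb Tm : Finset V) : Prop :=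
  ∃ B B1 a b c d X1 F1, Nb = {B1, B} ∧ G.Q4 {B} a b c d ∧ G.Cw X1 F1 ∧ B ∉ X1 ∧ B1 ∈ X1 ∧
    G.Ofr Nb (insert B X1) ∧ G.Goo Tm ((insert B X1).erase B1) ∧
    G.Mo Tm a b ∧ G.Mo Tm a c ∧ G.Mo Tm a d ∧ G.Mo Tm b c ∧ G.Mo Tm b d

/-- a triangle formed by two boxes and a terminal -/
def Z5 (Nb Tm : Finset V) : Prop :=
  ∃ B B1 t a b c d p q g X1 F1 X3 F3 X4 F4, Nb = {B1, B} ∧ B1 ≠ B ∧ t ∈ Tm ∧ G.Q4 {B} a b c d ∧
    G.Q4 {B1} p q g c ∧ G.Je a t B ∧ G.Je g t B1 ∧ G.Cw X1 F1 ∧ p ∈ F1 ∧ q ∈ F1 ∧ B ∉ X1 ∧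
    G.Ofr Nb (insert B X1) ∧ G.Goo Tm ((insert B X1).erase B1) ∧
    G.Cw X3 F3 ∧ c ∈ F3 ∧ d ∈ F3 ∧ p ∈ F3 ∧ G.Goo Tm X3 ∧ G.Ofr Nb X3 ∧
    G.Cw X4 F4 ∧ b ∈ F4 ∧ d ∈ F4 ∧ B1 ∉ X4 ∧ G.Ofr Nb (insert B1 X4) ∧
    G.Goo Tm ((insert B1 X4).erase B) ∧
    G.Mo Tm a b ∧ G.Mo Tm a d ∧ G.Mo Tm b c ∧ G.Mo Tm b d

/-- two terminals are adjacent to both boxes -/
def Z6 (Nb Tm : Finset V) : Prop :=
  ∃ B B1 t u a b c d p q g h X1 F1 X2 F2, Nb = {B1, B} ∧ B1 ≠ B ∧ t ∈ Tm ∧ u ∈ Tm ∧ t ≠ u ∧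
    G.Q4 {B} a b c d ∧ G.Q4 {B1} p q g h ∧ G.Je a t B ∧ G.Je g t B1 ∧ G.Je b u B ∧ G.Je h u B1 ∧
    G.Cw X1 F1 ∧ p ∈ F1 ∧ q ∈ F1 ∧ B ∉ X1 ∧ G.Goo Tm (insert B X1) ∧
    G.Cw X2 F2 ∧ c ∈ F2 ∧ d ∈ F2 ∧ B1 ∉ X2 ∧ G.Goo Tm (insert B1 X2) ∧
    G.Goo Tm Nb ∧ G.Ofr Nb Nb ∧ G.Mo Tm a c ∧ G.Mo Tm a d ∧ G.Mo Tm b c ∧ G.Mo Tm b d

/-- one box, three of its pairs are on rings through two terminals, the fourth edge leads neither
to a terminal nor to another edge of the box -/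
def Z7 (Nb Tm : Finset V) : Prop :=
  ∃ B a b c d X2, Nb = {B} ∧ G.Q4 {B} a b c d ∧ G.Oc X2 ∧ B ∉ X2 ∧ G.Goo Tm (insert B X2) ∧
    G.Ofr Nb (insert B X2) ∧ G.Mb Nb Tm B a b ∧ G.Mo Tm a c ∧ G.Mo Tm b c ∧
    ∀ w, G.Je d B w → w ∉ X2 → (∀ t ∈ Tm, ¬ G.Rv (insert B X2) w t) ∧
      ∀ e w', e = a ∨ e = b ∨ e = c → G.Je e B w' → ¬ G.Rv (insert B X2) w w'

/-- three terminals and two boxes -/
def Z8 (U Nb Tm : Finset V) : Prop :=
  ∃ B B' t1 t2 t3 a b c a' b' c' d, Nb = {B, B'} ∧ B ≠ B' ∧ T3n Tm t1 t2 t3 ∧ U = Nb ∪ Tm ∧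
    G.Q4 {B} a b c d ∧ G.Q4 {B'} a' b' c' d ∧ G.Je a t1 B ∧ G.Je b t2 B ∧ G.Je c t3 B ∧
    G.Je a' t1 B' ∧ G.Je b' t2 B' ∧ G.Je c' t3 B'

/-- a ring through both boxes off `D` on which each single box is free -/
def Hr (Nb Tm D : Finset V) (B1 B2 : V) (e1 f1 e2 f2 : E) (X : Finset V) (F : Finset E) : Prop :=
  G.Cw X F ∧ e1 ∈ F ∧ f1 ∈ F ∧ e2 ∈ F ∧ f2 ∈ F ∧ Disjoint X D ∧ G.Ofr Nb (X ∪ D) ∧
    G.Goo Tm ((X ∪ D).erase B1) ∧ G.Goo Tm ((X ∪ D).erase B2)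

/-- two boxes on a ring off `D`; both are free together, or there is a second ring -/
def Hx (Nb Tm D : Finset V) (B1 B2 : V) (p1 q1 g1 h1 p2 q2 g2 h2 : E) : Prop :=
  B1 ≠ B2 ∧ G.Q4 {B1} p1 q1 g1 h1 ∧ G.Q4 {B2} p2 q2 g2 h2 ∧
    ∃ X F, G.Hr Nb Tm D B1 B2 p1 q1 p2 q2 X F ∧
      (((∀ t ∈ Tm, ∀ t' ∈ Tm, t ∉ X → t' ∉ X →
            G.Rch (G.avo (G.A \ F) (((X ∪ D).erase B1).erase B2)) t t' → t = t') ∧
          ∀ Y F', G.Cw Y F' → Disjoint F' F → Disjoint Y (((X ∪ D).erase B1).erase B2) →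
            B1 ∉ Y ∧ B2 ∉ Y) ∨
        ∃ X' F', G.Hr Nb Tm D B1 B2 p1 h1 p2 h2 X' F')

/-- two boxes on a ring and an odd ring -/
def Z9 (Nb Tm : Finset V) : Prop :=
  ∃ D B1 B2 p1 q1 g1 h1 p2 q2 g2 h2, Nb = {B1, B2} ∧ G.Oc D ∧
    G.Hx Nb Tm D B1 B2 p1 q1 g1 h1 p2 q2 g2 h2

/-- three boxes -/
def Z10 (Nb Tm : Finset V) : Prop :=
  ∃ B B1 B2 a b c d p1 q1 g1 h1 p2 q2 g2 h2, Nb = {B, B1, B2} ∧ B ≠ B1 ∧ B ≠ B2 ∧
    G.Q4 {B} a b c d ∧ G.Hx Nb Tm {B} B1 B2 p1 q1 g1 h1 p2 q2 g2 h2 ∧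
    (∃ X F, G.Mr Tm a b X F ∧ g1 ∈ F ∧ p1 ∈ F ∧ g2 ∈ F ∧ p2 ∈ F) ∧
    ∃ X F, G.Mr Tm a b X F ∧ g1 ∈ F ∧ q1 ∈ F ∧ g2 ∈ F ∧ q2 ∈ F

/-- the list of final configurations -/
def Zall (U Nb Tm : Finset V) : Prop :=
  G.Z0 Nb Tm ∨ G.Z1 Nb Tm ∨ G.Z2 Nb Tm ∨ G.Z3c Nb Tm ∨ G.Z4 Nb Tm ∨ G.Z5 Nb Tm ∨ G.Z6 Nb Tm ∨
    G.Z7 Nb Tm ∨ G.Z8 U Nb Tm ∨ G.Z9 Nb Tm ∨ G.Z10 Nb Tm

end SG

end Pool.Agent.Work.MP_8c679b_co
end

-- merged part: Pool.Agent.Work.MP_8c679b_co.A3.GP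
section
/-!
Paths as sets.  All proofs unfold `Pw` and use the lemmas of `Six/Pth`.
-/

set_option autoImplicit false
set_option linter.unusedSectionVars false

namespace Pool.Agent.Work.MP_8c679b_co

open Finset

namespace SG

variable {V E : Type} [Fintype V] [DecidableEq V] [DecidableEq E] [Nonempty E] {G : SG V E}
  {U Nb Tm X Y Z M L D D' H P Q W X1 X2 A1 A2 A3 A4 S : Finset V}
  {F F' F1 F2 E1 E2 E3 E4 R : Finset E} {a b c v w x y z s t u B B1 B2 : V} {e f g : E}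

/-- HINT: `pth_zero`. -/
theorem pw_refl (a : V) : G.Pw a a {a} ∅ := by
  exact ⟨0, _, _, pth_zero a fun _ => Classical.arbitrary E, rfl, rfl, by simp [pv], by simp [pe]⟩

/-- HINT: `pth_one`. -/
theorem pw_edge (he : e ∈ G.A) (hj : G.Je e a b) (hab : a ≠ b) : G.Pw a b {a, b} {e} := by
  refine ⟨1, _, _, pth_one he hj hab, rfl, rfl, ?_, by simp [pe]⟩
  simp [pv, range_add_one, pair_comm]

/-- HINT: `Pth.rev`, `pv_rev`, `pe_rev`. -/
theorem Pw.symm (h : G.Pw a b X F) : G.Pw b a X F := by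
  obtain ⟨n, v, g, hp, rfl, rfl, rfl, rfl⟩ := h
  exact ⟨n, _, _, hp.rev, rfl, by simp, pv_rev, pe_rev⟩

theorem Pw.left (h : G.Pw a b X F) : a ∈ X := by
  obtain ⟨n, v, g, -, rfl, -, rfl, -⟩ := h
  exact mem_pv.2 ⟨0, Nat.zero_le _, rfl⟩

theorem Pw.right (h : G.Pw a b X F) : b ∈ X := by
  exact h.symm.left

theorem Pw.sub (h : G.Pw a b X F) : F ⊆ G.A := by
  obtain ⟨n, v, g, hp, -, -, -, rfl⟩ := h
  exact hp.pe_sub

/-- both ends of an edge of the path are on the path -/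
theorem Pw.ends (h : G.Pw a b X F) (he : e ∈ F) (hv : G.At e v) : v ∈ X := by
  obtain ⟨n, v', g, hp, -, -, rfl, rfl⟩ := h
  obtain ⟨i, hi, rfl⟩ := mem_pe.1 he
  rcases (hp.jn i hi).at_iff.1 hv with rfl | rfl
  exacts [mem_pv.2 ⟨i, hi.le, rfl⟩, mem_pv.2 ⟨i + 1, hi, rfl⟩]

theorem Pw.je (h : G.Pw a b X F) (he : e ∈ F) (hj : G.Je e x y) : x ∈ X ∧ y ∈ X ∧ x ≠ y := by
  refine ⟨h.ends he (hj.at_iff.2 (Or.inl rfl)), h.ends he (hj.at_iff.2 (Or.inr rfl)), ?_⟩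
  rintro rfl
  obtain ⟨n, v, g, hp, -, -, -, rfl⟩ := h
  obtain ⟨i, hi, rfl⟩ := mem_pe.1 he
  have h1 := hj.at_iff.1 ((hp.jn i hi).at_iff.2 (Or.inl rfl))
  have h2 := hj.at_iff.1 ((hp.jn i hi).at_iff.2 (Or.inr rfl))
  rw [or_self] at h1 h2
  have := hp.inj i hi.le (i + 1) hi (h1.trans h2.symm)
  omega

theorem Pw.eq_of (h : G.Pw a a X F) : X = {a} ∧ F = ∅ := by
  obtain ⟨n, v, g, hp, h0, h1, rfl, rfl⟩ := h
  obtain rfl : 0 = n := hp.inj 0 (Nat.zero_le _) n le_rfl (h0.trans h1.symm)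
  simp [pv, pe, h0]

/-- edge sets of paths with at most one common vertex are disjoint -/
theorem Pw.dj1 {a' b' : V} (h : G.Pw a b X F) (h' : G.Pw a' b' Y F')
    (hi : ∀ v ∈ X, v ∈ Y → v = c) : Disjoint F F' := by
  refine disjoint_left.2 fun e he he' => ?_
  have hj : G.Je e (G.s e) (G.t e) := Or.inl ⟨rfl, rfl⟩
  obtain ⟨h1, h2, h3⟩ := h.je he hj
  obtain ⟨h4, h5, -⟩ := h'.je he' hj
  exact h3 ((hi _ h1 h4).trans (hi _ h2 h5).symm)

/-- HINT: a common edge joins `a` and `b`; then it is the whole first path (`Pth.at_iff`). -/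
theorem Pw.dj2 {a' b' : V} (h : G.Pw a b X F) (h' : G.Pw a' b' Y F')
    (hi : ∀ v ∈ X, v ∈ Y → v = a ∨ v = b) (hv : v ∈ X) (h1 : v ≠ a) (h2 : v ≠ b) :
    Disjoint F F' := by
  refine disjoint_left.2 fun e he he' => ?_
  obtain ⟨n, v', g, hp, rfl, rfl, rfl, rfl⟩ := h
  obtain ⟨i, hi', rfl⟩ := mem_pe.1 he
  obtain ⟨k, hk, rfl⟩ := mem_pv.1 hv
  obtain ⟨h4, h5, -⟩ := h'.je he' (hp.jn i hi')
  have key : ∀ j ≤ n, v' j ∈ Y → j = 0 ∨ j = n := fun j hj hY =>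
    (hi _ (mem_pv.2 ⟨j, hj, rfl⟩) hY).imp (hp.inj j hj 0 (Nat.zero_le _)) (hp.inj j hj n le_rfl)
  have h6 := key i hi'.le h4
  have h7 := key (i + 1) hi' h5
  have h8 : k ≠ 0 := fun e => h1 (congrArg v' e)
  have h9 : k ≠ n := fun e => h2 (congrArg v' e)
  omega

/-- HINT: `Pth.cat`, `mem_pv_cat`, `mem_pe_cat`. -/
theorem Pw.cat (h : G.Pw a b X F) (h' : G.Pw b c Y F') (hi : ∀ v ∈ X, v ∈ Y → v = b) :
    G.Pw a c (X ∪ Y) (F ∪ F') ∧ G.par (F ∪ F') = G.par F + G.par F' := by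
  refine ⟨?_, par_union (h.dj1 h' hi)⟩
  obtain ⟨n, v, g, hp, rfl, h1, rfl, rfl⟩ := h
  obtain ⟨m, u, g', hp', h2, rfl, rfl, rfl⟩ := h'
  have e := h1.trans h2.symm
  refine ⟨n + m, _, _, hp.cat hp' e fun i hi' k hk e' => ?_, Pth_catL (Nat.zero_le _), ?_,
    Finset.ext fun _ => (mem_pv_cat e).trans mem_union.symm,
    Finset.ext fun _ => mem_pe_cat.trans mem_union.symm⟩
  · exact hp'.inj k hk 0 (Nat.zero_le _) (e'.symm.trans
      ((hi _ (mem_pv.2 ⟨i, hi', rfl⟩) (mem_pv.2 ⟨k, hk, e'.symm⟩)).trans h2.symm))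
  · rw [Pth_catR e (Nat.le_add_right _ _), Nat.add_sub_cancel_left]

theorem Pw.split_idx {n i : ℕ} {v : ℕ → V} {g : ℕ → E} (hp : G.Pth G.A n v g) (hi : i ≤ n) :
    ∃ X2 F2, G.Pw (v 0) (v i) (pv i v) (pe i g) ∧ G.Pw (v i) (v n) X2 F2 ∧
      pv n v = pv i v ∪ X2 ∧ pe n g = pe i g ∪ F2 ∧ (∀ w ∈ pv i v, w ∈ X2 → w = v i) ∧
      G.par (pe n g) = G.par (pe i g) + G.par F2 := by
  have h1 : G.Pw (v 0) (v i) (pv i v) (pe i g) := ⟨i, v, g, Pth_init hp hi, rfl, rfl, rfl, rfl⟩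
  have h2 : G.Pw (v i) (v n) (pv (n - i) fun k => v (i + k)) (pe (n - i) fun k => g (i + k)) :=
    ⟨n - i, _, _, hp.sub (by omega), rfl, congrArg v (by omega), rfl, rfl⟩
  have h3 : ∀ w ∈ pv i v, w ∈ pv (n - i) (fun k => v (i + k)) → w = v i := fun w hw hw' => by
    obtain ⟨k, hk, rfl⟩ := mem_pv.1 hw
    obtain ⟨l, hl, e⟩ := mem_pv.1 hw'
    have := hp.inj _ (by omega) _ (by omega) e
    exact congrArg v (by omega)
  have h4 : pe n g = pe i g ∪ pe (n - i) fun k => g (i + k) := by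
    ext e
    simp only [mem_union, mem_pe]
    constructor
    · rintro ⟨k, hk, rfl⟩
      by_cases c : k < i
      exacts [Or.inl ⟨k, c, rfl⟩, Or.inr ⟨k - i, by omega, congrArg g (by omega)⟩]
    · rintro (⟨k, hk, rfl⟩ | ⟨k, hk, rfl⟩)
      exacts [⟨k, by omega, rfl⟩, ⟨i + k, by omega, rfl⟩]
  refine ⟨_, _, h1, h2, ?_, h4, h3, by rw [h4, par_union (h1.dj1 h2 h3)]⟩
  ext w
  simp only [mem_union, mem_pv]
  constructor
  · rintro ⟨k, hk, rfl⟩
    by_cases c : k ≤ i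
    exacts [Or.inl ⟨k, c, rfl⟩, Or.inr ⟨k - i, by omega, congrArg v (by omega)⟩]
  · rintro (⟨k, hk, rfl⟩ | ⟨k, hk, rfl⟩)
    exacts [⟨k, by omega, rfl⟩, ⟨i + k, by omega, rfl⟩]

/-- HINT: `Pth.sub` twice. -/
theorem Pw.split (h : G.Pw a b X F) (hx : x ∈ X) :
    ∃ X1 F1 X2 F2, G.Pw a x X1 F1 ∧ G.Pw x b X2 F2 ∧ X = X1 ∪ X2 ∧ F = F1 ∪ F2 ∧
      (∀ v ∈ X1, v ∈ X2 → v = x) ∧ G.par F = G.par F1 + G.par F2 := by
  obtain ⟨n, v, g, hp, rfl, rfl, rfl, rfl⟩ := h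
  obtain ⟨i, hi, rfl⟩ := mem_pv.1 hx
  obtain ⟨X2, F2, h⟩ := Pw.split_idx hp hi
  exact ⟨_, _, X2, F2, h⟩

/-- the first vertex in `M`.  HINT: `Nat.find` on the index, then as `Pw.split`. -/
theorem Pw.first (h : G.Pw a b X F) (hM : ¬ Disjoint X M) :
    ∃ x X1 F1 X2 F2, x ∈ M ∧ G.Pw a x X1 F1 ∧ G.Pw x b X2 F2 ∧ X = X1 ∪ X2 ∧ F = F1 ∪ F2 ∧
      (∀ v ∈ X1, v ∈ X2 → v = x) ∧ G.par F = G.par F1 + G.par F2 ∧
      ∀ v ∈ X1, v ∈ M → v = x := by
  obtain ⟨n, v, g, hp, rfl, rfl, rfl, rfl⟩ := h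
  obtain ⟨x, hx, hx'⟩ := not_disjoint_iff.1 hM
  obtain ⟨k, hk, rfl⟩ := mem_pv.1 hx
  have hex : ∃ k, v k ∈ M := ⟨k, hx'⟩
  obtain ⟨X2, F2, h1, h2, h3, h4, h5, h6⟩ := Pw.split_idx hp ((Nat.find_min' hex hx').trans hk)
  refine ⟨_, _, _, X2, F2, Nat.find_spec hex, h1, h2, h3, h4, h5, h6, fun w hw hw' => ?_⟩
  obtain ⟨l, hl, rfl⟩ := mem_pv.1 hw
  exact congrArg v (le_antisymm hl (Nat.find_min' hex hw'))

/-- the first edge -/
theorem Pw.head (h : G.Pw a b X F) (hab : a ≠ b) :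
    ∃ e w Y F', e ∈ G.A ∧ G.Je e a w ∧ G.Pw w b Y F' ∧ a ∉ Y ∧ X = insert a Y ∧
      F = insert e F' ∧ e ∉ F' ∧ ∀ f ∈ F, G.At f a → f = e := by
  obtain ⟨n, v, g, hp, rfl, rfl, rfl, rfl⟩ := h
  have hn : 0 < n := Nat.pos_of_ne_zero fun e => hab (congrArg v e.symm)
  obtain ⟨Y, F', -, h2, h3, h4, h5, -⟩ := Pw.split_idx hp (i := 1) hn
  have h6 : v 0 ∉ Y := fun k => by
    have := hp.inj 0 (Nat.zero_le _) 1 hn (h5 _ (mem_pv.2 ⟨0, Nat.zero_le _, rfl⟩) k)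
    omega
  have h7 : pe n g = insert (g 0) F' := by rw [h4]; simp [pe]
  refine ⟨g 0, v 1, Y, F', hp.mem 0 hn, hp.jn 0 hn, h2, h6, ?_, h7,
    fun k => h6 (h2.ends k ((hp.jn 0 hn).at_iff.2 (Or.inl rfl))), fun f hf hat => ?_⟩
  · rw [h3]
    simp [pv, range_add_one, h2.left]
  · exact (mem_insert.1 (h7 ▸ hf)).resolve_right fun k => h6 (h2.ends k hat)

/-- a new first edge -/
theorem Pw.cons (h : G.Pw a b X F) (he : e ∈ G.A) (hj : G.Je e c a) (hc : c ∉ X) :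
    G.Pw c b (insert c X) (insert e F) ∧ e ∉ F := by
  refine ⟨?_, fun k => hc (h.ends k (hj.at_iff.2 (Or.inl rfl)))⟩
  have h1 := ((pw_edge he hj fun k => hc (k ▸ h.left)).cat h fun v hv hv' =>
    (mem_insert.1 hv).elim (fun k => absurd (k ▸ hv') hc) mem_singleton.1).1
  rwa [insert_union, singleton_union, singleton_union, insert_eq_of_mem h.left] at h1

/-- an inner vertex has two edges of the path -/
theorem Pw.inner (h : G.Pw a b X F) (hv : v ∈ X) (h1 : v ≠ a) (h2 : v ≠ b) :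
    (F ∩ G.cut {v}).card = 2 := by
  obtain ⟨n, v', g, hp, rfl, rfl, rfl, rfl⟩ := id h
  obtain ⟨k, hk, rfl⟩ := mem_pv.1 hv
  have h8 : k ≠ 0 := fun e => h1 (congrArg v' e)
  have h9 : k ≠ n := fun e => h2 (congrArg v' e)
  have key : ∀ i < n, g i ∈ G.cut {v' k} ↔ k = i ∨ k = i + 1 := fun i hi => by
    rw [mem_cut_single (h.je (mem_pe.2 ⟨i, hi, rfl⟩) (Or.inl ⟨rfl, rfl⟩)).2.2,
      hp.at_iff hi hk, and_iff_right (hp.mem i hi)]
  refine card_eq_two.2 ⟨g (k - 1), g k, fun e => ?_, Finset.ext fun e => ?_⟩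
  · have := hp.einj (by omega) (by omega) e
    omega
  · rw [mem_inter, mem_insert, mem_singleton]
    constructor
    · rintro ⟨h3, h4⟩
      obtain ⟨i, hi, rfl⟩ := mem_pe.1 h3
      rcases (key i hi).1 h4 with rfl | rfl
      exacts [Or.inr rfl, Or.inl rfl]
    · rintro (rfl | rfl)
      · exact ⟨mem_pe.2 ⟨_, by omega, rfl⟩, (key _ (by omega)).2 (by omega)⟩
      · exact ⟨mem_pe.2 ⟨_, by omega, rfl⟩, (key _ (by omega)).2 (by omega)⟩

/-- two vertices of a path in one of the two orders -/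
theorem Pw.split2 (h : G.Pw a b X F) (hx : x ∈ X) (hy : y ∈ X) :
    ∃ x' y' X1 F1 X2 F2 X3 F3, ((x' = x ∧ y' = y) ∨ (x' = y ∧ y' = x)) ∧ G.Pw a x' X1 F1 ∧
      G.Pw x' y' X2 F2 ∧ G.Pw y' b X3 F3 ∧ X = X1 ∪ X2 ∪ X3 ∧ F = F1 ∪ F2 ∪ F3 ∧
      (∀ v ∈ X1, v ∈ X2 → v = x') ∧ (∀ v ∈ X2, v ∈ X3 → v = y') ∧
      (∀ v ∈ X1, v ∈ X3 → v = x' ∧ v = y') ∧
      G.par F = G.par F1 + G.par F2 + G.par F3 := by
  obtain ⟨X1, F1, X2, F2, h1, h2, rfl, rfl, h3, h4⟩ := h.split hx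
  rcases mem_union.1 hy with hy | hy
  · obtain ⟨X3, F3, X4, F4, k1, k2, rfl, rfl, k3, k4⟩ := h1.split hy
    refine ⟨y, x, X3, F3, X4, F4, X2, F2, Or.inr ⟨rfl, rfl⟩, k1, k2, h2, rfl, rfl, k3,
      fun v hv => h3 v (mem_union_right _ hv), fun v hv hv' => ?_, by rw [h4, k4]⟩
    obtain rfl := h3 v (mem_union_left _ hv) hv'
    exact ⟨k3 _ hv k2.right, rfl⟩
  · obtain ⟨X3, F3, X4, F4, k1, k2, rfl, rfl, k3, k4⟩ := h2.split hy
    refine ⟨x, y, X1, F1, X3, F3, X4, F4, Or.inl ⟨rfl, rfl⟩, h1, k1, k2, (union_assoc _ _ _).symm,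
      (union_assoc _ _ _).symm, fun v hv hv' => h3 v hv (mem_union_left _ hv'), k3,
      fun v hv hv' => ?_, by rw [h4, k4, add_assoc]⟩
    obtain rfl := h3 v hv (mem_union_right _ hv')
    exact ⟨rfl, k3 _ k1.left hv'⟩

theorem Pw.rch (h : G.Pw a b X F) (hv : v ∈ X) (hw : w ∈ X) : G.Rch F v w := by
  obtain ⟨n, p, q, hp, -, -, rfl, rfl⟩ := h
  obtain ⟨i, hi, rfl⟩ := mem_pv.1 hv
  obtain ⟨j, hj, rfl⟩ := mem_pv.1 hw
  exact hp.rch hi hj

theorem Pw.rv (h : G.Pw a b X F) (hM : Disjoint X M) (hv : v ∈ X) (hw : w ∈ X) : G.Rv M v w :=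
  (h.rch hv hw).mono fun _ he => mem_avo.2 ⟨h.sub he,
    disjoint_left.1 hM (h.ends he (Or.inl rfl)), disjoint_left.1 hM (h.ends he (Or.inr rfl))⟩

/-- HINT: `Rch.pth`, `Pth.mono`, `Pth.pe_sub`. -/
theorem Rch.pw (h : G.Rch R a b) (hR : R ⊆ G.A) : ∃ X F, G.Pw a b X F ∧ F ⊆ R := by
  obtain ⟨n, p, q, hp, h0, hn⟩ := h.pth (Classical.arbitrary E)
  exact ⟨_, _, ⟨n, p, q, hp.mono fun i hi => hR (hp.mem i hi), h0, hn, rfl, rfl⟩, hp.pe_sub⟩

theorem Rv.refl (M : Finset V) (a : V) : G.Rv M a a := Rch.refl _ _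

theorem Rv.symm (h : G.Rv M a b) : G.Rv M b a := Rch.symm h

theorem Rv.trans (h : G.Rv M a b) (h' : G.Rv M b c) : G.Rv M a c := Rch.trans h h'

theorem Rv.mono (h : G.Rv M a b) (hL : L ⊆ M) : G.Rv L a b :=
  Rch.mono h fun _ he => mem_avo.2 ⟨(mem_avo.1 he).1, fun k => (mem_avo.1 he).2.1 (hL k),
    fun k => (mem_avo.1 he).2.2 (hL k)⟩

theorem Rv.not_mem (h : G.Rv M a b) (ha : a ∉ M) : b ∉ M :=
  Rch.closed (P := fun x => x ∉ M) h
    (fun _ he => iff_of_true (mem_avo.1 he).2.1 (mem_avo.1 he).2.2) ha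

theorem rv_edge (he : e ∈ G.A) (hj : G.Je e a b) (ha : a ∉ M) (hb : b ∉ M) : G.Rv M a b :=
  Relation.ReflTransGen.single ⟨e, mem_avo.2 ⟨he, by
    rcases hj with ⟨rfl, rfl⟩ | ⟨rfl, rfl⟩
    exacts [⟨ha, hb⟩, ⟨hb, ha⟩]⟩, hj⟩

theorem Rv.pw (h : G.Rv M a b) (ha : a ∉ M) :
    ∃ X F, G.Pw a b X F ∧ Disjoint X M ∧ ∀ v ∈ X, G.Rv M a v := by
  obtain ⟨X, F, hp, hF⟩ := Rch.pw h fun _ he => (mem_avo.1 he).1
  have k : ∀ v ∈ X, G.Rv M a v := fun v hv => (hp.rch hp.left hv).mono hF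
  exact ⟨X, F, hp, disjoint_left.2 fun v hv => (k v hv).not_mem ha, k⟩

/-- a set that is left only towards `M` contains everything reached off `M` -/
theorem Rv.stay (h : G.Rv M a b) (ha : a ∈ Z)
    (hc : ∀ e ∈ G.A, ∀ x y, G.Je e x y → x ∈ Z → y ∉ Z → x ∈ M ∨ y ∈ M) : b ∈ Z := by
  refine Rch.closed (P := fun x => x ∈ Z) h (fun e he => ?_) ha
  obtain ⟨h1, h2, h3⟩ := mem_avo.1 he
  exact ⟨fun k => by_contra fun k' => (hc e h1 _ _ (Or.inl ⟨rfl, rfl⟩) k k').elim h2 h3,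
    fun k => by_contra fun k' => (hc e h1 _ _ (Or.inr ⟨rfl, rfl⟩) k k').elim h3 h2⟩

theorem mem_rc : v ∈ G.rc M Z ↔ ∃ z ∈ Z, z ∉ M ∧ G.Rv M z v := by
  simp only [rc, mem_filter, mem_univ, true_and]

theorem rc_dj : Disjoint (G.rc M Z) M :=
  disjoint_left.2 fun _ hv => by
    obtain ⟨z, -, h1, h2⟩ := mem_rc.1 hv
    exact h2.not_mem h1

theorem rc_clo : G.Clo (G.rc M Z) M ∅ := by
  intro e he x y hj hx hy
  obtain ⟨z, h0, h1, h2⟩ := mem_rc.1 hx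
  exact Or.inl (by_contra fun k =>
    hy (mem_rc.2 ⟨z, h0, h1, h2.trans (rv_edge he hj (h2.not_mem h1) k)⟩))

/-- two vertices reached from one vertex are joined by a path inside the reached set -/
theorem rc_pw (hv : v ∈ G.rc M {z}) (hw : w ∈ G.rc M {z}) :
    ∃ X F, G.Pw v w X F ∧ X ⊆ G.rc M {z} := by
  obtain ⟨z1, h0, h1, h2⟩ := mem_rc.1 hv
  obtain ⟨z2, k0, -, k2⟩ := mem_rc.1 hw
  rw [mem_singleton.1 k0, ← mem_singleton.1 h0] at k2
  obtain ⟨X, F, hp, -, hX⟩ := (h2.symm.trans k2).pw (h2.not_mem h1)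
  exact ⟨X, F, hp, fun x hx => mem_rc.2 ⟨z1, h0, h1, h2.trans (hX x hx)⟩⟩

/-- a path that starts in `Z` and ends outside leaves `Z` -/
theorem Pw.exit (h : G.Pw a b X F) (ha : a ∈ Z) (hb : b ∉ Z) :
    ∃ e ∈ F, ∃ x y, G.Je e x y ∧ x ∈ Z ∧ y ∉ Z := by
  by_contra hc
  refine hb (Rch.closed (P := fun x => x ∈ Z) (h.rch h.left h.right) (fun e he => ?_) ha)
  exact ⟨fun k => by_contra fun k' => hc ⟨e, he, _, _, Or.inl ⟨rfl, rfl⟩, k, k'⟩,
    fun k => by_contra fun k' => hc ⟨e, he, _, _, Or.inr ⟨rfl, rfl⟩, k, k'⟩⟩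

/-- HINT: a vertex outside gives two different leaving edges (`Pw.split`, `Pw.exit` twice). -/
theorem Pw.inside (h : G.Pw a b X F) (ha : a ∈ Z) (hb : b ∈ Z)
    (hc : ∀ e ∈ F, ∀ x y, G.Je e x y → x ∈ Z → y ∉ Z → e = f) : X ⊆ Z := by
  intro v hv
  by_contra hz
  obtain ⟨X1, F1, X2, F2, h1, h2, -, rfl, hi, -⟩ := h.split hv
  obtain ⟨e1, m1, x1, y1, j1, a1, b1⟩ := h1.exit ha hz
  obtain ⟨e2, m2, x2, y2, j2, a2, b2⟩ := h2.symm.exit hb hz
  rw [hc e1 (mem_union_left _ m1) _ _ j1 a1 b1] at m1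
  rw [hc e2 (mem_union_right _ m2) _ _ j2 a2 b2] at m2
  exact disjoint_left.1 (h1.dj1 h2 hi) m1 m2

theorem Clo.mono {L' : Finset V} {R' : Finset E} (h : G.Clo X L R) (hL : L ⊆ L') (hR : R ⊆ R') :
    G.Clo X L' R' := fun e he x y hj hx hy => (h e he x y hj hx hy).imp (fun k => hL k) fun k => hR k

/-- a path off `L` without edges of `R` stays in a closed set -/
theorem Clo.pw (h : G.Clo Z L R) (hp : G.Pw a b X F) (hL : Disjoint X L) (hR : Disjoint F R)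
    (hv : v ∈ X) (hz : v ∈ Z) : X ⊆ Z := by
  intro w hw
  have k : ∀ e ∈ F, ∀ x y, G.Je e x y → x ∈ Z → y ∈ Z := fun e he x y hj hx => by_contra fun hy =>
    (h e (hp.sub he) x y hj hx hy).elim (disjoint_left.1 hL (hp.je he hj).2.1)
      (disjoint_left.1 hR he)
  exact Rch.closed (P := fun x => x ∈ Z) (hp.rch hv hw)
    (fun e he => ⟨k e he _ _ (Or.inl ⟨rfl, rfl⟩), k e he _ _ (Or.inr ⟨rfl, rfl⟩)⟩) hz

end SG

end Pool.Agent.Work.MP_8c679b_co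
end
end

-- merged part: Pool.Agent.Work.MP_8c679b_co.Six.Spl
section
-- merged part: Pool.Agent.Work.MP_8c679b_co.Six.SplA
section
/-!
Helper lemmas for splits.
-/

set_option autoImplicit false

namespace Pool.Agent.Work.MP_8c679b_co

open Finset

namespace SG

variable {V E : Type} [Fintype V] [DecidableEq V] [DecidableEq E] {G : SG V E}
  {T S S' X X' R : Finset V} {a b c d x y u w e : E} {p q : V}

omit [Fintype V] in
theorem Spl_sd (hX : X ⊆ S) (e : E) : e ∈ G.cut (S \ X) ↔ ¬ (e ∈ G.cut S ↔ e ∈ G.cut X) := by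
  have h1 := @hX (G.s e)
  have h2 := @hX (G.t e)
  simp only [mem_cut, mem_sdiff]
  (clear * - h1 h2; grind)

omit [Fintype V] in
theorem Spl_mid (hX : X ⊆ X') (hX' : X' ⊆ S) (h : e ∈ G.cut X) (h' : e ∈ G.cut S) :
    e ∈ G.cut X' := by
  have h1 := @hX (G.s e)
  have h2 := @hX (G.t e)
  have h3 := @hX' (G.s e)
  have h4 := @hX' (G.t e)
  simp only [mem_cut] at *
  (clear * - h h' h1 h2 h3 h4; grind)

omit [Fintype V] in
theorem Spl_mem (h : G.Q4 S a b c d) (e : E) : e ∈ G.cut S ↔ e = a ∨ e = b ∨ e = c ∨ e = d := by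
  rw [h.1]
  simp

omit [Fintype V] in
theorem Spl_iff (h : G.Sp S a b X) (e : E) : e ∈ G.cut X ∧ e ∈ G.cut S ↔ e = a ∨ e = b := by
  rw [← mem_inter, h.2.2]
  simp

omit [Fintype V] in
theorem Spl_ab (h : G.Sp S a b X) :
    (a ∈ G.cut X ∧ a ∈ G.cut S) ∧ b ∈ G.cut X ∧ b ∈ G.cut S :=
  ⟨(Spl_iff h a).2 (Or.inl rfl), (Spl_iff h b).2 (Or.inr rfl)⟩

theorem Spl_card (hX : X ⊆ S) : (G.cut (S \ X)).card + 2 * (G.cut X ∩ G.cut S).card =
    (G.cut S).card + (G.cut X).card := by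
  have h1 := cut_add (G := G) hX
  have h2 := card_sdiff_add_card_inter (G.cut X) (G.cut S)
  rw [crs_ins hX] at h1
  omega

omit [Fintype V] in
theorem Spl_ne (h : G.Sp S a b X) : X ≠ S := by
  rintro rfl
  have h1 := h.2.1
  rw [← inter_self (G.cut X), h.2.2] at h1
  have := card_le_two (a := a) (b := b)
  omega

omit [Fintype V] in
theorem Spl_ss (h : G.Sp S a b X) : X ⊂ S := Finset.ssubset_iff_subset_ne.2 ⟨h.1, Spl_ne h⟩

omit [Fintype V] in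
theorem Spl_nonempty (h : (G.cut X).card = 4) : X.Nonempty := by
  rcases X.eq_empty_or_nonempty with rfl | k
  · simp [cut, crs] at h
  · exact k

theorem Spl_two (hc : G.Cub) (hT : G.HT T) (hX : X ⊆ T) (h : (G.cut X).card = 4) :
    2 ≤ X.card := by
  have h1 := hT.par hc hX
  have h2 := (Spl_nonempty h).card_pos
  omega

theorem Spl_sp_of (hT : G.HT T) (hS : S ⊆ T) (hX : X ⊂ S) (h4 : (G.cut S).card = 4)
    (h4' : (G.cut X).card = 4) (hab : a ≠ b) (ha : a ∈ G.cut X ∧ a ∈ G.cut S)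
    (hb : b ∈ G.cut X ∧ b ∈ G.cut S) : G.Sp S a b X := by
  refine ⟨hX.1, h4', (eq_of_subset_of_card_le
    (insert_subset (mem_inter.2 ha) (singleton_subset_iff.2 (mem_inter.2 hb))) ?_).symm⟩
  have h1 := Spl_card (G := G) hX.1
  have h2 := hT.mono3 (sdiff_subset.trans hS) (sdiff_nonempty.2 hX.2)
  rw [card_pair hab]
  omega

omit [Fintype V] in
theorem Spl_not (h : G.Sp S a b X) (hx : G.Q4 X a b x y) : x ∉ G.cut S ∧ y ∉ G.cut S := by
  have h1 := Spl_iff h x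
  have h2 := Spl_iff h y
  have h3 := Spl_mem hx x
  have h4 := Spl_mem hx y
  obtain ⟨-, k⟩ := hx
  constructor <;> intro k' <;> grind

omit [Fintype V] in
theorem Spl_q4 (hq : G.Q4 S a b c d) (h : G.Sp S a b X) (hx : G.Q4 X a b x y) :
    G.Q4 (S \ X) x y c d := by
  obtain ⟨h1, h2⟩ := Spl_not h hx
  rw [Spl_mem hq] at h1 h2
  refine ⟨?_, hx.2.2.2.2.2.2, by grind, by grind, by grind, by grind, hq.2.2.2.2.2.2⟩
  ext e
  rw [Spl_sd h.1, Spl_mem hq, Spl_mem hx]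
  obtain ⟨-, k⟩ := hx
  obtain ⟨-, k'⟩ := hq
  simp only [mem_insert, mem_singleton]
  grind

omit [Fintype V] in
theorem Spl_diff (hx : G.Q4 X a b x y) : G.cut X \ {a, b} = {x, y} := by
  ext e
  simp only [mem_sdiff, Spl_mem hx, mem_insert, mem_singleton]
  obtain ⟨-, k⟩ := hx
  grind

theorem Spl_compl (hq : G.Q4 S a b c d) (h : G.Sp S a b X) : G.Sp S c d (S \ X) := by
  obtain ⟨x, y, hx⟩ := exists_q4 h.2.1 (Spl_ab h).1.1 (Spl_ab h).2.1 hq.2.1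
  have h1 := Spl_q4 hq h hx
  obtain ⟨h2, h3⟩ := Spl_not h hx
  refine ⟨sdiff_subset, h1.card, ?_⟩
  ext e
  have h4 := Spl_mem hq e
  simp only [mem_inter, Spl_mem h1, mem_insert, mem_singleton]
  grind

theorem Spl_rung (hc : G.Cub) (hT : G.HT T) (hR : R ⊆ T) (h4 : (G.cut R).card = 4)
    (h2 : R.card ≤ 2) (hp : p ∈ R) (hq : q ∈ R) (hpq : p ≠ q) :
    R = {p, q} ∧ ∃ e ∈ G.ins R, G.Je e p q := by
  obtain ⟨u, v, e, huv, rfl, h5, h6⟩ := hT.rung hc hR h4 h2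
  have he : e ∈ G.ins {u, v} := by rw [h5]; exact mem_singleton_self e
  simp only [mem_insert, mem_singleton] at hp hq
  rcases hp with rfl | rfl <;> rcases hq with rfl | rfl
  · exact absurd rfl hpq
  · exact ⟨rfl, e, he, h6⟩
  · exact ⟨pair_comm _ _, e, he, h6.symm⟩
  · exact absurd rfl hpq

theorem Spl_ie (h : e ∈ G.cut S) : G.ie S e ∈ S := ie_mem (cut_sub_tch h)

theorem Spl_cut_of (hX : X ⊆ S) (h : e ∈ G.cut S) (h' : G.ie S e ∈ X) :
    e ∈ G.cut X ∧ G.ie X e = G.ie S e := by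
  refine cut_of_sub hX h (mem_tch.2 ⟨(mem_cut.1 h).1, ?_⟩)
  rcases ie_at (G := G) (X := S) (e := e) with k | k
  exacts [Or.inl (k ▸ h'), Or.inr (k ▸ h')]

theorem Spl_three (hT : G.HT T) (hS : S ⊆ T) (hq : G.Q4 S a b c d) (h2 : 2 < S.card)
    (hN : G.NC S a b) (hX : X ⊆ S) (hX' : X ≠ S) (ha : G.ie S a ∈ X) (hb : G.ie S b ∈ X)
    (h4 : S \ X ≠ {G.ie S c}) (h5 : S \ X ≠ {G.ie S d}) : 3 ≤ (G.crs (G.ins S) X).card := by
  have k1 := hT.f3 hS hq.card h2 X hX ⟨_, ha⟩ hX'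
  have k2 := Spl_card (G := G) hX
  have k3 := card_sdiff_add_card_inter (G.cut X) (G.cut S)
  have k4 := hq.card
  have hn : (S \ X).Nonempty := sdiff_nonempty.2 fun k => hX' (hX.antisymm k)
  have k5 := hT.mono3 (sdiff_subset.trans hS) hn
  have k6 : {a, b} ⊆ G.cut X ∩ G.cut S :=
    insert_subset (mem_inter.2 ⟨(Spl_cut_of hX hq.mem.1 ha).1, hq.mem.1⟩)
      (singleton_subset_iff.2 (mem_inter.2 ⟨(Spl_cut_of hX hq.mem.2.1 hb).1, hq.mem.2.1⟩))
  have k7 := card_le_card k6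
  rw [card_pair hq.2.1] at k7
  rw [crs_ins hX] at k1 ⊢
  rcases k7.eq_or_lt with k8 | k8
  · have : (G.cut X).card ≠ 4 := fun k => hN X ⟨hX, k,
      (eq_of_subset_of_card_le k6 (by rw [card_pair hq.2.1, k8])).symm⟩
    omega
  by_cases k9 : 2 ≤ (S \ X).card
  · have := hT.four' hS k4 sdiff_subset k9
    omega
  obtain ⟨v, hv⟩ := card_eq_one.1 (le_antisymm (by omega) hn.card_pos)
  have k : ∀ e ∈ G.cut S, S \ X ≠ {G.ie S e} → e ∈ G.cut X := fun e he hne => by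
    refine (Spl_cut_of hX he ?_).1
    by_contra k
    have := mem_sdiff.2 ⟨Spl_ie he, k⟩
    rw [hv, mem_singleton] at this
    exact hne (hv.trans (by rw [this]))
  have k10 : G.cut S ⊆ G.cut X ∩ G.cut S := fun e he => by
    rcases (Spl_mem hq e).1 he with rfl | rfl | rfl | rfl
    exacts [k6 (by simp), k6 (by simp), mem_inter.2 ⟨k _ he h4, he⟩, mem_inter.2 ⟨k _ he h5, he⟩]
  have := card_le_card k10
  omega

end SG

end Pool.Agent.Work.MP_8c679b_co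
end

-- merged part: Pool.Agent.Work.MP_8c679b_co.Six.Spl
section
/-!
Splits, pieces and the position of unbalanced sides in a chain.
-/

set_option autoImplicit false

namespace Pool.Agent.Work.MP_8c679b_co

open Finset

namespace SG

variable {V E : Type} [Fintype V] [DecidableEq V] [DecidableEq E] {G : SG V E}
  {T S S' X X' X0 X1 : Finset V} {a b c d x y : E}

theorem Sp.symm (h : G.Sp S a b X) : G.Sp S b a X := by
  exact ⟨h.1, h.2.1, h.2.2.trans (pair_comm _ _)⟩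

theorem NC.symm (h : G.NC S a b) : G.NC S b a := by
  exact fun X k => h X k.symm

/-- the basic facts about a split and its link -/
theorem Sp.str (hc : G.Cub) (hT : G.HT T) (hS : S ⊆ T) (hq : G.Q4 S a b c d)
    (h : G.Sp S a b X) : X ⊂ S ∧ 2 < S.card ∧ G.ie X a = G.ie S a ∧ G.ie X b = G.ie S b ∧
      G.ie (S \ X) c = G.ie S c ∧ G.ie (S \ X) d = G.ie S d ∧ G.Dv X a b ∧ G.Dv (S \ X) c d ∧
      a ∉ G.tch (S \ X) ∧ b ∉ G.tch (S \ X) ∧ c ∉ G.tch X ∧ d ∉ G.tch X ∧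
      ∃ x y, G.Q4 X a b x y ∧ G.Q4 (S \ X) x y c d := by
  have k := Spl_compl hq h
  have h1 := Spl_two hc hT (h.1.trans hS) h.2.1
  have h2 := Spl_two hc hT (k.1.trans hS) k.2.1
  have h3 := card_sdiff_add_card_eq_card h.1
  have h4 : 2 < S.card := by omega
  obtain ⟨ha, hb⟩ := Spl_ab h
  obtain ⟨hc', hd⟩ := Spl_ab k
  have e1 := (cut_of_sub h.1 ha.2 (cut_sub_tch ha.1)).2
  have e2 := (cut_of_sub h.1 hb.2 (cut_sub_tch hb.1)).2
  have e3 := (cut_of_sub k.1 hc'.2 (cut_sub_tch hc'.1)).2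
  have e4 := (cut_of_sub k.1 hd.2 (cut_sub_tch hd.1)).2
  obtain ⟨x, y, hx⟩ := exists_q4 h.2.1 ha.1 hb.1 hq.2.1
  refine ⟨Spl_ss h, h4, e1, e2, e3, e4, ?_, ?_, fun n => ?_, fun n => ?_, fun n => ?_, fun n => ?_,
    x, y, hx, Spl_q4 hq h hx⟩
  · rw [Dv, e1, e2]
    exact hT.f2 hc hS hq.card h4 ha.2 hb.2 hq.2.1
  · rw [Dv, e3, e4]
    exact hT.f2 hc hS hq.card h4 hc'.2 hd.2 hq.2.2.2.2.2.2
  · exact (Spl_sd h.1 a).1 (cut_of_sub k.1 ha.2 n).1 (iff_of_true ha.2 ha.1)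
  · exact (Spl_sd h.1 b).1 (cut_of_sub k.1 hb.2 n).1 (iff_of_true hb.2 hb.1)
  · exact (Spl_sd h.1 c).1 hc'.1 (iff_of_true hc'.2 (cut_of_sub h.1 hc'.2 n).1)
  · exact (Spl_sd h.1 d).1 hd.1 (iff_of_true hd.2 (cut_of_sub h.1 hd.2 n).1)

theorem Sp.link (hc : G.Cub) (hT : G.HT T) (hS : S ⊆ T) (hq : G.Q4 S a b c d)
    (h : G.Sp S a b X) (hx : G.Q4 X a b x y) :
    G.Q4 (S \ X) x y c d ∧ x ∈ G.ins S ∧ y ∈ G.ins S ∧ G.Dv X x y ∧ G.Dv (S \ X) x y ∧
      G.cut X \ {a, b} = {x, y} ∧ G.crs (G.ins S) X = {x, y} := by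
  obtain ⟨-, -, -, -, -, -, h1, h2, -⟩ := h.str hc hT hS hq
  have h3 := Spl_q4 hq h hx
  have h4 : G.crs (G.ins S) X = {x, y} := by
    rw [crs_ins h.1, ← sdiff_inter_self_left, h.2.2, Spl_diff hx]
  have h5 : ∀ e ∈ ({x, y} : Finset E), e ∈ G.ins S := fun e he => (mem_crs.1 (h4 ▸ he)).1
  exact ⟨h3, h5 x (by simp), h5 y (by simp), hT.dv_flip hc (h.1.trans hS) hx.flip h1,
    hT.dv_flip hc (sdiff_subset.trans hS) h3 h2, Spl_diff hx, h4⟩

/-- the complement of a split is a split for the other pair -/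
theorem Sp.compl (hq : G.Q4 S a b c d) (h : G.Sp S a b X) : G.Sp S c d (S \ X) := by
  exact Spl_compl hq h

theorem Sp.trans (h : G.Sp S a b X) (h' : G.Sp X a b X') : G.Sp S a b X' := by
  refine ⟨h'.1.trans h.1, h'.2.1, ?_⟩
  ext e
  have h1 := Spl_iff h e
  have h2 := Spl_iff h' e
  have h3 := Spl_mid (G := G) (e := e) h'.1 h.1
  simp only [mem_inter, mem_insert, mem_singleton]
  (clear * - h1 h2 h3; grind)

theorem Sp.of_sub (h : G.Sp S a b X) (h' : G.Sp S a b X') (hs : X' ⊂ X) (hT : G.HT T)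
    (hS : S ⊆ T) (hab : a ≠ b) : G.Sp X a b X' := by
  exact Spl_sp_of hT (h.1.trans hS) hs h.2.1 h'.2.1 hab ⟨(Spl_ab h').1.1, (Spl_ab h).1.1⟩
    ⟨(Spl_ab h').2.1, (Spl_ab h).2.1⟩

/-- splits are nested -/
theorem Sp.nested (hc : G.Cub) (hT : G.HT T) (hS : S ⊆ T) (hq : G.Q4 S a b c d)
    (h : G.Sp S a b X) (h' : G.Sp S a b X') : X ⊆ X' ∨ X' ⊆ X := by
  by_contra k
  rw [not_or] at k
  have h1 := hT.mono3 (sdiff_subset.trans (h.1.trans hS)) (sdiff_nonempty.2 k.1)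
  have h2 := hT.mono3 (sdiff_subset.trans (h'.1.trans hS)) (sdiff_nonempty.2 k.2)
  have h3 := cut_posi (G := G) (X := X) (Y := X')
  have h4 : ∀ e, e ∈ G.cut X ∧ e ∈ G.cut S → e ∈ G.cut X' ∧ e ∈ G.cut S →
      e ∈ G.cut (X ∩ X') ∩ G.cut (X ∪ X') := fun e h5 h6 => by
    refine mem_inter.2 ⟨?_, Spl_mid subset_union_left (union_subset h.1 h'.1) h5.1 h5.2⟩
    refine (Spl_cut_of (inter_subset_left.trans h.1) h5.2 (mem_inter.2 ⟨?_, ?_⟩)).1
    · exact (cut_of_sub h.1 h5.2 (cut_sub_tch h5.1)).2 ▸ Spl_ie h5.1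
    · exact (cut_of_sub h'.1 h6.2 (cut_sub_tch h6.1)).2 ▸ Spl_ie h6.1
  have h5 := card_le_card (insert_subset (h4 a (Spl_ab h).1 (Spl_ab h').1)
    (singleton_subset_iff.2 (h4 b (Spl_ab h).2 (Spl_ab h').2)))
  rw [card_pair hq.2.1] at h5
  rw [h.2.1, h'.2.1] at h3
  omega

/-- splits of the rest correspond to larger splits -/
theorem Sp.add (hq : G.Q4 S a b c d) (h : G.Sp S a b X) (hx : G.Q4 X a b x y)
    (h' : G.Sp (S \ X) x y X') :
    G.Sp S a b (X ∪ X') ∧ G.cut (X ∪ X') \ {a, b} = G.cut X' \ {x, y} := by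
  have h1 := Spl_q4 hq h hx
  have hs : X ∪ X' ⊆ S := union_subset h.1 (h'.1.trans sdiff_subset)
  have hd : (X ∪ X') \ X = X' := by
    rw [union_sdiff_left, Finset.sdiff_eq_self_iff_disjoint]
    exact disjoint_of_subset_left h'.1 sdiff_disjoint
  obtain ⟨u, w, hu⟩ := exists_q4 h'.2.1 (Spl_ab h').1.1 (Spl_ab h').2.1 h1.2.1
  have h2 : ∀ e, e ∈ G.cut X ∧ e ∈ G.cut S → e ∉ G.cut X' := fun e h3 h4 =>
    (Spl_sd subset_union_left e).1 (hd.symm ▸ h4)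
      (iff_of_true (Spl_mid subset_union_left hs h3.1 h3.2) h3.1)
  have h3 := h2 a (Spl_ab h).1
  have h4 := h2 b (Spl_ab h).2
  obtain ⟨h5, h6⟩ := Spl_not h' hu
  rw [Spl_mem hu] at h3 h4
  rw [Spl_mem h1] at h5 h6
  have h7 : G.Q4 (X ∪ X') a b u w := by
    refine ⟨?_, hq.2.1, by grind, by grind, by grind, by grind, hu.2.2.2.2.2.2⟩
    ext e
    have h8 := Spl_sd (G := G) (subset_union_left (s₁ := X) (s₂ := X')) e
    rw [hd, Spl_mem hu, Spl_mem hx] at h8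
    obtain ⟨-, k⟩ := hx
    simp only [mem_insert, mem_singleton]
    grind
  refine ⟨⟨hs, h7.card, ?_⟩, by rw [Spl_diff h7, Spl_diff hu]⟩
  ext e
  simp only [mem_inter, Spl_mem h7, Spl_mem hq, mem_insert, mem_singleton]
  grind

theorem Sp.sub (hc : G.Cub) (hT : G.HT T) (hS : S ⊆ T) (hq : G.Q4 S a b c d)
    (h : G.Sp S a b X) (hx : G.Q4 X a b x y) (h' : G.Sp S a b X') (hs : X ⊂ X') :
    G.Sp (S \ X) x y (X' \ X) ∧ G.cut (X' \ X) \ {x, y} = G.cut X' \ {a, b} := by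
  obtain ⟨u, w, hu⟩ := exists_q4 h'.2.1 (Spl_ab h').1.1 (Spl_ab h').2.1 hq.2.1
  have h1 := Spl_q4 hu (h'.of_sub h hs hT hS hq.2.1) hx
  have h2 := Spl_q4 hq h hx
  obtain ⟨h3, h4⟩ := Spl_not h' hu
  rw [Spl_mem hq] at h3 h4
  refine ⟨⟨sdiff_subset_sdiff h'.1 Subset.rfl, h1.card, ?_⟩, by rw [Spl_diff h1, Spl_diff hu]⟩
  ext e
  simp only [mem_inter, Spl_mem h1, Spl_mem h2, mem_insert, mem_singleton]
  grind

/-- the first piece -/
theorem exists_piece (hc : G.Cub) (hT : G.HT T) (hS : S ⊆ T) (hq : G.Q4 S a b c d) :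
    ∃ P, (P = S ∨ G.Sp S a b P) ∧ G.NC P a b ∧ ∀ X, G.Sp S a b X → P ⊆ X := by
  by_cases k : ∃ X, G.Sp S a b X
  · obtain ⟨P, h1, h2⟩ := Set.exists_min_image {X | G.Sp S a b X} card (Set.toFinite _) k
    refine ⟨P, Or.inr h1, fun X hX => (h2 X (Sp.trans h1 hX)).not_gt (card_lt_card (Spl_ss hX)),
      fun X hX => ?_⟩
    rcases Sp.nested hc hT hS hq h1 hX with h3 | h3
    · exact h3
    · exact (eq_of_subset_of_card_le h3 (h2 X hX)).ge
  · exact ⟨S, Or.inl rfl, fun X hX => k ⟨X, hX⟩, fun X hX => (k ⟨X, hX⟩).elim⟩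

/-- The next piece after a split: `X1` is the least split (or `S`) properly containing `X0`.
The edges `u, w` leave `X1`. -/
theorem exists_next (hc : G.Cub) (hT : G.HT T) (hS : S ⊆ T) (hq : G.Q4 S a b c d)
    (h : G.Sp S a b X0) (hx : G.Q4 X0 a b x y) :
    ∃ X1 u w, (X1 = S ∨ G.Sp S a b X1) ∧ G.Sp X1 a b X0 ∧ G.Q4 X1 a b u w ∧
      G.Q4 (X1 \ X0) x y u w ∧ G.NC (X1 \ X0) x y ∧ G.Dv (X1 \ X0) u w ∧
      (X1 = S → u = c ∧ w = d) ∧ ∀ X, G.Sp S a b X → X0 ⊂ X → X1 ⊆ X := by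
  have h1 := Spl_q4 hq h hx
  obtain ⟨P, h2, h3, h4⟩ := exists_piece hc hT (sdiff_subset.trans hS) h1
  have h5 : ∀ X, G.Sp S a b X → X0 ⊂ X → X0 ∪ P ⊆ X := fun X hX hs =>
    union_subset hs.1 ((h4 _ (h.sub hc hT hS hq hx hX hs).1).trans sdiff_subset)
  rcases h2 with rfl | h2
  · rw [union_sdiff_of_subset h.1] at h5
    exact ⟨S, c, d, Or.inl rfl, h, hq, h1, h3, (h.str hc hT hS hq).2.2.2.2.2.2.2.1,
      fun _ => ⟨rfl, rfl⟩, h5⟩
  · have h6 := (h.add hq hx h2).1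
    have hd : (X0 ∪ P) \ X0 = P := by
      rw [union_sdiff_left, Finset.sdiff_eq_self_iff_disjoint]
      exact disjoint_of_subset_left h2.1 sdiff_disjoint
    have hs : X0 ⊂ X0 ∪ P :=
      ⟨subset_union_left, sdiff_nonempty.1 (hd.symm ▸ Spl_nonempty h2.2.1)⟩
    have h7 := h6.of_sub h hs hT hS hq.2.1
    obtain ⟨u, w, hu⟩ := exists_q4 h6.2.1 (Spl_ab h6).1.1 (Spl_ab h6).2.1 hq.2.1
    exact ⟨_, u, w, Or.inr h6, h7, hu, Spl_q4 hu h7 hx, hd.symm ▸ h3,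
      (h7.str hc hT (h6.1.trans hS) hu).2.2.2.2.2.2.2.1, fun k => absurd k (Spl_ne h6), h5⟩

/-- the largest balanced split -/
theorem exists_bal (hc : G.Cub) (hT : G.HT T) (hS : S ⊆ T) (hq : G.Q4 S a b c d) :
    (∀ X, G.Sp S a b X → ¬ G.Bal (G.ins X)) ∨
      ∃ X0, G.Sp S a b X0 ∧ G.Bal (G.ins X0) ∧
        ∀ X, G.Sp S a b X → X0 ⊂ X → ¬ G.Bal (G.ins X) := by
  by_cases k : ∃ X, G.Sp S a b X ∧ G.Bal (G.ins X)
  · obtain ⟨P, h1, h2⟩ := Set.exists_max_image {X | G.Sp S a b X ∧ G.Bal (G.ins X)} card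
      (Set.toFinite _) k
    exact Or.inr ⟨P, h1.1, h1.2, fun X hX hs hB => (h2 X ⟨hX, hB⟩).not_gt (card_lt_card hs)⟩
  · exact Or.inl fun X hX hB => k ⟨X, hX, hB⟩

/-- F6: the position of an unbalanced side relative to a split.
HINT: if `X ⊆ S'` then `S'` is a split or `S`.  Otherwise `S'` crosses `X`; a rung cannot be
crossed (`HT.f2` for `S'`); for a side use `HT.f4` and take `X ∪ S'`. -/
theorem Sp.f6 (hc : G.Cub) (hT : G.HT T) (hS : S ⊆ T) (hq : G.Q4 S a b c d)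
    (h : G.Sp S a b X) (hS' : S' ⊆ S) (hu : G.US S') :
    S' ⊆ X ∨ S' ⊆ S \ X ∨ (c ∈ G.cut S' ∧ d ∈ G.cut S') ∨
      ∃ X', G.Sp S a b X' ∧ X ⊂ X' ∧ G.cut X' \ {a, b} ⊆ G.cut S' := by
  by_cases k1 : S' ⊆ X
  · exact Or.inl k1
  by_cases k2 : S' ⊆ S \ X
  · exact Or.inr (Or.inl k2)
  refine Or.inr (Or.inr ?_)
  obtain ⟨-, -, e1, e2, -, -, d1, -, -, -, n1, n2, -⟩ := h.str hc hT hS hq
  obtain ⟨ha, hb⟩ := Spl_ab h
  have hs : X ∪ S' ⊆ S := union_subset h.1 hS'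
  have h3 := hT.us_card hc (hS'.trans hS) hu
  have h4 : (G.cut (X ∪ S')).card = 4 := by
    by_cases k3 : X ⊆ S'
    · rw [union_eq_right.2 k3, hu.1]
    obtain ⟨v, v1, v2⟩ := not_subset.1 k2
    have v3 : v ∈ X := by
      by_contra k
      exact v2 (mem_sdiff.2 ⟨hS' v1, k⟩)
    by_cases k4 : 2 < X.card
    · refine (hT.f4 hc (h.1.trans hS) (hS'.trans hS) h.2.1 hu.1 k4 (by omega) ?_
        ⟨v, mem_inter.2 ⟨v3, v1⟩⟩ (sdiff_nonempty.2 k3) (sdiff_nonempty.2 k1)).2.1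
      have := hT.four' hS hq.card hs ((by omega : 2 ≤ S'.card).trans (card_le_card subset_union_right))
      omega
    obtain ⟨h5, m, h6, h7⟩ := Spl_rung hc hT (h.1.trans hS) h.2.1 (by omega) (Spl_ie ha.1)
      (Spl_ie hb.1) d1
    have key : ∀ e, e ∈ G.cut X ∧ e ∈ G.cut S → G.ie X e ∈ S' → G.At m (G.ie X e) →
        m ∉ G.cut S' := fun e he h8 h9 hm => by
      rw [(cut_of_sub h.1 he.2 (cut_sub_tch he.1)).2] at h8 h9
      obtain ⟨h10, h11⟩ := Spl_cut_of hS' he.2 h8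
      exact hT.f2 hc (hS'.trans hS) hu.1 (by omega) h10 hm
        (fun k => not_ins_of_cut he.1 (k ▸ h6)) (h11.trans (eq_ie hm h8 h9))
    have k5 : ¬ (G.ie X a ∈ S' ∧ G.ie X b ∈ S') := fun k => k3 (by
      rw [h5]
      exact insert_subset k.1 (singleton_subset_iff.2 k.2))
    have k6 : G.ie X a ∈ S' ∨ G.ie X b ∈ S' := by
      rw [h5, mem_insert, mem_singleton] at v3
      rcases v3 with k | k
      exacts [Or.inl (k ▸ v1), Or.inr (k ▸ v1)]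
    have hm : m ∈ G.cut S' := by
      refine mem_cut.2 ⟨(mem_ins.1 h6).1, ?_⟩
      rcases h7 with ⟨j1, j2⟩ | ⟨j1, j2⟩ <;> rw [j1, j2] <;> (clear * - ha hb k5 k6; tauto)
    exfalso
    rcases k6 with k6 | k6
    · exact key a ha k6 (h7.imp And.left And.right) hm
    · exact key b hb k6 (h7.symm.imp And.left And.right) hm
  by_cases k3 : X ∪ S' = S
  · have key : ∀ e ∈ G.cut S, e ∉ G.tch X → e ∈ G.cut S' := fun e he hn =>
      (mem_union.1 (cut_union_sub (k3.symm ▸ he))).resolve_left fun k => hn (cut_sub_tch k)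
    exact Or.inl ⟨key c hq.mem.2.2.1 n1, key d hq.mem.2.2.2 n2⟩
  have h5 := Spl_sp_of hT hS (Finset.ssubset_iff_subset_ne.2 ⟨hs, k3⟩) hq.card h4 hq.2.1
    ⟨Spl_mid subset_union_left hs ha.1 ha.2, ha.2⟩ ⟨Spl_mid subset_union_left hs hb.1 hb.2, hb.2⟩
  have h6 : X ⊂ X ∪ S' := ⟨subset_union_left, fun k => k1 (subset_union_right.trans k)⟩
  refine Or.inr ⟨_, h5, h6, fun e he => ?_⟩
  obtain ⟨h7, h8⟩ := mem_sdiff.1 he
  refine (mem_union.1 (cut_union_sub h7)).resolve_left fun k => h8 ?_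
  rw [← (h5.of_sub h h6 hT hS hq.2.1).2.2]
  exact mem_inter.2 ⟨k, h7⟩

/-- a balanced split followed by one piece -/
theorem Sp.cov1 (hc : G.Cub) (hT : G.HT T) (hS : S ⊆ T) (hq : G.Q4 S a b c d)
    (h : G.Sp S a b X) (hx : G.Q4 X a b x y) (hB : G.Bal (G.ins X)) (hN : G.NC (S \ X) x y) :
    ∀ t ∈ G.Kus S, t ∈ G.Kus (S \ X) ∨ (c ∈ t ∧ d ∈ t) := by
  rintro _ ⟨S', h1, h2, rfl⟩
  rcases h.f6 hc hT hS hq h1 h2 with k | k | k | ⟨X', k1, k2, -⟩
  · exact absurd (hB.mono (ins_mono k)) h2.2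
  · exact Or.inl ⟨S', k, h2, rfl⟩
  · exact Or.inr k
  · exact absurd (h.sub hc hT hS hq hx k1 k2).1 (hN _)

/-- a rung left over is the complement of a split -/
theorem Rg.sp (hc : G.Cub) (hT : G.HT T) (hS : S ⊆ T) (hq : G.Q4 S a b c d) (h2 : 2 < S.card)
    (h : G.Rg S X c d) (hX : X ≠ S) : G.Sp S a b X ∧ (S \ X).card = 2 := by
  obtain ⟨h1, h3, h4, h5⟩ := h.resolve_left hX
  have h6 : (S \ X).card = 2 := by rw [h3, card_pair h4]
  have hc' := hq.mem.2.2.1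
  have hd := hq.mem.2.2.2
  have h7 := (hT.rung' hc (hS (Spl_ie hc')) (hS (Spl_ie hd)) h4 h5).1
  rw [← h3] at h7
  have h8 := Spl_sp_of hT hS (Finset.ssubset_iff_subset_ne.2 ⟨sdiff_subset, fun k => by
      rw [k] at h6
      omega⟩) hq.card h7 hq.2.2.2.2.2.2
    ⟨(Spl_cut_of sdiff_subset hc' (by simp [h3])).1, hc'⟩
    ⟨(Spl_cut_of sdiff_subset hd (by simp [h3])).1, hd⟩
  have h9 := h8.compl hq.flip
  rw [Finset.sdiff_sdiff_eq_self h1] at h9
  exact ⟨h9, h6⟩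

theorem Sp.rg (hc : G.Cub) (hT : G.HT T) (hS : S ⊆ T) (hq : G.Q4 S a b c d)
    (h : G.Sp S a b X) (h2 : (S \ X).card ≤ 2) : G.Rg S X c d := by
  obtain ⟨-, -, -, -, e1, e2, -, d1, -⟩ := h.str hc hT hS hq
  have k := h.compl hq
  obtain ⟨h5, m, h6, h7⟩ := Spl_rung hc hT (k.1.trans hS) k.2.1 h2 (Spl_ie (Spl_ab k).1.1)
    (Spl_ie (Spl_ab k).2.1) d1
  rw [Dv, e1, e2] at d1
  rw [e1, e2] at h5 h7
  exact Or.inr ⟨h.1, h5, d1, m, ins_sub_A h6, h7⟩

theorem rg_rung (hc : G.Cub) (hT : G.HT T) (hS : S ⊆ T) (hq : G.Q4 S a b c d) (hd : G.Dv S c d)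
    (h2 : S.card ≤ 2) : G.Rg S ∅ c d ∧ G.Lk S a b = ∅ ∧ G.Kus S = ∅ ∧ G.NC S a b := by
  obtain ⟨h5, m, h6, h7⟩ := Spl_rung hc hT hS hq.card h2 (Spl_ie hq.mem.2.2.1)
    (Spl_ie hq.mem.2.2.2) hd
  have hN : G.NC S a b := fun X hX => (hX.str hc hT hS hq).2.1.not_ge h2
  refine ⟨Or.inr ⟨empty_subset _, sdiff_empty.trans h5, hd, m, ins_sub_A h6, h7⟩,
    Set.eq_empty_of_forall_notMem fun t ⟨X, hX, _⟩ => hN X hX,
    Set.eq_empty_of_forall_notMem fun t ⟨X, h8, h9, _⟩ => ?_, hN⟩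
  have := hT.us_card hc (h8.trans hS) h9
  have := card_le_card h8
  omega

theorem Rg.swap (h : G.Rg S X c d) : G.Rg S X d c := by
  exact h.imp_right fun k => ⟨k.1, k.2.1.trans (pair_comm _ _), Ne.symm k.2.2.1, k.2.2.2.symm⟩

theorem Rg.sub (h : G.Rg S X c d) : X ⊆ S := by
  exact h.elim (fun k => k.le) And.left

/-- the terminals of the passed pair are absorbed -/
theorem Rg.ie_mem (hc : G.Cub) (hT : G.HT T) (hS : S ⊆ T) (hq : G.Q4 S a b c d) (h2 : 2 < S.card)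
    (h : G.Rg S X c d) : G.ie S a ∈ X ∧ G.ie S b ∈ X ∧ a ∈ G.cut X ∧ b ∈ G.cut X := by
  by_cases hX : X = S
  · subst hX
    exact ⟨Spl_ie hq.mem.1, Spl_ie hq.mem.2.1, hq.mem.1, hq.mem.2.1⟩
  have k := (h.sp hc hT hS hq h2 hX).1
  obtain ⟨-, -, e1, e2, -⟩ := k.str hc hT hS hq
  exact ⟨e1 ▸ Spl_ie (Spl_ab k).1.1, e2 ▸ Spl_ie (Spl_ab k).2.1, (Spl_ab k).1.1, (Spl_ab k).2.1⟩

/-- the leftover of the rest is the leftover of the whole -/
theorem Rg.add (hc : G.Cub) (hT : G.HT T) (hS : S ⊆ T) (hq : G.Q4 S a b c d)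
    (h : G.Sp S a b X) (h' : G.Rg (S \ X) X' c d) : G.Rg S (X ∪ X') c d := by
  obtain ⟨-, -, -, -, e1, e2, -⟩ := h.str hc hT hS hq
  rcases h' with rfl | ⟨h1, h2, h3, h4⟩
  · exact Or.inl (union_sdiff_of_subset h.1)
  · rw [Dv, e1, e2] at h3
    rw [e1, e2] at h2 h4
    refine Or.inr ⟨union_subset h.1 (h1.trans sdiff_subset), ?_, h3, h4⟩
    rw [← h2, sdiff_sdiff_left, sup_eq_union]

/-- a balanced split followed by a last rung -/
theorem Rg.e1 (hc : G.Cub) (hT : G.HT T) (hS : S ⊆ T) (hq : G.Q4 S a b c d)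
    (h : G.Rg S X c d) (hB : G.Bal (G.ins X)) (hX : X ≠ S) : ∀ t ∈ G.Kus S, c ∈ t ∧ d ∈ t := by
  rintro t ⟨S', h1, h2, rfl⟩
  have h3 := hT.us_card hc (h1.trans hS) h2
  have h4 := card_le_card h1
  obtain ⟨k, k'⟩ := h.sp hc hT hS hq (by omega) hX
  obtain ⟨-, -, -, -, -, -, -, d1, -, -, -, -, x, y, hx, hy⟩ := k.str hc hT hS hq
  obtain ⟨-, -, h5, h6⟩ := rg_rung hc hT (sdiff_subset.trans hS) hy d1 k'.le
  refine (k.cov1 hc hT hS hq hx hB h6 _ ⟨S', h1, h2, rfl⟩).resolve_left ?_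
  rw [h5]
  exact Set.notMem_empty _

/-- the link between two balanced parts of an unbalanced set is inconsistent -/
theorem sgn (hX : X ⊆ S) (hxy : G.crs (G.ins S) X = {x, y}) (hu : ¬ G.Bal (G.ins S))
    {p q : V → ZMod 2} (hp : ∀ e ∈ G.ins X, G.sw p e = 0) (hq : ∀ e ∈ G.ins (S \ X), G.sw q e = 0) :
    p (G.ie X x) + p (G.ie X y) + (G.n x + G.n y) + (q (G.ie (S \ X) x) + q (G.ie (S \ X) y)) = 1 := by
  by_contra k
  have k0 := (z2 _).resolve_right k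
  refine hu ⟨fun v => if v ∈ X then p v else q v + (p (G.ie X x) + G.n x + q (G.ie (S \ X) x)),
    fun e he => ?_⟩
  obtain ⟨h1, h2, h3⟩ := mem_ins.1 he
  have key : e ∈ G.crs (G.ins S) X → p (G.ie X e) + G.n e + q (G.ie (S \ X) e) +
      (p (G.ie X x) + G.n x + q (G.ie (S \ X) x)) = 0 := fun h4 => by
    rw [hxy, mem_insert, mem_singleton] at h4
    rcases h4 with rfl | rfl
    · exact z2_add_self _
    · linear_combination k0
  by_cases h4 : G.s e ∈ X <;> by_cases h5 : G.t e ∈ X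
  · simpa only [sw, if_pos h4, if_pos h5] using hp e (mem_ins.2 ⟨h1, h4, h5⟩)
  · have := key (mem_crs.2 ⟨he, by tauto⟩)
    rw [show G.ie X e = G.s e from if_pos h4,
      show G.ie (S \ X) e = G.t e from if_neg (by simp [h4])] at this
    simp only [sw, if_pos h4, if_neg h5]
    linear_combination this
  · have := key (mem_crs.2 ⟨he, by tauto⟩)
    rw [show G.ie X e = G.t e from if_neg h4,
      show G.ie (S \ X) e = G.s e from if_pos (mem_sdiff.2 ⟨h2, h4⟩)] at this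
    simp only [sw, if_neg h4, if_pos h5]
    linear_combination this
  · have := hq e (mem_ins.2 ⟨h1, mem_sdiff.2 ⟨h2, h4⟩, mem_sdiff.2 ⟨h3, h5⟩⟩)
    simp only [sw, if_neg h4, if_neg h5] at this ⊢
    linear_combination this + z2_add_self (p (G.ie X x) + G.n x + q (G.ie (S \ X) x))

/-- If both `S - c` and `S - d` are balanced then `S` is a four-cycle with the pair diagonal.
HINT: PROOF.md, lemma QD. -/
theorem qd_of_bal (hc : G.Cub) (hT : G.HT T) (hS : S ⊆ T) (hu : G.US S) (hq : G.Q4 S a b c d)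
    (hN : G.NC S a b) (h1 : G.Bal (G.ins (S.erase (G.ie S c))))
    (h2 : G.Bal (G.ins (S.erase (G.ie S d)))) : G.Qd S a b := by
  obtain ⟨p, hp⟩ := h1
  obtain ⟨q, hq'⟩ := h2
  have h4 := hT.us_card hc hS hu
  obtain ⟨ma, mb, mc, md⟩ := hq.mem
  have f2 : ∀ {e f : E}, e ∈ G.cut S → f ∈ G.cut S → e ≠ f → G.ie S e ≠ G.ie S f :=
    fun he hf hne => hT.f2 hc hS hq.card (by omega) he hf hne
  have hcd := f2 mc md hq.2.2.2.2.2.2
  obtain ⟨R, hR⟩ : ∃ R, R = ({G.ie S c, G.ie S d} : Finset V) := ⟨_, rfl⟩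
  have hRS : R ⊆ S := hR ▸ insert_subset (Spl_ie mc) (singleton_subset_iff.2 (Spl_ie md))
  have hR2 : R.card = 2 := hR ▸ card_pair hcd
  have mW : ∀ v, v ∈ S \ R ↔ v ∈ S ∧ v ≠ G.ie S c ∧ v ≠ G.ie S d := fun v => by simp [hR]
  have hW : (G.cut (S \ R)).card ≤ 6 := by
    have k1 := Spl_card (G := G) hRS
    have k2 := deg_sum hc (hRS.trans (hS.trans hT.act))
    have k3 := card_le_card (insert_subset
      (mem_inter.2 ⟨(Spl_cut_of hRS mc (by simp [hR])).1, mc⟩)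
      (singleton_subset_iff.2 (mem_inter.2 ⟨(Spl_cut_of hRS md (by simp [hR])).1, md⟩)))
    rw [card_pair hq.2.2.2.2.2.2] at k3
    have := hq.card
    omega
  have hE : ∀ e ∈ G.ins (S \ R), p (G.s e) + q (G.s e) = p (G.t e) + q (G.t e) := fun e he => by
    obtain ⟨k1, k2, k3⟩ := mem_ins.1 he
    rw [mW] at k2 k3
    have k4 := hp e (mem_ins.2 ⟨k1, mem_erase.2 ⟨k2.2.1, k2.1⟩, mem_erase.2 ⟨k3.2.1, k3.1⟩⟩)
    have k5 := hq' e (mem_ins.2 ⟨k1, mem_erase.2 ⟨k2.2.2, k2.1⟩, mem_erase.2 ⟨k3.2.2, k3.1⟩⟩)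
    rw [sw] at k4 k5
    refine z2_eq_of_add ?_
    linear_combination k4 + k5 - z2_add_self (G.n e)
  have ha : G.ie S a ∈ S \ R := (mW _).2 ⟨Spl_ie ma, f2 ma mc hq.2.2.1, f2 ma md hq.2.2.2.1⟩
  have hb : G.ie S b ∈ S \ R :=
    (mW _).2 ⟨Spl_ie mb, f2 mb mc hq.2.2.2.2.1, f2 mb md hq.2.2.2.2.2.1⟩
  obtain ⟨δ, hδ⟩ : ∃ δ, δ = p (G.ie S a) + q (G.ie S a) := ⟨_, rfl⟩
  obtain ⟨Z, hZ⟩ : ∃ Z, Z = (S \ R).filter fun v => p v + q v = δ := ⟨_, rfl⟩
  have mZ : ∀ v, v ∈ Z ↔ v ∈ S \ R ∧ p v + q v = δ := fun v => by rw [hZ, mem_filter]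
  have hZW : Z ⊆ S \ R := fun v hv => ((mZ v).1 hv).1
  have haZ : G.ie S a ∈ Z := (mZ _).2 ⟨ha, hδ.symm⟩
  by_cases k : Z = S \ R
  · exfalso
    by_cases hA : G.Adj G.A (G.ie S c) (G.ie S d)
    · refine hN _ (Rg.sp hc hT hS hq (by omega) (X := S \ R)
        (Or.inr ⟨sdiff_subset, (Finset.sdiff_sdiff_eq_self hRS).trans hR, hcd, hA⟩) fun k => ?_).1
      exact ((mW _).1 (k.symm ▸ Spl_ie mc)).2.1 rfl
    refine hu.2 ⟨fun v => if v = G.ie S c then q v + δ else p v, fun e he => ?_⟩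
    obtain ⟨k1, k2, k3⟩ := mem_ins.1 he
    have key : ∀ v ∈ S, v ≠ G.ie S d → (if v = G.ie S c then q v + δ else p v) = q v + δ :=
      fun v hv hd => by
        split_ifs with k4
        · rfl
        · have := ((mZ v).1 (k ▸ (mW v).2 ⟨hv, k4, hd⟩)).2
          linear_combination this - z2_add_self (q v)
    by_cases k4 : G.s e ≠ G.ie S d ∧ G.t e ≠ G.ie S d
    · have := hq' e (mem_ins.2 ⟨k1, mem_erase.2 ⟨k4.1, k2⟩, mem_erase.2 ⟨k4.2, k3⟩⟩)
      simp only [sw, key _ k2 k4.1, key _ k3 k4.2] at this ⊢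
      linear_combination this + z2_add_self δ
    · have k5 : G.s e ≠ G.ie S c := fun k5 => by
        rcases not_and_or.1 k4 with k6 | k6
        exacts [hcd (k5.symm.trans (not_not.1 k6)), hA ⟨e, k1, Or.inl ⟨k5, not_not.1 k6⟩⟩]
      have k6 : G.t e ≠ G.ie S c := fun k5 => by
        rcases not_and_or.1 k4 with k6 | k6
        exacts [hA ⟨e, k1, Or.inr ⟨not_not.1 k6, k5⟩⟩, hcd (k5.symm.trans (not_not.1 k6))]
      simpa only [sw, if_neg k5, if_neg k6] using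
        hp e (mem_ins.2 ⟨k1, mem_erase.2 ⟨k5, k2⟩, mem_erase.2 ⟨k6, k3⟩⟩)
  have k1 : G.crs (G.ins (S \ R)) Z = ∅ := filter_eq_empty_iff.2 fun e he k1 => k1 (by
    rw [mZ, mZ, hE e he]
    simp only [(mem_ins.1 he).2.1, (mem_ins.1 he).2.2])
  have k2 := cut_add (G := G) hZW
  rw [k1, card_empty] at k2
  have hWT : S \ R ⊆ T := sdiff_subset.trans hS
  have hcT : ∀ Y ⊆ S \ R, Y ≠ T := fun Y hY k3 =>
    ((mW _).1 (hY (k3.symm ▸ hS (Spl_ie mc)))).2.1 rfl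
  obtain ⟨k3, k4⟩ := hT Z (hZW.trans hWT) ⟨_, haZ⟩
  obtain ⟨k5, k6⟩ := hT ((S \ R) \ Z) (sdiff_subset.trans hWT)
    (sdiff_nonempty.2 fun k5 => k (hZW.antisymm k5))
  have k7 := (k4 (by omega)).resolve_right (hcT _ hZW)
  have k8 := (k6 (by omega)).resolve_right (hcT _ sdiff_subset)
  have k9 := card_sdiff_add_card_eq_card hZW
  have k10 := card_sdiff_add_card_eq_card hRS
  refine ⟨by omega, fun ⟨e, he, hj⟩ => f2 ma mb hq.2.1 (card_le_one.1 k7.le _ haZ _ ?_)⟩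
  refine (mZ _).2 ⟨hb, ?_⟩
  rcases hj with ⟨j1, j2⟩ | ⟨j1, j2⟩
  · rw [hδ, ← j1, ← j2, hE e (mem_ins.2 ⟨he, j1 ▸ ha, j2 ▸ hb⟩)]
  · rw [hδ, ← j1, ← j2, hE e (mem_ins.2 ⟨he, j1 ▸ hb, j2 ▸ ha⟩)]

/-- a four-cycle with a diagonal pair is not a chain -/
theorem Qd.nc (hc : G.Cub) (hT : G.HT T) (hS : S ⊆ T) (hq : G.Q4 S a b c d) (h : G.Qd S a b) :
    G.NC S a b := by
  intro X hX
  obtain ⟨-, -, e1, e2, -, -, d1, -⟩ := hX.str hc hT hS hq
  have k := hX.compl hq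
  have h1 := Spl_two hc hT (k.1.trans hS) k.2.1
  have h2 := card_sdiff_add_card_eq_card hX.1
  have h3 := h.1
  obtain ⟨-, m, h6, h7⟩ := Spl_rung hc hT (hX.1.trans hS) hX.2.1 (by omega) (Spl_ie (Spl_ab hX).1.1)
    (Spl_ie (Spl_ab hX).2.1) d1
  rw [e1, e2] at h7
  exact h.2 ⟨m, ins_sub_A h6, h7⟩

/-- The cut condition in a side that is not a chain: with the virtual edge between the
terminals of `a, b`, every set other than `{tc}`, `{td}` has at least three leaving edges. -/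
theorem NC.three (hc : G.Cub) (hT : G.HT T) (hS : S ⊆ T) (hq : G.Q4 S a b c d) (h2 : 2 < S.card)
    (hN : G.NC S a b) (hX : X ⊆ S) (hn : X.Nonempty) (hX' : X ≠ S) (h1 : X ≠ {G.ie S c})
    (h3 : X ≠ {G.ie S d}) (h4 : S \ X ≠ {G.ie S c}) (h5 : S \ X ≠ {G.ie S d}) :
    3 ≤ (G.crs (G.ins S) X).card + iv (¬ (G.ie S a ∈ X ↔ G.ie S b ∈ X)) := by
  by_cases ha : G.ie S a ∈ X <;> by_cases hb : G.ie S b ∈ X
  · exact (Spl_three hT hS hq h2 hN hX hX' ha hb h4 h5).trans (Nat.le_add_right _ _)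
  · have := hT.f3 hS hq.card h2 X hX hn hX'
    simp only [iv, ha, hb, iff_false, not_true, not_false_iff, if_true]
    omega
  · have := hT.f3 hS hq.card h2 X hX hn hX'
    simp only [iv, ha, hb, iff_true, not_false_iff, if_true]
    omega
  · refine le_trans ?_ (Nat.le_add_right _ _)
    rw [← crs_sdiff hX]
    refine Spl_three hT hS hq h2 hN sdiff_subset (fun k => ?_) (mem_sdiff.2 ⟨Spl_ie hq.mem.1, ha⟩)
      (mem_sdiff.2 ⟨Spl_ie hq.mem.2.1, hb⟩) ?_ ?_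
    · obtain ⟨v, hv⟩ := hn
      exact (mem_sdiff.1 (k.symm ▸ hX hv : v ∈ S \ X)).2 hv
    · rwa [Finset.sdiff_sdiff_eq_self hX]
    · rwa [Finset.sdiff_sdiff_eq_self hX]

end SG

end Pool.Agent.Work.MP_8c679b_co
end
end

-- merged part: Pool.Agent.Work.MP_8c679b_co.Six.GNorm
section
-- merged part: Pool.Agent.Work.MP_8c679b_co.Six.Book
section
/-!
Bookkeeping of targets after a run.
-/

set_option autoImplicit false

namespace Pool.Agent.Work.MP_8c679b_co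

open Finset

namespace SG

variable {V E : Type} [Fintype V] [DecidableEq V] [DecidableEq E] {G : SG V E}
  {T W X : Finset V} {J : Finset E} {Bs Ds : Finset (Finset V)} {Fm : Set (Finset V)}
  {K K' : Set (Finset E)}

omit [Fintype V] in
private theorem Book_pd {Ns : Finset (Finset V)} (h : PD Ns) {A B : Finset V} (hA : A ∈ Ns)
    (hB : B ∈ Ns) {x : V} (h1 : x ∈ A) (h2 : x ∈ B) : A = B := by
  by_contra k
  exact disjoint_left.1 (h A hA B hB k) h1 h2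

omit [Fintype V] in
private theorem Book_other {O : Finset E} {u : V} {a : E} (h0 : G.dg O u = 0) (ha : a ∈ O)
    (hat : G.At a u) (hl : G.s a ≠ G.t a) : ∃ f ∈ O, f ≠ a ∧ G.At f u := by
  by_contra k
  have k' : ∀ f ∈ O, f ≠ a → ¬ G.At f u := fun f h1 h2 h3 => k ⟨f, h1, h2, h3⟩
  have h1 : G.dg O u = iv (G.s a = u) + iv (G.t a = u) := by
    refine sum_eq_single_of_mem a ha fun f h1 h2 => ?_
    have h3 := k' f h1 h2
    have h4 : G.s f ≠ u := fun k1 => h3 (Or.inl k1)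
    have h5 : G.t f ≠ u := fun k1 => h3 (Or.inr k1)
    simp [iv, h4, h5]
  rw [h0] at h1
  rcases hat with h | h
  · have h2 : G.t a ≠ u := fun k1 => hl (h.trans k1.symm)
    simp [iv, h, h2] at h1
  · have h2 : G.s a ≠ u := fun k1 => hl (k1.trans h.symm)
    simp [iv, h, h2] at h1

omit [Fintype V] in
private theorem Book_cut_ne {S : Finset V} {a : E} (h : a ∈ G.cut S) : G.s a ≠ G.t a := fun k =>
  (mem_cut.1 h).2 (by rw [k])

omit [Fintype V] in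
private theorem Book_st {O : Finset E} (h : G.St X O ∅) : O ⊆ G.ins X := fun e he => by
  have h1 := mem_tch.1 (h.1 he)
  have h2 : e ∉ G.cut X := fun k => by
    have : e ∈ O ∩ G.cut X := mem_inter.2 ⟨he, k⟩
    rw [h.2.2] at this
    exact notMem_empty _ this
  rw [mem_cut] at h2
  rw [mem_ins]
  tauto

omit [Fintype V] in
private theorem Book_leave {S : Finset V} (hS : S ⊆ W) (h : ¬ G.cut S ⊆ G.ins W ∪ J) :
    ∃ e ∈ G.cut S, e ∈ G.cut W ∧ e ∉ J := by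
  obtain ⟨e, h1, h2⟩ := not_subset.1 h
  rw [mem_union, not_or] at h2
  refine ⟨e, h1, ?_, h2.2⟩
  have h3 := h2.1
  have h4 := @hS (G.s e)
  have h5 := @hS (G.t e)
  rw [mem_ins] at h3
  rw [mem_cut] at h1 ⊢
  (clear * - h1 h2 h3 h4 h5; grind)

/-- the edges at a vertex of a rung -/
private theorem Book_at {ρ : Finset V} {u v : V} {m a b c d f : E} (huv : u ≠ v) (hu : u ∈ ρ)
    (hm : G.ins ρ = {m}) (hq : G.cut ρ = {a, b, c, d}) (hb : G.ie ρ b = v) (hd : G.ie ρ d = v)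
    (hf : f ∈ G.A) (hat : G.At f u) : f = m ∨ f = a ∨ f = c := by
  have h1 : f ∈ G.tch ρ := mem_tch.2 ⟨hf, by rcases hat with rfl | rfl <;> simp [hu]⟩
  rcases mem_tch_iff.1 h1 with h2 | h2
  · rw [hm] at h2
    exact Or.inl (mem_singleton.1 h2)
  · have h3 := eq_ie h2 hu hat
    rw [hq] at h2
    simp only [mem_insert, mem_singleton] at h2
    rcases h2 with rfl | rfl | rfl | rfl
    · exact Or.inr (Or.inl rfl)
    · exact absurd (h3.trans hb) huv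
    · exact Or.inr (Or.inr rfl)
    · exact absurd (h3.trans hd) huv

omit [Fintype V] in
/-- a ready rung stays ready in a smaller region that contains its end edges -/
private theorem Book_rdy {W' ρ : Finset V} {J' : Finset E} (h : G.Rdy W J ρ) (hW : W' ⊆ W)
    (h1 : ρ ⊆ W') (h2 : G.tg W ρ ⊆ G.ins W') (hJ : J' ⊆ J) : G.Rdy W' J' ρ := by
  refine ⟨h1, h.2.1, fun x hx => ?_⟩
  obtain ⟨⟨e, a1, a2, a3⟩, e', b1, b2⟩ := h.2.2 x hx
  refine ⟨⟨e, ?_, fun k => a2 (hJ k), a3⟩, e', mem_inter.2 ⟨(mem_inter.1 b1).1, h2 b1⟩, b2⟩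
  have c1 := h1 hx
  have c2 := @hW (G.s e)
  have c3 := @hW (G.t e)
  rw [mem_cut] at a1 ⊢
  rcases a3 with rfl | rfl <;> (clear * - a1 c1 c2 c3; tauto)

omit [Fintype V] in
private theorem Book_tg {W' ρ : Finset V} (hW : W' ⊆ W) : G.tg W' ρ ⊆ G.tg W ρ :=
  inter_subset_inter_left (ins_mono hW)

theorem BS.mono (h : G.BS W Bs Ds X K) (hK : K ⊆ K') : G.BS W Bs Ds X K' := by
  refine ⟨h.1, fun B hB => (h.2.1 B hB).imp_right ?_, fun ρ hρ => (h.2.2 ρ hρ).imp_right ?_⟩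
  · rintro ⟨a, b, c, d, h1, h2, h3⟩
    exact ⟨a, b, c, d, h1, h2, h3.trans hK⟩
  · exact fun k => ⟨k.1, hK k.2⟩

/-- The state after passing disjoint nodes.  Indices outside `I` are not passed (their regions
are empty).  Nodes may lie outside `W` (digons). -/
theorem bs_run {n : ℕ} {N Xs : ℕ → Finset V} {e : ℕ → E} {Ks : ℕ → Set (Finset E)}
    (hpd : PD (Bs ∪ Ds)) (hbd : Disjoint Bs Ds) (hD : ∀ ρ ∈ Ds, ρ ⊆ W) (I : ℕ → Prop)
    (hd : ∀ i ≤ n, ∀ j ≤ n, i ≠ j → Disjoint (N i) (N j))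
    (hI : ∀ i ≤ n, I i → Xs i ⊆ N i ∧ G.NP W Bs Ds (N i) (e i) (e (i + 1)) (Xs i) (Ks i))
    (hI' : ∀ i ≤ n, ¬ I i → Xs i = ∅) (hB : ∀ B ∈ Bs, B ⊆ W) :
    G.BS W Bs Ds (bu n Xs ∩ W) (ku n Ks) := by
  have hI2 : ∀ i ≤ n, ∀ x ∈ Xs i, I i := fun i hi x hx => by
    by_contra k
    rw [hI' i hi k] at hx
    exact notMem_empty _ hx
  refine ⟨inter_subset_right, fun B hB' => ?_, fun ρ hρ => ?_⟩
  · by_cases k : Disjoint B (bu n Xs ∩ W)
    · exact Or.inl k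
    right
    obtain ⟨x, hx, hx'⟩ := not_disjoint_iff.1 k
    obtain ⟨i, hi, hxi⟩ := mem_bu.1 (mem_inter.1 hx').1
    obtain ⟨h1, h2⟩ := hI i hi (hI2 i hi x hxi)
    rcases h2 with ⟨h3, -, -⟩ | ⟨h3, -, -⟩ | ⟨h3, c, d, h4, h5, h6⟩
    · exact absurd (h1 hxi) (disjoint_left.1 (h3 B hB') hx)
    · have h4 := Book_pd hpd (mem_union_left _ hB') (mem_union_right _ h3) hx (h1 hxi)
      exact absurd (h4 ▸ h3) (disjoint_left.1 hbd hB')
    · have h7 := Book_pd hpd (mem_union_left _ hB') (mem_union_left _ h3) hx (h1 hxi)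
      have h8 : B ∩ (bu n Xs ∩ W) = Xs i := by
        ext y
        simp only [mem_inter, mem_bu]
        constructor
        · rintro ⟨y1, ⟨j, hj, y2⟩, -⟩
          by_cases hij : i = j
          · exact hij ▸ y2
          · exact absurd ((hI j hj (hI2 j hj y y2)).1 y2)
              (disjoint_left.1 (hd i hi j hj hij) (h7 ▸ y1))
        · exact fun y1 => ⟨h7 ▸ h1 y1, ⟨i, hi, y1⟩, hB B hB' (h7 ▸ h1 y1)⟩
      rw [h8, h7]
      exact ⟨_, _, c, d, h4, h5, fun t ht => ⟨i, hi, h6 ht⟩⟩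
  · by_cases k : Disjoint ρ (bu n Xs ∩ W)
    · exact Or.inl k
    right
    obtain ⟨x, hx, hx'⟩ := not_disjoint_iff.1 k
    obtain ⟨i, hi, hxi⟩ := mem_bu.1 (mem_inter.1 hx').1
    obtain ⟨h1, h2⟩ := hI i hi (hI2 i hi x hxi)
    rcases h2 with ⟨-, h3, -⟩ | ⟨h3, h4, h5⟩ | ⟨h3, -⟩
    · exact absurd (h1 hxi) (disjoint_left.1 (h3 ρ hρ) hx)
    · have h7 := Book_pd hpd (mem_union_right _ hρ) (mem_union_right _ h3) hx (h1 hxi)
      refine ⟨fun y hy => mem_inter.2 ⟨mem_bu.2 ⟨i, hi, ?_⟩, hD ρ hρ hy⟩, i, hi, h7 ▸ h5⟩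
      rw [h4, ← h7]
      exact hy
    · have h4 := Book_pd hpd (mem_union_right _ hρ) (mem_union_left _ h3) hx (h1 hxi)
      exact absurd (h4 ▸ hρ) (disjoint_left.1 hbd h3)

/-- adding the pass of one more box -/
theorem BS.add (h : G.BS W Bs Ds X K) (hpd : PD (Bs ∪ Ds)) (hbd : Disjoint Bs Ds) {w Xw : Finset V}
    (hw : w ∈ Bs) (hwW : w ⊆ W) (hd : Disjoint w X) {a b c d : E} (hq : G.Q4 w a b c d)
    (hr : G.Rg w Xw c d) (hK : G.Kp w Xw c d ⊆ K') : G.BS W Bs Ds (X ∪ Xw) (K ∪ K') := by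
  have h0 : Xw ⊆ w := hr.sub
  refine ⟨union_subset h.1 (h0.trans hwW), fun B hB => ?_, fun ρ hρ => ?_⟩
  · by_cases k : B = w
    · right
      have h1 : B ∩ (X ∪ Xw) = Xw := by
        rw [k, inter_union_distrib_left, disjoint_iff_inter_eq_empty.1 hd, empty_union]
        exact inter_eq_right.2 h0
      rw [h1, k]
      exact ⟨a, b, c, d, hq, hr, hK.trans Set.subset_union_right⟩
    · have h1 : Disjoint B Xw :=
        (hpd B (mem_union_left _ hB) w (mem_union_left _ hw) k).mono_right h0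
      have h2 : B ∩ (X ∪ Xw) = B ∩ X := by
        rw [inter_union_distrib_left, disjoint_iff_inter_eq_empty.1 h1, union_empty]
      rcases h.2.1 B hB with h3 | ⟨a', b', c', d', h3, h4, h5⟩
      · exact Or.inl (disjoint_union_right.2 ⟨h3, h1⟩)
      · right
        rw [h2]
        exact ⟨a', b', c', d', h3, h4, h5.trans Set.subset_union_left⟩
  · have k : ρ ≠ w := fun k => disjoint_left.1 hbd hw (k ▸ hρ)
    have h1 : Disjoint ρ Xw :=
      (hpd ρ (mem_union_right _ hρ) w (mem_union_left _ hw) k).mono_right h0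
    rcases h.2.2 ρ hρ with h3 | ⟨h3, h4⟩
    · exact Or.inl (disjoint_union_right.2 ⟨h3, h1⟩)
    · exact Or.inr ⟨h3.trans subset_union_left, Or.inl h4⟩

/-- a vertex of a leftover rung has a leaving edge and an end edge -/
private theorem Book_vtx (hc : G.Cub) (hT : G.HT T) (hW : W ⊆ T) {B : Finset V} (hBW : B ⊆ W)
    (h4 : (G.cut B).card = 4) (h2 : 2 < B.card) {c : E} {u v : V} (hcB : c ∈ G.cut B)
    (hu : G.ie B c = u) (hs : B \ X = {u, v}) (huv : u ≠ v) (hadj : G.Adj G.A u v)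
    (hin : c ∈ G.ins (W \ X)) :
    (∃ e ∈ G.cut (W \ X), e ∉ J \ G.tch X ∧ G.At e u) ∧
      ∃ e ∈ G.tg (W \ X) (B \ X), G.At e u := by
  have u1 : u ∈ B \ X := by simp [hs]
  have v1 : v ∈ B \ X := by simp [hs]
  have u2 := mem_sdiff.1 u1
  have v2 := mem_sdiff.1 v1
  have cu : G.At c u := hu ▸ ie_at
  refine ⟨?_, c, mem_inter.2 ⟨(cut_of_sub sdiff_subset hcB (mem_tch.2 ⟨(mem_cut.1 hcB).1, ?_⟩)).1,
    hin⟩, cu⟩
  swap
  · rcases cu with k | k <;> rw [← k] at u1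
    exacts [Or.inl u1, Or.inr u1]
  obtain ⟨m, mA, mj⟩ := adj_iff.1 hadj
  have ml : G.s m ≠ G.t m := by
    rcases mj with ⟨k1, k2⟩ | ⟨k1, k2⟩ <;> rw [k1, k2]
    exacts [huv, huv.symm]
  have mB : m ∈ G.ins B := by
    rw [mem_ins]
    rcases mj with ⟨k1, k2⟩ | ⟨k1, k2⟩ <;> rw [k1, k2]
    exacts [⟨mA, u2.1, v2.1⟩, ⟨mA, v2.1, u2.1⟩]
  have uT : u ∈ T := hW (hBW u2.1)
  obtain ⟨g, g1, -, g2, g3⟩ := hT.third hc uT
    ((mem_cut_single ml).2 ⟨mA, mj.at_iff.2 (Or.inl rfl)⟩)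
    ((mem_cut_single (Book_cut_ne hcB)).2 ⟨(mem_cut.1 hcB).1, cu⟩)
    (fun k => not_ins_of_cut hcB (k ▸ mB))
  have g4 : g ∈ G.cut {u} := by simp [g1]
  have gA := (mem_cut.1 g4).1
  have g5 : G.ie {u} g = u := mem_singleton.1 (ie_mem (cut_sub_tch g4))
  obtain ⟨y, gj, yu⟩ : ∃ y, G.Je g u y ∧ y ≠ u :=
    ⟨G.oe {u} g, by simpa only [g5] using (je_ie_oe : G.Je g (G.ie {u} g) (G.oe {u} g)),
      fun k => oe_not_mem g4 (mem_singleton.2 k)⟩
  have gu : G.At g u := gj.at_iff.2 (Or.inl rfl)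
  have yB : y ∈ B := by
    by_contra k
    have g6 : g ∈ G.cut B := by
      rw [mem_cut]
      rcases gj with ⟨k1, k2⟩ | ⟨k1, k2⟩ <;> rw [k1, k2] <;> simp [gA, u2.1, k]
    exact hT.f2 hc (hBW.trans hW) h4 h2 hcB g6 g3 (hu.trans (eq_ie g6 u2.1 gu))
  have yX : y ∈ X := by
    by_contra k
    have k1 : y ∈ B \ X := mem_sdiff.2 ⟨yB, k⟩
    rw [hs, mem_insert, mem_singleton] at k1
    rcases k1 with k1 | k1
    · exact yu k1
    · exact g2 (hT.simple hc uT (hW (hBW v2.1)) mA gA mj (k1 ▸ gj))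
  refine ⟨g, ?_, fun k => (mem_sdiff.1 k).2 ?_, gu⟩
  · rw [mem_cut]
    rcases gj with ⟨k1, k2⟩ | ⟨k1, k2⟩ <;> rw [k1, k2] <;> simp [gA, hBW u2.1, u2.2, yX]
  · rw [mem_tch]
    rcases gj with ⟨k1, k2⟩ | ⟨k1, k2⟩ <;> rw [k1, k2] <;> simp [gA, yX]

/-- an edge of a leftover rung that does not stay inside the rest enters `X` -/
private theorem Book_out (hX : X ⊆ W) (hpd : PD Bs) {B : Finset V} (hB : B ∈ Bs) (hBW : B ⊆ W)
    {c : E} (hcB : c ∈ G.cut B) (hu : G.ie B c ∈ B \ X) (hJ : c ∈ G.ins W ∨ c ∈ G.tch X)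
    (hn : c ∉ G.ins (W \ X)) : c ∈ G.ins W ∧ c ∈ G.cut X ∧ ∀ B' ∈ Bs, c ∉ G.ins B' := by
  have h1 := mem_sdiff.1 hu
  have h3 : ∀ B' ∈ Bs, c ∉ G.ins B' := fun B' hB' k => by
    have k1 : G.ie B c ∈ B' := by
      rcases (ie_at : G.At c (G.ie B c)) with k2 | k2 <;> rw [← k2]
      exacts [(mem_ins.1 k).2.1, (mem_ins.1 k).2.2]
    exact not_ins_of_cut hcB (Book_pd hpd hB hB' h1.1 k1 ▸ k)
  refine and_assoc.1 ⟨?_, h3⟩
  have h4 := @hX (G.s c)
  have h5 := @hX (G.t c)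
  have h6 := hBW h1.1
  have h7 := h1.2
  have hA := (mem_cut.1 hcB).1
  simp only [mem_ins, mem_tch, mem_cut, mem_sdiff] at hJ hn ⊢
  rcases (ie_at : G.At c (G.ie B c)) with k2 | k2 <;> rw [← k2] at h6 h7 <;> (clear * - h1 h4 h5 h6 h7 hJ hn; grind)

/-- The bookkeeping lemma.  HINT: `Ds'` consists of the old rungs disjoint from `X` whose end
edges stay inside `W \ X`, and of the nonempty sets `B \ X` (`B` a box meeting `X`) whose edges
`c, d` lie inside `W \ X`.  See PROOF.md, lemma FINC. -/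
theorem finc (hc : G.Cub) (hT : G.HT T) (hW : W ⊆ T) (hF : Fm ⊆ G.AU) (hB : G.Bx Fm W J Bs)
    (hD : G.VD W J Ds) (h : G.BS W Bs Ds X K)
    (hJ : ∀ B ∈ Bs, ∀ e ∈ G.cut B, e ∈ G.ins W ∨ e ∈ G.tch X) :
    ∃ Ds', G.Fo Fm W J Bs Ds X K Ds' := by
  classical
  obtain ⟨hpd, hbd⟩ := hB.pd hD
  have hbox : ∀ B ∈ Bs, (G.cut B).card = 4 ∧ 2 < B.card := fun B k => by
    have k1 : G.US B := hF (hB.1 B k).1
    have := hT.us_card hc ((hB.1 B k).2.1.trans hW) k1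
    exact ⟨k1.1, by omega⟩
  have hdis : ∀ B ∈ Bs, ∀ ρ ∈ Ds, Disjoint B ρ := fun B k ρ k' =>
    hpd B (mem_union_left _ k) ρ (mem_union_right _ k') fun k1 => disjoint_left.1 hbd k (k1 ▸ k')
  set D1 := Ds.filter fun ρ => Disjoint ρ X ∧ G.tg W ρ ⊆ G.ins (W \ X) with hD1
  set D2 := (Bs.filter fun B => ¬ Disjoint B X ∧ ∃ c d, c ∈ G.cut B ∧ d ∈ G.cut B ∧
    B \ X = {G.ie B c, G.ie B d} ∧ G.Dv B c d ∧ G.Adj G.A (G.ie B c) (G.ie B d) ∧
    c ∈ G.ins (W \ X) ∧ d ∈ G.ins (W \ X)).image (· \ X) with hD2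
  refine ⟨D1 ∪ D2, ⟨fun A hA A' hA' hne => ?_, fun ρ hρ => ?_⟩, fun ρ hρ => ?_, fun t ht => ?_⟩
  · rcases mem_union.1 hA with hA | hA <;> rcases mem_union.1 hA' with hA' | hA'
    · exact hD.1 A (mem_filter.1 hA).1 A' (mem_filter.1 hA').1 hne
    · obtain ⟨B, b1, rfl⟩ := mem_image.1 hA'
      exact (hdis B (mem_filter.1 b1).1 A (mem_filter.1 hA).1).symm.mono_right sdiff_subset
    · obtain ⟨B, b1, rfl⟩ := mem_image.1 hA
      exact (hdis B (mem_filter.1 b1).1 A' (mem_filter.1 hA').1).mono_left sdiff_subset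
    · obtain ⟨B, b1, rfl⟩ := mem_image.1 hA
      obtain ⟨B', b2, rfl⟩ := mem_image.1 hA'
      exact (hB.2.1 B (mem_filter.1 b1).1 B' (mem_filter.1 b2).1 fun k => hne (by rw [k])).mono
        sdiff_subset sdiff_subset
  · rcases mem_union.1 hρ with hρ | hρ
    · obtain ⟨a1, a2, a3⟩ := mem_filter.1 hρ
      exact Book_rdy (hD.2 ρ a1) sdiff_subset (subset_sdiff.2 ⟨(hD.2 ρ a1).1, a2⟩) a3 sdiff_subset
    · obtain ⟨B, b1, rfl⟩ := mem_image.1 hρ
      obtain ⟨b1, -, c, d, c1, d1, b2, b3, b4, c2, d2⟩ := mem_filter.1 b1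
      have b5 := (hB.1 B b1).2.1
      refine ⟨sdiff_subset_sdiff b5 Subset.rfl, ⟨_, _, b3, b2, b4⟩, fun x hx => ?_⟩
      rw [b2, mem_insert, mem_singleton] at hx
      rcases hx with rfl | rfl
      · exact Book_vtx hc hT hW b5 (hbox B b1).1 (hbox B b1).2 c1 rfl b2 b3 b4 c2
      · exact Book_vtx hc hT hW b5 (hbox B b1).1 (hbox B b1).2 d1 rfl (b2.trans (pair_comm _ _))
          (Ne.symm b3) b4.symm d2
  · rcases mem_union.1 hρ with hρ | hρ
    · obtain ⟨a1, -, a3⟩ := mem_filter.1 hρ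
      exact Or.inl ⟨a1, Subset.antisymm (Book_tg sdiff_subset)
        (subset_inter inter_subset_left a3)⟩
    · obtain ⟨B, b1, rfl⟩ := mem_image.1 hρ
      exact Or.inr ⟨B, (mem_filter.1 b1).1, rfl, (mem_filter.1 b1).2.1⟩
  rcases ht with ⟨S, a1, a2, rfl⟩ | ⟨ρ, a1, rfl⟩
  · by_cases k1 : G.cut S ⊆ G.ins W ∪ J
    swap
    · obtain ⟨e, e1, e2⟩ := Book_leave a2 k1
      exact Or.inr (Or.inr (Or.inr ⟨e, e1, Or.inl e2⟩))
    obtain ⟨B, b1, b2⟩ := hB.2.2 S a1 a2 k1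
    by_cases k2 : Disjoint B X
    · exact Or.inr (Or.inl ⟨S, a1, B, b1, b2, k2, rfl⟩)
    obtain ⟨a, b, c, d, hq, hr, hK⟩ := (h.2.1 B b1).resolve_left k2
    by_cases k3 : B ∩ X = B ∨ c ∉ G.cut S ∨ d ∉ G.cut S
    · exact Or.inl ⟨_, hK ⟨⟨S, b2, hF a1, rfl⟩, k3⟩, Subset.rfl⟩
    simp only [not_or, not_not] at k3
    obtain ⟨-, r1, r2, r3⟩ := hr.resolve_left k3.1
    rw [sdiff_inter_self_left] at r1
    have c1 := hq.mem.2.2.1
    have d1 := hq.mem.2.2.2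
    have b5 := (hB.1 B b1).2.1
    by_cases k4 : c ∈ G.ins (W \ X)
    swap
    · exact Or.inr (Or.inr (Or.inr ⟨c, k3.2.1, Or.inr
        (Book_out h.1 hB.2.1 b1 b5 c1 (by simp [r1]) (hJ B b1 c c1) k4)⟩))
    by_cases k5 : d ∈ G.ins (W \ X)
    swap
    · exact Or.inr (Or.inr (Or.inr ⟨d, k3.2.2, Or.inr
        (Book_out h.1 hB.2.1 b1 b5 d1 (by simp [r1]) (hJ B b1 d d1) k5)⟩))
    refine Or.inr (Or.inr (Or.inl ⟨B \ X, mem_union_right _ (mem_image.2 ⟨B, mem_filter.2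
      ⟨b1, k2, c, d, c1, d1, r1, r2, r3, k4, k5⟩, rfl⟩), fun e he => ?_⟩))
    obtain ⟨e1, e2⟩ := mem_inter.1 he
    have e3 : e ∈ G.cut B := by
      simp only [mem_cut, mem_ins, mem_sdiff] at e1 e2 ⊢
      (clear * - e1 e2 k3; tauto)
    have e4 : G.ie B e ∈ B \ X := (cut_of_sub sdiff_subset e3 (cut_sub_tch e1)).2 ▸
      ie_mem (cut_sub_tch e1)
    rw [r1, mem_insert, mem_singleton] at e4
    rcases e4 with e4 | e4
    · by_cases e5 : e = c
      · exact e5 ▸ k3.2.1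
      · exact absurd e4 (hT.f2 hc (b5.trans hW) (hbox B b1).1 (hbox B b1).2 e3 c1 e5)
    · by_cases e5 : e = d
      · exact e5 ▸ k3.2.2
      · exact absurd e4 (hT.f2 hc (b5.trans hW) (hbox B b1).1 (hbox B b1).2 e3 d1 e5)
  · rcases h.2.2 ρ a1 with k1 | k1
    swap
    · exact Or.inl ⟨_, k1.2, Subset.rfl⟩
    by_cases k2 : G.tg W ρ ⊆ G.ins (W \ X)
    · exact Or.inr (Or.inr (Or.inl ⟨ρ, mem_union_left _ (mem_filter.2 ⟨a1, k1, k2⟩),
        Book_tg sdiff_subset⟩))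
    obtain ⟨e, e1, e2⟩ := not_subset.1 k2
    obtain ⟨e3, e4⟩ := mem_inter.1 e1
    refine Or.inr (Or.inr (Or.inr ⟨e, e1, Or.inr ⟨e4, ?_, fun B b1 k => ?_⟩⟩))
    · have f1 := @disjoint_left.1 k1 (G.s e)
      have f2 := @disjoint_left.1 k1 (G.t e)
      simp only [mem_cut, mem_ins, mem_sdiff] at e2 e3 e4 ⊢
      (clear * - e2 e3 e4 f1 f2; grind)
    · have f1 := disjoint_left.1 (hdis B b1 ρ a1) (mem_ins.1 k).2.1
      have f2 := disjoint_left.1 (hdis B b1 ρ a1) (mem_ins.1 k).2.2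
      exact (mem_cut.1 e3).2 (iff_of_false f1 f2)

theorem vd_empty : G.VD W J ∅ := by
  exact ⟨fun N hN => absurd hN (notMem_empty _), fun ρ hρ => absurd hρ (notMem_empty _)⟩

theorem VD.monoJ {J' : Finset E} (h : G.VD W J Ds) (hJ : ∀ e ∈ G.cut W, e ∈ J' → e ∈ J) :
    G.VD W J' Ds := by
  refine ⟨h.1, fun ρ hρ => ⟨(h.2 ρ hρ).1, (h.2 ρ hρ).2.1, fun x hx => ?_⟩⟩
  obtain ⟨⟨e, a1, a2, a3⟩, b⟩ := (h.2 ρ hρ).2.2 x hx
  exact ⟨⟨e, a1, fun k => a2 (hJ e a1 k), a3⟩, b⟩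

theorem tg_empty : G.Tg G.AU W ∅ = G.Kus W := by
  ext t
  constructor
  · rintro (⟨S, h1, h2, h3⟩ | ⟨ρ, h1, -⟩)
    · exact ⟨S, h2, h1, h3⟩
    · exact absurd h1 (notMem_empty _)
  · rintro ⟨S, h1, h2, h3⟩
    exact Or.inl ⟨S, h2, h1, h3⟩

/-- one half of the coverage of an old rung after a split -/
private theorem Book_half {Y Z ρ : Finset V} {O1 O2 : Finset E} (hYZ : Disjoint Y Z)
    (h1 : O1 ⊆ G.ins Y) (h2 : O2 ⊆ G.ins Z) (hρ : ρ ⊆ Y) (hn : ¬ G.tg W ρ ⊆ G.ins Y) :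
    ∃ e ∈ G.tg W ρ, e ∈ G.tch W ∧ e ∉ O1 ∪ O2 := by
  obtain ⟨e, a1, a2⟩ := not_subset.1 hn
  refine ⟨e, a1, ins_sub_tch (mem_inter.1 a1).2, fun k => ?_⟩
  rcases mem_union.1 k with k | k
  · exact a2 (h1 k)
  · have b1 := mem_ins.1 (h2 k)
    have b2 := mem_cut.1 (mem_inter.1 a1).1
    have b3 : G.s e ∉ ρ := fun k1 => disjoint_left.1 hYZ (hρ k1) b1.2.1
    have b4 : G.t e ∉ ρ := fun k1 => disjoint_left.1 hYZ (hρ k1) b1.2.2
    exact b2.2 (iff_of_false b3 b4)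

/-- a rung split by the bridge has an end edge off the even sets -/
private theorem Book_cross {Y Z ρ : Finset V} {O1 O2 : Finset E} {u v : V} {m a b c d : E}
    (hYZ : Disjoint Y Z) (hY : Y ⊆ W) (h1 : G.St Y O1 ∅) (h2 : O2 ⊆ G.ins Z) (huv : u ≠ v)
    (hu : u ∈ ρ) (hm : G.ins ρ = {m}) (hj : G.At m v) (hq : G.cut ρ = {a, b, c, d})
    (ha : G.ie ρ a = u) (hb : G.ie ρ b = v) (hd : G.ie ρ d = v) (hc : c ∈ G.cut W) (hu' : u ∈ Y)
    (hv' : v ∈ Z) : a ∉ O1 ∪ O2 := by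
  intro k
  have h0 := Book_st h1
  have a1 : G.At a u := ha ▸ ie_at
  have a2 : a ∈ G.cut ρ := by simp [hq]
  rcases mem_union.1 k with k | k
  · obtain ⟨f, f1, f2, f3⟩ := Book_other (h1.2.1 u hu') k a1 (Book_cut_ne a2)
    have f4 := h0 f1
    rcases Book_at huv hu hm hq hb hd (ins_sub_A f4) f3 with rfl | rfl | rfl
    · have f5 := mem_ins.1 f4
      rcases hj with rfl | rfl
      exacts [disjoint_left.1 hYZ f5.2.1 hv', disjoint_left.1 hYZ f5.2.2 hv']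
    · exact f2 rfl
    · exact not_ins_of_cut hc (ins_mono hY f4)
  · have f5 := mem_ins.1 (h2 k)
    rcases a1 with rfl | rfl
    exacts [disjoint_left.1 hYZ hu' f5.2.1, disjoint_left.1 hYZ hu' f5.2.2]

/-- Splitting at a bridge: the rungs of the two parts and the coverage of the targets by any
even sets of the parts. -/
theorem split_cov (hc : G.Cub) (hT : G.HT T) (hW : W ⊆ T) (hX : X ⊆ W)
    (h1 : (G.crs (G.ins W) X).card ≤ 1) (hD : G.VD W ∅ Ds) :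
    ∃ D1 D2, G.VD X ∅ D1 ∧ G.VD (W \ X) ∅ D2 ∧ ∀ O1 O2, G.St X O1 ∅ → G.St (W \ X) O2 ∅ →
      G.Cvr W (O1 ∪ O2) (G.Tg G.AU X D1 ∪ G.Tg G.AU (W \ X) D2) (G.Tg G.AU W Ds) := by
  classical
  have hvd : ∀ Y ⊆ W, G.VD Y ∅ (Ds.filter fun ρ => ρ ⊆ Y ∧ G.tg W ρ ⊆ G.ins Y) := fun Y hY =>
    ⟨fun A hA B hB => hD.1 A (mem_filter.1 hA).1 B (mem_filter.1 hB).1, fun ρ hρ =>
      Book_rdy (hD.2 ρ (mem_filter.1 hρ).1) hY (mem_filter.1 hρ).2.1 (mem_filter.1 hρ).2.2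
        Subset.rfl⟩
  refine ⟨_, _, hvd X hX, hvd (W \ X) sdiff_subset, fun O1 O2 s1 s2 t ht => ?_⟩
  have o1 := Book_st s1
  have o2 := Book_st s2
  rcases ht with ⟨S, a1, a2, rfl⟩ | ⟨ρ, a1, rfl⟩
  · left
    by_cases k1 : S ⊆ X
    · exact ⟨_, Or.inl (Or.inl ⟨S, a1, k1, rfl⟩), Subset.rfl⟩
    by_cases k2 : S ⊆ W \ X
    · exact ⟨_, Or.inr (Or.inl ⟨S, a1, k2, rfl⟩), Subset.rfl⟩
    exfalso
    have b1 := hT.us_card hc (a2.trans hW) a1
    have b2 := hT.f3 (a2.trans hW) a1.1 (by omega) (S ∩ X) inter_subset_left ?_ ?_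
    · have b3 : G.crs (G.ins S) (S ∩ X) ⊆ G.crs (G.ins W) X := fun e he => by
        obtain ⟨c1, c2⟩ := mem_crs.1 he
        have c3 := mem_ins.1 c1
        refine mem_crs.2 ⟨ins_mono a2 c1, ?_⟩
        simpa only [mem_inter, c3.2.1, c3.2.2, true_and] using c2
      have := card_le_card b3
      omega
    · obtain ⟨x, c1, c2⟩ := not_subset.1 k2
      refine ⟨x, mem_inter.2 ⟨c1, ?_⟩⟩
      by_contra c3
      exact c2 (mem_sdiff.2 ⟨a2 c1, c3⟩)
    · exact fun c1 => k1 (inter_eq_left.1 c1)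
  · by_cases k1 : ρ ⊆ X
    · by_cases k3 : G.tg W ρ ⊆ G.ins X
      · exact Or.inl ⟨_, Or.inl (Or.inr ⟨ρ, mem_filter.2 ⟨a1, k1, k3⟩, rfl⟩), Book_tg hX⟩
      · exact Or.inr (Book_half disjoint_sdiff o1 o2 k1 k3)
    by_cases k2 : ρ ⊆ W \ X
    · by_cases k3 : G.tg W ρ ⊆ G.ins (W \ X)
      · exact Or.inl ⟨_, Or.inr (Or.inr ⟨ρ, mem_filter.2 ⟨a1, k2, k3⟩, rfl⟩),
          Book_tg sdiff_subset⟩
      · rw [union_comm]
        exact Or.inr (Book_half sdiff_disjoint o2 o1 k2 k3)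
    right
    obtain ⟨u, v, m, a, b, c, d, huv, hρ, hi, hj, hq, ht, ia, ib, ic, id', hcW, hdW, -, -⟩ :=
      (hD.2 ρ a1).str hc hT hW
    have hu : u ∈ ρ := by simp [hρ]
    have hv : v ∈ ρ := by simp [hρ]
    have hρW := (hD.2 ρ a1).1
    have ha : a ∈ G.tg W ρ := by simp [ht]
    refine ⟨a, ha, ins_sub_tch (mem_inter.1 ha).2, ?_⟩
    have mv : G.At m v := hj.at_iff.2 (Or.inr rfl)
    rw [hρ, insert_subset_iff, singleton_subset_iff] at k1 k2
    by_cases k3 : u ∈ X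
    · exact Book_cross disjoint_sdiff hX s1 o2 huv hu hi mv hq.1 ia ib id' hcW k3
        (mem_sdiff.2 ⟨hρW hv, fun k4 => k1 ⟨k3, k4⟩⟩)
    · rw [union_comm]
      have k4 : u ∈ W \ X := mem_sdiff.2 ⟨hρW hu, k3⟩
      refine Book_cross sdiff_disjoint sdiff_subset s2 o1 huv hu hi mv hq.1 ia ib id' hcW k4 ?_
      by_contra k5
      exact k2 ⟨k4, mem_sdiff.2 ⟨hρW hv, k5⟩⟩

/-- without boxes every unbalanced side has a leaving edge off `J` -/
theorem Bx.free (h : G.Bx G.AU W J ∅) : ∀ t ∈ G.Kus W, ∃ e ∈ t, e ∈ G.cut W ∧ e ∉ J := by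
  rintro t ⟨S, h1, h2, rfl⟩
  refine Book_leave h1 fun k => ?_
  obtain ⟨B, hB, -⟩ := h.2.2 S h2 h1 k
  exact notMem_empty _ hB

/-- a ready rung that meets an even set inside `W` is passed by it -/
theorem Rdy.on_even (hc : G.Cub) (hT : G.HT T) (hW : W ⊆ T) {ρ : Finset V} (h : G.Rdy W J ρ)
    {C : Finset E} (hC : C ⊆ G.ins W) (hE : G.Ev C) (hm : ¬ Disjoint ρ (G.vs C)) :
    ρ ⊆ G.vs C ∧ G.ins ρ ⊆ C ∧ G.tg W ρ ⊆ C := by
  obtain ⟨u, v, m, a, b, c, d, huv, hρ, hi, hj, hq, ht, ia, ib, ic, id', hcW, hdW, -, -⟩ :=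
    h.str hc hT hW
  have hu : u ∈ ρ := by simp [hρ]
  have hv : v ∈ ρ := by simp [hρ]
  have hq' : G.cut ρ = {b, a, d, c} := hq.swap1.swap2.1
  have au : ∀ f ∈ C, G.At f u → f = m ∨ f = a := fun f hf hat => by
    rcases Book_at huv hu hi hq.1 ib id' (ins_sub_A (hC hf)) hat with k | k | k
    · exact Or.inl k
    · exact Or.inr k
    · exact absurd (hC (k ▸ hf)) (not_ins_of_cut hcW)
  have av : ∀ f ∈ C, G.At f v → f = m ∨ f = b := fun f hf hat => by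
    rcases Book_at huv.symm hv hi hq' ia ic (ins_sub_A (hC hf)) hat with k | k | k
    · exact Or.inl k
    · exact Or.inr k
    · exact absurd (hC (k ▸ hf)) (not_ins_of_cut hdW)
  have mu : G.At m u := hj.at_iff.2 (Or.inl rfl)
  have mv : G.At m v := hj.at_iff.2 (Or.inr rfl)
  have ml : G.s m ≠ G.t m := by
    rcases hj with ⟨k1, k2⟩ | ⟨k1, k2⟩ <;> rw [k1, k2]
    exacts [huv, huv.symm]
  have hmC : m ∈ C := by
    obtain ⟨x, hx, hx'⟩ := not_disjoint_iff.1 hm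
    obtain ⟨f, hf, hat⟩ := mem_vs.1 hx'
    rw [hρ, mem_insert, mem_singleton] at hx
    rcases hx with rfl | rfl
    · rcases au f hf hat with rfl | rfl
      · exact hf
      · obtain ⟨g, g1, g2, g3⟩ := Book_other (hE _) hf hat (Book_cut_ne hq.mem.1)
        exact (au g g1 g3).resolve_right g2 ▸ g1
    · rcases av f hf hat with rfl | rfl
      · exact hf
      · obtain ⟨g, g1, g2, g3⟩ := Book_other (hE _) hf hat (Book_cut_ne hq.mem.2.1)
        exact (av g g1 g3).resolve_right g2 ▸ g1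
  refine ⟨?_, ?_, ?_⟩
  · rw [hρ]
    exact insert_subset (mem_vs.2 ⟨m, hmC, mu⟩) (singleton_subset_iff.2 (mem_vs.2 ⟨m, hmC, mv⟩))
  · rw [hi]
    exact singleton_subset_iff.2 hmC
  · rw [ht]
    obtain ⟨g, g1, g2, g3⟩ := Book_other (hE _) hmC mu ml
    obtain ⟨g', g1', g2', g3'⟩ := Book_other (hE _) hmC mv ml
    exact insert_subset ((au g g1 g3).resolve_left g2 ▸ g1)
      (singleton_subset_iff.2 ((av g' g1' g3').resolve_left g2' ▸ g1'))

end SG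

end Pool.Agent.Work.MP_8c679b_co
end

-- merged part: Pool.Agent.Work.MP_8c679b_co.Six.GNorm
section
/-!
Normalising joins, and circuits of a join.
-/

set_option autoImplicit false

namespace Pool.Agent.Work.MP_8c679b_co

open Finset

namespace SG

variable {V E : Type} [Fintype V] [DecidableEq V] [DecidableEq E] {G : SG V E}
  {T S W : Finset V} {a b f : E} {J F F0 : Finset E} {Bs Ds Hh Hs : Finset (Finset V)}
  {Fm : Set (Finset V)}

omit [Fintype V] in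
theorem GNorm_crs {Z : Finset E} {N : Finset V} (hZ : Z ⊆ G.A) : G.crs Z N = Z ∩ G.cut N := by
  ext e
  simp only [mem_crs, mem_inter, mem_cut]
  exact ⟨fun h => ⟨h.1, hZ h.1, h.2⟩, fun h => ⟨h.1, h.2.2⟩⟩

omit [Fintype V] in
theorem GNorm_even {Z : Finset E} {N : Finset V} (hZ : Z ⊆ G.A) (h : ∀ v ∈ N, G.dg Z v = 0) :
    Even (Z ∩ G.cut N).card := by
  rw [← GNorm_crs hZ, ← ZMod.natCast_eq_zero_iff_even, ← sum_dg]
  exact sum_eq_zero h

omit [Fintype V] in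
theorem GNorm_cutA {N : Finset V} : G.cut N ⊆ G.A := fun _ h => (mem_cut.1 h).1

theorem GNorm_vtx {v : V} (ha : a ∈ G.cut {v}) (hb : b ∈ G.cut {v}) (hab : a ≠ b) :
    G.St {v} {a, b} {a, b} := by
  have h : ({a, b} : Finset E) ⊆ G.cut {v} := insert_subset ha (singleton_subset_iff.2 hb)
  refine ⟨h.trans cut_sub_tch, fun x hx => ?_, inter_eq_left.2 h⟩
  have := sum_dg (G := G) {a, b} {v}
  rw [sum_singleton, GNorm_crs (h.trans GNorm_cutA), inter_eq_left.2 h, card_pair hab] at this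
  rw [mem_singleton.1 hx, this]
  rfl

omit [Fintype V] in
theorem GNorm_two {Z : Finset E} {N : Finset V} (h4 : (G.cut N).card = 4)
    (he : Even (Z ∩ G.cut N).card) (hn : ¬ G.cut N ⊆ Z) :
    (Z ∩ G.cut N).card = 0 ∨ (Z ∩ G.cut N).card = 2 := by
  have := card_lt_card (show Z ∩ G.cut N ⊂ G.cut N from
    ⟨inter_subset_right, fun h => hn (h.trans inter_subset_left)⟩)
  obtain ⟨k, hk⟩ := he
  omega

/-- A path through a side that does not contain the whole cut of any unbalanced side inside.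
HINT: strong induction on `S`.  Take the boxes for `J = {a, b}` (`HT.boxes`), a path in the
quotient from the node of `ta` to the node of `tb` (`quo_rch`, `Rch.pth`, `trk_of_pth`; length
zero is possible), the induction hypothesis inside the boxes on it, and glue by `trk_st`.
A side that is no candidate has a third or fourth edge of `cut S` in its cut. -/
theorem asp (hc : G.Cub) (hT : G.HT T) (hS : S ⊆ T) (hu : G.US S) (ha : a ∈ G.cut S)
    (hb : b ∈ G.cut S) (hab : a ≠ b) :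
    ∃ O, G.St S O {a, b} ∧ ∀ S' ⊆ S, G.US S' → ¬ G.cut S' ⊆ O := by
  induction S using Finset.strongInduction generalizing a b with
  | H S ih =>
  obtain ⟨c, d, hq⟩ := exists_q4 hu.1 ha hb hab
  obtain ⟨Bs, hB⟩ := hT.boxes hc hS (J := {a, b}) card_le_two
  have hcJ : c ∉ ({a, b} : Finset E) := by
    simp only [mem_insert, mem_singleton, not_or]
    exact ⟨hq.2.2.1.symm, hq.2.2.2.2.1.symm⟩
  have hY : ∀ N ∈ Bs, N ⊆ S := fun N hN => (hB.1 N hN).2.1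
  have hr := quo_rch (Ns := Bs) Subset.rfl
    (hT.cn4 hc hS hu.1 _ (Spl_ie ha) _ (Spl_ie hb))
  obtain ⟨n, w, g, hp, h0, hn⟩ := (hr.mono inter_subset_right).pth a
  obtain ⟨ht, e0, e1, hbu⟩ := trk_of_pth hB.2.1 hY hp ha hb hab h0 hn
  have hw := quo_pth_node hp (Spl_ie ha) h0
  have key : ∀ i, ∃ O, i ≤ n → G.St (w i) O {es a b n g i, es a b n g (i + 1)} ∧
      ∀ S' ⊆ w i, G.US S' → ¬ G.cut S' ⊆ O := by
    intro i
    by_cases hi : i ≤ n
    swap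
    · exact ⟨∅, fun h => absurd h hi⟩
    obtain ⟨k1, k2, k3⟩ := ht.2.2 i hi
    obtain ⟨v, -, hv⟩ := hw i hi
    rcases nd_cases hB.2.1 v with h | ⟨-, h⟩
    · rw [← hv] at h
      obtain ⟨O, hO⟩ := ih _ (hB.ssub h hq.mem.2.2.1 hcJ) ((hY _ h).trans hS) (hB.1 _ h).1 k1 k2 k3
      exact ⟨O, fun _ => hO⟩
    · rw [hv, h] at k1 k2 ⊢
      refine ⟨_, fun _ => ⟨GNorm_vtx k1 k2 k3, fun S' _ hu' hs => ?_⟩⟩
      have := (card_le_card hs).trans card_le_two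
      rw [hu'.1] at this
      omega
  choose O hO using key
  obtain ⟨s1, s2, s3⟩ := trk_st ht (fun i hi => (hO i hi).1) (by rwa [e0]) (by rwa [e1])
  rw [e0, e1] at s1
  refine ⟨_, s1, fun S' hS' hu' hs => ?_⟩
  obtain ⟨B, hBm, hSB⟩ := hB.2.2 S' hu' hS' fun e he => by
    rcases mem_tch_iff.1 (s1.1 (hs he)) with h | h
    · exact mem_union_left _ h
    · exact mem_union_right _ (s1.2.2 ▸ mem_inter.2 ⟨hs he, h⟩)
  have hsub : G.cut S' ⊆ G.tch B := cut_sub_tch.trans (tch_mono hSB)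
  by_cases hm : B ∈ pv n w
  · obtain ⟨i, hi, rfl⟩ := mem_pv.1 hm
    exact (hO i hi).2 S' hSB hu' (s2 i hi ▸ subset_inter hs hsub)
  · obtain ⟨e, he⟩ : (G.cut S').Nonempty := card_pos.1 (by rw [hu'.1]; omega)
    have hd := (un_dich hB.2.1 hY hBm (Spl_nonempty (hB.1 B hBm).1.1)).2 hm
    exact disjoint_left.1 (s3 B (hY B hBm) (hbu ▸ hd)) (hs he) (hsub he)

/-- HINT: outside the boxes keep `F0`; inside a box take nothing or the path of `asp`. -/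
theorem norm_join (hc : G.Cub) (hT : G.HT T) (hW : W ⊆ T) (hF : G.FF Fm T) (hB : G.Bx Fm W ∅ Bs)
    (hJ : J ⊆ G.cut W) (h : G.Tq W J Bs F0) :
    ∃ F, G.Tj W J F ∧ G.As Fm W F ∧ ∀ e, (∀ B ∈ Bs, e ∉ G.ins B) → (e ∈ F ↔ e ∈ F0) := by
  classical
  have key : ∀ B, ∃ O, B ∈ Bs → G.St B O (F0 ∩ G.cut B) ∧
      ∀ S' ⊆ B, G.US S' → ¬ G.cut S' ⊆ O := by
    intro B
    by_cases hm : B ∈ Bs
    swap
    · exact ⟨∅, fun h => absurd h hm⟩
    rcases h.2.2 B hm with h0 | h2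
    · refine ⟨∅, fun _ => ⟨?_, fun S' _ hu' hs => ?_⟩⟩
      · rw [card_eq_zero.1 h0]
        exact st_of_ev (empty_subset _) ev_empty
      · have := card_le_card hs
        rw [hu'.1] at this
        simp at this
    · obtain ⟨x, y, hxy, e⟩ := card_eq_two.1 h2
      have hx : x ∈ F0 ∩ G.cut B := by simp [e]
      have hy : y ∈ F0 ∩ G.cut B := by simp [e]
      obtain ⟨O, hO⟩ := asp hc hT ((hB.1 B hm).2.1.trans hW) (hF.1 B (hB.1 B hm).1).2.1
        (mem_inter.1 hx).2 (mem_inter.1 hy).2 hxy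
      exact ⟨O, fun _ => e ▸ hO⟩
  choose O hO using key
  obtain ⟨F, hmF⟩ : ∃ F : Finset E, ∀ e, e ∈ F ↔ e ∈ G.ins W ∧ (∀ B ∈ Bs, e ∈ G.ins B → e ∈ O B) ∧
      ((∀ B ∈ Bs, e ∉ G.ins B) → e ∈ F0) := ⟨(G.ins W).filter _, fun e => mem_filter⟩
  have h3 : ∀ e, (∀ B ∈ Bs, e ∉ G.ins B) → (e ∈ F ↔ e ∈ F0) := fun e he => by
    rw [hmF]
    exact ⟨fun k => k.2.2 he, fun k => ⟨h.1 k, fun B hm k' => absurd k' (he B hm), fun _ => k⟩⟩
  have hFW : F ⊆ G.ins W := fun e he => ((hmF e).1 he).1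
  have h4 : ∀ B ∈ Bs, ∀ e ∈ G.tch B, e ∈ F ∪ J ↔ e ∈ O B := by
    intro B hm e he
    have k1 : ∀ B' ∈ Bs, e ∈ G.ins B' → B' = B := fun B' hm' k => by
      by_contra k'
      exact Quo_ins k (hB.2.1 B hm B' hm' (Ne.symm k')) he
    have k2 : e ∈ G.ins W := by
      rcases mem_tch_iff.1 he with k | k
      · exact ins_mono (hB.1 B hm).2.1 k
      · simpa using (hB.1 B hm).2.2 k
    rw [mem_union, or_iff_left fun k => not_ins_of_cut (hJ k) k2]
    rcases mem_tch_iff.1 he with k | k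
    · rw [hmF]
      exact ⟨fun k' => k'.2.1 B hm k, fun k' => ⟨k2, fun B' hm' k3 => k1 B' hm' k3 ▸ k',
        fun k3 => absurd k (k3 B hm)⟩⟩
    · rw [h3 e fun B' hm' k3 => not_ins_of_cut k (k1 B' hm' k3 ▸ k3)]
      have := Finset.ext_iff.1 (hO B hm).1.2.2 e
      simp only [mem_inter, k, and_true] at this
      exact this.symm
  refine ⟨F, ⟨hFW, fun v hv => ?_⟩, fun S hS hSW hs => ?_, h3⟩
  · by_cases hb : ∃ B ∈ Bs, v ∈ B
    · obtain ⟨B, hm, hvB⟩ := hb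
      rw [← (hO B hm).1.2.1 v hvB]
      refine Ab_dg fun e he => ?_
      by_cases hA : e ∈ G.A
      · exact h4 B hm e (Cut_tch hA he hvB)
      · exact iff_of_false (fun k => hA (union_subset (hFW.trans ins_sub_A)
          (hJ.trans GNorm_cutA) k)) fun k => hA (Ab_tch_sub ((hO B hm).1.1 k))
    · push Not at hb
      rw [← h.2.1 v hv hb]
      refine Ab_dg fun e he => ?_
      rw [mem_union, mem_union, h3 e fun B hm k => hb B hm ?_]
      rcases he with rfl | rfl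
      exacts [(mem_ins.1 k).2.1, (mem_ins.1 k).2.2]
  · obtain ⟨B, hm, hSB⟩ := hB.2.2 S hS hSW ((hs.trans hFW).trans subset_union_left)
    exact (hO B hm).2 S hSB (hF.1 S hS).2.1 fun e he =>
      (h4 B hm e (tch_mono hSB (cut_sub_tch he))).1 (mem_union_left _ (hs he))

theorem Tj.tq (hF : G.FF Fm T) (hB : G.Bx Fm W ∅ Bs) (hJ : J ⊆ G.cut W) (h : G.Tj W J F)
    (hA : G.As Fm W F) : G.Tq W J Bs F := by
  refine ⟨h.1, fun v hv _ => h.2 v hv, fun B hm => ?_⟩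
  obtain ⟨h1, h2, h3⟩ := hB.1 B hm
  refine GNorm_two (hF.1 B h1).2.1.1 ?_ (hA B h1 h2)
  have := GNorm_even (N := B) (union_subset (h.1.trans ins_sub_A) (hJ.trans GNorm_cutA))
    fun v hv => h.2 v (h2 hv)
  rwa [union_inter_distrib_right, disjoint_iff_inter_eq_empty.1 (disjoint_left.2 fun e he k =>
    not_ins_of_cut (hJ he) (by simpa using h3 k)), union_empty] at this

theorem Tj.acy (hJ : J ⊆ G.cut W) (h : G.Tj W J F) : ∃ F' ⊆ F, G.Tj W J F' ∧ G.Acy F' := by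
  induction F using Finset.strongInduction with
  | H F ih =>
  by_cases hA : G.Acy F
  · exact ⟨F, Subset.rfl, h, hA⟩
  simp only [Acy, not_forall] at hA
  obtain ⟨C, hC, hE, hn⟩ := hA
  have hd : Disjoint F J := disjoint_left.2 fun e he k => not_ins_of_cut (hJ k) (h.1 he)
  obtain ⟨F', h1, h2⟩ := ih (F \ C) (sdiff_ssubset hC (nonempty_iff_ne_empty.2 hn))
    ⟨sdiff_subset.trans h.1, fun v hv => by
      rw [dg_union (hd.mono_left sdiff_subset), dg_sdiff hC, hE v, add_zero, ← dg_union hd,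
        h.2 v hv]⟩
  exact ⟨F', h1.trans sdiff_subset, h2⟩

theorem SPS.ends_sub (h : G.SPS T W Hh Hs Ds) : G.ends (Hh ∪ Hs) ⊆ G.cut W ∧
    Disjoint (G.ends (Hh ∪ Hs)) (G.ins T) := by
  refine ⟨biUnion_subset.2 fun N hN => (h.dg N hN).2.2, disjoint_left.2 fun e he k => ?_⟩
  obtain ⟨N, hN, he⟩ := mem_biUnion.1 he
  exact Quo_ins k (h.dg N hN).2.1 (cut_sub_tch he)

theorem SPS.pd_all (hc : G.Cub) (hF : G.FF Fm T) (h : G.SPS T W Hh Hs Ds) (hB : G.Bx Fm W ∅ Bs) :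
    PD (Bs ∪ Ds ∪ (Hh ∪ Hs)) ∧ Disjoint (Bs ∪ Ds) (Hh ∪ Hs) ∧
      ∀ v ∈ W, nd (Bs ∪ Ds ∪ (Hh ∪ Hs)) v = nd (Bs ∪ Ds) v := by
  have h1 := ((hB.ends hF h.ends_sub.2).pd h.vd).1
  have h2 : ∀ N ∈ Bs ∪ Ds, N ⊆ T := fun N hN => by
    rcases mem_union.1 hN with k | k
    exacts [(hB.1 N k).2.1.trans h.sub, (h.vd.2 N k).1.trans h.sub]
  have h3 : ∀ N ∈ Bs ∪ Ds, ∀ N' ∈ Hh ∪ Hs, Disjoint N' N := fun N hN N' hN' =>
    (h.dg N' hN').2.1.mono_right (h2 N hN)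
  refine ⟨fun N hN N' hN' hne => ?_, disjoint_left.2 fun N hN hN' => ?_, fun v hv => ?_⟩
  · rcases mem_union.1 hN with k | k <;> rcases mem_union.1 hN' with k' | k'
    exacts [h1 N k N' k' hne, (h3 N k N' k').symm, h3 N' k' N k, h.pd N k N' k' hne]
  · obtain ⟨u, v, -, -, -, e, -⟩ := (h.dg N hN').1
    have hu : u ∈ N := by simp [e]
    exact disjoint_left.1 (h3 N hN N hN') hu hu
  · ext u
    simp only [Quo_mem_nd]
    refine or_congr_right ⟨fun ⟨N, hN, k⟩ => ⟨N, ?_, k⟩, fun ⟨N, hN, k⟩ =>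
      ⟨N, mem_union_left _ hN, k⟩⟩
    exact (mem_union.1 hN).resolve_right fun k' =>
      disjoint_left.1 (h.dg N k').2.1 k.1 (h.sub hv)

/-- The circuit of the join through a given edge at a given node.
HINT: `cyc_of_deg` in the quotient of `W ∪ digons` for the edges of `F ∪ ends`; every node has
degree zero or two (vertex: even and at most three; rung: only its end edges; box: even and not
four; digon: two); `trk_of_cyc`. -/
theorem fc_exists (hc : G.Cub) (hT : G.HT T) (hF : G.FF Fm T) (h : G.SPS T W Hh Hs Ds)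
    (hB : G.Bx Fm W ∅ Bs) (hj : G.Tj W (G.ends (Hh ∪ Hs)) F) (hA : G.As Fm W F) {v : V}
    (hv : v ∈ W ∪ (Hh ∪ Hs).biUnion id) (hf : f ∈ F ∪ G.ends (Hh ∪ Hs))
    (hf' : f ∈ G.cut (nd (Bs ∪ Ds ∪ (Hh ∪ Hs)) v)) :
    ∃ n N e, G.Fc W (Hh ∪ Hs) Bs Ds F n N e ∧ N 0 = nd (Bs ∪ Ds ∪ (Hh ∪ Hs)) v ∧ e 1 = f := by
  obtain ⟨hP, -, -⟩ := h.pd_all hc hF hB
  have hJ := h.ends_sub.1
  generalize hH : Hh ∪ Hs = H at *
  have hdg : ∀ N ∈ H, G.Dg N ∧ Disjoint N T ∧ G.cut N ⊆ G.cut W := hH ▸ h.dg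
  have hvd : G.VD W (G.ends H) Ds := hH ▸ h.vd
  have hHY : ∀ N ∈ H, N ⊆ W ∪ H.biUnion id := fun N hN =>
    (subset_biUnion_of_mem id hN).trans subset_union_right
  have hY : ∀ N ∈ Bs ∪ Ds ∪ H, N ⊆ W ∪ H.biUnion id := fun N hN => by
    rcases mem_union.1 hN with k | k
    · rcases mem_union.1 k with k | k
      exacts [(hB.1 N k).2.1.trans subset_union_left, (hvd.2 N k).1.trans subset_union_left]
    · exact hHY N k
  have hZ : F ∪ G.ends H ⊆ G.ins (W ∪ H.biUnion id) := by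
    refine union_subset (hj.1.trans (ins_mono subset_union_left)) fun e he => ?_
    obtain ⟨N, hN, he⟩ := mem_biUnion.1 he
    exact ins_mono (union_subset (hHY N hN) subset_union_left)
      (ie_link ((hdg N hN).2.1.mono_right h.sub) he ((hdg N hN).2.2 he)).2
  have hev : ∀ N ⊆ W, Even ((F ∪ G.ends H) ∩ G.cut N).card := fun N hN =>
    GNorm_even (hZ.trans ins_sub_A) fun v hv => hj.2 v (hN hv)
  have hdeg : ∀ u ∈ W ∪ H.biUnion id,
      ((F ∪ G.ends H) ∩ G.cut (nd (Bs ∪ Ds ∪ H) u)).card = 0 ∨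
      ((F ∪ G.ends H) ∩ G.cut (nd (Bs ∪ Ds ∪ H) u)).card = 2 := by
    intro u hu
    rcases nd_cases hP u with k | ⟨k, k'⟩
    · generalize nd (Bs ∪ Ds ∪ H) u = N at k
      rcases mem_union.1 k with k | k
      · rcases mem_union.1 k with k | k
        · obtain ⟨h1, h2, h3⟩ := hB.1 N k
          refine GNorm_two (hF.1 N h1).2.1.1 (hev N h2) fun hs => hA N h1 h2 fun e he => ?_
          exact (mem_union.1 (hs he)).resolve_right fun k' =>
            not_ins_of_cut (hJ k') (by simpa using h3 he)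
        · obtain ⟨_, _, _, _, _, c, _, -, -, -, -, hq, -, -, -, -, -, h1, -, h2, -⟩ :=
            (hvd.2 N k).str hc hT h.sub
          refine GNorm_two hq.card (hev N (hvd.2 N k).1) fun hs => ?_
          exact (mem_union.1 (hs hq.mem.2.2.1)).elim (fun k' => not_ins_of_cut h1 (hj.1 k')) h2
      · obtain ⟨_, _, _, _, -, -, -, -, -, -, -, h2⟩ := (hdg N k).1
        right
        rwa [inter_eq_right.2 (show G.cut N ⊆ F ∪ G.ends H from
          (subset_biUnion_of_mem G.cut k).trans subset_union_right)]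
    · have huW : u ∈ W := (mem_union.1 hu).resolve_right fun k1 => by
        obtain ⟨N, hN, k2⟩ := mem_biUnion.1 k1
        exact k N (mem_union_right _ hN) k2
      rw [k']
      obtain ⟨m, hm⟩ := hev {u} (singleton_subset_iff.2 huW)
      have := card_le_card (inter_subset_right (s₁ := F ∪ G.ends H) (s₂ := G.cut {u}))
      rw [(hT.vtx hc (h.sub huW)).1] at this
      omega
  generalize hYe : W ∪ H.biUnion id = Y at *
  generalize hNe : Bs ∪ Ds ∪ H = Ns at *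
  have hat : ∀ x ∈ F ∪ G.ends H, ∀ u, x ∈ G.cut (nd Ns u) →
      x ∈ (F ∪ G.ends H) ∩ (G.quo Y Ns).A ∧ (G.quo Y Ns).At x (nd Ns u) := fun x hx u k =>
    have := (quo_at hP).2 ⟨hZ hx, k⟩
    ⟨mem_inter.2 ⟨hx, this.1⟩, this.2⟩
  obtain ⟨n, w, g, hC, h0, g0, hcl⟩ := cyc_of_deg (G := G.quo Y Ns)
    (S := (F ∪ G.ends H) ∩ (G.quo Y Ns).A) (fun x hx => quo_noloop (mem_inter.1 hx).2)
    (fun x => by
      by_cases hx : ∃ u ∈ Y, nd Ns u = x
      · obtain ⟨u, hu, rfl⟩ := hx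
        rw [quo_deg hP inter_subset_right, show (F ∪ G.ends H) ∩ (G.quo Y Ns).A ∩ G.cut (nd Ns u) =
          (F ∪ G.ends H) ∩ G.cut (nd Ns u) from Subset.antisymm
            (inter_subset_inter_right inter_subset_left) fun e he => mem_inter.2
              ⟨(hat e (mem_inter.1 he).1 u (mem_inter.1 he).2).1, (mem_inter.1 he).2⟩]
        exact hdeg u hu
      · push Not at hx
        exact Or.inl (quo_deg_zero inter_subset_right hx))
    (hat f hf v hf').1 (hat f hf v hf').2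
  have hg : ∀ i ≤ n, g i ∈ (F ∪ G.ends H) ∩ (G.quo Y Ns).A := fun i hi => by
    rcases hi.lt_or_eq with k | rfl
    exacts [hC.pth.mem i k, hC.cm]
  have hC' := hC.mono fun i hi => (mem_inter.1 (hg i hi)).2
  obtain ⟨t1, t2, -⟩ := trk_of_cyc hP hY hC'
  have hw := quo_cyc_node hC'
  refine ⟨n, w, _, ⟨hYe ▸ t1, hC.pos, t2, fun i hi => ?_, fun i hi x hx k => ?_,
    by rw [hYe, hNe]; exact hw⟩, h0, (Quo_es_succ hC.pos).trans g0⟩
  · rcases i with _ | i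
    · exact (mem_inter.1 (hg n le_rfl)).1
    · rw [Quo_es_succ hi]
      exact (mem_inter.1 (hg i (Nat.le_of_succ_le hi))).1
  · obtain ⟨u, -, hu⟩ := hw i hi
    have k1 := hat x hx u (hu ▸ k)
    rw [← hu] at k1
    obtain ⟨j, hj', rfl⟩ := mem_pe.1 (hcl x k1.1 i hi k1.2)
    exact (hC.at_iff hi (Nat.le_of_lt_succ hj')).1 k1.2

/-- In an acyclic join that avoids the boxes every circuit of nodes contains a digon. -/
theorem Fc.has_dg (hc : G.Cub) (hT : G.HT T) (hF : G.FF Fm T) (h : G.SPS T W Hh Hs Ds)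
    (hB : G.Bx Fm W ∅ Bs) (hj : G.Tj W (G.ends (Hh ∪ Hs)) F) (hA : G.Acy F)
    (hno : ∀ B ∈ Bs, Disjoint F (G.tch B)) {n : ℕ} {N : ℕ → Finset V} {e : ℕ → E}
    (hC : G.Fc W (Hh ∪ Hs) Bs Ds F n N e) : ∃ i ≤ n, N i ∈ Hh ∪ Hs := by
  obtain ⟨hP, -, h3⟩ := h.pd_all hc hF hB
  have hJ := h.ends_sub.1
  obtain ⟨ht, hn, he, hZ, hcl, hN⟩ := hC
  by_contra hh
  push Not at hh
  have hW : ∀ i ≤ n, N i ⊆ W := fun i hi => by
    obtain ⟨v, hv, e1⟩ := hN i hi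
    rcases mem_union.1 hv with k | k
    · rw [e1, h3 v k]
      refine nd_sub (fun M hM => ?_) k
      rcases mem_union.1 hM with k | k
      exacts [(hB.1 M k).2.1, (h.vd.2 M k).1]
    · obtain ⟨M, hM, k⟩ := mem_biUnion.1 k
      exact absurd (e1 ▸ (nd_of_mem hP (mem_union_right _ hM) k).symm ▸ hM) (hh i hi)
  have hU : ∀ i ≤ n, N i ⊆ bu n N := fun i hi x hx => mem_bu.2 ⟨i, hi, hx⟩
  have hUW : bu n N ⊆ W := fun x hx => by
    obtain ⟨i, hi, hx⟩ := mem_bu.1 hx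
    exact hW i hi hx
  have hl : ∀ i ≤ n, ∀ j ≤ n, i ≠ j → ∀ x ∈ G.cut (N i), x ∈ G.cut (N j) → x ∈ G.ins (bu n N) :=
    fun i hi j hj hij x h1 h2 => ins_mono (union_subset (hU i hi) (hU j hj))
      (ie_link (ht.2.1 i hi j hj hij) h1 h2).2
  have h0 : e 0 ∈ G.ins (bu n N) :=
    hl 0 n.zero_le n le_rfl (by omega) _ (ht.2.2 0 n.zero_le).1 (he ▸ (ht.2.2 n le_rfl).2.1)
  have h1 : ∀ i ≤ n + 1, e i ∈ G.ins (bu n N) := by
    rintro (_ | i) hi
    · exact h0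
    · rcases (Nat.le_of_succ_le_succ hi).lt_or_eq with k | rfl
      · exact hl i k.le (i + 1) k (by omega) _ (ht.2.2 i k.le).2.1 (ht.2.2 (i + 1) k).1
      · exact he ▸ h0
  have hFm : ∀ x ∈ F ∪ G.ends (Hh ∪ Hs), x ∈ G.ins (bu n N) → x ∈ F := fun x hx k =>
    (mem_union.1 hx).resolve_right fun k' => not_ins_of_cut (hJ k') (ins_mono hUW k)
  have hE : G.Ev (F ∩ G.ins (bu n N)) := fun v => by
    by_cases hv : v ∈ bu n N
    · rw [← hj.2 v (hUW hv)]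
      obtain ⟨i, hi, hvi⟩ := mem_bu.1 hv
      refine Ab_dg fun x hx => ⟨fun k => mem_union_left _ (mem_inter.1 k).1, fun k => ?_⟩
      have k1 : x ∈ G.ins (bu n N) := by
        rcases mem_tch_iff.1 (Cut_tch (union_subset (hj.1.trans ins_sub_A)
          (hJ.trans GNorm_cutA) k) hx hvi) with k2 | k2
        · exact ins_mono (hU i hi) k2
        · rcases hcl i hi x k k2 with rfl | rfl
          exacts [h1 i (by omega), h1 (i + 1) (by omega)]
      exact mem_inter.2 ⟨hFm x k k1, k1⟩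
    · exact dg_of_not_mem fun k => hv ((sub_ins_iff.1 inter_subset_right).2 k)
  exact notMem_empty _ (hA _ inter_subset_left hE ▸ mem_inter.2 ⟨hFm _ (hZ 0 n.zero_le) h0, h0⟩)

end SG

end Pool.Agent.Work.MP_8c679b_co
end
end
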