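import Pool.Agent.Work.MP_8c679b_co.Six.Cut

/-!
Relations on residues modulo three: classes, chains, closing lemmas.  No graphs here.
All proofs: induction on the length of the chain plus finite checks (`revert`, `decide`).
-/

set_option autoImplicit false

namespace Pool.Agent.Work.MP_8c679b_co

open Finset

namespace Rl

variable {R R' : Rl} {σ : ZMod 2} {τ s : ℕ → ZMod 2} {Rs Rs' : ℕ → Rl} {n j : ℕ}

theorem P.tt (h : R.P σ) : R.Tt := by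
  obtain ⟨c, h⟩ := h
  have k1 : ∀ (σ : ZMod 2) (c x : ZMod 3), ∃ y : ZMod 3, x + chi σ * y = c := by decide +kernel
  have k2 : ∀ (σ : ZMod 2) (c y : ZMod 3), ∃ x : ZMod 3, x + chi σ * y = c := by decide +kernel
  exact ⟨fun x => (k1 σ c x).imp fun y hy => h x y hy, fun y => (k2 σ c y).imp fun x hx => h x y hx⟩

theorem U.p (h : R.U σ) : R.P σ := by
  obtain ⟨c, h⟩ := h
  have k : ∀ c : ZMod 3, c + 1 ≠ c := by decide +kernel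
  exact ⟨c + 1, fun x y hxy => h x y (by rw [hxy]; exact k c)⟩

theorem U.gd (h : R.U σ) : R.Gd := by
  refine ⟨h.p.tt, fun α β => ?_⟩
  obtain ⟨c, h⟩ := h
  have k : ∀ (σ : ZMod 2) (c α β : ZMod 3), ∃ x y : ZMod 3,
      x + chi σ * y ≠ c ∧ (x = α ↔ y ≠ β) := by decide +kernel
  obtain ⟨x, y, h1, h2⟩ := k σ c α β
  exact ⟨x, y, h x y h1, h2⟩

theorem Xi.gd (h : R.Xi) : R.Gd := by
  obtain ⟨x0, y0, h⟩ := h
  have k1 : ∀ x0 y0 x : ZMod 3, ∃ y : ZMod 3, (x = x0 ↔ y ≠ y0) := by decide +kernel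
  have k2 : ∀ x0 y0 y : ZMod 3, ∃ x : ZMod 3, (x = x0 ↔ y ≠ y0) := by decide +kernel
  have k3 : ∀ x0 y0 α β : ZMod 3, ∃ x y : ZMod 3, (x = x0 ↔ y ≠ y0) ∧ (x = α ↔ y ≠ β) := by
    decide +kernel
  refine ⟨⟨fun x => (k1 x0 y0 x).imp fun y hy => h x y hy,
    fun y => (k2 x0 y0 y).imp fun x hx => h x y hx⟩, fun α β => ?_⟩
  obtain ⟨x, y, h1, h2⟩ := k3 x0 y0 α β
  exact ⟨x, y, h x y h1, h2⟩

theorem X0.xi (h : R.X0) : R.Xi := by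
  exact ⟨0, 0, h⟩

theorem Cs.tt (h : R.Cs) : R.Tt := by
  obtain ⟨x0, y0, h⟩ := h
  exact ⟨fun x => ⟨y0, h x y0 (Or.inr rfl)⟩, fun y => ⟨x0, h x0 y (Or.inl rfl)⟩⟩

theorem PX.tt (h : R.PX) : R.Tt := by
  rcases h with ⟨σ, h⟩ | h
  · exact h.tt
  · exact h.gd.1

theorem Tt.nv (h : R.Tt) : R.Nv := by
  exact ⟨0, h.1 0⟩

theorem P.swap (h : R.P σ) : Rl.P σ fun x y => R y x := by
  obtain ⟨c, h⟩ := h
  refine ⟨chi σ * c, fun x y hxy => h y x ?_⟩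
  linear_combination chi σ * hxy + (c - y) * chi_mul_self (R := ZMod 3) σ

theorem PX.swap (h : R.PX) : Rl.PX fun x y => R y x := by
  rcases h with ⟨σ, h⟩ | ⟨x0, y0, h⟩
  · exact Or.inl ⟨σ, h.swap⟩
  · exact Or.inr ⟨y0, x0, fun x y hxy => h y x (by tauto)⟩

theorem Gd.swap (h : R.Gd) : Rl.Gd fun x y => R y x := by
  refine ⟨⟨h.1.2, h.1.1⟩, fun α β => ?_⟩
  obtain ⟨x, y, h1, h2⟩ := h.2 β α
  exact ⟨y, x, h1, by tauto⟩

theorem Xi.swap (h : R.Xi) : Rl.Xi fun x y => R y x := by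
  obtain ⟨x0, y0, h⟩ := h
  exact ⟨y0, x0, fun x y hxy => h y x (by tauto)⟩

theorem Gd.mono (h : R.Gd) (hR : ∀ x y, R x y → R' x y) : R'.Gd := by
  refine ⟨⟨fun x => (h.1.1 x).imp fun y hy => hR x y hy,
    fun y => (h.1.2 y).imp fun x hx => hR x y hx⟩, fun α β => ?_⟩
  obtain ⟨x, y, h1, h2⟩ := h.2 α β
  exact ⟨x, y, hR x y h1, h2⟩

/-- two permutations of the same sign with different constants -/
theorem u_of_pc {c c' : ZMod 3} (h : R.PC σ c) (h' : R.PC σ c') (hc : c ≠ c') : R.U σ := by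
  have k : ∀ c c' : ZMod 3, c ≠ c' → ∃ d : ZMod 3, ∀ w : ZMod 3, w ≠ d → w = c ∨ w = c' := by
    decide +kernel
  obtain ⟨d, hd⟩ := k c c' hc
  exact ⟨d, fun x y hxy => (hd _ hxy).elim (h x y) (h' x y)⟩

/-- the chain depends only on the terms with index at most `n` -/
theorem chain_congr {τ' : ℕ → ZMod 2} (h : ∀ i ≤ n, Rs i = Rs' i) (ht : ∀ i ≤ n, τ i = τ' i) :
    chain τ Rs n = chain τ' Rs' n := by
  induction n with
  | zero => exact h 0 le_rfl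
  | succ n ih =>
    have := ih (fun i hi => h i (by omega)) (fun i hi => ht i (by omega))
    simp only [chain]
    rw [this, h (n + 1) le_rfl, ht (n + 1) le_rfl]

/-- composition along a link -/
def Z3cp (t : ZMod 2) (A B : Rl) : Rl := fun x z => ∃ y, A x y ∧ B (-(chi t) * y) z

/-- the identity -/
def Z3id : Rl := fun x y => x = y

/-- from the output of term `a` to the output of term `a + m` -/
def Z3seg (τ : ℕ → ZMod 2) (Rs : ℕ → Rl) (a : ℕ) : ℕ → Rl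
  | 0 => Z3id
  | m + 1 => Z3cp (τ (a + m + 1)) (Z3seg τ Rs a m) (Rs (a + m + 1))

/-- contains a point and the complementary square -/
def Z3XE (A : Rl) : Prop := ∃ x0 y0, ∀ x y, (x = x0 ↔ y = y0) → A x y

/-- the class of a chain of permutations and `m` crosses -/
def Z3Kl (m : ℕ) (A : Rl) : Prop :=
  A.Cs ∨ (m = 0 ∧ ∃ σ, A.P σ) ∨ (m % 2 = 1 ∧ A.Xi) ∨ (m ≠ 0 ∧ m % 2 = 0 ∧ Z3XE A)

/-- the class of a chain of permutations and `m` double permutations -/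
def Z3K2 (m : ℕ) (A : Rl) : Prop :=
  (∀ x y, A x y) ∨ (m ≤ 1 ∧ ∃ σ, A.U σ) ∨ (m = 0 ∧ ∃ σ, A.P σ)

section helpers

variable {A B : Rl} {K : ℕ → Rl → Prop} {w : ℕ → ℕ}

theorem Z3_cases (x : ZMod 3) : x = 0 ∨ x = 1 ∨ x = 2 := by
  revert x
  decide

theorem Z3_idpc : Z3id.PC 1 0 := by
  intro x y h
  rw [chi_one] at h
  show x = y
  linear_combination h

theorem Z3_idp : Z3id.P 1 := ⟨0, Z3_idpc⟩

theorem Z3_sg : sg s τ (n + 1) = sg s τ n + τ (n + 1) + s (n + 1) := by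
  simp only [sg, sum_range_succ]
  ring

theorem Z3_link (t : ZMod 2) (u : ZMod 3) : -(chi t) * (-(chi t) * u) = u := by
  linear_combination u * chi_mul_self (R := ZMod 3) t

theorem Z3_tt {t : ZMod 2} (hA : A.Tt) (hB : B.Tt) : (Z3cp t A B).Tt := by
  refine ⟨fun x => ?_, fun z => ?_⟩
  · obtain ⟨y, hy⟩ := hA.1 x
    obtain ⟨z, hz⟩ := hB.1 (-(chi t) * y)
    exact ⟨z, y, hy, hz⟩
  · obtain ⟨u, hu⟩ := hB.2 z
    obtain ⟨x, hx⟩ := hA.2 (-(chi t) * u)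
    exact ⟨x, _, hx, by rw [Z3_link]; exact hu⟩

theorem Z3_pc {σ' : ZMod 2} {c c' : ZMod 3} (t : ZMod 2) (hA : A.PC σ c) (hB : B.PC σ' c') :
    (Z3cp t A B).PC (σ + t + σ') (c + chi (σ + t) * c') := by
  have k : ∀ (σ t σ' : ZMod 2) (c c' x z : ZMod 3),
      x + chi (σ + t + σ') * z = c + chi (σ + t) * c' →
      ∃ y : ZMod 3, x + chi σ * y = c ∧ -(chi t) * y + chi σ' * z = c' := by decide +kernel
  intro x z h
  obtain ⟨y, h1, h2⟩ := k σ t σ' c c' x z h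
  exact ⟨y, hA _ _ h1, hB _ _ h2⟩

theorem Z3_p {σ' : ZMod 2} (t : ZMod 2) (hA : A.P σ) (hB : B.P σ') :
    (Z3cp t A B).P (σ + t + σ') := by
  obtain ⟨c, hA⟩ := hA
  obtain ⟨c', hB⟩ := hB
  exact ⟨_, Z3_pc t hA hB⟩

theorem Z3_pK (t : ZMod 2) (_ _ : ℕ) (A B : Rl) (hA : ∃ σ, A.P σ) (hB : ∃ σ, B.P σ) :
    ∃ σ, (Z3cp t A B).P σ := by
  obtain ⟨σ, hA⟩ := hA
  obtain ⟨σ', hB⟩ := hB
  exact ⟨_, Z3_p t hA hB⟩

theorem Z3_up {σ' : ZMod 2} (t : ZMod 2) (hA : A.U σ) (hB : B.P σ') :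
    (Z3cp t A B).U (σ + t + σ') := by
  have k : ∀ (σ t σ' : ZMod 2) (c c' x z : ZMod 3),
      x + chi (σ + t + σ') * z ≠ c + chi (σ + t) * c' →
      ∃ y : ZMod 3, x + chi σ * y ≠ c ∧ -(chi t) * y + chi σ' * z = c' := by decide +kernel
  obtain ⟨c, hA⟩ := hA
  obtain ⟨c', hB⟩ := hB
  refine ⟨c + chi (σ + t) * c', fun x z h => ?_⟩
  obtain ⟨y, h1, h2⟩ := k σ t σ' c c' x z h
  exact ⟨y, hA _ _ h1, hB _ _ h2⟩

theorem Z3_pu {σ' : ZMod 2} (t : ZMod 2) (hA : A.P σ) (hB : B.U σ') :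
    (Z3cp t A B).U (σ + t + σ') := by
  have k : ∀ (σ t σ' : ZMod 2) (c c' x z : ZMod 3),
      x + chi (σ + t + σ') * z ≠ c + chi (σ + t) * c' →
      ∃ y : ZMod 3, x + chi σ * y = c ∧ -(chi t) * y + chi σ' * z ≠ c' := by decide +kernel
  obtain ⟨c, hA⟩ := hA
  obtain ⟨c', hB⟩ := hB
  refine ⟨c + chi (σ + t) * c', fun x z h => ?_⟩
  obtain ⟨y, h1, h2⟩ := k σ t σ' c c' x z h
  exact ⟨y, hA _ _ h1, hB _ _ h2⟩

theorem Z3_uu {σ' : ZMod 2} (t : ZMod 2) (hA : A.U σ) (hB : B.U σ') (x z : ZMod 3) :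
    Z3cp t A B x z := by
  have k : ∀ (σ t σ' : ZMod 2) (c c' x z : ZMod 3),
      ∃ y : ZMod 3, x + chi σ * y ≠ c ∧ -(chi t) * y + chi σ' * z ≠ c' := by decide +kernel
  obtain ⟨c, hA⟩ := hA
  obtain ⟨c', hB⟩ := hB
  obtain ⟨y, h1, h2⟩ := k σ t σ' c c' x z
  exact ⟨y, hA _ _ h1, hB _ _ h2⟩

theorem Z3_K2tt {m : ℕ} (h : Z3K2 m A) : A.Tt := by
  rcases h with h | ⟨-, σ, h⟩ | ⟨-, σ, h⟩
  · exact ⟨fun x => ⟨0, h x 0⟩, fun y => ⟨0, h 0 y⟩⟩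
  · exact h.p.tt
  · exact h.tt

theorem Z3_idK2 : Z3K2 0 Z3id := Or.inr (Or.inr ⟨rfl, 1, Z3_idp⟩)

theorem Z3_K2 (t : ZMod 2) (m m' : ℕ) (A B : Rl) (hA : Z3K2 m A) (hB : Z3K2 m' B) :
    Z3K2 (m + m') (Z3cp t A B) := by
  have tA := Z3_K2tt hA
  have tB := Z3_K2tt hB
  rcases hA with hA | hA
  · refine Or.inl fun x z => ?_
    obtain ⟨u, hu⟩ := tB.2 z
    exact ⟨_, hA x (-(chi t) * u), by rw [Z3_link]; exact hu⟩
  rcases hB with hB | hB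
  · refine Or.inl fun x z => ?_
    obtain ⟨y, hy⟩ := tA.1 x
    exact ⟨y, hy, hB _ _⟩
  rcases hA with ⟨h1, σ, hA⟩ | ⟨h1, σ, hA⟩ <;> rcases hB with ⟨h2, σ', hB⟩ | ⟨h2, σ', hB⟩
  · exact Or.inl (Z3_uu t hA hB)
  · exact Or.inr (Or.inl ⟨by omega, _, Z3_up t hA hB⟩)
  · exact Or.inr (Or.inl ⟨by omega, _, Z3_pu t hA hB⟩)
  · exact Or.inr (Or.inr ⟨by omega, _, Z3_p t hA hB⟩)

theorem Z3_csl {t : ZMod 2} (hA : A.Cs) (hB : B.Tt) : (Z3cp t A B).Cs := by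
  obtain ⟨x0, y0, hA⟩ := hA
  obtain ⟨z0, hz⟩ := hB.1 (-(chi t) * y0)
  refine ⟨x0, z0, fun x z h => ?_⟩
  rcases h with h | h
  · obtain ⟨u, hu⟩ := hB.2 z
    exact ⟨_, hA x (-(chi t) * u) (Or.inl h), by rw [Z3_link]; exact hu⟩
  · exact ⟨y0, hA _ _ (Or.inr rfl), h ▸ hz⟩

theorem Z3_csr {t : ZMod 2} (hA : A.Tt) (hB : B.Cs) : (Z3cp t A B).Cs := by
  obtain ⟨x0, y0, hB⟩ := hB
  obtain ⟨x1, hx⟩ := hA.2 (-(chi t) * x0)
  refine ⟨x1, y0, fun x z h => ?_⟩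
  rcases h with h | h
  · exact ⟨_, h ▸ hx, hB _ _ (Or.inl (Z3_link t x0))⟩
  · obtain ⟨y, hy⟩ := hA.1 x
    exact ⟨y, hy, hB _ _ (Or.inr h)⟩

theorem Z3_xett (h : Z3XE A) : A.Tt := by
  obtain ⟨x0, y0, h⟩ := h
  have k1 : ∀ x0 y0 x : ZMod 3, ∃ y : ZMod 3, (x = x0 ↔ y = y0) := by decide +kernel
  have k2 : ∀ x0 y0 y : ZMod 3, ∃ x : ZMod 3, (x = x0 ↔ y = y0) := by decide +kernel
  exact ⟨fun x => (k1 x0 y0 x).imp fun y hy => h x y hy,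
    fun y => (k2 x0 y0 y).imp fun x hx => h x y hx⟩

theorem Z3_Kltt {m : ℕ} (h : Z3Kl m A) : A.Tt := by
  rcases h with h | ⟨-, σ, h⟩ | ⟨-, h⟩ | ⟨-, -, h⟩
  · exact h.tt
  · exact h.tt
  · exact h.gd.1
  · exact Z3_xett h

theorem Z3_idKl : Z3Kl 0 Z3id := Or.inr (Or.inl ⟨rfl, 1, Z3_idp⟩)

theorem Z3_x0Kl (h : A.X0) : Z3Kl 1 A := Or.inr (Or.inr (Or.inl ⟨rfl, h.xi⟩))

theorem Z3_lk (t : ZMod 2) (y x1 : ZMod 3) : -(chi t) * y = x1 ↔ y = -(chi t) * x1 := by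
  revert t y x1
  decide +kernel

theorem Z3_pxi (t : ZMod 2) (hA : A.P σ) (hB : B.Xi) : (Z3cp t A B).Xi := by
  obtain ⟨c, hA⟩ := hA
  obtain ⟨x1, y1, hB⟩ := hB
  have k : ∀ (σ : ZMod 2) (c v : ZMod 3), ∃ a : ZMod 3, ∀ x : ZMod 3, ∃ y : ZMod 3,
      x + chi σ * y = c ∧ (y = v ↔ x = a) := by decide +kernel
  obtain ⟨a, ha⟩ := k σ c (-(chi t) * x1)
  refine ⟨a, y1, fun x z h => ?_⟩
  obtain ⟨y, h1, h2⟩ := ha x
  exact ⟨y, hA _ _ h1, hB _ _ (by rw [Z3_lk, h2]; exact h)⟩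

theorem Z3_pxe (t : ZMod 2) (hA : A.P σ) (hB : Z3XE B) : Z3XE (Z3cp t A B) := by
  obtain ⟨c, hA⟩ := hA
  obtain ⟨x1, y1, hB⟩ := hB
  have k : ∀ (σ : ZMod 2) (c v : ZMod 3), ∃ a : ZMod 3, ∀ x : ZMod 3, ∃ y : ZMod 3,
      x + chi σ * y = c ∧ (y = v ↔ x = a) := by decide +kernel
  obtain ⟨a, ha⟩ := k σ c (-(chi t) * x1)
  refine ⟨a, y1, fun x z h => ?_⟩
  obtain ⟨y, h1, h2⟩ := ha x
  exact ⟨y, hA _ _ h1, hB _ _ (by rw [Z3_lk, h2]; exact h)⟩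

theorem Z3_xip (t : ZMod 2) (hA : A.Xi) (hB : B.P σ) : (Z3cp t A B).Xi := by
  obtain ⟨c, hB⟩ := hB
  obtain ⟨x0, y0, hA⟩ := hA
  have k : ∀ (t σ : ZMod 2) (c v : ZMod 3), ∃ b : ZMod 3, ∀ z : ZMod 3, ∃ y : ZMod 3,
      -(chi t) * y + chi σ * z = c ∧ (y = v ↔ z = b) := by decide +kernel
  obtain ⟨b, hb⟩ := k t σ c y0
  refine ⟨x0, b, fun x z h => ?_⟩
  obtain ⟨y, h1, h2⟩ := hb z
  exact ⟨y, hA _ _ (by (clear * - h h2; tauto)), hB _ _ h1⟩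

theorem Z3_xep (t : ZMod 2) (hA : Z3XE A) (hB : B.P σ) : Z3XE (Z3cp t A B) := by
  obtain ⟨c, hB⟩ := hB
  obtain ⟨x0, y0, hA⟩ := hA
  have k : ∀ (t σ : ZMod 2) (c v : ZMod 3), ∃ b : ZMod 3, ∀ z : ZMod 3, ∃ y : ZMod 3,
      -(chi t) * y + chi σ * z = c ∧ (y = v ↔ z = b) := by decide +kernel
  obtain ⟨b, hb⟩ := k t σ c y0
  refine ⟨x0, b, fun x z h => ?_⟩
  obtain ⟨y, h1, h2⟩ := hb z
  exact ⟨y, hA _ _ (by tauto), hB _ _ h1⟩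

theorem Z3_xixi (t : ZMod 2) (hA : A.Xi) (hB : B.Xi) : (Z3cp t A B).Cs ∨ Z3XE (Z3cp t A B) := by
  obtain ⟨x0, y0, hA⟩ := hA
  obtain ⟨x1, y1, hB⟩ := hB
  by_cases e : y0 = -(chi t) * x1
  · have k : ∀ x0 y0 y1 x z : ZMod 3, (x = x0 ↔ z = y1) →
        ∃ y : ZMod 3, (x = x0 ↔ y ≠ y0) ∧ (y = y0 ↔ z ≠ y1) := by decide +kernel
    refine Or.inr ⟨x0, y1, fun x z h => ?_⟩
    obtain ⟨y, h1, h2⟩ := k x0 y0 y1 x z h
    exact ⟨y, hA _ _ h1, hB _ _ (by rw [Z3_lk, ← e]; exact h2)⟩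
  · have k : ∀ x0 y0 v y1 x z : ZMod 3, y0 ≠ v → (x = x0 ∨ z = y1) →
        ∃ y : ZMod 3, (x = x0 ↔ y ≠ y0) ∧ (y = v ↔ z ≠ y1) := by
      intro x0 y0
      rcases Z3_cases x0 with rfl | rfl | rfl <;> rcases Z3_cases y0 with rfl | rfl | rfl <;>
        decide +kernel
    refine Or.inl ⟨x0, y1, fun x z h => ?_⟩
    obtain ⟨y, h1, h2⟩ := k x0 y0 _ y1 x z e h
    exact ⟨y, hA _ _ h1, hB _ _ (by rw [Z3_lk]; exact h2)⟩

theorem Z3_xixe (t : ZMod 2) (hA : A.Xi) (hB : Z3XE B) : (Z3cp t A B).Cs ∨ (Z3cp t A B).Xi := by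
  obtain ⟨x0, y0, hA⟩ := hA
  obtain ⟨x1, y1, hB⟩ := hB
  by_cases e : y0 = -(chi t) * x1
  · have k : ∀ x0 y0 y1 x z : ZMod 3, (x = x0 ↔ z ≠ y1) →
        ∃ y : ZMod 3, (x = x0 ↔ y ≠ y0) ∧ (y = y0 ↔ z = y1) := by decide +kernel
    refine Or.inr ⟨x0, y1, fun x z h => ?_⟩
    obtain ⟨y, h1, h2⟩ := k x0 y0 y1 x z h
    exact ⟨y, hA _ _ h1, hB _ _ (by rw [Z3_lk, ← e]; exact h2)⟩
  · have k : ∀ x0 y0 v y1 x z : ZMod 3, y0 ≠ v → (x = x0 ∨ z = y1 + 1) →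
        ∃ y : ZMod 3, (x = x0 ↔ y ≠ y0) ∧ (y = v ↔ z = y1) := by
      intro x0 y0
      rcases Z3_cases x0 with rfl | rfl | rfl <;> rcases Z3_cases y0 with rfl | rfl | rfl <;>
        decide +kernel
    refine Or.inl ⟨x0, y1 + 1, fun x z h => ?_⟩
    obtain ⟨y, h1, h2⟩ := k x0 y0 _ y1 x z e h
    exact ⟨y, hA _ _ h1, hB _ _ (by rw [Z3_lk]; exact h2)⟩

theorem Z3_xexi (t : ZMod 2) (hA : Z3XE A) (hB : B.Xi) : (Z3cp t A B).Cs ∨ (Z3cp t A B).Xi := by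
  obtain ⟨x0, y0, hA⟩ := hA
  obtain ⟨x1, y1, hB⟩ := hB
  by_cases e : y0 = -(chi t) * x1
  · have k : ∀ x0 y0 y1 x z : ZMod 3, (x = x0 ↔ z ≠ y1) →
        ∃ y : ZMod 3, (x = x0 ↔ y = y0) ∧ (y = y0 ↔ z ≠ y1) := by decide +kernel
    refine Or.inr ⟨x0, y1, fun x z h => ?_⟩
    obtain ⟨y, h1, h2⟩ := k x0 y0 y1 x z h
    exact ⟨y, hA _ _ h1, hB _ _ (by rw [Z3_lk, ← e]; exact h2)⟩
  · have k : ∀ x0 y0 v y1 x z : ZMod 3, y0 ≠ v → (x = x0 + 1 ∨ z = y1) →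
        ∃ y : ZMod 3, (x = x0 ↔ y = y0) ∧ (y = v ↔ z ≠ y1) := by
      intro x0 y0
      rcases Z3_cases x0 with rfl | rfl | rfl <;> rcases Z3_cases y0 with rfl | rfl | rfl <;>
        decide +kernel
    refine Or.inl ⟨x0 + 1, y1, fun x z h => ?_⟩
    obtain ⟨y, h1, h2⟩ := k x0 y0 _ y1 x z e h
    exact ⟨y, hA _ _ h1, hB _ _ (by rw [Z3_lk]; exact h2)⟩

set_option synthInstance.maxSize 1024 in
theorem Z3_xexe (t : ZMod 2) (hA : Z3XE A) (hB : Z3XE B) :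
    (Z3cp t A B).Cs ∨ Z3XE (Z3cp t A B) := by
  obtain ⟨x0, y0, hA⟩ := hA
  obtain ⟨x1, y1, hB⟩ := hB
  by_cases e : y0 = -(chi t) * x1
  · have k : ∀ x0 y0 y1 x z : ZMod 3, (x = x0 ↔ z = y1) →
        ∃ y : ZMod 3, (x = x0 ↔ y = y0) ∧ (y = y0 ↔ z = y1) := by decide +kernel
    refine Or.inr ⟨x0, y1, fun x z h => ?_⟩
    obtain ⟨y, h1, h2⟩ := k x0 y0 y1 x z h
    exact ⟨y, hA _ _ h1, hB _ _ (by rw [Z3_lk, ← e]; exact h2)⟩
  · have k : ∀ x0 y0 v y1 x z : ZMod 3, y0 ≠ v → (x = x0 + 1 ∨ z = y1 + 1) →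
        ∃ y : ZMod 3, (x = x0 ↔ y = y0) ∧ (y = v ↔ z = y1) := by
      intro x0 y0
      rcases Z3_cases x0 with rfl | rfl | rfl <;> rcases Z3_cases y0 with rfl | rfl | rfl <;>
        decide +kernel
    refine Or.inl ⟨x0 + 1, y1 + 1, fun x z h => ?_⟩
    obtain ⟨y, h1, h2⟩ := k x0 y0 _ y1 x z e h
    exact ⟨y, hA _ _ h1, hB _ _ (by rw [Z3_lk]; exact h2)⟩

theorem Z3_Kl (t : ZMod 2) (m m' : ℕ) (A B : Rl) (hA : Z3Kl m A) (hB : Z3Kl m' B) :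
    Z3Kl (m + m') (Z3cp t A B) := by
  have tA := Z3_Kltt hA
  have tB := Z3_Kltt hB
  rcases hA with hA | hA
  · exact Or.inl (Z3_csl hA tB)
  rcases hB with hB | hB
  · exact Or.inl (Z3_csr tA hB)
  rcases hA with ⟨h1, σ, hA⟩ | ⟨h1, hA⟩ | ⟨h0, h1, hA⟩ <;>
    rcases hB with ⟨h2, σ', hB⟩ | ⟨h2, hB⟩ | ⟨h3, h2, hB⟩
  · exact Or.inr (Or.inl ⟨by omega, _, Z3_p t hA hB⟩)
  · exact Or.inr (Or.inr (Or.inl ⟨by omega, Z3_pxi t hA hB⟩))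
  · exact Or.inr (Or.inr (Or.inr ⟨by omega, by omega, Z3_pxe t hA hB⟩))
  · exact Or.inr (Or.inr (Or.inl ⟨by omega, Z3_xip t hA hB⟩))
  · exact (Z3_xixi t hA hB).imp id fun h => Or.inr (Or.inr ⟨by omega, by omega, h⟩)
  · exact (Z3_xixe t hA hB).imp id fun h => Or.inr (Or.inl ⟨by omega, h⟩)
  · exact Or.inr (Or.inr (Or.inr ⟨by omega, by omega, Z3_xep t hA hB⟩))
  · exact (Z3_xexi t hA hB).imp id fun h => Or.inr (Or.inl ⟨by omega, h⟩)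
  · exact (Z3_xexe t hA hB).imp id fun h => Or.inr (Or.inr ⟨by omega, by omega, h⟩)

theorem Z3_chseg {a m : ℕ} {x y z : ZMod 3} (h1 : chain τ Rs a x y) (h2 : Z3seg τ Rs a m y z) :
    chain τ Rs (a + m) x z := by
  induction m generalizing z with
  | zero =>
    have e : y = z := h2
    exact e ▸ h1
  | succ m ih =>
    obtain ⟨u, h3, h4⟩ := h2
    exact ⟨u, ih h3, h4⟩

theorem Z3_chK (hc : ∀ t m m' A B, K m A → K m' B → K (m + m') (Z3cp t A B))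
    (h : ∀ i ≤ n, K (w i) (Rs i)) : K (∑ i ∈ range (n + 1), w i) (chain τ Rs n) := by
  induction n with
  | zero => simpa [chain] using h 0 le_rfl
  | succ n ih =>
    rw [sum_range_succ]
    exact hc _ _ _ _ _ (ih fun i hi => h i (by omega)) (h (n + 1) le_rfl)

theorem Z3_segK {a m : ℕ} (h1 : K 0 Z3id)
    (hc : ∀ t m m' A B, K m A → K m' B → K (m + m') (Z3cp t A B))
    (h : ∀ i, a < i → i ≤ a + m → K (w i) (Rs i)) :
    K (∑ i ∈ range m, w (a + i + 1)) (Z3seg τ Rs a m) := by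
  induction m with
  | zero => simpa [Z3seg] using h1
  | succ m ih =>
    rw [sum_range_succ]
    exact hc _ _ _ _ _ (ih fun i h1 h2 => h i h1 (by omega)) (h _ (by omega) (by omega))

theorem Z3_preK (h1 : K 0 Z3id) (hc : ∀ t m m' A B, K m A → K m' B → K (m + m') (Z3cp t A B))
    (h : ∀ i < j, K (w i) (Rs i)) :
    ∃ A, K (∑ i ∈ range j, w i) A ∧ ∀ x u y, A x u → Rs j u y → chain τ Rs j x y := by
  cases j with
  | zero =>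
    refine ⟨Z3id, by simpa using h1, fun x u y h2 h3 => ?_⟩
    have e : x = u := h2
    exact e ▸ h3
  | succ j =>
    refine ⟨Z3cp (τ (j + 1)) (chain τ Rs j) Z3id,
      hc _ _ 0 _ _ (Z3_chK hc fun i hi => h i (by omega)) h1, fun x u y h2 h3 => ?_⟩
    obtain ⟨v, h4, h5⟩ := h2
    have e : -(chi (τ (j + 1))) * v = u := h5
    exact ⟨v, h4, e ▸ h3⟩

theorem Z3_sand (h1 : K 0 Z3id) (hc : ∀ t m m' A B, K m A → K m' B → K (m + m') (Z3cp t A B))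
    (hj : j ≤ n) (h : ∀ i ≤ n, i ≠ j → K (w i) (Rs i)) :
    ∃ A B, K (∑ i ∈ range j, w i) A ∧ K (∑ i ∈ range (n - j), w (j + i + 1)) B ∧
      ∀ x u y z, A x u → Rs j u y → B y z → chain τ Rs n x z := by
  obtain ⟨m, rfl⟩ : ∃ m, n = j + m := ⟨n - j, by omega⟩
  obtain ⟨A, hA, hA'⟩ := Z3_preK (τ := τ) (w := w) (j := j) h1 hc fun i hi => h i (by omega) (by omega)
  rw [Nat.add_sub_cancel_left]
  exact ⟨A, Z3seg τ Rs j m, hA, Z3_segK h1 hc fun i h2 h3 => h i h3 (by omega),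
    fun x u y z h2 h3 h4 => Z3_chseg (hA' x u y h2 h3) h4⟩

theorem Z3_rest (h1 : K 0 Z3id) (hc : ∀ t m m' A B, K m A → K m' B → K (m + m') (Z3cp t A B))
    (hj : j ≤ n) (h : ∀ i ≤ n, i ≠ j → K (w i) (Rs i)) :
    ∃ m B, m + w j = ∑ i ∈ range (n + 1), w i ∧ K m B ∧
      ∀ u y, Rs j u y → B y u → Cl τ Rs n := by
  obtain ⟨A, B, hA, hB, hs⟩ := Z3_sand (τ := τ) h1 hc hj h
  refine ⟨_, _, ?_, hc (τ 0) _ _ _ _ hB hA, fun u y h2 h3 => ?_⟩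
  · obtain ⟨m, rfl⟩ : ∃ m, n = j + m := ⟨n - j, by omega⟩
    rw [Nat.add_sub_cancel_left, show j + m + 1 = j + 1 + m by ring, sum_range_add _ (j + 1) m,
      sum_range_succ]
    simp only [show ∀ i, j + 1 + i = j + i + 1 from fun i => by ring]
    ring
  · obtain ⟨z, h4, h5⟩ := h3
    exact ⟨_, z, hs _ u y z h5 h2 h4, rfl⟩

theorem Z3_card {H : Finset ℕ} (hH : H ⊆ range (n + 1)) :
    ∑ i ∈ range (n + 1), (if i ∈ H then 1 else 0) = H.card := by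
  rw [sum_boole, filter_mem_eq_inter, inter_eq_right.2 hH]
  rfl

theorem Z3_chxi (hj : j ≤ n) (h : ∀ i ≤ n, i ≠ j → ∃ σ, (Rs i).P σ) (hx : (Rs j).Xi) :
    (chain τ Rs n).Xi := by
  obtain ⟨A, B, ⟨σ1, hA⟩, ⟨σ2, hB⟩, hs⟩ :=
    Z3_sand (τ := τ) (K := fun _ A => ∃ σ, A.P σ) (w := fun _ => 0) ⟨1, Z3_idp⟩ Z3_pK hj h
  obtain ⟨x0, y0, h1⟩ := Z3_xip 1 (Z3_pxi 1 hA hx) hB
  refine ⟨x0, y0, fun x z h2 => ?_⟩
  obtain ⟨y, ⟨u, h3, h4⟩, h5⟩ := h1 x z h2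
  simp only [chi_one, neg_neg, one_mul] at h4 h5
  exact hs x u y z h3 h4 h5

theorem Z3_diff {c c' : ℕ → ZMod 3}
    (h : ∀ i ≤ n, (Rs i).PC (s i) (c i) ∧ (Rs' i).PC (s i) (c' i)) (hc : c 0 ≠ c' 0)
    (hs : ∀ i ≤ n, i ≠ 0 → c i = c' i) :
    ∃ σ d d', d ≠ d' ∧ (chain τ Rs n).PC σ d ∧ (chain τ Rs' n).PC σ d' := by
  induction n with
  | zero => exact ⟨_, _, _, hc, h 0 le_rfl⟩
  | succ n ih =>
    obtain ⟨σ, d, d', hd, h1, h2⟩ := ih (fun i hi => h i (by omega)) fun i hi => hs i (by omega)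
    refine ⟨_, _, _, ?_, Z3_pc (τ (n + 1)) h1 (h (n + 1) le_rfl).1,
      Z3_pc (τ (n + 1)) h2 (h (n + 1) le_rfl).2⟩
    rw [hs (n + 1) le_rfl (by omega)]
    exact fun e => hd (add_right_cancel e)

theorem Z3_same {c : ℕ → ZMod 3} {a m : ℕ}
    (h : ∀ i, a < i → i ≤ a + m → (Rs i).PC (s i) (c i) ∧ (Rs' i).PC (s i) (c i)) :
    ∃ σ d, (Z3seg τ Rs a m).PC σ d ∧ (Z3seg τ Rs' a m).PC σ d := by
  induction m with
  | zero => exact ⟨_, _, Z3_idpc, Z3_idpc⟩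
  | succ m ih =>
    obtain ⟨σ, d, h1, h2⟩ := ih fun i h1 h2 => h i h1 (by omega)
    have := h (a + m + 1) (by omega) (by omega)
    exact ⟨_, _, Z3_pc (τ (a + m + 1)) h1 this.1, Z3_pc (τ (a + m + 1)) h2 this.2⟩

/-- the three shapes that meet every permutation with nonzero constant -/
def Z3W (M : Rl) : Prop := (∀ y, y ≠ 0 → M 0 y) ∨ (∀ u, u ≠ 0 → M u 0) ∨ M.Cs ∨ Z3XE M

theorem Z3_meet {M S : Rl} {d : ZMod 3} (hM : Z3W M) (hS : S.PC σ d) (hd : d ≠ 0) :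
    ∃ u y, M u y ∧ S y u := by
  rcases hM with h | h | ⟨x0, y0, h⟩ | ⟨x0, y0, h⟩
  · exact ⟨0, d, h d hd, hS _ _ (by simp)⟩
  · have k : ∀ (σ : ZMod 2) (d : ZMod 3), d ≠ 0 → ∃ u : ZMod 3, u ≠ 0 ∧ 0 + chi σ * u = d := by
      decide +kernel
    obtain ⟨u, h1, h2⟩ := k σ d hd
    exact ⟨u, 0, h u h1, hS _ _ h2⟩
  · obtain ⟨y, hy⟩ := (P.tt ⟨d, hS⟩).2 x0
    exact ⟨x0, y, h _ _ (Or.inl rfl), hy⟩
  · have k : ∀ (σ : ZMod 2) (d x0 y0 : ZMod 3), ∃ u y : ZMod 3,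
        (u = x0 ↔ y = y0) ∧ y + chi σ * u = d := by decide +kernel
    obtain ⟨u, y, h1, h2⟩ := k σ d x0 y0
    exact ⟨u, y, h _ _ h1, hS _ _ h2⟩

theorem Z3_csmeet (h : A.Cs) : ∃ x y, A x y ∧ (x = 0 ↔ y ≠ 0) := by
  obtain ⟨x0, y0, h⟩ := h
  have k : ∀ x0 : ZMod 3, ∃ y : ZMod 3, (x0 = 0 ↔ y ≠ 0) := by decide +kernel
  obtain ⟨y, hy⟩ := k x0
  exact ⟨x0, y, h _ _ (Or.inl rfl), hy⟩

theorem Z3_mid {N : Rl} {m : ℕ} (t : ZMod 2) (hA : A.X0) (hN : Z3Kl m N) (hB : B.X0) :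
    Z3W (Z3cp t (Z3cp 1 A N) B) := by
  by_cases hm : m % 2 = 1
  · have : ∃ v w, N v w ∧ (v = 0 ↔ w ≠ 0) := by
      rcases hN with h | ⟨h, -⟩ | ⟨-, h⟩ | ⟨-, h, -⟩
      · exact Z3_csmeet h
      · omega
      · exact h.gd.2 0 0
      · omega
    obtain ⟨v, w, h1, h2⟩ := this
    have h1' : N (-(chi 1) * v) w := by simpa using h1
    have k : ∀ (t : ZMod 2) (w : ZMod 3), -(chi t) * w = 0 ↔ w = 0 := by decide +kernel
    by_cases hv : v = 0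
    · refine Or.inr (Or.inl fun u hu => ⟨w, ⟨v, hA _ _ (by tauto), h1'⟩, hB _ _ ?_⟩)
      rw [k]
      tauto
    · refine Or.inl fun y hy => ⟨w, ⟨v, hA _ _ (by tauto), h1'⟩, hB _ _ ?_⟩
      rw [k]
      tauto
  · rcases Z3_Kl t _ _ _ _ (Z3_Kl 1 _ _ _ _ (Z3_x0Kl hA) hN) (Z3_x0Kl hB) with
      h | ⟨h, -⟩ | ⟨h, -⟩ | ⟨-, -, h⟩
    · exact Or.inr (Or.inr (Or.inl h))
    · omega
    · omega
    · exact Or.inr (Or.inr (Or.inr h))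

theorem Z3_close {a b m : ℕ} {σ1 σ2 : ZMod 2} {d e : ZMod 3} (hab : a + 1 ≤ b)
    (ha : (Rs (a + 1)).X0) (hb : (Rs b).X0) (h : ∀ i, a + 1 < i → i < b → ∃ k, Z3Kl k (Rs i))
    (p1 : (chain τ Rs a).PC σ1 d) (p2 : (Z3seg τ Rs b m).PC σ2 e)
    (hd : e + chi (σ2 + τ 0) * d ≠ 0) : Cl τ Rs (b + m) := by
  have hM : ∃ M, Z3W M ∧ ∀ x v y, chain τ Rs a x v → M (-(chi (τ (a + 1))) * v) y →
      chain τ Rs b x y := by
    rcases hab.eq_or_lt with rfl | hlt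
    · exact ⟨Rs (a + 1), Or.inl fun y hy => ha _ _ (by tauto), fun x v y h1 h2 => ⟨v, h1, h2⟩⟩
    · obtain ⟨r, rfl⟩ : ∃ r, b = a + 1 + r + 1 := ⟨b - a - 2, by omega⟩
      obtain ⟨k, hk⟩ := Z3_segK (τ := τ) (Rs := Rs) (a := a + 1) (m := r)
        (K := fun _ A => ∃ k, Z3Kl k A) (w := fun _ => 0) ⟨0, Z3_idKl⟩
        (fun t _ _ A B ⟨k, hk⟩ ⟨k', hk'⟩ => ⟨_, Z3_Kl t k k' A B hk hk'⟩)
        fun i h1 h2 => h i h1 (by omega)
      refine ⟨_, Z3_mid (τ (a + 1 + r + 1)) ha hk hb, fun x v y h1 h2 => ?_⟩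
      obtain ⟨w, ⟨u, h3, h4⟩, h5⟩ := h2
      simp only [chi_one, neg_neg, one_mul] at h4
      exact ⟨w, Z3_chseg (a := a + 1) ⟨v, h1, h3⟩ h4, h5⟩
  obtain ⟨M, hW, hM⟩ := hM
  have hS := Z3_pc (τ (a + 1)) (Z3_pc (τ 0) p2 p1) Z3_idpc
  obtain ⟨u, y, h1, v, ⟨z, h2, h3⟩, h4⟩ := Z3_meet hW hS (by simpa using hd)
  have e4 : -(chi (τ (a + 1))) * v = u := h4
  exact ⟨_, z, Z3_chseg (hM _ v y h3 (e4 ▸ h1)) h2, rfl⟩

end helpers

theorem ch_tt (h : ∀ i ≤ n, (Rs i).Tt) : (chain τ Rs n).Tt := by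
  exact Z3_chK (K := fun _ A => A.Tt) (w := fun _ => 0) (fun _ _ _ _ _ => Z3_tt) h

theorem ch_pc {c : ℕ → ZMod 3} (h : ∀ i ≤ n, (Rs i).PC (s i) (c i)) :
    (chain τ Rs n).PC (sg s τ n)
      (∑ i ∈ range (n + 1), chi (∑ k ∈ range i, (s k + τ (k + 1))) * c i) := by
  induction n with
  | zero => simpa [sg, chain] using h 0 le_rfl
  | succ n ih =>
    have h1 := Z3_pc (τ (n + 1)) (ih fun i hi => h i (by omega)) (h (n + 1) le_rfl)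
    have e1 : sg s τ n + τ (n + 1) = ∑ k ∈ range (n + 1), (s k + τ (k + 1)) := by
      simp only [sg, sum_add_distrib, sum_range_succ (fun k => τ (k + 1)) n]
      ring
    rw [Z3_sg, sum_range_succ _ (n + 1), ← e1]
    exact h1

theorem ch_p (h : ∀ i ≤ n, (Rs i).P (s i)) : (chain τ Rs n).P (sg s τ n) := by
  induction n with
  | zero => simpa [sg, chain] using h 0 le_rfl
  | succ n ih =>
    rw [Z3_sg]
    exact Z3_p (τ (n + 1)) (ih fun i hi => h i (by omega)) (h (n + 1) le_rfl)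

theorem ch_u (h : ∀ i ≤ n, (Rs i).P (s i)) (hj : j ≤ n) (hu : (Rs j).U (s j)) :
    (chain τ Rs n).U (sg s τ n) := by
  induction n with
  | zero =>
    obtain rfl : j = 0 := by omega
    simpa [sg, chain] using hu
  | succ n ih =>
    rw [Z3_sg]
    by_cases hjn : j ≤ n
    · exact Z3_up (τ (n + 1)) (ih (fun i hi => h i (by omega)) hjn) (h (n + 1) le_rfl)
    · obtain rfl : j = n + 1 := by omega
      exact Z3_pu (τ (n + 1)) (ch_p fun i hi => h i (by omega)) hu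

theorem ch_px (hj : j ≤ n) (h : ∀ i ≤ n, i ≠ j → ∃ σ, (Rs i).P σ) (hx : (Rs j).PX) :
    (chain τ Rs n).PX := by
  rcases hx with hx | hx
  · refine Or.inl (Z3_chK (K := fun _ A => ∃ σ, A.P σ) (w := fun _ => 0) Z3_pK fun i hi => ?_)
    by_cases hij : i = j
    · exact hij ▸ hx
    · exact h i hi hij
  · exact Or.inr (Z3_chxi hj h hx)

theorem ch_xi (hj : j ≤ n) (h : ∀ i ≤ n, i ≠ j → ∃ σ, (Rs i).P σ) (hx : (Rs j).Xi) :
    (chain τ Rs n).Xi := by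
  exact Z3_chxi hj h hx

theorem ch_gd (hj : j ≤ n) (h : ∀ i ≤ n, i ≠ j → ∃ σ, (Rs i).P σ) (hx : (Rs j).Gd) :
    (chain τ Rs n).Gd := by
  obtain ⟨A, B, ⟨σ1, c1, hA⟩, ⟨σ2, c2, hB⟩, hs⟩ :=
    Z3_sand (τ := τ) (K := fun _ A => ∃ σ, A.P σ) (w := fun _ => 0) ⟨1, Z3_idp⟩ Z3_pK hj h
  refine ⟨ch_tt fun i hi => ?_, fun α β => ?_⟩
  · by_cases hij : i = j
    · exact hij ▸ hx.1
    · obtain ⟨σ, hσ⟩ := h i hi hij
      exact hσ.tt
  have k1 : ∀ (σ : ZMod 2) (c α : ZMod 3), ∃ α' : ZMod 3, ∀ u : ZMod 3, ∃ x : ZMod 3,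
      x + chi σ * u = c ∧ (x = α ↔ u = α') := by decide +kernel
  have k2 : ∀ (σ : ZMod 2) (c β : ZMod 3), ∃ β' : ZMod 3, ∀ y : ZMod 3, ∃ z : ZMod 3,
      y + chi σ * z = c ∧ (z = β ↔ y = β') := by decide +kernel
  obtain ⟨α', h1⟩ := k1 σ1 c1 α
  obtain ⟨β', h2⟩ := k2 σ2 c2 β
  obtain ⟨u, y, hr, huy⟩ := hx.2 α' β'
  obtain ⟨x, hx1, hx2⟩ := h1 u
  obtain ⟨z, hz1, hz2⟩ := h2 y
  exact ⟨x, z, hs x u y z (hA _ _ hx1) hr (hB _ _ hz1), by (clear * - huy hx2 hz2; tauto)⟩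

/-- HINT: a chain of total relations containing a `Cs` term is `Cs`. -/
theorem cl_cs (h : ∀ i ≤ n, (Rs i).Tt) (hj : j ≤ n) (hc : (Rs j).Cs) : Cl τ Rs n := by
  obtain ⟨m, B, -, hB, hcl⟩ :=
    Z3_rest (τ := τ) (K := fun _ A => A.Tt) (w := fun _ => 0) Z3_idp.tt (fun _ _ _ _ _ => Z3_tt) hj
      fun i hi _ => h i hi
  obtain ⟨x0, y0, hc⟩ := hc
  obtain ⟨y, hy⟩ := hB.2 x0
  exact hcl x0 y (hc _ _ (Or.inl rfl)) hy

theorem cl_odd (h : ∀ i ≤ n, (Rs i).P (s i)) (ho : ∑ i ∈ range (n + 1), (s i + τ i) = 1) :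
    Cl τ Rs n := by
  obtain ⟨c, hc⟩ := ch_p (τ := τ) h
  have e : sg s τ n + τ 0 = 1 := by
    rw [← ho, sum_add_distrib, sum_range_succ' τ n, sg]
    ring
  have k : ∀ (σ t : ZMod 2) (c : ZMod 3), σ + t = 1 → ∃ y : ZMod 3,
      -(chi t) * y + chi σ * y = c := by decide +kernel
  obtain ⟨y, hy⟩ := k _ _ c e
  exact ⟨_, y, hc _ _ hy, rfl⟩

/-- Two terms of class `U`, all terms except `j` permutations, term `j` total (or `j > n`).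
HINT: track along the chain the state: permutation / `U` / total / total after `U` / everything.
If `j` lies between the two `U` terms use: (row sets of size two) the chain up to the first `U`
term is `U`, after the total term it still has the form: for every `x` at least one `y`, ... ;
one clean way is to prove for arbitrary cut points `i ≤ m` a splitting lemma for `chain`. -/
theorem cl_uu {k l : ℕ} (h : ∀ i ≤ n, (Rs i).Tt) (hp : ∀ i ≤ n, i ≠ j → ∃ σ, (Rs i).P σ)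
    (hk : k ≤ n) (hl : l ≤ n) (hkl : k ≠ l) (hkj : k ≠ j) (hlj : l ≠ j)
    (uk : ∃ σ, (Rs k).U σ) (ul : ∃ σ, (Rs l).U σ) : Cl τ Rs n := by
  have hw : ∀ i ≤ n, i ≠ j → Z3K2 (if i ∈ ({k, l} : Finset ℕ) then 1 else 0) (Rs i) := by
    intro i hi hij
    split_ifs with h1
    · refine Or.inr (Or.inl ⟨le_rfl, ?_⟩)
      rcases mem_insert.1 h1 with rfl | h1
      · exact uk
      · rw [mem_singleton.1 h1]; exact ul
    · exact Or.inr (Or.inr ⟨rfl, hp i hi hij⟩)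
  have hsub : ({k, l} : Finset ℕ) ⊆ range (n + 1) := by
    intro i hi
    rcases mem_insert.1 hi with rfl | h1
    · exact mem_range.2 (by omega)
    · rw [mem_singleton.1 h1]; exact mem_range.2 (by omega)
  have hcard := Z3_card hsub
  rw [card_pair hkl] at hcard
  by_cases hj : j ≤ n
  · obtain ⟨m, B, hm, hB, hcl⟩ := Z3_rest (τ := τ) (K := Z3K2) Z3_idK2 Z3_K2 hj hw
    have hjn : j ∉ ({k, l} : Finset ℕ) := by
      simp only [mem_insert, mem_singleton, not_or]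
      exact ⟨hkj.symm, hlj.symm⟩
    rw [hcard, if_neg hjn] at hm
    obtain ⟨u, y, huy⟩ := (h j hj).nv
    rcases hB with hB | ⟨h1, -⟩ | ⟨h1, -⟩
    · exact hcl u y huy (hB _ _)
    · omega
    · omega
  · have hB := Z3_chK (τ := τ) (K := Z3K2) Z3_K2 fun i hi => hw i hi (by omega)
    rw [hcard] at hB
    rcases hB with hB | ⟨h1, -⟩ | ⟨h1, -⟩
    · exact ⟨_, 0, hB _ _, rfl⟩
    · omega
    · omega

/-- An even positive number of hard terms.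
HINT: a chain of permutations and `m` terms `X0` is a permutation (`m = 0`), or `Cs`, or `Xi`
(`m` odd), or contains `{(x,y) | x = x0 ↔ y = y0}` (`m` even, positive). -/
theorem cl_hard {Hd : Finset ℕ} (hH : Hd ⊆ range (n + 1)) (hne : Hd.Nonempty)
    (hx : ∀ i ∈ Hd, (Rs i).X0) (hp : ∀ i ≤ n, i ∉ Hd → ∃ σ, (Rs i).P σ) (he : Even Hd.card) :
    Cl τ Rs n := by
  have hw : ∀ i ≤ n, Z3Kl (if i ∈ Hd then 1 else 0) (Rs i) := by
    intro i hi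
    split_ifs with h1
    · exact Z3_x0Kl (hx i h1)
    · exact Or.inr (Or.inl ⟨rfl, hp i hi h1⟩)
  have hB := Z3_chK (τ := τ) (K := Z3Kl) Z3_Kl hw
  rw [Z3_card hH] at hB
  have hpos := hne.card_pos
  have hev := Nat.even_iff.1 he
  rcases hB with ⟨x0, y0, hB⟩ | ⟨h1, -⟩ | ⟨h1, -⟩ | ⟨-, -, x0, y0, hB⟩
  · exact ⟨_, y0, hB _ _ (Or.inr rfl), rfl⟩
  · omega
  · omega
  · have k : ∀ (t : ZMod 2) (x0 y0 : ZMod 3), ∃ y : ZMod 3, (-(chi t) * y = x0 ↔ y = y0) := by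
      decide +kernel
    obtain ⟨y, hy⟩ := k (τ 0) x0 y0
    exact ⟨_, y, hB _ _ hy, rfl⟩

/-- An odd number of hard terms and one good term.
HINT: the cyclic rest (terms after `j`, then terms before `j`) is `Xi` or `Cs`. -/
theorem cl_gd {Hd : Finset ℕ} (hH : Hd ⊆ range (n + 1)) (hx : ∀ i ∈ Hd, (Rs i).X0)
    (hj : j ≤ n) (hjH : j ∉ Hd) (hg : (Rs j).Gd)
    (hp : ∀ i ≤ n, i ∉ Hd → i ≠ j → ∃ σ, (Rs i).P σ) (ho : Odd Hd.card) : Cl τ Rs n := by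
  have hw : ∀ i ≤ n, i ≠ j → Z3Kl (if i ∈ Hd then 1 else 0) (Rs i) := by
    intro i hi hij
    split_ifs with h1
    · exact Z3_x0Kl (hx i h1)
    · exact Or.inr (Or.inl ⟨rfl, hp i hi h1 hij⟩)
  obtain ⟨m, B, hm, hB, hcl⟩ := Z3_rest (τ := τ) (K := Z3Kl) Z3_idKl Z3_Kl hj hw
  rw [Z3_card hH, if_neg hjH] at hm
  have hod := Nat.odd_iff.1 ho
  rcases hB with ⟨x0, y0, hB⟩ | ⟨h1, -⟩ | ⟨-, x0, y0, hB⟩ | ⟨-, h1, -⟩
  · obtain ⟨y, hy⟩ := hg.1.1 y0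
    exact hcl y0 y hy (hB _ _ (Or.inr rfl))
  · omega
  · obtain ⟨u, y, h1, h2⟩ := hg.2 y0 x0
    exact hcl u y h1 (hB _ _ (by tauto))
  · omega

/-- Two value systems that differ at term `0` and agree on the rest of the cyclic segment of
term `0` between hard terms: one of them closes.
HINT: even number of hard terms: `cl_hard`.  Odd: the cyclic segment (terms after the last hard
term, then terms before the first hard term) is `PC` with a constant that differs in the two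
systems, so it is nonzero in one of them; such a segment contains a pair `(0, y)`, `y ≠ 0`, and a
pair `(x, 0)`, `x ≠ 0`; the chain from the first to the last hard term contains all pairs
`(0, y)`, `y ≠ 0`, or all pairs `(x, 0)`, `x ≠ 0`. -/
theorem cl_sens {Hd : Finset ℕ} {c c' : ℕ → ZMod 3} (hH : Hd ⊆ range (n + 1)) (hne : Hd.Nonempty)
    (h0 : 0 ∉ Hd) (hx : ∀ i ∈ Hd, (Rs i).X0 ∧ (Rs' i).X0)
    (hp : ∀ i ≤ n, i ∉ Hd → (Rs i).PC (s i) (c i) ∧ (Rs' i).PC (s i) (c' i))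
    (hc : c 0 ≠ c' 0)
    (hs : ∀ i ≤ n, i ≠ 0 → ((∀ k ∈ Hd, i < k) ∨ ∀ k ∈ Hd, k < i) → c i = c' i) :
    Cl τ Rs n ∨ Cl τ Rs' n := by
  have ha := Hd.min'_mem hne
  have hb := Hd.max'_mem hne
  have hlo : ∀ k ∈ Hd, Hd.min' hne ≤ k := fun k hk => Hd.min'_le k hk
  have hhi : ∀ k ∈ Hd, k ≤ Hd.max' hne := fun k hk => Hd.le_max' k hk
  generalize Hd.min' hne = a at ha hlo
  generalize Hd.max' hne = b at hb hhi
  have hab : a ≤ b := hlo b hb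
  have hbn : b ≤ n := by have := mem_range.1 (hH hb); omega
  obtain ⟨a, rfl⟩ : ∃ a', a = a' + 1 := ⟨a - 1, by
    have : a ≠ 0 := fun h => h0 (h ▸ ha)
    omega⟩
  obtain ⟨m, rfl⟩ : ∃ m, n = b + m := ⟨n - b, by omega⟩
  have n1 : ∀ i ≤ a, i ∉ Hd := fun i hi h => by have := hlo i h; omega
  have n2 : ∀ i, b < i → i ∉ Hd := fun i hi h => by have := hhi i h; omega
  obtain ⟨σ1, d, d', hd, p1, p1'⟩ := Z3_diff (τ := τ) (n := a) (s := s) (c := c) (c' := c')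
    (fun i hi => hp i (by omega) (n1 i hi)) hc
    (fun i hi hi0 => hs i (by omega) hi0 (Or.inl fun k hk => by have := hlo k hk; omega))
  obtain ⟨σ2, e, p2, p2'⟩ := Z3_same (τ := τ) (a := b) (m := m) (s := s) (c := c)
    (Rs := Rs) (Rs' := Rs') fun i h1 h2 => by
      have := hp i h2 (n2 i h1)
      rw [← hs i h2 (by omega) (Or.inr fun k hk => by have := hhi k hk; omega)] at this
      exact this
  have k : ∀ (t : ZMod 2) (e d d' : ZMod 3), d ≠ d' → e + chi t * d ≠ 0 ∨ e + chi t * d' ≠ 0 := by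
    decide +kernel
  rcases k (σ2 + τ 0) e d d' hd with h | h
  · refine Or.inl (Z3_close hab (hx _ ha).1 (hx _ hb).1 (fun i h1 h2 => ?_) p1 p2 h)
    by_cases hi : i ∈ Hd
    · exact ⟨1, Z3_x0Kl (hx i hi).1⟩
    · exact ⟨0, Or.inr (Or.inl ⟨rfl, s i, c i, (hp i (by omega) hi).1⟩)⟩
  · refine Or.inr (Z3_close hab (hx _ ha).2 (hx _ hb).2 (fun i h1 h2 => ?_) p1' p2' h)
    by_cases hi : i ∈ Hd
    · exact ⟨1, Z3_x0Kl (hx i hi).2⟩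
    · exact ⟨0, Or.inr (Or.inl ⟨rfl, s i, c' i, (hp i (by omega) hi).2⟩)⟩

end Rl

end Pool.Agent.Work.MP_8c679b_co
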