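import Pool.Agent.Work.MP_8c679b_co.Six.Cut
import Pool.Agent.Work.MP_8c679b_co.Six.GNorm
import Pool.Agent.Work.MP_8c679b_co.Six.Z3
import Pool.Agent.Work.MP_8c679b_co.Top.LRad

-- merged part: Pool.Agent.Work.MP_8c679b_co.Six.SpSet
section
-- merged part: Pool.Agent.Work.MP_8c679b_co.Six.Def6
section
/-!
Which sets can be deficient.
-/

set_option autoImplicit false

namespace Pool.Agent.Work.MP_8c679b_co

open Finset

namespace SG

variable {V E : Type} [Fintype V] [DecidableEq V] [DecidableEq E] {G : SG V E}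
  {T W K : Finset V} {O P : Finset E} {φ : E → ZMod 3} {g h : E → ℤ} {e : E} {x : ℤ}

theorem Def6_dvd (h : Av O φ e x) : φ e = 0 ↔ 3 ∣ x := by
  rw [← h.2.2]
  exact ZMod.intCast_zmod_eq_zero_iff_dvd x 3

theorem Av.ne_zero (h : Av O φ e x) (hφ : e ∉ O → φ e ≠ 0) : x ≠ 0 := by
  rintro rfl
  exact hφ (fun k => by simpa using h.2.1.2 k) ((Def6_dvd h).2 (dvd_zero _))

theorem Av.two_le (h : Av O φ e x) (hφ : e ∉ O → φ e ≠ 0) (h' : e ∉ O ∨ φ e = 0) : 2 ≤ |x| := by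
  have h0 := h.ne_zero hφ
  rw [← h.2.1, Def6_dvd h, Int.odd_iff] at h'
  rcases abs_cases x with k | k <;> omega

theorem Av.three (h : Av O φ e x) (he : e ∈ O) (h0 : φ e = 0) : |x| = 3 := by
  rw [← h.2.1, Int.odd_iff] at he
  rw [Def6_dvd h] at h0
  have := h.1
  rcases abs_cases x with k | k <;> omega

theorem Av.not_three (h : Av O φ e x) (h0 : φ e ≠ 0) : |x| ≠ 3 := by
  rw [Ne, Def6_dvd h] at h0
  rcases abs_cases x with k | k <;> omega

theorem av_exists (he : e ∉ O) (h0 : φ e ≠ 0) {c : ℤ} (hc : c = 2 ∨ c = 4) :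
    ∃ x, Av O φ e x ∧ |x| = c := by
  have h1 : ∀ y : ZMod 3, y ≠ 0 → ((c : ℤ) : ZMod 3) = y ∨ ((-c : ℤ) : ZMod 3) = y := by
    rcases hc with rfl | rfl <;> decide
  have h2 : |c| = c := abs_of_nonneg (by omega)
  rcases h1 _ h0 with k | k
  · exact ⟨c, ⟨by omega, iff_of_false (by rw [Int.odd_iff]; omega) he, k⟩, h2⟩
  · refine ⟨-c, ⟨?_, iff_of_false (by rw [Int.odd_iff]; omega) he, k⟩, ?_⟩ <;> rw [abs_neg] <;>
      omega

theorem Def6_split {R : Type} [CommRing R] (p : V → ZMod 2) (K : Finset V) (f : E → R) :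
    ∑ v ∈ K, chi (p v) * G.bd f v = G.tw p K f + ∑ e ∈ G.ins K, G.kap p K e * f e := by
  rw [sum_bd, tw, cut, crs, ins, sum_filter, sum_filter, ← sum_add_distrib]
  refine sum_congr rfl fun e _ => ?_
  by_cases h1 : G.s e ∈ K <;> by_cases h2 : G.t e ∈ K <;> simp [h1, h2, kap_out]

theorem Def6_even {v : V} {f : E → ℤ} (hOA : O ⊆ G.A) (hO : G.dg O v = 0)
    (hf : ∀ e ∈ G.A, G.At e v → (Odd (f e) ↔ e ∈ O)) : 2 ∣ G.bd f v := by
  have h1 : ((G.deg O v : ℕ) : ℤ) = ∑ e ∈ G.A, if e ∈ O then (G.inc e v : ℤ) else 0 := by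
    rw [sum_ite_mem, inter_eq_right.2 hOA, deg, Nat.cast_sum]
  have h2 : (2 : ℤ) ∣ G.deg O v := by exact_mod_cast (dg_eq_zero.1 hO).two_dvd
  have h3 : 2 ∣ G.bd f v - G.deg O v := by
    rw [h1, bd, ← sum_sub_distrib]
    refine dvd_sum fun e he => ?_
    have := hf e he
    rw [Int.odd_iff, At] at this
    by_cases k1 : G.s e = v <;> by_cases k2 : G.t e = v <;> by_cases k3 : e ∈ O <;>
      rcases z2 (G.n e) with k | k <;> simp [inc, iv, k, k1, k2, k3] at this ⊢ <;> omega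
  omega

theorem Def6_par (S : Finset E) {f : E → ℤ} (hf : ∀ e ∈ S, (Odd (f e) ↔ e ∈ O)) :
    (4 : ℤ) ∣ ∑ e ∈ S, (1 - chi (G.n e)) * f e - 2 * ((G.par (O ∩ S)).val : ℤ) := by
  have h1 : (G.par (O ∩ S)).val = (∑ e ∈ O ∩ S, (G.n e).val) % 2 := by
    rw [← ZMod.val_natCast, Nat.cast_sum, par]
    simp only [ZMod.natCast_zmod_val]
  have h2 : (4 : ℤ) ∣ ∑ e ∈ S, (1 - chi (G.n e)) * f e - 2 * (∑ e ∈ O ∩ S, (G.n e).val : ℕ) := by
    rw [Nat.cast_sum, inter_comm, ← sum_ite_mem, mul_sum, ← sum_sub_distrib]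
    refine dvd_sum fun e he => ?_
    have := hf e he
    rw [Int.odd_iff] at this
    by_cases k3 : e ∈ O <;> rcases z2 (G.n e) with k | k <;>
      simp [k, k3, ZMod.val_one] at this ⊢ <;> omega
  omega

theorem Def6_ins {R : Type} [CommRing R] (f : E → R) :
    ∑ e ∈ G.ins K, G.kap (fun _ => 0) K e * f e = ∑ e ∈ G.ins K, (1 - chi (G.n e)) * f e :=
  sum_congr rfl fun e he => by simp [kap, iv, (mem_ins.1 he).2]

/-- The switched boundary sum of an assignment with the right parities, modulo four.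
HINT: `sum_bd` for `p` and for `0`; every `bd f v` is even, so `chi (p v) * bd f v ≡ bd f v`. -/
theorem tw_mod4 (hOA : O ⊆ G.A) (hO : ∀ v ∈ K, G.dg O v = 0) (p : V → ZMod 2) (f : E → ℤ)
    (hf : ∀ e ∈ G.tch K, (Odd (f e) ↔ e ∈ O)) :
    (4 : ℤ) ∣ G.tw p K f + ∑ e ∈ G.ins K, G.kap p K e * f e -
      (∑ e ∈ G.cut K, G.out K f e + 2 * ((G.par (O ∩ G.ins K)).val : ℤ)) := by
  have h1 := Def6_split (G := G) (fun _ => 0) K f
  have h2 := Def6_par (G := G) (G.ins K) fun e he => hf e (ins_sub_tch he)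
  have h3 : (4 : ℤ) ∣ ∑ v ∈ K, chi (p v) * G.bd f v - ∑ v ∈ K, chi 0 * G.bd f v := by
    rw [← sum_sub_distrib]
    refine dvd_sum fun v hv => ?_
    have := Def6_even hOA (hO v hv) fun e he k => hf e (sol1_at_tch he hv k)
    rcases z2 (p v) with k | k <;> simp only [k, chi_zero, chi_one] <;> omega
  rw [Def6_ins] at h1
  rw [Def6_split, h1] at h3
  change _ ∣ _ - (G.tw (fun _ => 0) K f + _)
  omega

theorem Df.even (hOA : O ⊆ G.A) (hO : ∀ v ∈ K, G.dg O v = 0) (hd : G.Df O φ K g) :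
    Even (∑ e ∈ G.cut K, |g e|) := by
  have h1 : (2 : ℤ) ∣ (G.crs O K).card := by
    rw [← Nat.cast_two, Int.natCast_dvd_natCast, ← even_iff_two_dvd,
      ← ZMod.natCast_eq_zero_iff_even, ← sum_dg]
    exact sum_eq_zero hO
  have h2 : G.crs O K = G.cut K ∩ O := by
    ext e
    rw [mem_inter, mem_crs, mem_cut]
    exact ⟨fun k => ⟨⟨hOA k.1, k.2⟩, k.1⟩, fun k => ⟨k.2, k.1.2⟩⟩
  have h3 : (2 : ℤ) ∣ ∑ e ∈ G.cut K, |g e| - (G.crs O K).card := by
    rw [h2, cast_card, ← sum_ite_mem, ← sum_sub_distrib]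
    refine dvd_sum fun e he => ?_
    have := (hd.1 e he).2.1
    rw [Int.odd_iff] at this
    split_ifs with k <;> simp only [k, iff_true, iff_false] at this <;>
      rcases abs_cases (g e) with k | k <;> omega
  rw [even_iff_two_dvd]
  omega

theorem Df.card_le (hφ : ∀ e ∈ G.cut K, e ∉ O → φ e ≠ 0) (hd : G.Df O φ K g) :
    ((G.cut K).card : ℤ) ≤ ∑ e ∈ G.cut K, |g e| := by
  rw [cast_card]
  exact sum_le_sum fun e he => Int.one_le_abs ((hd.1 e he).ne_zero (hφ e he))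

theorem Def6_kap (p : V → ZMod 2) (h : e ∈ G.cut K) :
    (G.kap p K e : ℤ) = 1 ∨ (G.kap p K e : ℤ) = -1 := by
  have := (mem_cut.1 h).2
  by_cases h1 : G.s e ∈ K <;> by_cases h2 : G.t e ∈ K <;> simp [h1, h2] at this <;>
    simp only [kap, iv, chi, h1, h2, if_true, if_false] <;> split_ifs <;> simp

theorem Def6_cast (p : V → ZMod 2) : ((G.kap p K e : ℤ) : ZMod 3) = G.kap p K e := by
  simp only [kap, iv, chi, Int.cast_sub, Int.cast_mul, Int.cast_ite, Int.cast_one, Int.cast_zero,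
    Int.cast_neg]

/-- balanced sets are never deficient -/
theorem Df.bal (hOA : O ⊆ G.A) (hO : ∀ v ∈ K, G.dg O v = 0) (hφ : ∀ v ∈ K, G.bd φ v = 0)
    (hB : G.Bal (G.ins K)) (hd : G.Df O φ K g) : 6 ≤ ∑ e ∈ G.cut K, |g e| := by
  obtain ⟨p, hp⟩ := hB
  have h0 : ∀ {R : Type} [CommRing R] (f : E → R), ∑ e ∈ G.ins K, G.kap p K e * f e = 0 :=
    fun f => sum_eq_zero fun e he => by rw [red_kap_zero hp he, zero_mul]
  have h1 := tw_mod4 hOA hO p (fun e => if e ∈ G.cut K then g e else if e ∈ O then 1 else 0)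
    fun e _ => by
      split_ifs with k k'
      exacts [(hd.1 e k).2.1, iff_of_true odd_one k', iff_of_false (by decide) k']
  have h7 : ∀ q : V → ZMod 2, ∑ e ∈ G.cut K,
      G.kap q K e * (if e ∈ G.cut K then g e else if e ∈ O then 1 else 0) =
      ∑ e ∈ G.cut K, G.kap q K e * g e := fun q => sum_congr rfl fun e he => by rw [if_pos he]
  simp only [out] at h1
  rw [h0, tw, h7, h7] at h1
  have h2 : (3 : ℤ) ∣ ∑ e ∈ G.cut K, G.kap p K e * g e := by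
    refine (ZMod.intCast_zmod_eq_zero_iff_dvd _ 3).1 ?_
    have := Def6_split (G := G) p K φ
    rw [h0, add_zero, sum_eq_zero fun v hv => by rw [hφ v hv, mul_zero]] at this
    rw [this, Int.cast_sum]
    refine sum_congr rfl fun e he => ?_
    rw [Int.cast_mul, (hd.1 e he).2.2, Def6_cast]
  have h3 : (2 : ℤ) ∣ ∑ e ∈ G.cut K, |g e| - ∑ e ∈ G.cut K, G.kap p K e * g e := by
    rw [← sum_sub_distrib]
    refine dvd_sum fun e he => ?_
    rcases Def6_kap p he with k | k <;> rw [k] <;> rcases abs_cases (g e) with k | k <;> omega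
  have h4 : |∑ e ∈ G.cut K, G.kap p K e * g e| ≤ ∑ e ∈ G.cut K, |g e| :=
    (abs_sum_le_sum_abs _ _).trans_eq (sum_congr rfl fun e he => by
      rcases Def6_kap p he with k | k <;> simp [k])
  have h5 := hd.2
  simp only [out] at h5
  have h6 := (hd.even hOA hO).two_dvd
  rw [abs_le] at h4
  omega

theorem Df.four (hOA : O ⊆ G.A) (hO : ∀ v ∈ K, G.dg O v = 0)
    (hφ : ∀ e ∈ G.cut K, e ∉ O → φ e ≠ 0) (h3 : 3 ≤ (G.cut K).card) (hd : G.Df O φ K g) :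
    4 ≤ ∑ e ∈ G.cut K, |g e| := by
  have h1 := (hd.even hOA hO).two_dvd
  have h2 := hd.card_le hφ
  omega

theorem Df.five (hOA : O ⊆ G.A) (hO : ∀ v ∈ K, G.dg O v = 0)
    (hφ : ∀ e ∈ G.cut K, e ∉ O → φ e ≠ 0) (h5 : 5 ≤ (G.cut K).card) (hd : G.Df O φ K g) :
    6 ≤ ∑ e ∈ G.cut K, |g e| := by
  have h1 := (hd.even hOA hO).two_dvd
  have h2 := hd.card_le hφ
  omega

/-- a side with an edge off `O` or of residue zero is not deficient -/
theorem Df.hit (hOA : O ⊆ G.A) (hO : ∀ v ∈ K, G.dg O v = 0)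
    (hφ : ∀ e ∈ G.cut K, e ∉ O → φ e ≠ 0) (h4 : 4 ≤ (G.cut K).card)
    (hit : ∃ e ∈ G.cut K, e ∉ O ∨ φ e = 0) (hd : G.Df O φ K g) : 6 ≤ ∑ e ∈ G.cut K, |g e| := by
  have h1 := (hd.even hOA hO).two_dvd
  have h2 : ((G.cut K).card : ℤ) < ∑ e ∈ G.cut K, |g e| := by
    obtain ⟨e, he, k⟩ := hit
    rw [cast_card]
    exact sum_lt_sum (fun e he => Int.one_le_abs ((hd.1 e he).ne_zero (hφ e he)))
      ⟨e, he, (hd.1 e he).two_le (hφ e he) k⟩
  omega

/-- for an even set with even parity a set is deficient iff its complement is -/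
theorem Df.cobal (hOA : O ⊆ G.A) (hE : G.Ev O) (hp : G.par O = 0) (hφ : ∀ v, G.bd φ v = 0)
    (hB : G.Bal (G.ins (G.vs G.A \ K))) (hd : G.Df O φ K g) : 6 ≤ ∑ e ∈ G.cut K, |g e| := by
  have h1 : G.cut (G.vs G.A \ K) = G.cut K := by
    ext e
    simp only [mem_cut, mem_sdiff]
    refine and_congr_right fun he => ?_
    simp only [s_mem_vs he, t_mem_vs he, true_and, not_iff_not]
  rw [← h1]
  refine Df.bal hOA (fun v _ => hE v) (fun v _ => hφ v) hB ⟨h1 ▸ hd.1, fun k => hd.2 ?_⟩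
  have h2 := Def6_par (G := G) (G.cut K) fun e he => (hd.1 e he).2.1
  have h3 : ∑ e ∈ G.cut K, (1 - chi (G.n e)) * g e =
      ∑ e ∈ G.cut K, G.out K g e + ∑ e ∈ G.cut K, G.out (G.vs G.A \ K) g e := by
    rw [← sum_add_distrib]
    refine sum_congr rfl fun e he => ?_
    have k1 := s_mem_vs (G := G) (mem_cut.1 he).1
    have k2 := t_mem_vs (G := G) (mem_cut.1 he).1
    by_cases k3 : G.s e ∈ K <;> by_cases k4 : G.t e ∈ K <;>
      simp [out, kap, iv, k1, k2, k3, k4] <;> ring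
  have h4 : G.par (O ∩ G.ins K) + G.par (O ∩ G.ins (G.vs G.A \ K)) + G.par (O ∩ G.cut K) = 0 := by
    rw [← hp]
    simp only [par, ← sum_ite_mem, ← sum_add_distrib]
    refine sum_congr rfl fun e he => ?_
    have k1 := s_mem_vs (G := G) (hOA he)
    have k2 := t_mem_vs (G := G) (hOA he)
    by_cases k3 : G.s e ∈ K <;> by_cases k4 : G.t e ∈ K <;>
      simp [mem_ins, mem_cut, hOA he, k1, k2, k3, k4]
  have h5 : ∀ a b c : ZMod 2, a + b + c = 0 → (2 : ℤ) ∣ a.val + b.val + c.val := by decide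
  have h6 := h5 _ _ _ h4
  rw [h1] at k
  omega

/-- under `HT` only unhit unbalanced sides are deficient -/
theorem HT.df (hc : G.Cub) (hT : G.HT T) (hK : K ⊂ T) (hn : K.Nonempty) (hOA : O ⊆ G.A)
    (hO : ∀ v ∈ K, G.dg O v = 0) (hφ : G.Sl K O ∅ φ)
    (hit : G.US K → (∃ e ∈ G.cut K, e ∉ O ∨ φ e = 0) ∨ 6 ≤ ∑ e ∈ G.cut K, |g e|)
    (hd : G.Df O φ K g) : 6 ≤ ∑ e ∈ G.cut K, |g e| := by
  by_cases hB : G.Bal (G.ins K)
  · exact hd.bal hOA hO hφ.1 hB
  have h1 := fun e he => hφ.2.1 e (cut_sub_tch he)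
  obtain ⟨h2, h3⟩ := hT K hK.1 hn
  have h4 : (G.cut K).card ≠ 3 := fun k => by
    obtain ⟨v, rfl⟩ := card_eq_one.1 ((h3 k).resolve_right hK.ne)
    exact hB ((hT.vtx hc (hK.1 (mem_singleton_self v))).2.1 ▸ ⟨0, fun e he => by simp at he⟩)
  by_cases h5 : (G.cut K).card = 4
  · exact (hit ⟨h5, hB⟩).elim (fun k => hd.hit hOA hO h1 h5.ge k) id
  · exact hd.five hOA hO h1 (by omega)

/-- the inequality required by `lift6` follows from the plain one -/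
theorem sum_split_max (K : Finset V) (P : Finset E) (g : E → ℤ) (wp : E → ℕ) :
    ∑ e ∈ G.cut K, |g e| ≤
      ∑ e ∈ G.cut K \ P, |g e| + ∑ e ∈ G.cut K ∩ P, max |g e| (wp e : ℤ) := by
  rw [← sum_inter_add_sum_sdiff _ P, add_comm]
  exact add_le_add_right (sum_le_sum fun e _ => le_max_left _ _) _

theorem Def6_glue {X : Finset V} {f : E → ℤ} (hf : ∀ e ∈ G.cut X, f e = h e) (v : V) :
    G.bd (fun e => if e ∈ G.ins X then f e else h e) v =
      if v ∈ X then G.bd f v else G.bd h v := by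
  split_ifs with hv
  · refine bd_congr fun e he k => ?_
    split_ifs with k'
    · rfl
    · exact (hf e ((mem_tch_iff.1 (sol1_at_tch he hv k)).resolve_left k')).symm
  · refine bd_congr fun e _ k => if_neg fun k' => hv ?_
    rcases k with rfl | rfl
    exacts [(mem_ins.1 k').2.1, (mem_ins.1 k').2.2]

/-- gluing a flow outside `X` with an extension into `X` -/
theorem Out.glue {X : Finset V} (h1 : G.Out X h) (h2 : G.Ext X h) :
    ∃ f, G.Fl6 f ∧ ∀ e, e ∉ G.ins X → f e = h e := by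
  obtain ⟨f, k1, k2, k3⟩ := h2
  refine ⟨fun e => if e ∈ G.ins X then f e else h e, ⟨fun v => ?_, fun e he => ?_⟩,
    fun e he => if_neg he⟩
  · rw [Def6_glue k1]
    split_ifs with hv
    exacts [k2 v hv, h1.1 v hv]
  · dsimp only
    split_ifs with k
    exacts [k3 e k, h1.2 e he k]

theorem Ext.congr {X : Finset V} (h1 : G.Ext X h) (h2 : ∀ e ∈ G.cut X, g e = h e) :
    G.Ext X g := by
  obtain ⟨f, k1, k2⟩ := h1
  exact ⟨f, fun e he => (k1 e he).trans (h2 e he).symm, k2⟩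

theorem Ext.neg {X : Finset V} (h1 : G.Ext X h) : G.Ext X fun e => -h e := by
  obtain ⟨f, k1, k2, k3⟩ := h1
  refine ⟨fun e => -1 * f e, fun e he => by simp only [k1 e he, neg_one_mul],
    fun v hv => by rw [bd_mul, k2 v hv, mul_zero], fun e he => ?_⟩
  simpa using k3 e he

/-- extension into `X` through a flow on `X \ Y` and an extension into `Y` -/
theorem Ext.trans {X Y : Finset V} (hY : Y ⊆ X) {f : E → ℤ} (h1 : ∀ e ∈ G.cut X, f e = h e)
    (h2 : ∀ v ∈ X \ Y, G.bd f v = 0) (h3 : ∀ e ∈ G.ins X, e ∉ G.ins Y → f e ≠ 0 ∧ |f e| ≤ 5)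
    (h4 : G.Ext Y f) : G.Ext X h := by
  obtain ⟨f', k1, k2, k3⟩ := h4
  refine ⟨fun e => if e ∈ G.ins Y then f' e else f e,
    fun e he => (if_neg fun k => not_ins_of_cut he (ins_mono hY k)).trans (h1 e he),
    fun v hv => ?_, fun e he => ?_⟩
  · rw [Def6_glue k1]
    split_ifs with k
    exacts [k2 v k, h2 v (mem_sdiff.2 ⟨hv, k⟩)]
  · dsimp only
    split_ifs with k
    exacts [k3 e k, h3 e he k]

theorem Def6_je {u v : V} (h : G.Je e u v) : G.At e u ∧ G.At e v :=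
  h.elim (fun k => ⟨.inl k.1, .inr k.2⟩) fun k => ⟨.inr k.2, .inl k.1⟩

theorem Def6_ev {u v : V} {e1 e2 : E} (h1 : G.Je e1 u v) (h2 : G.Je e2 u v) (h : e1 ≠ e2) :
    G.Ev {e1, e2} :=
  insert_eq e1 {e2} ▸ od_self.1 ((od_edge h1).union (od_edge h2).symm (disjoint_singleton.2 h))

theorem Def6_str (hc : G.Cub) {u v : V} {e1 e2 : E} (huv : u ≠ v) (a1 : e1 ∈ G.A) (a2 : e2 ∈ G.A)
    (h1 : G.Je e1 u v) (h2 : G.Je e2 u v) (h : e1 ≠ e2) (h3 : (G.cut {u, v}).card = 2) :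
    G.ins {u, v} = {e1, e2} ∧
      ∃ a b, G.cut {u, v} = {a, b} ∧ a ≠ b ∧ G.ie {u, v} a = u ∧ G.ie {u, v} b = v := by
  have hA : {e1, e2} ⊆ G.A := insert_subset a1 (singleton_subset_iff.2 a2)
  have hv : ∀ x ∈ ({u, v} : Finset V), x ∈ G.vs {e1, e2} := fun x hx => by
    refine mem_vs.2 ⟨e1, mem_insert_self _ _, ?_⟩
    rcases mem_insert.1 hx with rfl | hx
    exacts [(Def6_je h1).1, mem_singleton.1 hx ▸ (Def6_je h1).2]
  have h4 := deg_sum hc fun x hx => vs_mono hA (hv x hx)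
  rw [card_pair huv] at h4
  have h5 : G.ins {u, v} = {e1, e2} := by
    refine (eq_of_subset_of_card_le (fun e he => ?_) (by rw [card_pair h]; omega)).symm
    have : G.Je e u v := by
      rcases mem_insert.1 he with rfl | k
      exacts [h1, mem_singleton.1 k ▸ h2]
    rcases this with k | k <;> simp [mem_ins, hA he, k.1, k.2]
  have h6 : ∀ x ∈ ({u, v} : Finset V), ∃ a ∈ G.cut {u, v}, G.ie {u, v} a = x := fun x hx => by
    obtain ⟨a, k1, k2, k3⟩ := third_exists hc hA (hv x hx) (Def6_ev h1 h2 h x)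
    have k4 := (mem_tch_iff.1 (sol1_at_tch k1 hx k3)).resolve_left (h5 ▸ k2)
    exact ⟨a, k4, (eq_ie k4 hx k3).symm⟩
  obtain ⟨a, ha, ka⟩ := h6 u (by simp)
  obtain ⟨b, hb, kb⟩ := h6 v (by simp)
  have hab : a ≠ b := fun k => huv (by rw [← ka, k, kb])
  exact ⟨h5, a, b, (eq_of_subset_of_card_le (insert_subset ha (singleton_subset_iff.2 hb))
    (by rw [card_pair hab, h3])).symm, hab, ka, kb⟩

/-- the structure of a digon -/
theorem Dg.str (hc : G.Cub) {N : Finset V} (hN : G.Dg N) :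
    ∃ u v e1 e2 a b, u ≠ v ∧ N = {u, v} ∧ G.ins N = {e1, e2} ∧ G.Je e1 u v ∧ G.Je e2 u v ∧
      G.n e1 = 0 ∧ G.n e2 = 1 ∧ G.cut N = {a, b} ∧ a ≠ b ∧ G.ie N a = u ∧ G.ie N b = v := by
  obtain ⟨u, v, e1, e2, huv, rfl, a1, a2, h1, h2, hn, h3⟩ := hN
  obtain ⟨h4, a, b, h5⟩ := Def6_str hc huv a1 a2 h1 h2 (fun k => hn (k ▸ rfl)) h3
  rcases z2 (G.n e1) with k | k <;> rcases z2 (G.n e2) with k' | k'
  · exact absurd (k.trans k'.symm) hn
  · exact ⟨u, v, e1, e2, a, b, huv, rfl, h4, h1, h2, k, k', h5⟩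
  · exact ⟨u, v, e2, e1, a, b, huv, rfl, h4.trans (pair_comm _ _), h2, h1, k', k, h5⟩
  · exact absurd (k.trans k'.symm) hn

theorem Lv.str (hc : G.Cub) {l : V} (hl : G.Lv l) :
    ∃ m a, G.ins {l} = {m} ∧ G.cut {l} = {a} := by
  obtain ⟨m, h1, h2, h3⟩ := hl
  have h4 := deg_sum hc (X := {l}) (singleton_subset_iff.2 (h2 ▸ s_mem_vs h1))
  have h5 := card_pos.2 ⟨m, (mem_ins (G := G) (W := {l})).2 ⟨h1, by simp [h2], by simp [h3]⟩⟩
  rw [card_singleton] at h4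
  obtain ⟨m', k⟩ := card_eq_one.1 (by omega : (G.ins {l}).card = 1)
  obtain ⟨a, k'⟩ := card_eq_one.1 (by omega : (G.cut {l}).card = 1)
  exact ⟨m', a, k, k'⟩

theorem Def6_bd {X : Finset V} {v : V} (hv : v ∈ X) (f : E → ℤ) : G.bd f v =
    ∑ e ∈ G.ins X, (iv (G.s e = v) - iv (G.t e = v) * chi (G.n e)) * f e +
      ∑ e ∈ G.cut X, iv (G.ie X e = v) * G.out X f e := by
  rw [bd, cut, crs, ins, sum_filter, sum_filter, ← sum_add_distrib]
  refine sum_congr rfl fun e _ => ?_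
  have k1 : G.s e ∉ X → G.s e ≠ v := fun k k' => k (k' ▸ hv)
  have k2 : G.t e ∉ X → G.t e ≠ v := fun k k' => k (k' ▸ hv)
  by_cases h1 : G.s e ∈ X <;> by_cases h2 : G.t e ∈ X <;>
    simp [h1, h2, k1, k2, iv, out, kap, ie]

theorem Def6_out (h : E → ℤ) (he : e ∈ G.cut K) : G.out K h e = h e ∨ G.out K h e = -h e := by
  rcases Def6_kap (fun _ => 0) he with k | k <;> simp [out, k]

/-- a digon accepts two values of equal parity and different size -/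
theorem Dg.ext (hc : G.Cub) {N : Finset V} {a b : E} (hN : G.Dg N) (hab : G.cut N = {a, b})
    (hB : G.Bv N h) (he : Even (h a + h b)) (hne : |h a| ≠ |h b|) : G.Ext N h := by
  obtain ⟨u, v, e1, e2, c, d, huv, rfl, h1, j1, j2, n1, n2, h2, hcd, ic, id⟩ := hN.str hc
  have h12 : e1 ≠ e2 := fun k => by rw [k, n2] at n1; exact one_ne_zero n1
  have mc : c ∈ G.cut {u, v} := h2 ▸ mem_insert_self _ _
  have md : d ∈ G.cut {u, v} := h2 ▸ by simp
  have k : 2 ∣ h c + h d ∧ |h c| ≠ |h d| := by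
    have ka : a ∈ ({c, d} : Finset E) := h2 ▸ hab ▸ mem_insert_self _ _
    have kb : b ∈ ({c, d} : Finset E) := h2 ▸ hab ▸ by simp
    rw [mem_insert, mem_singleton] at ka kb
    rcases ka with rfl | rfl <;> rcases kb with rfl | rfl
    exacts [absurd rfl hne, ⟨he.two_dvd, hne⟩, ⟨add_comm (h a) _ ▸ he.two_dvd, hne.symm⟩,
      absurd rfl hne]
  obtain ⟨x, y, k1, k2, kx, ky⟩ : ∃ x y : ℤ, x + y + G.out {u, v} h c = 0 ∧
      -x + y + G.out {u, v} h d = 0 ∧ (x ≠ 0 ∧ |x| ≤ 5) ∧ y ≠ 0 ∧ |y| ≤ 5 := by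
    have b1 := (hB c mc).2
    have b2 := (hB d md).2
    rw [Ne, abs_eq_abs] at k
    rw [abs_le] at b1 b2
    refine ⟨(G.out {u, v} h d - G.out {u, v} h c) / 2,
      -(G.out {u, v} h d + G.out {u, v} h c) / 2, ?_⟩
    simp only [abs_le]
    rcases Def6_out h mc with l | l <;> rcases Def6_out h md with l' | l' <;> omega
  have hf : ∀ z : ℤ, ∀ e ∈ G.cut {u, v},
      (if e = e1 then z else if e = e2 then y else h e) = h e := fun z e he => by
    have := not_ins_of_cut he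
    rw [h1, mem_insert, mem_singleton, not_or] at this
    rw [if_neg this.1, if_neg this.2]
  refine ⟨fun e => if e = e1 then (if G.s e1 = u then x else -x) else if e = e2 then y else h e,
    hf _, fun w hw => ?_, fun e he => ?_⟩
  · rw [Def6_bd hw, h1, h2, sum_pair h12, sum_pair hcd, out, out, hf _ c mc, hf _ d md, ← out,
      ← out, ic, id, n1, n2, if_pos rfl, if_neg h12.symm, if_pos rfl]
    rw [mem_insert, mem_singleton] at hw
    rcases hw with rfl | rfl <;> rcases j1 with j1 | j1 <;> rcases j2 with j2 | j2 <;>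
      simp [iv, j1.1, j1.2, j2.1, j2.2, huv, huv.symm] <;> omega
  · rw [h1, mem_insert, mem_singleton] at he
    rcases he with rfl | rfl
    · simp only [if_true]
      split_ifs
      exacts [kx, by simpa using kx]
    · simpa [h12.symm] using ky

/-- a negative loop accepts every even value -/
theorem Lv.ext (hc : G.Cub) (hA : G.Adm1) {l : V} (hl : G.Lv l) (hB : G.Bv {l} h)
    (he : ∀ e ∈ G.cut {l}, Even (h e)) : G.Ext {l} h := by
  obtain ⟨m, a, h1, h2⟩ := hl.str hc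
  have ma : a ∈ G.cut {l} := h2 ▸ mem_singleton_self a
  have mm := mem_ins.1 (h1 ▸ mem_singleton_self m : m ∈ G.ins {l})
  have hn : G.n m = 1 := (z2_ne _).1 fun k => hA {l} (by rw [h2, card_singleton])
    ⟨0, fun e he => by rw [mem_singleton.1 (h1 ▸ he : e ∈ ({m} : Finset E))]; simp [sw, k]⟩
  have hf : ∀ z : ℤ, ∀ e ∈ G.cut {l}, (if e = m then z else h e) = h e := fun z e he =>
    if_neg fun k => not_ins_of_cut he (h1 ▸ mem_singleton.2 k)
  have k1 := (he a ma).two_dvd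
  obtain ⟨k2, k3⟩ := hB a ma
  obtain ⟨x, k4, k5⟩ : ∃ x : ℤ, 2 * x + G.out {l} h a = 0 ∧ x ≠ 0 ∧ |x| ≤ 5 := by
    refine ⟨-G.out {l} h a / 2, ?_⟩
    rw [abs_le] at k3 ⊢
    rcases Def6_out h ma with k | k <;> omega
  refine ⟨fun e => if e = m then x else h e, hf _, fun w hw => ?_, fun e he => ?_⟩
  · rw [Def6_bd hw, h1, h2, sum_singleton, sum_singleton, out, hf _ a ma, ← out, if_pos rfl, hn,
      mem_singleton.1 hw, mem_singleton.1 mm.2.1, mem_singleton.1 mm.2.2,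
      mem_singleton.1 (ie_mem (cut_sub_tch ma))]
    simp only [iv, if_true, chi_one]
    omega
  · dsimp only
    rwa [if_pos (mem_singleton.1 (h1 ▸ he))]

/-- a bridge carries an even value -/
theorem even_of_cut {X : Finset V} {f : E → ℤ} (hX : G.cut X = {e}) (hf : ∀ v ∈ X, G.bd f v = 0) :
    Even (f e) := by
  have h1 := Def6_split (G := G) (fun _ => 0) X f
  rw [sum_eq_zero fun v hv => by rw [hf v hv, mul_zero], tw, hX, sum_singleton, Def6_ins] at h1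
  have h2 : (2 : ℤ) ∣ ∑ e ∈ G.ins X, (1 - chi (G.n e)) * f e := dvd_sum fun e _ => by
    rcases z2 (G.n e) with k | k <;> simp only [k, chi_zero, chi_one] <;> omega
  rw [even_iff_two_dvd]
  rcases Def6_kap (fun _ => 0) (hX ▸ mem_singleton_self e : e ∈ G.cut X) with k | k <;>
    rw [k] at h1 <;> omega

theorem Def6_lv (hc : G.Cub) {N : Finset V} {l : V} (hl : G.Lv l) (hN : G.Dg N) : l ∉ N := by
  obtain ⟨u, v, e1, e2, c, d, huv, -, h1, j1, j2, -⟩ := hN.str hc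
  obtain ⟨m, k1, k2, k3⟩ := hl
  intro k
  have h2 : m ∈ G.ins N := mem_ins.2 ⟨k1, k2 ▸ k, k3 ▸ k⟩
  rw [h1, mem_insert, mem_singleton] at h2
  have h3 : G.Je m u v := by rcases h2 with rfl | rfl <;> assumption
  rcases h3 with j | j
  exacts [huv (by rw [← j.1, ← j.2, k2, k3]), huv (by rw [← j.1, ← j.2, k2, k3])]

/-- different ports are disjoint -/
theorem Po.disj (hc : G.Cub) {N N' : Finset V} (h : G.Po N) (h' : G.Po N') (hne : N ≠ N') :
    Disjoint N N' := by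
  rcases h with ⟨l, h, rfl⟩ | h <;> rcases h' with ⟨l', h', rfl⟩ | h'
  · exact disjoint_singleton.2 fun k => hne (k ▸ rfl)
  · exact disjoint_singleton_left.2 (Def6_lv hc h h')
  · exact disjoint_singleton_right.2 (Def6_lv hc h' h)
  obtain ⟨u, v, e1, e2, -, -, huv, rfl, h1, j1, j2, n1, n2, -⟩ := h.str hc
  obtain ⟨u', v', e1', e2', huv', rfl, a1, a2, j1', j2', hn, -⟩ := h'
  have h12 : e1 ≠ e2 := fun k => by rw [k, n2] at n1; exact one_ne_zero n1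
  have hat : ∀ {e a b x}, G.Je e a b → x ∈ ({a, b} : Finset V) → G.At e x := fun j hx => by
    rcases mem_insert.1 hx with rfl | hx
    exacts [(Def6_je j).1, mem_singleton.1 hx ▸ (Def6_je j).2]
  have h2 : ∀ e, G.Je e u' v' → e ∉ ({e1, e2} : Finset E) := fun e j k => by
    have k := (mem_ins.1 (h1 ▸ k : e ∈ G.ins {u, v})).2
    refine hne (eq_of_subset_of_card_le ?_ (by rw [card_pair huv, card_pair huv'])).symm
    rcases j with j | j <;> rw [j.1, j.2] at k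
    exacts [insert_subset k.1 (singleton_subset_iff.2 k.2),
      insert_subset k.2 (singleton_subset_iff.2 k.1)]
  refine disjoint_left.2 fun x hx hx' => hn (congrArg G.n ?_)
  exact third_unique hc (h1 ▸ ins_sub_A) (mem_vs.2 ⟨e1, mem_insert_self _ _, hat j1 hx⟩)
    (Def6_ev j1 j2 h12 x) a2 a1 (h2 _ j2') (h2 _ j1') (hat j2' hx') (hat j1' hx')

theorem Po.unbal (hc : G.Cub) (hA : G.Adm1) {N : Finset V} (h : G.Po N) : ¬ G.Bal (G.ins N) := by
  rcases h with ⟨l, h, rfl⟩ | h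
  · obtain ⟨m, a, -, k⟩ := h.str hc
    exact hA _ (by rw [k, card_singleton])
  obtain ⟨u, v, e1, e2, -, -, -, -, h1, j1, j2, n1, n2, -⟩ := h.str hc
  have h12 : e1 ≠ e2 := fun k => by rw [k, n2] at n1; exact one_ne_zero n1
  intro k
  have := k.par_zero h1.ge (Def6_ev j1 j2 h12)
  rw [par, sum_pair h12, n1, n2, zero_add] at this
  exact one_ne_zero this

theorem pt_iff {v : V} : G.Pt v ↔ ∃ N, G.Po N ∧ v ∈ N := by
  refine ⟨?_, ?_⟩
  · rintro (h | ⟨N, h, hv⟩)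
    exacts [⟨{v}, .inl ⟨v, h, rfl⟩, mem_singleton_self v⟩, ⟨N, .inr h, hv⟩]
  · rintro ⟨N, ⟨l, h, rfl⟩ | h, hv⟩
    exacts [.inl (mem_singleton.1 hv ▸ h), .inr ⟨N, h, hv⟩]

end SG

end Pool.Agent.Work.MP_8c679b_co
end

-- merged part: Pool.Agent.Work.MP_8c679b_co.Six.SpSet
section
/-!
The set-up of the process with ports.
-/

set_option autoImplicit false

namespace Pool.Agent.Work.MP_8c679b_co

open Finset

namespace SG

variable {V E : Type} [Fintype V] [DecidableEq V] [DecidableEq E] {G : SG V E}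
  {T Y D0 : Finset V} {Φ Hh : Finset (Finset V)}

variable (G) in
/-- the data of the set-up -/
structure Su (T Y D0 : Finset V) (Φ Hh : Finset (Finset V)) : Prop where
  ht : G.HT T
  mem : ∀ v, v ∈ T ↔ v ∈ G.vs G.A ∧ ¬ G.Pt v
  dg : ∀ N, G.Dg N ↔ N ∈ Hh ∪ Φ
  dj : Disjoint Hh Φ
  po : ∀ N, G.Po N → Disjoint N T ∧ G.cut N ⊆ G.cut T
  hY : Y = T ∪ Φ.biUnion id
  d0 : D0 = ∅ ∨ (D0 ∈ Φ ∧ (∀ l, ¬ G.Lv l) ∧ ∀ e ∈ G.cut D0, ¬ G.Bri Y e)
  br : ∀ N ∈ Φ, N ≠ D0 → ∀ e ∈ G.cut N, G.Bri Y e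
  one : D0 = ∅ ∨ Φ = {D0}
  cn : G.Cn Y (G.ins Y)
  two : ∀ W ⊆ Y, W.Nonempty → 2 ≤ (G.cut W).card
  inv : ∀ x ∈ T, ∃ y e, G.Rch (G.ins T) x y ∧ y ∈ T ∧ e ∈ G.cut T ∧ G.At e y ∧ e ∉ G.ends Hh

omit [Fintype V] in
theorem SpSet_compl (X : Finset V) : G.cut (G.vs G.A \ X) = G.cut X := by
  ext e
  simp only [mem_cut, mem_sdiff]
  refine and_congr_right fun he => ?_
  have h1 := s_mem_vs (G := G) he
  have h2 := t_mem_vs (G := G) he
  tauto

theorem SpSet_lv (hc : G.Cub) {l : V} (hl : l ∈ G.vs G.A) (h : (G.cut {l}).card ≤ 1) : G.Lv l := by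
  have h1 := deg_sum hc (singleton_subset_iff.2 hl)
  rw [card_singleton] at h1
  obtain ⟨e, he⟩ := card_pos.1 (by omega : 0 < (G.ins {l}).card)
  obtain ⟨k1, k2, k3⟩ := mem_ins.1 he
  exact ⟨e, k1, mem_singleton.1 k2, mem_singleton.1 k3⟩

omit [Fintype V] in
theorem SpSet_po {N : Finset V} (h : G.Po N) : N.Nonempty ∧ N ⊆ G.vs G.A := by
  rcases h with ⟨l, ⟨e, h1, h2, -⟩, rfl⟩ | ⟨u, v, e, -, -, rfl, h1, -, h2, -⟩
  · exact ⟨singleton_nonempty l, singleton_subset_iff.2 (h2 ▸ s_mem_vs h1)⟩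
  · exact ⟨insert_nonempty _ _, insert_subset (mem_vs.2 ⟨e, h1, h2.elim (fun k => Or.inl k.1)
      fun k => Or.inr k.2⟩) (singleton_subset_iff.2 (mem_vs.2 ⟨e, h1, h2.elim (fun k => Or.inr k.2)
      fun k => Or.inl k.1⟩))⟩

/-- a set with at most one leaving edge is trivial -/
theorem small_cut (hc : G.Cub) (hC : G.Con) (n1 : G.N1) {X : Finset V} (hX : X ⊆ G.vs G.A)
    (hn : X.Nonempty) (h1 : (G.cut X).card ≤ 1) :
    (∃ l, G.Lv l ∧ X = {l}) ∨ X = G.vs G.A ∨ ∃ l, G.Lv l ∧ G.vs G.A \ X = {l} := by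
  rcases Nat.le_one_iff_eq_zero_or_eq_one.1 h1 with k | k
  · obtain ⟨a, ha⟩ := hn
    exact Or.inr (Or.inl (Subset.antisymm hX (Cn.sub_of_crs hC (card_eq_zero.1 k) (hX ha) ha)))
  obtain ⟨e, he⟩ := card_eq_one.1 k
  rcases n1 X e he with k1 | k1
  · rw [inter_eq_left.2 hX] at k1
    obtain ⟨l, rfl⟩ := card_eq_one.1 k1
    exact Or.inl ⟨l, SpSet_lv hc (hX (mem_singleton_self l)) h1, rfl⟩
  · obtain ⟨l, hl⟩ := card_eq_one.1 k1
    refine Or.inr (Or.inr ⟨l, SpSet_lv hc (mem_sdiff.1 (hl ▸ mem_singleton_self l :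
      l ∈ G.vs G.A \ X)).1 ?_, hl⟩)
    rwa [← hl, SpSet_compl]

/-- HINT: `small_cut`, `pt_iff`; a port-free set misses both ports. -/
theorem ht_free (hc : G.Cub) (hC : G.Con) (n1 : G.N1) (n4 : G.N4) (n6 : G.N6) (h2 : G.TwoP)
    (hT : G.PF T) : G.HT T := by
  intro X hX hn
  have hP : G.PF X := fun v hv => hT v (hX hv)
  refine ⟨?_, fun k => Or.inl (n6 X hP k)⟩
  by_contra k
  have k1 := n4 X hP
  obtain ⟨N, N', p1, p2, p3⟩ := h2
  obtain ⟨⟨v, hv⟩, q1⟩ := SpSet_po p1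
  obtain ⟨⟨v', hv'⟩, q2⟩ := SpSet_po p2
  have r1 : v ∉ X := fun k2 => (hP v k2).2 (pt_iff.2 ⟨N, p1, hv⟩)
  have r2 : v' ∉ X := fun k2 => (hP v' k2).2 (pt_iff.2 ⟨N', p2, hv'⟩)
  rcases small_cut hc hC n1 (fun v hv => (hP v hv).1) hn (by omega) with ⟨l, k2, rfl⟩ | k2 | ⟨l, -, k2⟩
  · exact (hP l (mem_singleton_self l)).2 (Or.inl k2)
  · exact r1 (k2 ▸ q1 hv)
  · have s1 := mem_singleton.1 (k2 ▸ mem_sdiff.2 ⟨q1 hv, r1⟩ : v ∈ ({l} : Finset V))
    have s2 := mem_singleton.1 (k2 ▸ mem_sdiff.2 ⟨q2 hv', r2⟩ : v' ∈ ({l} : Finset V))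
    exact disjoint_left.1 p3 hv (s1.trans s2.symm ▸ hv')

omit [Fintype V] in
theorem SpSet_cut {X : Finset V} {e : E} {x y : V} (he : e ∈ G.A) (hj : G.Je e x y) :
    e ∈ G.cut X ↔ ¬ (x ∈ X ↔ y ∈ X) := by
  rw [mem_cut, and_iff_right he]
  rcases hj with ⟨rfl, rfl⟩ | ⟨rfl, rfl⟩
  exacts [Iff.rfl, not_congr Iff.comm]

omit [Fintype V] in
theorem SpSet_crs {S : Finset E} {X : Finset V} {e : E} {x y : V} (hj : G.Je e x y) :
    e ∈ G.crs S X ↔ e ∈ S ∧ ¬ (x ∈ X ↔ y ∈ X) := by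
  rw [mem_crs]
  rcases hj with ⟨rfl, rfl⟩ | ⟨rfl, rfl⟩
  exacts [Iff.rfl, and_congr_right fun _ => not_congr Iff.comm]

theorem SpSet_port (hc : G.Cub) (n5 : G.N5) (hm : ∀ v, v ∈ T ↔ v ∈ G.vs G.A ∧ ¬ G.Pt v)
    {N : Finset V} (hN : G.Po N) : Disjoint N T ∧ ∀ e ∈ G.cut N, G.oe N e ∈ T ∧ e ∈ G.cut T := by
  have h1 : Disjoint N T := disjoint_left.2 fun v k1 k2 => ((hm v).1 k2).2 (pt_iff.2 ⟨N, hN, k1⟩)
  refine ⟨h1, fun e he => ?_⟩
  have hA := (mem_cut.1 he).1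
  have h2 := ie_mem (cut_sub_tch he)
  have h3 : G.oe N e ∈ T := (hm _).2 ⟨mem_vs.2 ⟨e, hA, oe_at⟩, fun k => by
    obtain ⟨N', k1, k2⟩ := pt_iff.1 k
    have k3 : N ≠ N' := fun k4 => oe_not_mem he (k4 ▸ k2)
    exact disjoint_left.1 (n5 N N' hN k1 k3) he ((SpSet_cut hA je_ie_oe).2 fun k4 =>
      disjoint_left.1 (hN.disj hc k1 k3) h2 (k4.2 k2))⟩
  exact ⟨h3, (SpSet_cut hA je_ie_oe).2 fun k => disjoint_left.1 h1 h2 (k.2 h3)⟩

/-- vertices with a loop are dead ends -/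
theorem SpSet_dead (hc : G.Cub) (hC : G.Con) (hY : Y ⊆ G.vs G.A)
    (h : ∀ v ∈ G.vs G.A, v ∉ Y → G.Lv v) : G.Cn Y (G.ins Y) := by
  intro a ha b hb
  have key : ∀ v, G.Rch G.A a v →
      ∃ z ∈ Y, G.Rch (G.ins Y) a z ∧ (z = v ∨ (v ∉ Y ∧ G.Adj G.A v z)) := fun v hv => by
    induction hv with
    | refl => exact ⟨a, ha, Rch.refl _ _, Or.inl rfl⟩
    | @tail v w _ h2 ih =>
      obtain ⟨e, he, hj⟩ := adj_iff.1 h2
      obtain ⟨z, z1, z2, rfl | ⟨z3, z4⟩⟩ := ih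
      · by_cases k : w ∈ Y
        · exact ⟨w, k, z2.trans (rch_at (Cut_je_ins he hj z1 k) (hj.at_iff.2 (Or.inl rfl))
            (hj.at_iff.2 (Or.inr rfl))), Or.inl rfl⟩
        · exact ⟨z, z1, z2, Or.inr ⟨k, h2.symm⟩⟩
      by_cases k : w = v
      · exact ⟨z, z1, z2, Or.inr ⟨k ▸ z3, k ▸ z4⟩⟩
      obtain ⟨f, hf, hj'⟩ := adj_iff.1 z4
      obtain ⟨m, c, -, k1⟩ := (h v (mem_vs.2 ⟨e, he, hj.at_iff.2 (Or.inl rfl)⟩) z3).str hc
      have k2 : z ≠ v := fun k3 => z3 (k3 ▸ z1)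
      have k3 : e ∈ G.cut {v} := (SpSet_cut he hj).2 (by simp [k])
      have k4 : f ∈ G.cut {v} := (SpSet_cut hf hj').2 (by simp [k2])
      rw [k1, mem_singleton] at k3 k4
      exact ⟨z, z1, z2, Or.inl ((hj.at_iff.1 (k3.trans k4.symm ▸
        hj'.at_iff.2 (Or.inr rfl))).resolve_left k2)⟩
  obtain ⟨z, -, z2, rfl | ⟨z3, -⟩⟩ := key b (hC a (hY ha) b (hY hb))
  exacts [z2, absurd hb z3]

/-- the ends of a digon whose removal disconnects are bridges -/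
theorem SpSet_bri {N : Finset V} {e f : E} (hN : N ⊆ Y) (hcut : G.cut N = {e, f})
    (he : G.oe N e ∈ Y) (h1 : G.Cn Y (G.ins Y)) (h2 : ¬ G.Cn (Y \ N) (G.ins (Y \ N))) :
    G.Bri Y e := by
  have e1 : e ∈ G.cut N := hcut ▸ mem_insert_self _ _
  have f1 : f ∈ G.cut N := hcut ▸ mem_insert_of_mem (mem_singleton_self _)
  obtain ⟨k1, k2, k3, k4⟩ := cmp_spec (G := G) (mem_sdiff.2 ⟨he, oe_not_mem e1⟩)
  generalize G.cmp (Y \ N) (G.oe N e) = X at k1 k2 k3 k4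
  have hXN : ∀ v ∈ N, v ∉ X := fun v l1 l2 => (mem_sdiff.1 (k2 l2)).2 l1
  have key : ∀ g ∈ G.ins Y, g ∈ G.ins N ∨ g = e ∨ g = f ∨
      (G.s g ∉ N ∧ G.t g ∉ N ∧ (G.s g ∈ X ↔ G.t g ∈ X)) := fun g hg => by
    by_cases l : g ∈ G.tch N
    · rcases mem_tch_iff.1 l with l | l
      · exact Or.inl l
      · rw [hcut, mem_insert, mem_singleton] at l
        exact Or.inr (l.imp_right Or.inl)
    · obtain ⟨l1, l2, l3⟩ := mem_ins.1 hg
      have l4 : G.s g ∉ N := fun l5 => l (mem_tch.2 ⟨l1, Or.inl l5⟩)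
      have l5 : G.t g ∉ N := fun l5 => l (mem_tch.2 ⟨l1, Or.inr l5⟩)
      refine Or.inr (Or.inr (Or.inr ⟨l4, l5, by_contra fun l6 => ?_⟩))
      exact notMem_empty g (k3 ▸ mem_crs.2 ⟨mem_ins.2 ⟨l1, mem_sdiff.2 ⟨l2, l4⟩,
        mem_sdiff.2 ⟨l3, l5⟩⟩, l6⟩)
  have hf : G.oe N f ∉ X := fun l => h2 (by
    have l1 : G.crs (G.ins Y) (X ∪ N) = ∅ := eq_empty_of_forall_notMem fun g hg => by
      obtain ⟨g1, g2⟩ := mem_crs.1 hg
      rcases key g g1 with l2 | rfl | rfl | ⟨l2, l3, l4⟩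
      · exact g2 (iff_of_true (mem_union_right _ (mem_ins.1 l2).2.1)
          (mem_union_right _ (mem_ins.1 l2).2.2))
      · exact ((SpSet_crs je_ie_oe).1 hg).2 (iff_of_true
          (mem_union_right _ (ie_mem (cut_sub_tch e1))) (mem_union_left _ k1))
      · exact ((SpSet_crs je_ie_oe).1 hg).2 (iff_of_true
          (mem_union_right _ (ie_mem (cut_sub_tch f1))) (mem_union_left _ l))
      · exact g2 (by rw [mem_union, mem_union, or_iff_left l2, or_iff_left l3, l4])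
    have l2 := Cn.sub_of_crs h1 l1 he (mem_union_left _ k1)
    rwa [show Y \ N = X from Subset.antisymm (fun v hv =>
      (mem_union.1 (l2 (mem_sdiff.1 hv).1)).resolve_right (mem_sdiff.1 hv).2) k2])
  refine ⟨X, k2.trans sdiff_subset, eq_singleton_iff_unique_mem.2 ⟨(SpSet_crs je_ie_oe).2
    ⟨Cut_je_ins (mem_cut.1 e1).1 je_ie_oe (hN (ie_mem (cut_sub_tch e1))) he,
      fun l => hXN _ (ie_mem (cut_sub_tch e1)) (l.2 k1)⟩, fun g hg => ?_⟩⟩
  obtain ⟨g1, g2⟩ := mem_crs.1 hg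
  rcases key g g1 with l2 | rfl | rfl | ⟨-, -, l4⟩
  · exact absurd (iff_of_false (hXN _ (mem_ins.1 l2).2.1) (hXN _ (mem_ins.1 l2).2.2)) g2
  · rfl
  · exact absurd (iff_of_false (hXN _ (ie_mem (cut_sub_tch f1))) hf) ((SpSet_crs je_ie_oe).1 hg).2
  · exact absurd l4 g2

/-- the common part of the two cases -/
theorem SpSet_mk (hc : G.Cub) (hC : G.Con) (n1 : G.N1) (n5 : G.N5) (ht : G.HT T)
    (hm : ∀ v, v ∈ T ↔ v ∈ G.vs G.A ∧ ¬ G.Pt v) {𝒟 : Finset (Finset V)} (hD : ∀ N, N ∈ 𝒟 ↔ G.Dg N)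
    (hΦ : Φ ⊆ 𝒟) (hY : Y = T ∪ Φ.biUnion id) (cn : G.Cn Y (G.ins Y))
    (h0 : Φ.Nonempty ∨ ∃ l, G.Lv l)
    (d0 : D0 = ∅ ∨ (D0 ∈ Φ ∧ (∀ l, ¬ G.Lv l) ∧ ∀ e ∈ G.cut D0, ¬ G.Bri Y e))
    (br : ∀ N ∈ Φ, N ≠ D0 → ∀ e ∈ G.cut N, G.Bri Y e) (one : D0 = ∅ ∨ Φ = {D0})
    (h2 : (∀ W ⊆ Y, W.Nonempty → W ≠ Y → 2 ≤ (G.cut W).card) → Y.Nonempty → 2 ≤ (G.cut Y).card) :
    G.Su T Y D0 Φ (𝒟 \ Φ) := by
  have hp : ∀ N ∈ 𝒟, G.Po N := fun N k => Or.inr ((hD N).1 k)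
  have hmY : ∀ v, v ∈ Y ↔ v ∈ T ∨ ∃ N ∈ Φ, v ∈ N := fun v => by
    rw [hY, mem_union, mem_biUnion]
    rfl
  have hTY : T ⊆ Y := fun v k => (hmY v).2 (Or.inl k)
  have hYA : Y ⊆ G.vs G.A := fun v k => by
    rcases (hmY v).1 k with k1 | ⟨N, k1, k2⟩
    exacts [((hm v).1 k1).1, (SpSet_po (hp N (hΦ k1))).2 k2]
  have hl : ∀ l ∈ Y, ¬ G.Lv l := fun l k k1 => by
    rcases (hmY l).1 k with k2 | ⟨N, k2, k3⟩
    exacts [((hm l).1 k2).2 (Or.inl k1), Def6_lv hc k1 ((hD N).1 (hΦ k2)) k3]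
  have h3 : ∀ W ⊆ Y, W.Nonempty → W ≠ Y → 2 ≤ (G.cut W).card := fun W k1 k2 k3 => by
    by_contra k4
    obtain ⟨z, z1, z2⟩ := exists_of_ssubset (Finset.ssubset_iff_subset_ne.2 ⟨k1, k3⟩)
    rcases small_cut hc hC n1 (k1.trans hYA) k2 (by omega) with ⟨l, k5, rfl⟩ | k5 | ⟨l, k5, k6⟩
    · exact hl l (k1 (mem_singleton_self l)) k5
    · exact z2 (k5 ▸ hYA z1)
    · exact hl z z1 (mem_singleton.1 (k6 ▸ mem_sdiff.2 ⟨hYA z1, z2⟩ : z ∈ ({l} : Finset V)) ▸ k5)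
  refine ⟨ht, hm, fun N => by rw [sdiff_union_of_subset hΦ, hD], sdiff_disjoint,
    fun N k => ⟨(SpSet_port hc n5 hm k).1, fun e he => ((SpSet_port hc n5 hm k).2 e he).2⟩, hY, d0,
    br, one, cn, fun W k1 k2 => ?_, fun x hx => ?_⟩
  · by_cases k : W = Y
    exacts [k ▸ h2 h3 (k ▸ k2), h3 W k1 k2 k]
  rcases Φ.eq_empty_or_nonempty with rfl | ⟨N, hN⟩
  · obtain ⟨l, k⟩ := h0.resolve_left not_nonempty_empty
    obtain ⟨m, c, -, k1⟩ := k.str hc
    have k2 : c ∈ G.cut {l} := k1 ▸ mem_singleton_self c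
    have k3 : G.Po {l} := Or.inl ⟨l, k, rfl⟩
    obtain ⟨k4, k5⟩ := (SpSet_port hc n5 hm k3).2 c k2
    rw [biUnion_empty, union_empty] at hY
    refine ⟨_, c, hY ▸ cn x (hTY hx) _ (hTY k4), k4, k5, oe_at, fun k6 => ?_⟩
    obtain ⟨N, k7, k8⟩ := mem_biUnion.1 k6
    have k9 := (mem_sdiff.1 k7).1
    exact disjoint_left.1 (n5 _ N k3 (hp N k9) fun k10 =>
      Def6_lv hc k ((hD N).1 k9) (k10 ▸ mem_singleton_self l)) k2 k8
  · obtain ⟨k1, k2, k3, -⟩ := cmp_spec (G := G) hx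
    obtain ⟨e, he⟩ : (G.crs (G.ins Y) (G.cmp T x)).Nonempty := nonempty_iff_ne_empty.2 fun k => by
      obtain ⟨v, hv⟩ := (SpSet_po (hp N (hΦ hN))).1
      exact disjoint_left.1 (SpSet_port hc n5 hm (hp N (hΦ hN))).1 hv
        (k2 (Cn.sub_of_crs cn k (hTY hx) k1 ((hmY v).2 (Or.inr ⟨N, hN, hv⟩))))
    obtain ⟨e1, e2⟩ := mem_crs.1 he
    have e3 : e ∈ G.tch (G.cmp T x) := cut_sub_tch (mem_cut.2 ⟨ins_sub_A e1, e2⟩)
    refine ⟨_, e, (mem_cmp.1 (ie_mem e3)).2, k2 (ie_mem e3), (mem_tch_iff.1 (tch_mono k2 e3)).resolve_left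
      fun k => notMem_empty e (k3 ▸ mem_crs.2 ⟨k, e2⟩), ie_at, fun k => ?_⟩
    obtain ⟨N', k7, k8⟩ := mem_biUnion.1 k
    obtain ⟨k9, k10⟩ := mem_sdiff.1 k7
    have k11 := ie_mem (cut_sub_tch k8)
    have k12 : G.ie N' e ∈ Y := (sub_ins_iff.1 (Subset.rfl : G.ins Y ⊆ G.ins Y)).2
      (mem_vs.2 ⟨e, e1, ie_at⟩)
    rcases (hmY _).1 k12 with k13 | ⟨N2, k13, k14⟩
    · exact disjoint_left.1 (SpSet_port hc n5 hm (hp N' k9)).1 k11 k13
    · exact disjoint_left.1 ((hp N' k9).disj hc (hp N2 (hΦ k13)) fun k15 => k10 (k15 ▸ k13)) k11 k14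

/-- HINT: `T` is the set of active vertices outside the ports; by `N5` the leaving edges of a
port end in `T`.  With all digons, `T ∪ ⋃ digons` is connected (a vertex with a loop is a dead
end of a walk).  Take a minimal family `Φ` of digons with `T ∪ ⋃ Φ` connected; the ends of its
members are bridges.  If `Φ` is empty and there is no loop, replace it by `{D0}` for any digon
`D0`; its ends lie on a circuit since `T` is connected.  `two`: by `small_cut` at most one vertex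
(with a loop) lies outside; a bridge end `a` of a member of `Φ` gives two sides in `Y`, one of
which has the cut `{a}`; if there is no such member there is at most one port.  `inv`: if `T` is
connected use the edge of a loop vertex or of `D0`; otherwise the component of `x` in `T` is left
by an edge inside `Y`. -/
theorem sp_setup (hc : G.Cub) (hC : G.Con) (n1 : G.N1) (n4 : G.N4) (n5 : G.N5) (n6 : G.N6)
    (h2 : G.TwoP) : ∃ T Y D0 Φ Hh, G.Su T Y D0 Φ Hh := by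
  classical
  obtain ⟨T, hm⟩ : ∃ T : Finset V, ∀ v, v ∈ T ↔ v ∈ G.vs G.A ∧ ¬ G.Pt v :=
    ⟨(G.vs G.A).filter fun v => ¬ G.Pt v, fun _ => mem_filter⟩
  obtain ⟨𝒟, hD⟩ : ∃ 𝒟 : Finset (Finset V), ∀ N, N ∈ 𝒟 ↔ G.Dg N :=
    ⟨univ.filter G.Dg, fun _ => by simp⟩
  have ht := ht_free hc hC n1 n4 n6 h2 fun v hv => (hm v).1 hv
  have hp : ∀ N ∈ 𝒟, G.Po N := fun N k => Or.inr ((hD N).1 k)
  have hall : G.Cn (T ∪ 𝒟.biUnion id) (G.ins (T ∪ 𝒟.biUnion id)) := by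
    refine SpSet_dead hc hC (union_subset (fun v k => ((hm v).1 k).1)
      (biUnion_subset.2 fun N k => (SpSet_po (hp N k)).2)) fun v k1 k2 => ?_
    by_contra k3
    refine k2 (mem_union_left _ ((hm v).2 ⟨k1, ?_⟩))
    rintro (k4 | ⟨N, k4, k5⟩)
    exacts [k3 k4, k2 (mem_union_right _ (mem_biUnion.2 ⟨N, (hD N).2 k4, k5⟩))]
  obtain ⟨Φ, hΦ, hmin⟩ := exists_min_image (𝒟.powerset.filter fun Φ =>
    G.Cn (T ∪ Φ.biUnion id) (G.ins (T ∪ Φ.biUnion id))) card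
    ⟨𝒟, mem_filter.2 ⟨mem_powerset_self _, hall⟩⟩
  obtain ⟨hΦ, cn⟩ := mem_filter.1 hΦ
  rw [mem_powerset] at hΦ
  by_cases h0 : Φ.Nonempty ∨ ∃ l, G.Lv l
  · have br : ∀ N ∈ Φ, ∀ e ∈ G.cut N, G.Bri (T ∪ Φ.biUnion id) e := fun N hN e he => by
      obtain ⟨u, v, e1, e2, a, b, -, -, -, -, -, -, -, k1, -⟩ := ((hD N).1 (hΦ hN)).str hc
      obtain ⟨k2, k3⟩ := SpSet_port hc n5 hm (hp N (hΦ hN))
      obtain ⟨f, hf⟩ : ∃ f, G.cut N = {e, f} := by
        rw [k1, mem_insert, mem_singleton] at he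
        rcases he with rfl | rfl
        exacts [⟨b, k1⟩, ⟨a, k1.trans (pair_comm _ _)⟩]
      refine SpSet_bri (N := N) ((subset_biUnion_of_mem id hN).trans subset_union_right) hf
        (mem_union_left _ (k3 e he).1) cn fun k => ?_
      have e3 : (T ∪ Φ.biUnion id) \ N = T ∪ (Φ.erase N).biUnion id := by
        ext z
        simp only [mem_sdiff, mem_union, mem_biUnion, mem_erase, id]
        refine ⟨fun l => l.1.imp_right fun ⟨N', l1, l2⟩ => ⟨N', ⟨fun l3 => l.2 (l3 ▸ l2), l1⟩, l2⟩, ?_⟩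
        rintro (l | ⟨N', ⟨l1, l2⟩, l3⟩)
        · exact ⟨Or.inl l, disjoint_right.1 k2 l⟩
        · exact ⟨Or.inr ⟨N', l2, l3⟩,
            disjoint_left.1 ((hp N' (hΦ l2)).disj hc (hp N (hΦ hN)) l1) l3⟩
      rw [e3] at k
      exact (hmin _ (mem_filter.2 ⟨mem_powerset.2 ((erase_subset _ _).trans hΦ), k⟩)).not_gt
        (card_erase_lt_of_mem hN)
    refine ⟨T, _, ∅, Φ, _, SpSet_mk hc hC n1 n5 ht hm hD hΦ rfl cn h0 (Or.inl rfl)
      (fun N k _ => br N k) (Or.inl rfl) fun h3 hn => ?_⟩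
    rcases Φ.eq_empty_or_nonempty with rfl | ⟨N, hN⟩
    · rw [biUnion_empty, union_empty] at hn ⊢
      have := ht.mono3 Subset.rfl hn
      omega
    obtain ⟨u, v, e1, e2, a, b, -, -, -, -, -, -, -, k1, -⟩ := ((hD N).1 (hΦ hN)).str hc
    obtain ⟨X, x1, x2⟩ := br N hN a (k1 ▸ mem_insert_self _ _)
    generalize T ∪ Φ.biUnion id = Y at h3 x1 x2
    obtain ⟨x3, x4⟩ := mem_crs.1 (x2 ▸ mem_singleton_self a : a ∈ G.crs (G.ins Y) X)
    have x5 : a ∈ G.cut X := mem_cut.2 ⟨ins_sub_A x3, x4⟩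
    have x6 := ie_mem (cut_sub_tch x5)
    have x7 : G.oe X a ∈ Y \ X := mem_sdiff.2 ⟨(sub_ins_iff.1 (Subset.rfl : G.ins Y ⊆ G.ins Y)).2
      (mem_vs.2 ⟨a, x3, oe_at⟩), oe_not_mem x5⟩
    have y1 := h3 X x1 ⟨_, x6⟩ fun k => (mem_sdiff.1 x7).2 (k ▸ (mem_sdiff.1 x7).1)
    have y2 := h3 (Y \ X) sdiff_subset ⟨_, x7⟩ fun k => (mem_sdiff.1 (k.ge (x1 x6))).2 x6
    have y3 := cut_add (G := G) x1
    rw [x2, card_singleton] at y3
    omega
  obtain ⟨h3, h4⟩ := not_or.1 h0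
  obtain rfl := not_nonempty_iff_eq_empty.1 h3
  rw [biUnion_empty, union_empty] at cn
  have h5 : ∀ l, ¬ G.Lv l := fun l k => h4 ⟨l, k⟩
  obtain ⟨N, N', p1, p2, p3⟩ := h2
  have p4 : G.Dg N := p1.resolve_left fun ⟨l, k, _⟩ => h5 l k
  obtain ⟨u, v, e1, e2, a, b, huv, q1, q2, q3, -, -, -, q4, -, q5, q6⟩ := p4.str hc
  obtain ⟨k2, k3⟩ := SpSet_port hc n5 hm p1
  have a1 : a ∈ G.cut N := q4 ▸ mem_insert_self _ _
  have b1 : b ∈ G.cut N := q4 ▸ mem_insert_of_mem (mem_singleton_self _)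
  have hin : ∀ e ∈ G.cut N, e ∈ G.ins (T ∪ N) := fun e he => Cut_je_ins (mem_cut.1 he).1 je_ie_oe
    (mem_union_right _ (ie_mem (cut_sub_tch he))) (mem_union_left _ (k3 e he).1)
  have hr : ∀ e ∈ G.cut N, G.Rch (G.ins (T ∪ N)) (G.oe N a) (G.ie N e) := fun e he =>
    ((cn _ (k3 a a1).1 _ (k3 e he).1).mono (ins_mono subset_union_left)).trans
      (rch_at (hin e he) oe_at ie_at)
  refine ⟨T, T ∪ N, N, {N}, _, SpSet_mk hc hC n1 n5 ht hm hD
    (singleton_subset_iff.2 ((hD N).2 p4)) (by rw [singleton_biUnion, id]) (cn_of_base (a := G.oe N a)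
      fun z hz => ?_) (Or.inl (singleton_nonempty N)) (Or.inr ⟨mem_singleton_self N, h5, ?_⟩)
    (fun _ k k' => absurd (mem_singleton.1 k) k') (Or.inr rfl) fun _ hn => ?_⟩
  · rcases mem_union.1 hz with k | k
    · exact (cn _ (k3 a a1).1 _ k).mono (ins_mono subset_union_left)
    · rw [q1, mem_insert, mem_singleton] at k
      rcases k with rfl | rfl
      exacts [q5 ▸ hr a a1, q6 ▸ hr b b1]
  · rintro e he ⟨X, -, x2⟩
    have x3 : ∀ g ∈ G.ins (T ∪ N), g ≠ e → ∀ y z, G.Je g y z → (y ∈ X ↔ z ∈ X) :=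
      fun g g1 g2 y z g3 => by_contra fun k =>
        g2 (mem_singleton.1 (x2 ▸ (SpSet_crs g3).2 ⟨g1, k⟩ : g ∈ ({e} : Finset E)))
    have x4 : ∀ y ∈ T, ∀ z ∈ T, y ∈ X → z ∈ X := fun y y1 z z1 => (cn y y1 z z1).closed
      (P := fun v => v ∈ X) fun g g1 => x3 g (ins_mono subset_union_left g1)
        (fun k => not_ins_of_cut (k3 e he).2 (k ▸ g1)) _ _ (Or.inl ⟨rfl, rfl⟩)
    have x5 : G.oe N a ∈ X ↔ G.oe N b ∈ X :=
      ⟨x4 _ (k3 a a1).1 _ (k3 b b1).1, x4 _ (k3 b b1).1 _ (k3 a a1).1⟩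
    have x6 : e1 ∈ G.ins N := q2 ▸ mem_insert_self _ _
    have x7 := x3 e1 (ins_mono subset_union_right x6) (fun k => not_ins_of_cut he (k ▸ x6)) _ _ q3
    have x8 := ((SpSet_crs (je_ie_oe (X := N))).1 (x2 ▸ mem_singleton_self e :
      e ∈ G.crs (G.ins (T ∪ N)) X)).2
    rw [← q5, ← q6] at x7
    by_cases k : a = e
    · by_cases k' : b = e
      · exact huv (q5.symm.trans (k.trans k'.symm ▸ q6))
      · exact x8 (k ▸ (x7.trans (x3 b (hin b b1) k' _ _ je_ie_oe)).trans x5.symm)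
    · rw [q4, mem_insert, mem_singleton] at he
      obtain rfl := he.resolve_left (Ne.symm k)
      exact x8 ((x7.symm.trans (x3 a (hin a a1) k _ _ je_ie_oe)).trans x5)
  · by_contra k
    obtain ⟨⟨z, z1⟩, z2⟩ := SpSet_po p2
    rcases small_cut hc hC n1 (union_subset (fun v k => ((hm v).1 k).1) (SpSet_po p1).2) hn
      (by omega) with ⟨l, k5, -⟩ | k5 | ⟨l, k5, -⟩
    · exact h5 l k5
    · rcases mem_union.1 (k5 ▸ z2 z1 : z ∈ T ∪ N) with k6 | k6
      exacts [disjoint_left.1 (SpSet_port hc n5 hm p2).1 z1 k6, disjoint_left.1 p3 k6 z1]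
    · exact h5 l k5

end SG

end Pool.Agent.Work.MP_8c679b_co
end
end

-- merged part: Pool.Agent.Work.MP_8c679b_co.Six.SpLift
section
-- merged part: Pool.Agent.Work.MP_8c679b_co.Six.Fin
section
/-!
Gluing a run to a solution of the remainder, on the level of `Abs0`, `PasG`, `Pas0`.
-/

set_option autoImplicit false

namespace Pool.Agent.Work.MP_8c679b_co

open Finset

namespace SG

variable {V E : Type} [Fintype V] [DecidableEq V] [DecidableEq E] {G : SG V E}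
  {X X1 X2 W : Finset V} {O O' O1 O2 J L L' L1 L2 : Finset E} {K K' K1 K2 : Set (Finset E)}
  {a b : E} {C C' : Rl → Prop}

private lemma Fin_fr {e : E} : e ∈ G.fr X L ↔ e ∈ G.ins X ∨ (e ∈ G.cut X ∧ e ∈ L) := by
  simp [fr]

private lemma Fin_fr_mono (hL : ∀ e ∈ G.cut X, e ∈ L → e ∈ L') : G.fr X L ⊆ G.fr X L' := by
  intro e he
  rw [Fin_fr] at he ⊢
  exact he.imp id fun h => ⟨h.1, hL e h.1 h.2⟩

private lemma Fin_disj (hd : Disjoint X1 X2) (hF : ∀ e ∈ L2, e ∈ G.cut X2 → e ∉ G.tch X1) :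
    Disjoint (G.fr X2 L2) (G.tch X1) := by
  rw [disjoint_left]
  intro e he h1
  rcases Fin_fr.1 he with h | h
  · rw [mem_ins] at h
    rw [mem_tch] at h1
    rcases h1.2 with k | k
    · exact disjoint_left.1 hd k h.2.1
    · exact disjoint_left.1 hd k h.2.2
  · exact hF e h.2 h.1 h1

private lemma Fin_sub (hd : Disjoint X1 X2)
    (hL1 : ∀ e ∈ L1, e ∈ G.cut X1 → e ∈ G.tch X2 ∨ e ∈ L) (hL2 : ∀ e ∈ L2, e ∈ G.cut X2 → e ∈ L) :
    G.fr X1 L1 ∪ G.fr X2 L2 ⊆ G.fr (X1 ∪ X2) L := by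
  intro e he
  have k1 : G.s e ∈ X1 → G.s e ∉ X2 := fun h => disjoint_left.1 hd h
  have k2 : G.t e ∈ X1 → G.t e ∉ X2 := fun h => disjoint_left.1 hd h
  have h1 := hL1 e
  have h2 := hL2 e
  simp only [mem_union, Fin_fr, mem_ins, mem_cut, mem_tch] at he h1 h2 ⊢
  grind

private lemma Fin_out {e : E} (hX : X ⊆ W) (h1 : e ∈ G.cut W) (h2 : e ∈ G.cut X) :
    e ∉ G.tch (W \ X) := by
  have k1 := @hX (G.s e)
  have k2 := @hX (G.t e)
  simp only [mem_sdiff, mem_cut, mem_tch] at h1 h2 ⊢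
  grind

private lemma Fin_rest {e : E} (h : e ∈ G.cut (W \ X)) :
    e ∈ G.tch X ∨ (e ∈ G.cut W ∧ e ∈ G.tch (W \ X)) := by
  simp only [mem_sdiff, mem_cut, mem_tch] at h ⊢
  grind

private lemma Fin_neg {d : E} (hd : ∀ e ∈ G.cut W, e ∈ G.tch (W \ X) → e ∈ L ∨ e = d) :
    ∀ e ∈ G.cut (W \ X), e ∈ L ∪ G.tch X ∨ e = d := by
  intro e he
  rcases Fin_rest he with k | k
  · exact Or.inl (mem_union_right _ k)
  · exact (hd e k.1 k.2).imp (mem_union_left _) id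

theorem Abs0.cov (h : G.Abs0 X O L K') (hK : G.Cvr X O K' K) : G.Abs0 X O L K := by
  exact ⟨h.1, h.2.cov hK⟩

theorem PasG.cov (h : G.PasG X O J L K' a b C) (hK : G.Cvr X O K' K) :
    G.PasG X O J L K a b C := by
  exact ⟨h.1, h.2.cov hK⟩

theorem Pas0.cov (h : G.Pas0 X O a b L K' C) (hK : G.Cvr X O K' K) : G.Pas0 X O a b L K C := by
  exact ⟨h.1, h.2.cov hK⟩

theorem Abs0.monoL (h : G.Abs0 X O L K) (hL : ∀ e ∈ G.cut X, e ∈ L → e ∈ L') :
    G.Abs0 X O L' K := by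
  exact ⟨h.1, h.2.mono (Fin_fr_mono hL) fr_sub_tch⟩

theorem PasG.monoL (h : G.PasG X O J L K a b C) (hL : ∀ e ∈ G.cut X, e ∈ L → e ∈ L') :
    G.PasG X O J L' K a b C := by
  exact ⟨h.1, h.2.mono (Fin_fr_mono hL) fr_sub_tch⟩

theorem Pas0.monoL (h : G.Pas0 X O a b L K C) (hL : ∀ e ∈ G.cut X, e ∈ L → e ∈ L') :
    G.Pas0 X O a b L' K C := by
  refine ⟨h.1, h.2.monoL fun e he h' => ?_⟩
  simp only [mem_insert] at h' ⊢
  exact h'.imp id (Or.imp id (hL e he))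

theorem PasG.imp (h : G.PasG X O J L K a b C) (hC : ∀ R, C R → C' R) :
    G.PasG X O J L K a b C' := by
  exact ⟨h.1, h.2.imp fun _ R _ hR => ⟨R, hC R hR, fun _ _ => id⟩⟩

theorem Pas0.imp (h : G.Pas0 X O a b L K C) (hC : ∀ R, C R → C' R) : G.Pas0 X O a b L K C' := by
  exact ⟨h.1, h.2.imp hC⟩

theorem Pas0.symm (h : G.Pas0 X O a b L K C) (hC : ∀ R, C R → C' fun x y => R y x) :
    G.Pas0 X O b a L K C' := by
  refine ⟨h.1.symm, ?_⟩
  rw [pair_comm, insert_comm]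
  exact ⟨h.2.1, h.2.2.symm.imp fun _ R _ hR => ⟨R, hC _ hR, fun _ _ => id⟩⟩

theorem PasG.symm (h : G.PasG X O J L K a b C) (hC : ∀ R, C R → C' fun x y => R y x) :
    G.PasG X O J L K b a C' := by
  exact ⟨h.1, h.2.symm.imp fun _ R _ hR => ⟨R, hC _ hR, fun _ _ => id⟩⟩

theorem Pas0.cut (h : G.Pas0 X O a b L K C) : a ∈ G.cut X ∧ b ∈ G.cut X ∧ a ∈ O ∧ b ∈ O ∧
    ∀ e ∈ G.cut X, e ∈ O → e = a ∨ e = b := by
  have k := h.2.1.2.2
  have ka : a ∈ O ∩ G.cut X := by rw [k]; simp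
  have kb : b ∈ O ∩ G.cut X := by rw [k]; simp
  refine ⟨(mem_inter.1 ka).2, (mem_inter.1 kb).2, (mem_inter.1 ka).1, (mem_inter.1 kb).1,
    fun e he hO => ?_⟩
  have : e ∈ O ∩ G.cut X := mem_inter.2 ⟨hO, he⟩
  rw [k] at this
  simpa using this

theorem Abs0.not_mem (h : G.Abs0 X O L K) {e : E} (he : e ∉ G.ins X) : e ∉ O := by
  exact fun k => he (h.1.sub_ins k)

theorem abs0_iff : G.Abs0 X O L K ↔ G.PasG X O ∅ L K a b Rl.Nv := by
  exact and_congr_right fun _ => ab_iff_pa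

theorem abs0_empty : G.Abs0 ∅ ∅ L ∅ := by
  have : G.fr ∅ L = ∅ := by
    ext e
    simp [Fin_fr, mem_ins, mem_cut]
  refine ⟨st_empty, ?_⟩
  rw [this]
  exact ab_empty

theorem abs0_of_sl {φ : E → ZMod 3} (h : G.St X O ∅) (h' : G.Sl X O K φ) :
    G.Abs0 X O (G.cut X) K := by
  exact ⟨h, fr_cut (G := G) (X := X) ▸ ab_of_sl h'⟩

/-- one dead edge -/
theorem Abs0.neg (h : G.Abs0 X O (G.cut X) K) (d : E) (hL : ∀ e ∈ G.cut X, e ∈ L ∨ e = d) :
    G.Abs0 X O L K := by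
  by_cases hd : d ∈ G.cut X
  · have h2 := h.2
    rw [fr_cut] at h2
    refine ⟨h.1, (h2.neg (h.not_mem (not_ins_of_cut hd))).mono (fun e he => ?_) fr_sub_tch⟩
    rw [mem_erase, mem_tch_iff] at he
    exact Fin_fr.2 (he.2.imp id fun k => ⟨k, (hL e k).resolve_right he.1⟩)
  · exact h.monoL fun e he _ => (hL e he).resolve_right fun k => hd (k ▸ he)

/-- first absorb `X1`, then `X2` -/
theorem Abs0.seq (h1 : G.Abs0 X1 O1 L1 K1) (h2 : G.Abs0 X2 O2 L2 K2) (hd : Disjoint X1 X2)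
    (hF : ∀ e ∈ L2, e ∈ G.cut X2 → e ∉ G.tch X1)
    (hL1 : ∀ e ∈ L1, e ∈ G.cut X1 → e ∈ G.tch X2 ∨ e ∈ L) (hL2 : ∀ e ∈ L2, e ∈ G.cut X2 → e ∈ L) :
    G.Abs0 (X1 ∪ X2) (O1 ∪ O2) L (K1 ∪ K2) ∧ G.par (O1 ∪ O2) = G.par O1 + G.par O2 := by
  obtain ⟨k1, k2, k3, k4⟩ := h1.1.union h2.1 hd (fun _ _ _ => Iff.rfl)
  simp only [union_empty, inter_empty, sdiff_empty] at k1 k4
  refine ⟨⟨k1, (((h1.2.congrO k2).seq (h2.2.congrO k3) (Fin_disj hd hF)).mono
    (Fin_sub hd hL1 hL2) fr_sub_tch)⟩, ?_⟩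
  rw [inter_eq_left.2 k1.sub_ins, inter_eq_left.2 h1.1.sub_ins, inter_eq_left.2 h2.1.sub_ins] at k4
  rw [k4]
  simp [par]

/-- first absorb `X1`, then pass `X2` -/
theorem Abs0.seqG (h1 : G.Abs0 X1 O1 L1 K1) (h2 : G.PasG X2 O2 J L2 K2 a b C)
    (hd : Disjoint X1 X2) (hJ : ∀ e ∈ J, e ∉ G.tch X1) (ha : a ∈ G.A ∧ a ∉ G.tch X1)
    (hb : b ∈ G.A ∧ b ∉ G.tch X1) (hF : ∀ e ∈ L2, e ∈ G.cut X2 → e ∉ G.tch X1)
    (hL1 : ∀ e ∈ L1, e ∈ G.cut X1 → e ∈ G.tch X2 ∨ e ∈ L) (hL2 : ∀ e ∈ L2, e ∈ G.cut X2 → e ∈ L) :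
    G.PasG (X1 ∪ X2) (O1 ∪ O2) J L (K1 ∪ K2) a b C ∧
      G.par ((O1 ∪ O2) ∩ G.ins (X1 ∪ X2)) = G.par O1 + G.par (O2 ∩ G.ins X2) := by
  obtain ⟨k1, k2, k3, k4⟩ := h1.1.union h2.1 hd
    (fun e he _ => ⟨fun k => absurd k (notMem_empty e), fun k => absurd he (hJ e k)⟩)
  simp only [empty_union, empty_inter, sdiff_empty] at k1 k4
  refine ⟨⟨k1, (((h1.2.congrO k2).seqP (h2.2.congrO k3) (Fin_disj hd hF) ha hb).mono
    (Fin_sub hd hL1 hL2) fr_sub_tch)⟩, ?_⟩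
  rw [inter_eq_left.2 h1.1.sub_ins] at k4
  rw [k4]
  simp [par]

theorem Abs0.seqP (h1 : G.Abs0 X1 O1 L1 K1) (h2 : G.Pas0 X2 O2 a b L2 K2 C)
    (hd : Disjoint X1 X2) (ha : a ∉ G.tch X1) (hb : b ∉ G.tch X1)
    (hF : ∀ e ∈ L2, e ∈ G.cut X2 → e ∉ G.tch X1)
    (hL1 : ∀ e ∈ L1, e ∈ G.cut X1 → e ∈ G.tch X2 ∨ e ∈ L) (hL2 : ∀ e ∈ L2, e ∈ G.cut X2 → e ∈ L) :
    G.Pas0 (X1 ∪ X2) (O1 ∪ O2) a b L (K1 ∪ K2) C ∧
      G.par ((O1 ∪ O2) ∩ G.ins (X1 ∪ X2)) = G.par O1 + G.par (O2 ∩ G.ins X2) := by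
  have hc := h2.cut
  have k := h1.seqG (L := insert a (insert b L)) h2.2 hd
    (fun e he => by
      rcases mem_insert.1 he with rfl | he
      · exact ha
      · rw [mem_singleton.1 he]; exact hb)
    ⟨(mem_cut.1 hc.1).1, ha⟩ ⟨(mem_cut.1 hc.2.1).1, hb⟩
    (fun e he hcut => by
      rcases mem_insert.1 he with rfl | he
      · exact ha
      rcases mem_insert.1 he with rfl | he
      · exact hb
      · exact hF e he hcut)
    (fun e he hcut => (hL1 e he hcut).imp id fun k => mem_insert_of_mem (mem_insert_of_mem k))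
    (fun e he hcut => by
      simp only [mem_insert] at he ⊢
      exact he.imp id (Or.imp id fun k => hL2 e k hcut))
  exact ⟨⟨h2.1, k.1⟩, k.2⟩

/-- Completing a pass of `X ⊆ W` by a solution of the remainder which has at most one dead
edge `d`.  HINT: `Abs0.neg`, `Abs0.seqG`, `PasG.cov`. -/
theorem fing (h : G.PasG X O J L K a b C) (hX : X ⊆ W) (hJ : J ⊆ G.cut W) (hL : L ⊆ G.cut W)
    (ha : a ∈ G.A ∧ a ∉ G.tch (W \ X)) (hb : b ∈ G.A ∧ b ∉ G.tch (W \ X))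
    (h' : G.Abs0 (W \ X) O' (G.cut (W \ X)) K') (d : E)
    (hd : ∀ e ∈ G.cut W, e ∈ G.tch (W \ X) → e ∈ L ∨ e = d) {K0 : Set (Finset E)}
    (hK : ∀ t ∈ K0, (∃ t' ∈ K ∪ K', t' ⊆ t) ∨
      ∃ e ∈ t, e ∈ G.tch W ∧ e ∉ G.ins X ∧ e ∉ G.ins (W \ X) ∧ e ∉ J) :
    G.PasG W (O' ∪ O) J L K0 a b C ∧
      G.par ((O' ∪ O) ∩ G.ins W) = G.par O' + G.par (O ∩ G.ins X) := by
  have hJX : ∀ e ∈ J, e ∈ G.cut X := fun e he => by
    rw [← h.1.2.2] at he
    exact (mem_inter.1 he).2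
  have k := (h'.neg d (Fin_neg hd)).seqG (L := L) h sdiff_disjoint
    (fun e he => Fin_out hX (hJ he) (hJX e he)) ha hb (fun e he hc => Fin_out hX (hL he) hc)
    (fun e he _ => (mem_union.1 he).symm) (fun e he _ => he)
  rw [sdiff_union_of_subset hX] at k
  refine ⟨k.1.cov fun t ht => ?_, k.2⟩
  rcases hK t ht with ⟨t', h1, h2⟩ | ⟨e, h1, h2, h3, h4, h5⟩
  · exact Or.inl ⟨t', Set.union_comm K K' ▸ h1, h2⟩
  · refine Or.inr ⟨e, h1, h2, fun k' => ?_⟩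
    rcases mem_union.1 k' with k' | k'
    · exact h'.not_mem h4 k'
    · apply h5
      rw [← h.1.2.2]
      exact mem_inter.2 ⟨k', (mem_tch_iff.1 (h.1.1 k')).resolve_left h3⟩

theorem finp (h : G.Pas0 X O a b L K C) (hX : X ⊆ W) (ha : a ∈ G.cut W) (hb : b ∈ G.cut W)
    (hL : L ⊆ G.cut W) (h' : G.Abs0 (W \ X) O' (G.cut (W \ X)) K') (d : E)
    (hd : ∀ e ∈ G.cut W, e ∈ G.tch (W \ X) → e ∈ L ∨ e = d) {K0 : Set (Finset E)}
    (hK : ∀ t ∈ K0, (∃ t' ∈ K ∪ K', t' ⊆ t) ∨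
      ∃ e ∈ t, e ∈ G.tch W ∧ e ∉ G.ins X ∧ e ∉ G.ins (W \ X) ∧ e ≠ a ∧ e ≠ b) :
    G.Pas0 W (O' ∪ O) a b L K0 C ∧
      G.par ((O' ∪ O) ∩ G.ins W) = G.par O' + G.par (O ∩ G.ins X) := by
  have hc := h.cut
  have k := fing h.2 hX (insert_subset ha (singleton_subset_iff.2 hb))
    (insert_subset ha (insert_subset hb hL)) ⟨(mem_cut.1 ha).1, Fin_out hX ha hc.1⟩
    ⟨(mem_cut.1 hb).1, Fin_out hX hb hc.2.1⟩ h' d
    (fun e h1 h2 => (hd e h1 h2).imp (fun k => mem_insert_of_mem (mem_insert_of_mem k)) id)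
    (K0 := K0) (fun t ht => (hK t ht).imp id fun ⟨e, h1, h2, h3, h4, h5, h6⟩ =>
      ⟨e, h1, h2, h3, h4, by simp [h5, h6]⟩)
  exact ⟨⟨h.1, k.1⟩, k.2⟩

theorem fina (h : G.Abs0 X O L K) (hX : X ⊆ W) (hL : L ⊆ G.cut W)
    (h' : G.Abs0 (W \ X) O' (G.cut (W \ X)) K') (d : E)
    (hd : ∀ e ∈ G.cut W, e ∈ G.tch (W \ X) → e ∈ L ∨ e = d) {K0 : Set (Finset E)}
    (hK : ∀ t ∈ K0, (∃ t' ∈ K ∪ K', t' ⊆ t) ∨
      ∃ e ∈ t, e ∈ G.tch W ∧ e ∉ G.ins X ∧ e ∉ G.ins (W \ X)) :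
    G.Abs0 W (O' ∪ O) L K0 ∧ G.par (O' ∪ O) = G.par O' + G.par O := by
  have k := (h'.neg d (Fin_neg hd)).seq (L := L) h sdiff_disjoint
    (fun e he hc => Fin_out hX (hL he) hc) (fun e he _ => (mem_union.1 he).symm) (fun e he _ => he)
  rw [sdiff_union_of_subset hX] at k
  refine ⟨k.1.cov fun t ht => ?_, k.2⟩
  rcases hK t ht with ⟨t', h1, h2⟩ | ⟨e, h1, h2, h3, h4⟩
  · exact Or.inl ⟨t', Set.union_comm K K' ▸ h1, h2⟩
  · refine Or.inr ⟨e, h1, h2, fun k' => ?_⟩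
    rcases mem_union.1 k' with k' | k'
    · exact h'.not_mem h4 k'
    · exact h.not_mem h3 k'

/-- joining two solutions across at most one edge -/
theorem Abs0.join (hX : X ⊆ W) (hc : (G.crs (G.ins W) X).card ≤ 1)
    (h1 : G.Abs0 X O1 (G.cut X) K1) (h2 : G.Abs0 (W \ X) O2 (G.cut (W \ X)) K2) :
    G.Abs0 W (O1 ∪ O2) (G.cut W) (K1 ∪ K2) ∧ G.par (O1 ∪ O2) = G.par O1 + G.par O2 := by
  have hcase : ∀ e ∈ G.cut (W \ X), e ∈ G.cut W ∨ e ∈ G.crs (G.ins W) X := by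
    intro e he
    have k1 := @hX (G.s e)
    have k2 := @hX (G.t e)
    simp only [mem_sdiff, mem_cut, mem_crs, mem_ins] at he ⊢
    grind
  have h2' : G.Abs0 (W \ X) O2 (G.cut W) K2 := by
    rcases (G.crs (G.ins W) X).eq_empty_or_nonempty with h0 | ⟨d, hd⟩
    · exact h2.monoL fun e he _ => (hcase e he).resolve_right (by simp [h0])
    · exact h2.neg d fun e he => (hcase e he).imp id fun k => card_le_one.1 hc e k d hd
  have k := h1.seq (L := G.cut W) h2' disjoint_sdiff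
    (fun e h3 h4 => by
      have k1 := @hX (G.s e)
      have k2 := @hX (G.t e)
      simp only [mem_sdiff, mem_cut, mem_tch] at h3 h4 ⊢
      (clear * - h3 h4 k1 k2; grind))
    (fun e h3 _ => by
      have k1 := @hX (G.s e)
      have k2 := @hX (G.t e)
      simp only [mem_sdiff, mem_cut, mem_tch] at h3 ⊢
      (clear * - h3 k1 k2; grind))
    (fun e h3 _ => h3)
  rwa [union_sdiff_of_subset hX] at k

/-- two parts without an edge between them, each with one dead edge -/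
theorem Abs0.join2 (hX : X ⊆ W) (hc : G.crs (G.ins W) X = ∅)
    (h1 : G.Abs0 X O1 (G.cut X) K1) (h2 : G.Abs0 (W \ X) O2 (G.cut (W \ X)) K2) (d1 d2 : E)
    (hL1 : ∀ e ∈ G.cut X, e ∈ L ∨ e = d1) (hL2 : ∀ e ∈ G.cut (W \ X), e ∈ L ∨ e = d2) :
    G.Abs0 W (O1 ∪ O2) L (K1 ∪ K2) ∧ G.par (O1 ∪ O2) = G.par O1 + G.par O2 := by
  have k := (h1.neg d1 hL1).seq (L := L) (h2.neg d2 hL2) disjoint_sdiff
    (fun e _ h4 h5 => by
      have k0 : e ∉ G.crs (G.ins W) X := by simp [hc]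
      have k1 := @hX (G.s e)
      have k2 := @hX (G.t e)
      simp only [mem_sdiff, mem_cut, mem_tch, mem_crs, mem_ins] at h4 h5 k0
      (clear * - h4 h5 k0 k1 k2; grind))
    (fun e h3 _ => Or.inr h3) (fun e h3 _ => h3)
  rwa [union_sdiff_of_subset hX] at k

/-- the coverage delivered by `Fo` has the form required by `fing` -/
theorem Fo.cover {Fm : Set (Finset V)} {Bs Ds Ds' : Finset (Finset V)}
    (h : G.Fo Fm W J Bs Ds X K Ds') (hB : ∀ B ∈ Bs, B ⊆ W) (hX : X ⊆ W) (hJ : J ⊆ G.cut W) :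
    ∀ t ∈ G.Tg Fm W Ds, (∃ t' ∈ K ∪ G.Tg Fm (W \ X) Ds', t' ⊆ t) ∨
      ∃ e ∈ t, e ∈ G.tch W ∧ e ∉ G.ins X ∧ e ∉ G.ins (W \ X) ∧ e ∉ J := by
  intro t ht
  rcases h.2.2 t ht with ⟨t', h1, h2⟩ | ⟨S, h1, B, h2, h3, h4, rfl⟩ | ⟨ρ, h1, h2⟩ | ⟨e, h1, h2⟩
  · exact Or.inl ⟨t', Or.inl h1, h2⟩
  · refine Or.inl ⟨_, Or.inr (Or.inl ⟨S, h1, ?_, rfl⟩), Subset.rfl⟩
    exact subset_sdiff.2 ⟨h3.trans (hB B h2), h4.mono_left h3⟩
  · exact Or.inl ⟨_, Or.inr (Or.inr ⟨ρ, h1, rfl⟩), h2⟩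
  · refine Or.inr ⟨e, h1, ?_⟩
    have k1 := @hX (G.s e)
    have k2 := @hX (G.t e)
    have k3 := @hJ e
    rcases h2 with ⟨h2, h3⟩ | ⟨h2, h3, -⟩
    · simp only [mem_sdiff, mem_cut, mem_tch, mem_ins] at h2 ⊢
      grind
    · simp only [mem_sdiff, mem_cut, mem_tch, mem_ins] at h2 h3 k3 ⊢
      grind

end SG

end Pool.Agent.Work.MP_8c679b_co
end

-- merged part: Pool.Agent.Work.MP_8c679b_co.Six.Pure
section
/-!
Passes along connected edge sets of ordinary vertices.  Everything follows from `ext3`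
(`Sol1.lean`).  No cubicity is needed.
-/

set_option autoImplicit false

namespace Pool.Agent.Work.MP_8c679b_co

open Finset

namespace SG

variable {V E : Type} [Fintype V] [DecidableEq V] [DecidableEq E] {G : SG V E}
  {U U1 U2 W : Finset V} {P P1 P2 C L : Finset E} {a b c d g g1 g2 : E} {p : V → ZMod 2} {v : V}

theorem Pure_upd (S : Finset E) (k ψ : E → ZMod 3) (h1 : g1 ∈ S) (h2 : g2 ∈ S) (hne : g1 ≠ g2)
    (u1 u2 : ZMod 3) :
    ∑ e ∈ S, k e * Function.update (Function.update ψ g1 u1) g2 u2 e =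
      k g1 * u1 + k g2 * u2 + ∑ e ∈ (S.erase g1).erase g2, k e * ψ e := by
  rw [← add_sum_erase _ _ h1, ← add_sum_erase _ _ (mem_erase.2 ⟨hne.symm, h2⟩),
    Function.update_self, Function.update_of_ne hne, Function.update_self, sol1_upd, add_assoc]
  congr 2
  refine sum_congr rfl fun e he => ?_
  rw [Function.update_of_ne (ne_of_mem_erase (mem_of_mem_erase he))]

theorem Pure_two3 : ∀ w k1 k2 : ZMod 3, k1 ≠ 0 → k2 ≠ 0 →
    ∃ u1 u2 : ZMod 3, u1 ≠ 0 ∧ u2 ≠ 0 ∧ w + (k1 * u1 + k2 * u2) = 0 := by decide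

theorem Pure_dg {e : E} (he : e ∈ G.cut U) (hv : v ∈ U) :
    (iv (G.s e = v) + iv (G.t e = v) : ZMod 2) = iv (v = G.ie U e) := by
  obtain ⟨-, h⟩ := mem_cut.1 he
  unfold ie
  by_cases h1 : G.s e ∈ U
  · have h2 : G.t e ≠ v := fun k => h (iff_of_true h1 (k ▸ hv))
    simp [iv, h1, h2, eq_comm]
  · have h2 : G.s e ≠ v := fun k => h1 (k ▸ hv)
    simp [iv, h1, h2, eq_comm]

theorem Pure_kap0 {e : E} (hA : e ∈ G.A) (he : e ∉ G.tch U) : (G.kap p U e : ZMod 3) = 0 :=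
  kap_out (fun k => he (mem_tch.2 ⟨hA, Or.inl k⟩)) fun k => he (mem_tch.2 ⟨hA, Or.inr k⟩)

theorem Pure_cutA {e : E} (he : e ∈ G.cut U) : e ∈ G.A := (mem_cut.1 he).1

theorem Pure_cu {e : E} (h1 : e ∈ G.cut U1) (h2 : e ∉ G.tch U2) : e ∈ G.cut (U1 ∪ U2) := by
  obtain ⟨k1, k2⟩ := mem_cut.1 h1
  have k3 : G.s e ∉ U2 := fun k => h2 (mem_tch.2 ⟨k1, Or.inl k⟩)
  have k4 : G.t e ∉ U2 := fun k => h2 (mem_tch.2 ⟨k1, Or.inr k⟩)
  refine mem_cut.2 ⟨k1, ?_⟩
  simpa only [mem_union, k3, k4, or_false] using k2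

/-- the basic solving step -/
theorem Pure_core (h : G.Pp U P (G.ie U a) (G.ie U b)) (ha : a ∈ G.cut U) (hb : b ∈ G.cut U)
    (hab : a ≠ b) (hp : ∀ e ∈ P, G.sw p e = 0) (ψ : E → ZMod 3) (x y : ZMod 3)
    (hs : chi (p (G.ie U a)) * x + chi (p (G.ie U b)) * y +
      ∑ e ∈ (G.A.erase a).erase b, G.kap p U e * ψ e = 0) :
    ∃ φ : E → ZMod 3, (∀ e, e ∉ insert a (insert b P) → φ e = ψ e) ∧ (∀ v ∈ U, G.bd φ v = 0) ∧
      G.out U φ a = x ∧ G.out U φ b = y := by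
  obtain ⟨a1, a2⟩ := kap_sign (R := ZMod 3) p ha
  obtain ⟨b1, b2⟩ := kap_sign (R := ZMod 3) p hb
  obtain ⟨φ, h1, h2⟩ := ext3 h.1 h.2.1
    (Function.update (Function.update ψ a (G.kap (fun _ => 0) U a * x)) b
      (G.kap (fun _ => 0) U b * y)) (Or.inr ⟨p, hp, by
      rw [Pure_upd _ _ _ (Pure_cutA ha) (Pure_cutA hb) hab, a1, b1]
      linear_combination hs + chi (p (G.ie U a)) * x * a2 + chi (p (G.ie U b)) * y * b2⟩)
  refine ⟨φ, fun e he => ?_, h2, ?_, ?_⟩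
  · simp only [mem_insert, not_or] at he
    rw [h1 e he.2.2, Function.update_of_ne he.2.1, Function.update_of_ne he.1]
  · rw [out, h1 a fun k => not_ins_of_cut ha (h.1 k), Function.update_of_ne hab,
      Function.update_self, ← mul_assoc, a2, one_mul]
  · rw [out, h1 b fun k => not_ins_of_cut hb (h.1 k), Function.update_self, ← mul_assoc, b2,
      one_mul]

theorem Pure_tch (h : P ⊆ G.ins U) (ha : a ∈ G.cut U) (hb : b ∈ G.cut U) :
    insert a (insert b P) ⊆ G.tch U :=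
  insert_subset (cut_sub_tch ha) (insert_subset (cut_sub_tch hb) (h.trans ins_sub_tch))

theorem Pure_fr (h : P ⊆ G.ins U) (ha : a ∈ G.cut U) (hb : b ∈ G.cut U) :
    insert a (insert b P) ⊆ G.fr U (insert a (insert b L)) :=
  insert_subset (mem_union_right _ (mem_inter.2 ⟨ha, mem_insert_self _ _⟩))
    (insert_subset (mem_union_right _ (mem_inter.2 ⟨hb, mem_insert_of_mem (mem_insert_self _ _)⟩))
      (h.trans subset_union_left))

theorem Pure_free (h : P ⊆ G.ins U) (ha : a ∈ G.cut U) (hb : b ∈ G.cut U)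
    (hp : ∀ e ∈ P, G.sw p e = 0)
    (hg : (g ∈ G.ins U ∧ G.sw p g = 1) ∨ (g ∈ G.cut U ∧ g ∈ L ∧ g ≠ a ∧ g ≠ b)) :
    g ∈ (G.A.erase a).erase b ∧ g ∉ insert a (insert b P) ∧
      g ∈ G.fr U (insert a (insert b L)) ∧ (G.kap p U g : ZMod 3) ≠ 0 := by
  rcases hg with ⟨h1, h2⟩ | ⟨h1, h2, h3, h4⟩
  · have k1 : g ≠ a := fun k => not_ins_of_cut ha (k ▸ h1)
    have k2 : g ≠ b := fun k => not_ins_of_cut hb (k ▸ h1)
    obtain ⟨f1, f2, -, f4⟩ := fl_chord (W := U) h1 hp h2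
    exact ⟨mem_erase.2 ⟨k2, mem_erase.2 ⟨k1, f1⟩⟩, by simp [k1, k2, f2], mem_union_left _ h1, f4⟩
  · have k : g ∉ P := fun k => not_ins_of_cut h1 (h k)
    exact ⟨mem_erase.2 ⟨h4, mem_erase.2 ⟨h3, Pure_cutA h1⟩⟩, by simp [h3, h4, k],
      mem_union_right _ (mem_inter.2 ⟨h1, by simp [h2]⟩), sol1_kap_cut (mem_cut.1 h1).2⟩

theorem Pp.symm {x y : V} (h : G.Pp U P x y) : G.Pp U P y x :=
  ⟨h.1, h.2.1, h.2.2.1.symm, h.2.2.2.2, h.2.2.2.1⟩

theorem pp_single (v : V) : G.Pp {v} ∅ v v := by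
  refine ⟨empty_subset _, fun x hx y hy => ?_, od_self.2 ev_empty, mem_singleton_self v,
    mem_singleton_self v⟩
  rw [mem_singleton.1 hx, mem_singleton.1 hy]
  exact Rch.refl _ _

theorem Pp.par {x y : V} (h : G.Pp U P x y) (hp : ∀ e ∈ P, G.sw p e = 0) :
    G.par P = p x + p y := by
  have k := h.2.2.1.par_eq p
  rw [sum_eq_zero hp, add_assoc] at k
  exact z2_eq_of_add k.symm

theorem Pp.st (h : G.Pp U P (G.ie U a) (G.ie U b)) (ha : a ∈ G.cut U) (hb : b ∈ G.cut U)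
    (hab : a ≠ b) : G.St U (insert a (insert b P)) {a, b} ∧
      insert a (insert b P) ∩ G.ins U = P := by
  have na : a ∉ P := fun k => not_ins_of_cut ha (h.1 k)
  have nb : b ∉ P := fun k => not_ins_of_cut hb (h.1 k)
  refine ⟨⟨Pure_tch h.1 ha hb, fun v hv => ?_, ?_⟩, ?_⟩
  · have k := h.2.2.1 v
    unfold dg at k ⊢
    rw [sum_insert (by simp [hab, na]), sum_insert nb, k, Pure_dg ha hv, Pure_dg hb hv]
    linear_combination z2_add_self (iv (v = G.ie U a)) + z2_add_self (iv (v = G.ie U b))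
  · ext e
    simp only [mem_inter, mem_insert, mem_singleton]
    constructor
    · rintro ⟨k | k | k, k'⟩
      exacts [Or.inl k, Or.inr k, absurd (h.1 k) (not_ins_of_cut k')]
    · rintro (rfl | rfl)
      exacts [⟨Or.inl rfl, ha⟩, ⟨Or.inr (Or.inl rfl), hb⟩]
  · ext e
    simp only [mem_inter, mem_insert]
    constructor
    · rintro ⟨rfl | rfl | k, k'⟩
      exacts [absurd k' (not_ins_of_cut ha), absurd k' (not_ins_of_cut hb), k]
    · exact fun k => ⟨Or.inr (Or.inr k), h.1 k⟩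

/-- The basic pass with explicit constant; only the edges of the path are free.
HINT: put the wanted values on `a, b` and apply `ext3`; `kap p U e = 0` for `e ∈ P`;
`kap_sign` relates `kap p` and `out`. -/
theorem pure_pc (h : G.Pp U P (G.ie U a) (G.ie U b)) (ha : a ∈ G.cut U) (hb : b ∈ G.cut U)
    (hab : a ≠ b) (hp : ∀ e ∈ P, G.sw p e = 0) :
    G.Pa U (insert a (insert b P)) (insert a (insert b P)) ∅ a b fun ψ R =>
      R.PC (p (G.ie U a) + p (G.ie U b))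
        (-(chi (p (G.ie U a))) * ∑ e ∈ (G.A.erase a).erase b, G.kap p U e * ψ e) := by
  refine ⟨Pure_tch h.1 ha hb, fun ψ hψ => ⟨_, fun x y k => k, fun x y k => ?_⟩⟩
  obtain ⟨φ, h1, h2, h3, h4⟩ := Pure_core h ha hb hab hp ψ x y (by
    rw [chi_add] at k
    have k1 := chi_mul_self (R := ZMod 3) (p (G.ie U a))
    linear_combination chi (p (G.ie U a)) * k - (chi (p (G.ie U b)) * y +
      ∑ e ∈ (G.A.erase a).erase b, G.kap p U e * ψ e) * k1)
  exact ⟨φ, ⟨h1, h2, fun e he hO => by rw [h1 e hO]; exact hψ e he hO hO,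
    fun t ht => absurd ht (Set.notMem_empty t)⟩, h3, h4⟩

theorem pure_p (h : G.Pp U P (G.ie U a) (G.ie U b)) (ha : a ∈ G.cut U) (hb : b ∈ G.cut U)
    (hab : a ≠ b) (hp : ∀ e ∈ P, G.sw p e = 0) :
    G.Pas0 U (insert a (insert b P)) a b L ∅ (Rl.P (p (G.ie U a) + p (G.ie U b))) :=
  ⟨hab, (h.st ha hb hab).1,
    ((pure_pc h ha hb hab hp).imp fun _ R _ k => ⟨R, ⟨_, k⟩, fun _ _ k => k⟩).mono
      (Pure_fr h.1 ha hb) fr_sub_tch⟩

/-- an inconsistent chord or a live leaving edge is a free sign -/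
theorem pure_u (h : G.Pp U P (G.ie U a) (G.ie U b)) (ha : a ∈ G.cut U) (hb : b ∈ G.cut U)
    (hab : a ≠ b) (hp : ∀ e ∈ P, G.sw p e = 0)
    (hg : (g ∈ G.ins U ∧ G.sw p g = 1) ∨ (g ∈ G.cut U ∧ g ∈ L ∧ g ≠ a ∧ g ≠ b)) :
    G.Pas0 U (insert a (insert b P)) a b L ∅ (Rl.U (p (G.ie U a) + p (G.ie U b))) := by
  obtain ⟨f1, f2, f3, f4⟩ := Pure_free h.1 ha hb hp hg
  refine ⟨hab, (h.st ha hb hab).1,
    (pure_pc h ha hb hab hp).free (Pure_fr h.1 ha hb) fr_sub_tch f3 f2 f2 ?_⟩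
  intro ψ ψ' h1 h2 h3 k
  have k1 := mul_left_cancel₀ (neg_ne_zero.2 (sol1_chi_ne (R := ZMod 3) _)) k
  rw [← add_sum_erase _ _ f1, ← add_sum_erase _ _ f1, h3,
    sum_congr rfl (f := fun e => G.kap p U e * ψ' e) fun e he => by
      rw [h1 e (ne_of_mem_erase he)]] at k1
  have k2 : ∀ x y : ZMod 3, x ≠ 0 → y ≠ 0 → x * y ≠ x * -y := by decide
  exact k2 _ _ f4 h2 (add_right_cancel k1)

/-- An inconsistent vertex with its three edges to the path is a free sign.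
HINT: give the three edges at `v` the outflow `t` at `v`, `t = 1` or `t = -1`; their
contribution to the constant is `∓ t` times a sum of three signs that are not all equal. -/
theorem pure_v (h : G.Pp U P (G.ie U a) (G.ie U b)) (ha : a ∈ G.cut U) (hb : b ∈ G.cut U)
    (hab : a ≠ b) (hp : ∀ e ∈ P, G.sw p e = 0) (hv : v ∉ U) (h3 : (G.cut {v}).card = 3)
    (h0 : G.ins {v} = ∅) (hin : ∀ e ∈ G.cut {v}, e ∈ G.cut U) (hav : a ∉ G.cut {v})
    (hbv : b ∉ G.cut {v}) (hu : ¬ G.Bal (P ∪ G.cut {v})) :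
    G.Pas0 (insert v U) (insert a (insert b P)) a b L ∅
      (Rl.U (p (G.ie U a) + p (G.ie U b))) := by
  have hsub : U ⊆ insert v U := subset_insert _ _
  have nat : ∀ e ∈ G.cut U, e ∉ G.cut {v} → ¬ G.At e v := by
    intro e he hn k
    obtain ⟨k1, k2⟩ := mem_cut.1 he
    refine hn (mem_cut.2 ⟨k1, ?_⟩)
    simp only [mem_singleton]
    rcases k with k | k
    · intro k3
      exact k2 (by rw [k, k3.1 k])
    · intro k3
      exact k2 (by rw [k, k3.2 k])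
  have cut' : ∀ e ∈ G.cut U, e ∉ G.cut {v} → e ∈ G.cut (insert v U) := by
    intro e he hn
    obtain ⟨k1, k2⟩ := mem_cut.1 he
    have k3 := nat e he hn
    have k4 : G.s e ≠ v := fun k => k3 (Or.inl k)
    have k5 : G.t e ≠ v := fun k => k3 (Or.inr k)
    refine mem_cut.2 ⟨k1, ?_⟩
    simpa only [mem_insert, k4, k5, false_or] using k2
  have ha' := cut' a ha hav
  have hb' := cut' b hb hbv
  have hP' : P ⊆ G.ins (insert v U) := h.1.trans (ins_mono hsub)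
  have natO : ∀ e ∈ insert a (insert b P), ¬ G.At e v := by
    intro e he
    rcases mem_insert.1 he with rfl | he
    · exact nat _ ha hav
    rcases mem_insert.1 he with rfl | he
    · exact nat _ hb hbv
    rintro (k | k)
    exacts [hv (k ▸ (mem_ins.1 (h.1 he)).2.1), hv (k ▸ (mem_ins.1 (h.1 he)).2.2)]
  have atv : ∀ e ∈ G.cut {v}, (G.s e = v ∧ G.t e ∈ U) ∨ (G.t e = v ∧ G.s e ∈ U) := by
    intro e he
    have k1 := (mem_cut.1 he).2
    have k2 := (mem_cut.1 (hin e he)).2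
    simp only [mem_singleton] at k1
    by_cases k : G.s e = v
    · exact Or.inl ⟨k, by by_contra k3; exact k2 (iff_of_false (k ▸ hv) k3)⟩
    · have k3 : G.t e = v := by by_contra k3; exact k1 (iff_of_false k k3)
      exact Or.inr ⟨k3, by by_contra k4; exact k2 (iff_of_false k4 (k3 ▸ hv))⟩
  have nO : ∀ e ∈ G.cut {v}, e ∉ insert a (insert b P) := fun e he k =>
    natO e k ((atv e he).elim (fun k => Or.inl k.1) fun k => Or.inr k.1)
  have hS : ∑ e ∈ G.cut {v}, (G.kap p U e * G.kap (fun _ => 0) {v} e : ZMod 3) ≠ 0 := by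
    have k1 : ∀ e ∈ G.cut {v}, (G.kap p U e * G.kap (fun _ => 0) {v} e : ZMod 3) =
        -chi (p (G.ie U e) + G.n e) := by
      intro e he
      rcases atv e he with ⟨k1, k2⟩ | ⟨k1, k2⟩
      · have k3 : G.s e ∉ U := k1 ▸ hv
        have k4 : G.t e ≠ v := fun k => hv (k ▸ k2)
        simp [kap, ie, iv, k1, k2, k4, hv, chi_add]
      · have k4 : G.s e ≠ v := fun k => hv (k ▸ k2)
        simp [kap, ie, iv, k1, k2, k4, hv, chi_add]
    rw [sum_congr rfl k1]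
    intro k
    obtain ⟨e1, e2, e3, n1, n2, n3, h3'⟩ := card_eq_three.1 h3
    have k2 : ∀ q1 q2 q3 : ZMod 2, (-chi q1 + (-chi q2 + -chi q3) : ZMod 3) = 0 →
        q2 = q1 ∧ q3 = q1 := by decide
    rw [h3', sum_insert (by simp [n1, n2]), sum_pair n3] at k
    obtain ⟨k3, k4⟩ := k2 _ _ _ k
    have k5 : ∀ e ∈ G.cut {v}, p (G.ie U e) + G.n e = p (G.ie U e1) + G.n e1 := by
      intro e he
      rw [h3'] at he
      simp only [mem_insert, mem_singleton] at he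
      rcases he with rfl | rfl | rfl
      exacts [rfl, k3, k4]
    refine hu ⟨Function.update p v (p (G.ie U e1) + G.n e1), fun e he => ?_⟩
    rcases mem_union.1 he with he | he
    · have k6 : G.s e ≠ v := fun k => hv (k ▸ (mem_ins.1 (h.1 he)).2.1)
      have k7 : G.t e ≠ v := fun k => hv (k ▸ (mem_ins.1 (h.1 he)).2.2)
      rw [sw, Function.update_of_ne k6, Function.update_of_ne k7]
      exact hp e he
    · rw [← k5 e he, sw]
      rcases atv e he with ⟨k6, k7⟩ | ⟨k6, k7⟩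
      · have k8 : G.t e ≠ v := fun k => hv (k ▸ k7)
        have k9 : G.ie U e = G.t e := if_neg (k6 ▸ hv)
        rw [Function.update_of_ne k8, k6, Function.update_self, k9]
        linear_combination z2_add_self (G.n e) + z2_add_self (p (G.t e))
      · have k8 : G.s e ≠ v := fun k => hv (k ▸ k7)
        have k9 : G.ie U e = G.s e := if_pos k7
        rw [Function.update_of_ne k8, k6, Function.update_self, k9]
        linear_combination z2_add_self (G.n e) + z2_add_self (p (G.s e))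
  have hst := (h.st ha hb hab).1
  have hcs : G.cut {v} ⊆ (G.A.erase a).erase b := fun e he =>
    mem_erase.2 ⟨fun k => hbv (k ▸ he), mem_erase.2 ⟨fun k => hav (k ▸ he), Pure_cutA he⟩⟩
  have hci : G.cut {v} ⊆ G.ins (insert v U) := fun e he => mem_ins.2 ⟨Pure_cutA he, by
    rcases atv e he with ⟨k1, k2⟩ | ⟨k1, k2⟩ <;> simp [k1, k2]⟩
  refine ⟨hab, ⟨Pure_tch hP' ha' hb', fun w hw => ?_, ?_⟩,
    Pa.mono (Fr := insert a (insert b P) ∪ G.cut {v}) ⟨union_subset (Pure_tch hP' ha' hb')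
      (hci.trans ins_sub_tch), fun ψ hψ => ?_⟩
      (union_subset (Pure_fr hP' ha' hb') (hci.trans subset_union_left)) fr_sub_tch⟩
  · rcases mem_insert.1 hw with rfl | hw
    · exact dg_of_not_mem fun k => by
        obtain ⟨e, k1, k2⟩ := mem_vs.1 k
        exact natO e k1 k2
    · exact hst.2.1 w hw
  · ext e
    simp only [mem_inter, mem_insert, mem_singleton]
    constructor
    · rintro ⟨k | k | k, k'⟩
      exacts [Or.inl k, Or.inr k, absurd (hP' k) (not_ins_of_cut k')]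
    · rintro (rfl | rfl)
      exacts [⟨Or.inl rfl, ha'⟩, ⟨Or.inr (Or.inl rfl), hb'⟩]
  · set T0 : ZMod 3 := ∑ e ∈ (G.A.erase a).erase b \ G.cut {v}, G.kap p U e * ψ e with hT0
    set S : ZMod 3 := ∑ e ∈ G.cut {v}, G.kap p U e * G.kap (fun _ => 0) {v} e with hSd
    refine ⟨_, ⟨-chi (p (G.ie U a)) * T0, fun x y k => k⟩, fun x y k => ?_⟩
    set w : ZMod 3 := chi (p (G.ie U a)) * x + chi (p (G.ie U b)) * y + T0 with hw
    have hw0 : w ≠ 0 := fun k0 => k (by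
      rw [chi_add]
      have k1 := chi_mul_self (R := ZMod 3) (p (G.ie U a))
      rw [hw] at k0
      linear_combination chi (p (G.ie U a)) * k0 - x * k1)
    have ht : -w * S ≠ 0 := mul_ne_zero (neg_ne_zero.2 hw0) hS
    obtain ⟨φ, h1, h2, h4, h5⟩ := Pure_core h ha hb hab hp
      (fun e => if e ∈ G.cut {v} then G.kap (fun _ => 0) {v} e * (-w * S) else ψ e) x y (by
        rw [← sum_sdiff hcs, sum_congr rfl (g := fun e => G.kap p U e * ψ e) fun e he => by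
          rw [if_neg (mem_sdiff.1 he).2], sum_congr rfl (s₁ := G.cut {v})
          (g := fun e => G.kap p U e * G.kap (fun _ => 0) {v} e * (-w * S)) fun e he => by
            rw [if_pos he, mul_assoc], ← sum_mul, ← hT0, ← hSd]
        linear_combination -hw - w * sol1_z3 hS)
    refine ⟨φ, ⟨fun e he => ?_, fun u hu' => ?_, fun e he hO => ?_,
      fun t ht => absurd ht (Set.notMem_empty t)⟩, ?_, ?_⟩
    · rw [mem_union, not_or] at he
      rw [h1 e he.1, if_neg he.2]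
    · rcases mem_insert.1 hu' with rfl | hu'
      · rw [bd_single φ h0, sum_congr rfl (g := fun _ => -w * S) fun e he => by
          rw [out, h1 e (nO e he), if_pos he, ← mul_assoc,
            (kap_sign (R := ZMod 3) (fun _ => 0) he).2, one_mul], sum_const, h3, nsmul_eq_mul]
        exact mul_eq_zero_of_left rfl _
      · exact h2 u hu'
    · rw [h1 e hO]
      split_ifs with k1
      · exact mul_ne_zero (sol1_kap_cut (mem_cut.1 k1).2) ht
      · exact hψ e he (by rw [mem_union, not_or]; exact ⟨hO, k1⟩) hO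
    · rw [← out_sub φ hsub ha' (cut_sub_tch ha), h4]
    · rw [← out_sub φ hsub hb' (cut_sub_tch hb), h5]

/-- an odd circuit closes for all given values -/
theorem pure_odd (hA : C ⊆ G.A) (hC : G.Cc C) (ho : G.par C = 1) :
    G.St (G.vs C) C ∅ ∧ (G.Ab (G.vs C) C C ∅ fun _ => True) ∧ G.Abs0 (G.vs C) C L ∅ := by
  have hi := sub_ins_vs hA
  have h1 := st_of_ev hi hC.2.1
  have h2 : G.Ab (G.vs C) C C ∅ fun _ => True := by
    refine ⟨hi.trans ins_sub_tch, fun ψ hψ _ => ?_⟩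
    obtain ⟨φ, k1, k2⟩ := ext3 hi hC.2.2 ψ (Or.inl (hC.not_bal ho Subset.rfl))
    exact ⟨φ, k1, k2, fun e he hO => by rw [k1 e hO]; exact hψ e he hO hO,
      fun t ht => absurd ht (Set.notMem_empty t)⟩
  exact ⟨h1, h2, h1, h2.mono (hi.trans subset_union_left) fr_sub_tch⟩

/-- a circuit with two live edges closes for all given values -/
theorem pure_uu (hA : C ⊆ G.A) (hC : G.Cc C) (hc : G.Cub) (h1 : g1 ∈ G.cut (G.vs C)) (l1 : g1 ∈ L)
    (h2 : g2 ∈ G.cut (G.vs C)) (l2 : g2 ∈ L) (hne : g1 ≠ g2) : G.Abs0 (G.vs C) C L ∅ := by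
  have hi := sub_ins_vs hA
  refine ⟨st_of_ev hi hC.2.1, Ab.mono (Fr := insert g1 (insert g2 C))
    ⟨Pure_tch hi h1 h2, fun ψ hψ _ => ?_⟩
    (insert_subset (mem_union_right _ (mem_inter.2 ⟨h1, l1⟩))
      (insert_subset (mem_union_right _ (mem_inter.2 ⟨h2, l2⟩)) (hi.trans subset_union_left)))
    fr_sub_tch⟩
  have key : ∃ u1 u2 : ZMod 3, u1 ≠ 0 ∧ u2 ≠ 0 ∧ (¬ G.Bal C ∨ ∃ p, (∀ e ∈ C, G.sw p e = 0) ∧
      ∑ e ∈ G.A, G.kap p (G.vs C) e * Function.update (Function.update ψ g1 u1) g2 u2 e = 0) := by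
    by_cases hB : G.Bal C
    · obtain ⟨p, hp⟩ := hB
      obtain ⟨u1, u2, k1, k2, k3⟩ := Pure_two3
        (∑ e ∈ (G.A.erase g1).erase g2, G.kap p (G.vs C) e * ψ e) _ _
        (sol1_kap_cut (p := p) (mem_cut.1 h1).2) (sol1_kap_cut (p := p) (mem_cut.1 h2).2)
      refine ⟨u1, u2, k1, k2, Or.inr ⟨p, hp, ?_⟩⟩
      rw [Pure_upd _ _ _ (Pure_cutA h1) (Pure_cutA h2) hne, add_comm, k3]
    · exact ⟨1, 1, one_ne_zero, one_ne_zero, Or.inl hB⟩
  obtain ⟨u1, u2, k1, k2, k3⟩ := key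
  obtain ⟨φ, k4, k5⟩ := ext3 hi hC.2.2 _ k3
  refine ⟨φ, fun e he => ?_, k5, fun e he hO => ?_, fun t ht => absurd ht (Set.notMem_empty t)⟩
  · simp only [mem_insert, not_or] at he
    rw [k4 e he.2.2, Function.update_of_ne he.2.1, Function.update_of_ne he.1]
  · rw [k4 e hO]
    by_cases e2 : e = g2
    · rwa [e2, Function.update_self]
    rw [Function.update_of_ne e2]
    by_cases e1 : e = g1
    · rwa [e1, Function.update_self]
    rw [Function.update_of_ne e1]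
    exact hψ e he (by simp [e1, e2, hO]) hO

/-- Two paths and two chords of different signs.
HINT: `pure_pc` for both paths with all chords frozen; the values of `g1, g2` range over `±1`;
the two constants move by `(h1 + h2, ±(h1 - h2))`. -/
theorem pure_dbl (hd : Disjoint U1 U2) (h1 : G.Pp U1 P1 (G.ie U1 a) (G.ie U1 c))
    (h2 : G.Pp U2 P2 (G.ie U2 b) (G.ie U2 d)) (ha : a ∈ G.cut U1 ∧ a ∉ G.tch U2)
    (hc : c ∈ G.cut U1 ∧ c ∉ G.tch U2) (hb : b ∈ G.cut U2 ∧ b ∉ G.tch U1)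
    (hd' : d ∈ G.cut U2 ∧ d ∉ G.tch U1) (hac : a ≠ c) (hbd : b ≠ d)
    (hp : ∀ e ∈ P1 ∪ P2, G.sw p e = 0) (c1 : g1 ∈ G.cut U1 ∧ g1 ∈ G.cut U2)
    (c2 : g2 ∈ G.cut U1 ∧ g2 ∈ G.cut U2) (hs : G.sw p g1 ≠ G.sw p g2) :
    G.Dbl (U1 ∪ U2) ({a, b, c, d} ∪ (P1 ∪ P2)) a b c d ∧
      ({a, b, c, d} ∪ (P1 ∪ P2)) ∩ G.ins (U1 ∪ U2) = P1 ∪ P2 := by
  have hp1 : ∀ e ∈ P1, G.sw p e = 0 := fun e he => hp e (mem_union_left _ he)
  have hp2 : ∀ e ∈ P2, G.sw p e = 0 := fun e he => hp e (mem_union_right _ he)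
  have hne : g1 ≠ g2 := fun k => hs (by rw [k])
  have n1 : ∀ e ∈ insert a (insert c P1), e ∉ G.tch U2 := by
    intro e he
    rcases mem_insert.1 he with rfl | he
    · exact ha.2
    rcases mem_insert.1 he with rfl | he
    · exact hc.2
    exact fun k => (mem_tch.1 k).2.elim (disjoint_left.1 hd (mem_ins.1 (h1.1 he)).2.1)
      (disjoint_left.1 hd (mem_ins.1 (h1.1 he)).2.2)
  have n2 : ∀ e ∈ insert b (insert d P2), e ∉ G.tch U1 := by
    intro e he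
    rcases mem_insert.1 he with rfl | he
    · exact hb.2
    rcases mem_insert.1 he with rfl | he
    · exact hd'.2
    exact fun k => (mem_tch.1 k).2.elim (disjoint_right.1 hd (mem_ins.1 (h2.1 he)).2.1)
      (disjoint_right.1 hd (mem_ins.1 (h2.1 he)).2.2)
  have cu1 : ∀ e, e ∈ G.cut U1 ∧ e ∉ G.tch U2 → e ∈ G.cut (U1 ∪ U2) := fun e he =>
    Pure_cu he.1 he.2
  have cu2 : ∀ e, e ∈ G.cut U2 ∧ e ∉ G.tch U1 → e ∈ G.cut (U1 ∪ U2) := fun e he =>
    union_comm U2 U1 ▸ Pure_cu he.1 he.2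
  have hO : ∀ e, e ∈ ({a, b, c, d} ∪ (P1 ∪ P2) : Finset E) ↔
      e ∈ insert a (insert c P1) ∨ e ∈ insert b (insert d P2) := by
    intro e
    simp only [mem_union, mem_insert, mem_singleton, or_assoc, or_left_comm]
  have hPi : P1 ∪ P2 ⊆ G.ins (U1 ∪ U2) :=
    union_subset (h1.1.trans (ins_mono subset_union_left)) (h2.1.trans (ins_mono subset_union_right))
  have hJ : ({a, b, c, d} : Finset E) ⊆ G.cut (U1 ∪ U2) := by
    intro e he
    simp only [mem_insert, mem_singleton] at he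
    rcases he with rfl | rfl | rfl | rfl
    exacts [cu1 _ ha, cu2 _ hb, cu1 _ hc, cu2 _ hd']
  have s1 := (h1.st ha.1 hc.1 hac).1
  have s2 := (h2.st hb.1 hd'.1 hbd).1
  have gi : ∀ g, g ∈ G.cut U1 ∧ g ∈ G.cut U2 → g ∈ G.ins (U1 ∪ U2) ∧
      g ∉ insert a (insert c P1) ∧ g ∉ insert b (insert d P2) ∧
      g ∈ (G.A.erase a).erase c ∧ g ∈ (G.A.erase b).erase d ∧
      (G.kap p U2 g : ZMod 3) = -chi (G.sw p g) * G.kap p U1 g := by
    intro g hg
    have k1 : g ∉ insert a (insert c P1) := fun k => n1 g k (cut_sub_tch hg.2)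
    have k2 : g ∉ insert b (insert d P2) := fun k => n2 g k (cut_sub_tch hg.1)
    refine ⟨(ie_link hd hg.1 hg.2).2, k1, k2, ?_, ?_, ?_⟩
    · simp only [mem_insert, not_or] at k1
      exact mem_erase.2 ⟨k1.2.1, mem_erase.2 ⟨k1.1, Pure_cutA hg.1⟩⟩
    · simp only [mem_insert, not_or] at k2
      exact mem_erase.2 ⟨k2.2.1, mem_erase.2 ⟨k2.1, Pure_cutA hg.1⟩⟩
    · have k3 := (mem_cut.1 hg.1).2
      have k4 := (mem_cut.1 hg.2).2
      have q1 := chi_mul_self (R := ZMod 3) (p (G.s g))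
      have q2 := chi_mul_self (R := ZMod 3) (p (G.t g))
      have q3 := chi_mul_self (R := ZMod 3) (G.n g)
      by_cases k5 : G.s g ∈ U1
      · have k6 : G.s g ∉ U2 := disjoint_left.1 hd k5
        have k7 : G.t g ∉ U1 := fun k => k3 (iff_of_true k5 k)
        have k8 : G.t g ∈ U2 := by by_contra k; exact k4 (iff_of_false k6 k)
        simp only [kap, iv, k5, k6, k7, k8, if_true, if_false, sw, chi_add]
        linear_combination (chi (G.n g) * chi (p (G.t g)) : ZMod 3) * q1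
      · have k7 : G.t g ∈ U1 := by by_contra k; exact k3 (iff_of_false k5 k)
        have k8 : G.t g ∉ U2 := disjoint_left.1 hd k7
        have k6 : G.s g ∈ U2 := by by_contra k; exact k4 (iff_of_false k k8)
        simp only [kap, iv, k5, k6, k7, k8, if_true, if_false, sw, chi_add]
        linear_combination (-chi (p (G.s g)) * (chi (G.n g) * chi (G.n g)) : ZMod 3) * q2 -
          chi (p (G.s g)) * q3
  obtain ⟨i1, i2, i3, i4, i5, i6⟩ := gi g1 c1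
  obtain ⟨j1, j2, j3, j4, j5, j6⟩ := gi g2 c2
  refine ⟨⟨⟨union_subset (hJ.trans cut_sub_tch) (hPi.trans ins_sub_tch), fun w hw => ?_, ?_⟩,
    Pa.mono (Fr := insert g1 (insert g2 (insert a (insert b (P1 ∪ P2)))))
      ⟨insert_subset (ins_sub_tch i1) (insert_subset (ins_sub_tch j1)
        (Pure_tch hPi (cu1 _ ha) (cu2 _ hb))), fun ψ hψ => ?_⟩
      (insert_subset (mem_union_left _ i1) (insert_subset (mem_union_left _ j1)
        (insert_subset (mem_union_right _ (mem_inter.2 ⟨cu1 _ ha, by simp⟩))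
          (insert_subset (mem_union_right _ (mem_inter.2 ⟨cu2 _ hb, by simp⟩))
            (hPi.trans subset_union_left))))) fr_sub_tch⟩, ?_⟩
  · have k : ({a, b, c, d} ∪ (P1 ∪ P2) : Finset E) =
        insert a (insert c P1) ∪ insert b (insert d P2) := by
      ext e
      rw [hO, mem_union]
    have kd : Disjoint (insert a (insert c P1)) (insert b (insert d P2)) :=
      disjoint_left.2 fun e k1 k2 => n1 e k1 (s2.1 k2)
    rw [k, dg_union kd]
    rcases mem_union.1 hw with hw | hw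
    · rw [s1.2.1 w hw, zero_add]
      refine dg_of_not_mem fun k => ?_
      obtain ⟨e, k1, k2⟩ := mem_vs.1 k
      exact n2 e k1 (sol1_at_tch (mem_tch.1 (s2.1 k1)).1 hw k2)
    · rw [s2.2.1 w hw, add_zero]
      refine dg_of_not_mem fun k => ?_
      obtain ⟨e, k1, k2⟩ := mem_vs.1 k
      exact n1 e k1 (sol1_at_tch (mem_tch.1 (s1.1 k1)).1 hw k2)
  · ext e
    rw [mem_inter, mem_union]
    exact ⟨fun k => k.1.resolve_right fun k1 => not_ins_of_cut k.2 (hPi k1),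
      fun k => ⟨Or.inl k, hJ k⟩⟩
  · set T1 : ZMod 3 := chi (p (G.ie U1 c)) * G.out U1 ψ c +
      ∑ e ∈ (((G.A.erase a).erase c).erase g1).erase g2, G.kap p U1 e * ψ e with hT1
    set T2 : ZMod 3 := chi (p (G.ie U2 d)) * G.out U2 ψ d +
      ∑ e ∈ (((G.A.erase b).erase d).erase g1).erase g2, G.kap p U2 e * ψ e with hT2
    have q : ∀ α T x : ZMod 3, α ≠ 0 → (x = -α * T ↔ α * x + T = 0) := by decide
    refine ⟨fun x y => chi (p (G.ie U1 a)) * x + T1 = 0 ↔ chi (p (G.ie U2 b)) * y + T2 ≠ 0,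
      ⟨-chi (p (G.ie U1 a)) * T1, -chi (p (G.ie U2 b)) * T2, fun x y k => ?_⟩, fun x y k => ?_⟩
    · rwa [Ne, q _ _ _ (sol1_chi_ne _), q _ _ _ (sol1_chi_ne _)] at k
    have q2 : ∀ (w1 w2 : ZMod 2) (X Y k1 k2 : ZMod 3), w1 ≠ w2 → k1 ≠ 0 → k2 ≠ 0 →
        (X = 0 ↔ Y ≠ 0) → ∃ u1 u2 : ZMod 3, u1 ≠ 0 ∧ u2 ≠ 0 ∧ X + (k1 * u1 + k2 * u2) = 0 ∧
          Y + (-chi w1 * k1 * u1 + -chi w2 * k2 * u2) = 0 := by decide
    obtain ⟨u1, u2, z1, z2', e1, e2⟩ := q2 _ _ _ _ _ _ hs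
      (sol1_kap_cut (p := p) (mem_cut.1 c1.1).2) (sol1_kap_cut (p := p) (mem_cut.1 c2.1).2) k
    obtain ⟨φ1, a1, a2, a3, a4⟩ := Pure_core h1 ha.1 hc.1 hac hp1
      (Function.update (Function.update ψ g1 u1) g2 u2) x (G.out U1 ψ c) (by
        rw [Pure_upd _ _ _ i4 j4 hne]
        linear_combination e1 - hT1)
    obtain ⟨φ2, b1, b2, b3, b4⟩ := Pure_core h2 hb.1 hd'.1 hbd hp2 φ1 y (G.out U2 ψ d) (by
      rw [sum_congr rfl
        (g := fun e => G.kap p U2 e * Function.update (Function.update ψ g1 u1) g2 u2 e)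
        fun e he => by
          by_cases k1 : e ∈ insert a (insert c P1)
          · rw [Pure_kap0 (mem_of_mem_erase (mem_of_mem_erase he)) (n1 e k1), zero_mul, zero_mul]
          · rw [a1 e k1], Pure_upd _ _ _ i5 j5 hne, i6, j6]
      linear_combination e2 - hT2)
    have m1 : ∀ e ∈ G.tch U1, φ2 e = φ1 e := fun e he => b1 e fun k => n2 e k he
    have mc : φ2 c = ψ c := by
      rw [m1 c (cut_sub_tch hc.1)]
      exact out_inj hc.1 a4
    have md : φ2 d = ψ d := out_inj hd'.1 b4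
    refine ⟨φ2, ⟨fun e he => ?_, fun w hw => ?_, fun e he hn => ?_,
      fun t ht => absurd ht (Set.notMem_empty t)⟩, ?_, ?_⟩
    · by_cases ec : e = c
      · rw [ec, mc]
      by_cases ed : e = d
      · rw [ed, md]
      simp only [mem_insert, mem_union, not_or] at he
      rw [b1 e (by simp [he, ed]), a1 e (by simp [he, ec]), Function.update_of_ne he.2.1,
        Function.update_of_ne he.1]
    · rcases mem_union.1 hw with hw | hw
      · rw [← a2 w hw]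
        exact bd_congr fun e he k => m1 e (sol1_at_tch he hw k)
      · exact b2 w hw
    · have hn' := hn
      rw [hO, not_or] at hn'
      rw [b1 e hn'.2, a1 e hn'.1]
      by_cases e2 : e = g2
      · rwa [e2, Function.update_self]
      rw [Function.update_of_ne e2]
      by_cases e1 : e = g1
      · rwa [e1, Function.update_self]
      rw [Function.update_of_ne e1]
      refine hψ e he ?_ hn
      simp only [mem_insert, mem_union, not_or] at hn' ⊢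
      exact ⟨e1, e2, hn'.1.1, hn'.2.1, hn'.1.2.2, hn'.2.2.2⟩
    · rw [← out_sub φ2 subset_union_left (cu1 _ ha) (cut_sub_tch ha.1), out,
        m1 a (cut_sub_tch ha.1)]
      exact a3
    · rw [← out_sub φ2 subset_union_right (cu2 _ hb) (cut_sub_tch hb.1), b3]
  · ext e
    rw [mem_inter, mem_union]
    exact ⟨fun k => k.1.resolve_left fun k1 => not_ins_of_cut (hJ k1) k.2,
      fun k => ⟨Or.inr k, hPi k⟩⟩

/-- a path with two free signs absorbs all values on its two end edges -/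
theorem pure_two (h : G.Pp U P (G.ie U a) (G.ie U b)) (ha : a ∈ G.cut U) (hb : b ∈ G.cut U)
    (hab : a ≠ b) (hp : ∀ e ∈ P, G.sw p e = 0) (hne : g1 ≠ g2)
    (h1 : (g1 ∈ G.ins U ∧ G.sw p g1 = 1) ∨ (g1 ∈ G.cut U ∧ g1 ∈ L ∧ g1 ≠ a ∧ g1 ≠ b))
    (h2 : (g2 ∈ G.ins U ∧ G.sw p g2 = 1) ∨ (g2 ∈ G.cut U ∧ g2 ∈ L ∧ g2 ≠ a ∧ g2 ≠ b)) :
    G.Pas0 U (insert a (insert b P)) a b L ∅ fun R => ∀ x y, R x y := by
  obtain ⟨i1, i2, i3, i4⟩ := Pure_free h.1 ha hb hp h1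
  obtain ⟨j1, j2, j3, j4⟩ := Pure_free h.1 ha hb hp h2
  have hf := insert_subset i3 (insert_subset j3 (Pure_fr (L := L) h.1 ha hb))
  refine ⟨hab, (h.st ha hb hab).1, Pa.mono ⟨hf.trans fr_sub_tch, fun ψ hψ =>
    ⟨fun _ _ => True, fun _ _ => trivial, fun x y _ => ?_⟩⟩ hf fr_sub_tch⟩
  obtain ⟨u1, u2, k1, k2, k3⟩ := Pure_two3 (chi (p (G.ie U a)) * x + chi (p (G.ie U b)) * y +
    ∑ e ∈ (((G.A.erase a).erase b).erase g1).erase g2, G.kap p U e * ψ e) _ _ i4 j4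
  obtain ⟨φ, a1, a2, a3, a4⟩ := Pure_core h ha hb hab hp
    (Function.update (Function.update ψ g1 u1) g2 u2) x y (by
      rw [Pure_upd _ _ _ i1 j1 hne]
      linear_combination k3)
  refine ⟨φ, ⟨fun e he => ?_, a2, fun e he hO => ?_,
    fun t ht => absurd ht (Set.notMem_empty t)⟩, a3, a4⟩
  · rw [mem_insert, mem_insert, not_or, not_or] at he
    rw [a1 e he.2.2, Function.update_of_ne he.2.1, Function.update_of_ne he.1]
  · rw [a1 e hO]
    by_cases e2 : e = g2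
    · rwa [e2, Function.update_self]
    rw [Function.update_of_ne e2]
    by_cases e1 : e = g1
    · rwa [e1, Function.update_self]
    rw [Function.update_of_ne e1]
    refine hψ e he ?_ hO
    rw [mem_insert, mem_insert, not_or, not_or]
    exact ⟨e1, e2, hO⟩

end SG

end Pool.Agent.Work.MP_8c679b_co
end

-- merged part: Pool.Agent.Work.MP_8c679b_co.Six.Node
section
/-!
Passes of single nodes: vertices, rungs, digons, four-cycles, and the default pass.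
-/

set_option autoImplicit false

namespace Pool.Agent.Work.MP_8c679b_co

open Finset

namespace SG

variable {V E : Type} [Fintype V] [DecidableEq V] [DecidableEq E] {G : SG V E}
  {T W N S ρ : Finset V} {J L O : Finset E} {a b c d g : E} {v : V}
  {Bs Ds : Finset (Finset V)} {Fm : Set (Finset V)}

theorem Node_sw {p : V → ZMod 2} {x y : V} (h : G.Je g x y) : G.sw p g = G.n g + p x + p y := by
  rcases h with ⟨rfl, rfl⟩ | ⟨rfl, rfl⟩
  · rfl
  · exact add_right_comm _ _ _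

theorem Node_kap {p : V → ZMod 2} (hA : g ∈ G.A) (h : g ∉ G.tch S) : (G.kap p S g : ZMod 3) = 0 :=
  kap_out (fun x => h (mem_tch.2 ⟨hA, Or.inl x⟩)) fun x => h (mem_tch.2 ⟨hA, Or.inr x⟩)

theorem Node_chord {p : V → ZMod 2} (h : g ∈ G.ins S) (hp : G.sw p g = 1) :
    (G.kap p S g : ZMod 3) ≠ 0 := by
  rw [kap_ins (mem_ins.1 h).2.1 (mem_ins.1 h).2.2, hp, chi_one]
  exact mul_ne_zero (Sol_chi_ne _) (by decide)

theorem Node_sum {p : V → ZMod 2} {ψ : E → ZMod 3} {F : Finset E}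
    (h : F ⊆ (G.A.erase a).erase b)
    (h' : ∀ e ∈ G.tch S, e ≠ a → e ≠ b → e ∉ F → (G.kap p S e : ZMod 3) = 0) :
    ∑ e ∈ (G.A.erase a).erase b, G.kap p S e * ψ e = ∑ e ∈ F, G.kap p S e * ψ e := by
  refine (sum_subset h fun e he hF => ?_).symm
  simp only [mem_erase] at he
  by_cases t : e ∈ G.tch S
  · rw [h' e t he.2.1 he.1 hF, zero_mul]
  · rw [Node_kap he.2.2 t, zero_mul]

theorem Node_pp (ha : a ∈ G.cut {v}) (hb : b ∈ G.cut {v}) :
    G.Pp {v} ∅ (G.ie {v} a) (G.ie {v} b) := by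
  rw [mem_singleton.1 (ie_mem (cut_sub_tch ha)), mem_singleton.1 (ie_mem (cut_sub_tch hb))]
  exact pp_single v

theorem Node_edge {x y : V} (hA : g ∈ G.A) (h : G.Je g x y) : G.Pp {x, y} {g} x y := by
  have h1 : ∀ z ∈ ({x, y} : Finset V), G.At g z := by
    rcases h with ⟨rfl, rfl⟩ | ⟨rfl, rfl⟩ <;> simp [At]
  refine ⟨?_, fun u hu w hw => rch_at (mem_singleton_self g) (h1 u hu) (h1 w hw), od_edge h,
    by simp, by simp⟩
  rcases h with ⟨rfl, rfl⟩ | ⟨rfl, rfl⟩ <;> simp [mem_ins, hA]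

theorem Node_cut {x y : V} (hA : g ∈ G.A) (h : G.Je g x y) (hx : x ∈ S) (hy : y ∉ S) :
    g ∈ G.cut S ∧ G.ie S g = x := by
  rcases h with ⟨rfl, rfl⟩ | ⟨rfl, rfl⟩ <;> simp [mem_cut, ie, hA, hx, hy]

/-- a zero on the entry edge or on the exit edge hits a target that contains both -/
theorem Node_hit {C C' : Rl → Prop} {t : Finset E} (h : G.Pas0 S O a b L ∅ C) (ha : a ∈ t)
    (hb : b ∈ t) (hC : ∀ R, C R → C' fun x y => R x y ∧ (x = 0 ∨ y = 0)) :
    G.Pas0 S O a b L {t} C' := by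
  obtain ⟨ca, cb, -⟩ := h.cut
  refine ⟨h.1, h.2.1, h.2.2.1, fun ψ hψ => ?_⟩
  obtain ⟨R, r, hR⟩ := h.2.2.2 ψ hψ
  refine ⟨_, hC R r, fun x y ⟨r1, r2⟩ => ?_⟩
  obtain ⟨φ, ⟨f1, f2, f3, -⟩, rfl, rfl⟩ := hR x y r1
  refine ⟨φ, ⟨f1, f2, f3, fun t' ht => ?_⟩, rfl, rfl⟩
  rw [Set.mem_singleton_iff.1 ht]
  rcases r2 with e | e
  · exact ⟨a, ha, cut_sub_tch ca, Or.inr (by_contra fun x => (out_ne ca).2 x e)⟩
  · exact ⟨b, hb, cut_sub_tch cb, Or.inr (by_contra fun x => (out_ne cb).2 x e)⟩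

theorem Node_in (hN : N ⊆ S) (hg : g ∈ G.cut S) :
    (G.ie S g ∈ N → g ∈ G.cut N ∧ G.ie N g = G.ie S g) ∧ (G.ie S g ∉ N → g ∉ G.tch N) :=
  ⟨fun h => cut_of_sub hN hg (sol1_at_tch (mem_cut.1 hg).1 h ie_at),
    fun h t => h ((cut_of_sub hN hg t).2 ▸ ie_mem t)⟩

theorem Node_q (hc : G.Cub) (hT : G.HT T) (hS : S ⊆ T) (hu : G.US S) (hq : G.Q4 S a b c d)
    (hd : G.Qd S a b) : ∃ x y z w e1 e2 e3 e4, G.ie S a = x ∧ G.ie S b = y ∧ G.ie S c = z ∧
      G.ie S d = w ∧ x ≠ y ∧ x ≠ z ∧ x ≠ w ∧ y ≠ z ∧ y ≠ w ∧ z ≠ w ∧ S = {x, y, z, w} ∧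
      G.ins S = {e1, e2, e3, e4} ∧ G.Je e1 x z ∧ G.Je e2 z y ∧ G.Je e3 y w ∧ G.Je e4 w x ∧
      G.n e1 + G.n e2 + G.n e3 + G.n e4 = 1 := by
  obtain ⟨e1, e2, e3, e4, hi, hS', j1, j2, j3, j4, hn⟩ := hT.qst hc hS hq hd
  obtain ⟨ha, hb, hc', hd'⟩ := hq.mem
  obtain ⟨-, q1, q2, q3, q4, q5, q6⟩ := hq
  have dv : ∀ e ∈ G.cut S, ∀ f ∈ G.cut S, e ≠ f → G.ie S e ≠ G.ie S f := fun e he f hf x =>
    hT.f2 hc hS hu.1 (by rw [hd.1]; decide) he hf x
  exact ⟨_, _, _, _, e1, e2, e3, e4, rfl, rfl, rfl, rfl, dv a ha b hb q1, dv a ha c hc' q2,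
    dv a ha d hd' q3, dv b hb c hc' q4, dv b hb d hd' q5, dv c hc' d hd' q6, hS', hi, j1, j2, j3,
    j4, hn hu⟩

theorem Node_dg (hc : G.Cub) (hN : G.Dg N) (hab : G.cut N = {a, b}) (σ : ZMod 2) :
    ∃ u w e g, u ≠ w ∧ N = {u, w} ∧ G.ins N = {e, g} ∧ G.Je e u w ∧ G.Je g u w ∧ G.n e = σ ∧
      G.n g = σ + 1 ∧ a ≠ b ∧ G.ie N a = u ∧ G.ie N b = w := by
  obtain ⟨u, w, e1, e2, a', b', huw, hN', hi, j1, j2, n1, n2, hab', hne, i1, i2⟩ := hN.str hc
  have h1 : ∃ e g, G.ins N = {e, g} ∧ G.Je e u w ∧ G.Je g u w ∧ G.n e = σ ∧ G.n g = σ + 1 := by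
    rcases z2 σ with rfl | rfl
    · exact ⟨e1, e2, hi, j1, j2, n1, n2⟩
    · exact ⟨e2, e1, hi.trans (pair_comm _ _), j2, j1, n2, n1⟩
  obtain ⟨e, g, h1, h2, h3, h4, h5⟩ := h1
  have h6 : ({a, b} : Set E) = {a', b'} := by rw [← coe_pair, ← hab, hab', coe_pair]
  rcases Set.pair_eq_pair_iff.1 h6 with ⟨rfl, rfl⟩ | ⟨rfl, rfl⟩
  · exact ⟨u, w, e, g, huw, hN', h1, h2, h3, h4, h5, hne, i1, i2⟩
  · exact ⟨w, u, e, g, huw.symm, hN'.trans (pair_comm _ _), h1, h2.symm, h3.symm, h4, h5,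
      hne.symm, i2, i1⟩

theorem Node_dgc (hc : G.Cub) (hN : G.Dg N) (hab : G.cut N = {a, b}) (σ : ZMod 2) :
    ∃ O, G.St N O {a, b} ∧ a ≠ b ∧ ∀ (ψ : E → ZMod 3) x y, x + chi σ * y ≠ 0 →
      ∃ φ, (∀ e, e ∉ G.tch N → φ e = ψ e) ∧ G.Sl N O ∅ φ ∧ G.out N φ a = x ∧ G.out N φ b = y := by
  obtain ⟨u, w, e, g, huw, hN', hi, j1, j2, n1, n2, hne, i1, i2⟩ := Node_dg hc hN hab σ
  obtain ⟨ha, hb⟩ : a ∈ G.cut N ∧ b ∈ G.cut N := by simp [hab]
  obtain ⟨he, hg⟩ : e ∈ G.ins N ∧ g ∈ G.ins N := by simp [hi]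
  have hp : G.Pp N {e} (G.ie N a) (G.ie N b) := by
    rw [i1, i2, hN']
    exact Node_edge (ins_sub_A he) j1
  refine ⟨_, (hp.st ha hb hne).1, hne, fun ψ x y hxy => ?_⟩
  obtain ⟨p, p1, p2⟩ : ∃ p : V → ZMod 2, p u = σ ∧ p w = 0 :=
    ⟨fun x => if x = u then σ else 0, by simp, by simp [huw.symm]⟩
  have s1 : G.sw p e = 0 := by rw [Node_sw j1, n1, p1, p2, z2_add_self, add_zero]
  have s2 : G.sw p g = 1 := by
    rw [Node_sw j2, n2, p1, p2, add_right_comm σ, z2_add_self, zero_add, add_zero]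
  obtain ⟨hF, h⟩ := pure_pc (p := p) hp ha hb hne (by simpa using s1)
  have k := Node_chord hg s2
  have ht : ∀ f ∈ G.tch N, f ≠ a → f ≠ b → f = e ∨ f = g := fun f hf f1 f2 => by
    simpa [mem_tch_iff, hi, hab, f1, f2] using hf
  obtain ⟨R, r, hR⟩ := h (Function.update ψ g (-chi σ * G.kap p N g * (x + chi σ * y)))
    fun f hf hO _ => by
      simp only [mem_insert, mem_singleton, not_or] at hO
      rw [(ht f hf hO.1 hO.2.1).resolve_left hO.2.2, Function.update_self]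
      exact mul_ne_zero (mul_ne_zero (neg_ne_zero.2 (Sol_chi_ne _)) k) hxy
  have g1 : g ≠ a := fun x => not_ins_of_cut ha (x ▸ hg)
  have g2 : g ≠ b := fun x => not_ins_of_cut hb (x ▸ hg)
  rw [Node_sum (F := {g}) (by simp [ins_sub_A hg, g1, g2]) fun f hf f1 f2 f3 => by
      rw [(ht f hf f1 f2).resolve_right (by simpa using f3)]
      exact sol1_kap_zero he s1, sum_singleton, Function.update_self, i1, i2, p1, p2,
    add_zero] at r
  obtain ⟨φ, ⟨f1, f2⟩, f3⟩ := hR x y (r x y (by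
    linear_combination -(x + chi σ * y) * (chi σ * chi σ) * sol1_z3 k -
      (x + chi σ * y) * chi_mul_self (R := ZMod 3) σ))
  refine ⟨φ, fun f hf => ?_, f2, f3⟩
  rw [f1 f fun x => hf (hF x), Function.update_of_ne fun x : f = g => hf (x ▸ ins_sub_tch hg)]

theorem Node_dgp (hc : G.Cub) (hN : G.Dg N) (hab : G.cut N = {a, b}) (σ : ZMod 2) :
    ∃ O, G.Pas0 N O a b L ∅ fun R => ∀ x y, x + chi σ * y ≠ 0 → R x y := by
  obtain ⟨O, h1, h2, h3⟩ := Node_dgc hc hN hab σ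
  refine ⟨O, h2, h1, fr_sub_tch, fun ψ _ => ⟨_, fun x y h => h, fun x y h => ?_⟩⟩
  obtain ⟨φ, f1, f2, f3⟩ := h3 ψ x y h
  refine ⟨φ, ⟨fun e he => f1 e fun t => he ?_, f2⟩, f3⟩
  rcases mem_tch_iff.1 t with t | t
  · exact mem_union_left _ t
  · refine mem_union_right _ (mem_inter.2 ⟨t, ?_⟩)
    rw [hab, mem_insert, mem_singleton] at t
    simp only [mem_insert]
    tauto

theorem vtx_pc (h0 : G.ins {v} = ∅) (h : G.Q3 {v} a b g) :
    G.St {v} {a, b} {a, b} ∧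
      G.Pa {v} {a, b} {a, b} ∅ a b fun ψ R => R.PC 0 (-(G.out {v} ψ g)) := by
  obtain ⟨h1, h2, h3, h4⟩ := h
  obtain ⟨ha, hb, hg⟩ : a ∈ G.cut {v} ∧ b ∈ G.cut {v} ∧ g ∈ G.cut {v} := by simp [h1]
  have hp := Node_pp ha hb
  refine ⟨by simpa using (hp.st ha hb h2).1, ?_⟩
  have := pure_pc (p := fun _ => 0) hp ha hb h2 (by simp)
  rw [insert_empty_eq] at this
  refine this.imp fun ψ R _ hR => ⟨R, ?_, fun _ _ r => r⟩
  rw [Node_sum (F := {g}) (by simp [h3.symm, h4.symm, (mem_cut.1 hg).1]) fun e he e1 e2 e3 => by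
    simp [mem_tch_iff, h0, h1, e1, e2] at he e3
    exact (e3 he).elim] at hR
  simpa [out] using hR

theorem vtx_p (h0 : G.ins {v} = ∅) (h : G.Q3 {v} a b g) :
    G.Pas0 {v} {a, b} a b L ∅ fun R => R.P 0 ∧ (g ∈ L → R.U 0) := by
  obtain ⟨h1, h2, h3, h4⟩ := h
  obtain ⟨ha, hb, hg⟩ : a ∈ G.cut {v} ∧ b ∈ G.cut {v} ∧ g ∈ G.cut {v} := by simp [h1]
  have hp := Node_pp ha hb
  by_cases l : g ∈ L
  · have := pure_u (p := fun _ => 0) (L := L) hp ha hb h2 (by simp)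
      (Or.inr ⟨hg, l, h3.symm, h4.symm⟩)
    rw [insert_empty_eq, add_zero] at this
    exact this.imp fun R r => ⟨r.p, fun _ => r⟩
  · have := pure_p (p := fun _ => 0) (L := L) hp ha hb h2 (by simp)
    rw [insert_empty_eq, add_zero] at this
    exact this.imp fun R r => ⟨r, fun l' => (l l').elim⟩

theorem vtx_abs (h0 : G.ins {v} = ∅) (h : (G.cut {v}).card = 3) :
    G.Abs0 {v} ∅ (G.cut {v}) ∅ := by
  have h1 : ∀ e ∈ G.cut {v}, G.out {v} (G.kap (fun _ => 0) {v}) e = (1 : ZMod 3) := fun e he =>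
    (kap_sign (fun _ => 0) he).2
  refine abs0_of_sl (φ := G.kap (fun _ => 0) {v}) (st_of_ev (empty_subset _) ev_empty)
    ⟨fun x hx => ?_, fun e he _ => ?_, by simp⟩
  · rw [mem_singleton.1 hx, bd_single _ h0, sum_congr rfl h1, sum_const, h]
    decide
  · rw [mem_tch_iff, h0] at he
    have he' := he.resolve_left (notMem_empty e)
    rw [← out_ne he', h1 e he']
    exact one_ne_zero

/-- a rung with two live edges realises every pair; with a zero on an end edge: class `Cs` -/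
theorem rung_cs (hc : G.Cub) (hT : G.HT T) (hW : W ⊆ T) (h : G.Rdy W J ρ) (ha : a ∈ G.tg W ρ)
    (hb : b ∈ G.tg W ρ) (hab : a ≠ b) (hL : ∀ e ∈ G.cut ρ, e ∈ G.cut W → e ∈ L) :
    G.Pas0 ρ (insert a (insert b (G.ins ρ))) a b L {G.tg W ρ} Rl.Cs := by
  obtain ⟨u, w, m, a', b', c, d, huw, rfl, hm, hj, hq, ht, i1, i2, -, -, hc', hd', -⟩ :=
    h.str hc hT hW
  have hA : m ∈ G.A := ins_sub_A (hm ▸ mem_singleton_self m)
  have hp : G.Pp {u, w} {m} (G.ie {u, w} a) (G.ie {u, w} b) := by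
    rw [ht, mem_insert, mem_singleton] at ha hb
    rcases ha with rfl | rfl <;> rcases hb with rfl | rfl
    · exact (hab rfl).elim
    · rw [i1, i2]; exact Node_edge hA hj
    · rw [i1, i2]; exact (Node_edge hA hj).symm
    · exact (hab rfl).elim
  have hn : ∀ e ∈ G.cut W, e ∈ G.cut {u, w} → e ∈ G.cut {u, w} ∧ e ∈ L ∧ e ≠ a ∧ e ≠ b :=
    fun e he he' => ⟨he', hL e he' he, fun x => not_ins_of_cut he (x ▸ (mem_inter.1 ha).2),
      fun x => not_ins_of_cut he (x ▸ (mem_inter.1 hb).2)⟩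
  have := pure_two (p := fun x => if x = u then G.n m else 0) (L := L) hp (mem_inter.1 ha).1
    (mem_inter.1 hb).1 hab (by simp [Node_sw hj, huw.symm, z2_add_self]) hq.2.2.2.2.2.2
    (Or.inr (hn c hc' hq.mem.2.2.1)) (Or.inr (hn d hd' hq.mem.2.2.2))
  rw [hm]
  exact Node_hit this ha hb fun R r => ⟨0, 0, fun x y e => ⟨r x y, e⟩⟩

theorem dg_soft (hc : G.Cub) (hN : G.Dg N) (hab : G.cut N = {a, b}) (σ : ZMod 2) :
    ∃ O, G.Pas0 N O a b L ∅ (Rl.U σ) := by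
  obtain ⟨O, h⟩ := Node_dgp (L := L) hc hN hab σ
  exact ⟨O, h.imp fun R r => ⟨0, r⟩⟩

theorem dg_hard (hc : G.Cub) (hN : G.Dg N) (hab : G.cut N = {a, b}) :
    ∃ O, G.Pas0 N O a b L {G.cut N} Rl.X0 := by
  obtain ⟨O, h⟩ := Node_dgp (L := L) hc hN hab 0
  refine ⟨O, Node_hit h h.cut.1 h.cut.2.1 fun R r x y e => ⟨r x y ?_, by tauto⟩⟩
  rw [chi_zero, one_mul]
  revert x y
  decide

/-- a passed digon does not have residue zero on both leaving edges -/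
theorem dg_cond (hc : G.Cub) (hN : G.Dg N) (hS : G.St N O (G.cut N)) {φ : E → ZMod 3}
    (h : G.Sl N O ∅ φ) : ∃ e ∈ G.cut N, φ e ≠ 0 := by
  by_contra hn
  have hn' : ∀ e ∈ G.cut N, φ e = 0 := fun e he => by_contra fun x => hn ⟨e, he, x⟩
  obtain ⟨-, -, -, -, a, b, -, -, -, -, -, -, -, hab, -⟩ := hN.str hc
  have key : ∀ σ, ∀ g ∈ G.ins N, G.n g = σ + 1 → g ∈ O := by
    intro σ g' hg' hn1
    obtain ⟨u, w, e, g, huw, rfl, hi, j1, j2, n1, n2, -⟩ := Node_dg hc hN hab σ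
    have : g' = g := by
      rw [hi, mem_insert, mem_singleton] at hg'
      refine hg'.resolve_left fun x => ?_
      rw [x, n1] at hn1
      simp at hn1
    subst this
    by_contra hO
    have h1 := sum_bd (G := G) (fun x => if x = u then σ else 0) {u, w} φ
    rw [sum_eq_zero fun x hx => by rw [h.1 x hx, mul_zero], sum_eq_single g'] at h1
    · refine mul_ne_zero (Node_chord hg' ?_) (h.2.1 _ (ins_sub_tch hg') hO) h1.symm
      simp [Node_sw j2, huw.symm, n2, add_right_comm σ 1 σ, z2_add_self]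
    · intro f hf hne
      by_cases t : f ∈ G.tch {u, w}
      · rcases mem_tch_iff.1 t with t | t
        · rw [sol1_kap_zero t, zero_mul]
          rw [hi, mem_insert, mem_singleton] at t
          rw [t.resolve_right hne]
          simp [Node_sw j1, huw.symm, n1, z2_add_self]
        · rw [hn' f t, mul_zero]
      · rw [Node_kap hf t, zero_mul]
    · exact fun x => (x (ins_sub_A hg')).elim
  obtain ⟨u, w, e, -, -, rfl, he, -, j1, -⟩ := hN
  have h2 : G.deg O u = G.deg G.A u := by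
    refine sum_subset (hS.1.trans (filter_subset _ _)) fun f hf hO => ?_
    by_contra x
    rcases mem_tch_iff.1 (sol1_at_tch hf (mem_insert_self u {w}) (inc_pos.1 (Nat.pos_of_ne_zero x)))
      with t | t
    · exact hO (key (G.n f + 1) f t (by rw [add_assoc, z2_add_self, add_zero]))
    · exact hO (mem_inter.1 (hS.2.2.symm ▸ t)).1
  have h3 := dg_eq_zero.1 (hS.2.1 u (mem_insert_self _ _))
  have h4 : 0 < G.deg G.A u := deg_pos.2 (mem_vs.2 ⟨e, he, j1.imp And.left And.right⟩)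
  rw [h2, (hc u).resolve_left h4.ne'] at h3
  exact absurd h3 (by decide)

/-- extending a residue solution into one digon -/
theorem dg_ext (hc : G.Cub) (hN : G.Dg N) (ψ : E → ZMod 3)
    (h : (J = G.cut N ∧ ∃ e ∈ G.cut N, ψ e ≠ 0) ∨ (J = ∅ ∧ ∀ e ∈ G.cut N, ψ e ≠ 0)) :
    ∃ O φ, G.St N O J ∧ G.Re N O (G.ins N) ∅ ψ φ ∧ (J = ∅ → G.ins N ⊆ O) := by
  obtain ⟨u, w, e1, e2, a, b, huw, hN', hi, j1, j2, n1, n2, hab, hne, -⟩ := hN.str hc
  obtain ⟨ha, hb⟩ : a ∈ G.cut N ∧ b ∈ G.cut N := by simp [hab]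
  rcases h with ⟨rfl, h⟩ | ⟨rfl, h⟩
  · have : ∃ σ, G.out N ψ a + chi σ * G.out N ψ b ≠ 0 := by
      have h1 : G.out N ψ a ≠ 0 ∨ G.out N ψ b ≠ 0 := by
        simpa [hab, out_ne ha, out_ne hb] using h
      revert h1
      generalize G.out N ψ a = x
      generalize G.out N ψ b = y
      revert x y
      decide
    obtain ⟨σ, hσ⟩ := this
    obtain ⟨O, h1, -, h2⟩ := Node_dgc hc hN hab σ
    obtain ⟨φ, f1, f2, f3, f4⟩ := h2 ψ _ _ hσ
    refine ⟨O, φ, hab ▸ h1, ⟨fun e he => ?_, f2⟩, fun x => absurd (x ▸ ha) (notMem_empty a)⟩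
    by_cases t : e ∈ G.tch N
    · have := (mem_tch_iff.1 t).resolve_left he
      rw [hab, mem_insert, mem_singleton] at this
      rcases this with rfl | rfl
      · exact out_inj ha f3
      · exact out_inj hb f4
    · exact f1 e t
  · have m1 : e1 ∈ G.ins N := by simp [hi]
    have m2 : e2 ∈ G.ins N := by simp [hi]
    have hcn : G.Cn N (G.ins N) := fun x hx y hy =>
      ((Node_edge (ins_sub_A m1) j1).2.1 x (hN' ▸ hx) y (hN' ▸ hy)).mono (by simpa using m1)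
    obtain ⟨φ, f1, f2⟩ := ext3 Subset.rfl hcn ψ (Or.inl fun ⟨p, hp⟩ => by
      have q1 := hp e1 m1
      have q2 := hp e2 m2
      rw [Node_sw j1, n1] at q1
      rw [Node_sw j2, n2] at q2
      exact absurd (show (1 : ZMod 2) = 0 by linear_combination q2 - q1) (by decide))
    refine ⟨G.ins N, φ, st_of_ev Subset.rfl ?_, ⟨f1, f2, fun e he x => ?_, by simp⟩,
      fun _ => Subset.rfl⟩
    · rw [hi, insert_eq]
      refine od_self.1 ((od_edge j1).union (od_edge j2).symm ?_)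
      rw [disjoint_singleton]
      exact fun x => absurd (n1.symm.trans (x ▸ n2)) (by decide)
    · rw [f1 e x]
      exact h e ((mem_tch_iff.1 he).resolve_left x)

/-- The diagonal pass of an odd four-cycle that touches `c` and cancels `d`.
HINT: `HT.qst`; `O = {a, b, e1, e2}`; the vertex at `d` has three equal outflows; since the
cycle is odd the contributions of `e3` and `e4` cancel. -/
theorem q_pc (hc : G.Cub) (hT : G.HT T) (hS : S ⊆ T) (hu : G.US S) (hq : G.Q4 S a b c d)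
    (hd : G.Qd S a b) : ∃ O σ κ, κ ≠ 0 ∧ G.St S O {a, b} ∧
      G.Pa S O (G.fr S {a, b}) (G.Kus S) a b fun ψ R => R.PC σ (κ * ψ c) := by
  obtain ⟨x, y, z, w, e1, e2, e3, e4, ia, ib, ic, id, d1, d2, d3, d4, d5, d6, hS', hi, j1, j2, j3,
    j4, hn⟩ := Node_q hc hT hS hu hq hd
  obtain ⟨ha, hb, hc', hd'⟩ := hq.mem
  obtain ⟨q0, q1, q2, q3, q4, q5, q6⟩ := hq
  obtain ⟨m1, m2, m3, m4⟩ : e1 ∈ G.ins S ∧ e2 ∈ G.ins S ∧ e3 ∈ G.ins S ∧ e4 ∈ G.ins S := by
    simp [hi]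
  have hU : {x, y, z} ⊆ S := by simp [hS', insert_subset_iff]
  have hw : {w} ⊆ S := by simp [hS']
  have wU : w ∉ ({x, y, z} : Finset V) := by simp [d3.symm, d5.symm, d6.symm]
  obtain ⟨v3, v0, v1⟩ := hT.vtx hc (hS (singleton_subset_iff.1 hw))
  obtain ⟨ca, ja⟩ := (Node_in hU ha).1 (by simp [ia])
  obtain ⟨cb, jb⟩ := (Node_in hU hb).1 (by simp [ib])
  obtain ⟨cc, -⟩ := (Node_in hU hc').1 (by simp [ic])
  obtain ⟨c3, i3⟩ := Node_cut (S := {x, y, z}) (ins_sub_A m3) j3 (by simp) wU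
  obtain ⟨c4, i4⟩ := Node_cut (S := {x, y, z}) (ins_sub_A m4) j4.symm (by simp) wU
  have w3 := (Node_cut (S := {w}) (ins_sub_A m3) j3.symm (by simp) (by simpa using d5)).1
  have w4 := (Node_cut (S := {w}) (ins_sub_A m4) j4 (by simp) (by simpa using d3)).1
  have wd := ((Node_in hw hd').1 (by simp [id])).1
  have wc : c ∉ G.cut {w} := v1 ▸ (Node_in hw hc').2 (by simpa [ic] using d6)
  have u1 : e1 ∈ G.ins {x, y, z} :=
    ins_mono (by simp [insert_subset_iff]) (singleton_subset_iff.1 (Node_edge (ins_sub_A m1) j1).1)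
  have u2 : e2 ∈ G.ins {x, y, z} :=
    ins_mono (by simp [insert_subset_iff]) (singleton_subset_iff.1 (Node_edge (ins_sub_A m2) j2).1)
  have hp : G.Pp {x, y, z} {e1, e2} (G.ie {x, y, z} a) (G.ie {x, y, z} b) := by
    rw [ja, jb, ia, ib]
    refine ⟨by simp [insert_subset_iff, u1, u2], cn_of_base (a := z) ?_, ?_, by simp, by simp⟩
    · simp only [mem_insert, mem_singleton, forall_eq_or_imp, forall_eq]
      exact ⟨.single ⟨e1, by simp, j1.symm⟩, .single ⟨e2, by simp, j2⟩, Rch.refl _ _⟩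
    · rw [insert_eq]
      refine (od_edge j1).union (od_edge j2) (disjoint_singleton.2 fun e => ?_)
      subst e
      rcases j1 with ⟨rfl, rfl⟩ | ⟨rfl, rfl⟩ <;> rcases j2 with ⟨f, g⟩ | ⟨f, g⟩
      exacts [d2 f, d1 f, d1 g, d2 g]
  obtain ⟨p, p1, p2, p3⟩ : ∃ p : V → ZMod 2, p x = G.n e1 ∧ p y = G.n e2 ∧ p z = 0 :=
    ⟨fun t => if t = x then G.n e1 else if t = y then G.n e2 else 0, by simp, by simp [d1.symm],
      by simp [d2.symm, d4.symm]⟩
  have s1 : G.sw p e1 = 0 := by rw [Node_sw j1, p1, p3, z2_add_self, add_zero]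
  have s2 : G.sw p e2 = 0 := by rw [Node_sw j2, p2, p3, add_zero, z2_add_self]
  obtain ⟨-, h⟩ := pure_pc (p := p) hp ca cb q1 (by simp [s1, s2])
  obtain ⟨t1, t2, -⟩ := (hp.st ca cb q1).1
  have nc : ∀ e ∈ G.cut S, ∀ f ∈ G.ins S, e ≠ f := fun e he f hf t => not_ins_of_cut he (t ▸ hf)
  have o1 : ∀ e ∈ G.cut S, e ∈ ({a, b, e1, e2} : Finset E) ↔ e = a ∨ e = b := fun e he => by
    simp [nc e he e1 m1, nc e he e2 m2]
  have o2 : ∀ e ∈ G.cut {w}, e ∉ ({a, b, e1, e2} : Finset E) := fun e he t => by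
    have n : ∀ f ∈ G.ins {x, y, z}, f ∉ G.cut {w} := fun f hf hf' => by
      rcases (mem_tch.1 (cut_sub_tch hf')).2 with r | r
      exacts [wU (mem_singleton.1 r ▸ (mem_ins.1 hf).2.1), wU (mem_singleton.1 r ▸ (mem_ins.1 hf).2.2)]
    simp only [mem_insert, mem_singleton] at t
    rcases t with rfl | rfl | rfl | rfl
    exacts [(Node_in hw ha).2 (by simpa [ia] using d3) (cut_sub_tch he),
      (Node_in hw hb).2 (by simpa [ib] using d5) (cut_sub_tch he), n _ u1 he, n _ u2 he]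
  have o3 : ∀ e ∈ G.tch S, e ∉ ({a, b, e1, e2} : Finset E) → e = c ∨ e = d ∨ e = e3 ∨ e = e4 :=
    fun e he t => by
      simp only [mem_insert, mem_singleton, not_or] at t
      simpa [mem_tch_iff, hi, q0, t, or_comm, or_left_comm] using he
  have o4 : ({a, b, e1, e2} : Finset E) ⊆ G.fr S {a, b} := by
    simp [insert_subset_iff, fr, ha, hb, m1, m2]
  have f1 : ∀ e ∈ G.cut S, e ≠ a → e ≠ b → e ∉ G.fr S {a, b} := fun e he r r' => by
    simp [fr, not_ins_of_cut he, r, r']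
  generalize ({a, b, e1, e2} : Finset E) = O at h t1 t2 o1 o2 o3 o4
  have cO : c ∉ O := by simp [o1 c hc', q2.symm, q4.symm]
  have hSw : ∀ v ∈ S, v ∈ ({x, y, z} : Finset V) ∨ v = w := by simp [hS']
  refine ⟨O, G.n e1 + G.n e2, -chi (G.n e1) * G.kap p {x, y, z} c,
    mul_ne_zero (neg_ne_zero.2 (Sol_chi_ne _)) (sol1_kap_cut (mem_cut.1 cc).2),
    ⟨t1.trans (tch_mono hU), fun v hv => ?_, ?_⟩, fr_sub_tch, fun ψ hψ => ?_⟩
  · rcases hSw v hv with r | rfl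
    · exact t2 v r
    · refine dg_of_not_mem fun r => ?_
      obtain ⟨e, he, r⟩ := mem_vs.1 r
      exact o2 e (v1 ▸ sol1_at_tch (mem_tch.1 (t1 he)).1 (mem_singleton_self _) r) he
  · ext e
    rw [mem_inter, mem_insert, mem_singleton]
    exact ⟨fun r => (o1 e r.2).1 r.1, fun r =>
      have : e ∈ G.cut S := by rcases r with rfl | rfl <;> assumption
      ⟨(o1 e this).2 r, this⟩⟩
  obtain ⟨ψ', g1, g2⟩ : ∃ ψ' : E → ZMod 3, (∀ e ∉ G.cut {w}, ψ' e = ψ e) ∧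
      ∀ e ∈ G.cut {w}, G.out {w} ψ' e = G.out {w} ψ d :=
    ⟨fun e => if e ∈ G.cut {w} then G.kap (fun _ => 0) {w} e * G.out {w} ψ d else ψ e,
      fun e he => if_neg he, fun e he => by
        rw [out, if_pos he, ← mul_assoc, (kap_sign (fun _ => 0) he).2, one_mul]⟩
  have g3 : ∀ e ∈ G.tch S, e ∉ O → ψ' e ≠ 0 := fun e he t => by
    have n : ∀ f ∈ G.cut {w}, ψ' f ≠ 0 := fun f hf => by
      rw [← out_ne hf, g2 f hf, out_ne wd]
      exact hψ d (cut_sub_tch hd') (f1 d hd' q3.symm q5.symm) (o2 d wd)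
    rcases o3 e he t with rfl | rfl | rfl | rfl
    · rw [g1 e wc]
      exact hψ e he (f1 e hc' q2.symm q4.symm) t
    exacts [n _ wd, n _ w3, n _ w4]
  obtain ⟨R, r, hR⟩ := h ψ' fun e he t _ => g3 e (tch_mono hU he) t
  have k : ∀ e ∈ G.cut {w}, e ∈ G.cut {x, y, z} → G.kap p {x, y, z} e * ψ' e =
      chi (p (G.ie {x, y, z} e)) * (-chi (G.n e) * G.out {w} ψ d) := fun e he he' => by
    rw [(kap_sign p he').1, mul_assoc, ← g2 e he,
      ← out_link ψ' (disjoint_singleton_left.2 wU) he he', out]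
  have n34 : e3 ≠ e4 := fun t => d1 (i4.symm.trans (t ▸ i3))
  rw [Node_sum (F := {c, e3, e4}) (by
      simp [insert_subset_iff, (mem_cut.1 hc').1, ins_sub_A m3, ins_sub_A m4, q2.symm, q4.symm,
        (nc a ha _ m3).symm, (nc a ha _ m4).symm, (nc b hb _ m3).symm, (nc b hb _ m4).symm])
    fun e he r1 r2 r3 => by
      simp only [mem_insert, mem_singleton, not_or] at r3
      have : e = e1 ∨ e = e2 ∨ e = d := by
        simpa [mem_tch_iff, hi, q0, r1, r2, r3, or_assoc] using tch_mono hU he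
      rcases this with rfl | rfl | rfl
      exacts [sol1_kap_zero u1 s1, sol1_kap_zero u2 s2, ((Node_in hU hd').2 (id ▸ wU) he).elim],
    sum_insert (by simp [nc c hc' _ m3, nc c hc' _ m4]), sum_pair n34, k _ w3 c3, k _ w4 c4, i3, i4,
    ja, jb, ia, ib, p1, p2, g1 c wc] at r
  refine ⟨R, ?_, fun s t r' => ?_⟩
  · have : ∀ a b c d : ZMod 2, a + b + c + d = 1 → (chi b * chi c + chi a * chi d : ZMod 3) = 0 := by
      decide
    convert r using 1
    linear_combination -chi (G.n e1) * G.out {w} ψ d * this _ _ _ _ hn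
  obtain ⟨φ, ⟨l1, l2, -, -⟩, l3, l4⟩ := hR s t r'
  refine ⟨φ, ⟨fun e he => ?_, fun v hv => ?_, fun e he t => ?_, fun t ht => ?_⟩,
    (out_sub φ hU ha (cut_sub_tch ca)).symm.trans l3, (out_sub φ hU hb (cut_sub_tch cb)).symm.trans l4⟩
  · rw [l1 e fun t => he (o4 t)]
    by_cases t : e ∈ G.cut {w}
    · rcases o3 e (tch_mono hw (cut_sub_tch t)) (o2 e t) with rfl | rfl | rfl | rfl
      exacts [(wc t).elim, out_inj t (g2 e t), (he (mem_union_left _ m3)).elim,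
        (he (mem_union_left _ m4)).elim]
    · exact g1 e t
  · rcases hSw v hv with r | rfl
    · exact l2 v r
    · have : ∀ e ∈ G.cut {v}, G.out {v} φ e = G.out {v} ψ d := fun e he =>
        (congrArg _ (l1 e (o2 e he))).trans (g2 e he)
      rw [bd_single _ v0, sum_congr rfl this, sum_const, v3, nsmul_eq_mul]
      exact mul_eq_zero_of_left rfl _
  · rw [l1 e t]
    exact g3 e he t
  · rw [hT.kus4 hc hS hd.1 t ht]
    exact ⟨c, hc', cut_sub_tch hc', Or.inl cO⟩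

/-- the double pass of an odd four-cycle entered at a diagonal pair (`pure_dbl`) -/
theorem q_dbl (hc : G.Cub) (hT : G.HT T) (hS : S ⊆ T) (hu : G.US S) (hq : G.Q4 S a b c d)
    (hd : G.Qd S a b) : ∃ O, G.Dbl S O a b c d := by
  obtain ⟨x, y, z, w, e1, e2, e3, e4, ia, ib, ic, id, d1, d2, d3, d4, d5, d6, hS', hi, j1, j2, j3,
    j4, hn⟩ := Node_q hc hT hS hu hq hd
  obtain ⟨ha, hb, hc', hd'⟩ := hq.mem
  obtain ⟨m1, m2, m3, m4⟩ : e1 ∈ G.A ∧ e2 ∈ G.A ∧ e3 ∈ G.A ∧ e4 ∈ G.A := by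
    simpa [hi, insert_subset_iff] using ins_sub_A (G := G) (W := S)
  have h1 : {x, z} ⊆ S := by simp [hS', insert_subset_iff]
  have h2 : {y, w} ⊆ S := by simp [hS', insert_subset_iff]
  obtain ⟨ca, ja⟩ := (Node_in h1 ha).1 (by simp [ia])
  obtain ⟨cb, jb⟩ := (Node_in h2 hb).1 (by simp [ib])
  obtain ⟨cc, jc⟩ := (Node_in h1 hc').1 (by simp [ic])
  obtain ⟨cd, jd⟩ := (Node_in h2 hd').1 (by simp [id])
  obtain ⟨p, p1, p2, p3, p4⟩ :
      ∃ p : V → ZMod 2, p x = G.n e1 ∧ p y = G.n e3 ∧ p z = 0 ∧ p w = 0 :=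
    ⟨fun t => if t = x then G.n e1 else if t = y then G.n e3 else 0, by simp, by simp [d1.symm],
      by simp [d2.symm, d4.symm], by simp [d3.symm, d5.symm]⟩
  have := (pure_dbl (U1 := {x, z}) (U2 := {y, w}) (P1 := {e1}) (P2 := {e3}) (p := p) (g1 := e2)
    (g2 := e4) (by simp [d1.symm, d3.symm, d4, d6.symm]) (by rw [ja, jc, ia, ic]; exact Node_edge m1 j1)
    (by rw [jb, jd, ib, id]; exact Node_edge m3 j3)
    ⟨ca, (Node_in h2 ha).2 (by simp [ia, d1, d3])⟩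
    ⟨cc, (Node_in h2 hc').2 (by simp [ic, d4.symm, d6])⟩
    ⟨cb, (Node_in h1 hb).2 (by simp [ib, d1.symm, d4])⟩
    ⟨cd, (Node_in h1 hd').2 (by simp [id, d3.symm, d6.symm])⟩ hq.2.2.1 hq.2.2.2.2.2.1
    (by simp [Node_sw j1, Node_sw j3, p1, p2, p3, p4, z2_add_self])
    ⟨(Node_cut m2 j2 (by simp) (by simp [d1.symm, d4])).1,
      (Node_cut m2 j2.symm (by simp) (by simp [d4.symm, d6])).1⟩
    ⟨(Node_cut m4 j4.symm (by simp) (by simp [d3.symm, d6.symm])).1,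
      (Node_cut m4 j4 (by simp) (by simp [d1, d3])).1⟩ (by
      rw [Node_sw j2, Node_sw j4, p1, p2, p3, p4]
      revert hn
      generalize G.n e1 = a, G.n e2 = b, G.n e3 = c, G.n e4 = d
      revert a b c d
      decide)).1
  rw [show ({x, z} ∪ {y, w} : Finset V) = S by
    rw [hS', insert_union, ← insert_eq, insert_comm z]] at this
  exact ⟨_, this⟩

/-- The default pass of a node of `W` entered by `a` and left by `b`.  The live set `L`
contains the leaving edges at the rungs. -/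
theorem node_pass (hc : G.Cub) (hT : G.HT T) (hW : W ⊆ T) (hF : Fm ⊆ G.AU)
    (hB : G.Bx Fm W J Bs) (hD : G.VD W J Ds) (hP : ∀ B ∈ Bs, G.PS B)
    (hL : ∀ ρ ∈ Ds, ∀ e ∈ G.cut ρ, e ∈ G.cut W → e ∈ L) (hLJ : Disjoint L J) (hv : v ∈ W)
    (hN : N = nd (Bs ∪ Ds) v) (ha : a ∈ G.cut N) (hb : b ∈ G.cut N) (hab : a ≠ b)
    (ha' : a ∈ G.ins W ∪ J) (hb' : b ∈ G.ins W ∪ J) (hLW : L ⊆ G.cut W) (σ : ZMod 2) :
    ∃ X O K, X ⊆ N ∧ G.NP W Bs Ds N a b X K ∧ G.Pas0 X O a b L K (G.Ncl L Bs Ds N σ) := by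
  obtain ⟨pd, dj⟩ := hB.pd hD
  have nL : ∀ e ∈ G.ins W ∪ J, e ∉ L := fun e he l => (mem_union.1 he).elim
    (not_ins_of_cut (hLW l)) (disjoint_left.1 hLJ l)
  rcases nd_cases pd v with h | ⟨h, h'⟩
  · rw [← hN] at h
    rcases mem_union.1 h with h | h
    · obtain ⟨c, d, hq⟩ := exists_q4 (hF (hB.1 N h).1).1 ha hb hab
      obtain ⟨X, O, h1, h2⟩ := hP N h a b c d hq σ
      exact ⟨X, O, _, h1.sub, Or.inr (Or.inr ⟨h, c, d, hq, h1, subset_rfl⟩),
        (h2.monoL (by simp)).imp fun R r =>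
          ⟨fun x => (disjoint_left.1 dj h x).elim, fun _ => r, fun _ x => (x h).elim⟩⟩
    · have t : ∀ e ∈ G.cut N, e ∈ G.ins W ∪ J → e ∈ G.tg W N := fun e he he' =>
        mem_inter.2 ⟨he, by_contra fun x => by
          obtain ⟨u, w, m, a', b', c, d, -, -, -, -, hq, ht, -, -, -, -, -, -, c2, d2⟩ :=
            (hD.2 N h).str hc hT hW
          have hJ := (mem_union.1 he').resolve_left x
          have : e ∈ G.tg W N := by
            rw [hq.1] at he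
            simp only [ht, mem_insert, mem_singleton] at he ⊢
            rcases he with e | e | rfl | rfl
            exacts [Or.inl e, Or.inr e, (c2 hJ).elim, (d2 hJ).elim]
          exact x (mem_inter.1 this).2⟩
      exact ⟨N, _, {G.tg W N}, Subset.rfl, Or.inr (Or.inl ⟨h, rfl, rfl⟩),
        (rung_cs hc hT hW (hD.2 N h) (t a ha ha') (t b hb hb') hab (hL N h)).imp fun R r =>
          ⟨fun _ => r, fun x => (disjoint_left.1 dj x h).elim, fun x => (x h).elim⟩⟩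
  · rw [h'] at hN
    subst hN
    obtain ⟨g, hg⟩ := hT.third hc (hW hv) ha hb hab
    have n1 : {v} ∉ Ds := fun x => h _ (mem_union_right _ x) (mem_singleton_self v)
    have n2 : {v} ∉ Bs := fun x => h _ (mem_union_left _ x) (mem_singleton_self v)
    refine ⟨{v}, _, _, Subset.rfl, Or.inl ⟨fun B x => ?_, fun B x => ?_, rfl⟩,
      (vtx_p (hT.vtx hc (hW hv)).2.1 hg).imp fun R r => ⟨fun x => (n1 x).elim,
        fun x => (n2 x).elim, fun _ _ => ⟨r.1, fun ⟨g', l, x⟩ => r.2 ?_⟩⟩⟩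
    · exact disjoint_singleton_right.2 (h B (mem_union_left _ x))
    · exact disjoint_singleton_right.2 (h B (mem_union_right _ x))
    · rw [hg.1, mem_insert, mem_insert, mem_singleton] at x
      rcases x with rfl | rfl | rfl
      exacts [(nL _ ha' l).elim, (nL _ hb' l).elim, l]

/-- the class of a default pass is total; it is a permutation unless the node is a rung -/
theorem Ncl.tt {σ : ZMod 2} {R : Rl} (h : G.Ncl L Bs Ds N σ R) :
    R.Tt ∧ (N ∉ Ds → R.P (if N ∈ Bs then σ else 0)) := by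
  have h1 : N ∉ Ds → R.P (if N ∈ Bs then σ else 0) := fun x => by
    split_ifs with y
    exacts [h.2.1 y, (h.2.2 x y).1]
  refine ⟨?_, h1⟩
  by_cases x : N ∈ Ds
  exacts [(h.1 x).tt, (h1 x).tt]

/-- default passes along a whole track -/
theorem trk_pass (hc : G.Cub) (hT : G.HT T) (hW : W ⊆ T) (hF : Fm ⊆ G.AU)
    (hB : G.Bx Fm W J Bs) (hD : G.VD W J Ds) (hP : ∀ B ∈ Bs, G.PS B)
    (hL : ∀ ρ ∈ Ds, ∀ e ∈ G.cut ρ, e ∈ G.cut W → e ∈ L) (hLJ : Disjoint L J) (hLW : L ⊆ G.cut W)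
    {n : ℕ} {N : ℕ → Finset V} {e : ℕ → E} (ht : G.Trk W n N e)
    (hN : ∀ i ≤ n, ∃ v ∈ W, N i = nd (Bs ∪ Ds) v) (he : ∀ i ≤ n + 1, e i ∈ G.ins W ∪ J)
    (σ : ℕ → ZMod 2) :
    ∃ (X : ℕ → Finset V) (O : ℕ → Finset E) (K : ℕ → Set (Finset E)), ∀ i ≤ n, X i ⊆ N i ∧
      G.NP W Bs Ds (N i) (e i) (e (i + 1)) (X i) (K i) ∧
      G.Pas0 (X i) (O i) (e i) (e (i + 1)) L (K i) (G.Ncl L Bs Ds (N i) (σ i)) := by
  have : ∀ i, ∃ X O K, i ≤ n → X ⊆ N i ∧ G.NP W Bs Ds (N i) (e i) (e (i + 1)) X K ∧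
      G.Pas0 X O (e i) (e (i + 1)) L K (G.Ncl L Bs Ds (N i) (σ i)) := fun i => by
    by_cases hi : i ≤ n
    · obtain ⟨v, hv, h⟩ := hN i hi
      obtain ⟨h1, h2, h3⟩ := ht.2.2 i hi
      obtain ⟨X, O, K, h4⟩ := node_pass hc hT hW hF hB hD hP hL hLJ hv h h1 h2 h3
        (he i (by omega)) (he (i + 1) (by omega)) hLW (σ i)
      exact ⟨X, O, K, fun _ => h4⟩
    · exact ⟨∅, ∅, ∅, fun x => (hi x).elim⟩
  choose X O K h using this
  exact ⟨X, O, K, h⟩

end SG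

end Pool.Agent.Work.MP_8c679b_co
end

-- merged part: Pool.Agent.Work.MP_8c679b_co.Six.SpLift
section
/-!
Lifting along bridges; gluing ports.
-/

set_option autoImplicit false

namespace Pool.Agent.Work.MP_8c679b_co

open Finset

namespace SG

variable {V E : Type} [Fintype V] [DecidableEq V] [DecidableEq E] {G : SG V E}
  {W Y D0 : Finset V} {O P : Finset E} {φ : E → ZMod 3} {h : E → ℤ} {Ps : Finset (Finset V)}

omit [Fintype V] in
theorem SpLift_crs {X : Finset V} {e : E} (hX : X ⊆ W) :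
    e ∈ G.crs (G.ins W) X ↔ e ∈ G.tch X ∧ e ∈ G.tch (W \ X) := by
  have h1 := @hX (G.s e)
  have h2 := @hX (G.t e)
  simp only [mem_crs, mem_ins, mem_tch, mem_sdiff]
  (clear * - h1 h2; grind)

omit [Fintype V] [DecidableEq E] in
theorem SpLift_w (K : Finset V) :
    ∑ v ∈ K, (if v ∈ D0 then 2 else 0 : ℕ) = 2 * (K ∩ D0).card := by
  rw [sum_ite_mem, sum_const, smul_eq_mul, mul_comm]

theorem SpLift_root {X : Finset V} (hD2 : G.Two D0 (G.ins D0)) (hP : P ⊆ G.cut W) (h1 : P.card ≤ 1)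
    (hr : Disjoint W D0 ∨ (D0 ⊆ W ∧ P = ∅)) (hX : X ⊆ W) (hc : (G.crs (G.ins W) X).card ≤ 1) :
    ∃ Z, (Z = X ∨ Z = W \ X) ∧ P ⊆ G.cut Z ∧ (Disjoint Z D0 ∨ (D0 ⊆ Z ∧ P = ∅)) ∧
      Disjoint (W \ Z) D0 := by
  rcases hr with hr | ⟨hr, rfl⟩
  · obtain rfl | ⟨e, rfl⟩ : P = ∅ ∨ ∃ e, P = {e} := by
      rw [← card_eq_zero, ← card_eq_one]
      omega
    · exact ⟨X, Or.inl rfl, empty_subset _, Or.inl (hr.mono_left hX), hr.mono_left sdiff_subset⟩
    · have he := hP (mem_singleton_self e)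
      by_cases k : G.ie W e ∈ X
      · exact ⟨X, Or.inl rfl, singleton_subset_iff.2 (Spl_cut_of hX he k).1,
          Or.inl (hr.mono_left hX), hr.mono_left sdiff_subset⟩
      · exact ⟨_, Or.inr rfl, singleton_subset_iff.2 (Spl_cut_of sdiff_subset he
          (mem_sdiff.2 ⟨Spl_ie he, k⟩)).1, Or.inl (hr.mono_left sdiff_subset),
          hr.mono_left sdiff_subset⟩
  · by_cases k : D0 ⊆ X
    · exact ⟨X, Or.inl rfl, empty_subset _, Or.inr ⟨k, rfl⟩, sdiff_disjoint.mono_right k⟩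
    · have k2 : Disjoint D0 X := by
        by_contra k2
        have k3 := hD2 (D0 ∩ X) inter_subset_left (not_disjoint_iff_nonempty_inter.1 k2)
          fun h => k (inter_eq_left.1 h)
        have k4 : G.crs (G.ins D0) (D0 ∩ X) ⊆ G.crs (G.ins W) X := fun e he => by
          have h1 := @hr (G.s e)
          have h2 := @hr (G.t e)
          simp only [mem_crs, mem_ins, mem_inter] at he ⊢
          (clear * - h1 h2 he; tauto)
        have := card_le_card k4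
        omega
      have k3 := subset_sdiff.2 ⟨hr, k2⟩
      exact ⟨_, Or.inr rfl, empty_subset _, Or.inr ⟨k3, rfl⟩, sdiff_disjoint.mono_right k3⟩

theorem SpLift_glue {α : Type} (hpd : PD Ps) (F : Finset V → E → α) (h : E → α)
    (hF : ∀ N ∈ Ps, ∀ e ∈ G.cut N, F N e = h e) : ∃ f : E → α,
      (∀ e, (∀ N ∈ Ps, e ∉ G.ins N) → f e = h e) ∧ ∀ N ∈ Ps, ∀ e ∈ G.tch N, f e = F N e := by
  have h1 : ∀ e, (∀ N ∈ Ps, e ∉ G.ins N) → ¬ (nd Ps (G.s e) ∈ Ps ∧ e ∈ G.ins (nd Ps (G.s e))) :=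
    fun e he k => he _ k.1 k.2
  refine ⟨fun e => if nd Ps (G.s e) ∈ Ps ∧ e ∈ G.ins (nd Ps (G.s e)) then F (nd Ps (G.s e)) e
    else h e, fun e he => if_neg (h1 e he), fun N hN e he => ?_⟩
  rcases mem_tch_iff.1 he with k | k
  · have := nd_of_mem hpd hN (mem_ins.1 k).2.1
    exact (if_pos (this.symm ▸ ⟨hN, k⟩)).trans (by rw [this])
  · refine (if_neg (h1 e fun N' hN' k' => ?_)).trans (hF N hN e k).symm
    by_cases e' : N = N'
    · exact not_ins_of_cut k (e' ▸ k')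
    · exact not_ins_of_cut (Ab_link (hpd N hN N' hN' e') he (ins_sub_tch k')).2 k'

theorem SpLift_dg {S S' : Finset E} {X : Finset V} {v : V} (hS : S ⊆ G.A) (hS' : S' ⊆ G.A)
    (hv : v ∈ X) (h : ∀ e ∈ G.tch X, e ∈ S ↔ e ∈ S') : G.dg S v = G.dg S' v :=
  Ab_dg fun e he => ⟨fun k => (h e (Cut_tch (hS k) he hv)).1 k,
    fun k => (h e (Cut_tch (hS' k) he hv)).2 k⟩

/-- Top-down lifting.
HINT: strong induction on `W.card`.  If `W` is two-edge-connected use `lift6` with weight two on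
`D0` and `wp = 5`; a set `K` whose cut contains the prescribed edge has at least two more edges
(`Two`, `Av.ne_zero`).  Otherwise split `W` at a set with at most one crossing edge; first lift
the part that contains `D0` or the end of the prescribed edge, then the other part with the
crossing edge prescribed. -/
theorem lt_lift (hc : G.Cub) (hY : Y ⊆ G.vs G.A) (hl : ∀ e ∈ G.tch Y, G.s e ≠ G.t e)
    (hOA : O ⊆ G.A) (hO : ∀ v ∈ Y, G.dg O v = 0) (hφ : G.Sl Y O ∅ φ) (hD : D0.card ≤ 2)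
    (hD2 : G.Two D0 (G.ins D0)) (h2 : ∀ W ⊆ Y, W.Nonempty → 2 ≤ (G.cut W).card)
    (hK : ∀ W ⊆ Y, G.Two W (G.ins W) → ∀ K ⊂ W, K.Nonempty → G.cut K ⊆ G.ins W → ∀ g,
      G.Df O φ K g → 6 ≤ ∑ e ∈ G.cut K, |g e| + 2 * ((K ∩ D0).card : ℤ))
    (hW : W ⊆ Y) (hP : P ⊆ G.cut W) (h1 : P.card ≤ 1)
    (hr : Disjoint W D0 ∨ (D0 ⊆ W ∧ P = ∅)) (hh : ∀ e ∈ P, Av O φ e (h e)) :
    ∃ f : E → ℤ, (∀ e ∈ P, f e = h e) ∧ (∀ v ∈ W, G.bd f v = 0) ∧
      ∀ e ∈ G.tch W, Av O φ e (f e) := by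
  induction W using Finset.strongInduction generalizing P h with
  | H W ih =>
  rcases W.eq_empty_or_nonempty with rfl | hn
  · exact ⟨h, fun _ _ => rfl, fun _ h => absurd h (notMem_empty _), fun _ h => by simp [mem_tch] at h⟩
  by_cases two : G.Two W (G.ins W)
  · have ht := tch_mono (G := G) hW
    refine lift6 hc (hW.trans hY) (fun e he => hl e (ht he)) hOA (fun v hv => hO v (hW hv))
      ⟨fun v hv => hφ.1 v (hW hv), fun e he => hφ.2.1 e (ht he), fun _ h => h.elim⟩ hP hh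
      (fun v => if v ∈ D0 then 2 else 0) (fun _ => 5) (fun e he => (hh e he).1)
      (fun K k1 k2 k3 g hg => ?_) (Or.inr ⟨fun k => ?_, ?_⟩)
    · rw [← Nat.cast_sum, SpLift_w]
      push_cast
      rcases (G.cut K ∩ P).eq_empty_or_nonempty with k4 | ⟨e, he⟩
      · have k5 := disjoint_iff_inter_eq_empty.2 k4
        rw [k4, sum_empty, add_zero, sdiff_eq_self_of_disjoint k5]
        exact hK W hW two K k1 k2 (fun e he => (mem_tch_iff.1 (tch_mono k1.subset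
          (cut_sub_tch he))).resolve_right fun k => disjoint_left.1 k5 he (k3 e he k)) g hg
      · obtain ⟨e', he'⟩ := card_pos.1 (lt_of_lt_of_le two_pos (two K k1.subset k2 k1.ne))
        rw [crs_ins k1.subset, mem_sdiff] at he'
        have a1 := single_le_sum (f := fun e => max |g e| 5)
          (fun _ _ => le_max_of_le_right (by norm_num)) he
        have a2 := single_le_sum (f := fun e => |g e|) (fun _ _ => abs_nonneg _)
          (mem_sdiff.2 ⟨he'.1, fun k => he'.2 (hP k)⟩)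
        have a3 := Int.one_le_abs ((hg.1 e' he'.1).ne_zero
          (hφ.2.1 e' (ht (tch_mono k1.subset (cut_sub_tch he'.1)))))
        have a4 := le_max_right |g e| 5
        omega
    · have := h2 W hW hn
      rw [← k] at this
      omega
    · rw [SpLift_w, sum_const, smul_eq_mul]
      rcases hr with hr | ⟨-, rfl⟩
      · rw [disjoint_iff_inter_eq_empty.1 hr, card_empty]
        omega
      · have := card_le_card (inter_subset_right : W ∩ D0 ⊆ D0)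
        rw [card_empty]
        omega
  obtain ⟨X, x1, x2, x3, x4⟩ : ∃ X ⊆ W, X.Nonempty ∧ X ≠ W ∧ (G.crs (G.ins W) X).card ≤ 1 := by
    by_contra k
    exact two fun X a b c => not_lt.1 fun d => k ⟨X, a, b, c, by omega⟩
  obtain ⟨Z, z0, z1, z2, z3⟩ := SpLift_root hD2 hP h1 hr x1 x4
  obtain ⟨y1, y2, y3⟩ : Z ⊂ W ∧ W \ Z ⊂ W ∧ (G.crs (G.ins W) Z).card ≤ 1 := by
    rcases z0 with rfl | rfl
    · exact ⟨x1.ssubset_of_ne x3, sdiff_ssubset x1 x2, x4⟩
    · rw [Finset.sdiff_sdiff_eq_self x1, crs_sdiff x1]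
      exact ⟨sdiff_ssubset x1 x2, x1.ssubset_of_ne x3, x4⟩
  obtain ⟨f1, a1, a2, a3⟩ := ih Z y1 (y1.subset.trans hW) z1 h1 z2 hh
  have cr := fun e => SpLift_crs (G := G) (e := e) y1.subset
  obtain ⟨f2, b1, b2, b3⟩ := ih _ y2 (h := f1) (y2.subset.trans hW)
    (fun e he => (Ab_link disjoint_sdiff ((cr e).1 he).1 ((cr e).1 he).2).2) y3 (Or.inl z3)
    fun e he => a3 e ((cr e).1 he).1
  have c2 : ∀ e ∈ G.tch (W \ Z), (if e ∈ G.tch Z then f1 e else f2 e) = f2 e := fun e he => by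
    split_ifs with k
    · exact (b1 e ((cr e).2 ⟨k, he⟩)).symm
    · rfl
  refine ⟨fun e => if e ∈ G.tch Z then f1 e else f2 e,
    fun e he => (if_pos (cut_sub_tch (z1 he))).trans (a1 e he), fun v hv => ?_, fun e he => ?_⟩
  · by_cases k : v ∈ Z
    · exact (bd_congr fun e he ha => if_pos (Cut_tch he ha k)).trans (a2 v k)
    · have k' := mem_sdiff.2 ⟨hv, k⟩
      exact (bd_congr fun e he ha => c2 e (Cut_tch he ha k')).trans (b2 v k')
  · rw [← union_sdiff_of_subset y1.subset, tch_union, mem_union] at he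
    beta_reduce
    rcases he with k | k
    · rw [if_pos k]
      exact a3 e k
    · rw [c2 e k]
      exact b3 e k

/-- extending a flow into a family of disjoint sets.  HINT: induction on `Ps`. -/
theorem glue_fam (hpd : PD Ps) (hE : ∀ N ∈ Ps, G.Ext N h)
    (h1 : ∀ v, (∀ N ∈ Ps, v ∉ N) → G.bd h v = 0)
    (h2 : ∀ e ∈ G.A, (∀ N ∈ Ps, e ∉ G.ins N) → h e ≠ 0 ∧ |h e| ≤ 5) :
    ∃ f, G.Fl6 f ∧ ∀ e, (∀ N ∈ Ps, e ∉ G.ins N) → f e = h e := by
  choose! F f1 f2 f3 using hE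
  obtain ⟨f, g1, g2⟩ := SpLift_glue hpd F h f1
  refine ⟨f, ⟨fun v => ?_, fun e he => ?_⟩, g1⟩
  · by_cases k : ∃ N ∈ Ps, v ∈ N
    · obtain ⟨N, k1, k2⟩ := k
      exact (bd_congr fun e he ha => g2 N k1 e (Cut_tch he ha k2)).trans (f2 N k1 v k2)
    · refine (bd_congr fun e he ha => g1 e fun N k1 k2 => k ⟨N, k1, ?_⟩).trans
        (h1 v fun N k1 k2 => k ⟨N, k1, k2⟩)
      exact ha.elim (fun h => h ▸ (mem_ins.1 k2).2.1) fun h => h ▸ (mem_ins.1 k2).2.2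
  · by_cases k : ∃ N ∈ Ps, e ∈ G.ins N
    · obtain ⟨N, k1, k2⟩ := k
      rw [g2 N k1 e (ins_sub_tch k2)]
      exact f3 N k1 e k2
    · rw [g1 e fun N k1 k2 => k ⟨N, k1, k2⟩]
      exact h2 e he fun N k1 k2 => k ⟨N, k1, k2⟩

/-- extending a residue solution into a family of digons.  HINT: induction on `Ps`, `dg_ext`,
`St.union`, `Sl.union`, `Sl.congr`. -/
theorem dg_fam (hc : G.Cub) (hpd : PD Ps) (hD : ∀ N ∈ Ps, G.Dg N ∧ Disjoint N W ∧ G.cut N ⊆ G.cut W)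
    (hOA : O ⊆ G.tch W) (hO : ∀ v ∈ W, G.dg O v = 0) (hφ : G.Sl W O ∅ φ)
    (hN : ∀ N ∈ Ps, (G.cut N ⊆ O ∧ ∃ e ∈ G.cut N, φ e ≠ 0) ∨ Disjoint (G.cut N) O) :
    ∃ O' φ', O' ⊆ G.A ∧ (∀ v ∈ W ∪ Ps.biUnion id, G.dg O' v = 0) ∧
      G.Sl (W ∪ Ps.biUnion id) O' ∅ φ' ∧ ∀ e ∈ G.tch W, (e ∈ O' ↔ e ∈ O) ∧ φ' e = φ e := by
  classical
  have ex : ∀ N ∈ Ps, ∃ O' φ', G.St N O' (O ∩ G.cut N) ∧ G.Re N O' (G.ins N) ∅ φ φ' := fun N k => by
    obtain ⟨O', φ', a, b, -⟩ := dg_ext hc (hD N k).1 φ (J := O ∩ G.cut N) ((hN N k).imp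
      (fun h => ⟨inter_eq_right.2 h.1, h.2⟩) fun h => ⟨disjoint_iff_inter_eq_empty.1 h.symm,
        fun e he => hφ.2.1 e (cut_sub_tch ((hD N k).2.2 he)) (disjoint_left.1 h he)⟩)
    exact ⟨O', φ', a, b⟩
  choose! Q ψ q1 q2 using ex
  obtain ⟨f, g1, g2⟩ := SpLift_glue (G := G) hpd (fun N e => (e ∈ Q N, ψ N e))
    (fun e => (e ∈ O, φ e)) fun N k e he => Prod.ext (propext (by
      simpa [he] using Finset.ext_iff.1 (q1 N k).2.2 e)) ((q2 N k).1 e (not_ins_of_cut he))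
  have a1 : ∀ e ∈ G.tch W, (e ∈ G.A.filter (fun e => (f e).1) ↔ e ∈ O) ∧ (f e).2 = φ e :=
    fun e he => by
      rw [mem_filter, g1 e fun N k k' =>
        not_ins_of_cut (Ab_link (hD N k).2.1 (ins_sub_tch k') he).1 k']
      exact ⟨and_iff_right (Ab_tch_sub he), rfl⟩
  have a2 : ∀ N ∈ Ps, ∀ e ∈ G.tch N,
      (e ∈ G.A.filter (fun e => (f e).1) ↔ e ∈ Q N) ∧ (f e).2 = ψ N e := fun N k e he => by
    rw [mem_filter, g2 N k e he]
    exact ⟨and_iff_right (Ab_tch_sub he), rfl⟩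
  have s1 := hφ.congr (fun e he => (a1 e he).2) fun e he => (a1 e he).1
  have s2 := fun N k => (q2 N k).2.congr (fun e he => (a2 N k e he).2) fun e he => (a2 N k e he).1
  have cs : ∀ v ∈ W ∪ Ps.biUnion id, v ∈ W ∨ ∃ N ∈ Ps, v ∈ N := fun v hv => by simpa using hv
  refine ⟨G.A.filter fun e => (f e).1, fun e => (f e).2, filter_subset _ _, fun v hv => ?_,
    ⟨fun v hv => ?_, fun e he => ?_, fun _ h => h.elim⟩, a1⟩
  · rcases cs v hv with k | ⟨N, k, k'⟩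
    · exact (SpLift_dg (filter_subset _ _) (hOA.trans Ab_tch_sub) k fun e he => (a1 e he).1).trans
        (hO v k)
    · exact (SpLift_dg (filter_subset _ _) ((q1 N k).1.trans Ab_tch_sub) k'
        fun e he => (a2 N k e he).1).trans ((q1 N k).2.1 v k')
  · rcases cs v hv with k | ⟨N, k, k'⟩
    · exact s1.1 v k
    · exact (s2 N k).1 v k'
  · rcases cs _ (ie_mem he) with k | ⟨N, k, k'⟩
    · exact s1.2.1 e (Cut_tch (Ab_tch_sub he) ie_at k)
    · exact (s2 N k).2.1 e (Cut_tch (Ab_tch_sub he) ie_at k')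

end SG

end Pool.Agent.Work.MP_8c679b_co
end
end

-- merged part: Pool.Agent.Work.MP_8c679b_co.Six.AGad
section
-- merged part: Pool.Agent.Work.MP_8c679b_co.Six.ACon
section
/-!
Graphs that agree outside a vertex set; contraction with a twist.
-/

set_option autoImplicit false

namespace Pool.Agent.Work.MP_8c679b_co

open Finset

namespace SG

variable {V E : Type} [Fintype V] [DecidableEq V] [DecidableEq E] {G : SG V E}
  {G' : SG V E} {X Y Z T : Finset V} {S : Finset E} {e : E} {v x : V} {h : E → ℤ}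
  {τ : E → ZMod 2} {p q : V → ZMod 2}

variable (G) in
/-- the leaving edges of `X` are oriented towards `X` -/
def cf {R : Type} [Ring R] (X : Finset V) (f : E → R) (e : E) : R :=
  if e ∈ G.cut X then G.out (univ \ X) f e else f e

variable (G) in
/-- `G'` agrees with `G` outside `X`; the leaving edges of `X` start outside -/
structure Agr (G' : SG V E) (X : Finset V) : Prop where
  mem : G'.tch (univ \ X) = G.tch (univ \ X)
  out : ∀ e ∈ G.ins (univ \ X), G'.s e = G.s e ∧ G'.t e = G.t e ∧ G'.n e = G.n e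
  cut : ∀ e ∈ G.cut X, G'.s e = G.oe X e ∧ G'.t e ∈ X

variable (G) in
/-- `G'` arises by contracting `X` to `x`; the leaving edges get the signs `τ` -/
structure Ce (G' : SG V E) (X : Finset V) (x : V) (τ : E → ZMod 2) : Prop where
  agr : G.Agr G' X
  mem : x ∈ X
  ins : G'.ins X = ∅
  ed : ∀ e ∈ G.cut X, G'.t e = x ∧ G'.n e = τ e

theorem ACon_pos {R : Type} [Ring R] (f : E → R) (he : e ∈ G.cut X) :
    G.cf X f e = G.kap (fun _ => 0) (univ \ X) e * f e := if_pos he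

theorem ACon_neg {R : Type} [Ring R] (f : E → R) (he : e ∉ G.cut X) : G.cf X f e = f e :=
  if_neg he

theorem ACon_congr {R : Type} [Ring R] {f g : E → R} (he : f e = g e) :
    G.cf X f e = G.cf X g e := by
  simp only [cf, out, he]

omit [DecidableEq E] in
theorem ACon_c : v ∈ univ \ X ↔ v ∉ X := by simp

theorem ACon_tch : e ∈ G.tch (univ \ X) ↔ e ∈ G.A ∧ e ∉ G.ins X := by
  simp only [mem_tch, mem_ins, ACon_c]
  tauto

theorem ACon_split (he : e ∈ G.tch (univ \ X)) (hc : e ∉ G.cut X) : e ∈ G.ins (univ \ X) :=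
  (mem_tch_iff.1 he).resolve_right (by rwa [cut_compl])

theorem ACon_nc (he : e ∈ G.ins (univ \ X)) : e ∉ G.cut X := fun k =>
  not_ins_of_cut (by rwa [cut_compl]) he

omit [Fintype V] [DecidableEq E] in
theorem ACon_iv {R : Type} [Zero R] [One R] (h1 : x ∉ X) (h2 : v ∈ X) :
    (iv (x = v) : R) = 0 ∧ (iv (v = x) : R) = 0 :=
  ⟨if_neg (ne_of_mem_of_not_mem h2 h1).symm, if_neg (ne_of_mem_of_not_mem h2 h1)⟩

omit [DecidableEq E] in
theorem ACon_sub (hZ : Disjoint Z X) : Z ⊆ univ \ X := fun _ k => ACon_c.2 (disjoint_left.1 hZ k)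

theorem cf_cf {R : Type} [CommRing R] (f : E → R) : G.cf X (G.cf X f) = f := by
  funext e
  by_cases he : e ∈ G.cut X
  · rw [ACon_pos _ he, ACon_pos _ he, ← mul_assoc,
      (kap_sign (X := univ \ X) (fun _ => 0) (by rwa [cut_compl])).2, one_mul]
  · rw [ACon_neg _ he, ACon_neg _ he]

theorem cf_abs (f : E → ℤ) (e : E) :
    |G.cf X f e| = |f e| ∧ (Odd (G.cf X f e) ↔ Odd (f e)) ∧ (Even (G.cf X f e) ↔ Even (f e)) := by
  have k : G.cf X f e = f e ∨ G.cf X f e = -f e := by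
    by_cases he : e ∈ G.cut X
    · rw [cf, if_pos he]
      exact Def6_out f (by rwa [cut_compl])
    · exact .inl (ACon_neg f he)
  rcases k with k | k <;> simp [k]

theorem ACon_bv (f : E → ℤ) (e : E) :
    (G.cf X f e ≠ 0 ∧ |G.cf X f e| ≤ 5) ↔ (f e ≠ 0 ∧ |f e| ≤ 5) := by
  rw [← abs_ne_zero, (cf_abs f e).1, abs_ne_zero]

theorem cf_cast (f : E → ℤ) (e : E) :
    ((G.cf X f e : ℤ) : ZMod 3) = G.cf X (fun e => (f e : ZMod 3)) e := by
  by_cases he : e ∈ G.cut X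
  · rw [ACon_pos _ he, ACon_pos _ he, Int.cast_mul, Def6_cast]
  · rw [ACon_neg _ he, ACon_neg _ he]

theorem ACon_A (h : G.Agr G' X) (he : e ∈ G.tch (univ \ X)) : e ∈ G.A ∧ e ∈ G'.A :=
  ⟨Ab_tch_sub he, Ab_tch_sub (h.mem ▸ he)⟩

theorem ACon_je (h : G.Agr G' X) (he : e ∈ G.tch (univ \ X)) : ∃ b, G.Je e (G'.s e) b ∧
    (G'.t e = b ∨ (b ∈ X ∧ G'.t e ∈ X)) := by
  by_cases hc : e ∈ G.cut X
  · exact ⟨G.ie X e, (h.cut e hc).1 ▸ je_ie_oe.symm,
      .inr ⟨ie_mem (cut_sub_tch hc), (h.cut e hc).2⟩⟩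
  · obtain ⟨k1, k2, -⟩ := h.out e (ACon_split he hc)
    exact ⟨G.t e, .inl ⟨k1.symm, rfl⟩, .inl k2⟩

theorem ACon_pat (h : G.Agr G' X) (hZ : ∀ u ∈ X, ∀ w ∈ X, u ∈ Z → w ∈ Z)
    (he : e ∈ G.tch (univ \ X)) :
    ((G'.s e ∈ Z ↔ G.s e ∈ Z) ∧ (G'.t e ∈ Z ↔ G.t e ∈ Z)) ∨
      ((G'.s e ∈ Z ↔ G.t e ∈ Z) ∧ (G'.t e ∈ Z ↔ G.s e ∈ Z)) := by
  obtain ⟨b, k1, k2⟩ := ACon_je h he
  have k3 : G'.t e ∈ Z ↔ b ∈ Z := by
    rcases k2 with rfl | ⟨k, k'⟩
    exacts [Iff.rfl, ⟨hZ _ k' _ k, hZ _ k _ k'⟩]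
  rcases k1 with ⟨k4, k5⟩ | ⟨k4, k5⟩
  · exact .inl ⟨by rw [k4], by rw [k3, k5]⟩
  · exact .inr ⟨by rw [k5], by rw [k3, k4]⟩

theorem ACon_ct (hZ : ∀ u ∈ X, ∀ w ∈ X, u ∈ Z → w ∈ Z) (he : e ∈ G.cut Z) :
    e ∈ G.tch (univ \ X) := by
  obtain ⟨k1, k2⟩ := mem_cut.1 he
  refine ACon_tch.2 ⟨k1, fun k => ?_⟩
  obtain ⟨-, k3, k4⟩ := mem_ins.1 k
  exact k2 ⟨hZ _ k3 _ k4, hZ _ k4 _ k3⟩

theorem ACon_cut (h : G.Agr G' X) (hZ : ∀ u ∈ X, ∀ w ∈ X, u ∈ Z → w ∈ Z) :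
    G'.cut Z = G.cut Z := by
  ext e
  by_cases he : e ∈ G.tch (univ \ X)
  · have k1 := ACon_A h he
    have k2 := ACon_pat h hZ he
    rw [mem_cut, mem_cut]
    (clear * - k1 k2; grind)
  · exact iff_of_false (fun k => he (h.mem ▸ ACon_ct hZ k)) fun k => he (ACon_ct hZ k)

theorem Agr.cutX (h : G.Agr G' X) : G'.cut X = G.cut X := by
  exact ACon_cut h fun _ _ _ k _ => k

theorem Agr.loc (h : G.Agr G' X) (hZ : Disjoint Z X) :
    G'.ins Z = G.ins Z ∧ G'.cut Z = G.cut Z ∧ G'.tch Z = G.tch Z ∧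
      (∀ e ∈ G.tch Z, G'.ie Z e = G.ie Z e) ∧
      ∀ e ∈ G.ins Z, G'.s e = G.s e ∧ G'.t e = G.t e ∧ G'.n e = G.n e := by
  have hs := ACon_sub hZ
  have hZ' : ∀ u ∈ X, ∀ w ∈ X, u ∈ Z → w ∈ Z := fun _ k _ _ k' =>
    absurd k (disjoint_left.1 hZ k')
  have h1 : G'.tch Z = G.tch Z := by
    ext e
    by_cases he : e ∈ G.tch (univ \ X)
    · have k1 := ACon_A h he
      have k2 := ACon_pat h hZ' he
      rw [mem_tch, mem_tch]
      (clear * - k1 k2; grind)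
    · exact iff_of_false (fun k => he (h.mem ▸ tch_mono hs k)) fun k => he (tch_mono hs k)
  refine ⟨?_, ACon_cut h hZ', h1, fun e he => ?_, fun e he => h.out e (ins_mono hs he)⟩
  · ext e
    by_cases he : e ∈ G.tch (univ \ X)
    · have k1 := ACon_A h he
      have k2 := ACon_pat h hZ' he
      rw [mem_ins, mem_ins]
      tauto
    · exact iff_of_false (fun k => he (h.mem ▸ tch_mono hs (ins_sub_tch k))) fun k =>
        he (tch_mono hs (ins_sub_tch k))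
  · by_cases hc : e ∈ G.cut X
    · have k := eq_oe hc (disjoint_left.1 hZ (ie_mem he)) ie_at
      rw [ie, (h.cut e hc).1, ← k, if_pos (ie_mem he)]
    · obtain ⟨k1, k2, -⟩ := h.out e (ACon_split (tch_mono hs he) hc)
      rw [ie, ie, k1, k2]

theorem Agr.sup (h : G.Agr G' X) (hZ : X ⊆ Z) : G'.cut Z = G.cut Z := by
  exact ACon_cut h fun _ _ _ k _ => hZ k

theorem ACon_kap {R : Type} [CommRing R] (h : G.Agr G' X) (hZ : Disjoint Z X) (f : E → R)
    (q : V → ZMod 2) (he : e ∈ G.tch (univ \ X)) :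
    G'.kap q Z e * G.cf X f e = G.kap q Z e * f e := by
  by_cases hc : e ∈ G.cut X
  · obtain ⟨k1, k2⟩ := h.cut e hc
    have k3 := disjoint_right.1 hZ k2
    have k4 := (mem_cut.1 hc).2
    rw [ACon_pos f hc]
    by_cases k5 : G.s e ∈ X
    · have k6 : G.t e ∉ X := by tauto
      have k7 := disjoint_right.1 hZ k5
      simp [kap, iv, k1, oe, k3, k5, k6, k7]
      split_ifs <;> ring
    · have k6 : G.t e ∈ X := by tauto
      have k7 := disjoint_right.1 hZ k6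
      simp [kap, iv, k1, oe, k3, k5, k6, k7]
  · obtain ⟨k1, k2, k3⟩ := h.out e (ACon_split he hc)
    rw [ACon_neg f hc]
    simp only [kap, k1, k2, k3]

theorem ACon_bd {R : Type} [CommRing R] (f : E → R) (hv : v ∈ Y) :
    G.bd f v = ∑ e ∈ G.tch Y, G.kap (fun _ => 0) {v} e * f e := by
  have k := sum_bd (G := G) (fun _ => 0) {v} f
  rw [sum_singleton, chi_zero, one_mul] at k
  rw [k]
  refine (sum_subset Ab_tch_sub fun e k1 k2 => ?_).symm
  rw [kap_out (fun k3 => k2 (Cut_tch k1 (.inl (mem_singleton.1 k3)) hv))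
    (fun k3 => k2 (Cut_tch k1 (.inr (mem_singleton.1 k3)) hv)), zero_mul]

theorem Agr.bd {R : Type} [CommRing R] (h : G.Agr G' X) (f : E → R) (hv : v ∉ X) :
    G'.bd (G.cf X f) v = G.bd f v := by
  rw [ACon_bd _ (ACon_c.2 hv), ACon_bd _ (ACon_c.2 hv), h.mem]
  exact sum_congr rfl fun e he => ACon_kap h (disjoint_singleton_left.2 hv) f _ he

theorem Agr.outZ {R : Type} [CommRing R] (h : G.Agr G' X) (hZ : Disjoint Z X) (f : E → R)
    (he : e ∈ G.cut Z) : G'.out Z (G.cf X f) e = G.out Z f e := by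
  exact ACon_kap h hZ f _ (tch_mono (ACon_sub hZ) (cut_sub_tch he))

theorem Agr.tw {R : Type} [CommRing R] (h : G.Agr G' X) (hZ : Disjoint Z X) (f : E → R) :
    G'.tw q Z (G.cf X f) = G.tw q Z f := by
  rw [SG.tw, SG.tw, (h.loc hZ).2.1]
  exact sum_congr rfl fun e he => ACon_kap h hZ f _ (tch_mono (ACon_sub hZ) (cut_sub_tch he))

theorem ACon_dsum (hv : v ∈ Y) : G.deg G.A v = ∑ e ∈ G.tch Y, G.inc e v :=
  (sum_subset Ab_tch_sub fun _ k1 k2 =>
    Nat.eq_zero_of_not_pos fun k3 => k2 (Cut_tch k1 (inc_pos.1 k3) hv)).symm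

theorem ACon_inc (h : G.Agr G' X) (hv : v ∉ X) (he : e ∈ G.tch (univ \ X)) :
    G'.inc e v = G.inc e v := by
  obtain ⟨b, k1, k2⟩ := ACon_je h he
  rw [inc, inc, Pth_iv k1]
  congr 1
  rcases k2 with rfl | ⟨k, k'⟩
  · rfl
  · rw [(ACon_iv hv k).2, (ACon_iv hv k').2]

theorem Agr.deg (h : G.Agr G' X) (hv : v ∉ X) : G'.deg G'.A v = G.deg G.A v ∧
    (v ∈ G'.vs G'.A ↔ v ∈ G.vs G.A) ∧ ∀ e ∈ G.tch (univ \ X), G'.At e v ↔ G.At e v := by
  have k : G'.deg G'.A v = G.deg G.A v := by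
    rw [ACon_dsum (ACon_c.2 hv), ACon_dsum (ACon_c.2 hv), h.mem]
    exact sum_congr rfl fun e he => ACon_inc h hv he
  exact ⟨k, by rw [← deg_pos, ← deg_pos, k], fun e he => by
    rw [← inc_pos, ← inc_pos, ACon_inc h hv he]⟩

theorem Agr.bal (h : G.Agr G' X) (hZ : Disjoint Z X) (hS : S ⊆ G.ins Z) :
    (G'.Bal S ↔ G.Bal S) ∧ G'.par S = G.par S := by
  have k := fun e he => (h.loc hZ).2.2.2.2 e (hS he)
  refine ⟨exists_congr fun p => forall₂_congr fun e he => ?_, sum_congr rfl fun e he => (k e he).2.2⟩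
  rw [sw, sw, (k e he).1, (k e he).2.1, (k e he).2.2]

theorem Agr.ht (h : G.Agr G' X) (hZ : Disjoint T X) :
    (G'.HT T ↔ G.HT T) ∧ (G'.T3 T ↔ G.T3 T) := by
  have k : G'.HT T ↔ G.HT T :=
    forall₂_congr fun Y hY => by rw [(h.loc (hZ.mono_left hY)).2.1]
  exact ⟨k, by rw [T3, T3, k, (h.loc hZ).1, (h.loc hZ).2.1, (h.bal hZ Subset.rfl).1]⟩

theorem Agr.ext (hA : G.Agr G' X) (hZ : Disjoint Z X) : G'.Ext Z (G.cf X h) ↔ G.Ext Z h := by
  obtain ⟨k1, k2, -⟩ := hA.loc hZ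
  rw [Ext, k1, k2]
  constructor
  · rintro ⟨f, h1, h2, h3⟩
    refine ⟨G.cf X f, fun e he => ?_, fun v hv => ?_, fun e he => (ACon_bv f e).2 (h3 e he)⟩
    · rw [ACon_congr (h1 e he), cf_cf]
    · rw [← hA.bd _ (disjoint_left.1 hZ hv), cf_cf, h2 v hv]
  · rintro ⟨f, h1, h2, h3⟩
    exact ⟨G.cf X f, fun e he => ACon_congr (h1 e he),
      fun v hv => (hA.bd _ (disjoint_left.1 hZ hv)).trans (h2 v hv),
      fun e he => (ACon_bv f e).2 (h3 e he)⟩

theorem Agr.outX (hA : G.Agr G' X) : G'.Out X (G.cf X h) ↔ G.Out X h := by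
  refine and_congr (forall₂_congr fun v hv => by rw [hA.bd h hv]) (forall_congr' fun e => ?_)
  rw [← and_imp, ← and_imp, ← ACon_tch, ← ACon_tch, hA.mem, ACon_bv]

/-- a bridge is the edge of a vertex with a loop.  HINT: `small_cut` for `X ∩ vs A`. -/
theorem brg_lv (hc : G.Cub) (hC : G.Con) (n1 : G.N1) (h : G.Brg e) :
    ∃ l, G.Lv l ∧ G.cut {l} = {e} := by
  obtain ⟨X, hX⟩ := h
  have he : e ∈ G.cut X := hX ▸ mem_singleton_self e
  have k : G.cut (G.vs G.A ∩ X) = {e} := by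
    rw [← sdiff_sdiff_self_left, SpSet_compl, SpSet_compl, hX]
  rcases small_cut hc hC n1 (X := G.vs G.A ∩ X) inter_subset_left ⟨G.ie X e, mem_inter.2
    ⟨mem_vs.2 ⟨e, (mem_cut.1 he).1, ie_at⟩, ie_mem (cut_sub_tch he)⟩⟩ (by simp [k]) with
    ⟨l, k1, k2⟩ | k1 | ⟨l, k1, k2⟩
  · exact ⟨l, k1, k2 ▸ k⟩
  · have k2 : e ∈ G.cut (G.vs G.A) := by
      rw [← k1, k]
      exact mem_singleton_self e
    obtain ⟨k3, k4⟩ := mem_cut.1 k2
    exact absurd (iff_of_true (s_mem_vs k3) (t_mem_vs k3)) k4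
  · exact ⟨l, k1, by rw [← k2, SpSet_compl, k]⟩

/-- HINT: `brg_lv`, `Agr.loc`, `Agr.outX`, `cf_cf`, `Out.glue`. -/
theorem Agr.six (hc : G.Cub) (hC : G.Con) (n1 : G.N1) (h : G.Agr G' X) (h6 : G'.Six)
    (hl : ∀ l ∈ X, ¬ G.Lv l) (hE : ∀ f, G'.Fl6 f → G.Ext X (G.cf X f)) : G.Six := by
  intro e0 c hc'
  obtain ⟨f', h1, h2⟩ := h6 e0 c hc'
  obtain ⟨f, h3, h4⟩ := Out.glue (h.outX.1 (by
    rw [cf_cf]
    exact ⟨fun v _ => h1.1 v, fun e he _ => h1.2 e he⟩)) (hE f' h1)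
  refine ⟨f, h3, fun hb => ?_⟩
  obtain ⟨l, k1, k2⟩ := brg_lv hc hC n1 hb
  have k3 : Disjoint {l} X := disjoint_singleton_left.2 fun k => hl l k k1
  rw [h4 e0 (ACon_tch.1 (tch_mono (ACon_sub k3) (cut_sub_tch (k2 ▸ mem_singleton_self e0)))).2,
    (cf_abs f' e0).1]
  exact h2 ⟨{l}, (h.loc k3).2.1.trans k2⟩

theorem exists_ce (hx : x ∈ X) (τ : E → ZMod 2) : ∃ G', G.Ce G' X x τ := by
  refine ⟨⟨G.A \ G.ins X, fun e => if e ∈ G.cut X then G.oe X e else G.s e,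
    fun e => if e ∈ G.cut X then x else G.t e, fun e => if e ∈ G.cut X then τ e else G.n e⟩,
    ⟨?_, fun e he => ?_, fun e he => ?_⟩, hx, eq_empty_of_forall_notMem fun e he => ?_,
    fun e he => ⟨if_pos he, if_pos he⟩⟩
  · ext e
    rw [mem_tch, mem_sdiff, ← ACon_tch, and_iff_left_iff_imp]
    intro he
    by_cases hc : e ∈ G.cut X
    · exact .inl (ACon_c.2 (by simpa [hc] using oe_not_mem hc))
    · simpa [hc] using (mem_tch.1 he).2
  · exact ⟨if_neg (ACon_nc he), if_neg (ACon_nc he), if_neg (ACon_nc he)⟩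
  · exact ⟨if_pos he, by simpa [he] using hx⟩
  · obtain ⟨k1, k2, k3⟩ := mem_ins.1 he
    by_cases hc : e ∈ G.cut X
    · exact oe_not_mem hc (by simpa [hc] using k2)
    · exact (mem_sdiff.1 k1).2 (mem_ins.2
        ⟨(mem_sdiff.1 k1).1, by simpa [hc] using k2, by simpa [hc] using k3⟩)

theorem Ce.hA (h : G.Ce G' X x τ) : G'.A = G.A \ G.ins X := by
  ext e
  rw [mem_sdiff, ← ACon_tch, ← h.agr.mem, ACon_tch, h.ins]
  simp

theorem ACon_cA (h : G.Ce G' X x τ) : G'.A = G.tch (univ \ X) := by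
  ext e
  rw [h.hA, ACon_tch, mem_sdiff]

theorem ACon_off (h : G.Ce G' X x τ) (he : e ∈ G'.A) (hc : e ∉ G.cut X) :
    G.s e ∉ X ∧ G.t e ∉ X ∧ G'.s e = G.s e ∧ G'.t e = G.t e ∧ G'.n e = G.n e := by
  have k := ACon_split (ACon_cA h ▸ he) hc
  exact ⟨ACon_c.1 (mem_ins.1 k).2.1, ACon_c.1 (mem_ins.1 k).2.2, h.agr.out e k⟩

theorem ACon_ends (h : G.Ce G' X x τ) (he : e ∈ G'.A) :
    G'.s e ∉ X ∧ (G'.t e ∉ X ∨ G'.t e = x) := by
  by_cases hc : e ∈ G.cut X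
  · exact ⟨(h.agr.cut e hc).1 ▸ oe_not_mem hc, .inr (h.ed e hc).1⟩
  · obtain ⟨k1, k2, k3, k4, -⟩ := ACon_off h he hc
    exact ⟨k3 ▸ k1, .inl (k4 ▸ k2)⟩

theorem ACon_cs (h : G.Ce G' X x τ) : G.cut X ⊆ G'.A := fun e he =>
  ACon_cA h ▸ cut_sub_tch (by rwa [cut_compl])

theorem ACon_deg (h : G.Ce G' X x τ) (hv : v ∈ X) :
    G'.deg G'.A v = (G.cut X).card * iv (x = v) := by
  rw [deg, ← sum_subset (ACon_cs h), ← smul_eq_mul, ← sum_const]
  · refine sum_congr rfl fun e he => ?_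
    rw [inc, (h.ed e he).1, (ACon_iv (ACon_ends h (ACon_cs h he)).1 hv).1, zero_add]
  · intro e k1 k2
    obtain ⟨k3, k4, k5, k6, -⟩ := ACon_off h k1 k2
    rw [inc, k5, k6, (ACon_iv k3 hv).1, (ACon_iv k4 hv).1, add_zero]

theorem Ce.cub (h : G.Ce G' X x τ) (hc : G.Cub) (h3 : (G.cut X).card = 3) : G'.Cub := by
  intro v
  by_cases hv : v ∈ X
  · rw [ACon_deg h hv, h3, iv]
    split_ifs <;> simp
  · rw [(h.agr.deg hv).1]
    exact hc v

theorem Ce.card (h : G.Ce G' X x τ) (hn : (G.ins X).Nonempty) : G'.A.card < G.A.card := by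
  rw [h.hA]
  exact card_lt_card (sdiff_ssubset ins_sub_A hn)

theorem Ce.vs (h : G.Ce G' X x τ) (hn : (G.cut X).Nonempty) :
    G'.vs G'.A = insert x (G.vs G.A \ X) := by
  ext v
  rw [mem_insert, mem_sdiff]
  by_cases hv : v ∈ X
  · have k := card_pos.2 hn
    rw [← deg_pos, ACon_deg h hv, iv]
    by_cases k1 : x = v
    · simp [k1, k]
    · simp [k1, hv, Ne.symm k1]
  · have k : v ≠ x := fun k => hv (k ▸ h.mem)
    simp [(h.agr.deg hv).2.1, hv, k]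

theorem ACon_same (h : G.Ce G' X x τ) (h1 : ∀ v ∉ X, v ∈ Z ↔ v ∈ Y) (h2 : x ∈ Z ↔ x ∈ Y) :
    G'.cut Z = G'.cut Y ∧ G'.ins Z = G'.ins Y := by
  have key : ∀ e ∈ G'.A, (G'.s e ∈ Z ↔ G'.s e ∈ Y) ∧ (G'.t e ∈ Z ↔ G'.t e ∈ Y) := fun e he =>
    ⟨h1 _ (ACon_ends h he).1, (ACon_ends h he).2.elim (h1 _) fun k => k ▸ h2⟩
  constructor
  · ext e
    rw [mem_cut, mem_cut]
    exact and_congr_right fun he => by rw [(key e he).1, (key e he).2]
  · ext e
    rw [mem_ins, mem_ins]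
    exact and_congr_right fun he => by rw [(key e he).1, (key e he).2]

theorem Ce.in_ (h : G.Ce G' X x τ) (hx : x ∈ Z) :
    G'.cut Z = G.cut (Z ∪ X) ∧ G'.ins Z = G.ins (Z ∪ X) \ G.ins X := by
  obtain ⟨k1, k2⟩ := ACon_same h (Z := Z) (Y := Z ∪ X) (fun v hv => by simp [hv]) (by simp [hx])
  refine ⟨k1.trans (h.agr.sup subset_union_right), k2.trans ?_⟩
  ext e
  by_cases he : e ∈ G.tch (univ \ X)
  · have k3 := ACon_A h.agr he
    have k4 := ACon_pat (Z := Z ∪ X) h.agr (fun _ _ _ k _ => mem_union_right _ k) he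
    rw [mem_sdiff, and_iff_left (ACon_tch.1 he).2, mem_ins, mem_ins]
    tauto
  · exact iff_of_false (fun k => he (ACon_cA h ▸ ins_sub_A k)) fun k =>
      he (ACon_tch.2 ⟨ins_sub_A (mem_sdiff.1 k).1, (mem_sdiff.1 k).2⟩)

theorem Ce.nin (h : G.Ce G' X x τ) (hx : x ∉ Z) :
    G'.cut Z = G.cut (Z \ X) ∧ G'.ins Z = G.ins (Z \ X) := by
  obtain ⟨k1, k2⟩ := ACon_same h (Z := Z) (Y := Z \ X) (fun v hv => by simp [hv]) (by simp [hx])
  exact ⟨k1.trans (h.agr.loc sdiff_disjoint).2.1, k2.trans (h.agr.loc sdiff_disjoint).1⟩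

theorem Ce.bdx {R : Type} [CommRing R] (h : G.Ce G' X x τ) (f : E → R) :
    G'.bd (G.cf X f) x = -∑ e ∈ G.cut X, chi (τ e) * G.out (univ \ X) f e := by
  rw [SG.bd, ← sum_subset (ACon_cs h), ← sum_neg_distrib]
  · refine sum_congr rfl fun e he => ?_
    rw [(h.ed e he).1, (h.ed e he).2, cf, if_pos he,
      (ACon_iv (ACon_ends h (ACon_cs h he)).1 h.mem).1, iv, if_pos rfl]
    ring
  · intro e k1 k2
    obtain ⟨k3, k4, k5, k6, -⟩ := ACon_off h k1 k2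
    rw [k5, k6, (ACon_iv k3 h.mem).1, (ACon_iv k4 h.mem).1]
    ring

/-- contraction of `X` with the twist `q` -/
theorem Ce.tw_in {R : Type} [CommRing R] (h : G.Ce G' X x fun e => G.n e + q (G.ie X e))
    (f : E → R) : G'.bd (G.cf X f) x = G.tw q X f := by
  rw [h.bdx, SG.tw, ← sum_neg_distrib]
  refine sum_congr rfl fun e he => ?_
  rw [out_link f disjoint_sdiff he (by rwa [cut_compl]), (kap_sign q he).1, chi_add, out]
  linear_combination (chi (q (G.ie X e)) * G.kap (fun _ => 0) X e * f e) *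
    chi_mul_self (R := R) (G.n e)

/-- contraction of the complement of `T` with the twist `q` -/
theorem Ce.tw_out {R : Type} [CommRing R] (h : G.Ce G' (univ \ T) x fun e => q (G.ie T e))
    (f : E → R) : G'.bd (G.cf (univ \ T) f) x = -G.tw q T f := by
  rw [h.bdx, SG.tw, cut_compl, Finset.sdiff_sdiff_eq_self (subset_univ T)]
  refine congrArg _ (sum_congr rfl fun e he => ?_)
  rw [(kap_sign q he).1, out, mul_assoc]

theorem Ce.bal (h : G.Ce G' X x τ) (hS : S ⊆ G'.A) : G'.Bal S ↔ ∃ p : V → ZMod 2,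
    (∀ e ∈ S, e ∉ G.cut X → G.sw p e = 0) ∧ ∀ e ∈ S, e ∈ G.cut X → τ e = p (G.oe X e) := by
  constructor
  · rintro ⟨p, hp⟩
    refine ⟨fun v => p v + p x, fun e he hc => ?_, fun e he hc => ?_⟩
    · obtain ⟨-, -, k1, k2, k3⟩ := ACon_off h (hS he) hc
      have k := hp e he
      rw [sw, k1, k2, k3] at k
      rw [sw]
      linear_combination k + z2_add_self (p x)
    · have k := hp e he
      rw [sw, (h.ed e hc).1, (h.ed e hc).2, (h.agr.cut e hc).1, add_assoc] at k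
      exact z2_eq_of_add k
  · rintro ⟨p, h1, h2⟩
    refine ⟨fun v => if v ∈ X then 0 else p v, fun e he => ?_⟩
    by_cases hc : e ∈ G.cut X
    · rw [sw, (h.ed e hc).1, (h.ed e hc).2, (h.agr.cut e hc).1, if_pos h.mem,
        if_neg (oe_not_mem hc), h2 e he hc, add_zero, z2_add_self]
    · obtain ⟨k4, k5, k1, k2, k3⟩ := ACon_off h (hS he) hc
      rw [sw, k1, k2, k3, if_neg k4, if_neg k5]
      exact h1 e he hc

/-- contraction of a balanced set whose terminals are connected -/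
theorem Ce.bal_iff (h : G.Ce G' X x fun e => G.n e + p (G.ie X e))
    (hp : ∀ e ∈ G.ins X, G.sw p e = 0)
    (hr : ∀ e ∈ G.cut X, ∀ f ∈ G.cut X, G.Rch (G.ins X) (G.ie X e) (G.ie X f)) (hS : S ⊆ G'.A) :
    G'.Bal S ↔ G.Bal (S ∪ G.ins X) := by
  rw [h.bal hS]
  constructor
  · rintro ⟨r, h1, h2⟩
    refine ⟨fun v => if v ∈ X then p v else r v, fun e he => ?_⟩
    rcases mem_union.1 he with he | he
    · by_cases hc : e ∈ G.cut X
      · rw [Cut_sw (je_ie_oe (X := X)), if_pos (ie_mem (cut_sub_tch hc)), if_neg (oe_not_mem hc),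
          ← h2 e he hc, z2_add_self]
      · obtain ⟨k1, k2, -⟩ := ACon_off h (hS he) hc
        rw [sw, if_neg k1, if_neg k2]
        exact h1 e he hc
    · rw [sw, if_pos (mem_ins.1 he).2.1, if_pos (mem_ins.1 he).2.2]
      exact hp e he
  · rintro ⟨r, h1⟩
    obtain ⟨c, h2⟩ : ∃ c, ∀ e ∈ G.cut X, r (G.ie X e) + p (G.ie X e) = c := by
      rcases (G.cut X).eq_empty_or_nonempty with k | ⟨e, he⟩
      · exact ⟨0, by simp [k]⟩
      · refine ⟨_, fun f hf => (hr e he f hf).closed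
          (P := fun v => r v + p v = r (G.ie X e) + p (G.ie X e)) (fun g hg => ?_) rfl⟩
        have k1 := h1 g (mem_union_right _ hg)
        have k2 := hp g hg
        rw [sw] at k1 k2
        rw [show r (G.s g) + p (G.s g) = r (G.t g) + p (G.t g) from
          z2_eq_of_add (by linear_combination k1 + k2 - z2_add_self (G.n g))]
    refine ⟨fun v => r v + c, fun e he _ => ?_, fun e he hc => ?_⟩
    · have k := h1 e (mem_union_left _ he)
      rw [sw] at k ⊢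
      linear_combination k + z2_add_self c
    · have k := h1 e (mem_union_left _ he)
      rw [Cut_sw (je_ie_oe (X := X))] at k
      refine z2_eq_of_add ?_
      rw [← h2 e hc]
      linear_combination k + z2_add_self (p (G.ie X e))

theorem ACon_adm (h : G.Ce G' X x τ) (hA : G.Adm2)
    (a1 : ∀ Z, x ∈ Z → (G.cut (Z ∪ X)).card = 1 → ¬ G'.Bal (G.ins (Z ∪ X) \ G.ins X))
    (a2 : ∀ Z, x ∈ Z → G.cut (Z ∪ X) = ∅ → ¬ G'.Bal (G.ins (Z ∪ X) \ G.ins X) →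
      ∀ z, ¬ G'.Bal ((G.ins (Z ∪ X) \ G.ins X).erase z)) : G'.Adm2 := by
  refine ⟨fun Z => ?_, fun Z => ?_⟩ <;> by_cases hx : x ∈ Z
  · rw [(h.in_ hx).1, (h.in_ hx).2]
    exact a1 Z hx
  · rw [(h.nin hx).1, (h.nin hx).2, (h.agr.bal sdiff_disjoint Subset.rfl).1]
    exact hA.1 _
  · rw [(h.in_ hx).1, (h.in_ hx).2]
    exact a2 Z hx
  · rw [(h.nin hx).1, (h.nin hx).2, (h.agr.bal sdiff_disjoint Subset.rfl).1]
    intro k1 k2 z
    rw [(h.agr.bal sdiff_disjoint (erase_subset _ _)).1]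
    exact hA.2 _ k1 k2 z

theorem Ce.adm_bal (h : G.Ce G' X x fun e => G.n e + p (G.ie X e)) (hA : G.Adm2)
    (hp : ∀ e ∈ G.ins X, G.sw p e = 0)
    (hr : ∀ e ∈ G.cut X, ∀ f ∈ G.cut X, G.Rch (G.ins X) (G.ie X e) (G.ie X f)) : G'.Adm2 := by
  have k1 : ∀ Z, G.ins (Z ∪ X) \ G.ins X ⊆ G'.A := fun Z =>
    h.hA ▸ sdiff_subset_sdiff ins_sub_A Subset.rfl
  have k2 : ∀ Z, G'.Bal (G.ins (Z ∪ X) \ G.ins X) ↔ G.Bal (G.ins (Z ∪ X)) := fun Z => by
    rw [h.bal_iff hp hr (k1 Z), sdiff_union_of_subset (ins_mono subset_union_right)]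
  refine ACon_adm h hA (fun Z _ k => (k2 Z).not.2 (hA.1 _ k)) fun Z _ k k' z k3 =>
    hA.2 _ k ((k2 Z).not.1 k') z
      (((h.bal_iff hp hr ((erase_subset _ _).trans (k1 Z))).1 k3).mono fun f hf => ?_)
  simp only [mem_union, mem_erase, mem_sdiff] at hf ⊢
  tauto

/-- HINT: a set with empty cut that contains `X` contains all active vertices or none. -/
theorem Ce.adm (h : G.Ce G' X x τ) (hA : G.Adm2) (hC : G.Con) (hn : (G.cut X).Nonempty)
    (h1 : ∀ Z, X ⊆ Z → (G.cut Z).card = 1 → ¬ G.Bal (G.ins (Z \ X)))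
    (h2 : ∀ z, ¬ G.Bal ((G.ins (univ \ X)).erase z)) : G'.Adm2 := by
  have k1 : ∀ Y f, Disjoint Y X → f ∈ G.ins Y → f ∉ G.ins X := fun Y f k k' k'' =>
    disjoint_left.1 k (mem_ins.1 k').2.1 (mem_ins.1 k'').2.1
  refine ACon_adm h hA (fun Z _ k k' => h1 _ subset_union_right k
    ((h.agr.bal sdiff_disjoint Subset.rfl).1.1 (k'.mono fun f hf =>
      mem_sdiff.2 ⟨ins_mono sdiff_subset hf, k1 _ f sdiff_disjoint hf⟩))) fun Z _ k _ z k' =>
    h2 z ((h.agr.bal sdiff_disjoint (erase_subset _ _)).1.1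
      (k'.mono (erase_subset_erase _ fun f hf => mem_sdiff.2 ⟨?_, k1 _ f sdiff_disjoint hf⟩)))
  obtain ⟨e, he⟩ := hn
  have k2 := Cn.sub_of_crs hC k (mem_vs.2 ⟨e, (mem_cut.1 he).1, ie_at (X := X)⟩)
    (mem_union_right _ (ie_mem (cut_sub_tch he)))
  exact ins_mono k2 (sub_ins_vs Subset.rfl (ins_sub_A hf))

/-- returning from a contraction inside `X`.  HINT: `Ext.trans` with `cf Y f`. -/
theorem Ce.back (hC : G.Ce G' Y x τ) (hY : Y ⊆ X) {f : E → ℤ}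
    (h1 : ∀ e ∈ G.cut X, f e = G.cf Y h e) (h2 : ∀ v ∈ insert x (X \ Y), G'.bd f v = 0)
    (h3 : ∀ e ∈ G'.ins (insert x (X \ Y)), f e ≠ 0 ∧ |f e| ≤ 5) (h4 : G.Ext Y (G.cf Y f)) :
    G.Ext X h := by
  refine Ext.trans hY (fun e he => ?_) (fun v hv => ?_) (fun e k1 k2 => (ACon_bv f e).2 (h3 e ?_)) h4
  · rw [ACon_congr (h1 e he), cf_cf]
  · rw [← hC.agr.bd _ (mem_sdiff.1 hv).2, cf_cf, h2 v (mem_insert_of_mem hv)]
  · rw [(hC.in_ (mem_insert_self _ _)).2]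
    refine mem_sdiff.2 ⟨ins_mono (fun v hv => ?_) k1, k2⟩
    by_cases k : v ∈ Y <;> simp [k, hv]

end SG

end Pool.Agent.Work.MP_8c679b_co
end

-- merged part: Pool.Agent.Work.MP_8c679b_co.Six.AGad
section
/-!
Replacing a side by a loop vertex, a digon or an edge.
-/

set_option autoImplicit false

namespace Pool.Agent.Work.MP_8c679b_co

open Finset

namespace SG

variable {V E : Type} [Fintype V] [DecidableEq V] [DecidableEq E] {G : SG V E}
  {G' : SG V E} {X N : Finset V} {a b e : E} {τ : ZMod 2} {p : V → ZMod 2} {h : E → ℤ}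

theorem AGad_co (he : e ∈ G.cut X) : G.ie (univ \ X) e = G.oe X e :=
  (eq_ie (cut_compl (G := G) (X := X) ▸ he) (by simpa using oe_not_mem he) oe_at).symm

omit [Fintype V] [DecidableEq E] in
theorem AGad_deg {v : V} (hv : v ∈ X) :
    G.deg G.A v = G.deg (G.ins X) v + ∑ e ∈ G.cut X, iv (G.ie X e = v) := by
  rw [deg, deg, cut, crs, ins, sum_filter, sum_filter, ← sum_add_distrib]
  refine sum_congr rfl fun e _ => ?_
  have k1 : G.s e ∉ X → G.s e ≠ v := fun k k' => k (k' ▸ hv)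
  have k2 : G.t e ∉ X → G.t e ≠ v := fun k k' => k (k' ▸ hv)
  by_cases h1 : G.s e ∈ X <;> by_cases h2 : G.t e ∈ X <;> simp [h1, h2, k1, k2, iv, inc, ie]

omit [Fintype V] in
theorem AGad_loc {Z Z' : Finset V} (h : ∀ f ∈ G.A, ∀ v, G.At f v → (v ∈ Z ↔ v ∈ Z')) :
    G.ins Z = G.ins Z' ∧ G.cut Z = G.cut Z' := by
  constructor <;> ext f
  · simp only [mem_ins]
    exact and_congr_right fun k => and_congr (h f k _ (.inl rfl)) (h f k _ (.inr rfl))
  · simp only [mem_cut]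
    exact and_congr_right fun k => by rw [h f k _ (.inl rfl), h f k _ (.inr rfl)]

theorem AGad_mk {M : Finset E} (hM : M ⊆ G.ins X) (s0 t0 : E → V) (n0 : E → ZMod 2)
    (hs : ∀ f, s0 f ∈ X) (ht : ∀ f, t0 f ∈ X) :
    ∃ G', G.Agr G' X ∧ G'.ins X = M ∧ G'.A.card + (G.ins X).card = G.A.card + M.card ∧
      (∀ f ∈ M, G'.s f = s0 f ∧ G'.t f = t0 f ∧ G'.n f = n0 f) ∧
      ∀ f ∈ G.cut X, G'.ie X f = t0 f := by
  have k0 : ∀ f, f ∈ G.A → f ∉ G.ins X → f ∉ G.cut X → G.s f ∉ X ∧ G.t f ∉ X := by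
    intro f h1 h2 h3
    simp only [mem_ins, mem_cut, h1, true_and, not_not] at h2 h3
    exact ⟨fun k => h2 ⟨k, h3.1 k⟩, fun k => h2 ⟨h3.2 k, k⟩⟩
  refine ⟨⟨(G.A \ G.ins X) ∪ M,
    fun f => if f ∈ G.ins X then s0 f else if f ∈ G.cut X then G.oe X f else G.s f,
    fun f => if f ∈ G.ins X then t0 f else if f ∈ G.cut X then t0 f else G.t f,
    fun f => if f ∈ G.ins X then n0 f else G.n f⟩, ⟨?_, fun f hf => ?_, fun f hf => ?_⟩, ?_, ?_,
    fun f hf => ?_, fun f hf => ?_⟩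
  · ext f
    simp only [mem_tch, mem_union, mem_sdiff, mem_univ, true_and]
    by_cases h1 : f ∈ G.ins X
    · have := mem_ins.1 h1
      simp [h1, hs, ht, this.2.1, this.2.2]
    have h4 : f ∉ M := fun k => h1 (hM k)
    by_cases h2 : f ∈ G.cut X
    · have h3 := mem_cut.1 h2
      simp only [h1, h2, h4, h3.1, oe_not_mem h2, if_true, if_false, not_false_iff, true_or,
        and_self, true_and, true_iff]
      by_contra k
      rw [not_or, not_not, not_not] at k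
      exact h3.2 (iff_of_true k.1 k.2)
    · simp [h1, h2, h4]
  · have := mem_ins.1 hf
    simp only [mem_sdiff, mem_univ, true_and] at this
    have h1 : f ∉ G.ins X := fun k => this.2.1 (mem_ins.1 k).2.1
    have h2 : f ∉ G.cut X := fun k => (mem_cut.1 k).2 (iff_of_false this.2.1 this.2.2)
    simp [h1, h2]
  · simp [not_ins_of_cut hf, hf, ht]
  · ext f
    rw [mem_ins]
    simp only [mem_union, mem_sdiff]
    by_cases h1 : f ∈ G.ins X
    · simp [h1, hs, ht]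
    have h4 : f ∉ M := fun k => h1 (hM k)
    by_cases h2 : f ∈ G.cut X
    · simp [h1, h2, h4, oe_not_mem h2]
    · simp only [h1, h2, h4, if_false, not_false_iff, and_true, or_false, iff_false]
      exact fun k => (k0 f k.1 h1 h2).1 k.2.1
  · have h1 := card_sdiff_add_card_eq_card (ins_sub_A (G := G) (W := X))
    have h2 := card_union_of_disjoint (disjoint_of_subset_right hM sdiff_disjoint :
      Disjoint (G.A \ G.ins X) M)
    dsimp only
    omega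
  · simp [hM hf]
  · simp [ie, not_ins_of_cut hf, hf, oe_not_mem hf]

theorem AGad_adm (h : G.Agr G' X) (hA : G.Adm2) (hN : N ⊆ X)
    (h0 : ∀ f ∈ G'.A, ∀ v ∈ X, G'.At f v → v ∈ N)
    (h1 : ∀ Z, ¬ Disjoint Z N → (G'.cut Z).card ≤ 1 → N ⊆ Z) (h2 : ¬ G'.Bal (G'.ins N))
    (h3 : ∀ Z, G.cut Z = G.cut X → ¬ G.Bal (G.ins Z)) : G'.Adm2 := by
  have k : ∀ Z, Disjoint Z N → G'.ins Z = G.ins (Z \ X) ∧ G'.cut Z = G.cut (Z \ X) := by
    intro Z hZ
    obtain ⟨k1, k2⟩ := AGad_loc (G := G') (Z := Z) (Z' := Z \ X) fun f hf v hv =>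
      ⟨fun k => mem_sdiff.2 ⟨k, fun k' => disjoint_left.1 hZ k (h0 f hf v k' hv)⟩,
        fun k => (mem_sdiff.1 k).1⟩
    obtain ⟨k3, k4, -⟩ := h.loc (Z := Z \ X) sdiff_disjoint
    exact ⟨k1.trans k3, k2.trans k4⟩
  refine ⟨fun Z hZ hB => ?_, fun Z hZ hB z hz => ?_⟩ <;> by_cases hd : Disjoint Z N
  · obtain ⟨k1, k2⟩ := k Z hd
    rw [k1] at hB
    exact hA.1 _ (k2 ▸ hZ) ((h.bal sdiff_disjoint Subset.rfl).1.1 hB)
  · exact h2 (hB.mono (ins_mono (h1 Z hd hZ.le)))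
  · obtain ⟨k1, k2⟩ := k Z hd
    rw [k1] at hB hz
    exact hA.2 _ (k2 ▸ hZ) (fun k => hB ((h.bal sdiff_disjoint Subset.rfl).1.2 k)) z
      ((h.bal sdiff_disjoint (erase_subset _ _)).1.1 hz)
  have k1 := h1 Z hd (by simp [hZ])
  by_cases k2 : z ∈ G'.ins N
  swap
  · exact h2 (hz.mono fun f hf => mem_erase.2 ⟨fun k => k2 (k ▸ hf), ins_mono k1 hf⟩)
  obtain ⟨k3, k4, -⟩ := h.loc (Z := Z \ X) sdiff_disjoint
  refine h3 (Z \ X) ?_ ((h.bal sdiff_disjoint Subset.rfl).1.1 (hz.mono fun f hf => ?_))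
  · rw [← k4, ← h.cutX]
    refine Subset.antisymm (cut_sdiff_sub.trans (by rw [hZ, empty_union])) fun f hf => ?_
    obtain ⟨k5, k6⟩ := h.cut f (h.cutX ▸ hf)
    have k7 := mem_cut.1 hf
    have k8 : G'.t f ∈ Z := k1 (h0 f k7.1 _ k6 (.inr rfl))
    have k9 : f ∉ G'.cut Z := by simp [hZ]
    simp only [mem_cut, k7.1, true_and, not_not, k8, iff_true, k6] at k9 k7
    simp [mem_cut, k7, k6, k9, (mem_cut.1 hf).1]
  · rw [← k3] at hf
    refine mem_erase.2 ⟨fun k5 => ?_, ins_mono sdiff_subset hf⟩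
    exact (mem_sdiff.1 (mem_ins.1 hf).2.1).2 (hN (k5 ▸ (mem_ins.1 k2).2.1))

theorem AGad_act (h : G.Agr G' X) (h1 : ∀ f ∈ G'.ins X, G'.s f ∈ N ∧ G'.t f ∈ N)
    (h2 : ∀ f ∈ G.cut X, G'.ie X f ∈ N) : ∀ f ∈ G'.A, ∀ v ∈ X, G'.At f v → v ∈ N := by
  intro f hf v hv ha
  rcases mem_tch_iff.1 (Cut_tch hf ha hv) with k | k
  · rcases ha with rfl | rfl
    exacts [(h1 f k).1, (h1 f k).2]
  · exact eq_ie k hv ha ▸ h2 f (h.cutX ▸ k)

/-- Replacing a side of a bridge by a vertex with a negative loop.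
HINT: `X ∩ vs A` has at least three vertices and `ins X` at least four edges (`deg_sum`); reuse a
vertex `x` and an edge `m` of `ins X`. -/
theorem exists_rl (hc : G.Cub) (hA : G.Adm2) (hX : G.cut X = {e})
    (h2 : (X ∩ G.vs G.A).card ≠ 1) :
    ∃ G', G.Agr G' X ∧ G'.Cub ∧ G'.Adm2 ∧ G'.A.card < G.A.card := by
  obtain ⟨k1, k2⟩ := AGad_loc (G := G) (Z := X) (Z' := X ∩ G.vs G.A) fun f hf v hv => by
    simp [mem_vs.2 ⟨f, hf, hv⟩]
  have k3 := deg_sum hc (inter_subset_right (s₁ := X))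
  rw [← k1, ← k2, hX, card_singleton] at k3
  obtain ⟨m, hm⟩ := card_pos.1 (by omega : 0 < (G.ins X).card)
  have hx := (mem_ins.1 hm).2.1
  obtain ⟨G', hG, l1, l2, l3, l4⟩ := AGad_mk (singleton_subset_iff.2 hm) (fun _ => G.s m)
    (fun _ => G.s m) (fun _ => 1) (fun _ => hx) fun _ => hx
  obtain ⟨m1, m2, m3⟩ := l3 m (mem_singleton_self m)
  have l5 := l4 e (by simp [hX])
  refine ⟨G', hG, fun v => ?_, AGad_adm (N := {G.s m}) hG hA (singleton_subset_iff.2 hx)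
    (AGad_act hG ?_ fun f hf => by simp [l4 f hf]) (fun Z hZ _ => ?_) ?_ fun Z hZ => ?_, ?_⟩
  · by_cases hv : v ∈ X
    · rw [AGad_deg hv, l1, hG.cutX, hX, deg, sum_singleton, sum_singleton, inc, m1, m2, l5]
      by_cases k : G.s m = v <;> simp [iv, k]
    · rw [(hG.deg hv).1]
      exact hc v
  · simp [l1, m1, m2]
  · simpa using hZ
  · rintro ⟨q, hq⟩
    have := hq m (mem_ins.2 ⟨ins_sub_A (l1 ▸ mem_singleton_self m), by simp [m1], by simp [m2]⟩)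
    rw [sw, m1, m2, m3, add_assoc, z2_add_self, add_zero] at this
    exact one_ne_zero this
  · exact hA.1 Z (by rw [hZ, hX, card_singleton])
  · rw [card_singleton] at l2
    omega

/-- Replacing a two-side by a digon.  HINT: reuse two vertices of `X` and two edges of `ins X`.
If the new graph minus a digon edge is balanced then the rest is a balanced two-side. -/
theorem exists_rd (hc : G.Cub) (hA : G.Adm2) (n2 : G.N2) (hX : G.cut X = {a, b}) (hab : a ≠ b)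
    (h2 : 2 ≤ X.card) (h3 : 3 ≤ (G.ins X).card) :
    ∃ G' N, G.Agr G' X ∧ G'.Cub ∧ G'.Adm2 ∧ G'.A.card < G.A.card ∧ G'.Dg N ∧
      G'.cut N = {a, b} := by
  obtain ⟨u, hu, w, hw, huw⟩ := one_lt_card.1 h2
  obtain ⟨e1, he1, e2, he2, h12⟩ := one_lt_card.1 (by omega : 1 < (G.ins X).card)
  obtain ⟨G', hG, l1, l2, l3, l4⟩ := AGad_mk (insert_subset he1 (singleton_subset_iff.2 he2))
    (fun _ => u) (fun f => if f = a then u else w) (fun f => if f = e1 then 0 else 1)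
    (fun _ => hu) fun f => by split_ifs <;> assumption
  have ha : a ∈ G.cut X := by simp [hX]
  have k1 : e1 ≠ a := fun k => not_ins_of_cut ha (k ▸ he1)
  have k2 : e2 ≠ a := fun k => not_ins_of_cut ha (k ▸ he2)
  obtain ⟨m1, m2, m3⟩ := l3 e1 (by simp)
  obtain ⟨m4, m5, m6⟩ := l3 e2 (by simp)
  have l5 := l4 a ha
  have l6 := l4 b (by simp [hX])
  simp only [k1, k2, h12.symm, hab.symm, if_true, if_false] at m2 m3 m5 m6 l5 l6
  have a1 : e1 ∈ G'.A := ins_sub_A (W := X) (by simp [l1])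
  have a2 : e2 ∈ G'.A := ins_sub_A (W := X) (by simp [l1])
  have hN : ({u, w} : Finset V) ⊆ X := Cut_pair hu hw
  have h0 := AGad_act (N := {u, w}) hG (by simp [l1, m1, m2, m4, m5]) fun f hf => by
    rw [l4 f hf]
    split_ifs <;> simp
  have h4 : G'.cut {u, w} = {a, b} := by
    rw [← hX, ← hG.cutX]
    exact (AGad_loc fun f hf v hv => ⟨fun k => hN k, fun k => h0 f hf v k hv⟩).2
  have hD : G'.Dg {u, w} := ⟨u, w, e1, e2, huw, rfl, a1, a2, .inl ⟨m1, m2⟩, .inl ⟨m4, m5⟩,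
    by rw [m3, m6]; exact zero_ne_one, by rw [h4, card_pair hab]⟩
  have hc' : G'.Cub := fun v => by
    by_cases hv : v ∈ X
    · rw [AGad_deg hv, l1, hG.cutX, hX, deg, sum_pair h12, sum_pair hab, inc, inc, m1, m2, m4, m5,
        l5, l6]
      by_cases k : u = v
      · simp [iv, k, show w ≠ v from fun k' => huw (k.trans k'.symm)]
      · by_cases k' : w = v <;> simp [iv, k, k']
    · rw [(hG.deg hv).1]
      exact hc v
  refine ⟨G', {u, w}, hG, hc', AGad_adm hG hA hN h0 (fun Z hZ hc => ?_) (fun k => ?_)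
    fun Z hZ => n2 Z (by rw [hZ, hX, card_pair hab]), ?_, hD, h4⟩
  · have k : u ∈ Z ↔ w ∈ Z := by
      by_contra k
      have := card_le_card (insert_subset ((SpSet_cut a1 (.inl ⟨m1, m2⟩)).2 k)
        (singleton_subset_iff.2 ((SpSet_cut a2 (.inl ⟨m4, m5⟩)).2 k)))
      rw [card_pair h12] at this
      omega
    by_cases k' : w ∈ Z
    · exact Cut_pair (k.2 k') k'
    · exact absurd (by simp [k, k']) hZ
  · have := k.par_zero (S := {e1, e2}) (insert_subset (Cut_je_ins a1 (.inl ⟨m1, m2⟩) (by simp)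
      (by simp)) (singleton_subset_iff.2 (Cut_je_ins a2 (.inl ⟨m4, m5⟩) (by simp) (by simp))))
      (Def6_ev (.inl ⟨m1, m2⟩) (.inl ⟨m4, m5⟩) h12)
    rw [par, sum_pair h12, m3, m6, zero_add] at this
    exact one_ne_zero this
  · rw [card_pair h12] at l2
    omega

/-- the values at a digon.  HINT: `Dg.str`, `bd_single`. -/
theorem Dg.nec (hc : G.Cub) (hN : G.Dg N) (hab : G.cut N = {a, b}) (hne : a ≠ b) {f : E → ℤ}
    (hf : G.Fl6 f) : Even (f a + f b) ∧ |f a| ≠ |f b| := by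
  obtain ⟨u, v, e1, e2, c, d, huv, rfl, h1, j1, j2, n1, n2, h2, hcd, ic, id⟩ := hN.str hc
  have h12 : e1 ≠ e2 := fun k => by rw [k, n2] at n1; exact one_ne_zero n1
  have mc : c ∈ G.cut {u, v} := h2 ▸ mem_insert_self _ _
  have md : d ∈ G.cut {u, v} := h2 ▸ by simp
  have f1 := (hf.2 e1 (ins_sub_A (W := {u, v}) (by simp [h1]))).1
  have f2 := (hf.2 e2 (ins_sub_A (W := {u, v}) (by simp [h1]))).1
  have b1 := hf.1 u
  have b2 := hf.1 v
  rw [Def6_bd (X := {u, v}) (by simp), h1, h2, sum_pair h12, sum_pair hcd, ic, id, n1, n2] at b1 b2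
  have k : 2 ∣ f c + f d ∧ ¬ (f c = f d ∨ f c = -f d) := by
    rcases j1 with j1 | j1 <;> rcases j2 with j2 | j2 <;>
      simp [iv, j1.1, j1.2, j2.1, j2.2, huv, huv.symm] at b1 b2 <;>
      rcases Def6_out f mc with l | l <;> rcases Def6_out f md with l' | l' <;> omega
  have ka : a ∈ ({c, d} : Finset E) := h2 ▸ hab ▸ mem_insert_self _ _
  have kb : b ∈ ({c, d} : Finset E) := h2 ▸ hab ▸ by simp
  rw [mem_insert, mem_singleton] at ka kb
  rw [even_iff_two_dvd, Ne, abs_eq_abs]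
  rcases ka with rfl | rfl <;> rcases kb with rfl | rfl
  · exact absurd rfl hne
  · exact k
  · omega
  · exact absurd rfl hne

variable (G) in
/-- `G'` arises by replacing the two-side `X` by the edge `a` with sign `τ` -/
structure Se (G' : SG V E) (X : Finset V) (a b : E) (τ : ZMod 2) : Prop where
  hX : G.cut X = {a, b}
  ne : a ≠ b
  hA : G'.A = (G.A \ G.ins X).erase b
  oth : ∀ e, e ≠ a → G'.s e = G.s e ∧ G'.t e = G.t e ∧ G'.n e = G.n e
  ed : G'.s a = G.oe X a ∧ G'.t a = G.oe X b ∧ G'.n a = τ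

theorem exists_se (hX : G.cut X = {a, b}) (hab : a ≠ b) (τ : ZMod 2) :
    ∃ G', G.Se G' X a b τ := by
  exact ⟨⟨(G.A \ G.ins X).erase b, Function.update G.s a (G.oe X a), Function.update G.t a (G.oe X b),
    Function.update G.n a τ⟩, hX, hab, rfl, fun e he => by simp [he], by simp⟩

theorem AGad_sA (h : G.Se G' X a b τ) : a ∈ G.cut X ∧ b ∈ G.cut X ∧
    G'.A = insert a (G.ins (univ \ X)) ∧ a ∉ G.ins (univ \ X) ∧ b ∉ G.ins (univ \ X) := by
  have ha : a ∈ G.cut X := by simp [h.hX]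
  have hb : b ∈ G.cut X := by simp [h.hX]
  have k : ∀ e ∈ G.cut X, e ∉ G.ins (univ \ X) := fun e he =>
    not_ins_of_cut (cut_compl (G := G) (X := X) ▸ he)
  refine ⟨ha, hb, ?_, k a ha, k b hb⟩
  ext f
  rw [h.hA, mem_erase, mem_sdiff, mem_insert]
  constructor
  · rintro ⟨k1, k2, k3⟩
    by_cases k4 : f = a
    · exact .inl k4
    have k5 : f ∉ G.cut X := by simp [h.hX, k1, k4]
    simp only [mem_ins, mem_cut, k2, true_and, not_not, mem_sdiff, mem_univ] at k3 k5 ⊢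
    exact .inr ⟨fun k => k3 ⟨k, k5.1 k⟩, fun k => k3 ⟨k5.2 k, k⟩⟩
  · rintro (rfl | k1)
    · exact ⟨h.ne, (mem_cut.1 ha).1, not_ins_of_cut ha⟩
    · exact ⟨fun k2 => k b hb (k2 ▸ k1), ins_sub_A k1,
        fun k2 => (mem_sdiff.1 (mem_ins.1 k1).2.1).2 (mem_ins.1 k2).2.1⟩

theorem AGad_sact (h : G.Se G' X a b τ) : ∀ f ∈ G'.A, ∀ v, G'.At f v → v ∈ G.vs G.A ∧ v ∉ X := by
  obtain ⟨ha, hb, h1, h2, -⟩ := AGad_sA h
  intro f hf v hv
  rw [h1, mem_insert] at hf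
  rcases hf with rfl | hf
  · rcases hv with rfl | rfl
    · exact h.ed.1 ▸ ⟨mem_vs.2 ⟨_, (mem_cut.1 ha).1, oe_at⟩, oe_not_mem ha⟩
    · exact h.ed.2.1 ▸ ⟨mem_vs.2 ⟨_, (mem_cut.1 hb).1, oe_at⟩, oe_not_mem hb⟩
  · obtain ⟨k1, k2, -⟩ := h.oth f fun k => h2 (k ▸ hf)
    obtain ⟨k3, k4, k5⟩ := mem_ins.1 hf
    rcases hv with rfl | rfl
    · exact k1 ▸ ⟨s_mem_vs k3, (mem_sdiff.1 k4).2⟩
    · exact k2 ▸ ⟨t_mem_vs k3, (mem_sdiff.1 k5).2⟩

omit [Fintype V] in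
theorem AGad_sw (h : G.Se G' X a b τ) (q : V → ZMod 2) :
    G'.sw q a = τ + q (G.oe X a) + q (G.oe X b) ∧ ∀ e, e ≠ a → G'.sw q e = G.sw q e := by
  refine ⟨by rw [sw, h.ed.1, h.ed.2.1, h.ed.2.2], fun e he => ?_⟩
  obtain ⟨k1, k2, k3⟩ := h.oth e he
  rw [sw, k1, k2, k3, sw]

omit [Fintype V] in
theorem AGad_sbal (h : G.Se G' X a b τ) {S : Finset E} (hS : a ∉ S) : G'.Bal S ↔ G.Bal S :=
  exists_congr fun q => forall₂_congr fun e he => by
    rw [(AGad_sw h q).2 e fun k => hS (k ▸ he)]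

theorem AGad_cz {Z : Finset V} (hZ : Disjoint Z X) (he : e ∈ G.cut X) :
    (e ∈ G.cut Z ↔ G.oe X e ∈ Z) ∧ e ∉ G.ins Z ∧ (e ∈ G.cut (Z ∪ X) ↔ G.oe X e ∉ Z) := by
  have k1 : G.ie X e ∈ X := ie_mem (cut_sub_tch he)
  have k2 : G.ie X e ∉ Z := disjoint_right.1 hZ k1
  refine ⟨?_, fun k => k2 ((Pth_ends je_ie_oe).1 (mem_ins.1 k).2).1, ?_⟩
  · rw [SpSet_cut (mem_cut.1 he).1 (je_ie_oe (X := X))]
    simp [k2]
  · rw [SpSet_cut (mem_cut.1 he).1 (je_ie_oe (X := X))]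
    simp [k1, oe_not_mem he]

theorem AGad_sz (h : G.Se G' X a b τ) {Z : Finset V} (hZ : Disjoint Z X) :
    (∀ f, f ≠ a → (f ∈ G'.ins Z ↔ f ∈ G.ins Z)) ∧
    (∀ f, f ≠ a → f ≠ b → (f ∈ G'.cut Z ↔ f ∈ G.cut Z) ∧ (f ∈ G.cut (Z ∪ X) ↔ f ∈ G.cut Z)) ∧
    (a ∈ G'.ins Z ↔ G.oe X a ∈ Z ∧ G.oe X b ∈ Z) ∧
    (a ∈ G'.cut Z ↔ ¬ (G.oe X a ∈ Z ↔ G.oe X b ∈ Z)) ∧ b ∉ G'.A := by
  obtain ⟨ha, hb, h1, h2, h3⟩ := AGad_sA h
  have k0 : a ∈ G'.A := by simp [h1]
  have k1 : ∀ f, f ≠ a → (f ∈ G'.A ↔ f ∈ G.ins (univ \ X)) := fun f hf => by simp [h1, hf]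
  have k2 : ∀ {v}, v ∈ Z → v ∉ X := fun hv => disjoint_left.1 hZ hv
  refine ⟨fun f hf => ?_, fun f hf hf' => ?_, by rw [mem_ins, h.ed.1, h.ed.2.1]; simp [k0],
    by rw [mem_cut, h.ed.1, h.ed.2.1]; simp [k0], by simp [h1, h3, h.ne.symm]⟩
  · obtain ⟨l1, l2, -⟩ := h.oth f hf
    simp only [mem_ins, k1 f hf, l1, l2, mem_sdiff, mem_univ, true_and]
    exact ⟨fun k => ⟨k.1.1, k.2⟩, fun k => ⟨⟨k.1, k2 k.2.1, k2 k.2.2⟩, k.2⟩⟩
  · obtain ⟨l1, l2, -⟩ := h.oth f hf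
    have l3 : f ∉ G.cut X := by simp [h.hX, hf, hf']
    simp only [mem_ins, mem_cut, k1 f hf, l1, l2, mem_sdiff, mem_univ, true_and, mem_union,
      not_and, not_not] at l3 ⊢
    by_cases l4 : f ∈ G.A
    swap
    · simp [l4]
    have l5 := l3 l4
    have l6 := @k2 (G.s f)
    have l7 := @k2 (G.t f)
    by_cases l8 : G.t f ∈ X
    · have l9 : G.s f ∉ Z := fun k => l6 k (l5.2 l8)
      have l10 : G.t f ∉ Z := fun k => l7 k l8
      simp [l5, l8, l9, l10]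
    · simp [l4, l5, l8]

theorem AGad_both (h : G.Se G' X a b τ) {Z : Finset V} (hZ : Disjoint Z X)
    (h1 : G.oe X a ∈ Z) (h2 : G.oe X b ∈ Z) :
    G'.ins Z = insert a (G.ins Z) ∧ G'.cut Z = G.cut (Z ∪ X) := by
  obtain ⟨ha, hb, -⟩ := AGad_sA h
  obtain ⟨k1, k2, k3, k4, k5⟩ := AGad_sz h hZ
  constructor <;> ext f <;> by_cases hf : f = a
  · simp [hf, k3, h1, h2]
  · simp [hf, k1 f hf]
  · simp [hf, k4, h1, h2, (AGad_cz hZ ha).2.2]
  · by_cases hf' : f = b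
    · rw [hf', (AGad_cz hZ hb).2.2]
      simp [h2, mem_cut, k5]
    · rw [(k2 f hf hf').1, (k2 f hf hf').2]

theorem AGad_nb (h : G.Se G' X a b τ) {Z : Finset V} (hZ : Disjoint Z X)
    (h1 : ¬ (G.oe X a ∈ Z ∧ G.oe X b ∈ Z)) : G'.ins Z = G.ins Z ∧
      (G'.cut Z).card = (G.cut Z).card ∧ ∀ f ∈ G.cut Z, (if f = b then a else f) ∈ G'.cut Z := by
  obtain ⟨ha, hb, -⟩ := AGad_sA h
  obtain ⟨k1, k2, k3, k4, k5⟩ := AGad_sz h hZ
  obtain ⟨a1, a2, -⟩ := AGad_cz hZ ha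
  obtain ⟨b1, b2, -⟩ := AGad_cz hZ hb
  have k6 : b ∉ G'.cut Z := fun k => k5 (mem_cut.1 k).1
  have k7 : G'.ins Z = G.ins Z := by
    ext f
    by_cases hf : f = a
    · simp [hf, k3, h1, a2]
    · exact k1 f hf
  by_cases h2 : G.oe X b ∈ Z
  · have h3 : G.oe X a ∉ Z := fun k => h1 ⟨k, h2⟩
    have k8 : G'.cut Z = insert a ((G.cut Z).erase b) := by
      ext f
      by_cases hf : f = a
      · simp [hf, k4, h2, h3]
      · by_cases hf' : f = b
        · simp [hf', k6, h.ne.symm]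
        · simp [hf, hf', (k2 f hf hf').1]
    refine ⟨k7, ?_, fun f hf => ?_⟩
    · rw [k8, card_insert_of_notMem (by simp [a1, h3]), card_erase_add_one (b1.2 h2)]
    · rw [k8]
      split_ifs with k <;> simp [k, hf]
  · have k8 : G'.cut Z = G.cut Z := by
      ext f
      by_cases hf : f = a
      · simp [hf, k4, h2, a1]
      · by_cases hf' : f = b
        · simp [hf', k6, b1, h2]
        · exact (k2 f hf hf').1
    refine ⟨k7, by rw [k8], fun f hf => ?_⟩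
    rwa [if_neg fun k : f = b => h2 (b1.1 (k ▸ hf)), k8]

omit [Fintype V] in
theorem AGad_insU {Z : Finset V} (hX : G.cut X = {a, b}) (he : e ∈ G.ins (Z ∪ X)) :
    e ∈ G.ins Z ∨ e ∈ G.ins X ∨ e = a ∨ e = b := by
  rw [← mem_singleton (b := e) (a := b), ← mem_insert, ← hX]
  obtain ⟨k1, k2, k3⟩ := mem_ins.1 he
  simp only [mem_ins, mem_cut, k1, true_and, mem_union] at k2 k3 ⊢
  by_cases l1 : G.s e ∈ X <;> by_cases l2 : G.t e ∈ X <;> simp [l1, l2] at k2 k3 ⊢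
  exact ⟨k2, k3⟩

theorem AGad_lift (hX : G.cut X = {a, b}) (hp : ∀ e ∈ G.ins X, G.sw p e = 0) (q : V → ZMod 2) :
    ∃ r, (∀ e ∈ G.ins (univ \ X), G.sw r e = G.sw q e) ∧ (∀ e ∈ G.ins X, G.sw r e = 0) ∧
      G.sw r a = 0 ∧ G.sw r b = G.n a + G.n b + p (G.ie X a) + p (G.ie X b) + q (G.oe X a) +
        q (G.oe X b) := by
  have ha : a ∈ G.cut X := by simp [hX]
  have hb : b ∈ G.cut X := by simp [hX]
  refine ⟨fun v => if v ∈ X then p v + (G.n a + p (G.ie X a) + q (G.oe X a)) else q v,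
    fun e he => ?_, fun e he => ?_, ?_, ?_⟩
  · obtain ⟨-, k1, k2⟩ := mem_ins.1 he
    simp [sw, (mem_sdiff.1 k1).2, (mem_sdiff.1 k2).2]
  · obtain ⟨-, k1, k2⟩ := mem_ins.1 he
    have := hp e he
    simp only [sw, k1, k2, if_true] at this ⊢
    linear_combination this + z2_add_self (G.n a + p (G.ie X a) + q (G.oe X a))
  · rw [Cut_sw (je_ie_oe (X := X)), if_pos (ie_mem (cut_sub_tch ha)), if_neg (oe_not_mem ha)]
    linear_combination z2_add_self (G.n a + p (G.ie X a) + q (G.oe X a))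
  · rw [Cut_sw (je_ie_oe (X := X)), if_pos (ie_mem (cut_sub_tch hb)), if_neg (oe_not_mem hb)]
    ring

theorem Se.cub (h : G.Se G' X a b τ) (hc : G.Cub) : G'.Cub ∧ G'.A.card < G.A.card := by
  obtain ⟨ha, hb, h1, h2, -⟩ := AGad_sA h
  refine ⟨fun v => ?_, card_lt_card ⟨?_, fun k => ?_⟩⟩
  · by_cases hv : v ∈ X
    · refine .inl (Nat.eq_zero_of_not_pos fun k => ?_)
      obtain ⟨f, k1, k2⟩ := mem_vs.1 (deg_pos.1 k)
      exact (AGad_sact h f k1 v k2).2 hv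
    have k : G'.deg G'.A v = G.deg G.A v := by
      rw [AGad_deg (G := G) (X := univ \ X) (by simp [hv]), cut_compl, h.hX, sum_pair h.ne,
        AGad_co ha, AGad_co hb, h1, deg, sum_insert h2, inc, h.ed.1, h.ed.2.1, add_comm, deg]
      congr 1
      refine sum_congr rfl fun e he => ?_
      obtain ⟨k1, k2, -⟩ := h.oth e fun k => h2 (k ▸ he)
      rw [inc, k1, k2, inc]
    rw [k]
    exact hc v
  · rw [h.hA]
    exact (erase_subset _ _).trans sdiff_subset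
  · have := k (mem_cut.1 hb).1
    simp [h.hA] at this

theorem Se.back (h : G.Se G' X a b τ) {f : E → ℤ} (hf : G'.Fl6 f) :
    ∃ g, G.Out X g ∧ (∀ e, e ≠ b → |g e| = |f e|) ∧ |g b| = |f a| ∧
      G.out X g a + chi (τ + G.n a + G.n b) * G.out X g b = 0 := by
  obtain ⟨ha, hb, h1, h2, h3⟩ := AGad_sA h
  have ha' : a ∈ G.cut (univ \ X) := cut_compl (G := G) (X := X) ▸ ha
  have hb' : b ∈ G.cut (univ \ X) := cut_compl (G := G) (X := X) ▸ hb
  obtain ⟨g, g1, g2, g3⟩ : ∃ g : E → ℤ, G.out (univ \ X) g a = f a ∧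
      G.out (univ \ X) g b = -(chi τ * f a) ∧ ∀ e, e ≠ a → e ≠ b → g e = f e := by
    refine ⟨fun e => if e = a then G.kap (fun _ => 0) (univ \ X) a * f a else if e = b then
      G.kap (fun _ => 0) (univ \ X) b * -(chi τ * f a) else f e, ?_, ?_,
      fun e k k' => by simp [k, k']⟩
    · simp only [out, if_true]
      rw [← mul_assoc, (kap_sign (fun _ => 0) ha').2, one_mul]
    · simp only [out, if_true, h.ne.symm, if_false]
      rw [← mul_assoc, (kap_sign (fun _ => 0) hb').2, one_mul]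
  have g4 : |g a| = |f a| := by
    rcases Def6_out g ha' with k | k <;> rw [← g1, k]
    exact (abs_neg _).symm
  have g5 : |g b| = |f a| := by
    rw [abs_eq_abs]
    rcases Def6_out g hb' with k | k <;> rcases z2 τ with rfl | rfl <;>
      simp only [chi_zero, chi_one] at g2 <;> omega
  have g6 : ∀ e, e ≠ b → |g e| = |f e| := fun e he => by
    by_cases k : e = a
    · rw [k, g4]
    · rw [g3 e k he]
  refine ⟨g, ⟨fun v hv => ?_, fun e he he' => ?_⟩, g6, g5, ?_⟩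
  · have := hf.1 v
    rw [bd, h1, sum_insert h2, h.ed.1, h.ed.2.1, h.ed.2.2] at this
    rw [Def6_bd (X := univ \ X) (by simp [hv]), cut_compl, h.hX, sum_pair h.ne, AGad_co ha,
      AGad_co hb, g1, g2, ← this, add_comm]
    congr 1
    · ring
    refine sum_congr rfl fun e he => ?_
    obtain ⟨k1, k2, k3⟩ := h.oth e fun k => h2 (k ▸ he)
    rw [k1, k2, k3, g3 e (fun k => h2 (k ▸ he)) fun k => h3 (k ▸ he)]
  · rw [← abs_ne_zero]
    by_cases k : e = b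
    · rw [k, g5, abs_ne_zero]
      exact hf.2 a (by simp [h1])
    · rw [g6 e k, abs_ne_zero]
      exact hf.2 e (by simp [h.hA, k, he, he'])
  · rw [out_link g sdiff_disjoint ha' ha, out_link g sdiff_disjoint hb' hb, g1, g2, chi_add,
      chi_add]
    linear_combination (chi (G.n a) * chi (G.n b) * chi (G.n b) * f a : ℤ) * chi_mul_self (R := ℤ) τ +
      (chi (G.n a) * f a : ℤ) * chi_mul_self (R := ℤ) (G.n b)

/-- HINT: `brg_lv`; if the bridge is `b` prescribe the value on `a`; `Se.back`, `Out.glue`. -/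
theorem Se.six (hc : G.Cub) (hC : G.Con) (n1 : G.N1) (h : G.Se G' X a b τ) (h6 : G'.Six)
    (hl : ∀ l ∈ X, ¬ G.Lv l)
    (hE : ∀ g, G.Bv X g → |g a| = |g b| →
      G.out X g a + chi (τ + G.n a + G.n b) * G.out X g b = 0 → G.Ext X g) : G.Six := by
  intro e0 c hc0
  obtain ⟨ha, hb, -⟩ := AGad_sA h
  obtain ⟨f, f1, f2⟩ := h6 (if e0 = b then a else e0) c hc0
  obtain ⟨g, g1, g2, g3, g4⟩ := h.back f1
  obtain ⟨F, k1, k2⟩ := g1.glue (hE g (fun e he => g1.2 e (mem_cut.1 he).1 (not_ins_of_cut he))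
    ((g2 a h.ne).trans g3.symm) g4)
  refine ⟨F, k1, fun hB => ?_⟩
  obtain ⟨l, l1, l2⟩ := brg_lv hc hC n1 hB
  have l3 : Disjoint {l} X := disjoint_singleton_left.2 fun k => hl l k l1
  have l4 : e0 ∈ G.cut {l} := l2 ▸ mem_singleton_self e0
  obtain ⟨-, l5, l6⟩ := AGad_nb h l3 fun k => by
    have k3 := (AGad_cz l3 ha).1.2 k.1
    have k4 := (AGad_cz l3 hb).1.2 k.2
    rw [l2, mem_singleton] at k3 k4
    exact h.ne (k3.trans k4.symm)
  rw [l2, card_singleton] at l5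
  obtain ⟨y, hy⟩ := card_eq_one.1 l5
  have l7 := l6 e0 l4
  rw [hy, mem_singleton] at l7
  rw [k2 e0 fun k => ?_, ← f2 ⟨{l}, l7 ▸ hy⟩]
  · split_ifs with k
    · rw [k, g3]
    · exact g2 e0 k
  · have := (Pth_ends (je_ie_oe (X := {l}))).1 (mem_ins.1 k).2
    exact disjoint_left.1 l3 (ie_mem (cut_sub_tch l4)) this.1

theorem Se.adm_bal (hA : G.Adm2) (hp : ∀ e ∈ G.ins X, G.sw p e = 0)
    (hr : G.Rch (G.ins X) (G.ie X a) (G.ie X b))
    (h : G.Se G' X a b (G.n a + G.n b + p (G.ie X a) + p (G.ie X b))) : G'.Adm2 := by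
  obtain ⟨ha, hb, -⟩ := AGad_sA h
  have k0 : ∀ Z, G'.ins Z = G'.ins (Z \ X) ∧ G'.cut Z = G'.cut (Z \ X) := fun Z =>
    AGad_loc fun f hf v hv => by simp [(AGad_sact h f hf v hv).2]
  have k1 : ∀ Z, Disjoint Z X → ∀ z q, (∀ e ∈ G.ins Z, e ≠ z → G.sw q e = 0) →
      ∃ r, (∀ e ∈ G.ins (Z ∪ X), e ≠ z → e ≠ b → G.sw r e = 0) ∧ G.sw r b = G'.sw q a := by
    intro Z hZ z q hq
    obtain ⟨r, r1, r2, r3, r4⟩ := AGad_lift h.hX hp q
    refine ⟨r, fun e he k k' => ?_, r4.trans (AGad_sw h q).1.symm⟩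
    rcases AGad_insU h.hX he with l | l | rfl | rfl
    · rw [r1 e (ins_mono (subset_sdiff.2 ⟨subset_univ _, hZ⟩) l), hq e l k]
    exacts [r2 e l, r3, absurd rfl k']
  refine ⟨fun Z hZ hB => ?_, fun Z hZ hB z hz => ?_⟩
  · rw [(k0 Z).2] at hZ
    rw [(k0 Z).1] at hB
    have hd : Disjoint (Z \ X) X := sdiff_disjoint
    generalize Z \ X = Z0 at hZ hB hd
    have a1 := (AGad_cz hd ha).2.1
    by_cases k : G.oe X a ∈ Z0 ∧ G.oe X b ∈ Z0
    · obtain ⟨k2, k3⟩ := AGad_both h hd k.1 k.2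
      obtain ⟨q, hq⟩ := hB
      rw [k2] at hq
      obtain ⟨r, r1, r2⟩ := k1 Z0 hd b q fun e he _ => by
        rw [← (AGad_sw h q).2 e fun l => a1 (l ▸ he), hq e (mem_insert_of_mem he)]
      refine hA.1 _ (k3 ▸ hZ) ⟨r, fun e he => ?_⟩
      by_cases l : e = b
      · rw [l, r2, hq a (mem_insert_self _ _)]
      · exact r1 e he l l
    · obtain ⟨k2, k3, -⟩ := AGad_nb h hd k
      exact hA.1 Z0 (k3 ▸ hZ) ((AGad_sbal h a1).1 (k2 ▸ hB))
  rw [(k0 Z).2] at hZ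
  rw [(k0 Z).1] at hB hz
  have hd : Disjoint (Z \ X) X := sdiff_disjoint
  generalize Z \ X = Z0 at hZ hB hz hd
  have a1 := (AGad_cz hd ha).2.1
  by_cases k : G.oe X a ∈ Z0 ∧ G.oe X b ∈ Z0
  swap
  · obtain ⟨k2, k3, -⟩ := AGad_nb h hd k
    rw [k2] at hB hz
    rw [hZ, card_empty, eq_comm, card_eq_zero] at k3
    exact hA.2 Z0 k3 (fun l => hB ((AGad_sbal h a1).2 l)) z
      ((AGad_sbal h fun l => a1 (mem_of_mem_erase l)).1 hz)
  obtain ⟨k2, k3⟩ := AGad_both h hd k.1 k.2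
  rw [k2] at hB hz
  have k4 : ¬ G.Bal (G.ins (Z0 ∪ X)) := by
    rintro ⟨r, hr'⟩
    refine hB ⟨r, fun e he => ?_⟩
    rcases mem_insert.1 he with rfl | l
    swap
    · rw [(AGad_sw h r).2 e fun l' => a1 (l' ▸ l)]
      exact hr' e (ins_mono subset_union_left l)
    have l1 : ∀ f ∈ G.cut X, G.oe X f ∈ Z0 → G.n f + r (G.ie X f) + r (G.oe X f) = 0 :=
      fun f hf hf' => (Cut_sw je_ie_oe r).symm.trans (hr' f (Cut_je_ins (mem_cut.1 hf).1 je_ie_oe
        (mem_union_right _ (ie_mem (cut_sub_tch hf))) (mem_union_left _ hf')))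
    have l2 : r (G.ie X b) + p (G.ie X b) = r (G.ie X e) + p (G.ie X e) := by
      refine hr.closed (P := fun v => r v + p v = r (G.ie X e) + p (G.ie X e)) (fun f hf => ?_) rfl
      have m1 := hp f hf
      have m2 := hr' f (ins_mono subset_union_right hf)
      rw [sw] at m1 m2
      have : r (G.s f) + p (G.s f) = r (G.t f) + p (G.t f) := by
        linear_combination m1 + m2 - z2_add_self (G.n f + r (G.t f) + p (G.t f))
      rw [this]
    rw [(AGad_sw h r).1]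
    linear_combination l1 e ha k.1 + l1 b hb k.2 + l2 + z2_add_self (p (G.ie X e)) -
      z2_add_self (r (G.ie X b))
  obtain ⟨q, hq⟩ := hz
  obtain ⟨r, r1, r2⟩ := k1 Z0 hd z q fun e he l => by
    rw [← (AGad_sw h q).2 e fun l => a1 (l ▸ he), hq e (mem_erase.2 ⟨l, mem_insert_of_mem he⟩)]
  by_cases l : z = a
  · obtain ⟨r, r1, -⟩ := k1 Z0 hd b q fun e he _ => by
      have l' : e ≠ a := fun l => a1 (l ▸ he)
      rw [← (AGad_sw h q).2 e l', hq e (mem_erase.2 ⟨l ▸ l', mem_insert_of_mem he⟩)]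
    exact hA.2 _ (k3 ▸ hZ) k4 b ⟨r, fun e he =>
      r1 e (mem_of_mem_erase he) (ne_of_mem_erase he) (ne_of_mem_erase he)⟩
  · refine hA.2 _ (k3 ▸ hZ) k4 z ⟨r, fun e he => ?_⟩
    by_cases l' : e = b
    · rw [l', r2, hq a (mem_erase.2 ⟨Ne.symm l, mem_insert_self _ _⟩)]
    · exact r1 e (mem_of_mem_erase he) (ne_of_mem_erase he) l'

theorem AGad_fail (hc : G.Cub) (hA : G.Adm2) (hC : G.Con) (n1 : G.N1) (n2 : G.N2)
    (hv : X ⊆ G.vs G.A) (h2 : 2 ≤ X.card) (h : G.Se G' X a b τ) (hn : ¬ G'.Adm2) :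
    ∃ z q, (∀ e ∈ G.ins (G.vs G.A \ X), e ≠ z → G.sw q e = 0) ∧
      τ + q (G.oe X a) + q (G.oe X b) = 0 := by
  obtain ⟨ha, hb, -⟩ := AGad_sA h
  by_contra hq
  have k0 : ∀ Z, ∃ Z0 ⊆ G.vs G.A, Disjoint Z0 X ∧ G'.ins Z = G'.ins Z0 ∧ G'.cut Z = G'.cut Z0 :=
    fun Z => ⟨(Z ∩ G.vs G.A) \ X, sdiff_subset.trans inter_subset_right, sdiff_disjoint,
      AGad_loc fun f hf v hv => by simp [AGad_sact h f hf v hv]⟩
  have k1 : X.Nonempty := card_pos.1 (by omega)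
  refine hn ⟨fun Z hZ hB => ?_, fun Z hZ hB z hz => ?_⟩ <;> obtain ⟨Z0, hs, hd, l1, l2⟩ := k0 Z <;>
    rw [l2] at hZ <;> rw [l1] at hB <;> have a1 := (AGad_cz hd ha).2.1 <;>
    by_cases k : G.oe X a ∈ Z0 ∧ G.oe X b ∈ Z0
  · obtain ⟨k2, k3⟩ := AGad_both h hd k.1 k.2
    obtain ⟨q, hq'⟩ := hB
    rw [k3] at hZ
    rw [k2] at hq'
    rcases small_cut hc hC n1 (union_subset hs hv) (k1.mono subset_union_right) hZ.le with
      ⟨l, -, m1⟩ | m1 | ⟨l, m1, m2⟩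
    · have := card_le_card (subset_union_right (s₁ := Z0) (s₂ := X))
      rw [m1, card_singleton] at this
      omega
    · rw [← SpSet_compl, m1, sdiff_self] at hZ
      simp [cut, crs] at hZ
    obtain ⟨m, g, m3, m4⟩ := m1.str hc
    have m5 : l ∉ Z0 ∪ X := (mem_sdiff.1 (m2 ▸ mem_singleton_self l : l ∈ G.vs G.A \ _)).2
    have m6 : ∀ v ∈ G.vs G.A \ X, v ≠ l → v ∈ Z0 := fun v hv' hl => by
      by_contra m7
      have : v ∈ G.vs G.A \ (Z0 ∪ X) := by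
        rw [mem_sdiff] at hv'
        simp [hv', m7]
      exact hl (mem_singleton.1 (m2 ▸ this))
    have m7 : ∀ v ∈ Z0, v ≠ l := fun v hv' hl => m5 (mem_union_left _ (hl ▸ hv'))
    have m8 : g ∈ G.cut {l} := m4 ▸ mem_singleton_self g
    refine hq ⟨m, Function.update q l (G.n g + q (G.oe {l} g)), fun e he hm => ?_, ?_⟩
    · obtain ⟨e1, e2, e3⟩ := mem_ins.1 he
      by_cases e4 : e ∈ G.tch {l}
      · have e5 : e = g := by
          rcases mem_tch_iff.1 e4 with e5 | e5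
          · exact absurd (mem_singleton.1 (m3 ▸ e5)) hm
          · exact mem_singleton.1 (m4 ▸ e5)
        rw [e5, Cut_sw (je_ie_oe (X := {l})), mem_singleton.1 (ie_mem (cut_sub_tch m8)),
          Function.update_self, Function.update_of_ne (by simpa using oe_not_mem m8)]
        linear_combination z2_add_self (G.n g + q (G.oe {l} g))
      · simp only [mem_tch, e1, true_and, mem_singleton, not_or] at e4
        have e5 : e ∈ G.ins Z0 := mem_ins.2 ⟨e1, m6 _ e2 e4.1, m6 _ e3 e4.2⟩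
        rw [sw, Function.update_of_ne e4.1, Function.update_of_ne e4.2, ← sw,
          ← (AGad_sw h q).2 e fun l => a1 (l ▸ e5), hq' e (mem_insert_of_mem e5)]
    · rw [Function.update_of_ne (m7 _ k.1), Function.update_of_ne (m7 _ k.2), ← (AGad_sw h q).1,
        hq' a (mem_insert_self _ _)]
  · obtain ⟨k2, k3, -⟩ := AGad_nb h hd k
    exact hA.1 Z0 (k3 ▸ hZ) ((AGad_sbal h a1).1 (k2 ▸ hB))
  · obtain ⟨k2, k3⟩ := AGad_both h hd k.1 k.2
    rw [k3] at hZ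
    rw [l1, k2] at hz
    obtain ⟨x, hx⟩ := k1
    have k4 := Cn.sub_of_crs hC hZ (hv hx) (mem_union_right _ hx)
    have k5 : G.vs G.A \ X = Z0 := by
      refine Subset.antisymm (fun v hv' => ?_) (subset_sdiff.2 ⟨hs, hd⟩)
      exact (mem_union.1 (k4 (mem_sdiff.1 hv').1)).resolve_right (mem_sdiff.1 hv').2
    obtain ⟨q, hq'⟩ := hz
    have k6 : ∀ e ∈ G.ins Z0, e ≠ z → G.sw q e = 0 := fun e he l => by
      rw [← (AGad_sw h q).2 e fun l => a1 (l ▸ he), hq' e (mem_erase.2 ⟨l, mem_insert_of_mem he⟩)]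
    by_cases l : z = a
    · exact n2 Z0 (by rw [← k5, SpSet_compl, h.hX, card_pair h.ne])
        ⟨q, fun e he => k6 e he fun l' => a1 (l ▸ l' ▸ he)⟩
    · exact hq ⟨z, q, k5 ▸ k6, by
        rw [← (AGad_sw h q).1, hq' a (mem_erase.2 ⟨Ne.symm l, mem_insert_self _ _⟩)]⟩
  · obtain ⟨k2, k3, -⟩ := AGad_nb h hd k
    rw [l1, k2] at hz
    rw [k2] at hB
    rw [hZ, card_empty, eq_comm, card_eq_zero] at k3
    exact hA.2 Z0 k3 (fun l => hB ((AGad_sbal h a1).2 l)) z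
      ((AGad_sbal h fun l => a1 (mem_of_mem_erase l)).1 hz)

omit [Fintype V] in
theorem AGad_lvl {U : Finset V} (d : V → ZMod 2) (c : ZMod 2) :
    (e ∈ G.cut (U.filter fun v => d v = c) ↔
      (e ∈ G.cut U ∧ d (G.ie U e) = c) ∨ (e ∈ G.ins U ∧ d (G.s e) ≠ d (G.t e))) := by
  simp only [mem_cut, mem_ins, mem_filter, ie]
  by_cases h0 : e ∈ G.A <;> by_cases h1 : G.s e ∈ U <;> by_cases h2 : G.t e ∈ U <;>
    simp [h0, h1, h2]
  generalize d (G.s e) = x, d (G.t e) = y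
  revert x y c
  decide

theorem AGad_one (hA : G.Adm1) (n3 : G.N3) {U : Finset V} (hU : U ⊆ G.vs G.A)
    (hX : G.cut U = {a, b}) {z0 z1 : E} {p0 p1 : V → ZMod 2}
    (h0 : ∀ e ∈ G.ins U, e ≠ z0 → G.sw p0 e = 0) (h1 : ∀ e ∈ G.ins U, e ≠ z1 → G.sw p1 e = 0)
    (m0 : z0 ∈ G.ins U ∧ G.sw p0 z0 = 1) (m1 : z1 ∈ G.ins U ∧ G.sw p1 z1 = 1)
    (hd : p0 (G.ie U a) + p1 (G.ie U a) ≠ p0 (G.ie U b) + p1 (G.ie U b)) :
    (z0 = z1 → p0 (G.s z0) + p1 (G.s z0) = p0 (G.ie U a) + p1 (G.ie U a)) ∧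
    (z0 ≠ z1 → ∀ v ∈ U, p0 v + p1 v = p0 (G.ie U a) + p1 (G.ie U a) → v = G.ie U a) := by
  have ha : a ∈ G.cut U := by simp [hX]
  have k0 : ∀ e, p0 (G.s e) + p1 (G.s e) ≠ p0 (G.t e) + p1 (G.t e) ↔ G.sw p0 e ≠ G.sw p1 e := by
    intro e
    rw [sw, sw]
    generalize G.n e = x, p0 (G.s e) = y, p1 (G.s e) = z, p0 (G.t e) = u, p1 (G.t e) = w
    revert x y z u w
    decide
  have k1 : ∀ e, e ∈ G.cut (U.filter fun v => p0 v + p1 v = p0 (G.ie U a) + p1 (G.ie U a)) ↔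
      e = a ∨ (e ∈ G.ins U ∧ G.sw p0 e ≠ G.sw p1 e) := fun e => by
    rw [AGad_lvl (fun v => p0 v + p1 v), k0, hX, mem_insert, mem_singleton]
    refine or_congr_left ⟨?_, fun k => ⟨.inl k, k ▸ rfl⟩⟩
    rintro ⟨k | k, k'⟩
    exacts [k, absurd (k ▸ k').symm hd]
  have k2 : G.ie U a ∈ U.filter fun v => p0 v + p1 v = p0 (G.ie U a) + p1 (G.ie U a) :=
    mem_filter.2 ⟨ie_mem (cut_sub_tch ha), rfl⟩
  have k3 : ∀ v, v ∈ U.filter (fun v => p0 v + p1 v = p0 (G.ie U a) + p1 (G.ie U a)) ↔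
      v ∈ U ∧ p0 v + p1 v = p0 (G.ie U a) + p1 (G.ie U a) := fun v => mem_filter
  generalize (U.filter fun v => p0 v + p1 v = p0 (G.ie U a) + p1 (G.ie U a)) = Z at k1 k2 k3
  have k4 : Z ⊆ U := fun v hv => ((k3 v).1 hv).1
  have k5 : z0 ∉ G.ins Z → G.Bal (G.ins Z) := fun k =>
    ⟨p0, fun e he => h0 e (ins_mono k4 he) fun l => k (l ▸ he)⟩
  refine ⟨fun hz => ?_, fun hz v hv hv' => ?_⟩
  · subst hz
    by_contra k
    refine hA Z (card_eq_one.2 ⟨a, ?_⟩) (k5 fun l => k ((k3 _).1 (mem_ins.1 l).2.1).2)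
    ext e
    rw [k1, mem_singleton, or_iff_left]
    rintro ⟨l1, l2⟩
    by_cases l : e = z0
    · exact l2 (by rw [l, m0.2, m1.2])
    · exact l2 (by rw [h0 e l1 l, h1 e l1 l])
  have k6 : G.cut Z = {a, z0, z1} := by
    ext e
    rw [k1, mem_insert, mem_insert, mem_singleton]
    refine or_congr_right ⟨fun l => ?_, ?_⟩
    · by_contra l'
      rw [not_or] at l'
      exact l.2 (by rw [h0 e l.1 l'.1, h1 e l.1 l'.2])
    · rintro (rfl | rfl)
      · exact ⟨m0.1, by rw [m0.2, h1 e m0.1 hz]; exact one_ne_zero⟩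
      · exact ⟨m1.1, by rw [m1.2, h0 e m1.1 hz.symm]; exact zero_ne_one⟩
  have k7 : (G.cut Z).card = 3 := card_eq_three.2 ⟨a, z0, z1,
    fun k => not_ins_of_cut ha (k ▸ m0.1), fun k => not_ins_of_cut ha (k ▸ m1.1), hz, k6⟩
  by_contra k
  refine n3 Z k7 ?_ (k5 (not_ins_of_cut (by simp [k6])))
  rw [inter_eq_left.2 (k4.trans hU)]
  exact one_lt_card.2 ⟨v, (k3 v).2 ⟨hv, hv'⟩, _, k2, k⟩

/-- One of the two signs is admissible unless the rest is a digon.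
HINT: `U = vs A \ X` is unbalanced (`N2`).  If the outer ends are not connected inside `U` then
`U` consists of two loop vertices (`small_cut`) and both signs work.  Otherwise a sign fails only
if the new graph minus an edge `z` of `ins U` is balanced (for a set with one leaving edge use
`small_cut` and take the loop).  If both fail, with edges `z0, z1` and potentials `p0, p1`, let
`Z` be the set of vertices of `U` where `p0 + p1` has the value it has at the outer end of `a`: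
`z0 ≠ z1`, the cut of `Z` is `{a, z0, z1}`, so `Z` and `U \ Z` are single vertices by `N3`. -/
theorem se_adm (hc : G.Cub) (hA : G.Adm2) (hC : G.Con) (n1 : G.N1) (n2 : G.N2) (n3 : G.N3)
    (hX : G.cut X = {a, b}) (hab : a ≠ b) (hv : X ⊆ G.vs G.A) (h2 : 2 ≤ X.card) :
    (∃ τ, ∀ G', G.Se G' X a b τ → G'.Adm2) ∨ G.Dg (G.vs G.A \ X) := by
  refine or_iff_not_imp_left.2 fun hn => ?_
  push Not at hn
  obtain ⟨G0, g0, g0'⟩ := hn 0
  obtain ⟨G1, g1, g1'⟩ := hn 1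
  obtain ⟨z0, p0, h0, s0⟩ := AGad_fail hc hA hC n1 n2 hv h2 g0 g0'
  obtain ⟨z1, p1, h1, s1⟩ := AGad_fail hc hA hC n1 n2 hv h2 g1 g1'
  have hU : G.cut (G.vs G.A \ X) = {a, b} := (SpSet_compl X).trans hX
  have k0 : ∀ e ∈ G.cut X, G.oe X e = G.ie (G.vs G.A \ X) e := fun e he =>
    eq_ie (SpSet_compl (G := G) X ▸ he)
      (mem_sdiff.2 ⟨mem_vs.2 ⟨e, (mem_cut.1 he).1, oe_at⟩, oe_not_mem he⟩) oe_at
  rw [k0 a (by simp [hX]), k0 b (by simp [hX])] at s0 s1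
  have hs : G.vs G.A \ X ⊆ G.vs G.A := sdiff_subset
  generalize G.vs G.A \ X = U at h0 h1 s0 s1 hU hs
  have k1 := n2 U (by rw [hU, card_pair hab])
  have k2 : ∀ z q, (∀ e ∈ G.ins U, e ≠ z → G.sw q e = 0) → z ∈ G.ins U ∧ G.sw q z = 1 := by
    intro z q hq
    by_contra k
    refine k1 ⟨q, fun e he => ?_⟩
    by_cases l : e = z
    · exact by_contra fun l' => k (l ▸ ⟨he, (z2_ne _).1 l'⟩)
    · exact hq e he l
  have m0 := k2 z0 p0 h0
  have m1 := k2 z1 p1 h1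
  have hd : p0 (G.ie U a) + p1 (G.ie U a) ≠ p0 (G.ie U b) + p1 (G.ie U b) := fun k =>
    one_ne_zero (α := ZMod 2) (by
      linear_combination s0 + s1 - k - z2_add_self (p0 (G.ie U b) + p1 (G.ie U b)))
  obtain ⟨k3, k4⟩ := AGad_one hA.1 n3 hs hU h0 h1 m0 m1 hd
  obtain ⟨k5, k6⟩ := AGad_one hA.1 n3 hs (hU.trans (pair_comm a b)) h0 h1 m0 m1 hd.symm
  have hz : z0 ≠ z1 := fun k => hd ((k3 k).symm.trans (k5 k))
  have k7 : ∀ v ∈ U, v = G.ie U a ∨ v = G.ie U b := fun v hv => by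
    by_cases k : p0 v + p1 v = p0 (G.ie U a) + p1 (G.ie U a)
    · exact .inl (k4 hz v hv k)
    · refine .inr (k6 hz v hv ?_)
      revert k hd
      generalize p0 v + p1 v = x, p0 (G.ie U a) + p1 (G.ie U a) = y,
        p0 (G.ie U b) + p1 (G.ie U b) = z
      revert x y z
      decide
  have k8 : ∀ e ∈ G.ins U, G.sw p0 e ≠ G.sw p1 e → G.Je e (G.ie U a) (G.ie U b) := by
    intro e he k
    have l : G.s e ≠ G.t e := fun l => k (by
      rw [sw, sw, l, add_assoc, add_assoc, z2_add_self, z2_add_self])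
    rcases k7 _ (mem_ins.1 he).2.1 with l1 | l1 <;> rcases k7 _ (mem_ins.1 he).2.2 with l2 | l2
    exacts [absurd (l1.trans l2.symm) l, .inl ⟨l1, l2⟩, .inr ⟨l1, l2⟩, absurd (l1.trans l2.symm) l]
  have j0 := k8 z0 m0.1 (by rw [m0.2, h1 z0 m0.1 hz]; exact one_ne_zero)
  have j1 := k8 z1 m1.1 (by rw [m1.2, h0 z1 m1.1 hz.symm]; exact zero_ne_one)
  refine ⟨G.ie U a, G.ie U b, z0, z1, fun k => hd (by rw [k]), ?_, ins_sub_A m0.1, ins_sub_A m1.1,
    j0, j1, fun k => ?_, by rw [hU, card_pair hab]⟩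
  · refine Subset.antisymm (fun v hv => by simpa using k7 v hv)
      (Cut_pair (ie_mem (cut_sub_tch ?_)) (ie_mem (cut_sub_tch ?_))) <;> simp [hU]
  · have l0 := m0.2
    have l1 := h0 z1 m1.1 hz.symm
    rw [Cut_sw j0, k, ← Cut_sw j1, l1] at l0
    exact zero_ne_one l0

/-- two digons in series accept two values of the same size.  HINT: give the link a value of the
same parity and a different size; `Dg.ext` twice. -/
theorem dd_ext (hc : G.Cub) {N' : Finset V} {m : E} (hN : G.Dg N) (hN' : G.Dg N')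
    (hd : Disjoint N N') (h1 : G.cut N = {a, m}) (h2 : G.cut N' = {m, b}) (hab : a ≠ b)
    (hB : G.Bv (N ∪ N') h) (he : |h a| = |h b|) : G.Ext (N ∪ N') h := by
  have k0 : ∀ {M x y}, G.Dg M → G.cut M = {x, y} → x ≠ y := by
    rintro M x y ⟨-, -, -, -, -, -, -, -, -, -, -, k⟩ k' rfl
    simp [k'] at k
  have ham := k0 hN h1
  have hmb := k0 hN' h2
  have ma : a ∈ G.cut N := by simp [h1]
  have mb : b ∈ G.cut N' := by simp [h2]
  have m1 : m ∈ G.cut N := by simp [h1]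
  have m2 : m ∈ G.cut N' := by simp [h2]
  have na : a ∉ G.tch N' := fun k => by
    have := (Ab_link hd (cut_sub_tch ma) k).2
    simp [h2, ham, hab] at this
  have nb : b ∉ G.tch N := fun k => by
    have := (Ab_link hd k (cut_sub_tch mb)).1
    simp [h1, hmb.symm, hab.symm] at this
  have k1 : ∀ {M M' x}, x ∈ G.cut M → x ∉ G.tch M' → x ∈ G.cut (M ∪ M') := by
    intro M M' x l1 l2
    simp only [mem_cut, mem_tch, mem_union, not_and, not_or] at l1 l2 ⊢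
    simpa [l1.1, l2 l1.1] using l1.2
  obtain ⟨a1, a2⟩ := hB a (k1 ma na)
  obtain ⟨b1, b2⟩ := hB b (union_comm N N' ▸ k1 mb nb)
  obtain ⟨y, y1, y2, y3, y4⟩ : ∃ y : ℤ, y ≠ 0 ∧ |y| ≤ 5 ∧ 2 ∣ h a + y ∧ |h a| ≠ |y| := by
    refine ⟨if |h a| ≤ 3 then |h a| + 2 else |h a| - 2, ?_⟩
    have := abs_nonneg (h a)
    rcases abs_cases (h a) with k | k <;> split_ifs <;>
      simp only [Ne, abs_le, abs_eq_abs] <;> omega
  obtain ⟨f, f1, f2, f3⟩ := Dg.ext (h := Function.update h m y) hc hN h1 (fun e l => by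
      rw [h1, mem_insert, mem_singleton] at l
      rcases l with rfl | rfl
      · rw [Function.update_of_ne ham]
        exact ⟨a1, a2⟩
      · rw [Function.update_self]
        exact ⟨y1, y2⟩)
    (by rwa [Function.update_of_ne ham, Function.update_self, even_iff_two_dvd])
    (by rwa [Function.update_of_ne ham, Function.update_self])
  have f4 := f1 a ma
  have f5 := f1 m m1
  rw [Function.update_of_ne ham] at f4
  rw [Function.update_self] at f5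
  have k2 : m ∉ G.cut (N ∪ N') := fun k => not_ins_of_cut k (ie_link hd m1 m2).2
  refine Ext.trans (f := fun e => if e ∈ G.tch N then f e else h e) subset_union_right
    (fun e l => ?_) (fun v hv => ?_) (fun e l l' => ?_) (Dg.ext hc hN' h2 (fun e l => ?_) ?_ ?_)
  · split_ifs with l'
    · have := (cut_of_sub subset_union_left l l').1
      rw [h1, mem_insert, mem_singleton] at this
      rcases this with rfl | rfl
      exacts [f4, absurd l k2]
    · rfl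
  · have hv' := (mem_union.1 (mem_sdiff.1 hv).1).resolve_right (mem_sdiff.1 hv).2
    rw [← f2 v hv']
    exact bd_congr fun e l l' => if_pos (Cut_tch l l' hv')
  · have l1 : e ∈ G.tch N := by
      simp only [mem_ins, mem_tch, mem_union] at l l' ⊢
      refine ⟨l.1, by_contra fun k => l' ⟨l.1, ?_, ?_⟩⟩
      exacts [l.2.1.resolve_left fun k' => k (.inl k'), l.2.2.resolve_left fun k' => k (.inr k')]
    rw [if_pos l1]
    rcases mem_tch_iff.1 l1 with l2 | l2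
    · exact f3 e l2
    · rw [h1, mem_insert, mem_singleton] at l2
      rcases l2 with rfl | rfl
      · exact f4 ▸ ⟨a1, a2⟩
      · exact f5 ▸ ⟨y1, y2⟩
  · rw [h2, mem_insert, mem_singleton] at l
    rcases l with rfl | rfl
    · simp only [cut_sub_tch m1, if_true, f5]
      exact ⟨y1, y2⟩
    · simp only [nb, if_false]
      exact ⟨b1, b2⟩
  · simp only [cut_sub_tch m1, if_true, f5, nb, if_false, even_iff_two_dvd]
    rw [abs_eq_abs] at he
    omega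
  · simp only [cut_sub_tch m1, if_true, f5, nb, if_false]
    exact he ▸ y4.symm

end SG

end Pool.Agent.Work.MP_8c679b_co
end
end
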