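import Pool.Agent.Work.MP_8c679b_co.K1.GT1
import Pool.Agent.Work.MP_8c679b_co.Six.GNorm

-- merged part: Pool.Agent.Work.MP_8c679b_co.Six.GCpmA
section
/-!
Tools for the lemma CPM: paths with their vertex set and sign, identification of vertices,
counting of cuts.
-/

set_option autoImplicit false
set_option linter.unusedSectionVars false

namespace Pool.Agent.Work.MP_8c679b_co

open Finset

namespace SG

variable {V E : Type} [Fintype V] [DecidableEq V] [DecidableEq E] {G : SG V E}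
  {T S K Y X : Finset V} {F F' : Finset E} {a b c d e : E} {x y z : V} {U U' : V → Prop}
  {σ σ' : ZMod 2} {n i j : ℕ} {v : ℕ → V} {g : ℕ → E}

/-- a path from `x` to `y` with vertex set `U` and sign `σ` -/
def GCpm_W (G : SG V E) (F : Finset E) (x y : V) (U : V → Prop) (σ : ZMod 2) : Prop :=
  ∃ n v g, G.Pth F n v g ∧ v 0 = x ∧ v n = y ∧ (∀ t, t ∈ pv n v ↔ U t) ∧ G.par (pe n g) = σ

theorem GCpm_of (hp : G.Pth F n v g) :
    G.GCpm_W F (v 0) (v n) (· ∈ pv n v) (G.par (pe n g)) :=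
  ⟨n, v, g, hp, rfl, rfl, fun _ => Iff.rfl, rfl⟩

theorem GCpm_W.rev (h : G.GCpm_W F x y U σ) : G.GCpm_W F y x U σ := by
  obtain ⟨n, v, g, h1, h2, h3, h4, h5⟩ := h
  refine ⟨n, _, _, h1.rev, h3, by simpa using h2, ?_, ?_⟩
  · rwa [pv_rev]
  · rwa [pe_rev]

theorem GCpm_W.mono (h : G.GCpm_W F x y U σ) (hF : F ⊆ F') : G.GCpm_W F' x y U σ := by
  obtain ⟨n, v, g, h1, h2⟩ := h
  exact ⟨n, v, g, h1.mono fun i hi => hF (h1.mem i hi), h2⟩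

theorem GCpm_W.left (h : G.GCpm_W F x y U σ) : U x := by
  obtain ⟨n, v, g, -, h2, -, h4, -⟩ := h
  exact (h4 x).1 (mem_pv.2 ⟨0, Nat.zero_le _, h2⟩)

theorem GCpm_W.right (h : G.GCpm_W F x y U σ) : U y := h.rev.left

theorem GCpm_W.cat (h : G.GCpm_W F x y U σ) (h' : G.GCpm_W F y z U' σ')
    (hd : ∀ t, U t → U' t → t = y) : G.GCpm_W F x z (fun t => U t ∨ U' t) (σ + σ') := by
  obtain ⟨n, v, g, h1, h2, h3, h4, h5⟩ := h
  obtain ⟨m, u, k, k1, k2, k3, k4, k5⟩ := h'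
  have he : v n = u 0 := h3.trans k2.symm
  have hp := h1.cat k1 he fun i hi l hl hil => k1.inj l hl 0 (Nat.zero_le _) (by
    rw [k2]
    exact hd _ ((h4 _).1 (mem_pv.2 ⟨i, hi, hil⟩)) ((k4 _).1 (mem_pv.2 ⟨l, hl, rfl⟩)))
  refine ⟨_, _, _, hp, (Pth_catL (Nat.zero_le _)).trans h2, ?_, fun t => ?_, ?_⟩
  · rw [Pth_catR he (Nat.le_add_right _ _), Nat.add_sub_cancel_left, k3]
  · rw [mem_pv_cat he, h4, k4]
  · rw [hp.par, ← h5, ← k5, h1.par, k1.par, sum_range_add]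
    congr 1
    · exact sum_congr rfl fun i hi => by rw [Pth_ceL (mem_range.1 hi)]
    · exact sum_congr rfl fun i _ => by
        rw [Pth_ceR (Nat.le_add_right _ _), Nat.add_sub_cancel_left]

theorem GCpm_seg (hp : G.Pth F n v g) (hij : i ≤ j) (hj : j ≤ n) :
    G.GCpm_W F (v i) (v j) (fun t => ∃ k, i ≤ k ∧ k ≤ j ∧ v k = t) (∑ k ∈ Ico i j, G.n (g k)) := by
  have h := hp.sub (i := i) (m := j - i) (by omega)
  refine ⟨_, _, _, h, rfl, congrArg v (by omega), fun t => ?_, ?_⟩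
  · rw [mem_pv]
    constructor
    · rintro ⟨k, hk, rfl⟩
      exact ⟨i + k, by omega, by omega, rfl⟩
    · rintro ⟨k, h1, h2, rfl⟩
      exact ⟨k - i, by omega, congrArg v (by omega)⟩
  · rw [h.par, sum_Ico_eq_sum_range]

theorem GCpm_edge (he : e ∈ F) (hj : G.Je e x y) (hxy : x ≠ y) :
    G.GCpm_W F x y (fun t => t = x ∨ t = y) (G.n e) := by
  have h := pth_one he hj hxy
  refine ⟨_, _, _, h, rfl, rfl, fun t => ?_, by rw [h.par, sum_range_one]⟩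
  rw [mem_pv]
  constructor
  · rintro ⟨k, -, rfl⟩
    split_ifs
    exacts [Or.inl rfl, Or.inr rfl]
  · rintro (rfl | rfl)
    exacts [⟨0, by omega, rfl⟩, ⟨1, le_rfl, rfl⟩]

theorem GCpm_W.congr (h : G.GCpm_W F x y U σ) (hU : ∀ t, U t ↔ U' t) (hσ : σ = σ') :
    G.GCpm_W F x y U' σ' := by
  obtain ⟨n, v, g, h1, h2, h3, h4, h5⟩ := h
  exact ⟨n, v, g, h1, h2, h3, fun t => (h4 t).trans (hU t), h5.trans hσ⟩

/-- the arc through the closing edge -/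
theorem GCpm_wrap (hp : G.Cyc F n v g) (hij : i < j) (hj : j ≤ n) :
    G.GCpm_W F (v j) (v i) (fun t => ∃ k ≤ n, (k ≤ i ∨ j ≤ k) ∧ v k = t)
      (∑ k ∈ Ico j (n + 1), G.n (g k) + ∑ k ∈ Ico 0 i, G.n (g k)) := by
  have hi := hp.pth.inj
  have h1 := GCpm_seg hp.pth hj le_rfl
  have h2 := GCpm_edge hp.cm hp.cj fun h => by have := hi n le_rfl 0 (by omega) h; omega
  have h3 := GCpm_seg hp.pth (Nat.zero_le i) (by omega)
  refine ((h1.cat h2 ?_).cat h3 ?_).congr (fun t => ?_) (by rw [sum_Ico_succ_top hj])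
  · rintro _ ⟨k, k1, k2, rfl⟩ (h | h)
    · exact h
    · have := hi k k2 0 (by omega) h
      omega
  · rintro _ h ⟨k, k1, k2, rfl⟩
    rcases h with ⟨l, l1, l2, h⟩ | h | h
    · have := hi l l2 k (by omega) h
      omega
    · have := hi k (by omega) n le_rfl h
      omega
    · exact h
  · constructor
    · rintro ((⟨k, k1, k2, rfl⟩ | rfl | rfl) | ⟨k, k1, k2, rfl⟩)
      · exact ⟨k, k2, Or.inr k1, rfl⟩
      · exact ⟨n, le_rfl, Or.inr hj, rfl⟩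
      · exact ⟨0, by omega, Or.inl (by omega), rfl⟩
      · exact ⟨k, by omega, Or.inl k2, rfl⟩
    · rintro ⟨k, k1, k2 | k2, rfl⟩
      · exact Or.inr ⟨k, by omega, k2, rfl⟩
      · exact Or.inl (Or.inl ⟨k, k2, k1, rfl⟩)

/-- the four arcs between four points of a circuit -/
theorem GCpm_four0 {p q r s : ℕ} (hp : G.Cyc F n v g) (h1 : p < q) (h2 : q < r) (h3 : r < s)
    (h4 : s ≤ n) : ∃ U1 U2 U3 U4 s1 s2 s3 s4, G.GCpm_W F (v p) (v q) U1 s1 ∧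
      G.GCpm_W F (v q) (v r) U2 s2 ∧ G.GCpm_W F (v r) (v s) U3 s3 ∧ G.GCpm_W F (v s) (v p) U4 s4 ∧
      (∀ t, U1 t → ¬ U3 t) ∧ (∀ t, U2 t → ¬ U4 t) ∧
      (∀ t, U1 t ∨ U2 t ∨ U3 t ∨ U4 t → t ∈ pv n v) ∧
      s1 + s2 + s3 + s4 = ∑ k ∈ range (n + 1), G.n (g k) := by
  have hi := hp.pth.inj
  refine ⟨_, _, _, _, _, _, _, _, GCpm_seg hp.pth h1.le (by omega), GCpm_seg hp.pth h2.le (by omega),
    GCpm_seg hp.pth h3.le h4, GCpm_wrap hp (by omega) h4, ?_, ?_, ?_, ?_⟩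
  · rintro _ ⟨k, k1, k2, rfl⟩ ⟨l, l1, l2, h⟩
    have := hi l (by omega) k (by omega) h
    omega
  · rintro _ ⟨k, k1, k2, rfl⟩ ⟨l, l1, l2, h⟩
    have := hi l (by omega) k (by omega) h
    omega
  · rintro _ (⟨k, k1, k2, rfl⟩ | ⟨k, k1, k2, rfl⟩ | ⟨k, k1, k2, rfl⟩ | ⟨k, k1, k2, rfl⟩) <;>
      exact mem_pv.2 ⟨k, by omega, rfl⟩
  · rw [range_eq_Ico, ← sum_Ico_consecutive _ (Nat.zero_le p) (by omega : p ≤ n + 1),
      ← sum_Ico_consecutive _ h1.le (by omega : q ≤ n + 1),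
      ← sum_Ico_consecutive _ h2.le (by omega : r ≤ n + 1),
      ← sum_Ico_consecutive _ h3.le (by omega : s ≤ n + 1)]
    ring

theorem GCpm_four {l l' : ℕ} (hp : G.Cyc F n v g) (h1 : i < l) (h2 : l < j) (hj : j ≤ n)
    (h3 : l' < i ∨ j < l') (h4 : l' ≤ n) : ∃ U1 U2 U3 U4 s1 s2 s3 s4,
      G.GCpm_W F (v i) (v l) U1 s1 ∧
      G.GCpm_W F (v l) (v j) U2 s2 ∧ G.GCpm_W F (v l') (v j) U3 s3 ∧ G.GCpm_W F (v i) (v l') U4 s4 ∧
      (∀ t, U1 t → ¬ U3 t) ∧ (∀ t, U4 t → ¬ U2 t) ∧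
      (∀ t, U1 t ∨ U2 t ∨ U3 t ∨ U4 t → t ∈ pv n v) ∧
      s1 + s2 + s3 + s4 = ∑ k ∈ range (n + 1), G.n (g k) := by
  rcases h3 with h3 | h3
  · obtain ⟨U1, U2, U3, U4, s1, s2, s3, s4, k1, k2, k3, k4, k5, k6, k7, k8⟩ :=
      GCpm_four0 hp h3 h1 h2 hj
    exact ⟨U2, U3, U4, U1, s2, s3, s4, s1, k2, k3, k4.rev, k1.rev, k6, k5,
      fun t ht => k7 t (by tauto), by rw [← k8]; ring⟩
  · obtain ⟨U1, U2, U3, U4, s1, s2, s3, s4, k1, k2, k3, k4, k5, k6, k7, k8⟩ :=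
      GCpm_four0 hp h1 h2 h3 h4
    exact ⟨U1, U2, U3, U4, s1, s2, s3, s4, k1, k2, k3.rev, k4.rev, k5, fun t h h' => k6 t h' h,
      k7, k8⟩

/-- two disjoint legs to an odd circuit -/
theorem GCpm_join {x' y' : V} (hp : G.Cyc F n v g) (ho : ∑ k ∈ range (n + 1), G.n (g k) = 1)
    (h1 : G.GCpm_W F x x' U σ) (h2 : G.GCpm_W F y' y U' σ') (hx : x' ∈ pv n v) (hy : y' ∈ pv n v)
    (hU : ∀ t, U t → t ∈ pv n v → t = x') (hU' : ∀ t, U' t → t ∈ pv n v → t = y')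
    (hd : ∀ t, U t → ¬ U' t) (ε : ZMod 2) :
    ∃ Z : V → Prop, G.GCpm_W F x y Z ε ∧ ∀ t, U t ∨ U' t → Z t := by
  obtain ⟨i, hi, rfl⟩ := mem_pv.1 hx
  obtain ⟨j, hj, rfl⟩ := mem_pv.1 hy
  obtain ⟨m, u, h, k1, k2, k3, k4, -, k5⟩ := hp.arcs hi hj
    (fun h => hd _ h1.right (h ▸ h2.left)) (ε + σ + σ') ho
  have k6 := GCpm_of k1
  rw [k2, k3, k5] at k6
  refine ⟨_, ((h1.cat k6 fun t a b => hU t a (k4 b)).cat h2 ?_).congr (fun _ => Iff.rfl) ?_,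
    fun t ht => by tauto⟩
  · rintro t (a | a) b
    · exact absurd b (hd t a)
    · exact hU' t b (k4 a)
  · linear_combination z2_add_self σ + z2_add_self σ'

/-- leg, arc, ear, arc, leg -/
theorem GCpm_five {D Ua Ub Ue : V → Prop} {α β t1 t2 : V} {sa sb se : ZMod 2}
    (ha : G.GCpm_W F t1 α Ua sa) (h1 : G.GCpm_W F α x U σ) (he : G.GCpm_W F x y Ue se)
    (h2 : G.GCpm_W F y β U' σ') (hb : G.GCpm_W F β t2 Ub sb) (hU : ∀ t, U t → D t)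
    (hU' : ∀ t, U' t → D t) (hd : ∀ t, U t → ¬ U' t) (da : ∀ t, Ua t → D t → t = α)
    (db : ∀ t, Ub t → D t → t = β) (de : ∀ t, Ue t → D t → t = x ∨ t = y)
    (dab : ∀ t, Ua t → ¬ Ub t) (dae : ∀ t, Ua t → ¬ Ue t) (dbe : ∀ t, Ub t → ¬ Ue t) :
    ∃ Z : V → Prop, G.GCpm_W F t1 t2 Z (sa + σ + se + σ' + sb) ∧ ∀ t, Ue t → Z t := by
  refine ⟨_, (((ha.cat h1 fun t a b => da t a (hU t b)).cat he ?_).cat h2 ?_).cat hb ?_,
    fun t ht => by tauto⟩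
  · rintro t (a | a) b
    · exact absurd b (dae t a)
    · exact (de t b (hU t a)).resolve_right fun h => hd t a (h ▸ h2.left)
  · rintro t ((a | a) | a) b
    · exact absurd (da t a (hU' t b) ▸ b) (hd α h1.left)
    · exact absurd b (hd t a)
    · exact (de t a (hU' t b)).resolve_left fun h => hd t (h ▸ h1.right) b
  · rintro t (((a | a) | a) | a) b
    · exact absurd b (dab t a)
    · exact db t b (hU t a)
    · exact absurd a (dbe t b)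
    · exact db t b (hU' t a)

/-! ### identification of vertices -/

/-- the graph with vertices identified by `f` -/
def GCpm_ctr (G : SG V E) (f : V → V) : SG V E :=
  ⟨G.A, fun e => f (G.s e), fun e => f (G.t e), G.n⟩

theorem GCpm_ctr_rch (f : V → V) (h : G.Rch F x y) : (G.GCpm_ctr f).Rch F (f x) (f y) := by
  induction h with
  | refl => exact Rch.refl _ _
  | tail _ h2 ih =>
    obtain ⟨e, he, hj⟩ := h2
    refine ih.tail ⟨e, he, ?_⟩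
    rcases hj with ⟨h1, h2⟩ | ⟨h1, h2⟩
    · exact Or.inl ⟨congrArg f h1, congrArg f h2⟩
    · exact Or.inr ⟨congrArg f h1, congrArg f h2⟩

theorem GCpm_ctr_inv {f : V → V} (h : (G.GCpm_ctr f).Je e x y) :
    ∃ p : V × V, G.Je e p.1 p.2 ∧ f p.1 = x ∧ f p.2 = y := by
  rcases h with h | h
  · exact ⟨(G.s e, G.t e), Or.inl ⟨rfl, rfl⟩, h.1, h.2⟩
  · exact ⟨(G.t e, G.s e), Or.inr ⟨rfl, rfl⟩, h.2, h.1⟩

theorem GCpm_lift {f : V → V} (hp : (G.GCpm_ctr f).Pth F n v g) (hn : 0 < n)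
    (hf : ∀ i, 0 < i → i < n → ∀ x, f x = v i → x = v i) :
    ∃ u, G.Pth F n u g ∧ ∀ i ≤ n, f (u i) = v i := by
  have h : ∀ i, ∃ p : V × V, i < n → G.Je (g i) p.1 p.2 ∧ f p.1 = v i ∧ f p.2 = v (i + 1) := by
    intro i
    by_cases hi : i < n
    · obtain ⟨p, hp'⟩ := GCpm_ctr_inv (hp.jn i hi)
      exact ⟨p, fun _ => hp'⟩
    · exact ⟨(v 0, v 0), fun k => absurd k hi⟩
  choose p hp' using h
  have k : ∀ i ≤ n, f (if i = 0 then (p 0).1 else (p (i - 1)).2) = v i := by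
    intro i hi
    split_ifs with h0
    · rw [h0]
      exact (hp' 0 hn).2.1
    · rw [(hp' (i - 1) (by omega)).2.2, Nat.sub_add_cancel (by omega)]
  refine ⟨fun i => if i = 0 then (p 0).1 else (p (i - 1)).2, ⟨fun i hi j hj hij => ?_, hp.mem,
    fun i hi => ?_⟩, k⟩
  · exact hp.inj i hi j hj (by rw [← k i hi, ← k j hj]; exact congrArg f hij)
  · have k1 : (if i = 0 then (p 0).1 else (p (i - 1)).2) = (p i).1 := by
      by_cases h0 : i = 0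
      · rw [if_pos h0, h0]
      · rw [hf i (by omega) hi _ (k i hi.le), hf i (by omega) hi _ (hp' i hi).2.1]
    simp only [k1, Nat.add_one_ne_zero, if_false, Nat.add_sub_cancel]
    exact (hp' i hi).1

/-! ### counting -/

theorem GCpm_crs (hj : G.Je e x y) : e ∈ G.crs F X ↔ e ∈ F ∧ ¬ (x ∈ X ↔ y ∈ X) := by
  rw [mem_crs]
  rcases hj with ⟨rfl, rfl⟩ | ⟨rfl, rfl⟩
  · rfl
  · exact and_congr_right fun _ => not_congr Iff.comm

theorem GCpm_ex (he : e ∈ G.crs F X) : ∃ x y, G.Je e x y ∧ x ∈ X ∧ y ∉ X := by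
  by_cases h : G.s e ∈ X
  · exact ⟨_, _, Or.inl ⟨rfl, rfl⟩, h, fun k => (mem_crs.1 he).2 (iff_of_true h k)⟩
  · exact ⟨_, _, Or.inr ⟨rfl, rfl⟩, by_contra fun k => (mem_crs.1 he).2 (iff_of_false h k), h⟩

theorem GCpm_deg (F : Finset E) (x : V) : (G.crs F {x}).card ≤ G.deg F x := by
  refine le_trans ?_ (deg_mono (filter_subset _ _ : G.crs F {x} ⊆ F))
  rw [card_eq_sum_ones]
  refine sum_le_sum fun e he => inc_pos.2 ?_
  obtain ⟨y, z, h1, h2, -⟩ := GCpm_ex he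
  exact h1.at_iff.2 (Or.inl (mem_singleton.1 h2).symm)

theorem GCpm_degt (hc : G.Cub) (ha : a ∈ G.cut S) : G.deg (G.ins S) (G.ie S a) ≤ 2 := by
  have h1 := hc.le3 (insert_subset (mem_cut.1 ha).1 (ins_sub_A (W := S))) (G.ie S a)
  have h2 : 0 < G.inc a (G.ie S a) := inc_pos.2 ie_at
  rw [deg, sum_insert (not_ins_of_cut ha)] at h1
  unfold deg
  omega

theorem GCpm_sep (S : Finset V) (hK : K ⊆ Y) (h : G.crs (G.ins Y) K = ∅) :
    (G.crs (G.ins S) K).card + (G.crs (G.ins S) (Y \ K)).card ≤ (G.crs (G.ins S) (S \ Y)).card := by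
  have k : ∀ e ∈ G.A, G.s e ∈ Y → G.t e ∈ Y → (G.s e ∈ K ↔ G.t e ∈ K) := fun e he h1 h2 =>
    not_not.1 (filter_eq_empty_iff.1 h (mem_ins.2 ⟨he, h1, h2⟩))
  rw [← card_union_of_disjoint]
  · refine card_le_card fun e he => ?_
    have h1 := @hK (G.s e)
    have h2 := @hK (G.t e)
    have h3 := k e
    simp only [mem_union, mem_crs, mem_ins, mem_sdiff] at he ⊢
    (clear * - h1 h2 h3 he; grind)
  · rw [disjoint_left]
    intro e he he'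
    have h1 := @hK (G.s e)
    have h2 := @hK (G.t e)
    have h3 := k e
    simp only [mem_crs, mem_ins, mem_sdiff] at he he'
    (clear * - h1 h2 h3 he he'; grind)

theorem GCpm_pair (hX : ∀ t ∈ X, t = x ∨ t = y) :
    (G.crs F X).card ≤ G.deg F x + G.deg F y := by
  refine le_trans (card_le_card (t := G.crs F {x} ∪ G.crs F {y}) fun e he => ?_)
    ((card_union_le _ _).trans (add_le_add (GCpm_deg F x) (GCpm_deg F y)))
  obtain ⟨p, q, h1, h2, h3⟩ := GCpm_ex he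
  have h4 : p ≠ q := fun k => h3 (k ▸ h2)
  rw [mem_union, GCpm_crs h1, GCpm_crs h1]
  rcases hX p h2 with rfl | rfl
  · exact Or.inl ⟨(mem_crs.1 he).1, by simpa using h4.symm⟩
  · exact Or.inr ⟨(mem_crs.1 he).1, by simpa using h4.symm⟩

/-- no cut vertex -/
theorem GCpm_nocut (hc : G.Cub) (h2 : G.Two S (G.ins S)) (m : V) (hx : x ∈ S.erase m)
    (hy : y ∈ S.erase m) : G.Rch (G.ins (S.erase m)) x y := by
  by_contra h
  obtain ⟨k1, k2, k3, -⟩ := cmp_spec (G := G) hx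
  have hy' : y ∉ G.cmp (S.erase m) x := fun k => h (mem_cmp.1 k).2
  have h3 := GCpm_sep S k2 k3
  have h4 := h2 _ (k2.trans (erase_subset m S)) ⟨x, k1⟩
    fun k => hy' (k.ge (mem_of_mem_erase hy))
  have h5 := h2 (S.erase m \ G.cmp (S.erase m) x) (sdiff_subset.trans (erase_subset m S))
    ⟨y, mem_sdiff.2 ⟨hy, hy'⟩⟩ fun k => (mem_sdiff.1 (k.ge (mem_of_mem_erase hx))).2 k1
  have h6 : (G.crs (G.ins S) (S \ S.erase m)).card ≤ (G.crs (G.ins S) {m}).card := by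
    by_cases hm : m ∈ S
    · rw [sdiff_erase_self hm]
    · rw [erase_eq_of_notMem hm, sdiff_self, bot_eq_empty]
      simp [crs]
  have h7 := GCpm_deg (G := G) (G.ins S) m
  have h8 := hc.le3 (ins_sub_A (W := S)) m
  omega

theorem GCpm_small {M : Finset V} (h : M.card < 2) (hx : x ∉ M) (hy : y ≠ x) :
    ∃ m, m ≠ x ∧ ∀ t ∈ M, t = m := by
  rcases M.eq_empty_or_nonempty with rfl | ⟨m, hm⟩
  · exact ⟨y, hy, by simp⟩
  · exact ⟨m, fun k => hx (k ▸ hm), fun t ht => card_le_one.1 (by omega) t ht m hm⟩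

end SG

end Pool.Agent.Work.MP_8c679b_co
end

-- merged part: Pool.Agent.Work.MP_8c679b_co.Six.GCpmB
section
/-!
The balanced case and the structure lemma of CPM.
-/

set_option autoImplicit false
set_option linter.unusedSectionVars false

namespace Pool.Agent.Work.MP_8c679b_co

open Finset

namespace SG

variable {V E : Type} [Fintype V] [DecidableEq V] [DecidableEq E] {G : SG V E}
  {T S K Y X M : Finset V} {F F' : Finset E} {a b c d e : E} {x y z m : V} {U U' : V → Prop}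
  {σ σ' : ZMod 2} {n i j : ℕ} {v : ℕ → V} {g : ℕ → E}

theorem GCpm_t (hc : G.Cub) (hT : G.HT T) (hS : S ⊆ T) (hq : G.Q4 S a b c d) (h2 : 2 < S.card) :
    (G.ie S a ∈ S ∧ G.ie S b ∈ S ∧ G.ie S c ∈ S ∧ G.ie S d ∈ S) ∧
      G.ie S a ≠ G.ie S b ∧ G.ie S a ≠ G.ie S c ∧ G.ie S a ≠ G.ie S d ∧ G.ie S b ≠ G.ie S c ∧
      G.ie S b ≠ G.ie S d ∧ G.ie S c ≠ G.ie S d := by
  obtain ⟨m1, m2, m3, m4⟩ := hq.mem
  obtain ⟨-, n1, n2, n3, n4, n5, n6⟩ := id hq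
  have f := fun {e f : E} => hT.f2 (e := e) (f := f) hc hS hq.card h2
  exact ⟨⟨Spl_ie m1, Spl_ie m2, Spl_ie m3, Spl_ie m4⟩, f m1 m2 n1, f m1 m3 n2, f m1 m4 n3,
    f m2 m3 n4, f m2 m4 n5, f m3 m4 n6⟩

theorem GCpm_avo (h : ∀ t ∈ M, t = m) : G.ins (Y.erase m) ⊆ G.avo (G.ins Y) M := by
  intro e he
  obtain ⟨h1, h2, h3⟩ := mem_ins.1 he
  exact mem_avo.2 ⟨ins_mono (erase_subset _ _) he, fun k => (mem_erase.1 h2).1 (h _ k),
    fun k => (mem_erase.1 h3).1 (h _ k)⟩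

theorem GCpm_thru (hc : G.Cub) (h2 : G.Two S (G.ins S)) (hx : x ∈ S) (hy : y ∈ S) (hz : z ∈ S)
    (hxy : x ≠ y) (hzx : z ≠ x) (hzy : z ≠ y) (e0 : E) :
    ∃ n v g, G.Pth (G.ins S) n v g ∧ v 0 = x ∧ v n = y ∧ z ∈ pv n v := by
  refine pth_through _ e0 hxy hzx hzy fun M hM hzM => ?_
  obtain ⟨m, h3, h4⟩ := GCpm_small hM hzM hzx.symm
  have k : ∀ t ∈ S, t ≠ m → t ∉ M ∧ G.Rch (G.avo (G.ins S) M) z t := fun t ht h5 =>
    ⟨fun k => h5 (h4 t k), (GCpm_nocut hc h2 m (mem_erase.2 ⟨h3.symm, hz⟩)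
      (mem_erase.2 ⟨h5, ht⟩)).mono (GCpm_avo h4)⟩
  by_cases h : x = m
  · exact Or.inr (k y hy fun k => hxy (h.trans k.symm))
  · exact Or.inl (k x hx h)

theorem GCpm_nadj (hc : G.Cub) (hT : G.HT T) (hS : S ⊆ T) (hq : G.Q4 S a b c d) (h2 : 2 < S.card)
    (hN : G.NC S a b) : ¬ G.Adj G.A (G.ie S c) (G.ie S d) := by
  intro h
  obtain ⟨⟨ma, mb, mc, md⟩, nab, nac, nad, nbc, nbd, ncd⟩ := GCpm_t hc hT hS hq h2
  have hX : ({G.ie S c, G.ie S d} : Finset V) ⊆ S := Cut_pair mc md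
  have ha : G.ie S a ∉ ({G.ie S c, G.ie S d} : Finset V) := by simp [nac, nad]
  have hb : G.ie S b ∉ ({G.ie S c, G.ie S d} : Finset V) := by simp [nbc, nbd]
  have ha' := mem_sdiff.2 ⟨ma, ha⟩
  have h3 := hN.three hc hT hS hq h2 hX (insert_nonempty _ _) (fun k => ha (k.ge ma))
    (fun k => ncd (mem_singleton.1 (k.le (by simp))).symm)
    (fun k => ncd (mem_singleton.1 (k.le (by simp))))
    (fun k => nac (mem_singleton.1 (k.le ha'))) (fun k => nad (mem_singleton.1 (k.le ha')))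
  rw [iv, if_neg (not_not.2 (iff_of_false ha hb)), crs_ins hX] at h3
  have h4 := (hT.rung' hc (hS mc) (hS md) ncd h).1
  have h5 := card_sdiff_add_card_inter (G.cut {G.ie S c, G.ie S d}) (G.cut S)
  have h6 : ({c, d} : Finset E) ⊆ G.cut {G.ie S c, G.ie S d} ∩ G.cut S :=
    insert_subset (mem_inter.2 ⟨(Spl_cut_of hX hq.mem.2.2.1 (by simp)).1, hq.mem.2.2.1⟩)
      (singleton_subset_iff.2 (mem_inter.2 ⟨(Spl_cut_of hX hq.mem.2.2.2 (by simp)).1, hq.mem.2.2.2⟩))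
  have h7 := card_le_card h6
  rw [card_pair hq.2.2.2.2.2.2] at h7
  omega

/-- a path through `td` that avoids `tc` -/
theorem GCpm_thru2 (hc : G.Cub) (hT : G.HT T) (hS : S ⊆ T) (hq : G.Q4 S a b c d) (h2 : 2 < S.card)
    (hN : G.NC S a b) : ∃ n v g, G.Pth (G.ins (S.erase (G.ie S c))) n v g ∧ v 0 = G.ie S a ∧
      v n = G.ie S b ∧ G.ie S d ∈ pv n v := by
  obtain ⟨⟨ma, mb, mc, md⟩, nab, nac, nad, nbc, nbd, ncd⟩ := GCpm_t hc hT hS hq h2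
  refine pth_through _ a nab nad.symm nbd.symm fun M hM hzM => ?_
  obtain ⟨m, h3, h4⟩ := GCpm_small hM hzM ncd
  obtain ⟨Y, hY⟩ : ∃ Y, Y = (S.erase (G.ie S c)).erase m := ⟨_, rfl⟩
  have mY : ∀ t, t ∈ Y ↔ t ≠ m ∧ t ≠ G.ie S c ∧ t ∈ S := fun t => by rw [hY, mem_erase, mem_erase]
  have hd : G.ie S d ∈ Y := (mY _).2 ⟨h3.symm, ncd.symm, md⟩
  obtain ⟨k1, k2, k3, -⟩ := cmp_spec (G := G) hd
  have k : ∀ t ∈ G.cmp Y (G.ie S d), t ∉ M ∧
      G.Rch (G.avo (G.ins (S.erase (G.ie S c))) M) (G.ie S d) t := fun t ht =>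
    ⟨fun k => ((mY t).1 (k2 ht)).1 (h4 t k), (mem_cmp.1 ht).2.mono (hY ▸ GCpm_avo h4)⟩
  by_cases ha : G.ie S a ∈ G.cmp Y (G.ie S d)
  · exact Or.inl (k _ ha)
  by_cases hb : G.ie S b ∈ G.cmp Y (G.ie S d)
  · exact Or.inr (k _ hb)
  exfalso
  generalize G.cmp Y (G.ie S d) = K at k1 k2 k3 ha hb
  have hYS : Y ⊆ S := fun t ht => ((mY t).1 ht).2.2
  have hcY : G.ie S c ∉ Y := fun k => ((mY _).1 k).2.1 rfl
  have hKS := k2.trans hYS
  have two := hT.f3 hS hq.card h2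
  have hK : K ≠ {G.ie S d} := by
    rintro rfl
    have h5 := two _ hKS ⟨_, k1⟩ fun k => ha (k.ge ma)
    have h6 : ∀ e ∈ G.crs (G.ins S) {G.ie S d}, G.Je e (G.ie S d) m ∧ m ∈ S := by
      intro e he
      obtain ⟨p, q, j1, j2, j3⟩ := GCpm_ex he
      rw [mem_singleton.1 j2] at j1
      have j4 := mem_ins.1 (mem_crs.1 he).1
      have j5 := ((Pth_ends j1).1 j4.2).2
      have j6 : q ∉ Y := fun k => filter_eq_empty_iff.1 k3
        (Cut_je_ins j4.1 j1 hd k) ((GCpm_crs (F := {e}) j1).2 ⟨mem_singleton_self _,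
          fun k => j3 (k.1 k1)⟩ |> mem_crs.1).2
      have j7 : q = m := by
        by_contra j7
        refine j6 ((mY q).2 ⟨j7, fun k => GCpm_nadj hc hT hS hq h2 hN ?_, j5⟩)
        exact adj_iff.2 ⟨e, j4.1, k ▸ j1.symm⟩
      exact j7 ▸ ⟨j1, j5⟩
    obtain ⟨e, he, f, hf, hef⟩ := one_lt_card.1 h5
    exact hef (hT.simple hc (hS md) (hS (h6 e he).2) (ins_sub_A (mem_crs.1 he).1)
      (ins_sub_A (mem_crs.1 hf).1) (h6 e he).1 (h6 f hf).1)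
  have ha' := mem_sdiff.2 ⟨ma, ha⟩
  have h5 := hN.three hc hT hS hq h2 hKS ⟨_, k1⟩ (fun k => ha (k.ge ma))
    (fun k => ncd (mem_singleton.1 (k.le k1)).symm) hK
    (fun k => nac (mem_singleton.1 (k.le ha'))) (fun k => nad (mem_singleton.1 (k.le ha')))
  rw [iv, if_neg (not_not.2 (iff_of_false ha hb))] at h5
  have mR : ∀ t ∈ S, t ≠ G.ie S c → t ∉ K → (t ∈ Y \ K ↔ t ≠ m) := fun t t1 t2 t3 => by
    rw [mem_sdiff, mY]
    (clear * - t1 t2 t3; tauto)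
  have ra := mR _ ma nac ha
  have rb := mR _ mb nbc hb
  have c1 : G.ie S c ∈ S \ (Y \ K) := mem_sdiff.2 ⟨mc, fun k => hcY (mem_sdiff.1 k).1⟩
  have c2 : G.ie S d ∈ S \ (Y \ K) := mem_sdiff.2 ⟨md, fun k => (mem_sdiff.1 k).2 k1⟩
  have h6 := hN.three hc hT hS hq h2 (X := Y \ K) (sdiff_subset.trans hYS)
    (by
      by_cases h : G.ie S a = m
      · exact ⟨_, rb.2 fun k => nab (h.trans k.symm)⟩
      · exact ⟨_, ra.2 h⟩)
    (fun k => (mem_sdiff.1 c1).2 (k.ge mc))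
    (fun k => (mem_sdiff.1 c1).2 (k.ge (mem_singleton_self _)))
    (fun k => (mem_sdiff.1 c2).2 (k.ge (mem_singleton_self _)))
    (fun k => ncd (mem_singleton.1 (k.le c2)).symm) (fun k => ncd (mem_singleton.1 (k.le c1)))
  have h7 := GCpm_sep S k2 k3
  have h8 := GCpm_pair (G := G) (F := G.ins S) (X := S \ Y) (x := G.ie S c) (y := m) fun t ht => by
    rw [mem_sdiff, mY] at ht
    (clear * - ht ra rb; grind)
  have h9 := GCpm_degt hc hq.mem.2.2.1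
  have h10 := hc.le3 (ins_sub_A (W := S)) m
  by_cases h : G.ie S a = m ∨ G.ie S b = m
  · have h11 : G.deg (G.ins S) m ≤ 2 := by
      rcases h with h | h
      exacts [h ▸ GCpm_degt hc hq.mem.1, h ▸ GCpm_degt hc hq.mem.2.1]
    have h12 : (iv (¬ (G.ie S a ∈ Y \ K ↔ G.ie S b ∈ Y \ K)) : ℕ) ≤ 1 := by
      unfold iv
      split_ifs <;> omega
    omega
  · rw [not_or] at h
    rw [iv, if_neg (not_not.2 (iff_of_true (ra.2 h.1) (rb.2 h.2)))] at h6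
    omega

/-- the sign of a path through `tc` -/
theorem GCpm_sign (hc : G.Cub) (hT : G.HT T) (hS : S ⊆ T) (hu : ¬ G.Bal (G.ins S))
    (hm : c ∈ G.cut S) {p : V → ZMod 2} (hp : ∀ e ∈ G.ins (S.erase (G.ie S c)), G.sw p e = 0)
    (h : G.Pth (G.ins S) n v g) (hi : 0 < i) (hi' : i < n) (hv : v i = G.ie S c) :
    G.par (pe n g) = p (v 0) + p (v n) + 1 := by
  have at1 : ∀ e ∈ G.ins S, ¬ G.At e (G.ie S c) → e ∈ G.ins (S.erase (G.ie S c)) := fun e he k =>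
    mem_ins.2 ⟨(mem_ins.1 he).1, mem_erase.2 ⟨fun k' => k (Or.inl k'), (mem_ins.1 he).2.1⟩,
      mem_erase.2 ⟨fun k' => k (Or.inr k'), (mem_ins.1 he).2.2⟩⟩
  have nl : ∀ e ∈ G.ins S, G.s e ≠ G.t e := fun e he =>
    hT.noloop hc (tch_mono hS (ins_sub_tch he))
  obtain ⟨e1, m1, s1⟩ : ∃ e ∈ G.ins S, G.sw p e ≠ 0 := by
    by_contra k
    exact hu ⟨p, fun e he => by_contra fun k' => k ⟨e, he, k'⟩⟩
  obtain ⟨e2, m2, s2⟩ : ∃ e ∈ G.ins S, G.sw (fun t => p t + iv (t = G.ie S c)) e ≠ 0 := by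
    by_contra k
    exact hu ⟨_, fun e he => by_contra fun k' => k ⟨e, he, k'⟩⟩
  have a1 : G.At e1 (G.ie S c) := by_contra fun k => s1 (hp _ (at1 _ m1 k))
  have a2 : G.At e2 (G.ie S c) := by
    by_contra k
    refine s2 ?_
    have := hp _ (at1 _ m2 k)
    rw [At, not_or] at k
    simpa [sw, iv, k.1, k.2] using this
  have s3 : G.sw p e2 = 0 := by
    have h1 := nl _ m2
    have h3 : G.sw (fun t => p t + iv (t = G.ie S c)) e2 = G.sw p e2 + 1 := by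
      rcases a2 with k | k
      · have k' : G.t e2 ≠ G.ie S c := fun k' => h1 (k.trans k'.symm)
        simp only [sw, iv, if_pos k, if_neg k']
        ring
      · have k' : G.s e2 ≠ G.ie S c := fun k' => h1 (k'.trans k.symm)
        simp only [sw, iv, if_pos k, if_neg k']
        ring
    rw [h3] at s2
    exact (by decide : ∀ x : ZMod 2, x + 1 ≠ 0 → x = 0) _ s2
  have ne : e1 ≠ e2 := fun k => s1 (k ▸ s3)
  have d2 := GCpm_degt hc hm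
  have s4 : ∀ e ∈ G.ins S, e ≠ e1 → G.sw p e = 0 := by
    intro e he k
    by_cases k1 : G.At e (G.ie S c)
    · have d3 : G.deg (G.ins S) (G.ie S c) ≤ G.deg {e1, e2} (G.ie S c) := by
        have := inc_pos.2 a1
        have := inc_pos.2 a2
        have d4 : G.deg {e1, e2} (G.ie S c) = _ := sum_pair ne
        omega
      have := mem_of_deg_le (insert_subset m1 (singleton_subset_iff.2 m2)) d3 he k1
      rw [mem_singleton.1 ((mem_insert.1 this).resolve_left k)]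
      exact s3
    · exact hp _ (at1 _ he k1)
  have m3 : e1 ∈ pe n g := by
    refine mem_of_deg_le h.pe_sub ?_ m1 a1
    have := h.deg hi'.le
    rw [hv, iv, iv, if_pos hi, if_pos hi'] at this
    omega
  have h5 := h.od.par_eq p
  rw [sum_eq_single_of_mem e1 m3 fun e he k => s4 e (h.pe_sub he) k, (z2_ne _).1 s1] at h5
  linear_combination -h5 - z2_add_self (p (v 0)) - z2_add_self (p (v n))

/-! ### the odd circuit and the component -/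

theorem GCpm_att {D : Finset V} (hK : K = G.cmp (S \ D) z) (he : e ∈ G.ins S) (hj : G.Je e x y)
    (hx : x ∈ K) (hy : y ∉ K) : y ∈ D ∧ e ∈ G.cut K := by
  have h1 := mem_ins.1 he
  have h2 := (Pth_ends hj).1 h1.2
  refine ⟨by_contra fun k => hy ?_, (GCpm_crs hj).2 ⟨h1.1, fun k => hy (k.1 hx)⟩⟩
  rw [hK] at hx ⊢
  have h3 := mem_sdiff.2 ⟨h2.2, k⟩
  exact mem_cmp.2 ⟨h3, (mem_cmp.1 hx).2.tail
    (adj_iff.2 ⟨e, Cut_je_ins h1.1 hj (mem_cmp.1 hx).1 h3, hj⟩)⟩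

theorem GCpm_on (hp : G.Cyc F n v g) (he : e ∈ pe (n + 1) g) (hx : G.At e x) : x ∈ pv n v :=
  hp.cc.2.1 ▸ mem_vs.2 ⟨e, he, hx⟩

theorem GCpm_third {e' : E} (hc : G.Cub) (hp : G.Cyc (G.ins S) n v g) (hx : x ∈ pv n v)
    (he : e ∈ G.A) (he' : e' ∈ G.A) (h1 : e ∉ pe (n + 1) g) (h1' : e' ∉ pe (n + 1) g)
    (h2 : G.At e x) (h2' : G.At e' x) : e' = e :=
  third_unique hc (hp.cc.2.2.1.trans ins_sub_A) (hp.cc.2.1 ▸ hx) (hp.cc.1.2.1 x) he he' h1 h1' h2 h2'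

theorem GCpm_pv (hp : G.Cyc (G.ins S) n v g) : pv n v ⊆ S :=
  hp.cc.2.1 ▸ (sub_ins_iff.1 hp.cc.2.2.1).2

/-- a larger component -/
theorem GCpm_grow {D D' : Finset V} {w : V} (hz : z ∈ S \ D) (hK : K = G.cmp (S \ D) z)
    (hD : ∀ t ∈ D', t ∉ K) (hw : w ∈ S) (hw' : w ∈ D) (hw'' : w ∉ D') (he : e ∈ G.cut K)
    (ha : G.At e w) : K.card < (G.cmp (S \ D') z).card := by
  obtain ⟨k1, k2, -, k4⟩ := cmp_spec (G := G) hz
  rw [← hK] at k1 k2 k4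
  have h1 : K ⊆ S \ D' := fun t ht => mem_sdiff.2 ⟨(mem_sdiff.1 (k2 ht)).1, fun k => hD t k ht⟩
  have h2 : K ⊆ G.cmp (S \ D') z := fun t ht =>
    mem_cmp.2 ⟨h1 ht, (k4 z k1 t ht).mono (ins_mono h1)⟩
  have h3 : w ∉ K := fun k => (mem_sdiff.1 (k2 k)).2 hw'
  refine card_lt_card ⟨h2, fun k => h3 (k ?_)⟩
  have h4 : G.Je e (G.ie K e) w := eq_oe he h3 ha ▸ je_ie_oe
  have h5 := mem_sdiff.2 ⟨hw, hw''⟩
  exact mem_cmp.2 ⟨h5, (mem_cmp.1 (h2 (Spl_ie he))).2.tail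
    (adj_iff.2 ⟨e, Cut_je_ins (mem_cut.1 he).1 h4 (h1 (Spl_ie he)) h5, h4⟩)⟩

theorem GCpm_gap (hc : G.Cub) (hT : G.HT T) (hS : S ⊆ T) (two : G.Two S (G.ins S)) (hz : z ∈ S)
    (hB : ¬ G.Bal (G.ins (S.erase z))) :
    ∃ n v g K At0, G.Cyc (G.ins S) n v g ∧ ∑ i ∈ range (n + 1), G.n (g i) = 1 ∧
      z ∉ pv n v ∧ K = G.cmp (S \ pv n v) z ∧
      (∀ x, x ∈ At0 ↔ x ∈ pv n v ∧ ∃ e ∈ G.cut K, G.At e x) ∧ v 0 ∈ At0 ∧
      ∀ i ≤ n, ∀ j ≤ n, ∀ l, i < l → l < j → v l ∈ At0 → v i ∉ At0 → v j ∉ At0 →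
        ¬ G.Rch (G.ins ((S \ K) \ At0)) (v i) (v j) := by
  classical
  obtain ⟨C, hC, hmax⟩ := exists_max_image
    ((G.ins S).powerset.filter fun C => G.Cc C ∧ G.par C = 1 ∧ z ∉ G.vs C)
    (fun C => (G.cmp (S \ G.vs C) z).card) (by
      obtain ⟨C, h1, h2, h3⟩ := exists_odd_cc hB
      exact ⟨C, mem_filter.2 ⟨mem_powerset.2 (h1.trans (ins_mono (erase_subset _ _))), h2, h3,
        fun k => notMem_erase z S ((sub_ins_iff.1 h1).2 k)⟩⟩)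
  obtain ⟨c1, c2, c3, c4⟩ := mem_filter.1 hC
  rw [mem_powerset] at c1
  obtain ⟨K, hK⟩ : ∃ K, K = G.cmp (S \ G.vs C) z := ⟨_, rfl⟩
  have hz' : z ∈ S \ G.vs C := mem_sdiff.2 ⟨hz, c4⟩
  obtain ⟨k1, k2, -, -⟩ := cmp_spec (G := G) hz'
  rw [← hK] at k1 k2
  have cS := (sub_ins_iff.1 c1).2
  obtain ⟨w, hw, e, he, ha⟩ : ∃ w ∈ G.vs C, ∃ e ∈ G.cut K, G.At e w := by
    obtain ⟨f, hf⟩ := c2.1
    have h1 := two K (k2.trans sdiff_subset) ⟨z, k1⟩ fun k =>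
      (mem_sdiff.1 (k2 (k.ge (cS (s_mem_vs hf))))).2 (s_mem_vs hf)
    obtain ⟨e, he⟩ := card_pos.1 (lt_of_lt_of_le two_pos h1)
    obtain ⟨p, q, j1, j2, j3⟩ := GCpm_ex he
    have := GCpm_att hK (mem_crs.1 he).1 j1 j2 j3
    exact ⟨q, this.1, e, this.2, j1.at_iff.2 (Or.inr rfl)⟩
  obtain ⟨f, hf, hfw⟩ := mem_vs.1 hw
  obtain ⟨n, v, g, hp, h0, -, hpe⟩ := c2.cyc hc (c1.trans ins_sub_A)
    (fun f hf => hT.noloop hc (tch_mono hS (ins_sub_tch (c1 hf)))) hf hfw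
  have hp' : G.Cyc (G.ins S) n v g := hp.mono fun i hi =>
    c1 (hpe ▸ mem_pe.2 ⟨i, Nat.lt_succ_of_le hi, rfl⟩)
  have hv : G.vs C = pv n v := hpe ▸ hp.cc.2.1
  obtain ⟨At0, hA⟩ : ∃ At0 : Finset V, ∀ x, x ∈ At0 ↔ x ∈ pv n v ∧ ∃ e ∈ G.cut K, G.At e x :=
    ⟨(pv n v).filter _, fun _ => mem_filter⟩
  have a0 : v 0 ∈ At0 := (hA _).2 ⟨hv ▸ h0 ▸ hw, e, he, h0 ▸ ha⟩
  refine ⟨n, v, g, K, At0, hp', by rw [← hp.cc.2.2.2.1, hpe, c3], hv ▸ c4, hv ▸ hK, hA, a0, ?_⟩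
  intro i hi j hj l h1 h2 hl hi' hj' hr
  obtain ⟨P, p1, p2⟩ := hr.od
  have p3 := (sub_ins_iff.1 p1).2
  have key : ∀ B ⊆ C, G.Od B (v j) (v i) → ∀ u ∈ At0, u ∉ G.vs B → G.par P + G.par B ≠ 1 := by
    intro B b1 b2 u u1 u2 ho
    obtain ⟨C', d1, d2, d3⟩ := (od_self.1 (p2.symmDiff b2)).odd_cc (par_symmDiff.trans ho)
    have d4 : C' ⊆ P ∪ B := d1.trans symmDiff_subset_union
    have d5 : ∀ t ∈ G.vs C', t ∈ G.vs P ∨ t ∈ G.vs B := fun t ht =>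
      mem_union.1 ((vs_union (G := G)).le (vs_mono d4 ht))
    have d6 : ∀ t ∈ G.vs C', t ∉ K := fun t ht => (d5 t ht).elim
      (fun k => (mem_sdiff.1 (mem_sdiff.1 (p3 k)).1).2)
      fun k k' => (mem_sdiff.1 (k2 k')).2 (vs_mono b1 k)
    obtain ⟨u3, e', u4, u5⟩ := (hA u).1 u1
    have d7 := GCpm_grow hz' hK d6 (GCpm_pv hp' u3) (hv ▸ u3)
      (fun k => (d5 u k).elim (fun k => (mem_sdiff.1 (p3 k)).2 u1) u2) u4 u5
    have d8 := hmax C' (mem_filter.2 ⟨mem_powerset.2 (d4.trans (union_subset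
      (p1.trans (ins_mono (sdiff_subset.trans sdiff_subset))) (b1.trans c1))), d2, d3,
      fun k => d6 z k k1⟩)
    rw [← hK] at d8
    omega
  have hs := hp.pth.sub (i := i) (m := j - i) (by omega)
  have s1 := hs.od
  simp only [add_zero, show i + (j - i) = j by omega] at s1
  have s2 : pe (j - i) (fun k => g (i + k)) ⊆ C := hs.pe_sub
  have i0 : i ≠ 0 := fun k => hi' (k ▸ a0)
  have q1 := key _ s2 s1.symm _ a0 fun k => by
    obtain ⟨e, k1, k2⟩ := mem_vs.1 k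
    obtain ⟨r, r1, rfl⟩ := mem_pe.1 k1
    have := (hp.pth.at_iff (by omega) (Nat.zero_le n)).1 k2
    omega
  have q2 := key _ sdiff_subset (c2.2.1.sdiff s1.symm s2) _ hl fun k => by
    obtain ⟨e, k1, k2⟩ := mem_vs.1 k
    obtain ⟨k3, k4⟩ := mem_sdiff.1 k1
    obtain ⟨r, r1, rfl⟩ := mem_pe.1 (hpe ▸ k3 : e ∈ pe (n + 1) g)
    by_cases hr : r < n
    · have := (hp.pth.at_iff hr (by omega : l ≤ n)).1 k2
      exact k4 (mem_pe.2 ⟨r - i, by omega, congrArg g (by omega)⟩)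
    · obtain rfl : r = n := by omega
      rcases hp.cj.at_iff.1 k2 with k | k
      · have := hp.pth.inj _ (by omega) _ le_rfl k
        omega
      · have := hp.pth.inj _ (by omega) _ (Nat.zero_le _) k
        omega
  rw [par_sdiff s2, c3] at q2
  exact (by decide : ∀ x y : ZMod 2, x + y ≠ 1 → x + (1 + y) ≠ 1 → False) _ _ q1 q2

end SG

end Pool.Agent.Work.MP_8c679b_co
end

-- merged part: Pool.Agent.Work.MP_8c679b_co.Six.GCpmC
section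
/-!
The unbalanced case of CPM: gap regions, legs and ears.
-/

set_option autoImplicit false
set_option linter.unusedSectionVars false

namespace Pool.Agent.Work.MP_8c679b_co

open Finset

namespace SG

variable {V E : Type} [Fintype V] [DecidableEq V] [DecidableEq E] {G : SG V E}
  {T S K Y X M At0 : Finset V} {F F' : Finset E} {a b c d e : E} {x y z t t1 t2 : V}
  {U U' : V → Prop} {σ σ' : ZMod 2} {n m i j r : ℕ} {v u w : ℕ → V} {g k : ℕ → E} {f : V → V}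

/-- the output of the structure lemma -/
structure GCpm_Gp (G : SG V E) (S : Finset V) (z : V) (n : ℕ) (v : ℕ → V) (g : ℕ → E)
    (K At0 : Finset V) : Prop where
  cyc : G.Cyc (G.ins S) n v g
  odd : ∑ i ∈ range (n + 1), G.n (g i) = 1
  zS : z ∈ S
  zn : z ∉ pv n v
  hK : K = G.cmp (S \ pv n v) z
  hA : ∀ x, x ∈ At0 ↔ x ∈ pv n v ∧ ∃ e ∈ G.cut K, G.At e x
  a0 : v 0 ∈ At0
  gap : ∀ i ≤ n, ∀ j ≤ n, ∀ l, i < l → l < j → v l ∈ At0 → v i ∉ At0 → v j ∉ At0 →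
    ¬ G.Rch (G.ins ((S \ K) \ At0)) (v i) (v j)

namespace GCpm_Gp

theorem sp (h : G.GCpm_Gp S z n v g K At0) :
    z ∈ K ∧ (∀ x ∈ K, x ∈ S ∧ x ∉ pv n v) ∧ G.Cn K (G.ins K) := by
  obtain ⟨k1, k2, -, k4⟩ := cmp_spec (G := G) (mem_sdiff.2 ⟨h.zS, h.zn⟩)
  rw [← h.hK] at k1 k2 k4
  exact ⟨k1, fun x hx => mem_sdiff.1 (k2 hx), k4⟩

theorem nK (h : G.GCpm_Gp S z n v g K At0) (hx : x ∈ At0) : x ∉ K := fun k =>
  (h.sp.2.1 x k).2 ((h.hA x).1 hx).1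

theorem att (h : G.GCpm_Gp S z n v g K At0) (he : e ∈ G.ins S) (hj : G.Je e x y) (hx : x ∈ K)
    (hy : y ∉ K) : y ∈ At0 :=
  have k := GCpm_att h.hK he hj hx hy
  (h.hA y).2 ⟨k.1, e, k.2, hj.at_iff.2 (Or.inr rfl)⟩

theorem off (h : G.GCpm_Gp S z n v g K At0) (hx : x ∈ K) (ha : G.At e x) : e ∉ pe (n + 1) g :=
  fun k => (h.sp.2.1 x hx).2 (GCpm_on h.cyc k ha)

theorem uniq (h : G.GCpm_Gp S z n v g K At0) (hc : G.Cub) (hx : x ∈ At0) (he : e ∈ G.A)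
    (ha : G.At e x) (h1 : e ∉ pe (n + 1) g) : e ∈ G.cut K := by
  obtain ⟨h2, e', h3, h4⟩ := (h.hA x).1 hx
  rwa [GCpm_third hc h.cyc h2 (mem_cut.1 h3).1 he (h.off (Spl_ie h3) ie_at) h1 h4 ha]

theorem term (h : G.GCpm_Gp S z n v g K At0) (hc : G.Cub) (ha : a ∈ G.cut S) :
    G.ie S a ∉ At0 := by
  intro k
  have h1 := h.uniq hc k (mem_cut.1 ha).1 ie_at fun k' => not_ins_of_cut ha (h.cyc.cc.2.2.1 k')
  exact h.nK k (eq_ie ha (h.sp.2.1 _ (Spl_ie h1)).1 ie_at ▸ Spl_ie h1)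

theorem reg (h : G.GCpm_Gp S z n v g K At0) (hc : G.Cub) (two : G.Two S (G.ins S))
    (ht : t ∈ (S \ K) \ At0) : (G.crs (G.ins S) (G.cmp ((S \ K) \ At0) t)).card ≤ 2 ∧
      ∃ i ≤ n, v i ∈ G.cmp ((S \ K) \ At0) t := by
  obtain ⟨k1, k2, k3, -⟩ := cmp_spec (G := G) ht
  have rch : ∀ x ∈ G.cmp ((S \ K) \ At0) t, ∀ y ∈ G.cmp ((S \ K) \ At0) t,
      G.Rch (G.ins ((S \ K) \ At0)) x y := fun x hx y hy =>
    (mem_cmp.1 hx).2.symm.trans (mem_cmp.1 hy).2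
  generalize G.cmp ((S \ K) \ At0) t = Z at k1 k2 k3 rch
  have nA : ∀ x ∈ Z, x ∉ At0 := fun x hx => (mem_sdiff.1 (k2 hx)).2
  have nK : ∀ x ∈ Z, x ∉ K := fun x hx => (mem_sdiff.1 (mem_sdiff.1 (k2 hx)).1).2
  have key : ∀ e ∈ G.crs (G.ins S) Z, ∃ i ≤ n, g i = e ∧
      ((v i ∈ Z ∧ (i = n ∨ v (i + 1) ∈ At0)) ∨ (i < n ∧ v i ∈ At0 ∧ v (i + 1) ∈ Z)) := by
    intro e he
    obtain ⟨p, q, j1, j2, j3⟩ := GCpm_ex he
    have j4 := mem_ins.1 (mem_crs.1 he).1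
    have j5 : q ∉ K := fun k => nA p j2 (h.att (mem_crs.1 he).1 j1.symm k (nK p j2))
    have j6 : q ∈ At0 := by
      by_contra k
      have j7 : e ∈ G.crs (G.ins ((S \ K) \ At0)) Z := (GCpm_crs j1).2 ⟨Cut_je_ins j4.1 j1 (k2 j2)
        (mem_sdiff.2 ⟨mem_sdiff.2 ⟨((Pth_ends j1).1 j4.2).2, j5⟩, k⟩), fun k => j3 (k.1 j2)⟩
      rw [k3] at j7
      exact notMem_empty _ j7
    have j7 : e ∈ pe (n + 1) g := by
      by_contra k
      exact ((GCpm_crs j1).1 (h.uniq hc j6 j4.1 (j1.at_iff.2 (Or.inr rfl)) k)).2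
        (iff_of_false (nK p j2) j5)
    obtain ⟨i, hi, rfl⟩ := mem_pe.1 j7
    refine ⟨i, by omega, rfl, ?_⟩
    have pq : p ≠ q := fun k => j3 (k ▸ j2)
    by_cases hn : i < n
    · have j8 := h.cyc.pth.jn i hn
      rcases j8.at_iff.1 (j1.at_iff.2 (Or.inl rfl)) with rfl | rfl <;>
        rcases j8.at_iff.1 (j1.at_iff.2 (Or.inr rfl)) with rfl | rfl
      · exact absurd rfl pq
      · exact Or.inl ⟨j2, Or.inr j6⟩
      · exact Or.inr ⟨hn, j6, j2⟩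
      · exact absurd rfl pq
    · obtain rfl : i = n := by omega
      rcases h.cyc.cj.at_iff.1 (j1.at_iff.2 (Or.inl rfl)) with rfl | rfl
      · exact Or.inl ⟨j2, Or.inl rfl⟩
      · exact absurd h.a0 (nA _ j2)
  have gp : ∀ i ≤ n, ∀ j ≤ n, ∀ l, i < l → l ≤ j → v l ∈ At0 → v i ∈ Z → v j ∉ Z :=
    fun i hi j hj l h1 h2 h3 h4 h5 => h.gap i hi j hj l h1
      (lt_of_le_of_ne h2 fun k => nA _ h5 (k ▸ h3)) h3 (nA _ h4) (nA _ h5) (rch _ h4 _ h5)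
  constructor
  · classical
    have c1 : ((range (n + 1)).filter fun i => v i ∈ Z ∧ (i = n ∨ v (i + 1) ∈ At0)).card ≤ 1 := by
      refine card_le_one.2 fun i hi j hj => ?_
      wlog hij : i ≤ j generalizing i j
      · exact (this j hj i hi (by omega)).symm
      by_contra ne
      simp only [mem_filter, mem_range] at hi hj
      exact gp i (by omega) j (by omega) (i + 1) (by omega) (by omega)
        (hi.2.2.resolve_left (by omega)) hi.2.1 hj.2.1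
    have c2 : ((range (n + 1)).filter fun i => i < n ∧ v i ∈ At0 ∧ v (i + 1) ∈ Z).card ≤ 1 := by
      refine card_le_one.2 fun i hi j hj => ?_
      wlog hij : i ≤ j generalizing i j
      · exact (this j hj i hi (by omega)).symm
      by_contra ne
      simp only [mem_filter, mem_range] at hi hj
      have : i + 1 ≠ j := fun k => nA _ hi.2.2.2 (k ▸ hj.2.2.1)
      exact gp (i + 1) (by omega) (j + 1) (by omega) j (by omega) (by omega)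
        hj.2.2.1 hi.2.2.2 hj.2.2.2
    refine le_trans (card_le_card (t := image g (_ ∪ _)) fun e he => ?_)
      (card_image_le.trans ((card_union_le _ _).trans (add_le_add c1 c2)))
    obtain ⟨i, hi, rfl, h1⟩ := key e he
    refine mem_image_of_mem g (mem_union.2 (h1.imp (fun k => ?_) fun k => ?_)) <;>
      exact mem_filter.2 ⟨mem_range.2 (by omega), k⟩
  · have h1 := two Z (k2.trans (sdiff_subset.trans sdiff_subset)) ⟨t, k1⟩
      fun k => nK z (k.ge h.zS) h.sp.1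
    obtain ⟨e, he⟩ := card_pos.1 (lt_of_lt_of_le two_pos h1)
    obtain ⟨i, hi, -, h2 | h2⟩ := key e he
    exacts [⟨i, hi, h2.1⟩, ⟨i + 1, h2.1, h2.2.2⟩]

theorem leg (h : G.GCpm_Gp S z n v g K At0) (hc : G.Cub) (two : G.Two S (G.ins S))
    (ht : t ∈ (S \ K) \ At0) : ∃ i ≤ n, ∃ U σ, G.GCpm_W (G.ins S) t (v i) U σ ∧
      (∀ x, U x → x ∈ G.cmp ((S \ K) \ At0) t) ∧ ∀ x, U x → x ∈ pv n v → x = v i := by
  obtain ⟨i, hi, h1⟩ := (h.reg hc two ht).2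
  obtain ⟨k1, k2, -, k4⟩ := cmp_spec (G := G) ht
  obtain ⟨m, u, k, p1, p2, p3, p4⟩ := (k4 _ k1 _ h1).pth_first (mem_pv.2 ⟨i, hi, rfl⟩) (g 0)
  obtain ⟨j, hj, p5⟩ := mem_pv.1 p3
  refine ⟨j, hj, _, _, p2 ▸ p5 ▸ (GCpm_of p1).mono
    (ins_mono (k2.trans (sdiff_subset.trans sdiff_subset))),
    fun x hx => p1.sub_of_ins (p2 ▸ k1) hx, fun x hx hx' => ?_⟩
  obtain ⟨l, hl, rfl⟩ := mem_pv.1 hx
  rw [p5, le_antisymm hl (not_lt.1 fun k => p4 l k hx')]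

end GCpm_Gp

theorem GCpm_im (hp : (G.GCpm_ctr f).Pth F m w k) (hi : i < m) : ∃ x, f x = w i :=
  have ⟨p, h⟩ := GCpm_ctr_inv (hp.jn i hi)
  ⟨p.1, h.2.1⟩

theorem GCpm_lift2 (hp : (G.GCpm_ctr f).Pth F m w k) (hm : 0 < m) (h1 : ∀ x ∈ K, f x = x)
    (h2 : ∀ x, x ∉ K → f x ∉ K) (hw : ∀ i, 0 < i → i < m → w i ∈ K) :
    ∃ u, G.Pth F m u k ∧ (∀ i ≤ m, f (u i) = w i) ∧ (∀ i ≤ m, w i ∈ K → u i = w i) ∧
      ∀ i ≤ m, w i ∉ K → u i ∉ K := by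
  have h3 : ∀ x y, y ∈ K → f x = y → x = y := fun x y hy hx =>
    (h1 x (by_contra fun k => h2 x k (hx ▸ hy))).symm.trans hx
  obtain ⟨u, p1, p2⟩ := GCpm_lift hp hm fun i hi hi' x => h3 x _ (hw i hi hi')
  exact ⟨u, p1, p2, fun i hi k => h3 _ _ k (p2 i hi), fun i hi k k' =>
    k (p2 i hi ▸ (h1 _ k').symm ▸ k')⟩

namespace GCpm_Gp

theorem ra {q : V} (h : G.GCpm_Gp S z n v g K At0) (h1 : ∀ x ∈ K, f x = x) (hM : ∀ t ∈ M, t = q)
    (hq : q ∉ K) (ht : t ∈ K) :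
    t ∉ M ∧ (G.GCpm_ctr f).Rch ((G.GCpm_ctr f).avo (G.ins S) M) z t := by
  have h2 := GCpm_ctr_rch f (h.sp.2.2 z h.sp.1 t ht)
  rw [h1 z h.sp.1, h1 t ht] at h2
  refine ⟨fun k => hq (hM t k ▸ ht), h2.mono fun e he => ?_⟩
  obtain ⟨-, k2, k3⟩ := mem_ins.1 he
  exact mem_avo.2 ⟨ins_mono (fun x hx => (h.sp.2.1 x hx).1) he,
    fun k => hq (hM _ k ▸ (show f (G.s e) ∈ K from (h1 _ k2).symm ▸ k2)),
    fun k => hq (hM _ k ▸ (show f (G.t e) ∈ K from (h1 _ k3).symm ▸ k3))⟩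

theorem rb {q : V} (h : G.GCpm_Gp S z n v g K At0) (hc : G.Cub) (two : G.Two S (G.ins S))
    (h1 : ∀ x ∈ K, f x = x) (h2 : ∀ x, x ∉ K → f x ∉ K) (hM : ∀ t ∈ M, t = q) (hz : q ≠ z)
    (hq : q ∈ K) (ht : t ∈ S) (htq : t ≠ q) :
    f t ∉ M ∧ (G.GCpm_ctr f).Rch ((G.GCpm_ctr f).avo (G.ins S) M) z (f t) := by
  have h3 : ∀ x, x ≠ q → f x ∉ M := fun x hx k => hx (by
    have k' := hM _ k
    exact (h1 x (by_contra fun k => h2 x k (k' ▸ hq))).symm.trans k')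
  have h4 := GCpm_ctr_rch f (GCpm_nocut hc two q (mem_erase.2 ⟨hz.symm, h.zS⟩)
    (mem_erase.2 ⟨htq, ht⟩))
  rw [h1 z h.sp.1] at h4
  refine ⟨h3 t htq, h4.mono fun e he => ?_⟩
  obtain ⟨-, k2, k3⟩ := mem_ins.1 he
  exact mem_avo.2 ⟨ins_mono (erase_subset _ _) he, h3 _ (mem_erase.1 k2).1, h3 _ (mem_erase.1 k3).1⟩

/-- a path of the contraction that leaves `K` at its last vertex -/
theorem half (h : G.GCpm_Gp S z n v g K At0) (hp : (G.GCpm_ctr f).Pth (G.ins S) m w k)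
    (hm : 0 < m) (h1 : ∀ x ∈ K, f x = x) (h2 : ∀ x, x ∉ K → f x ∉ K) (hw : ∀ i < m, w i ∈ K)
    (hl : w m ∉ K) : ∃ x U σ, G.GCpm_W (G.ins S) (w 0) x U σ ∧ x ∈ At0 ∧
      (∀ t, U t ↔ t = x ∨ ∃ i < m, w i = t) ∧ G.At (k (m - 1)) x ∧ k (m - 1) ∉ pe (n + 1) g := by
  obtain ⟨u, p1, -, p3, p4⟩ := GCpm_lift2 hp hm h1 h2 fun i _ hi => hw i hi
  have p5 : ∀ i < m, u i = w i := fun i hi => p3 i hi.le (hw i hi)
  have j1 := p1.jn (m - 1) (by omega)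
  rw [Nat.sub_add_cancel hm] at j1
  have j2 : u (m - 1) ∈ K := p5 (m - 1) (by omega) ▸ hw _ (by omega)
  refine ⟨u m, _, _, p5 0 hm ▸ GCpm_of p1, h.att (p1.mem _ (by omega)) j1 j2 (p4 m le_rfl hl),
    fun t => ?_, j1.at_iff.2 (Or.inr rfl), h.off j2 (j1.at_iff.2 (Or.inl rfl))⟩
  rw [mem_pv]
  constructor
  · rintro ⟨i, hi, rfl⟩
    rcases hi.eq_or_lt with rfl | hi
    exacts [Or.inl rfl, Or.inr ⟨i, hi, (p5 i hi).symm⟩]
  · rintro (rfl | ⟨i, hi, rfl⟩)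
    exacts [⟨m, le_rfl, rfl⟩, ⟨i, hi.le, p5 i hi⟩]

/-- one terminal in `K` -/
theorem two' (h : G.GCpm_Gp S z n v g K At0) (hc : G.Cub) (two : G.Two S (G.ins S))
    (h1 : t1 ∈ K) (hz : z ≠ t1) (h2 : t2 ∈ (S \ K) \ At0) (σ : ZMod 2) :
    ∃ Z : V → Prop, G.GCpm_W (G.ins S) t1 t2 Z σ ∧ Z z := by
  obtain ⟨f, hf⟩ : ∃ f : V → V, f = fun x => if x ∈ K then x else v 0 := ⟨_, rfl⟩
  have n0 := h.nK h.a0
  have f1 : ∀ x ∈ K, f x = x := fun x hx => by rw [hf]; exact if_pos hx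
  have f3 : ∀ x, x ∉ K → f x = v 0 := fun x hx => by rw [hf]; exact if_neg hx
  have f2 : ∀ x, x ∉ K → f x ∉ K := fun x hx => f3 x hx ▸ n0
  obtain ⟨m, w, k, p1, p2, p3, p4⟩ := pth_through (G := G.GCpm_ctr f) (G.ins S) (a := t1)
    (b := v 0) (c := z) (g 0) (fun k => n0 (k ▸ h1)) hz (fun k => n0 (k ▸ h.sp.1)) fun M hM hzM => by
      obtain ⟨q, q1, q2⟩ := GCpm_small hM hzM hz.symm
      by_cases hq : q ∈ K
      · exact Or.inr (f3 _ n0 ▸ h.rb hc two f1 f2 q2 q1 hq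
          (GCpm_pv h.cyc ((h.hA _).1 h.a0).1) fun k => n0 (k ▸ hq))
      · exact Or.inl (h.ra f1 q2 hq h1)
  have hw : ∀ i < m, w i ∈ K := fun i hi => by
    obtain ⟨x, hx⟩ := GCpm_im p1 hi
    by_cases k : x ∈ K
    · exact hx ▸ (f1 x k).symm ▸ k
    · have := p1.inj i hi.le m le_rfl (by rw [← hx, f3 x k, p3])
      omega
  have hm : 0 < m := Nat.pos_of_ne_zero fun k => n0 (p3 ▸ k ▸ p2 ▸ h1)
  obtain ⟨x, U, s, l1, l2, l3, -⟩ := h.half p1 hm f1 f2 hw (p3 ▸ n0)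
  obtain ⟨j, hj, U', s', r1, r2, r3⟩ := h.leg hc two h2
  have l4 : ∀ t, U t → t = x ∨ t ∈ K := fun t ht =>
    ((l3 t).1 ht).imp_right fun ⟨i, hi, k⟩ => k ▸ hw i hi
  obtain ⟨Z, z1, z2⟩ := GCpm_join h.cyc h.odd (p2 ▸ l1) r1.rev ((h.hA x).1 l2).1
    (mem_pv.2 ⟨j, hj, rfl⟩) (fun t a b => (l4 t a).resolve_right fun k => (h.sp.2.1 t k).2 b) r3
    (fun t a b => by
      have := mem_sdiff.1 (mem_cmp.1 (r2 t b)).1
      rcases l4 t a with rfl | k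
      exacts [this.2 l2, (mem_sdiff.1 this.1).2 k]) σ
  refine ⟨Z, z1, z2 z (Or.inl ((l3 z).2 (Or.inr ?_)))⟩
  obtain ⟨i, hi, k⟩ := mem_pv.1 p4
  exact ⟨i, lt_of_le_of_ne hi fun k' => n0 (p3 ▸ k' ▸ k ▸ h.sp.1), k⟩

/-- an ear through `z` between the two arcs -/
theorem ear {l0 : ℕ} (h : G.GCpm_Gp S z n v g K At0) (hc : G.Cub) (two : G.Two S (G.ins S))
    (hi : i < l0) (hl : l0 < j) (hj : j ≤ n) (h0 : v l0 ∈ At0) (hi' : v i ∉ At0)
    (hj' : v j ∉ At0) : ∃ l l' U σ, G.GCpm_W (G.ins S) (v l) (v l') U σ ∧ i < l ∧ l < j ∧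
      (l' < i ∨ j < l') ∧ l' ≤ n ∧ U z ∧ v l ∈ At0 ∧ v l' ∈ At0 ∧
      ∀ t, U t → t = v l ∨ t = v l' ∨ t ∈ K := by
  classical
  obtain ⟨f, hf⟩ : ∃ f : V → V, f = fun x => if x ∈ K then x else
    if ∃ l, i < l ∧ l < j ∧ v l = x then v l0 else v 0 := ⟨_, rfl⟩
  have n0 := h.nK h.a0
  have n1 := h.nK h0
  have ne : v l0 ≠ v 0 := fun k => by
    have := h.cyc.pth.inj _ (by omega) _ (Nat.zero_le _) k
    omega
  have f1 : ∀ x ∈ K, f x = x := fun x hx => by rw [hf]; exact if_pos hx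
  have f3 : ∀ x, x ∉ K → (∃ l, i < l ∧ l < j ∧ v l = x) → f x = v l0 := fun x hx k => by
    rw [hf]; exact (if_neg hx).trans (if_pos k)
  have f4 : ∀ x, x ∉ K → ¬ (∃ l, i < l ∧ l < j ∧ v l = x) → f x = v 0 := fun x hx k => by
    rw [hf]; exact (if_neg hx).trans (if_neg k)
  have f5 : ∀ x, x ∉ K → f x = v l0 ∨ f x = v 0 := fun x hx =>
    (em _).imp (f3 x hx) (f4 x hx)
  have f2 : ∀ x, x ∉ K → f x ∉ K := fun x hx => (f5 x hx).elim (· ▸ n1) (· ▸ n0)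
  have f6 : f (v 0) = v 0 := f4 _ n0 fun ⟨l, l1, l2, k⟩ => by
    have := h.cyc.pth.inj _ (by omega) _ (Nat.zero_le _) k
    omega
  have f7 : f (v l0) = v l0 := f3 _ n1 ⟨l0, hi, hl, rfl⟩
  have z1 : z ≠ v l0 := fun k => n1 (k ▸ h.sp.1)
  have z0 : z ≠ v 0 := fun k => n0 (k ▸ h.sp.1)
  obtain ⟨m, w, k, p1, p2, p3, p4⟩ := pth_through (G := G.GCpm_ctr f) (G.ins S) (a := v l0)
    (b := v 0) (c := z) (g 0) ne z1 z0 fun M hM hzM => by
      obtain ⟨q, q1, q2⟩ := GCpm_small hM hzM z0.symm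
      by_cases hq : q ∈ K
      · exact Or.inr (f6 ▸ h.rb hc two f1 f2 q2 q1 hq
          (GCpm_pv h.cyc ((h.hA _).1 h.a0).1) fun k => n0 (k ▸ hq))
      have key : ∀ δ ∈ At0, f δ = δ → δ ≠ q →
          δ ∉ M ∧ (G.GCpm_ctr f).Rch ((G.GCpm_ctr f).avo (G.ins S) M) z δ := by
        intro δ d1 d2 d3
        obtain ⟨d4, e, d5, d6⟩ := (h.hA δ).1 d1
        have d7 : G.Je e (G.ie K e) δ := eq_oe d5 (h.nK d1) d6 ▸ je_ie_oe
        have d8 := h.ra f1 q2 hq (Spl_ie d5)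
        have d9 : δ ∉ M := fun k => d3 (q2 _ k)
        have d10 := GCpm_ctr_rch f (F := {e}) (rch_at (mem_singleton_self e) (ie_at (X := K)) d6)
        rw [f1 _ (Spl_ie d5), d2] at d10
        refine ⟨d9, d8.2.trans (d10.mono (singleton_subset_iff.2 (mem_avo.2 ⟨Cut_je_ins
          (mem_cut.1 d5).1 d7 (h.sp.2.1 _ (Spl_ie d5)).1 (GCpm_pv h.cyc d4), ?_⟩)))⟩
        have d11 : f (G.ie K e) ∉ M := (f1 _ (Spl_ie d5)).symm ▸ d8.1
        have d12 : f δ ∉ M := d2.symm ▸ d9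
        change f (G.s e) ∉ M ∧ f (G.t e) ∉ M
        rcases d7 with ⟨k1, k2⟩ | ⟨k1, k2⟩
        · rw [k1, k2]; exact ⟨d11, d12⟩
        · rw [k1, k2]; exact ⟨d12, d11⟩
      by_cases hq' : v l0 = q
      · exact Or.inr (key _ h.a0 f6 fun k => ne (hq'.trans k.symm))
      · exact Or.inl (key _ h0 f7 hq')
  have hw : ∀ i, 0 < i → i < m → w i ∈ K := fun i hi0 hi => by
    obtain ⟨x, hx⟩ := GCpm_im p1 hi
    by_cases k : x ∈ K
    · exact hx ▸ (f1 x k).symm ▸ k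
    · rcases f5 x k with k' | k'
      · have := p1.inj i hi.le 0 (Nat.zero_le _) (by rw [← hx, k', p2])
        omega
      · have := p1.inj i hi.le m le_rfl (by rw [← hx, k', p3])
        omega
  obtain ⟨r, r1, r2⟩ := mem_pv.1 p4
  have r3 : r ≠ 0 := fun k => z1 (by rw [← r2, k, p2])
  have r4 : r ≠ m := fun k => z0 (by rw [← r2, k, p3])
  obtain ⟨u, u1, u2, u3, u4⟩ := GCpm_lift2 p1 (by omega) f1 f2 hw
  have u5 : ∀ i, 0 < i → i < m → u i ∈ K := fun i a b => u3 i b.le (hw i a b) ▸ hw i a b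
  have u6 := u4 0 (Nat.zero_le _) (p2 ▸ n1)
  have u7 := u4 m le_rfl (p3 ▸ n0)
  have a1 := h.att (u1.mem 0 (by omega)) (u1.jn 0 (by omega)).symm (u5 _ (by omega) (by omega)) u6
  have j1 := u1.jn (m - 1) (by omega)
  rw [Nat.sub_add_cancel (by omega)] at j1
  have a2 := h.att (u1.mem _ (by omega)) j1 (u5 _ (by omega) (by omega)) u7
  obtain ⟨l, l1, l2, l3⟩ : ∃ l, i < l ∧ l < j ∧ v l = u 0 := by
    by_contra k
    exact ne (by rw [← p2, ← u2 0 (Nat.zero_le _), f4 _ u6 k])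
  obtain ⟨l', l4, l5⟩ := mem_pv.1 ((h.hA _).1 a2).1
  have l6 : ¬ (i < l' ∧ l' < j) := fun k =>
    ne (by rw [← p3, ← u2 m le_rfl, f3 _ u7 ⟨l', k.1, k.2, l5⟩])
  have l7 : l' ≠ i := fun k => hi' (k ▸ l5 ▸ a2)
  have l8 : l' ≠ j := fun k => hj' (k ▸ l5 ▸ a2)
  refine ⟨l, l', _, _, l3 ▸ l5 ▸ GCpm_of u1, l1, l2, by omega, l4,
    mem_pv.2 ⟨r, r1, (u3 r r1 (r2 ▸ h.sp.1)).trans r2⟩, l3 ▸ a1, l5 ▸ a2, fun t ht => ?_⟩
  obtain ⟨s, s1, rfl⟩ := mem_pv.1 ht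
  by_cases s2 : s = 0
  · exact Or.inl (by rw [s2, l3])
  by_cases s3 : s = m
  · exact Or.inr (Or.inl (by rw [s3, l5]))
  · exact Or.inr (Or.inr (u5 s (by omega) (by omega)))

end GCpm_Gp

end SG

end Pool.Agent.Work.MP_8c679b_co
end
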