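import Pool.Agent.Work.MP_8c679b_co.K1.GT1
import Pool.Agent.Work.MP_8c679b_co.Six.GNorm
import Pool.Agent.Work.MP_8c679b_co.Six.AGad
import Pool.Agent.Work.MP_8c679b_co.Cubic
import Pool.Agent.Work.MP_8c679b_co.Six.GCpmC

-- merged part: Pool.Agent.Work.MP_8c679b_co.Six.KBp
section
-- merged part: Pool.Agent.Work.MP_8c679b_co.Six.GLk
section
/-!
Paths through a third terminal; linkages with a chord.
-/

set_option autoImplicit false
set_option linter.unusedSectionVars false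

namespace Pool.Agent.Work.MP_8c679b_co

open Finset

namespace SG

variable {V E : Type} [Fintype V] [DecidableEq V] [DecidableEq E] {G : SG V E}
  {T S W : Finset V} {a b c d : E}

theorem GLk_je {e : E} {x y : V} {X : Finset V} (j : G.Je e x y) (hx : x ∈ X) (hy : y ∉ X) :
    ¬ (G.s e ∈ X ↔ G.t e ∈ X) := by
  rcases j with ⟨rfl, rfl⟩ | ⟨rfl, rfl⟩ <;> tauto

theorem GLk_crs {F : Finset E} {e : E} {X : Finset V} (he : e ∈ G.crs F X) :
    e ∈ F ∧ ∃ x y, G.Je e x y ∧ x ∈ X ∧ y ∉ X := by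
  obtain ⟨h1, h2⟩ := mem_crs.1 he
  by_cases c : G.s e ∈ X
  · exact ⟨h1, _, _, .inl ⟨rfl, rfl⟩, c, by tauto⟩
  · exact ⟨h1, _, _, .inr ⟨rfl, rfl⟩, by tauto, c⟩

theorem GLk_card (hc : G.Cub) {F : Finset E} (hF : F ⊆ G.A) {y : V} (h : ∀ e ∈ F, G.At e y) :
    F.card ≤ 3 := by
  refine le_trans ?_ (hc.le3 hF y)
  rw [card_eq_sum_ones]
  exact sum_le_sum fun e he => inc_pos.2 (h e he)

theorem GLk_avo {F : Finset E} {M : Finset V} {e : E} {x y : V} (he : e ∈ F) (j : G.Je e x y)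
    (hx : x ∉ M) (hy : y ∉ M) : e ∈ G.avo F M := by
  rw [mem_avo]
  rcases j with ⟨rfl, rfl⟩ | ⟨rfl, rfl⟩ <;> tauto

/-- no cut vertex -/
theorem GLk_two (hc : G.Cub) (h2 : G.Two S (G.ins S)) {M : Finset V} (hM : M.card < 2) {p q : V}
    (hp : p ∈ S) (hq : q ∈ S) (hp' : p ∉ M) (hq' : q ∉ M) : G.Rch (G.avo (G.ins S) M) p q := by
  classical
  by_contra hn
  obtain ⟨Z, mZ⟩ : ∃ Z : Finset V, ∀ x, x ∈ Z ↔ x ∈ S ∧ G.Rch (G.avo (G.ins S) M) p x :=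
    ⟨S.filter fun x => G.Rch (G.avo (G.ins S) M) p x, fun x => mem_filter⟩
  have zM : ∀ x ∈ Z, x ∉ M := fun x hx =>
    ((mZ x).1 hx).2.closed (P := fun z => z ∉ M)
      (fun e he => iff_of_true (mem_avo.1 he).2.1 (mem_avo.1 he).2.2) hp'
  have stp : ∀ e ∈ G.ins S, ∀ x y, G.Je e x y → x ∈ Z → y ∉ M → y ∈ Z := by
    intro e he x y j hx hy
    exact (mZ y).2 ⟨((Pth_ends j).1 (mem_ins.1 he).2).2, Relation.ReflTransGen.tail ((mZ x).1 hx).2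
      (adj_iff.2 ⟨e, GLk_avo he j (zM x hx) hy, j⟩)⟩
  have pZ : p ∈ Z := (mZ p).2 ⟨hp, Rch.refl _ _⟩
  have qZ : q ∉ Z := fun h => hn ((mZ q).1 h).2
  have c1 := h2 Z (fun x hx => ((mZ x).1 hx).1) ⟨p, pZ⟩ fun e => qZ (e ▸ hq)
  have c2 := h2 (S \ (Z ∪ M)) sdiff_subset ⟨q, by simp [hq, qZ, hq']⟩ fun e => by
    have := e.symm ▸ hp
    simp [pZ] at this
  have a1 : ∀ e ∈ G.crs (G.ins S) Z, ∃ x ∈ Z, ∃ y ∈ M, G.Je e x y := by
    intro e he
    obtain ⟨h1, x, y, j, hx, hy⟩ := GLk_crs he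
    exact ⟨x, hx, y, by_contra fun h => hy (stp e h1 x y j hx h), j⟩
  have a2 : ∀ e ∈ G.crs (G.ins S) (S \ (Z ∪ M)), ∃ y ∈ M, G.At e y := by
    intro e he
    obtain ⟨h1, x, y, j, hx, hy⟩ := GLk_crs he
    have yS := ((Pth_ends j).1 (mem_ins.1 h1).2).2
    simp only [mem_sdiff, mem_union, not_or, not_and, not_not] at hx hy
    refine ⟨y, hy yS fun h => hx.2.1 (stp e h1 y x j.symm h hx.2.2), j.at_iff.2 (.inr rfl)⟩
  have dj : Disjoint (G.crs (G.ins S) Z) (G.crs (G.ins S) (S \ (Z ∪ M))) := by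
    refine disjoint_left.2 fun e h1 h2 => ?_
    obtain ⟨x, hx, y, hy, j⟩ := a1 e h1
    obtain ⟨-, x', y', j', hx', -⟩ := GLk_crs h2
    rcases j.at_iff.1 (j'.at_iff.2 (.inl rfl)) with rfl | rfl <;> simp [hx, hy] at hx'
  obtain ⟨e0, he0⟩ : (G.crs (G.ins S) Z).Nonempty := card_pos.1 (by omega)
  obtain ⟨-, -, m, hm, -⟩ := a1 e0 he0
  have mm : ∀ y ∈ M, y = m := fun y hy => card_le_one.1 (by omega) y hy m hm
  have := GLk_card hc (F := G.crs (G.ins S) Z ∪ G.crs (G.ins S) (S \ (Z ∪ M))) (y := m)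
    (union_subset (fun e he => ins_sub_A (mem_crs.1 he).1) fun e he => ins_sub_A (mem_crs.1 he).1)
    fun e he => by
      rcases mem_union.1 he with he | he
      · obtain ⟨x, -, y, hy, j⟩ := a1 e he
        exact j.at_iff.2 (.inr (mm y hy).symm)
      · obtain ⟨y, hy, j⟩ := a2 e he
        exact mm y hy ▸ j
  rw [card_union_of_disjoint dj] at this
  omega

variable (G) in
/-- `U` is the vertex set of a path inside `S` from `x` to `y` -/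
def GLk_P (S U : Finset V) (x y : V) : Prop :=
  ∃ n v g, G.Pth (G.ins S) n v g ∧ v 0 = x ∧ v n = y ∧ pv n v = U

variable (G) in
/-- an edge between two sets -/
def GLk_N (J U : Finset V) : Prop := ∃ x ∈ J, ∃ y ∈ U, G.Adj G.A x y

variable (G) in
/-- a connected set attached to `U1` and `U2` and to nothing else -/
structure GLk_B (S J U1 U2 : Finset V) : Prop where
  sub : J ⊆ S
  d1 : Disjoint J U1
  d2 : Disjoint J U2
  cn : G.Cn J (G.ins J)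
  cl : ∀ x ∈ J, ∀ y, G.Adj G.A x y → y ∈ J ∨ y ∈ U1 ∨ y ∈ U2
  n1 : G.GLk_N J U1
  n2 : G.GLk_N J U2

theorem GLk_B.symm {J U1 U2 : Finset V} (h : G.GLk_B S J U1 U2) : G.GLk_B S J U2 U1 :=
  ⟨h.sub, h.d2, h.d1, h.cn, fun x hx y a => (h.cl x hx y a).imp_right Or.symm, h.n2, h.n1⟩

theorem GLk_N.symm {J U : Finset V} (h : G.GLk_N J U) : G.GLk_N U J := by
  obtain ⟨x, hx, y, hy, a⟩ := h
  exact ⟨y, hy, x, hx, a.symm⟩

theorem GLk_P.sub {U : Finset V} {x y : V} (h : G.GLk_P S U x y) (hx : x ∈ S) : U ⊆ S := by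
  obtain ⟨n, v, g, hp, rfl, -, rfl⟩ := h
  exact hp.sub_of_ins hx

theorem GLk_P.pp {U : Finset V} {x y : V} (h : G.GLk_P S U x y) : ∃ P, G.Pp U P x y := by
  obtain ⟨n, v, g, hp, rfl, rfl, rfl⟩ := h
  exact ⟨_, hp.pp ins_sub_A⟩

theorem GLk_P.mem {U : Finset V} {x y : V} (h : G.GLk_P S U x y) : x ∈ U ∧ y ∈ U := by
  obtain ⟨n, v, g, -, rfl, rfl, rfl⟩ := h
  exact ⟨mem_pv.2 ⟨0, n.zero_le, rfl⟩, mem_pv.2 ⟨n, le_rfl, rfl⟩⟩

theorem GLk_cmp {Y : Finset V} {z x y : V} (hx : x ∈ G.cmp Y z) (hy : y ∈ Y)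
    (a : G.Adj G.A x y) : y ∈ G.cmp Y z := by
  obtain ⟨e, he, j⟩ := adj_iff.1 a
  obtain ⟨h1, h2⟩ := mem_cmp.1 hx
  exact mem_cmp.2 ⟨hy, Relation.ReflTransGen.tail h2 (adj_iff.2 ⟨e, Cut_je_ins he j h1 hy, j⟩)⟩

/-- an ear through a connected set -/
theorem GLk_ear {J : Finset V} (hJ : J ⊆ S) (cn : G.Cn J (G.ins J)) {p q x y : V} (hp : p ∈ S)
    (hq : q ∈ S) (hp' : p ∉ J) (hq' : q ∉ J) (hpq : p ≠ q) (hx : x ∈ J) (hy : y ∈ J)
    (ax : G.Adj G.A x p) (ay : G.Adj G.A y q) :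
    ∃ m u h, G.Pth (G.ins S) m u h ∧ u 0 = p ∧ u m = q ∧ 2 ≤ m ∧
      ∀ k, 0 < k → k < m → u k ∈ J := by
  obtain ⟨e1, he1, j1⟩ := adj_iff.1 ax
  obtain ⟨e2, he2, j2⟩ := adj_iff.1 ay
  obtain ⟨n, v, g, hv, rfl, rfl⟩ := (cn x hx y hy).pth e1
  have hs := hv.sub_of_ins hx
  have h0 : G.Pth (G.ins S) n v g := hv.mono fun i hi => ins_mono hJ (hv.mem i hi)
  have h1 := h0.snoc (Cut_je_ins he2 j2 (hJ hy) hq) j2 fun h => hq' (hs h)
  have h2 := h1.cons (e := e1) (x := p) (Cut_je_ins he1 j1 (hJ hx) hp) (by simpa using j1.symm) (by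
    intro h
    obtain ⟨i, -, e⟩ := mem_pv.1 h
    split_ifs at e with c
    · exact hp' (hs (mem_pv.2 ⟨i, c, e⟩))
    · exact hpq e.symm)
  refine ⟨_, _, _, h2, by simp, by simp, by omega, fun k k1 k2 => ?_⟩
  have c : k - 1 ≤ n := by omega
  simp only [if_neg k1.ne', if_pos c]
  exact hs (mem_pv.2 ⟨_, c, rfl⟩)

/-- rerouting through an attached set -/
theorem GLk_step {J U1 U2 : Finset V} {x y p q : V} (hP : G.GLk_P S U1 x y) (hx : x ∈ S)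
    (hd : Disjoint U1 U2) (hB : G.GLk_B S J U1 U2) (hpq : p ≠ q) (hp : p ∈ U1) (hq : q ∈ U1)
    (ap : ∃ z ∈ J, G.Adj G.A z p) (aq : ∃ z ∈ J, G.Adj G.A z q) :
    ∃ U, G.GLk_P S U x y ∧ Disjoint U U2 ∧ (G.GLk_N U U2 ∨ ∃ J' ⊂ J, G.GLk_B S J' U U2) := by
  classical
  have hU := hP.sub hx
  obtain ⟨n, v, g, hv, rfl, rfl, rfl⟩ := hP
  obtain ⟨i, j0, hij0, hj0, ai, aj0⟩ : ∃ i j, i < j ∧ j ≤ n ∧ (∃ z ∈ J, G.Adj G.A z (v i)) ∧
      ∃ z ∈ J, G.Adj G.A z (v j) := by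
    obtain ⟨i, hi, rfl⟩ := mem_pv.1 hp
    obtain ⟨j, hj, rfl⟩ := mem_pv.1 hq
    rcases lt_trichotomy i j with h | h | h
    · exact ⟨i, j, h, hj, ap, aq⟩
    · exact absurd (h ▸ rfl) hpq
    · exact ⟨j, i, h, hi, aq, ap⟩
  have ex : ∃ j, i < j ∧ j ≤ n ∧ ∃ z ∈ J, G.Adj G.A z (v j) := ⟨j0, hij0, hj0, aj0⟩
  obtain ⟨hij, hj, z2, hz2, a2⟩ := Nat.find_spec ex
  have hmin : ∀ l < Nat.find ex, ¬ (i < l ∧ l ≤ n ∧ ∃ z ∈ J, G.Adj G.A z (v l)) :=
    fun l hl => Nat.find_min ex hl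
  generalize Nat.find ex = j at hij hj a2 hmin
  obtain ⟨z1, hz1, a1⟩ := ai
  have vm : ∀ l ≤ n, v l ∈ pv n v := fun l hl => mem_pv.2 ⟨l, hl, rfl⟩
  have vJ : ∀ l ≤ n, v l ∉ J := fun l hl h => disjoint_left.1 hB.d1 h (vm l hl)
  obtain ⟨m, u, h, hu, u0, um, m2, uJ⟩ := GLk_ear hB.sub hB.cn (hU (vm i (by omega)))
    (hU (vm j hj)) (vJ i (by omega)) (vJ j hj)
    (fun e => hij.ne (hv.inj i (by omega) j hj e)) hz1 hz2 a1 a2
  have hr := hv.rr hu hij hj u0 um fun k k1 k2 l hl _ e => vJ l hl (e ▸ uJ k k1 k2)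
  obtain ⟨U, eU⟩ : ∃ U, U = pv (i + m + (n - j)) (rrV i j m v u) := ⟨_, rfl⟩
  have mU : ∀ w, w ∈ U ↔ (∃ k ≤ i, v k = w) ∨ w ∈ pv m u ∨ ∃ k, j ≤ k ∧ k ≤ n ∧ v k = w :=
    fun w => eU ▸ mem_pv_rr hij.le hj u0 um
  have F1 : ∀ w ∈ U, w ∈ pv n v ∨ w ∈ J := by
    intro w hw
    rcases (mU w).1 hw with ⟨k, hk, rfl⟩ | hw | ⟨k, -, hk, rfl⟩
    · exact .inl (vm k (by omega))
    · obtain ⟨k, hk, rfl⟩ := mem_pv.1 hw
      rcases Nat.eq_zero_or_pos k with rfl | k1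
      · exact .inl (u0 ▸ vm i (by omega))
      · rcases hk.eq_or_lt with rfl | k2
        · exact .inl (um ▸ vm j hj)
        · exact .inr (uJ k k1 k2)
    · exact .inl (vm k hk)
  have F2 : ∀ w ∈ pv n v, ∀ z ∈ J, G.Adj G.A z w → w ∈ U := by
    intro w hw z hz a
    obtain ⟨l, hl, rfl⟩ := mem_pv.1 hw
    by_cases c1 : l ≤ i
    · exact (mU _).2 (.inl ⟨l, c1, rfl⟩)
    by_cases c2 : j ≤ l
    · exact (mU _).2 (.inr (.inr ⟨l, c2, hl, rfl⟩))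
    exact absurd ⟨by omega, hl, z, hz, a⟩ (hmin l (by omega))
  have rJ : u 1 ∈ J := uJ 1 one_pos (by omega)
  have rU : u 1 ∈ U := (mU _).2 (.inr (.inl (mem_pv.2 ⟨1, by omega, rfl⟩)))
  refine ⟨U, ⟨_, _, _, hr, Pth_rr1 i.zero_le, ?_, eU.symm⟩, disjoint_left.2 fun w hw h2 => ?_, ?_⟩
  · rw [Pth_rr3 u0 um (Nat.le_add_right _ _)]
    congr 1
    omega
  · rcases F1 w hw with h1 | h1
    · exact disjoint_left.1 hd h1 h2
    · exact disjoint_left.1 hB.d2 h1 h2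
  obtain ⟨z, hz, w, hw, a⟩ := hB.n2
  by_cases c : z ∈ U
  · exact .inl ⟨z, c, w, hw, a⟩
  obtain ⟨s1, s2, -, s4⟩ := cmp_spec (G := G) (mem_sdiff.2 ⟨hz, c⟩)
  have sJ : G.cmp (J \ U) z ⊆ J := s2.trans sdiff_subset
  have nr : u 1 ∉ G.cmp (J \ U) z := fun h => (mem_sdiff.1 (s2 h)).2 rU
  refine .inr ⟨G.cmp (J \ U) z, ⟨sJ, fun h => nr (h rJ)⟩, sJ.trans hB.sub,
    disjoint_left.2 fun t ht => (mem_sdiff.1 (s2 ht)).2, hB.d2.mono_left sJ, s4,
    fun t ht t' a' => ?_, by_contra fun hn => nr ?_, z, s1, w, hw, a⟩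
  · by_cases c' : t' ∈ U
    · exact .inr (.inl c')
    rcases hB.cl t (sJ ht) t' a' with h1 | h1 | h1
    · exact .inl (GLk_cmp ht (mem_sdiff.2 ⟨h1, c'⟩) a')
    · exact absurd (F2 t' h1 t (sJ ht) a') c'
    · exact .inr (.inr h1)
  · have key : ∀ e ∈ G.ins J, ∀ t t', G.Je e t t' → t ∈ G.cmp (J \ U) z → t' ∈ G.cmp (J \ U) z := by
      intro e he t t' j ht
      have a' : G.Adj G.A t t' := adj_iff.2 ⟨e, ins_sub_A he, j⟩
      exact GLk_cmp ht (mem_sdiff.2 ⟨((Pth_ends j).1 (mem_ins.1 he).2).2,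
        fun h => hn ⟨t, ht, t', h, a'⟩⟩) a'
    exact (hB.cn z hz _ rJ).closed (P := fun t => t ∈ G.cmp (J \ U) z)
      (fun e he => ⟨key e he _ _ (.inl ⟨rfl, rfl⟩), key e he _ _ (.inr ⟨rfl, rfl⟩)⟩) s1

/-- every vertex of a path between terminals has two edges that stay on the path or leave `S` -/
theorem GLk_sat {U : Finset V} (hP : G.GLk_P S U (G.ie S a) (G.ie S b)) (ha : a ∈ G.cut S)
    (hb : b ∈ G.cut S) (hd : G.Dv S a b) {y : V} (hy : y ∈ U) :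
    ∃ f1 f2, f1 ≠ f2 ∧ ∀ f, f = f1 ∨ f = f2 → f ∈ G.A ∧ G.At f y ∧ ∀ z ∈ S, G.At f z → z ∈ U := by
  obtain ⟨n, v, g, hv, v0, vn, rfl⟩ := hP
  obtain ⟨l, hl, rfl⟩ := mem_pv.1 hy
  have n1 : 0 < n := Nat.pos_of_ne_zero fun h => hd (by rw [← v0, ← vn, h])
  have hg : ∀ k < n, l = k ∨ l = k + 1 →
      g k ∈ G.A ∧ G.At (g k) (v l) ∧ ∀ z ∈ S, G.At (g k) z → z ∈ pv n v := by
    intro k hk h
    refine ⟨ins_sub_A (hv.mem k hk), (hv.at_iff hk hl).2 h, fun z _ hz => ?_⟩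
    rcases (hv.jn k hk).at_iff.1 hz with rfl | rfl
    · exact mem_pv.2 ⟨k, hk.le, rfl⟩
    · exact mem_pv.2 ⟨k + 1, hk, rfl⟩
  have he : ∀ e ∈ G.cut S, v l = G.ie S e →
      e ∈ G.A ∧ G.At e (v l) ∧ ∀ z ∈ S, G.At e z → z ∈ pv n v := by
    intro e he h
    exact ⟨(mem_cut.1 he).1, h ▸ ie_at, fun z hz hz' => by rw [eq_ie he hz hz', ← h]; exact hy⟩
  have hne : ∀ e ∈ G.cut S, ∀ k < n, e ≠ g k := fun e he k hk h =>
    not_ins_of_cut he (h ▸ hv.mem k hk)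
  rcases Nat.eq_zero_or_pos l with rfl | l1
  · refine ⟨a, g 0, hne a ha 0 n1, ?_⟩
    rintro f (rfl | rfl)
    · exact he _ ha v0
    · exact hg 0 n1 (.inl rfl)
  rcases hl.eq_or_lt with rfl | l2
  · refine ⟨b, g (l - 1), hne b hb _ (by omega), ?_⟩
    rintro f (rfl | rfl)
    · exact he _ hb vn
    · exact hg _ (by omega) (.inr (by omega))
  · refine ⟨g l, g (l - 1), fun h => ?_, ?_⟩
    · have := hv.einj l2 (by omega) h
      omega
    · rintro f (rfl | rfl)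
      · exact hg _ l2 (.inl rfl)
      · exact hg _ (by omega) (.inr (by omega))

/-- two edges from `J` to the path end at different vertices -/
theorem GLk_dist (hc : G.Cub) {U J : Finset V} (hP : G.GLk_P S U (G.ie S a) (G.ie S b))
    (ha : a ∈ G.cut S) (hb : b ∈ G.cut S) (hd : G.Dv S a b) (hJ : J ⊆ S) (hJU : Disjoint J U)
    (h2 : 1 < ((G.cut J).filter fun e => G.oe J e ∈ U).card) :
    ∃ p q, p ≠ q ∧ p ∈ U ∧ q ∈ U ∧ (∃ z ∈ J, G.Adj G.A z p) ∧ ∃ z ∈ J, G.Adj G.A z q := by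
  obtain ⟨e, he, e', he', hne⟩ := one_lt_card.1 h2
  obtain ⟨h1, h3⟩ := mem_filter.1 he
  obtain ⟨h1', h3'⟩ := mem_filter.1 he'
  refine ⟨_, _, fun h => ?_, h3, h3', ⟨_, Spl_ie h1, adj_iff.2 ⟨e, (mem_cut.1 h1).1, je_ie_oe⟩⟩,
    ⟨_, Spl_ie h1', adj_iff.2 ⟨e', (mem_cut.1 h1').1, je_ie_oe⟩⟩⟩
  obtain ⟨f1, f2, hf, F⟩ := GLk_sat hP ha hb hd h3
  have dj : Disjoint ({e, e'} : Finset E) {f1, f2} := by
    refine disjoint_left.2 fun f k1 k2 => ?_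
    have k3 : f ∈ G.cut J := by
      rcases mem_insert.1 k1 with rfl | k1
      · exact h1
      · exact mem_singleton.1 k1 ▸ h1'
    exact disjoint_left.1 hJU (Spl_ie k3)
      ((F f (by simpa using k2)).2.2 _ (hJ (Spl_ie k3)) ie_at)
  have key : ∀ f ∈ ({e, e'} : Finset E) ∪ {f1, f2}, f ∈ G.A ∧ G.At f (G.oe J e) := by
    intro f k
    rcases mem_union.1 k with k | k
    · rcases mem_insert.1 k with rfl | k
      · exact ⟨(mem_cut.1 h1).1, oe_at⟩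
      · rw [mem_singleton.1 k, h]
        exact ⟨(mem_cut.1 h1').1, oe_at⟩
    · exact ⟨(F f (by simpa using k)).1, (F f (by simpa using k)).2.1⟩
  have := GLk_card hc (fun f k => (key f k).1) fun f k => (key f k).2
  rw [card_union_of_disjoint dj, card_pair hne, card_pair hf] at this
  omega

theorem GLk_ind (hc : G.Cub) (hT : G.HT T) (hS : S ⊆ T) (ha : a ∈ G.cut S) (hb : b ∈ G.cut S)
    (hc' : c ∈ G.cut S) (hd : d ∈ G.cut S) (h1 : G.Dv S a c) (h2 : G.Dv S b d) (J : Finset V) :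
    ∀ U1 U2, G.GLk_P S U1 (G.ie S a) (G.ie S c) → G.GLk_P S U2 (G.ie S b) (G.ie S d) →
      Disjoint U1 U2 → G.GLk_B S J U1 U2 → ∃ U1 U2, G.GLk_P S U1 (G.ie S a) (G.ie S c) ∧
        G.GLk_P S U2 (G.ie S b) (G.ie S d) ∧ Disjoint U1 U2 ∧ G.GLk_N U1 U2 := by
  induction J using Finset.strongInduction with
  | H J ih =>
    intro U1 U2 p1 p2 dj hB
    obtain ⟨z, hz, -⟩ := hB.n1
    have k3 := hT.mono3 (hB.sub.trans hS) ⟨z, hz⟩
    have sub : G.cut J ⊆ ((G.cut J).filter fun e => G.oe J e ∈ U1) ∪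
        (G.cut J).filter fun e => G.oe J e ∈ U2 := by
      intro e he
      rcases hB.cl _ (Spl_ie he) _ (adj_iff.2 ⟨e, (mem_cut.1 he).1, je_ie_oe⟩) with h | h | h
      · exact absurd h (oe_not_mem he)
      · exact mem_union_left _ (mem_filter.2 ⟨he, h⟩)
      · exact mem_union_right _ (mem_filter.2 ⟨he, h⟩)
    have k4 := (card_le_card sub).trans (card_union_le _ _)
    by_cases c1 : 1 < ((G.cut J).filter fun e => G.oe J e ∈ U1).card
    · obtain ⟨p, q, hpq, hp, hq, ap, aq⟩ := GLk_dist hc p1 ha hc' h1 hB.sub hB.d1 c1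
      obtain ⟨U, pU, dU, h | ⟨J', hJ', h⟩⟩ := GLk_step p1 (Spl_ie ha) dj hB hpq hp hq ap aq
      · exact ⟨U, U2, pU, p2, dU, h⟩
      · exact ih J' hJ' U U2 pU p2 dU h
    · obtain ⟨p, q, hpq, hp, hq, ap, aq⟩ := GLk_dist hc p2 hb hd h2 hB.sub hB.d2 (by omega)
      obtain ⟨U, pU, dU, h | ⟨J', hJ', h⟩⟩ :=
        GLk_step p2 (Spl_ie hb) dj.symm hB.symm hpq hp hq ap aq
      · exact ⟨U1, U, p1, pU, dU.symm, h.symm⟩
      · exact ih J' hJ' U1 U p1 pU dU.symm h.symm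

/-- a chord or an attached set -/
theorem GLk_start {U1 U2 : Finset V} (cn : G.Cn S (G.ins S)) (dj : Disjoint U1 U2) {x y : V}
    (hx : x ∈ U1) (hy : y ∈ U2) (hx' : x ∈ S) (hy' : y ∈ S)
    (hT : ∀ e ∈ G.cut S, G.ie S e ∈ U1 ∪ U2) : G.GLk_N U1 U2 ∨ ∃ J, G.GLk_B S J U1 U2 := by
  by_contra hn
  rw [not_or, not_exists] at hn
  have key : ∀ z, G.Rch (G.ins S) x z →
      z ∈ U1 ∨ (z ∈ S \ (U1 ∪ U2) ∧ G.GLk_N (G.cmp (S \ (U1 ∪ U2)) z) U1) := by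
    intro z hz
    induction hz with
    | refl => exact .inl hx
    | @tail p q _ a ih =>
      obtain ⟨e, he, j⟩ := adj_iff.1 a
      have a' : G.Adj G.A p q := adj_iff.2 ⟨e, ins_sub_A he, j⟩
      have qS := ((Pth_ends j).1 (mem_ins.1 he).2).2
      by_cases c1 : q ∈ U1
      · exact .inl c1
      by_cases c2 : q ∈ U2
      · rcases ih with h | ⟨h, h'⟩
        · exact absurd ⟨p, h, q, c2, a'⟩ hn.1
        · obtain ⟨s1, s2, -, s4⟩ := cmp_spec (G := G) h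
          refine absurd ⟨s2.trans sdiff_subset, disjoint_left.2 fun t ht k => ?_,
            disjoint_left.2 fun t ht k => ?_, s4, fun t ht t' b => ?_, h', p, s1, q, c2, a'⟩
            (hn.2 (G.cmp (S \ (U1 ∪ U2)) p))
          · exact (mem_sdiff.1 (s2 ht)).2 (mem_union_left _ k)
          · exact (mem_sdiff.1 (s2 ht)).2 (mem_union_right _ k)
          · by_cases c3 : t' ∈ U1 ∪ U2
            · exact .inr (mem_union.1 c3)
            by_cases c4 : t' ∈ S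
            · exact .inl (GLk_cmp ht (mem_sdiff.2 ⟨c4, c3⟩) b)
            obtain ⟨f, hf, jf⟩ := adj_iff.1 b
            obtain ⟨k1, k2⟩ := mem_sdiff.1 (s2 ht)
            have k3 : f ∈ G.cut S := mem_cut.2 ⟨hf, GLk_je jf k1 c4⟩
            exact absurd (eq_ie k3 k1 (jf.at_iff.2 (.inl rfl)) ▸ hT f k3) k2
      have qY : q ∈ S \ (U1 ∪ U2) := mem_sdiff.2 ⟨qS, by simp [c1, c2]⟩
      refine .inr ⟨qY, ?_⟩
      rcases ih with h | ⟨h, t, k, h'⟩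
      · exact ⟨q, (cmp_spec qY).1, p, h, a'.symm⟩
      · exact ⟨t, mem_cmp.2 ⟨(mem_cmp.1 k).1,
          (mem_cmp.1 (GLk_cmp (cmp_spec qY).1 h a'.symm)).2.trans (mem_cmp.1 k).2⟩, h'⟩
  rcases key y (cn x hx' y hy') with h | ⟨h, -⟩
  · exact disjoint_left.1 dj h hy
  · exact (mem_sdiff.1 h).2 (mem_union_right _ hy)

theorem GLk_link (hc : G.Cub) (h2 : G.Two S (G.ins S)) (e0 : E) {p q r s : V} (hp : p ∈ S)
    (hq : q ∈ S) (hr : r ∈ S) (hs : s ∈ S) (hpq : p ≠ q) (hrs : r ≠ s) :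
    ∃ U1 U2, Disjoint U1 U2 ∧ ((G.GLk_P S U1 p r ∧ G.GLk_P S U2 q s) ∨
      (G.GLk_P S U1 p s ∧ G.GLk_P S U2 q r)) := by
  have pick : ∀ (M : Finset V) (x y : V), M.card < 2 → x ≠ y → x ∈ S → y ∈ S →
      ∃ z ∈ ({x, y} : Finset V), z ∉ M ∧ z ∈ S := by
    intro M x y hM hxy hx hy
    by_cases c : x ∈ M
    · exact ⟨y, by simp, fun h => hxy (card_le_one.1 (by omega) x c y h), hy⟩
    · exact ⟨x, by simp, c, hx⟩
  obtain ⟨n, v, g, h, dj⟩ := menger (G := G) (G.ins S) {p, q} {r, s} 2 e0 fun M hM => by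
    obtain ⟨x, x1, x2, x3⟩ := pick M p q hM hpq hp hq
    obtain ⟨y, y1, y2, y3⟩ := pick M r s hM hrs hr hs
    exact ⟨x, x1, y, y1, x2, y2, GLk_two hc h2 hM x3 y3 x2 y2⟩
  have d := dj 0 1 (by decide)
  have P : ∀ i, G.GLk_P S (pv (n i) (v i)) (v i 0) (v i (n i)) := fun i =>
    ⟨_, _, _, (h i).1, rfl, rfl, rfl⟩
  have P0 := P 0
  have P1 := P 1
  have n0 : v 0 0 ≠ v 1 0 := fun e => disjoint_left.1 d P0.mem.1 (e ▸ P1.mem.1)
  have n1 : v 0 (n 0) ≠ v 1 (n 1) := fun e => disjoint_left.1 d P0.mem.2 (e ▸ P1.mem.2)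
  have a0 := (h 0).2.1
  have a1 := (h 1).2.1
  have b0 := (h 0).2.2.1
  have b1 := (h 1).2.2.1
  simp only [mem_insert, mem_singleton] at a0 a1 b0 b1
  rcases a0 with a0 | a0 <;> rcases a1 with a1 | a1 <;> rcases b0 with b0 | b0 <;>
    rcases b1 with b1 | b1 <;> rw [a0, a1] at n0 <;> rw [b0, b1] at n1 <;>
    rw [a0, b0] at P0 <;> rw [a1, b1] at P1 <;>
    first
    | exact absurd rfl n0
    | exact absurd rfl n1
    | exact ⟨_, _, d, .inl ⟨P0, P1⟩⟩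
    | exact ⟨_, _, d, .inr ⟨P0, P1⟩⟩
    | exact ⟨_, _, d.symm, .inl ⟨P1, P0⟩⟩
    | exact ⟨_, _, d.symm, .inr ⟨P1, P0⟩⟩

theorem GLk_main (hc : G.Cub) (hT : G.HT T) (hS : S ⊆ T) (hq : G.Q4 S a b c d) (h2 : 2 < S.card)
    {U1 U2 : Finset V} (p1 : G.GLk_P S U1 (G.ie S a) (G.ie S c))
    (p2 : G.GLk_P S U2 (G.ie S b) (G.ie S d)) (dj : Disjoint U1 U2) :
    ∃ U1 U2, G.GLk_P S U1 (G.ie S a) (G.ie S c) ∧
      G.GLk_P S U2 (G.ie S b) (G.ie S d) ∧ Disjoint U1 U2 ∧ G.GLk_N U1 U2 := by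
  obtain ⟨ha, hb, hc', hd⟩ := hq.mem
  rcases GLk_start (hT.cn4 hc hS hq.card) dj p1.mem.1 p2.mem.1 (Spl_ie ha) (Spl_ie hb)
    (fun e he => by
      rcases (Spl_mem hq e).1 he with rfl | rfl | rfl | rfl
      · exact mem_union_left _ p1.mem.1
      · exact mem_union_right _ p2.mem.1
      · exact mem_union_left _ p1.mem.2
      · exact mem_union_right _ p2.mem.2) with h | ⟨J, h⟩
  · exact ⟨U1, U2, p1, p2, dj, h⟩
  · exact GLk_ind hc hT hS ha hb hc' hd (hT.f2 hc hS hq.card h2 ha hc' hq.2.2.1)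
      (hT.f2 hc hS hq.card h2 hb hd hq.2.2.2.2.2.1) J U1 U2 p1 p2 dj h

theorem GLk_fin {U1 U2 : Finset V} {p q r s : V} (hp : p ∈ S) (hq : q ∈ S)
    (p1 : G.GLk_P S U1 p r) (p2 : G.GLk_P S U2 q s) (dj : Disjoint U1 U2) (h : G.GLk_N U1 U2) :
    ∃ P1 P2 g, U1 ⊆ S ∧ U2 ⊆ S ∧ Disjoint U1 U2 ∧ G.Pp U1 P1 p r ∧ G.Pp U2 P2 q s ∧
      g ∈ G.cut U1 ∧ g ∈ G.cut U2 := by
  obtain ⟨x, hx, y, hy, a⟩ := h
  obtain ⟨e, he, j⟩ := adj_iff.1 a
  obtain ⟨P1, h1⟩ := p1.pp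
  obtain ⟨P2, h2⟩ := p2.pp
  exact ⟨P1, P2, e, p1.sub hp, p2.sub hq, dj, h1, h2,
    mem_cut.2 ⟨he, GLk_je j hx (disjoint_right.1 dj hy)⟩,
    mem_cut.2 ⟨he, GLk_je j.symm hy (disjoint_left.1 dj hx)⟩⟩

theorem GLk_zero (e0 : E) (p : V) : G.GLk_P S {p} p p :=
  ⟨0, fun _ => p, fun _ => e0, pth_zero p _, rfl, rfl, by simp [pv]⟩

/-- A path between the terminals of `a, b` through the terminal of `c`.
HINT: a rung is itself such a path.  Otherwise `S` is two-edge-connected (`HT.f3`); use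
`two_paths` (Men.lean) with target `{tc}` and take the component, or `pth_through`. -/
theorem bp_path (hc : G.Cub) (hT : G.HT T) (hS : S ⊆ T) (hq : G.Q4 S a b c d) (hd : G.Dv S a b) :
    ∃ U P, U ⊆ S ∧ G.Pp U P (G.ie S a) (G.ie S b) ∧ G.ie S c ∈ U := by
  obtain ⟨ha, hb, hc', -⟩ := hq.mem
  suffices h : ∃ U, G.GLk_P S U (G.ie S a) (G.ie S b) ∧ G.ie S c ∈ U by
    obtain ⟨U, p, h⟩ := h
    obtain ⟨P, hP⟩ := p.pp
    exact ⟨U, P, p.sub (Spl_ie ha), hP, h⟩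
  by_cases h2 : S.card ≤ 2
  · obtain ⟨eS, e, he, j⟩ := Spl_rung hc hT hS hq.card h2 (Spl_ie ha) (Spl_ie hb) hd
    refine ⟨_, ⟨_, _, _, pth_one he j hd, by simp, by simp, rfl⟩, ?_⟩
    have := Spl_ie hc'
    generalize G.ie S c = z at this
    rw [eS, mem_insert, mem_singleton] at this
    rcases this with rfl | rfl
    · exact mem_pv.2 ⟨0, zero_le_one, by simp⟩
    · exact mem_pv.2 ⟨1, le_rfl, by simp⟩
  · have h2' : 2 < S.card := by omega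
    obtain ⟨n, v, g, hv, v0, vn, h⟩ := pth_through (G := G) (G.ins S) a hd
      (hT.f2 hc hS hq.card h2' hc' ha hq.2.2.1.symm)
      (hT.f2 hc hS hq.card h2' hc' hb hq.2.2.2.2.1.symm) fun M hM hcM => by
        have t := hT.f3 hS hq.card h2'
        by_cases k : G.ie S a ∈ M
        · have k' : G.ie S b ∉ M := fun h => hd (card_le_one.1 (by omega) _ k _ h)
          exact .inr ⟨k', GLk_two hc t hM (Spl_ie hc') (Spl_ie hb) hcM k'⟩
        · exact .inl ⟨k, GLk_two hc t hM (Spl_ie hc') (Spl_ie ha) hcM k⟩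
    exact ⟨_, ⟨n, v, g, hv, v0, vn, rfl⟩, h⟩

/-- Two disjoint paths from the terminals of `a, b` to those of `c, d`, with an edge between
them.
HINT: rung: the two vertices and the rung edge.  Otherwise a linkage exists by `menger`
(`k = 2`; a separating vertex contradicts `HT.f3`, compare `sep_cut`).  For a linkage without
chord some component `J` of the rest has edges to both paths (`S` is connected).  Choose the
linkage and `J` with `J.card` minimal.  `J` contains no terminal, so at least three edges join it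
to the paths, at different vertices; two of them end on the same path, take them consecutive
along it and reroute (`Pth.rr`) through a path `E` in `J`.  A path inside `J` from `E` to a
vertex with an edge to the other path gives a chord or a smaller component. -/
theorem link_chord (hc : G.Cub) (hT : G.HT T) (hS : S ⊆ T) (hq : G.Q4 S a b c d)
    (hd : G.Dv S a b) : ∃ U1 U2 P1 P2 x y g, ((x = c ∧ y = d) ∨ (x = d ∧ y = c)) ∧ U1 ⊆ S ∧
      U2 ⊆ S ∧ Disjoint U1 U2 ∧ G.Pp U1 P1 (G.ie S a) (G.ie S x) ∧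
      G.Pp U2 P2 (G.ie S b) (G.ie S y) ∧ g ∈ G.cut U1 ∧ g ∈ G.cut U2 := by
  obtain ⟨ha, hb, hc', hd'⟩ := hq.mem
  suffices h : ∃ U1 U2 x y, ((x = c ∧ y = d) ∨ (x = d ∧ y = c)) ∧
      G.GLk_P S U1 (G.ie S a) (G.ie S x) ∧ G.GLk_P S U2 (G.ie S b) (G.ie S y) ∧ Disjoint U1 U2 ∧
      G.GLk_N U1 U2 by
    obtain ⟨U1, U2, x, y, h, p1, p2, dj, k⟩ := h
    obtain ⟨P1, P2, g, k⟩ := GLk_fin (Spl_ie ha) (Spl_ie hb) p1 p2 dj k
    exact ⟨U1, U2, P1, P2, x, y, g, h, k⟩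
  have hcd : G.Dv S c d := hT.dv_flip hc hS hq.flip hd
  by_cases h2 : S.card ≤ 2
  · obtain ⟨eS, e, he, j⟩ := Spl_rung hc hT hS hq.card h2 (Spl_ie ha) (Spl_ie hb) hd
    have m : ∀ z ∈ S, z = G.ie S a ∨ z = G.ie S b := fun z hz => by
      simpa using (eS ▸ hz : z ∈ ({G.ie S a, G.ie S b} : Finset V))
    have dj : Disjoint ({G.ie S a} : Finset V) {G.ie S b} := disjoint_singleton.2 hd
    have nb : G.GLk_N {G.ie S a} {G.ie S b} :=
      ⟨_, mem_singleton_self _, _, mem_singleton_self _, adj_iff.2 ⟨e, ins_sub_A he, j⟩⟩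
    rcases m _ (Spl_ie hc') with k | k <;> rcases m _ (Spl_ie hd') with k' | k'
    · exact absurd (k.trans k'.symm) hcd
    · exact ⟨_, _, c, d, .inl ⟨rfl, rfl⟩, by rw [k]; exact GLk_zero a _,
        by rw [k']; exact GLk_zero a _, dj, nb⟩
    · exact ⟨_, _, d, c, .inr ⟨rfl, rfl⟩, by rw [k']; exact GLk_zero a _,
        by rw [k]; exact GLk_zero a _, dj, nb⟩
    · exact absurd (k.trans k'.symm) hcd
  · have h2' : 2 < S.card := by omega
    obtain ⟨U1, U2, dj, ⟨p1, p2⟩ | ⟨p1, p2⟩⟩ := GLk_link hc (hT.f3 hS hq.card h2') a (Spl_ie ha)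
      (Spl_ie hb) (Spl_ie hc') (Spl_ie hd') hd hcd
    · obtain ⟨U1, U2, h⟩ := GLk_main hc hT hS hq h2' p1 p2 dj
      exact ⟨U1, U2, c, d, .inl ⟨rfl, rfl⟩, h⟩
    · obtain ⟨U1, U2, h⟩ := GLk_main hc hT hS hq.swap2 h2' p1 p2 dj
      exact ⟨U1, U2, d, c, .inr ⟨rfl, rfl⟩, h⟩

end SG

end Pool.Agent.Work.MP_8c679b_co
end

-- merged part: Pool.Agent.Work.MP_8c679b_co.Six.KBp
section
/-!
Passes through balanced parts.
-/

set_option autoImplicit false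

namespace Pool.Agent.Work.MP_8c679b_co

open Finset

namespace SG

variable {V E : Type} [Fintype V] [DecidableEq V] [DecidableEq E] {G : SG V E}
  {T S W X : Finset V} {a b c d : E} {Bs Ds : Finset (Finset V)}

theorem KBp_end {U U' : Finset V} {e : E} (hU : U ⊆ S) (hU' : U' ⊆ S) (hd : Disjoint U U')
    (he : e ∈ G.cut S) (hi : G.ie S e ∈ U) :
    (e ∈ G.cut U ∧ e ∉ G.tch U') ∧ G.ie U e = G.ie S e := by
  refine ⟨⟨(Spl_cut_of hU he hi).1, fun h => ?_⟩, (Spl_cut_of hU he hi).2⟩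
  have := ie_mem h
  rw [(cut_of_sub hU' he h).2] at this
  exact disjoint_left.1 hd hi this

theorem KBp_out {e : E} (hX : X ⊆ S) (he : e ∈ G.cut S) (hi : G.ie S e ∈ X) :
    e ∉ G.tch (S \ X) :=
  (KBp_end hX sdiff_subset disjoint_sdiff he hi).1.2

theorem KBp_bal {p : V → ZMod 2} (hT : G.HT T) (hX : X ⊆ T) (hW : W ⊆ X)
    (hp : ∀ e ∈ G.ins X, G.sw p e = 0) : ∃ O, G.par O = 0 ∧ G.Abs0 W O (G.cut W) ∅ :=
  hT.abs_bal (hW.trans hX) ⟨p, fun e he => hp e (ins_mono hW he)⟩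

/-- four terms as a sequence -/
def KBp_s {α : Type} (u v w z : α) : ℕ → α
  | 0 => u
  | 1 => v
  | 2 => w
  | _ => z

theorem KBp_all {P : ℕ → Prop} (h0 : P 0) (h1 : P 1) (h2 : P 2) : ∀ i ≤ 2, P i := by
  intro i hi
  interval_cases i <;> assumption

theorem KBp_three {A M B : Finset V} {OA OM OB FA FM FB : Finset E} {K : Set (Finset E)} {x y : E}
    {CA CM CB : (E → ZMod 3) → Rl → Prop} (hA : A ⊆ S) (hM : M ⊆ S) (hB : B ⊆ S)
    (d1 : Disjoint A M) (d2 : Disjoint A B) (d3 : Disjoint M B) (sA : G.St A OA {a, x})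
    (sM : G.St M OM {x, y}) (sB : G.St B OB {y, b}) (n1 : a ≠ x) (n2 : x ≠ y) (n3 : y ≠ b)
    (fA : FA ⊆ G.fr A (insert a (insert x ∅))) (fM : FM ⊆ G.fr M (insert x (insert y ∅)))
    (fB : FB ⊆ G.fr B (insert y (insert b ∅))) (pA : G.Pa A OA FA ∅ a x CA)
    (pM : G.Pa M OM FM K x y CM) (pB : G.Pa B OB FB ∅ y b CB) (ha : a ∈ G.cut S)
    (hb : b ∈ G.cut S) :
    G.St (A ∪ M ∪ B) (OA ∪ OM ∪ OB) {a, b} ∧
      G.par ((OA ∪ OM ∪ OB) ∩ G.ins (A ∪ M ∪ B)) =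
        G.par (OA ∩ G.ins A) + G.par (OM ∩ G.ins M) + G.par (OB ∩ G.ins B) + (G.n x + G.n y) ∧
      FA ∪ FM ∪ FB ⊆ G.fr (A ∪ M ∪ B) (insert a (insert b ∅)) ∧
      G.Pa (A ∪ M ∪ B) (OA ∪ OM ∪ OB) (FA ∪ FM ∪ FB) K a b fun ψ R => ∃ R1 R2 R3, CA ψ R1 ∧
        CM ψ R2 ∧ CB ψ R3 ∧ R = Rl.Z3cp (G.n y) (Rl.Z3cp (G.n x) R1 R2) R3 := by
  have hd : ∀ i ≤ 2, ∀ j ≤ 2, i ≠ j → Disjoint (KBp_s A M B B i) (KBp_s A M B B j) :=
    KBp_all (KBp_all (fun h => absurd rfl h) (fun _ => d1) fun _ => d2)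
      (KBp_all (fun _ => d1.symm) (fun h => absurd rfl h) fun _ => d3)
      (KBp_all (fun _ => d2.symm) (fun _ => d3.symm) fun h => absurd rfl h)
  have hS : ∀ i ≤ 2, G.St (KBp_s A M B B i) (KBp_s OA OM OB OB i)
      (insert (KBp_s a x y b i) (insert (KBp_s a x y b (i + 1)) ((fun _ => ∅) i))) :=
    KBp_all sA sM sB
  have hF : ∀ i ≤ 2, KBp_s FA FM FB FB i ⊆ G.fr (KBp_s A M B B i)
      (insert (KBp_s a x y b i) (insert (KBp_s a x y b (i + 1)) ∅)) := KBp_all fA fM fB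
  obtain ⟨r1, -, r2, r3⟩ := run_open (C := KBp_s CA CM CB CB) (K := KBp_s ∅ K ∅ ∅) (Y := S)
    (KBp_all hA hM hB) hd (empty_subset _) hS (KBp_all n1 n2 n3)
    (fun _ _ _ h => absurd h (notMem_empty _)) hF (KBp_all pA pM pB) ha hb
  have r4 := Run_fr hd hS hF (L' := insert a (insert b ∅)) (empty_subset _)
    (fun _ => mem_insert_self _ _) fun _ => mem_insert_of_mem (mem_insert_self _ _)
  rw [Run_bu_empty] at r1
  simp only [Run_bu_succ, Run_bu_zero, Run_ku_succ, Run_ku_zero, sum_range_succ, sum_range_zero,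
    zero_add, KBp_s, Set.empty_union, Set.union_empty] at r1 r2 r3 r4
  refine ⟨r1, r2, r4, r3.imp fun ψ R _ ⟨Rs, h, e⟩ => ⟨R, ⟨Rs 0, Rs 1, Rs 2, h 0 (by omega),
    h 1 (by omega), h 2 le_rfl, e⟩, fun _ _ h => h⟩⟩

theorem KBp_sum {F : Finset E} {g : E} (hg : g ∈ F) (k : E → ZMod 3) {ψ ψ' : E → ZMod 3}
    (h : ∀ e, e ≠ g → ψ' e = ψ e) :
    ∑ e ∈ F, k e * ψ' e = ∑ e ∈ F, k e * ψ e + k g * (ψ' g - ψ g) := by
  rw [← add_sum_erase F _ hg, ← add_sum_erase F _ hg,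
    sum_congr rfl fun e he => by rw [h e (ne_of_mem_erase he)]]
  ring

omit [Fintype V] in
theorem KBp_kap {U1 U2 : Finset V} {g : E} {p : V → ZMod 2} (hd : Disjoint U1 U2)
    (h1 : g ∈ G.cut U1) (h2 : g ∈ G.cut U2) (hs : G.sw p g = 0) :
    (G.kap p U2 g : ZMod 3) = -G.kap p U1 g ∧ (G.kap p U1 g : ZMod 3) ≠ 0 := by
  have e : G.n g = p (G.s g) + p (G.t g) := z2_eq_of_add (by rw [← add_assoc]; exact hs)
  have k1 := (mem_cut.1 h1).2
  have k2 := (mem_cut.1 h2).2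
  have d1 : G.s g ∈ U1 → G.s g ∉ U2 := fun h => disjoint_left.1 hd h
  have d2 : G.t g ∈ U1 → G.t g ∉ U2 := fun h => disjoint_left.1 hd h
  unfold kap iv
  rw [e]
  generalize p (G.s g) = u
  generalize p (G.t g) = v
  by_cases a1 : G.s g ∈ U1
  · rw [if_pos a1, if_neg (d1 a1), if_pos (by tauto), if_neg (by tauto)]
    revert u v
    decide
  · have a2 : G.t g ∈ U1 := by tauto
    rw [if_neg (d2 a2), if_pos a2, if_neg a1, if_pos (by tauto)]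
    revert u v
    decide

theorem KBp_z3 : ∀ u v w : ZMod 3, u ≠ 0 → v ≠ 0 → w ≠ 0 → 4 * (u * v * w) ≠ 0 := by decide

theorem KBp_chi : ∀ u v w s t r : ZMod 2, v + w + (s + t) + r = 1 →
    (chi (u + v + s + r + t) * chi w : ZMod 3) = -chi u ∧ (chi u : ZMod 3) ≠ 0 := by decide

theorem KBp_hd {X0 U1 U2 : Finset V} {P1 P2 Om : Finset E} {x y g : E} {p : V → ZMod 2}
    {K : Set (Finset E)} {C : Rl → Prop} (hc : G.Cub) (hT : G.HT T) (hS : S ⊆ T)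
    (hq : G.Q4 S a b c d) (hsp : G.Sp S a b X0) (hx : G.Q4 X0 a b x y)
    (hp : ∀ e ∈ G.ins X0, G.sw p e = 0) (hm : G.Pas0 (S \ X0) Om x y ∅ K C) (u1 : U1 ⊆ X0)
    (u2 : U2 ⊆ X0) (dj : Disjoint U1 U2) (p1 : G.Pp U1 P1 (G.ie X0 a) (G.ie X0 x))
    (p2 : G.Pp U2 P2 (G.ie X0 b) (G.ie X0 y)) (g1 : g ∈ G.cut U1) (g2 : g ∈ G.cut U2) : ∃ O,
      G.par (O ∩ G.ins S) = p (G.ie X0 a) + p (G.ie X0 b) + (p (G.ie X0 x) + p (G.ie X0 y)) +
        (G.n x + G.n y) + G.par (Om ∩ G.ins (S \ X0)) ∧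
      (∀ σ, (∀ R, C R → R.P σ) → G.Pas0 S O a b ∅ K (Rl.P (p (G.ie X0 a) + p (G.ie X0 b) +
        (p (G.ie X0 x) + p (G.ie X0 y)) + (G.n x + G.n y) + σ))) ∧
      ((∀ R, C R → R.PX) → G.Pas0 S O a b ∅ K Rl.PX) ∧
      ∀ σ, (∀ R, C R → R.P σ) → p (G.ie X0 x) + p (G.ie X0 y) + (G.n x + G.n y) + σ = 1 →
        G.Pas0 S O a b ∅ K Rl.Gd := by
  obtain ⟨ha, hb, hc', hd'⟩ := hq.mem
  obtain ⟨xa, xb, xx, xy⟩ := hx.mem
  obtain ⟨hss, -, ia, ib, ic, id', -⟩ := hsp.str hc hT hS hq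
  obtain ⟨hq', -⟩ := hsp.link hc hT hS hq hx
  have hX := hss.subset
  obtain ⟨a1, a2⟩ := Spl_cut_of u1 xa p1.2.2.2.1
  obtain ⟨x1, x2⟩ := Spl_cut_of u1 xx p1.2.2.2.2
  obtain ⟨b1, b2⟩ := Spl_cut_of u2 xb p2.2.2.2.1
  obtain ⟨y1, y2⟩ := Spl_cut_of u2 xy p2.2.2.2.2
  have q1 : ∀ e ∈ P1, G.sw p e = 0 := fun e he => hp e (ins_mono u1 (p1.1 he))
  have q2 : ∀ e ∈ P2, G.sw p e = 0 := fun e he => hp e (ins_mono u2 (p2.1 he))
  have m1 : G.ie S a ∈ U1 := ia ▸ p1.2.2.2.1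
  have m2 : G.ie S b ∈ U2 := ib ▸ p2.2.2.2.1
  rw [← a2, ← x2] at p1
  rw [← b2, ← y2] at p2
  rw [← a2, ← x2, ← b2, ← y2]
  have ax : a ≠ x := hx.2.2.1
  have yb : y ≠ b := hx.2.2.2.2.2.1.symm
  have s1 := p1.st a1 x1 ax
  have s2 := p2.symm.st y1 b1 yb
  have three := fun (CM : (E → ZMod 3) → Rl → Prop)
      (pM : G.Pa (S \ X0) Om (G.fr (S \ X0) (insert x (insert y ∅))) K x y CM) =>
    KBp_three (u1.trans hX) sdiff_subset (u2.trans hX) (disjoint_sdiff.mono_left u1) dj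
      (disjoint_sdiff.mono_left u2).symm s1.1 hm.2.1 s2.1 ax hm.1 yb (Pure_fr p1.1 a1 x1)
      Subset.rfl (Pure_fr p2.1 y1 b1) (pure_pc p1 a1 x1 ax q1) pM (pure_pc p2.symm y1 b1 yb q2) ha hb
  obtain ⟨t1, t2, t3, t4⟩ := three _ hm.2.2
  have hW : U1 ∪ S \ X0 ∪ U2 ⊆ S := union_subset (union_subset (u1.trans hX) sdiff_subset) (u2.trans hX)
  obtain ⟨O', o1, o2⟩ := KBp_bal (W := S \ (U1 ∪ S \ X0 ∪ U2)) hT (hX.trans hS) (fun v hv => by
    simp only [mem_sdiff, mem_union] at hv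
    (clear * - hv s1 s2; tauto)) hp
  have fin := fun (C0 : Rl → Prop) (h : G.Pa _ _ _ K a b fun _ => C0) =>
    finp (K0 := K) ⟨hq.2.1, t1, h⟩ hW ha hb (empty_subset _) o2 a (fun e he h => by
      refine absurd h (KBp_out hW he ?_)
      rcases (Spl_mem hq e).1 he with rfl | rfl | rfl | rfl
      · exact mem_union_left _ (mem_union_left _ m1)
      · exact mem_union_right _ m2
      · exact mem_union_left _ (mem_union_right _ (ic ▸ Spl_ie hq'.mem.2.2.1))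
      · exact mem_union_left _ (mem_union_right _ (id' ▸ Spl_ie hq'.mem.2.2.2)))
      fun t ht => Or.inl ⟨t, Or.inl ht, Subset.rfl⟩
  have cls := fun (C0 : Rl → Prop) (h : ∀ R1 R2 R3 : Rl, R1.P (p (G.ie U1 a) + p (G.ie U1 x)) →
      C R2 → R3.P (p (G.ie U2 y) + p (G.ie U2 b)) →
      C0 (Rl.Z3cp (G.n y) (Rl.Z3cp (G.n x) R1 R2) R3)) =>
    fin C0 ((t4.imp fun ψ R _ ⟨R1, R2, R3, h1, h2, h3, e⟩ =>
      ⟨R, e ▸ h R1 R2 R3 ⟨_, h1⟩ h2 ⟨_, h3⟩, fun _ _ h => h⟩).mono t3 fr_sub_tch)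
  refine ⟨_, ?_, fun σ h => (cls _ fun R1 R2 R3 h1 h2 h3 => ?_).1,
    fun h => (cls _ fun R1 R2 R3 h1 h2 h3 => ?_).1, fun σ h hσ => (fin _ ?_).1⟩
  · rw [(cls (fun _ => True) fun _ _ _ _ _ _ => trivial).2, o1, t2, s1.2, s2.2, p1.par q1, p2.par q2]
    ring
  · have := Rl.Z3_p (G.n y) (Rl.Z3_p (G.n x) h1 (h _ h2)) h3
    rwa [show p (G.ie U1 a) + p (G.ie U1 x) + G.n x + σ + G.n y + (p (G.ie U2 y) + p (G.ie U2 b)) =
      p (G.ie U1 a) + p (G.ie U2 b) + (p (G.ie U1 x) + p (G.ie U2 y)) + (G.n x + G.n y) + σ by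
        ring] at this
  · rcases h _ h2 with ⟨σ, h⟩ | h
    · exact Or.inl ⟨_, Rl.Z3_p _ (Rl.Z3_p _ h1 h) h3⟩
    · exact Or.inr (Rl.Z3_xip _ (Rl.Z3_pxi _ h1 h) h3)
  · obtain ⟨cm, l1, l2⟩ := Pa.local (σ := σ)
      (hm.2.2.imp fun _ R _ hR => ⟨R, h R hR, fun _ _ h => h⟩)
      (cut_sub_tch hq'.mem.1) (cut_sub_tch hq'.mem.2.1)
    have gi : g ∈ G.ins X0 := ins_mono (union_subset u1 u2) (ie_link dj g1 g2).2
    have gm : g ∉ G.tch (S \ X0) := fun h => by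
      obtain ⟨-, h1, h2⟩ := mem_ins.1 gi
      rcases (mem_tch.1 h).2 with h | h
      · exact (mem_sdiff.1 h).2 h1
      · exact (mem_sdiff.1 h).2 h2
    have gn : ∀ e ∈ G.cut X0, g ≠ e := fun e he h => not_ins_of_cut he (h ▸ gi)
    have gA : g ∉ insert a (insert x P1) := by
      simp only [mem_insert, not_or]
      exact ⟨gn _ xa, gn _ xx, fun h => not_ins_of_cut g1 (p1.1 h)⟩
    have gB : g ∉ insert y (insert b P2) := by
      simp only [mem_insert, not_or]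
      exact ⟨gn _ xy, gn _ xb, fun h => not_ins_of_cut g2 (p2.1 h)⟩
    refine (Pa.free ((three _ l1).2.2.2.imp fun ψ R _ ⟨R1, R2, R3, h1, h2, h3, e⟩ =>
      ⟨R, e ▸ Rl.Z3_pc (G.n y) (Rl.Z3_pc (G.n x) h1 h2) h3, fun _ _ h => h⟩) t3 fr_sub_tch (g := g)
      (mem_union_left _ (ins_mono (union_subset_union_left subset_union_left) (ie_link dj g1 g2).2))
      ?_ ?_ fun ψ ψ' e1 e2 e3 => ?_).imp fun _ R _ hR => ⟨R, hR.gd, fun _ _ h => h⟩
    · rw [mem_union, mem_union, not_or, not_or]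
      exact ⟨⟨gA, fun h => gm (fr_sub_tch h)⟩, gB⟩
    · rw [mem_union, mem_union, not_or, not_or]
      exact ⟨⟨gA, fun h => gm (hm.2.1.1 h)⟩, gB⟩
    · obtain ⟨k1, k2⟩ := KBp_kap dj g1 g2 (hp g gi)
      obtain ⟨k3, k4⟩ := KBp_chi (p (G.ie U1 a)) _ _ _ _ _ hσ
      have gA := ins_sub_A gi
      rw [KBp_sum (mem_erase.2 ⟨gn _ xx, mem_erase.2 ⟨gn _ xa, gA⟩⟩) _ e1,
        KBp_sum (mem_erase.2 ⟨gn _ xb, mem_erase.2 ⟨gn _ xy, gA⟩⟩) _ e1,
        l2 ψ ψ' fun e he => e1 e fun h => gm (h ▸ he), k1, e3]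
      intro h
      exact KBp_z3 _ _ _ k4 k2 e2 (by
        linear_combination -h + 2 * G.kap p U1 g * ψ g * k3)

/-- HINT: `bp_path`, `pure_p`, `HT.abs_bal` on the rest, `finp` (only `d` touches the rest),
`Pp.st`, `Pp.par`. -/
theorem bp (hc : G.Cub) (hT : G.HT T) (hS : S ⊆ T) : G.BP S := by
  intro a b c d hq hd p hp
  obtain ⟨U, P, hU, hP, hcU⟩ := bp_path hc hT hS hq hd
  obtain ⟨ha, hb, -⟩ := hq.mem
  have m1 := hP.2.2.2.1
  have m2 := hP.2.2.2.2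
  obtain ⟨a1, a2⟩ := Spl_cut_of hU ha m1
  obtain ⟨b1, b2⟩ := Spl_cut_of hU hb m2
  have q : ∀ e ∈ P, G.sw p e = 0 := fun e he => hp e (ins_mono hU (hP.1 he))
  rw [← a2, ← b2] at hP ⊢
  obtain ⟨O', o1, o2⟩ := KBp_bal (W := S \ U) hT hS sdiff_subset hp
  obtain ⟨r1, r2⟩ := finp (K0 := ∅) (pure_p hP a1 b1 hq.2.1 q) hU ha hb (empty_subset _) o2 d
    (fun e he h => by
      rcases (Spl_mem hq e).1 he with rfl | rfl | rfl | rfl
      · exact absurd h (KBp_out hU he m1)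
      · exact absurd h (KBp_out hU he m2)
      · exact absurd h (KBp_out hU he hcU)
      · exact Or.inr rfl) fun _ h => h.elim
  exact ⟨_, by rw [r2, o1, (hP.st a1 b1 hq.2.1).2, hP.par q, zero_add], r1⟩

/-- HINT: `link_chord` on `X0` gives `U1, U2` and a chord `g`; if the link is swapped use
`Pas0.symm` on the middle pass.  Three regions `U1, S \ X0, U2` with edges `a, x, y, b`;
`run_open` with `pure_pc` on the paths.  The rest `X0 \ U1 \ U2` is balanced and touches no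
leaving edge of `S` (`HT.abs_bal`, `finp`).  Classes `P`, `PX`: `Rl.ch_p`, `Rl.ch_px`.  Class
`Gd`: `Pa.local` for the middle pass (its constant does not see `g`), `Rl.ch_pc`; the chord is
consistent for `p`, so under the sign condition its two contributions add up; `Pa.free`,
`Rl.U.gd`.  The even set is the same in the three clauses. -/
theorem hdp (hc : G.Cub) (hT : G.HT T) (hS : S ⊆ T) : G.HDp S := by
  intro h4 a b X0 x y hsp hx p hp Om K C hm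
  obtain ⟨c, d, hq⟩ := exists_q4 h4 (Spl_ab hsp).1.2 (Spl_ab hsp).2.2 hx.2.1
  obtain ⟨hss, -, -, -, -, -, hv, -⟩ := hsp.str hc hT hS hq
  obtain ⟨U1, U2, P1, P2, x', y', g, hxy, u1, u2, dj, p1, p2, g1, g2⟩ :=
    link_chord hc hT (hss.subset.trans hS) hx hv
  rcases hxy with ⟨rfl, rfl⟩ | ⟨rfl, rfl⟩
  · exact KBp_hd hc hT hS hq hsp hx hp hm u1 u2 dj p1 p2 g1 g2
  · obtain ⟨O, h1, h2, h3, h4⟩ := KBp_hd hc hT hS hq hsp hx.swap2 hp
      (hm.symm (C' := fun R => C fun u v => R v u) fun _ h => h) u1 u2 dj p1 p2 g1 g2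
    rw [add_comm (p (G.ie X0 x')), add_comm (G.n x')] at h1 h2 h4
    exact ⟨O, h1, fun σ h => h2 σ fun R hR => (h _ hR).swap, fun h => h3 fun R hR => (h _ hR).swap,
      fun σ h => h4 σ fun R hR => (h _ hR).swap⟩

omit [Fintype V] in
theorem KBp_ext {U : Finset V} {P : Finset E} {u v w : V} {e : E} (h : G.Pp U P u v) (he : e ∈ G.A)
    (hj : G.Je e v w) (hw : w ∉ U) : G.Pp (insert w U) (insert e P) u w := by
  obtain ⟨h1, h2, h3, h4, h5⟩ := h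
  have hn : e ∉ P := fun h => by
    obtain ⟨-, k1, k2⟩ := mem_ins.1 (h1 h)
    rcases hj with ⟨-, k⟩ | ⟨k, -⟩
    · exact hw (k ▸ k2)
    · exact hw (k ▸ k1)
  refine ⟨insert_subset (Cut_je_ins he hj (mem_insert_of_mem h5) (mem_insert_self _ _))
    (h1.trans (ins_mono (subset_insert _ _))), cn_of_base (a := v) fun z hz => ?_, ?_,
    mem_insert_of_mem h4, mem_insert_self _ _⟩
  · rcases mem_insert.1 hz with rfl | hz
    · exact Relation.ReflTransGen.single ⟨e, mem_insert_self _ _, hj⟩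
    · exact (h2 v h5 z hz).mono (subset_insert _ _)
  · rw [insert_eq, union_comm]
    exact h3.union (od_edge hj) (disjoint_singleton_right.2 hn)

theorem KBp_z2 : ∀ u v w s t r m : ZMod 2, m + s + t = 0 → u + v + (w + r) + (s + t) = 1 →
    m + (u + w) + (v + r) = 1 := by decide

theorem KBp_db {X0 U1 U2 : Finset V} {P1 P2 : Finset E} {x y g : E} {p : V → ZMod 2}
    (hc : G.Cub) (hT : G.HT T) (hS : S ⊆ T) (hu : G.US S) (hq : G.Q4 S a b c d)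
    (hsp : G.Sp S a b X0) (hx : G.Q4 X0 a b x y) (hr : S \ X0 = {G.ie S c, G.ie S d})
    (hv : G.Dv S c d) (hj : G.Adj G.A (G.ie S c) (G.ie S d)) (hp : ∀ e ∈ G.ins X0, G.sw p e = 0)
    (u1 : U1 ⊆ X0) (u2 : U2 ⊆ X0) (dj : Disjoint U1 U2)
    (p1 : G.Pp U1 P1 (G.ie X0 a) (G.ie X0 x)) (p2 : G.Pp U2 P2 (G.ie X0 b) (G.ie X0 y))
    (g1 : g ∈ G.cut U1) (g2 : g ∈ G.cut U2) (ex : G.ie (S \ X0) x = G.ie S c)
    (ey : G.ie (S \ X0) y = G.ie S d) : ∃ O,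
      G.par (O ∩ G.ins S) + G.par (G.ins (S \ X0)) = p (G.ie S a) + p (G.ie S b) + 1 ∧
      G.Dbl S O a b c d := by
  obtain ⟨ha, hb, hc', hd'⟩ := hq.mem
  obtain ⟨xa, xb, xx, xy⟩ := hx.mem
  obtain ⟨hss, -, ia, ib, -⟩ := hsp.str hc hT hS hq
  obtain ⟨hq', -, -, -, -, -, hcr⟩ := hsp.link hc hT hS hq hx
  have hX := hss.subset
  have mc := Spl_ie hc'
  have md := Spl_ie hd'
  have nc : G.ie S c ∉ X0 := (mem_sdiff.1 (hr ▸ mem_insert_self _ _ : _ ∈ S \ X0)).2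
  have nd' : G.ie S d ∉ X0 :=
    (mem_sdiff.1 (hr ▸ mem_insert_of_mem (mem_singleton_self _) : _ ∈ S \ X0)).2
  obtain ⟨-, ⟨q, hq0⟩, m, hm, jm⟩ := hT.rung' hc (hS mc) (hS md) hv hj
  rw [← hr] at hq0 hm
  have mm : m ∈ G.ins (S \ X0) := hm ▸ mem_singleton_self m
  have jx : G.Je x (G.ie X0 x) (G.ie S c) := by
    rw [← ex, (ie_link disjoint_sdiff xx hq'.mem.1).1]
    exact je_ie_oe
  have jy : G.Je y (G.ie X0 y) (G.ie S d) := by
    rw [← ey, (ie_link disjoint_sdiff xy hq'.mem.2.1).1]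
    exact je_ie_oe
  obtain ⟨p', e0, e1, e2⟩ : ∃ p' : V → ZMod 2, (∀ v ∈ X0, p' v = p v) ∧
      p' (G.ie S c) = p (G.ie X0 x) + G.n x ∧ p' (G.ie S d) = p (G.ie X0 y) + G.n y := by
    refine ⟨fun v => if v = G.ie S c then p (G.ie X0 x) + G.n x else
      if v = G.ie S d then p (G.ie X0 y) + G.n y else p v, fun v h => ?_, if_pos rfl, ?_⟩
    · exact (if_neg (ne_of_mem_of_not_mem h nc)).trans (if_neg (ne_of_mem_of_not_mem h nd'))
    · exact (if_neg (Ne.symm hv)).trans (if_pos rfl)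
  have hp' : ∀ e ∈ G.ins X0, G.sw p' e = 0 := fun e he => by
    rw [← hp e he, sw, sw, e0 _ (mem_ins.1 he).2.1, e0 _ (mem_ins.1 he).2.2]
  have z : ∀ u v : ZMod 2, u + v + (v + u) = 0 := by decide
  have sx : G.sw p' x = 0 := by rw [Cut_sw jx, e1, e0 _ (Spl_ie xx), z]
  have sy : G.sw p' y = 0 := by rw [Cut_sw jy, e2, e0 _ (Spl_ie xy), z]
  have sm : G.n m + p' (G.ie S c) + p' (G.ie S d) = 1 := by
    have k1 := sgn hX hcr hu.2 hp hq0
    have k2 := hq0 m mm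
    rw [Cut_sw jm] at k2
    rw [ex, ey] at k1
    rw [e1, e2]
    exact KBp_z2 _ _ _ _ _ _ _ k2 k1
  rw [ia] at p1
  rw [ib] at p2
  have r1 := KBp_ext p1 (Pure_cutA xx) jx fun h => nc (u1 h)
  have r2 := KBp_ext p2 (Pure_cutA xy) jy fun h => nd' (u2 h)
  have v1 := insert_subset mc (u1.trans hX)
  have v2 := insert_subset md (u2.trans hX)
  have dj' : Disjoint (insert (G.ie S c) U1) (insert (G.ie S d) U2) := by
    rw [disjoint_insert_left, disjoint_insert_right, mem_insert, not_or]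
    exact ⟨⟨hv, fun h => nc (u2 h)⟩, fun h => nd' (u1 h), dj⟩
  have ka := KBp_end v1 v2 dj' ha r1.2.2.2.1
  have kc := KBp_end v1 v2 dj' hc' r1.2.2.2.2
  have kb := KBp_end v2 v1 dj'.symm hb r2.2.2.2.1
  have kd := KBp_end v2 v1 dj'.symm hd' r2.2.2.2.2
  have q1 : ∀ e ∈ insert x P1, G.sw p' e = 0 := fun e he =>
    (mem_insert.1 he).elim (fun h => h ▸ sx) fun h => hp' e (ins_mono u1 (p1.1 h))
  have q2 : ∀ e ∈ insert y P2, G.sw p' e = 0 := fun e he =>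
    (mem_insert.1 he).elim (fun h => h ▸ sy) fun h => hp' e (ins_mono u2 (p2.1 h))
  have mA := ins_sub_A mm
  obtain ⟨t1, t2⟩ := pure_dbl dj' (by rw [ka.2, kc.2]; exact r1) (by rw [kb.2, kd.2]; exact r2)
    ka.1 kc.1 kb.1 kd.1 hq.2.2.1 hq.2.2.2.2.2.1
    (fun e he => (mem_union.1 he).elim (q1 e) (q2 e)) (g1 := g) (g2 := m)
    (Ab_link dj' (tch_mono (subset_insert _ _) (cut_sub_tch g1))
      (tch_mono (subset_insert _ _) (cut_sub_tch g2)))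
    (Ab_link dj' (Cut_tch mA (jm.elim (fun h => Or.inl h.1) fun h => Or.inr h.2) (mem_insert_self _ _))
      (Cut_tch mA (jm.elim (fun h => Or.inr h.2) fun h => Or.inl h.1) (mem_insert_self _ _)))
    (by
      rw [hp' g (ins_mono (union_subset u1 u2) (ie_link dj g1 g2).2), Cut_sw jm, sm]
      exact zero_ne_one)
  have hW := union_subset v1 v2
  obtain ⟨O', o1, o2⟩ := KBp_bal (W := S \ (insert (G.ie S c) U1 ∪ insert (G.ie S d) U2)) hT
    (hX.trans hS) (fun v hv => by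
      by_contra h
      have : v ∈ S \ X0 := mem_sdiff.2 ⟨(mem_sdiff.1 hv).1, h⟩
      rw [hr] at this
      simp only [mem_sdiff, mem_union, mem_insert, mem_singleton] at hv this
      (clear * - hv ka kb kc kd this; grind)) hp
  have ko : ∀ e ∈ G.cut S, e ∉ G.tch (S \ (insert (G.ie S c) U1 ∪ insert (G.ie S d) U2)) :=
    fun e he => KBp_out hW he (by
      rcases (Spl_mem hq e).1 he with rfl | rfl | rfl | rfl
      · exact mem_union_left _ r1.2.2.2.1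
      · exact mem_union_right _ r2.2.2.2.1
      · exact mem_union_left _ r1.2.2.2.2
      · exact mem_union_right _ r2.2.2.2.2)
  obtain ⟨f1, f2⟩ := fing (K0 := ∅) t1 hW hq.1.ge (insert_subset ha (singleton_subset_iff.2 hb))
    ⟨Pure_cutA ha, ko a ha⟩ ⟨Pure_cutA hb, ko b hb⟩ o2 a (fun e he h => absurd h (ko e he))
    fun _ h => h.elim
  refine ⟨_, ?_, f1⟩
  rw [f2, o1, t2, par_union (disjoint_left.2 fun e h1 h2 => disjoint_left.1 dj'
    (mem_ins.1 (r1.1 h1)).2.1 (mem_ins.1 (r2.1 h2)).2.1), r1.par q1, r2.par q2, hm, par,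
    sum_singleton, e0 _ (u1 p1.2.2.2.1), e0 _ (u2 p2.2.2.2.1), ← sm]
  ring

/-- HINT: `Rg.sp`: `X0` is a split and the rest is a rung `{tc, td}` with edge `m`.
`link_chord` on `X0`; extend both paths by the link edges to the rung vertices and extend `p` so
that the link edges are consistent; then `m` is inconsistent (`sgn`), the chord is consistent;
`pure_dbl` (the statement `Dbl` is symmetric in `c, d`); the rest is balanced without dead edge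
(`HT.abs_bal`, `fing`). -/
theorem dbp (hc : G.Cub) (hT : G.HT T) (hS : S ⊆ T) : G.DBp S := by
  intro hu a b c d X0 hq hne hr p hp
  obtain ⟨hsp, -⟩ := hr.sp hc hT hS hq (lt_of_lt_of_le (by norm_num) (hT.us_card hc hS hu)) hne
  obtain ⟨-, h1, h2, h3⟩ := hr.resolve_left hne
  obtain ⟨hss, -, -, -, -, -, hv, -, -, -, -, -, x, y, hx, -⟩ := hsp.str hc hT hS hq
  obtain ⟨U1, U2, P1, P2, x', y', g, hxy, u1, u2, dj, p1, p2, g1, g2⟩ :=
    link_chord hc hT (hss.subset.trans hS) hx hv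
  have hx' : G.Q4 X0 a b x' y' := by
    rcases hxy with ⟨rfl, rfl⟩ | ⟨rfl, rfl⟩
    · exact hx
    · exact hx.swap2
  obtain ⟨hq', -, -, -, hv', -⟩ := hsp.link hc hT hS hq hx'
  have m1 := Spl_ie hq'.mem.1
  have m2 := Spl_ie hq'.mem.2.1
  have k : ∀ v ∈ S \ X0, v = G.ie S c ∨ v = G.ie S d := fun v h => by simpa [h1] using h
  rcases k _ m1 with e1 | e1 <;> rcases k _ m2 with e2 | e2
  · exact absurd (e1.trans e2.symm) hv'
  · exact KBp_db hc hT hS hu hq hsp hx' h1 h2 h3 hp u1 u2 dj p1 p2 g1 g2 e1 e2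
  · obtain ⟨O, o1, o2⟩ := KBp_db hc hT hS hu hq.swap2 hsp hx' (h1.trans (pair_comm _ _)) (Ne.symm h2)
      h3.symm hp u1 u2 dj p1 p2 g1 g2 e1 e2
    refine ⟨O, o1, ?_⟩
    rwa [Dbl, pair_comm d] at o2
  · exact absurd (e1.trans e2.symm) hv'

end SG

end Pool.Agent.Work.MP_8c679b_co
end
end

-- merged part: Pool.Agent.Work.MP_8c679b_co.Six.PCp
section
-- merged part: Pool.Agent.Work.MP_8c679b_co.Six.PCtx
section
/-!
Completing a run around a hole with both parities.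
-/

set_option autoImplicit false

namespace Pool.Agent.Work.MP_8c679b_co

open Finset

namespace SG

variable {V E : Type} [Fintype V] [DecidableEq V] [DecidableEq E] {G : SG V E}
  {T W w XR X0 Xw : Finset V} {J0 L OR : Finset E} {Bs Ds : Finset (Finset V)}
  {a b c d a0 b0 : E} {KR : Set (Finset E)} {C0 : Rl → Prop} {δ : ZMod 2}

variable (G) in
/-- the data of a run around the box `w` inside the region `W` -/
structure Ctx (W : Finset V) (J0 L : Finset E) (Bs Ds : Finset (Finset V)) (w : Finset V)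
    (a b c d : E) (XR : Finset V) (OR : Finset E) (KR : Set (Finset E)) (a0 b0 : E)
    (C0 : Rl → Prop) (δ : ZMod 2) : Prop where
  hJ : J0 ⊆ G.cut W
  hL : L ⊆ G.cut W
  bx : G.Bx G.AU W J0 Bs
  vd : G.VD W J0 Ds
  lv : ∀ ρ ∈ Ds, ∀ e ∈ G.cut ρ, e ∈ G.cut W → e ∈ L
  wb : w ∈ Bs
  q4 : G.Q4 w a b c d
  dj : Disjoint w XR
  bs : G.BS W Bs Ds XR KR
  je : ∀ e ∈ J0, e ∈ G.tch XR ∨ e = a ∨ e = b
  ea : a0 ∈ J0 ∨ (a0 = a ∧ a ∈ G.tch XR)
  eb : b0 ∈ J0 ∨ (b0 = a ∧ a ∈ G.tch XR)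
  ho : G.Hole w XR OR J0 L KR a b a0 b0 C0 δ
  dd : ∃ d0, ∀ e ∈ G.cut W, e ∉ G.tch XR → e ∈ L ∨ e = d0

omit [Fintype V] in
theorem PCtx_out {X : Finset V} {e : E} (hX : X ⊆ W) (h1 : e ∈ G.cut W) (h2 : e ∈ G.tch X) :
    e ∉ G.tch (W \ X) := by
  have k1 := @hX (G.s e)
  have k2 := @hX (G.t e)
  simp only [mem_cut, mem_tch, mem_sdiff] at h1 h2 ⊢
  tauto

omit [Fintype V] in
theorem PCtx_in {X : Finset V} {e : E} (h : e ∈ G.ins X) : e ∉ G.tch (W \ X) := by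
  simp only [mem_ins, mem_tch, mem_sdiff] at h ⊢
  tauto

omit [Fintype V] in
theorem PCtx_no {X : Finset V} {e : E} (h : e ∈ G.tch X) : e ∉ G.ins (W \ X) := by
  simp only [mem_ins, mem_tch, mem_sdiff] at h ⊢
  tauto

omit [Fintype V] in
theorem PCtx_cut {X : Finset V} {e : E} (h : e ∈ G.cut (W \ X)) (h' : e ∉ G.tch X) :
    e ∈ G.cut W := by
  simp only [mem_cut, mem_tch, mem_sdiff] at h h' ⊢
  tauto

omit [Fintype V] in
theorem PCtx_cut2 {X Y : Finset V} {e : E} (h : e ∈ G.cut X) (h' : e ∉ G.tch Y) :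
    e ∈ G.cut (X ∪ Y) := by
  simp only [mem_cut, mem_tch, mem_union] at h h' ⊢
  tauto

omit [Fintype V] in
theorem PCtx_cut3 {X Y Z : Finset V} {e : E} (h : e ∈ G.ins Y) (h' : e ∈ G.cut Z)
    (k : ∀ v ∈ Y \ Z, v ∉ X) : e ∉ G.ins X := by
  have k1 := k (G.s e)
  have k2 := k (G.t e)
  simp only [mem_cut, mem_ins, mem_sdiff] at h h' k1 k2 ⊢
  tauto

theorem PCtx_z1 : ∀ δ ε n : ZMod 2, δ + (ε + δ + n) + n = ε := by decide

theorem PCtx_z2 : ∀ δ ε n : ZMod 2, δ + n + (ε + δ + n) = ε := by decide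

theorem PCtx_z3 : ∀ n3 x p q r n1 : ZMod 2, 1 + r = p + q → n1 = n3 + 1 →
    n3 + (x + p + q) = x + r + n1 := by decide

omit [Fintype V] in
theorem PCtx_set1 {X0 w XR : Finset V} (h : X0 ⊆ w) : XR ∪ X0 ∪ w \ X0 = XR ∪ w := by
  rw [union_assoc, union_sdiff_of_subset h]

omit [Fintype V] in
theorem PCtx_set2 {X Z ρ : Finset V} (h : ρ ⊆ Z) : W \ (Z \ ρ ∪ (X ∪ ρ)) = (W \ X) \ Z := by
  ext v
  have := @h v
  simp only [mem_sdiff, mem_union]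
  tauto

theorem PCtx_par {X : Finset V} {O J : Finset E} (h : G.St X O J) :
    G.par O = G.par (O ∩ G.ins X) + G.par J := by
  rw [← h.2.2, ← par_union, ← inter_union_distrib_left, inter_eq_left.2]
  · exact fun e he => mem_union.2 (mem_tch_iff.1 (h.1 he))
  · exact disjoint_left.2 fun e h1 h2 => not_ins_of_cut (mem_inter.1 h2).2 (mem_inter.1 h1).2

omit [Fintype V] in
theorem PCtx_other {O : Finset E} {u : V} {a : E} (h0 : G.dg O u = 0) (ha : a ∈ O)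
    (hat : G.At a u) (hl : G.s a ≠ G.t a) : ∃ f ∈ O, f ≠ a ∧ G.At f u := by
  by_contra k
  have k' : ∀ f ∈ O, f ≠ a → ¬ G.At f u := fun f h1 h2 h3 => k ⟨f, h1, h2, h3⟩
  have h1 : G.dg O u = iv (G.s a = u) + iv (G.t a = u) := by
    refine sum_eq_single_of_mem a ha fun f h1 h2 => ?_
    have h3 := k' f h1 h2
    have h4 : G.s f ≠ u := fun k1 => h3 (Or.inl k1)
    have h5 : G.t f ≠ u := fun k1 => h3 (Or.inr k1)
    simp [iv, h4, h5]
  rw [h0] at h1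
  rcases hat with h | h
  · have h2 : G.t a ≠ u := fun k1 => hl (h.trans k1.symm)
    simp [iv, h, h2] at h1
  · have h2 : G.s a ≠ u := fun k1 => hl (k1.trans h.symm)
    simp [iv, h, h2] at h1

/-- a rung two of whose edges leave the region and which meets an even set is ready -/
theorem PCtx_rung (hc : G.Cub) (hT : G.HT T) (hW : W ⊆ T) {ρ : Finset V} (hρ : ρ ⊆ W) {x y : E}
    (hq : G.Q4 ρ x y c d) (h2 : ρ.card = 2) (hxy : G.Dv ρ x y) (hcd : G.Dv ρ c d)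
    (hx : x ∉ G.ins W) (hy : y ∉ G.ins W) {C : Finset E} (hC : C ⊆ G.ins W) (hE : G.Ev C)
    (hm : ¬ Disjoint ρ (G.vs C)) : G.Rdy W ∅ ρ ∧ G.tg W ρ = {c, d} := by
  obtain ⟨u, v, m, huv, rfl, hi, hj⟩ := hT.rung hc (hρ.trans hW) hq.card h2.le
  obtain ⟨x1, y1, c1, d1⟩ := hq.mem
  have hmi : m ∈ G.ins {u, v} := hi ▸ mem_singleton_self m
  have h1 : ∀ z ∈ ({u, v} : Finset V), ∀ f ∈ C, G.At f z → f = m ∨ f = c ∨ f = d :=
    fun z hz f hf hat => by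
      rcases mem_tch_iff.1 (Cut_tch (ins_sub_A (hC hf)) hat hz) with k | k
      · rw [hi] at k
        exact Or.inl (mem_singleton.1 k)
      · rcases (Spl_mem hq f).1 k with rfl | rfl | k
        exacts [absurd (hC hf) hx, absurd (hC hf) hy, Or.inr k]
  have h3 : ∀ z ∈ ({u, v} : Finset V), G.At c z → ¬ G.At d z := fun z hz k1 k2 =>
    hcd ((eq_ie c1 hz k1).symm.trans (eq_ie d1 hz k2))
  have h4 : ∀ f ∈ C, ∀ z, G.At f z → ∃ g ∈ C, g ≠ f ∧ G.At g z := fun f hf z hat =>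
    PCtx_other (hE z) hf hat (hT.noloop hc (tch_mono hW (ins_sub_tch (hC hf))))
  have h5 : m ∈ C := by
    obtain ⟨z, hz, hz'⟩ := not_disjoint_iff.1 hm
    obtain ⟨f, hf, hat⟩ := mem_vs.1 hz'
    obtain ⟨g, hg, hne, hat'⟩ := h4 f hf z hat
    rcases h1 z hz f hf hat with rfl | rfl | rfl
    · exact hf
    · rcases h1 z hz g hg hat' with rfl | rfl | rfl
      exacts [hg, absurd rfl hne, absurd hat' (h3 z hz hat)]
    · rcases h1 z hz g hg hat' with rfl | rfl | rfl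
      exacts [hg, absurd hat (h3 z hz hat'), absurd rfl hne]
  have h6 : ∀ z ∈ ({u, v} : Finset V), ∃ g ∈ C, (g = c ∨ g = d) ∧ G.At g z := fun z hz => by
    obtain ⟨g, hg, hne, hat⟩ := h4 m h5 z (hj.at_iff.2 (by simpa using hz))
    exact ⟨g, hg, (h1 z hz g hg hat).resolve_left hne, hat⟩
  have c2 : c ∈ G.ins W := by
    obtain ⟨g, hg, rfl | rfl, hat⟩ := h6 _ (Spl_ie c1)
    exacts [hC hg, absurd hat (h3 _ (Spl_ie c1) ie_at)]
  have d2 : d ∈ G.ins W := by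
    obtain ⟨g, hg, rfl | rfl, hat⟩ := h6 _ (Spl_ie d1)
    exacts [absurd ie_at (h3 _ (Spl_ie d1) hat), hC hg]
  have h7 : ∀ e ∈ G.cut {u, v}, e ∉ G.ins W → e ∈ G.cut W := fun e k1 k2 =>
    (mem_tch_iff.1 (tch_mono hρ (cut_sub_tch k1))).resolve_left k2
  refine ⟨⟨hρ, ⟨u, v, huv, rfl, m, ins_sub_A hmi, hj⟩, fun z hz => ⟨?_, ?_⟩⟩, ?_⟩
  · rcases KHole_at x1 y1 hxy hz with k | k
    exacts [⟨x, h7 x x1 hx, notMem_empty _, k⟩, ⟨y, h7 y y1 hy, notMem_empty _, k⟩]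
  · rcases KHole_at c1 d1 hcd hz with k | k
    exacts [⟨c, mem_inter.2 ⟨c1, c2⟩, k⟩, ⟨d, mem_inter.2 ⟨d1, d2⟩, k⟩]
  · ext e
    rw [tg, mem_inter, Spl_mem hq, mem_insert, mem_singleton]
    refine ⟨fun k => ?_, ?_⟩
    · rcases k.1 with rfl | rfl | k1
      exacts [absurd k.2 hx, absurd k.2 hy, k1]
    · rintro (rfl | rfl)
      exacts [⟨Or.inr (Or.inr (Or.inl rfl)), c2⟩, ⟨Or.inr (Or.inr (Or.inr rfl)), d2⟩]

theorem PCtx_base (hc : G.Cub) (hT : G.HT T) (hW : W ⊆ T)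
    (h : G.Ctx W J0 L Bs Ds w a b c d XR OR KR a0 b0 C0 δ) (hr : G.Rg w Xw c d) :
    w ⊆ W ∧ 2 < w.card ∧ XR ∪ Xw ⊆ W ∧ G.ie w a ∈ Xw ∧ J0 ⊆ G.tch (XR ∪ Xw) ∧
      (a0 ∈ G.A ∧ a0 ∉ G.tch (W \ (XR ∪ Xw))) ∧ (b0 ∈ G.A ∧ b0 ∉ G.tch (W \ (XR ∪ Xw))) := by
  obtain ⟨hu, hwW, -⟩ := h.bx.1 w h.wb
  have h2 : 2 < w.card := by
    have := hT.us_card hc (hwW.trans hW) hu
    omega
  obtain ⟨r1, -, r3, r4⟩ := hr.ie_mem hc hT (hwW.trans hW) h.q4 h2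
  have hX : XR ∪ Xw ⊆ W := union_subset h.bs.1 (hr.sub.trans hwW)
  have hJ : J0 ⊆ G.tch (XR ∪ Xw) := fun e he => by
    rcases h.je e he with k | rfl | rfl
    exacts [tch_mono subset_union_left k, tch_mono subset_union_right (cut_sub_tch r3),
      tch_mono subset_union_right (cut_sub_tch r4)]
  have key : ∀ e, (e ∈ J0 ∨ (e = a ∧ a ∈ G.tch XR)) →
      e ∈ G.A ∧ e ∉ G.tch (W \ (XR ∪ Xw)) := by
    rintro e (k | ⟨rfl, k⟩)
    · exact ⟨Ab_tch_sub (hJ k), PCtx_out hX (h.hJ k) (hJ k)⟩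
    · have hd : Disjoint XR Xw := (h.dj.mono_left hr.sub).symm
      exact ⟨Ab_tch_sub k, PCtx_in (ie_link hd (Ab_link hd k (cut_sub_tch r3)).1 r3).2⟩
  exact ⟨hwW, h2, hX, r1, hJ, key _ h.ea, key _ h.eb⟩

theorem PCtx_dd (h : G.Ctx W J0 L Bs Ds w a b c d XR OR KR a0 b0 C0 δ) {X : Finset V}
    (h1 : XR ⊆ X) (h2 : X ⊆ W) : ∃ d0, ∀ e ∈ G.cut W, e ∈ G.tch (W \ X) → e ∈ L ∨ e = d0 :=
  h.dd.imp fun _ k e k1 k2 => k e k1 fun k3 => PCtx_out h2 k1 (tch_mono h1 k3) k2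

/-- A standard pass of the hole.  HINT: `BS.add`, `finc`, `Fo.vd0`, `Rg.ie_mem`; the hole with
`Z = ∅`; `fing`, `Fo.cover`. -/
theorem ctx_fin (hc : G.Cub) (hT : G.HT T) (hW : W ⊆ T)
    (h : G.Ctx W J0 L Bs Ds w a b c d XR OR KR a0 b0 C0 δ) (hr : G.Rg w Xw c d) :
    ∃ Ds', G.Fo G.AU W J0 Bs Ds (XR ∪ Xw) (KR ∪ G.Kp w Xw c d) Ds' ∧
      G.VD (W \ (XR ∪ Xw)) ∅ Ds' ∧ W \ (XR ∪ Xw) ⊂ W ∧
      ∀ O ε, G.Pas0 Xw O a b ∅ (G.Kp w Xw c d) Rl.PX → G.CSp (W \ (XR ∪ Xw)) Ds' ε →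
        ∃ O', G.par (O' ∩ G.ins W) = δ + G.par (O ∩ G.ins Xw) + ε ∧
          G.PasG W O' J0 L (G.Tg G.AU W Ds) a0 b0 C0 := by
    obtain ⟨hwW, -, hX, r1, hJ, ha, hb⟩ := PCtx_base hc hT hW h hr
    obtain ⟨hpd, hbd⟩ := h.bx.pd h.vd
    obtain ⟨Ds', hF⟩ := finc hc hT hW subset_rfl h.bx h.vd
      (h.bs.add hpd hbd h.wb hwW h.dj h.q4 hr subset_rfl) fun B hB e he =>
        (mem_union.1 ((h.bx.1 B hB).2.2 he)).imp id fun k => hJ k
    refine ⟨Ds', hF, hF.vd0 hJ, sdiff_ssubset hX ⟨_, mem_union_right _ r1⟩, fun O ε hp hs => ?_⟩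
    obtain ⟨O', rfl, hs⟩ := hs
    have hp' := hp.2
    rw [insert_empty] at hp'
    obtain ⟨k1, k2⟩ := h.ho Xw O ∅ _ hr.sub (fun e he => absurd he (notMem_empty e))
      (by rw [insert_empty]; exact hp')
    rw [union_empty] at k1
    obtain ⟨d0, hd⟩ := PCtx_dd h subset_union_left hX
    obtain ⟨k3, k4⟩ := fing k1 hX h.hJ h.hL ha hb hs d0 hd
      (hF.cover (fun B hB => (h.bx.1 B hB).2.1) hX h.hJ)
    exact ⟨_, by rw [k4, k2, add_comm], k3⟩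

/-- The long option: the odd circuit `C` through the last rung `ρ = w \ X0` is joined to the run
by the double pass.
HINT: `W1 = W \ (XR ∪ X0)`, `Ds'` from `ctx_fin` (`Kp w X0 c d` is empty), `Ds2 = insert ρ Ds'`.
The edges at `ρ` inside `W1` are the rung edge, `c` and `d`, so they lie on `C` (`Rg.sp`,
`Sp.link`) and `ρ` is ready in `W1`.  `P = vs C \ ρ` is passed from `c` to `d` by `path_run` in
`W1` with the live set of all edges of `cut W1` that lie in `L` or touch `XR ∪ w`.  The hole with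
`Xw = w`, `Z = {c, d}`; `dbl_close` with `X1 = XR ∪ w`, `X2 = P`.  The rest is
`W3 = W1 \ vs C`; its rungs come from `finc` in `W1` with `Fm = ∅`, `Bs = ∅`, `X = vs C`; take
the parity `nu W3` (`nu_remove`); `fing`.  Coverage from the first `Fo`: a side inside an
untouched box `B` equals `B` and lies in `W3` (`us_iso`, `iso_disj`); the end edges of `ρ`
contain `c`; an inner edge of `W` that leaves `XR ∪ X0` and lies in no box does not touch `ρ`,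
so it leaves `XR ∪ w` and is not in the even set (it may end in `P`: before `fing` add the
targets `{e}` for the edges `e` off the even set by `PasG.cov`). -/
theorem ctx_long (hc : G.Cub) (hT : G.HT T) (hW : W ⊆ T)
    (h : G.Ctx W J0 L Bs Ds w a b c d XR OR KR a0 b0 C0 δ) (hX : X0 ≠ w) (hr : G.Rg w X0 c d)
    (hK : ∀ t ∈ G.Kus w, c ∈ t ∧ d ∈ t) {OD C : Finset E} (hD : G.Dbl w OD a b c d)
    (hC : C ⊆ G.ins (W \ (XR ∪ X0))) (cC : G.Cc C) (oC : G.par C = 1)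
    (hm : ¬ Disjoint (w \ X0) (G.vs C)) (hF : ¬ G.FH (W \ (XR ∪ X0)))
    (hI : ∀ W' ⊂ W, G.CP W') :
    ∃ O', G.par (O' ∩ G.ins W) =
        δ + G.par (OD ∩ G.ins w) + G.par (G.ins (w \ X0)) + G.nu (W \ (XR ∪ X0)) ∧
      G.PasG W O' J0 L (G.Tg G.AU W Ds) a0 b0 C0 := by
    obtain ⟨hwW, h2, hX0, r1, hJ0, -, -⟩ := PCtx_base hc hT hW h hr
    obtain ⟨-, -, hX1, -, hJ1, ha, hb⟩ := PCtx_base hc hT hW h (Xw := w) (Or.inl rfl)
    obtain ⟨hpd, hbd⟩ := h.bx.pd h.vd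
    obtain ⟨Ds', hFo, hD', hs1, -⟩ := ctx_fin hc hT hW h hr
    obtain ⟨hsp, hcard⟩ := hr.sp hc hT (hwW.trans hW) h.q4 h2 hX
    obtain ⟨-, -, -, -, -, -, -, hcd, -, -, -, -, x, y, qx, -⟩ := hsp.str hc hT (hwW.trans hW) h.q4
    obtain ⟨hq, xw, yw, -, hxy, -, -⟩ := hsp.link hc hT (hwW.trans hW) h.q4 qx
    have e1 := PCtx_set1 (XR := XR) hr.sub
    have e2 : w \ (XR ∪ X0) = w \ X0 := by
      rw [sdiff_union_distrib, sdiff_eq_self_of_disjoint h.dj, inter_eq_right.2 sdiff_subset]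
    have hdρ : Disjoint (XR ∪ X0) (w \ X0) := e2 ▸ disjoint_sdiff
    have hρw : w \ X0 ⊆ w := sdiff_subset
    have hX0' : G.ie w a ∈ w ∧ G.ie w a ∈ XR ∪ X0 := ⟨hr.sub r1, mem_union_right _ r1⟩
    have xt : x ∈ G.tch (XR ∪ X0) := tch_mono subset_union_right (cut_sub_tch qx.mem.2.2.1)
    have yt : y ∈ G.tch (XR ∪ X0) := tch_mono subset_union_right (cut_sub_tch qx.mem.2.2.2)
    have hRX : XR ⊆ XR ∪ X0 := subset_union_left
    have hKp : ∀ t, t ∉ G.Kp w X0 c d := fun t ht =>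
      ht.2.elim hX fun k => k.elim (· (hK t ht.1).1) (· (hK t ht.1).2)
    have hole := h.ho w OD {c, d} ∅ Subset.rfl
    rw [← e1] at hX1 hJ1 ha hb hole
    generalize XR ∪ X0 = X at *
    generalize w \ X0 = ρ at *
    have hρ1 : ρ ⊆ W \ X := subset_sdiff.2 ⟨hρw.trans hwW, hdρ.symm⟩
    have hW1 : W \ X ⊆ T := sdiff_subset.trans hW
    obtain ⟨hrdy, htg⟩ := PCtx_rung hc hT hW1 hρ1 hq hcard hxy hcd (PCtx_no xt) (PCtx_no yt) hC cC.2.1 hm
    obtain ⟨o1, o2, o3⟩ := hrdy.on_even hc hT hW1 hC cC.2.1 hm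
    have hcd1 : ∀ e ∈ ({c, d} : Finset E), e ∈ G.ins (W \ X) := fun e he =>
      (mem_inter.1 (htg ▸ he : e ∈ G.tg (W \ X) ρ)).2
    have hdis : ∀ ρ' ∈ Ds', ρ' ≠ ρ → Disjoint ρ' ρ := fun ρ' k1 k2 => by
      rcases hFo.2.1 ρ' k1 with ⟨k3, -⟩ | ⟨B, k3, rfl, -⟩
      · exact (hpd ρ' (mem_union_right _ k3) w (mem_union_left _ h.wb)
          fun k => disjoint_left.1 hbd h.wb (k ▸ k3)).mono_right hρw
      · exact (h.bx.2.1 B k3 w h.wb fun k => k2 (k ▸ e2)).mono sdiff_subset hρw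
    have hD2 : G.VD (W \ X) ∅ (insert ρ Ds') := by
      refine ⟨fun A hA A' hA' hne => ?_, fun A hA => ?_⟩
      · rcases mem_insert.1 hA with rfl | k1 <;> rcases mem_insert.1 hA' with rfl | k2
        exacts [absurd rfl hne, (hdis _ k2 hne.symm).symm, hdis _ k1 hne, hD'.1 A k1 A' k2 hne]
      · rcases mem_insert.1 hA with rfl | k1
        exacts [hrdy, hD'.2 A k1]
    have hrun := path_run (L := (G.cut (W \ X)).filter fun e => e ∈ L ∨ e ∈ G.tch (X ∪ ρ)) hc hT hW1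
      hD2 (filter_subset _ _) (fun ρ' k1 e k2 k3 => mem_filter.2 ⟨k3, or_iff_not_imp_right.2 fun k4 => by
        have k5 : e ∉ G.tch X := fun k => k4 (tch_mono subset_union_left k)
        have k6 := PCtx_cut k3 k5
        rcases mem_insert.1 k1 with rfl | k1
        · exact absurd (tch_mono subset_union_right (cut_sub_tch k2)) k4
        rcases hFo.2.1 ρ' k1 with ⟨k7, -⟩ | ⟨B, k7, rfl, -⟩
        · exact h.lv ρ' k7 e k2 k6
        · obtain ⟨-, b1, b2⟩ := h.bx.1 B k7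
          rcases mem_union.1 (b2 (cut_of_sub b1 k6 (tch_mono sdiff_subset (cut_sub_tch k2))).1) with k | k
          exacts [absurd k (not_ins_of_cut k6), absurd (hJ0 k) k5]⟩)
      hC cC (mem_insert_self _ _) hm htg hq.2.2.2.2.2.2
    obtain ⟨h1, p1⟩ := hole (fun e he k => PCtx_no (tch_mono hRX k) (hcd1 e he))
      (hD.imp fun R k => Or.inr k)
    have hCW : G.vs C ⊆ W \ X := (sub_ins_iff.1 hC).2
    have hP : G.vs C \ ρ ⊆ W \ (X ∪ ρ) := fun v hv => by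
      have k1 := hCW (mem_sdiff.1 hv).1
      simp only [mem_sdiff, mem_union] at k1 hv ⊢
      (clear * - hX0' ha hb hole hv k1; tauto)
    have hout : ∀ e ∈ G.cut W, e ∈ G.tch (X ∪ ρ) → e ∉ G.tch (G.vs C \ ρ) := fun e k1 k2 k3 =>
      PCtx_out hX1 k1 k2 (tch_mono hP k3)
    obtain ⟨h3, p3⟩ := dbl_close (L := L) h1 hrun (fun _ k => k) (disjoint_sdiff.mono_right hP)
      (fun e he => hout e (h.hJ he) (hJ1 he)) ⟨ha.1, fun k => ha.2 (tch_mono hP k)⟩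
      ⟨hb.1, fun k => hb.2 (tch_mono hP k)⟩ (fun e k1 k2 => hout e (h.hL k1) (cut_sub_tch k2))
      (fun _ k _ => k) fun e k _ => (mem_filter.1 k).2.symm
    have p2 := PCtx_par hrun.2.1
    rw [par_sdiff o2, oC, par, par, par, sum_pair hq.2.2.2.2.2.2] at p2
    obtain ⟨D3, hF3⟩ := finc (Fm := ∅) (J := ∅) (Bs := ∅) (X := G.vs C)
      (K := {t | ∃ ρ' ∈ insert ρ Ds', ρ' ⊆ G.vs C ∧ t = G.tg (W \ X) ρ'}) hc hT hW1
      (Set.empty_subset _) ⟨fun _ k => absurd k (notMem_empty _), fun _ k => absurd k (notMem_empty _),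
        fun _ k => k.elim⟩ hD2 ⟨hCW, fun _ k => absurd k (notMem_empty _), fun ρ' k =>
        or_iff_not_imp_left.2 fun k1 => by
          have k2 := ((hD2.2 ρ' k).on_even hc hT hW1 hC cC.2.1 k1).1
          exact ⟨k2, ρ', k, k2, rfl⟩⟩ fun _ k => absurd k (notMem_empty _)
    obtain ⟨O3, p4, h4⟩ := hI _ (Finset.ssubset_of_subset_of_ssubset sdiff_subset hs1) D3
      (hF3.vd0 (empty_subset _)) _ (Or.inr rfl)
    have e3 := PCtx_set2 (W := W) (X := X) o1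
    have hX3 : G.vs C \ ρ ∪ (X ∪ ρ) ⊆ W := union_subset (hP.trans sdiff_subset) hX1
    have hsub : W \ (G.vs C \ ρ ∪ (X ∪ ρ)) ⊆ W \ (X ∪ ρ) :=
      sdiff_subset_sdiff Subset.rfl subset_union_right
    have hXX : X ⊆ G.vs C \ ρ ∪ (X ∪ ρ) := subset_union_left.trans subset_union_right
    obtain ⟨d0, hd0⟩ := PCtx_dd h (hRX.trans hXX) hX3
    have hoff : ∀ e ∈ G.ins W, e ∈ G.cut X → e ∉ G.ins w → e ∉ C \ G.ins ρ ∪ (OR ∪ OD) :=
      fun e k1 k2 k3 k4 => by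
        have k5 : e ∉ G.ins (W \ X) := PCtx_no (cut_sub_tch k2)
        have k6 : e ∉ G.tch ρ := fun k => by
          rcases (Spl_mem hq e).1 (Ab_link hdρ (cut_sub_tch k2) k).2 with rfl | rfl | rfl | rfl
          exacts [k3 xw, k3 yw, k5 (hcd1 _ (mem_insert_self _ _)),
            k5 (hcd1 _ (mem_insert_of_mem (mem_singleton_self _)))]
        rcases mem_union.1 k4 with k | k
        · exact k5 (hC (mem_sdiff.1 k).1)
        · have k7 := mem_inter.2 ⟨k, PCtx_cut2 k2 k6⟩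
          rw [h1.1.2.2] at k7
          rcases mem_union.1 k7 with k8 | k8
          exacts [not_ins_of_cut (h.hJ k8) k1, k5 (hcd1 e k8)]
    generalize C \ G.ins ρ = O2 at *
    generalize OR ∪ OD = O1 at *
    have hXn : ∀ v ∈ (W \ X) \ G.vs C, v ∉ G.vs C \ ρ ∪ (X ∪ ρ) := fun v hv =>
      (mem_sdiff.1 (e3 ▸ hv : v ∈ W \ (G.vs C \ ρ ∪ (X ∪ ρ)))).2
    generalize G.vs C \ ρ ∪ (X ∪ ρ) = X3 at h3 p3 e3 hX3 hsub hXX hd0 hXn
    have h5 := h3.cov (K := ({t | ∃ ρ' ∈ insert ρ Ds', ρ' ⊆ G.vs C \ ρ ∧ t = G.tg (W \ X) ρ'} ∪ {{c}} ∪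
        (KR ∪ ∅)) ∪ {t | ∃ e ∈ G.tch X3, e ∉ O2 ∪ O1 ∧ t = {e}}) fun t ht => by
      rcases ht with ht | ⟨e, k1, k2, rfl⟩
      exacts [Or.inl ⟨t, ht, Subset.rfl⟩, Or.inr ⟨e, mem_singleton_self e, k1, k2⟩]
    obtain ⟨h6, p6⟩ := fing h5 hX3 h.hJ h.hL ⟨ha.1, fun k => ha.2 (tch_mono hsub k)⟩
      ⟨hb.1, fun k => hb.2 (tch_mono hsub k)⟩ (e3.symm ▸ h4) d0 hd0 (K0 := G.Tg G.AU W Ds) fun t ht => by
        rw [e3]
        rcases hFo.2.2 t ht with ⟨t', k1, k2⟩ | ⟨S, k1, B, k2, k3, k4, rfl⟩ | ⟨ρ', k1, k2⟩ |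
          ⟨e, k1, ⟨k2, k3⟩ | ⟨k2, k3, k4⟩⟩
        · exact Or.inl ⟨t', Or.inl (Or.inl (Or.inr (Or.inl (k1.resolve_right (hKp t'))))), k2⟩
        · have s1 : S ⊆ W \ X := subset_sdiff.2 ⟨k3.trans (h.bx.1 B k2).2.1, k4.mono_left k3⟩
          obtain ⟨u1, -, u2, -, -⟩ := us_iso hc hT hW1 hF s1 k1
          refine Or.inl ⟨_, Or.inr (Or.inl ⟨S, k1, subset_sdiff.2 ⟨s1, ?_⟩, rfl⟩), Subset.rfl⟩
          rcases iso_disj hc hF hC cC oC (ins_mono s1) u1 with k | k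
          · rw [k] at u2
            obtain ⟨z, z1, z2⟩ := not_disjoint_iff.1 hm
            by_cases k5 : B = w
            · exact absurd hX0'.2 (disjoint_left.1 k4 (k5 ▸ hX0'.1))
            · exact absurd (hρw z1) (disjoint_left.1 (h.bx.2.1 B k2 w h.wb k5) (k3 (u2 ▸ z2)))
          · exact u2 ▸ k
        · rcases hF3.2.2 _ (Or.inr ⟨ρ', mem_insert_of_mem k1, rfl⟩) with
            ⟨t', ⟨ρ2, l1, l2, rfl⟩, l3⟩ | ⟨S, l1, -⟩ | ⟨ρ2, l1, l2⟩ | ⟨e, l1, ⟨l2, -⟩ | ⟨l2, l3, -⟩⟩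
          · by_cases k5 : ρ2 = ρ
            · rw [k5, htg] at l3
              exact Or.inl ⟨{c}, Or.inl (Or.inl (Or.inl (Or.inr rfl))),
                singleton_subset_iff.2 (k2 (l3 (mem_insert_self _ _)))⟩
            · exact Or.inl ⟨_, Or.inl (Or.inl (Or.inl (Or.inl ⟨ρ2, l1, subset_sdiff.2
                ⟨l2, hdis ρ2 ((mem_insert.1 l1).resolve_left k5) k5⟩, rfl⟩))), l3.trans k2⟩
          · exact l1.elim
          · exact Or.inl ⟨_, Or.inr (Or.inr ⟨ρ2, l1, rfl⟩), l2.trans k2⟩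
          · exact absurd (mem_inter.1 l1).2 (not_ins_of_cut l2)
          · have l4 : e ∈ G.ins W := ins_mono sdiff_subset l2
            exact Or.inr ⟨e, k2 l1, ins_sub_tch l4, PCtx_cut3 l2 l3 hXn, PCtx_no (cut_sub_tch l3),
              fun k => not_ins_of_cut (h.hJ k) l4⟩
        · exact Or.inr ⟨e, k1, cut_sub_tch k2, fun k => not_ins_of_cut k2 (ins_mono hX3 k),
            fun k => not_ins_of_cut k2 (ins_mono (sdiff_subset.trans sdiff_subset) k), k3⟩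
        · exact Or.inl ⟨{e}, Or.inl (Or.inr ⟨e, tch_mono hXX (cut_sub_tch k3),
            hoff e k2 k3 (k4 w h.wb), rfl⟩), singleton_subset_iff.2 k1⟩
    refine ⟨_, ?_, h6⟩
    rw [p6, p4, p3, p1]
    exact PCtx_z3 _ _ _ _ _ _ p2 (nu_remove hc hF hC cC oC)

/-- HINT: first alternative of `FP`: `ctx_fin` with the parity `nu` of the rest.  `E1`: with
`W0 = W \ (XR ∪ w)`, `W1 = W \ (XR ∪ X0)` the complete pass gives `δ + π + 1 + nu W0`, the pass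
of `X0` gives `δ + π + nu W1`, or both parities if `FH W1`.  If `nu W0 ≠ nu W1` then some odd
circuit of `W1` meets `w \ X0` (`nu_eq`) and `ctx_long` gives `δ + π + nu W1 + 1`. -/
theorem context (hc : G.Cub) (hT : G.HT T) (hW : W ⊆ T)
    (h : G.Ctx W J0 L Bs Ds w a b c d XR OR KR a0 b0 C0 δ) (hw : G.FP w)
    (hI : ∀ W' ⊂ W, G.CP W') (ε : ZMod 2) :
    ∃ O, G.par (O ∩ G.ins W) = ε ∧ G.PasG W O J0 L (G.Tg G.AU W Ds) a0 b0 C0 := by
    rcases hw a b c d h.q4 with ⟨X, hr, hp⟩ | ⟨X0, hX, hr, hK, π, ⟨O1, p1, q1⟩, ⟨O2, p2, q2⟩, O3, p3, q3⟩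
    · obtain ⟨Ds', -, hD, hs, hf⟩ := ctx_fin hc hT hW h hr
      obtain ⟨O, p, q⟩ := hp (ε + δ + G.nu (W \ (XR ∪ X)))
      obtain ⟨O', k1, k2⟩ := hf O _ q (hI _ hs Ds' hD _ (Or.inr rfl))
      refine ⟨O', ?_, k2⟩
      rw [k1, p, PCtx_z1]
    obtain ⟨D1, -, hD1, hs1, hf1⟩ := ctx_fin hc hT hW h (Xw := w) (Or.inl rfl)
    obtain ⟨D2, -, hD2, hs2, hf2⟩ := ctx_fin hc hT hW h hr
    have q2' : G.Pas0 X0 O2 a b ∅ (G.Kp w X0 c d) Rl.PX := q2.cov fun t ht =>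
      (ht.2.elim hX fun k => k.elim (· (hK t ht.1).1) (· (hK t ht.1).2)).elim
    by_cases hF : G.FH (W \ (XR ∪ X0))
    · obtain ⟨O', k1, k2⟩ := hf2 O2 _ q2' (hI _ hs2 D2 hD2 (ε + δ + π) (Or.inl hF))
      refine ⟨O', ?_, k2⟩
      rw [k1, p2, PCtx_z2]
    obtain ⟨O4, k1, k2⟩ := hf2 O2 _ q2' (hI _ hs2 D2 hD2 _ (Or.inr rfl))
    obtain ⟨O5, k3, k4⟩ : ∃ O', G.par (O' ∩ G.ins W) = δ + π + G.nu (W \ (XR ∪ X0)) + 1 ∧
        G.PasG W O' J0 L (G.Tg G.AU W Ds) a0 b0 C0 := by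
      by_cases hn : ∀ C ⊆ G.ins (W \ (XR ∪ X0)), G.Cc C → G.par C = 1 → C ⊆ G.ins (W \ (XR ∪ w))
      · obtain ⟨O', k3, k4⟩ := hf1 O1 _ (q1.cov fun t ht => Or.inl ⟨t, ht.1, Subset.rfl⟩)
          (hI _ hs1 D1 hD1 _ (Or.inr rfl))
        refine ⟨O', ?_, k4⟩
        rw [k3, p1, nu_eq (sdiff_subset_sdiff Subset.rfl (union_subset_union Subset.rfl hr.sub)) hn]
        ring
      · push Not at hn
        obtain ⟨C, c1, c2, c3, c4⟩ := hn
        obtain ⟨O', k3, k4⟩ := ctx_long hc hT hW h hX hr hK q3 c1 c2 c3 (fun k => c4 (by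
          obtain ⟨s1, s2⟩ := sub_ins_iff.1 c1
          refine sub_ins_iff.2 ⟨s1, fun v hv => ?_⟩
          have t1 := s2 hv
          have t2 := disjoint_right.1 k hv
          simp only [mem_sdiff, mem_union] at t1 t2 ⊢
          (clear * - t1 t2; tauto))) hF hI
        refine ⟨O', ?_, k4⟩
        rw [k3, add_assoc δ, p3]
        ring
    rw [p2] at k1
    by_cases he : ε = δ + π + G.nu (W \ (XR ∪ X0))
    · exact ⟨O4, k1.trans he.symm, k2⟩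
    · refine ⟨O5, k3.trans ?_, k4⟩
      generalize δ + π + G.nu (W \ (XR ∪ X0)) = n at he
      revert ε n
      decide

end SG

end Pool.Agent.Work.MP_8c679b_co
end

-- merged part: Pool.Agent.Work.MP_8c679b_co.Six.PCp
section
/-!
Clean solutions with prescribed parity.
-/

set_option autoImplicit false

namespace Pool.Agent.Work.MP_8c679b_co

open Finset

namespace SG

variable {V E : Type} [Fintype V] [DecidableEq V] [DecidableEq E] {G : SG V E}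
  {T S W X : Finset V} {a b c d : E} {Bs Ds : Finset (Finset V)}
  {n k : ℕ} {w : ℕ → Finset V} {g : ℕ → E}

variable (G) in
/-- marked circuits of the quotient: a rung, or two vertices with leaving edges -/
def Mk (W : Finset V) (Ds : Finset (Finset V)) (w : ℕ → Finset V) (k : ℕ) : Prop :=
  (k = 0 ∧ w 0 ∈ Ds) ∨ (Ds = ∅ ∧ k ≠ 0 ∧ ∃ y1 ∈ W, ∃ y2 ∈ W, w 0 = {y1} ∧ w k = {y2} ∧
    (∃ e ∈ G.cut W, G.At e y1) ∧ ∃ e ∈ G.cut W, G.At e y2)

theorem PCp_cut {e : E} {y : V} (he : e ∈ G.cut W) (hat : G.At e y) : e ∈ G.cut {y} :=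
  (mem_cut_single fun q => (mem_cut.1 he).2 (by rw [q])).2 ⟨(mem_cut.1 he).1, hat⟩

/-- HINT: `quo_cyc` through a rung, or `uuc`. -/
theorem mk_exists (hc : G.Cub) (hT : G.HT T) (hW : W ⊆ T) (h2 : G.Two W (G.ins W))
    (hB : G.Bx G.AU W ∅ Bs) (hD : G.VD W ∅ Ds) (hne : Bs.Nonempty) :
    ∃ n w g k, (G.quo W (Bs ∪ Ds)).Cyc (G.quo W (Bs ∪ Ds)).A n w g ∧ k ≤ n ∧ G.Mk W Ds w k ∧
      ∀ i, i = 0 ∨ i = k → (G.cut (w i) ∩ G.ins W).card = 2 := by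
  obtain ⟨hpd, -⟩ := hB.pd hD
  have hY : ∀ N ∈ Bs ∪ Ds, N ⊆ W := fun N h =>
    (mem_union.1 h).elim (fun k => (hB.1 N k).2.1) fun k => (hD.2 N k).1
  rcases Ds.eq_empty_or_nonempty with rfl | ⟨ρ, hρ⟩
  · obtain ⟨B, hBs⟩ := hne
    have h4 := hT.us_card hc ((hB.1 B hBs).2.1.trans hW) (hB.1 B hBs).1
    have h1 : 2 ≤ W.card := by
      have := card_le_card (hB.1 B hBs).2.1
      omega
    obtain ⟨n, w, g, k, y1, y2, hp, k0, hk, w0, wk, m1, m2, l1, l2⟩ := uuc hc hT hW h2 h1 hB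
    have key : ∀ y ∈ W, (∃ e ∈ G.cut W, G.At e y) → (G.cut {y} ∩ G.ins W).card = 2 := by
      rintro y hy ⟨e, he, hat⟩
      have a1 := h2 {y} (singleton_subset_iff.2 hy) (singleton_nonempty y) fun q => by
        rw [← q, card_singleton] at h1
        omega
      have a2 : G.crs (G.ins W) {y} ⊆ G.cut {y} ∩ G.ins W := fun f hf =>
        mem_inter.2 ⟨mem_cut.2 ⟨ins_sub_A (mem_crs.1 hf).1, (mem_crs.1 hf).2⟩, (mem_crs.1 hf).1⟩
      have a3 : G.cut {y} ∩ G.ins W ⊆ (G.cut {y}).erase e := fun f hf =>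
        mem_erase.2 ⟨fun q => not_ins_of_cut he (q ▸ (mem_inter.1 hf).2), (mem_inter.1 hf).1⟩
      have a4 := card_erase_of_mem (PCp_cut he hat)
      have a5 := (hT.vtx hc (hW hy)).1
      have a6 := card_le_card a2
      have a7 := card_le_card a3
      omega
    refine ⟨n, w, g, k, by rwa [union_empty], hk,
      Or.inr ⟨rfl, k0.ne', y1, m1, y2, m2, w0, wk, l1, l2⟩, ?_⟩
    rintro i (rfl | rfl)
    · rw [w0]
      exact key y1 m1 l1
    · rw [wk]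
      exact key y2 m2 l2
  · obtain ⟨k1, ⟨u, v, -, k2, -⟩, k3⟩ := hD.2 ρ hρ
    have hu : u ∈ ρ := k2 ▸ mem_insert_self u {v}
    have hnd : nd (Bs ∪ Ds) u = ρ := nd_of_mem hpd (mem_union_right _ hρ) hu
    obtain ⟨-, e, k4, -⟩ := k3 u hu
    have hne : nd (Bs ∪ Ds) u ≠ W := by
      rw [hnd]
      rintro rfl
      exact not_ins_of_cut (mem_inter.1 k4).1 (mem_inter.1 k4).2
    obtain ⟨n, w, g, hp, h0⟩ := quo_cyc hpd hY h2 (k1 hu) hne
    rw [hnd] at h0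
    refine ⟨n, w, g, 0, hp, Nat.zero_le n, Or.inl ⟨rfl, h0 ▸ hρ⟩, fun i hi => ?_⟩
    obtain ⟨u', v', m, a, b, c, d, -, -, -, -, q, t, -⟩ := (hD.2 ρ hρ).str hc hT hW
    rw [hi.elim id id, h0]
    exact (congrArg card t).trans (card_pair q.2.1)

/-- a marked circuit closes.  HINT: `Rl.cl_cs`, `Rl.cl_uu`, `Ncl.tt`, `Bx.pd`, `Bx.not_mem`. -/
theorem Mk.cl (hc : G.Cub) (hT : G.HT T) (hW : W ⊆ T) (hB : G.Bx G.AU W ∅ Bs) (hD : G.VD W ∅ Ds)
    (hk : k ≤ n) (h : G.Mk W Ds w k) {j : ℕ} (hj : j ≤ n → w j ∈ Bs) (τ : ℕ → ZMod 2)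
    (Rs : ℕ → Rl) (h1 : ∀ i ≤ n, i ≠ j → G.Ncl (G.cut W) Bs Ds (w i) 0 (Rs i))
    (h2 : j ≤ n → (Rs j).Tt) : Rl.Cl τ Rs n := by
  have _ := And.intro hc (And.intro hT hW)
  have tt : ∀ i ≤ n, (Rs i).Tt := fun i hi => by
    by_cases q : i = j
    · subst q
      exact h2 hi
    · exact (h1 i hi q).tt.1
  rcases h with ⟨-, h0⟩ | ⟨rfl, k0, y1, -, y2, -, w0, wk, l1, l2⟩
  · refine Rl.cl_cs tt (Nat.zero_le n) ((h1 0 (Nat.zero_le n) ?_).1 h0)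
    rintro rfl
    exact disjoint_left.1 (hB.pd hD).2 (hj (Nat.zero_le n)) h0
  · have key : ∀ i ≤ n, ∀ y, w i = {y} → (∃ e ∈ G.cut W, G.At e y) →
        i ≠ j ∧ ∃ σ, (Rs i).U σ := by
      rintro i hi y hy ⟨e, he, hat⟩
      have a1 : w i ∉ Bs := fun q =>
        hB.not_mem q he (notMem_empty e) hat (hy ▸ mem_singleton_self y)
      have a2 : i ≠ j := by
        rintro rfl
        exact a1 (hj hi)
      exact ⟨a2, 0, ((h1 i hi a2).2.2 (notMem_empty _) a1).2 ⟨e, he, hy ▸ PCp_cut he hat⟩⟩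
    obtain ⟨a1, a2⟩ := key 0 (Nat.zero_le n) y1 w0 l1
    obtain ⟨b1, b2⟩ := key k hk y2 wk l2
    exact Rl.cl_uu tt (fun i hi q => ⟨_, (h1 i hi q).tt.2 (notMem_empty _)⟩) (Nat.zero_le n) hk
      k0.symm a1 b1 a2 b2

/-- a marked circuit through a box.  HINT: `trk_hole_c`, `exists_q4`, `context` with `J0 = ∅`,
`L = cut W`, `abs0_iff`, `St.sub_ins`. -/
theorem cp_hole (hc : G.Cub) (hT : G.HT T) (hW : W ⊆ T) (hK : G.KB T) (hI : G.IHP W)
    (hB : G.Bx G.AU W ∅ Bs) (hD : G.VD W ∅ Ds)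
    (hp : (G.quo W (Bs ∪ Ds)).Cyc (G.quo W (Bs ∪ Ds)).A n w g) (hk : k ≤ n) (h : G.Mk W Ds w k)
    {j : ℕ} (hj : j ≤ n) (hw : w j ∈ Bs) (ε : ZMod 2) : G.CSp W Ds ε := by
  have hP : ∀ B ∈ Bs, G.PS B := fun B q =>
    (hK B ((hB.1 B q).2.1.trans hW)).2.2.2.2.2.2.2 (hB.1 B q).1
  obtain ⟨XR, OR, KR, δ, a, b, a1, a2, a3, a4, a5, a6, a7⟩ := trk_hole_c hc hT hW hB hD hP hp hj hw
    fun Rs r1 r2 => Mk.cl hc hT hW hB hD hk h (fun _ => hw) _ Rs r1 fun _ => r2.tt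
  have hu : G.US (w j) := (hB.1 _ hw).1
  obtain ⟨c, d, hq⟩ := exists_q4 hu.1 a3 a4 a5
  have hn : W.Nonempty := (Spl_nonempty hu.1).mono (hB.1 _ hw).2.1
  obtain ⟨e0, he0⟩ : (G.cut W).Nonempty := card_pos.1 (by have := hT.mono3 hW hn; omega)
  obtain ⟨O, b1, b2⟩ := context hc hT hW
    (⟨empty_subset _, Subset.rfl, hB, hD, fun _ _ _ _ q => q, hw, hq, a2, a1,
      fun e he => absurd he (notMem_empty e), Or.inr ⟨rfl, a6⟩, Or.inr ⟨rfl, a6⟩, a7,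
      ⟨a, fun _ he _ => Or.inl he⟩⟩ :
      G.Ctx W ∅ (G.cut W) Bs Ds (w j) a b c d XR OR KR a a Rl.Nv δ)
    ((hI _ (hB.ssub hw he0 (notMem_empty _))).2 hu) (fun W' q => (hI W' q).1) ε
  rw [inter_eq_left.2 b2.1.sub_ins] at b1
  exact ⟨O, b1, abs0_iff.2 b2⟩

/-- HINT: `mk_exists`.  A box on the circuit: `cp_hole`.  Otherwise, if the rest
`W \ bu n w` has `FH`: `trk_abs` absorbs exactly `bu n w`, `Fo.vd0`, `CP` of the rest, `fin_abs`.
Otherwise `cpq` and `cp_hole`. -/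
theorem cp_box (hc : G.Cub) (hT : G.HT T) (hW : W ⊆ T) (hK : G.KB T) (hI : G.IHP W)
    (h2 : G.Two W (G.ins W)) (hB : G.Bx G.AU W ∅ Bs) (hD : G.VD W ∅ Ds) (hne : Bs.Nonempty)
    (ε : ZMod 2) : G.CSp W Ds ε := by
  obtain ⟨n, w, g, k, hp, hk, hm, hs⟩ := mk_exists hc hT hW h2 hB hD hne
  by_cases hj : ∃ j ≤ n, w j ∈ Bs
  · obtain ⟨j, hj, hw⟩ := hj
    exact cp_hole hc hT hW hK hI hB hD hp hk hm hj hw ε
  have hno : ∀ i ≤ n, w i ∉ Bs := fun i hi q => hj ⟨i, hi, q⟩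
  by_cases hF : G.FH (W \ bu n w)
  · have hP : ∀ B ∈ Bs, G.PS B := fun B q =>
      (hK B ((hB.1 B q).2.1.trans hW)).2.2.2.2.2.2.2 (hB.1 B q).1
    obtain ⟨X, O, K, Ds', a1, a2, a3, a4, a5, a6⟩ := trk_abs hc hT hW hB hD hP
      (fun _ _ _ _ q => q) Subset.rfl hp (fun _ => 0) fun Rs r =>
        Mk.cl (j := n + 1) hc hT hW hB hD hk hm (fun q => absurd q (by omega)) _ Rs
          (fun i hi _ => r i hi) fun q => absurd q (by omega)
    have hX : bu n w = X := Subset.antisymm (KTrk_bu fun i hi => a5 i hi (hno i hi)) a2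
    rw [hX] at hF
    have b1 := (hI (W \ X) (sdiff_ssubset a3 a4)).1 Ds' (a6.vd0 (empty_subset _))
      (ε + G.par O) (Or.inl hF)
    obtain ⟨O', b2, b3⟩ := fin_abs hB a1 a3 Subset.rfl a6 b1 (g 0) fun e he _ => Or.inl he
    exact ⟨O', by rw [b2, add_assoc, z2_add_self, add_zero], b3⟩
  obtain ⟨n', w', g', k', a1, a2, a3, a4, j, a5, a6⟩ := cpq hc hT hW h2 hB hD hne hp hk hs hno hF
  rcases hm with ⟨-, h0⟩ | ⟨h0, k0, y1, m1, y2, m2, w0, wk, l⟩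
  · exact cp_hole (k := 0) hc hT hW hK hI hB hD a1 (Nat.zero_le _) (Or.inl ⟨rfl, a3 ▸ h0⟩) a5 a6 ε
  · refine cp_hole hc hT hW hK hI hB hD a1 a2
      (Or.inr ⟨h0, ?_, y1, m1, y2, m2, a3.trans w0, a4.trans wk, l⟩) a5 a6 ε
    rintro rfl
    exact k0 (hp.pth.inj k hk 0 (Nat.zero_le n) (a4.symm.trans a3))

/-- HINT: empty (`csp_empty`, `nu_bal`); not two-edge-connected (`csp_split`, `fh_split`);
balanced (`CS W`, `St.par_bal`, `nu_bal`); unbalanced without `FH`: `exists_odd_cc`, `iso_two`,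
`nu_circuit`, `pure_odd`, `csp_of_free` with `fh_of_box`; `FH` and no box: `FH.str`, `HT.flex`,
`csp_of_free`; boxes: `cp_box`. -/
theorem cp_step (hc : G.Cub) (hT : G.HT T) (hW : W ⊆ T) (hK : G.KB T) (hI : G.IHP W) :
    G.CP W := by
  intro Ds hD ε hε
  rcases W.eq_empty_or_nonempty with rfl | hn
  · obtain ⟨a1, a2⟩ := nu_bal (G := G) (W := ∅)
      ⟨0, fun e he => absurd (mem_ins.1 he).2.1 (notMem_empty _)⟩
    rw [hε.resolve_left a2, a1]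
    exact csp_empty hD
  by_cases h2 : G.Two W (G.ins W)
  swap
  · simp only [Two, not_forall, not_le] at h2
    obtain ⟨X, hX, hXn, hXW, h1⟩ := h2
    obtain ⟨D1, D2, k1, k2, k3⟩ := csp_split hc hT hW hX (by omega) hD
    obtain ⟨f1, f2⟩ := fh_split hX (by omega : (G.crs (G.ins W) X).card ≤ 1)
    have c1 := (hI X (ssubset_of_subset_of_ne hX hXW)).1 D1 k1
    have c2 := (hI (W \ X) (sdiff_ssubset hX hXn)).1 D2 k2
    rcases hε with hF | rfl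
    · rcases f1.1 hF with q | q
      · have := k3 _ _ (c1 (ε + G.nu (W \ X)) (Or.inl q)) (c2 _ (Or.inr rfl))
        rwa [add_assoc, z2_add_self, add_zero] at this
      · have := k3 _ _ (c1 _ (Or.inr rfl)) (c2 (G.nu X + ε) (Or.inl q))
        rwa [← add_assoc, z2_add_self, zero_add] at this
    · rw [f2]
      exact k3 _ _ (c1 _ (Or.inr rfl)) (c2 _ (Or.inr rfl))
  by_cases hU : G.Bal (G.ins W)
  · obtain ⟨a1, a2⟩ := nu_bal hU
    obtain ⟨ε', O, -, b⟩ := (hK W hW).2.2.2.2.2.2.1 Ds hD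
    exact ⟨O, by rw [hε.resolve_left a2, a1, b.1.par_bal hU], b⟩
  by_cases hF : G.FH W
  swap
  · obtain ⟨C, c1, c2, c3⟩ := exists_odd_cc hU
    obtain ⟨d1, d2⟩ := iso_two h2 c1 c2 (Nu_of hF c1 c2 c3)
    have a := (pure_odd (L := ∅) (c1.trans ins_sub_A) c2 c3).2.2
    rw [d2] at a
    rw [hε.resolve_left hF, (nu_circuit hc d1 c2 c3).1, ← c3]
    exact csp_of_free hc hT hW hD (fun S hS hu q => hF (fh_of_box hc hT hW h2 hS hu q)) a
  obtain ⟨Bs, hB⟩ := hT.boxes hc hW (J := ∅) (by simp)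
  rcases Bs.eq_empty_or_nonempty with rfl | hne
  · obtain ⟨O, rfl, a⟩ := hT.flex hc hW h2 hU (hF.str hc).2 ε
    refine csp_of_free hc hT hW hD (fun S hS hu q => ?_) a
    obtain ⟨B, hB', -⟩ := hB.2.2 S hu hS (q.trans subset_union_left)
    exact notMem_empty B hB'
  · exact cp_box hc hT hW hK hI h2 hB hD hne ε

end SG

end Pool.Agent.Work.MP_8c679b_co
end
end

-- merged part: Pool.Agent.Work.MP_8c679b_co.Six.PAll
section
-- merged part: Pool.Agent.Work.MP_8c679b_co.Six.GCpm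
section
/-!
Paths of both signs through a third terminal (PROOF.md, lemma CPM).
-/

set_option autoImplicit false

namespace Pool.Agent.Work.MP_8c679b_co

open Finset

namespace SG

variable {V E : Type} [Fintype V] [DecidableEq V] [DecidableEq E] {G : SG V E}
  {T S W : Finset V} {a b c d : E}

section aux

variable {K At0 : Finset V} {z t1 t2 : V} {n m j r : ℕ} {v u : ℕ → V} {g k : ℕ → E}

/-- both terminals outside `K` -/
theorem GCpm_three (h : G.GCpm_Gp S z n v g K At0) (hc : G.Cub) (two : G.Two S (G.ins S))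
    (h1 : t1 ∈ (S \ K) \ At0) (h2 : t2 ∈ (S \ K) \ At0) (h3 : t2 ∉ G.cmp ((S \ K) \ At0) t1)
    (σ : ZMod 2) : ∃ Z : V → Prop, G.GCpm_W (G.ins S) t1 t2 Z σ ∧ Z z := by
  obtain ⟨i, hi, Ua, sa, a1, a2, a3⟩ := h.leg hc two h1
  obtain ⟨j, hj, Ub, sb, b1, b2, b3⟩ := h.leg hc two h2
  have dj : ∀ x, x ∈ G.cmp ((S \ K) \ At0) t1 → x ∉ G.cmp ((S \ K) \ At0) t2 := fun x p q =>
    h3 (mem_cmp.2 ⟨h2, (mem_cmp.1 p).2.trans (mem_cmp.1 q).2.symm⟩)
  generalize hZ : G.cmp ((S \ K) \ At0) t1 = Za at a2 dj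
  generalize hZ' : G.cmp ((S \ K) \ At0) t2 = Zb at b2 dj
  have za : ∀ x ∈ Za, x ∈ (S \ K) \ At0 ∧ ∀ y ∈ (S \ K) \ At0,
      G.Rch (G.ins ((S \ K) \ At0)) x y → y ∈ Za := fun x hx => by
    rw [← hZ] at hx ⊢
    exact ⟨(mem_cmp.1 hx).1, fun y hy k => mem_cmp.2 ⟨hy, (mem_cmp.1 hx).2.trans k⟩⟩
  have zb : ∀ x ∈ Zb, x ∈ (S \ K) \ At0 ∧ ∀ y ∈ (S \ K) \ At0,
      G.Rch (G.ins ((S \ K) \ At0)) x y → y ∈ Zb := fun x hx => by
    rw [← hZ'] at hx ⊢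
    exact ⟨(mem_cmp.1 hx).1, fun y hy k => mem_cmp.2 ⟨hy, (mem_cmp.1 hx).2.trans k⟩⟩
  clear hZ hZ' h1 h2 h3
  wlog hij : i < j generalizing i j t1 t2 Ua Ub sa sb Za Zb
  · have ne : i ≠ j := fun k => dj _ (a2 _ a1.right) (k ▸ b2 _ b1.right)
    obtain ⟨Z, z1, z2⟩ := this j hj Ub sb b1 b3 i hi Ua sa a1 a3 Zb b2 Za a2
      (fun x p q => dj x q p) zb za (by omega)
    exact ⟨Z, z1.rev, z2⟩
  have ia := a2 _ a1.right
  have jb := b2 _ b1.right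
  obtain ⟨l0, l1, l2, l3⟩ : ∃ l, i < l ∧ l < j ∧ v l ∈ At0 := by
    by_contra k
    have k1 : ∀ l, i ≤ l → l ≤ j → v l ∈ (S \ K) \ At0 := by
      intro l p q
      rcases p.eq_or_lt with rfl | p
      · exact (za _ ia).1
      rcases q.eq_or_lt with rfl | q
      · exact (zb _ jb).1
      have k2 : v l ∈ pv n v := mem_pv.2 ⟨l, by omega, rfl⟩
      exact mem_sdiff.2 ⟨mem_sdiff.2 ⟨GCpm_pv h.cyc k2, fun k3 => (h.sp.2.1 _ k3).2 k2⟩,
        fun k3 => k ⟨l, p, q, k3⟩⟩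
    have hs := h.cyc.pth.sub (i := i) (m := j - i) (by omega)
    have k2 := hs.rch (Nat.zero_le _) le_rfl
    simp only [add_zero, show i + (j - i) = j by omega] at k2
    refine dj _ ((za _ ia).2 _ (zb _ jb).1 (k2.mono fun e he => ?_)) jb
    obtain ⟨l, p, rfl⟩ := mem_pe.1 he
    exact Cut_je_ins (ins_sub_A (hs.mem l p)) (hs.jn l p) (k1 _ (by omega) (by omega))
      (k1 _ (by omega) (by omega))
  obtain ⟨l, l', Ue, se, e1, e2, e3, e4, e5, e6, e7, e8, e9⟩ := h.ear hc two l1 l2 hj l3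
    (mem_sdiff.1 (za _ ia).1).2 (mem_sdiff.1 (zb _ jb).1).2
  obtain ⟨U1, U2, U3, U4, s1, s2, s3, s4, f1, f2, f3, f4, f5, f6, f7, f8⟩ :=
    GCpm_four h.cyc e2 e3 hj e4 e5
  rw [h.odd] at f8
  have de : ∀ t, Ue t → t ∈ pv n v → t = v l ∨ t = v l' := fun t p q => by
    rcases e9 t p with k | k | k
    exacts [Or.inl k, Or.inr k, absurd q (h.sp.2.1 t k).2]
  have dy : ∀ t, t ∈ (S \ K) \ At0 → ¬ Ue t := fun t p q => by
    rcases e9 t q with rfl | rfl | k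
    exacts [(mem_sdiff.1 p).2 e7, (mem_sdiff.1 p).2 e8, (mem_sdiff.1 (mem_sdiff.1 p).1).2 k]
  have dab : ∀ t, Ua t → ¬ Ub t := fun t p q => dj t (a2 t p) (b2 t q)
  have dae : ∀ t, Ua t → ¬ Ue t := fun t p => dy t (za t (a2 t p)).1
  have dbe : ∀ t, Ub t → ¬ Ue t := fun t p => dy t (zb t (b2 t p)).1
  obtain ⟨Z1, p1, q1⟩ := GCpm_five (D := (· ∈ pv n v)) a1 f1 e1 f3 b1.rev
    (fun t k => f7 t (by tauto)) (fun t k => f7 t (by (clear * - e4 k; tauto))) f5 a3 b3 de dab dae dbe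
  obtain ⟨Z2, p2, q2⟩ := GCpm_five (D := (· ∈ pv n v)) a1 f4 e1.rev f2 b1.rev
    (fun t k => f7 t (by (clear * - e4 k; tauto))) (fun t k => f7 t (by (clear * - e4 k; tauto))) f6 a3 b3
    (fun t p q => (de t p q).symm) dab dae dbe
  by_cases k : sa + s1 + se + s3 + sb = σ
  · exact ⟨Z1, k ▸ p1, q1 z e6⟩
  · refine ⟨Z2, p2.congr (fun _ => Iff.rfl) ?_, q2 z e6⟩
    refine (by decide : ∀ x y z : ZMod 2, x + y = 1 → ¬ x = z → y = z) _ _ _ ?_ k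
    linear_combination f8 + z2_add_self sa + z2_add_self se + z2_add_self sb

theorem GCpm_pdeg {F : Finset E} (hp : G.Pth F m u k) (hj : j ≤ m) :
    (G.crs F (pv m u) ∩ G.crs F {u j}).card + (iv (0 < j) + iv (j < m)) ≤ G.deg F (u j) := by
  have h1 : Disjoint (G.crs F (pv m u) ∩ G.crs F {u j}) (pe m k) := by
    refine disjoint_left.2 fun e he he' => ?_
    obtain ⟨i, hi, rfl⟩ := mem_pe.1 he'
    exact ((GCpm_crs (hp.jn i hi)).1 (mem_inter.1 he).1).2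
      (iff_of_true (mem_pv.2 ⟨i, hi.le, rfl⟩) (mem_pv.2 ⟨i + 1, hi, rfl⟩))
  have h2 := deg_mono (G := G) (v := u j) (union_subset
    (inter_subset_left.trans (filter_subset _ _) : G.crs F (pv m u) ∩ G.crs F {u j} ⊆ F) hp.pe_sub)
  rw [deg_union h1, hp.deg hj] at h2
  refine le_trans (add_le_add_left (le_trans (card_le_card fun e he => ?_) (GCpm_deg _ _)) _) h2
  exact mem_crs.2 ⟨he, (mem_crs.1 (mem_inter.1 he).2).2⟩

/-- a path through `tc` that avoids the odd circuit -/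
theorem GCpm_fan (hc : G.Cub) (hT : G.HT T) (hS : S ⊆ T) (hq : G.Q4 S a b c d) (h2 : 2 < S.card)
    (hN : G.NC S a b) (hC : G.Cyc (G.ins S) n v g) (ho : ∑ i ∈ range (n + 1), G.n (g i) = 1)
    (hp : G.Pth (G.ins S) m u k) (h0 : u 0 = G.ie S a) (hm : u m = G.ie S b) (hr : r ≤ m)
    (hz : u r = G.ie S c) (hd : Disjoint (pv n v) (pv m u)) (σ : ZMod 2) :
    ∃ Z : V → Prop, G.GCpm_W (G.ins S) (G.ie S a) (G.ie S b) Z σ ∧ Z (G.ie S c) := by
  obtain ⟨⟨ma, mb, mc, md⟩, nab, nac, nad, nbc, nbd, ncd⟩ := GCpm_t hc hT hS hq h2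
  have m0 : 0 < m := Nat.pos_of_ne_zero fun k => nab (h0 ▸ hm ▸ k ▸ rfl)
  have r0 : 0 < r := Nat.pos_of_ne_zero fun k => nac (h0 ▸ hz ▸ k ▸ rfl)
  have r1 : r < m := lt_of_le_of_ne hr fun k => nbc (hm ▸ hz ▸ k ▸ rfl)
  have mu : ∀ i ≤ m, u i ∈ pv m u := fun i hi => mem_pv.2 ⟨i, hi, rfl⟩
  obtain ⟨N, W, H, k1, k2⟩ := fan_cub (G.ins S) (pv n v) (pv m u) 3 a
    (fun x => hc.le3 ins_sub_A x) hd (fun x hx => by
      obtain ⟨j, hj, rfl⟩ := mem_pv.1 hx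
      have h1 := GCpm_pdeg hp hj
      have h3 := hc.le3 (ins_sub_A (W := S)) (u j)
      have h4 := GCpm_degt hc hq.mem.1
      have h5 := GCpm_degt hc hq.mem.2.1
      by_cases j0 : j = 0
      · rw [← h0, ← j0] at h4
        rw [iv, iv, if_pos (by omega : j < m)] at h1
        omega
      by_cases j1 : j = m
      · rw [← hm, ← j1] at h5
        rw [iv, if_pos (by omega : 0 < j)] at h1
        omega
      · rw [iv, iv, if_pos (by omega : 0 < j), if_pos (by omega : j < m)] at h1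
        omega) fun X x1 x2 x3 => by
      have x4 : X ⊆ S := fun x hx => by
        obtain ⟨y, y1, y2⟩ := x3 x hx
        exact y2.closed (P := (· ∈ S))
          (fun e he => iff_of_true (mem_ins.1 he).2.1 (mem_ins.1 he).2.2) (GCpm_pv hC y1)
      have x5 : ∀ i ≤ m, u i ∉ X := fun i hi k => disjoint_left.1 x2 k (mu i hi)
      have ha : G.ie S a ∉ X := h0 ▸ x5 0 m0.le
      have hb : G.ie S b ∉ X := hm ▸ x5 m le_rfl
      have ha' := mem_sdiff.2 ⟨ma, ha⟩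
      have v0 : v 0 ∈ X := x1 (mem_pv.2 ⟨0, Nat.zero_le _, rfl⟩)
      have v1 : v 1 ∈ X := x1 (mem_pv.2 ⟨1, hC.pos, rfl⟩)
      have sg : ∀ y, X ≠ {y} := fun y k => by
        have := hC.pth.inj 0 (Nat.zero_le _) 1 hC.pos
          ((mem_singleton.1 (k.le v0)).trans (mem_singleton.1 (k.le v1)).symm)
        omega
      have h5 := hN.three hc hT hS hq h2 x4 ⟨_, v0⟩ (fun k => ha (k.ge ma)) (sg _) (sg _)
        (fun k => nac (mem_singleton.1 (k.le ha'))) (fun k => nad (mem_singleton.1 (k.le ha')))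
      rwa [iv, if_neg (not_not.2 (iff_of_false ha hb))] at h5
  have k3 : ∀ i, ∃ p ≤ m, u p = W i (N i) := fun i => mem_pv.1 (k1 i).2.2.2.1
  choose p p1 p2 using k3
  obtain ⟨i, j, ne, lt, side⟩ := three_side (k := r) p p1 (fun i hi => by
    obtain ⟨q1, q2, -, q4, -, q6⟩ := k1 i
    have j1 := q1.jn (N i - 1) (by omega)
    rw [Nat.sub_add_cancel q2] at j1
    have j2 := q6 (N i - 1) (by omega)
    have j3 := q1.mem (N i - 1) (by omega)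
    have h1 := GCpm_pdeg hp hr
    have h3 : 0 < (G.crs (G.ins S) (pv m u) ∩ G.crs (G.ins S) {u r}).card := card_pos.2 ⟨_,
      mem_inter.2 ⟨(GCpm_crs j1).2 ⟨j3, fun k => j2 (k.2 q4)⟩, (GCpm_crs j1).2 ⟨j3, fun k =>
        j2 (mem_singleton.1 (k.2 (mem_singleton.2 (by rw [← p2 i, hi]))) ▸ mu r hr)⟩⟩⟩
    have h4 := GCpm_degt hc hq.mem.2.2.1
    rw [iv, iv, if_pos r0, if_pos r1] at h1
    rw [← hz] at h4
    omega) fun i j ne k => k2 i j ne _ (k1 i).2.1 le_rfl _ (k1 j).2.1 le_rfl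
      (by rw [← p2 i, ← p2 j, k])
  obtain ⟨a1, a2, a3, -, a5, a6⟩ := k1 i
  obtain ⟨b1, b2, b3, -, b5, b6⟩ := k1 j
  have aD : ∀ t ∈ pv (N i) (W i), t ∈ pv n v → t = W i 0 := fun t ht k => by
    obtain ⟨l, hl, rfl⟩ := mem_pv.1 ht
    rw [Nat.eq_zero_of_not_pos fun k' => a5 l k' hl k]
  have bD : ∀ t ∈ pv (N j) (W j), t ∈ pv n v → t = W j 0 := fun t ht k => by
    obtain ⟨l, hl, rfl⟩ := mem_pv.1 ht
    rw [Nat.eq_zero_of_not_pos fun k' => b5 l k' hl k]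
  have aB : ∀ t ∈ pv (N i) (W i), t ∈ pv m u → t = u (p i) := fun t ht k => by
    obtain ⟨l, hl, rfl⟩ := mem_pv.1 ht
    rw [p2, le_antisymm hl (not_lt.1 fun k' => a6 l k' k)]
  have bB : ∀ t ∈ pv (N j) (W j), t ∈ pv m u → t = u (p j) := fun t ht k => by
    obtain ⟨l, hl, rfl⟩ := mem_pv.1 ht
    rw [p2, le_antisymm hl (not_lt.1 fun k' => b6 l k' k)]
  have ab : ∀ t ∈ pv (N i) (W i), t ∉ pv (N j) (W j) := fun t ht ht' => by
    obtain ⟨l, hl, rfl⟩ := mem_pv.1 ht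
    obtain ⟨l', hl', e1⟩ := mem_pv.1 ht'
    by_cases l0 : l = 0
    · subst l0
      have e2 := bD _ ht' a3
      have j1 := a1.jn 0 a2
      have j2 := b1.jn 0 b2
      have e3 := GCpm_third hc hC a3 (ins_sub_A (a1.mem 0 a2)) (ins_sub_A (b1.mem 0 b2))
        (fun k => a5 1 one_pos a2 (GCpm_on hC k (j1.at_iff.2 (Or.inr rfl))))
        (fun k => b5 1 one_pos b2 (GCpm_on hC k (j2.at_iff.2 (Or.inr rfl))))
        (j1.at_iff.2 (Or.inl rfl)) (j2.at_iff.2 (Or.inl e2))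
      rcases j2.at_iff.1 (e3 ▸ j1.at_iff.2 (Or.inr rfl)) with k | k
      · exact a5 1 one_pos a2 (k ▸ b3)
      · exact k2 i j ne 1 one_pos a2 1 one_pos b2 k
    by_cases l1 : l' = 0
    · exact a5 l (by omega) hl (e1 ▸ l1 ▸ b3)
    · exact k2 i j ne l (by omega) hl l' (by omega) hl' e1.symm
  have pi := p1 i
  have pj := p1 j
  have L1 := (GCpm_seg hp (Nat.zero_le _) pi).cat (p2 i ▸ (GCpm_of a1).rev) (by
    rintro _ ⟨l, -, l2, rfl⟩ k
    exact aB _ k (mu l (by omega)))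
  have L2 := (GCpm_of b1).cat (p2 j ▸ GCpm_seg hp pj le_rfl) (by
    rintro _ k ⟨l, -, l2, rfl⟩
    exact p2 j ▸ bB _ k (mu l l2))
  obtain ⟨Z, z1, z2⟩ := GCpm_join hC ho L1 L2 a3 b3 (by
      rintro t (⟨l, -, l2, rfl⟩ | k) k'
      · exact absurd (mu l (by omega)) (disjoint_left.1 hd k')
      · exact aD t k k') (by
      rintro t (k | ⟨l, -, l2, rfl⟩) k'
      · exact bD t k k'
      · exact absurd (mu l l2) (disjoint_left.1 hd k')) (by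
      rintro t (⟨l, -, l2, rfl⟩ | k) (k' | ⟨l', l3, l4, k'⟩)
      · have := hp.inj _ (by omega) _ pj (bB _ k' (mu l (by omega)))
        omega
      · have := hp.inj _ l4 _ (by omega) k'
        omega
      · exact ab t k k'
      · have := hp.inj _ l4 _ pi (k'.trans (aB t k (k' ▸ mu l' l4)))
        omega) σ
  refine ⟨Z, h0 ▸ hm ▸ z1, z2 _ ?_⟩
  rcases side with k | k
  · exact Or.inr (Or.inr ⟨r, k.le, hr, hz⟩)
  · exact Or.inl (Or.inl ⟨r, r0.le, k.le, hz⟩)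

/-- both terminals in `K` -/
theorem GCpm_one (hc : G.Cub) (hT : G.HT T) (hS : S ⊆ T) (hq : G.Q4 S a b c d) (h2 : 2 < S.card)
    (hN : G.NC S a b) (h : G.GCpm_Gp S (G.ie S c) n v g K At0) (ha : G.ie S a ∈ K)
    (hb : G.ie S b ∈ K) (σ : ZMod 2) :
    ∃ Z : V → Prop, G.GCpm_W (G.ins S) (G.ie S a) (G.ie S b) Z σ ∧ Z (G.ie S c) := by
  obtain ⟨⟨ma, mb, mc, md⟩, nab, nac, nad, nbc, nbd, ncd⟩ := GCpm_t hc hT hS hq h2
  have two := hT.f3 hS hq.card h2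
  obtain ⟨f, hf⟩ : ∃ f : V → V, f = fun x => if x ∈ K then x else v 0 := ⟨_, rfl⟩
  have n0 := h.nK h.a0
  have f1 : ∀ x ∈ K, f x = x := fun x hx => by rw [hf]; exact if_pos hx
  have f3 : ∀ x, x ∉ K → f x = v 0 := fun x hx => by rw [hf]; exact if_neg hx
  have f2 : ∀ x, x ∉ K → f x ∉ K := fun x hx => f3 x hx ▸ n0
  obtain ⟨m, w, k, p1, p2, p3, p4⟩ := pth_through (G := G.GCpm_ctr f) (G.ins S) a nab nac.symm
    nbc.symm fun M hM hzM => by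
      obtain ⟨q, q1, q2⟩ := GCpm_small hM hzM nac
      by_cases hq : q ∈ K
      · by_cases hq' : G.ie S a = q
        · exact Or.inr (f1 _ hb ▸ h.rb hc two f1 f2 q2 q1 hq mb fun k => nab (hq'.trans k.symm))
        · exact Or.inl (f1 _ ha ▸ h.rb hc two f1 f2 q2 q1 hq ma hq')
      · exact Or.inl (h.ra f1 q2 hq ha)
  have hw : ∀ i ≤ m, w i ∈ K ∨ w i = v 0 := fun i hi => by
    rcases hi.eq_or_lt with rfl | hi
    · exact Or.inl (p3 ▸ hb)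
    obtain ⟨x, hx⟩ := GCpm_im p1 hi
    exact (em (x ∈ K)).imp (fun k => hx ▸ (f1 x k).symm ▸ k) fun k => hx ▸ f3 x k
  obtain ⟨s, s1, s2⟩ := mem_pv.1 p4
  by_cases hr : ∃ r ≤ m, w r = v 0
  swap
  · have hw' : ∀ i ≤ m, w i ∈ K := fun i hi => (hw i hi).resolve_right fun k => hr ⟨i, hi, k⟩
    obtain ⟨u, u1, -, u3, -⟩ := GCpm_lift2 p1
      (Nat.pos_of_ne_zero fun k => nab (p2 ▸ p3 ▸ k ▸ rfl)) f1 f2 fun i _ hi => hw' i hi.le
    have u4 : ∀ i ≤ m, u i = w i := fun i hi => u3 i hi (hw' i hi)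
    refine GCpm_fan hc hT hS hq h2 hN h.cyc h.odd u1 ((u4 0 (Nat.zero_le _)).trans p2)
      ((u4 m le_rfl).trans p3) s1 ((u4 s s1).trans s2) (disjoint_right.2 fun x hx => ?_) σ
    obtain ⟨i, hi, rfl⟩ := mem_pv.1 hx
    exact (h.sp.2.1 _ (u4 i hi ▸ hw' i hi)).2
  obtain ⟨r, r1, r2⟩ := hr
  have r0 : 0 < r := Nat.pos_of_ne_zero fun k => n0 (r2 ▸ k ▸ p2 ▸ ha)
  have r3 : r < m := lt_of_le_of_ne r1 fun k => n0 (r2 ▸ k ▸ p3 ▸ hb)
  have r4 : s ≠ r := fun k => n0 (r2 ▸ k ▸ s2 ▸ h.sp.1)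
  have hw' : ∀ i ≤ m, i ≠ r → w i ∈ K := fun i hi ne => (hw i hi).resolve_right fun k =>
    ne (p1.inj i hi r r1 (k.trans r2.symm))
  obtain ⟨x, U, sx, x1, x2, x3, x4, x5⟩ := h.half (Pth_init p1 r1) r0 f1 f2
    (fun i hi => hw' i (by omega) (by omega)) (r2 ▸ n0)
  obtain ⟨y, U', sy, y1, y2, y3, y4, y5⟩ := h.half (Pth_init p1.rev (Nat.sub_le m r)) (by omega)
    f1 f2 (fun i hi => hw' _ (by omega) (by omega)) (by
      simp only [Nat.sub_sub_self r1]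
      exact r2 ▸ n0)
  simp only [Nat.sub_zero, show m - 1 - (m - r - 1) = r by omega] at y1 y4 y5
  have xy : x ≠ y := fun e => by
    have := p1.einj r3 (by omega : r - 1 < m) (GCpm_third hc h.cyc ((h.hA x).1 x2).1
      (ins_sub_A (p1.mem _ (by omega))) (ins_sub_A (p1.mem _ r3)) x5 y5 x4 (e ▸ y4))
    omega
  obtain ⟨Z, z1, z2⟩ := GCpm_join h.cyc h.odd x1 y1.rev ((h.hA x).1 x2).1 ((h.hA y).1 y2).1
    (fun t p q => ((x3 t).1 p).resolve_right fun ⟨i, hi, e⟩ =>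
      (h.sp.2.1 t (e ▸ hw' i (by omega) (by omega))).2 q)
    (fun t p q => ((y3 t).1 p).resolve_right fun ⟨i, hi, e⟩ =>
      (h.sp.2.1 t (e ▸ hw' (m - i) (by omega) (by omega))).2 q)
    (fun t p q => by
      rcases (x3 t).1 p with e | ⟨i, hi, e⟩ <;> rcases (y3 t).1 q with e' | ⟨i', hi', e'⟩
      · exact xy (e.symm.trans e')
      · exact h.nK x2 (e ▸ e' ▸ hw' (m - i') (by omega) (by omega))
      · exact h.nK y2 (e' ▸ e ▸ hw' i (by omega) (by omega))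
      · have := p1.inj i (by omega) (m - i') (by omega) (e.trans e'.symm)
        omega) σ
  refine ⟨Z, p2 ▸ p3 ▸ z1, z2 _ ?_⟩
  by_cases k : s < r
  · exact Or.inl ((x3 _).2 (Or.inr ⟨s, k, s2⟩))
  · exact Or.inr ((y3 _).2 (Or.inr ⟨m - s, by omega, by
      simp only [Nat.sub_sub_self s1]
      exact s2⟩))

end aux

/-- the case that `S - tc` is balanced -/
theorem cpm_bal (hc : G.Cub) (hT : G.HT T) (hS : S ⊆ T) (hu : G.US S) (hq : G.Q4 S a b c d)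
    (hN : G.NC S a b) (hB : G.Bal (G.ins (S.erase (G.ie S c)))) (σ : ZMod 2) :
    ∃ n v g, G.Pth (G.ins S) n v g ∧ v 0 = G.ie S a ∧ v n = G.ie S b ∧
      (G.ie S c ∈ pv n v ∨ G.ie S d ∈ pv n v) ∧ G.par (pe n g) = σ := by
  have h2 : 2 < S.card := lt_of_lt_of_le (by omega) (hT.us_card hc hS hu)
  obtain ⟨⟨ma, mb, mc, md⟩, nab, nac, nad, nbc, nbd, ncd⟩ := GCpm_t hc hT hS hq h2
  obtain ⟨p, hp⟩ := hB
  by_cases k : p (G.ie S a) + p (G.ie S b) = σ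
  · obtain ⟨n, v, g, h3, h4, h5, h6⟩ := GCpm_thru2 hc hT hS hq h2 hN
    refine ⟨n, v, g, h3.mono fun i hi => ins_mono (erase_subset _ _) (h3.mem i hi), h4, h5,
      Or.inr h6, ?_⟩
    have h7 := h3.od.par_eq p
    rw [sum_eq_zero fun e he => hp e (h3.pe_sub he), h4, h5] at h7
    linear_combination k - h7 - z2_add_self (p (G.ie S a)) - z2_add_self (p (G.ie S b))
  · obtain ⟨n, v, g, h3, h4, h5, h6⟩ :=
      GCpm_thru hc (hT.f3 hS hq.card h2) ma mb mc nab nac.symm nbc.symm a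
    refine ⟨n, v, g, h3, h4, h5, Or.inl h6, ?_⟩
    obtain ⟨i, hi, h7⟩ := mem_pv.1 h6
    rw [GCpm_sign hc hT hS hu.2 hq.mem.2.2.1 hp h3
      (Nat.pos_of_ne_zero fun k => nac (h4 ▸ h7 ▸ k ▸ rfl))
      (lt_of_le_of_ne hi fun k => nbc (h5 ▸ h7 ▸ k ▸ rfl)) h7, h4, h5]
    exact (by decide : ∀ x y : ZMod 2, ¬ x = y → x + 1 = y) _ _ k

/-- The structure lemma: an odd circuit `D` avoiding `tc` and the component `K` of `tc` in the
rest, such that every component of `S - K - (attachments of K)` has at most two edges to the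
attachments.  `At0` is the set of vertices of `D` with an edge to `K`. -/
theorem cpm_gap (hc : G.Cub) (hT : G.HT T) (hS : S ⊆ T) (hq : G.Q4 S a b c d) (h2 : 2 < S.card)
    (hB : ¬ G.Bal (G.ins (S.erase (G.ie S c)))) :
    ∃ n v g K At0, G.Cyc (G.ins S) n v g ∧ ∑ i ∈ range (n + 1), G.n (g i) = 1 ∧
      G.ie S c ∉ pv n v ∧ K = G.cmp (S \ pv n v) (G.ie S c) ∧
      (∀ x, x ∈ At0 ↔ x ∈ pv n v ∧ ∃ e ∈ G.cut K, G.At e x) ∧ v 0 ∈ At0 ∧
      ∀ i ≤ n, ∀ j ≤ n, ∀ l, i < l → l < j → v l ∈ At0 → v i ∉ At0 → v j ∉ At0 →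
        ¬ G.Rch (G.ins ((S \ K) \ At0)) (v i) (v j) := by
  exact GCpm_gap hc hT hS (hT.f3 hS hq.card h2) (Spl_ie hq.mem.2.2.1) hB

/-- the case that `S - tc` is unbalanced -/
theorem cpm_unb (hc : G.Cub) (hT : G.HT T) (hS : S ⊆ T) (hq : G.Q4 S a b c d) (h2 : 2 < S.card)
    (hN : G.NC S a b) (hB : ¬ G.Bal (G.ins (S.erase (G.ie S c)))) (σ : ZMod 2) :
    ∃ n v g, G.Pth (G.ins S) n v g ∧ v 0 = G.ie S a ∧ v n = G.ie S b ∧
      G.ie S c ∈ pv n v ∧ G.par (pe n g) = σ := by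
  obtain ⟨⟨ma, mb, mc, md⟩, nab, nac, nad, nbc, nbd, ncd⟩ := GCpm_t hc hT hS hq h2
  obtain ⟨n, v, g, K, At0, g1, g2, g3, g4, g5, g6, g7⟩ := cpm_gap hc hT hS hq h2 hB
  have h : G.GCpm_Gp S (G.ie S c) n v g K At0 := ⟨g1, g2, mc, g3, g4, g5, g6, g7⟩
  have two := hT.f3 hS hq.card h2
  suffices k : ∃ Z : V → Prop, G.GCpm_W (G.ins S) (G.ie S a) (G.ie S b) Z σ ∧ Z (G.ie S c) by
    obtain ⟨Z, ⟨n, v, g, k1, k2, k3, k4, k5⟩, k6⟩ := k
    exact ⟨n, v, g, k1, k2, k3, (k4 _).2 k6, k5⟩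
  have ya : G.ie S a ∉ K → G.ie S a ∈ (S \ K) \ At0 := fun k =>
    mem_sdiff.2 ⟨mem_sdiff.2 ⟨ma, k⟩, h.term hc hq.mem.1⟩
  have yb : G.ie S b ∉ K → G.ie S b ∈ (S \ K) \ At0 := fun k =>
    mem_sdiff.2 ⟨mem_sdiff.2 ⟨mb, k⟩, h.term hc hq.mem.2.1⟩
  by_cases ha : G.ie S a ∈ K <;> by_cases hb : G.ie S b ∈ K
  · exact GCpm_one hc hT hS hq h2 hN h ha hb σ
  · exact h.two' hc two ha nac.symm (yb hb) σ
  · obtain ⟨Z, z1, z2⟩ := h.two' hc two hb nbc.symm (ya ha) σ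
    exact ⟨Z, z1.rev, z2⟩
  refine GCpm_three h hc two (ya ha) (yb hb) (fun k => ?_) σ
  have k0 := (h.reg hc two (ya ha)).1
  obtain ⟨k1, k2, -, -⟩ := cmp_spec (G := G) (ya ha)
  generalize G.cmp ((S \ K) \ At0) (G.ie S a) = Z at k k0 k1 k2
  have c1 : G.ie S c ∈ S \ Z :=
    mem_sdiff.2 ⟨mc, fun k => (mem_sdiff.1 (mem_sdiff.1 (k2 k)).1).2 h.sp.1⟩
  have c2 : v 0 ∈ S \ Z :=
    mem_sdiff.2 ⟨GCpm_pv g1 ((g5 _).1 g6).1, fun k => (mem_sdiff.1 (k2 k)).2 g6⟩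
  have h5 := hN.three hc hT hS hq h2 (k2.trans (sdiff_subset.trans sdiff_subset)) ⟨_, k1⟩
    (fun k => (mem_sdiff.1 c1).2 (k.ge mc)) (fun k => nac (mem_singleton.1 (k.le k1)))
    (fun k => nad (mem_singleton.1 (k.le k1)))
    (fun k => g3 (mem_singleton.1 (k.le c2) ▸ ((g5 _).1 g6).1))
    (fun k => ncd (mem_singleton.1 (k.le c1)))
  rw [iv, if_neg (not_not.2 (iff_of_true k1 k))] at h5
  omega

theorem cpm (hc : G.Cub) (hT : G.HT T) (hS : S ⊆ T) (hu : G.US S) (hq : G.Q4 S a b c d)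
    (hN : G.NC S a b) (σ : ZMod 2) :
    ∃ n v g, G.Pth (G.ins S) n v g ∧ v 0 = G.ie S a ∧ v n = G.ie S b ∧
      (G.ie S c ∈ pv n v ∨ G.ie S d ∈ pv n v) ∧ G.par (pe n g) = σ := by
  by_cases hB : G.Bal (G.ins (S.erase (G.ie S c)))
  · exact cpm_bal hc hT hS hu hq hN hB σ
  · obtain ⟨n, v, g, h1, h2, h3, h4, h5⟩ := cpm_unb hc hT hS hq
      (lt_of_lt_of_le (by omega) (hT.us_card hc hS hu)) hN hB σ
    exact ⟨n, v, g, h1, h2, h3, Or.inl h4, h5⟩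

end SG

end Pool.Agent.Work.MP_8c679b_co
end

-- merged part: Pool.Agent.Work.MP_8c679b_co.Six.KAb
section
/-!
Absorbing a piece; passes of both signs of a piece.
-/

set_option autoImplicit false

namespace Pool.Agent.Work.MP_8c679b_co

open Finset

namespace SG

variable {V E : Type} [Fintype V] [DecidableEq V] [DecidableEq E] {G : SG V E}
  {T S W X : Finset V} {a b c d : E} {Bs Ds : Finset (Finset V)}

theorem KAb_nt {e : E} (he : e ∈ G.cut S) (h : G.ie S e ∈ X) : e ∉ G.tch (S \ X) := fun k =>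
  (mem_sdiff.1 ((cut_of_sub sdiff_subset he k).2 ▸ ie_mem k)).2 h

theorem KAb_in {e : E} (hX : X ⊆ S) (he : e ∈ G.cut S) (h : G.ie S e ∈ X) :
    e ∈ G.cut X ∧ G.ie X e = G.ie S e :=
  cut_of_sub hX he (Cut_tch (mem_cut.1 he).1 ie_at h)

theorem KAb_part (hW : W ⊆ S \ X) (h : G.crs (G.ins (S \ X)) W = ∅) {e : E} (he : e ∈ G.cut W) :
    e ∈ G.tch X ∨ (e ∈ G.cut S ∧ e ∈ G.tch W) := by
  refine or_iff_not_imp_left.2 fun k => ⟨?_, cut_sub_tch he⟩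
  refine (mem_tch_iff.1 (tch_mono (hW.trans sdiff_subset) (cut_sub_tch he))).resolve_left
    fun k1 => notMem_empty e (h ▸ mem_crs.2 ⟨?_, (mem_cut.1 he).2⟩)
  obtain ⟨k2, k3, k4⟩ := mem_ins.1 k1
  exact mem_ins.2 ⟨k2, mem_sdiff.2 ⟨k3, fun k5 => k (mem_tch.2 ⟨k2, Or.inl k5⟩)⟩,
    mem_sdiff.2 ⟨k4, fun k5 => k (mem_tch.2 ⟨k2, Or.inr k5⟩)⟩⟩

omit [Fintype V] in
theorem KAb_sg {n j : ℕ} {w : ℕ → Finset V} (hj : j ≤ n) (hw : w j ∈ Bs) (x : ZMod 2) :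
    ∃ σ : ℕ → ZMod 2, (∀ i, (if w i ∈ Bs then σ i else 0) = σ i) ∧
      ∑ i ∈ range (n + 1), σ i = x := by
  refine ⟨fun i => if i = j then x else 0, fun i => ?_, ?_⟩
  · by_cases k : i = j
    · rw [if_pos (k ▸ hw)]
    · simp only [if_neg k, ite_self]
  · rw [sum_ite_eq', if_pos (mem_range.2 (Nat.lt_succ_of_le hj))]

theorem KAb_c {J : Finset E} (hB : G.Bx G.AU S J Bs) (hc' : c ∈ G.cut S) (hJ : c ∉ J) {n : ℕ}
    {w : ℕ → Finset V} (h1 : {G.ie S c} ∈ pv n w) (h2 : ∀ i ≤ n, w i ∉ Bs → w i ⊆ X) :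
    G.ie S c ∈ X := by
  obtain ⟨i, hi, e⟩ := mem_pv.1 h1
  exact h2 i hi (fun k => hB.not_mem k hc' hJ ie_at (e ▸ mem_singleton_self _))
    (e ▸ mem_singleton_self _)

/-- HINT: Balanced: `kus_bal`, `mink`, `pure_uu` with the live edges `a, b`, `HT.abs_free` on the
two parts of the rest, `Abs0.join2` (live set `tch (vs C)`), `Abs0.seq`.
Unbalanced, boxes for `J = ∅` (`HT.boxes`).  No box: `oddc` through `tc` (`HT.f3`), `pure_odd`,
`HT.abs_free`, `fina`, `Bx.free`.  Boxes: `fanbox` at `tc`, `trk_abs` with `Ds = ∅`, the sign at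
one box chosen for `Rl.cl_odd` (`Ncl.tt`), `Fo.vd0`, `CS` of the rest, `fin_abs`, `tg_empty`. -/
theorem abp (hc : G.Cub) (hT : G.HT T) (hS : S ⊆ T) (hI : G.IHK S) : G.ABp S := by
  intro h2 a b c d hq hN
  obtain ⟨ha, hb, hc', hd'⟩ := hq.mem
  have hL : ({a, b} : Finset E) ⊆ G.cut S := insert_subset ha (singleton_subset_iff.2 hb)
  have hq' : ∀ e ∈ G.cut S, e ∈ ({a, b} : Finset E) ∨ e = c ∨ e = d := fun e he => by
    rw [hq.1] at he
    simpa only [mem_insert, mem_singleton, or_assoc] using he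
  have hdead : ∀ X, G.ie S c ∈ X → ∀ e ∈ G.cut S, e ∈ G.tch (S \ X) →
      e ∈ ({a, b} : Finset E) ∨ e = d := fun X hX e he k =>
    (hq' e he).imp_right fun k1 => k1.resolve_left fun k2 => KAb_nt hc' hX (k2 ▸ k)
  by_cases hU : G.Bal (G.ins S)
  · obtain ⟨C, h1, cC, h3, h4, Y, h5, h6, h7, h8⟩ := mink hc hT hS hq h2 hN
    obtain ⟨hA, hZ⟩ := sub_ins_iff.1 h1
    have h9 : ∀ e ∈ ({a, b} : Finset E), G.ie S e ∈ G.vs C := fun e he => by
      rcases mem_insert.1 he with rfl | he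
      exacts [h3, mem_singleton.1 he ▸ h4]
    have k0 : ∀ e ∈ ({a, b} : Finset E), e ∈ G.tch (G.vs C) := fun e he =>
      cut_sub_tch (KAb_in hZ (hL he) (h9 e he)).1
    obtain ⟨O1, k1⟩ := hT.abs_free (h5.trans (sdiff_subset.trans hS))
    obtain ⟨O2, k2⟩ := hT.abs_free (W := (S \ G.vs C) \ Y)
      (sdiff_subset.trans (sdiff_subset.trans hS))
    have k3 := (Abs0.join2 (L := G.tch (G.vs C)) h5 h6 k1 k2 c d
      (fun e he => (KAb_part h5 h6 he).elim Or.inl fun k => (hq' e k.1).imp (k0 e)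
        fun k' => k'.resolve_right fun k4 => h7 (k4 ▸ k.2))
      fun e he => (KAb_part sdiff_subset ((crs_sdiff h5).trans h6) he).elim Or.inl fun k =>
        (hq' e k.1).imp (k0 e) fun k' => k'.resolve_left fun k4 => h8 (k4 ▸ k.2)).1
    have k4 := (k3.seq (L := {a, b}) (pure_uu (L := {a, b}) hA cC hc (KAb_in hZ ha h3).1
      (mem_insert_self _ _) (KAb_in hZ hb h4).1 (mem_insert_of_mem (mem_singleton_self _)) hq.2.1)
      sdiff_disjoint (fun e he _ => KAb_nt (hL he) (h9 e he)) (fun e he _ => Or.inl he)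
      fun e he _ => he).1
    rw [sdiff_union_of_subset hZ, Set.empty_union, Set.empty_union] at k4
    exact ⟨_, kus_bal hU ▸ k4⟩
  have two := hT.f3 hS hq.card h2
  have hcS := ie_mem (cut_sub_tch hc')
  obtain ⟨Bs, hB⟩ := hT.boxes hc hS (J := ∅) (Nat.zero_le _)
  rcases Bs.eq_empty_or_nonempty with rfl | hne
  · obtain ⟨C, h1, cC, oC, h3⟩ := oddc hc two hU hcS
    obtain ⟨hA, hZ⟩ := sub_ins_iff.1 h1
    obtain ⟨O1, k1⟩ := hT.abs_free (W := S \ G.vs C) (sdiff_subset.trans hS)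
    refine ⟨_, (fina (pure_odd hA cC oC).2.2 hZ hL k1 d (hdead _ h3) fun t ht => Or.inr ?_).1⟩
    obtain ⟨e, k2, k3, -⟩ := hB.free t ht
    exact ⟨e, k2, cut_sub_tch k3, fun k => not_ins_of_cut k3 (ins_mono hZ k),
      fun k => not_ins_of_cut k3 (ins_mono sdiff_subset k)⟩
  · obtain ⟨n, w, g, h1, h3, j, hj, hw⟩ := fanbox hc hT hS two hB hne hcS hc' ie_at
    obtain ⟨σ, h4, h5⟩ := KAb_sg hj hw (1 + ∑ i ∈ range (n + 1), G.n (es (g n) (g n) n g i))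
    obtain ⟨X, O, K, Ds', k1, -, k2, k3, k4, k5⟩ := trk_abs (Ds := ∅) hc hT hS hB vd_empty
      (fun B k => (hI B (hB.ssub k hc' (notMem_empty _))).2 (hB.1 B k).1)
      (fun ρ k => absurd k (notMem_empty _)) hL (by rwa [union_empty]) σ fun Rs k =>
        Rl.cl_odd (s := σ) (fun i hi => h4 i ▸ (k i hi).tt.2 (notMem_empty _)) (by
          rw [sum_add_distrib, h5, add_assoc, z2_add_self, add_zero])
    obtain ⟨ε, k6⟩ := (hI _ (sdiff_ssubset k2 k3)).1 Ds' (k5.vd0 (empty_subset _))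
    obtain ⟨O', -, k7⟩ := fin_abs hB k1 k2 hL k5 k6 d
      (hdead _ (KAb_c hB hc' (notMem_empty _) h3 k4))
    exact ⟨O', tg_empty (G := G) ▸ k7⟩

/-- HINT: boxes for `J = {a, b}`.  No box: `cpm`, `Pth.pot`, `Pth.pp`, `pure_p`, `HT.abs_free`,
`fin_free`, `Q4.dead`.  Boxes: `o3`, `trk_open` with `j = n + 1` and the sign at one box chosen so
that `Rl.sg` is `σ` (`Rl.ch_p`, `Ncl.tt`), `fin_open`. -/
theorem psn (hc : G.Cub) (hT : G.HT T) (hS : S ⊆ T) (hI : G.IHK S) : G.PSN S := by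
  intro hu a b c d hq hN σ
  obtain ⟨ha, hb, hc', hd'⟩ := hq.mem
  have h2 : 2 < S.card := lt_of_lt_of_le (by decide) (hT.us_card hc hS hu)
  have hJ : c ∉ ({a, b} : Finset E) := fun k => (mem_insert.1 k).elim hq.2.2.1.symm
    fun k' => hq.2.2.2.2.1 (mem_singleton.1 k').symm
  obtain ⟨Bs, hB⟩ := hT.boxes hc hS (J := {a, b}) card_le_two
  rcases Bs.eq_empty_or_nonempty with rfl | hne
  · obtain ⟨n, v, g, h1, h3, h4, h5, h6⟩ := cpm hc hT hS hu hq hN σ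
    have hX := h1.sub_of_ins (h3 ▸ ie_mem (cut_sub_tch ha))
    have k1 : G.ie S a ∈ pv n v := mem_pv.2 ⟨0, Nat.zero_le _, h3⟩
    have k2 : G.ie S b ∈ pv n v := mem_pv.2 ⟨n, le_rfl, h4⟩
    obtain ⟨k3, k4⟩ := KAb_in hX ha k1
    obtain ⟨k5, k6⟩ := KAb_in hX hb k2
    obtain ⟨p, k7, -⟩ := h1.pot
    have k8 := h1.pp ins_sub_A
    rw [h3, h4, ← k4, ← k6] at k8
    have k9 := pure_p (L := ∅) k8 k3 k5 hq.2.1 k7
    rw [← k8.par k7, h6] at k9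
    obtain ⟨O1, l1⟩ := hT.abs_free (W := S \ pv n v) (sdiff_subset.trans hS)
    rcases h5 with h5 | h5
    · exact ⟨_, (fin_free ha hb hB k9 hX l1 d (hq.dead k1 k2 h5)).1⟩
    · exact ⟨_, (fin_free ha hb hB k9 hX l1 c (hq.swap2.dead k1 k2 h5)).1⟩
  · obtain ⟨n, w, g, h1, h3, h4, h5, j, hj, hw⟩ := o3 hc hT hS hq h2 hN hB hne
    obtain ⟨σ', h6, h7⟩ := KAb_sg hj hw (σ + ∑ i ∈ range n, G.n (es a b n g (i + 1)))
    obtain ⟨X, O, K, k1, k2, k3⟩ := trk_open (j := n + 1) (Xj := ∅) (Oj := ∅) (Kj := ∅)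
      (Cj := fun _ => True) (C0 := Rl.P σ) hc hT hS ha hb hq.2.1 hB
      (fun B k => (hI B (hB.ssub k hc' hJ)).2 (hB.1 B k).1) h1 h3 h4 σ'
      (fun k => absurd k (Nat.not_succ_le_self n)) fun Rs k _ => by
        have k4 := Rl.ch_p (τ := fun i => G.n (es a b n g i)) (s := σ') (Rs := Rs) (n := n)
          fun i hi => h6 i ▸ (k i hi (by omega)).tt.2 (notMem_empty _)
        rwa [Rl.sg, h7, add_assoc, z2_add_self, add_zero] at k4
    have k4 := KAb_c hB hc' hJ h5 k2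
    have k5 : ∀ e ∈ G.cut S, e ∈ G.cut X → G.ie S e ∈ X := fun e he k =>
      (cut_of_sub k3.1 he (cut_sub_tch k)).2 ▸ ie_mem (cut_sub_tch k)
    exact fin_open hc hT hS ha hb hB k1 k3 (hI _ (sdiff_ssubset k3.1 ⟨_, k4⟩)).1 d
      (hq.dead (k5 a ha k1.cut.1) (k5 b hb k1.cut.2.1) k4)

theorem IHK.mono (h : G.IHK W) (hS : S ⊆ W) : G.IHK S := by
  exact fun W' hW' => h W' (hW'.trans_subset hS)

end SG

end Pool.Agent.Work.MP_8c679b_co
end

-- merged part: Pool.Agent.Work.MP_8c679b_co.Six.KAll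
section
/-!
The killing layer.
-/

set_option autoImplicit false

namespace Pool.Agent.Work.MP_8c679b_co

open Finset

namespace SG

variable {V E : Type} [Fintype V] [DecidableEq V] [DecidableEq E] {G : SG V E}
  {T S W X : Finset V} {a b c d : E} {Bs Ds : Finset (Finset V)}

theorem KAll_tlp (hc : G.Cub) (hT : G.HT T) (hW : W ⊆ T) (hI : G.IHK W) : G.TLp W :=
  tlp hc hT hW fun S hS => swp hc hT (hS.subset.trans hW) fun S' hS' =>
    have h1 : S' ⊆ W := hS'.trans hS.subset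
    ⟨abp hc hT (h1.trans hW) (hI.mono h1), psn hc hT (h1.trans hW) (hI.mono h1),
      bp hc hT (h1.trans hW)⟩

/-- HINT: strong induction on `W.card`; `IHK.mono`, `abp`, `psn`, `bp`, `hdp`, `swp`, `tlp`,
`ps_step`, `cs_step`. -/
theorem kill (hc : G.Cub) (hT : G.HT T) : G.KILL T := by
  intro W
  induction W using Finset.strongInduction with
  | H W ih =>
    intro hW
    have hI : G.IHK W := fun S hS => ih S hS (hS.subset.trans hW)
    exact ⟨cs_step hc hT hW hI, fun hu => ps_step hc hT hW hu (fun S hS =>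
      ⟨psn hc hT (hS.trans hW) (hI.mono hS), bp hc hT (hS.trans hW), hdp hc hT (hS.trans hW)⟩)
      (KAll_tlp hc hT hW hI)⟩

theorem kb (hc : G.Cub) (hT : G.HT T) : G.KB T := by
  intro S hS
  have hK := kill hc hT
  have hI : G.IHK S := fun W hW => hK W (hW.subset.trans hS)
  exact ⟨bp hc hT hS, hdp hc hT hS, dbp hc hT hS, abp hc hT hS hI, psn hc hT hS hI,
    KAll_tlp hc hT hS hI, (hK S hS).1, (hK S hS).2⟩

end SG

end Pool.Agent.Work.MP_8c679b_co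
end

-- merged part: Pool.Agent.Work.MP_8c679b_co.Six.PFpn
section
/-!
Complete passes of both parities of a piece.
-/

set_option autoImplicit false

namespace Pool.Agent.Work.MP_8c679b_co

open Finset

namespace SG

variable {V E : Type} [Fintype V] [DecidableEq V] [DecidableEq E] {G : SG V E}
  {T S W X : Finset V} {a b c d : E} {Bs Ds : Finset (Finset V)}

theorem IHP.mono (h : G.IHP W) (hS : S ⊆ W) : G.IHP S := by
  exact fun W' h' => h W' (lt_of_lt_of_le h' hS)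

/-- a path through the terminal of `c` and a solution of the rest in a side without boxes.
HINT: `Pth.pot`, `Pth.pp`, `pure_p`, `Pp.st`, `fin_free`, `Q4.dead`. -/
theorem fpn_path (hq : G.Q4 S a b c d) (hB : G.Bx G.AU S {a, b} ∅) {n : ℕ} {v : ℕ → V}
    {g : ℕ → E} (hp : G.Pth (G.ins S) n v g) (h0 : v 0 = G.ie S a) (hn : v n = G.ie S b)
    (hm : G.ie S c ∈ pv n v ∨ G.ie S d ∈ pv n v) {ε : ZMod 2} (h : G.CSp (S \ pv n v) ∅ ε) :
    ∃ O, G.par (O ∩ G.ins S) = ε + G.par (pe n g) ∧ G.Pas0 S O a b ∅ (G.Kus S) Rl.PX := by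
  obtain ⟨ha, hb, -, -⟩ := hq.mem
  have hU : pv n v ⊆ S := hp.sub_of_ins (h0 ▸ ie_mem (cut_sub_tch ha))
  have ia : G.ie S a ∈ pv n v := mem_pv.2 ⟨0, Nat.zero_le _, h0⟩
  have ib : G.ie S b ∈ pv n v := mem_pv.2 ⟨n, le_rfl, hn⟩
  obtain ⟨a1, a2⟩ := cut_of_sub hU ha (Cut_tch (mem_cut.1 ha).1 ie_at ia)
  obtain ⟨b1, b2⟩ := cut_of_sub hU hb (Cut_tch (mem_cut.1 hb).1 ie_at ib)
  have hpp := hp.pp ins_sub_A
  rw [h0, hn, ← a2, ← b2] at hpp
  obtain ⟨p, hp1, -⟩ := hp.pot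
  obtain ⟨O', h1, h2⟩ := h
  obtain ⟨d0, hd⟩ : ∃ d0, ∀ e ∈ G.cut S, e ∈ G.tch (S \ pv n v) → e = d0 :=
    hm.elim (fun k => ⟨d, hq.dead ia ib k⟩) fun k => ⟨c, hq.swap2.dead ia ib k⟩
  obtain ⟨h3, h4⟩ := fin_free ha hb hB
    ((pure_p hpp a1 b1 hq.2.1 hp1).imp (C' := Rl.PX) fun _ k => Or.inl ⟨_, k⟩) hU h2 d0 hd
  exact ⟨_, by rw [h4, h1, (hpp.st a1 b1 hq.2.1).2], h3⟩

/-- HINT: boxes for `J = {a, b}`.  No box: take the path of sign `ε` from `cpm`; if its rest has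
`FH` or is balanced (`nu_bal`) the rest has a solution of parity zero; otherwise `isor` (with
`Q4.swap2` if the path contains the terminal of `d`) gives paths of both signs whose rests have
the same `nu`.  Boxes: `o3`, `trk_hole`, `exists_q4`, `context` with `Ds = ∅`, `tg_empty`. -/
theorem fpn (hc : G.Cub) (hT : G.HT T) (hS : S ⊆ T) (hK : G.KB T) (hI : G.IHP S) : G.FPN S := by
  intro hu a b c d hq hN ε
  have h2 : 2 < S.card := lt_of_lt_of_le (by decide) (hT.us_card hc hS hu)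
  obtain ⟨ha, hb, hcm, -⟩ := hq.mem
  obtain ⟨Bs, hB⟩ := hT.boxes hc hS (J := {a, b}) card_le_two
  rcases Bs.eq_empty_or_nonempty with rfl | hne
  · have hR : ∀ {n : ℕ} {v : ℕ → V}, v 0 = G.ie S a → G.CP (S \ pv n v) := fun {n v} h0 =>
      (hI _ (Finset.ssubset_iff_subset_ne.2 ⟨sdiff_subset, fun k => (mem_sdiff.1
        (k.symm ▸ ie_mem (cut_sub_tch ha) : G.ie S a ∈ S \ pv n v)).2
          (mem_pv.2 ⟨0, Nat.zero_le _, h0⟩)⟩)).1
    obtain ⟨n, v, g, hp, h0, hn, hm, hs⟩ := cpm hc hT hS hu hq hN ε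
    by_cases hF : G.FH (S \ pv n v) ∨ G.Bal (G.ins (S \ pv n v))
    · obtain ⟨O, h3, h4⟩ := fpn_path hq hB hp h0 hn hm
        (hR h0 ∅ vd_empty 0 (hF.imp_right fun k => (nu_bal k).1.symm))
      exact ⟨O, by rw [h3, zero_add, hs], h4⟩
    obtain ⟨n', v', g', h3, h4⟩ : ∃ (n' : ZMod 2 → ℕ) (v' : ZMod 2 → ℕ → V)
        (g' : ZMod 2 → ℕ → E), (∀ ε, G.Pth (G.ins S) (n' ε) (v' ε) (g' ε) ∧ v' ε 0 = G.ie S a ∧
          v' ε (n' ε) = G.ie S b ∧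
          (G.ie S c ∈ pv (n' ε) (v' ε) ∨ G.ie S d ∈ pv (n' ε) (v' ε)) ∧
          G.par (pe (n' ε) (g' ε)) = ε) ∧
        G.nu (S \ pv (n' 0) (v' 0)) = G.nu (S \ pv (n' 1) (v' 1)) := by
      rcases hm with hm | hm
      · obtain ⟨n', v', g', h3, h4⟩ := isor hc hT hS hq h2 hp h0 hn hm (not_or.1 hF).1
          (not_or.1 hF).2
        exact ⟨n', v', g', fun ε => ⟨(h3 ε).1, (h3 ε).2.1, (h3 ε).2.2.1, Or.inl (h3 ε).2.2.2.1,
          (h3 ε).2.2.2.2⟩, h4⟩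
      · obtain ⟨n', v', g', h3, h4⟩ := isor hc hT hS hq.swap2 h2 hp h0 hn hm (not_or.1 hF).1
          (not_or.1 hF).2
        exact ⟨n', v', g', fun ε => ⟨(h3 ε).1, (h3 ε).2.1, (h3 ε).2.2.1, Or.inr (h3 ε).2.2.2.1,
          (h3 ε).2.2.2.2⟩, h4⟩
    have h5 : ∀ η, G.nu (S \ pv (n' 0) (v' 0)) = G.nu (S \ pv (n' η) (v' η)) := fun η => by
      rcases z2 η with rfl | rfl
      exacts [rfl, h4]
    obtain ⟨k1, k2, k3, k4, k5⟩ := h3 (ε - G.nu (S \ pv (n' 0) (v' 0)))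
    obtain ⟨O, h6, h7⟩ := fpn_path hq hB k1 k2 k3 k4 (hR k2 ∅ vd_empty _ (Or.inr (h5 _)))
    exact ⟨O, by rw [h6, k5, add_sub_cancel], h7⟩
  obtain ⟨n, w, g, hp, h0, hn, hm, j, hj, hw⟩ := o3 hc hT hS hq h2 hN hB hne
  have hU : ∀ B ∈ Bs, B ⊆ T ∧ G.US B := fun B k => ⟨(hB.1 B k).2.1.trans hS, (hB.1 B k).1⟩
  obtain ⟨XR, OR, KR, δ, k1, k2, k3, k4, k5, k6, k7, k8⟩ := trk_hole hc hT hS ha hb hq.2.1 hB
    (fun B k => (hK B (hU B k).1).2.2.2.2.2.2.2 (hU B k).2) hp h0 hn hj hw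
  obtain ⟨c', d', hq'⟩ := exists_q4 (hU _ hw).2.1 k4 k5 k6
  have hab : ({a, b} : Finset E) ⊆ G.cut S := insert_subset ha (singleton_subset_iff.2 hb)
  have hcX : c ∈ G.tch XR := by
    obtain ⟨i, hi, h3⟩ := mem_pv.1 hm
    refine Cut_tch (mem_cut.1 hcm).1 (ie_at (X := S)) (k3 i hi (fun k => ?_)
      (h3 ▸ mem_singleton_self _))
    have := hT.us_card hc (hU _ k).1 (hU _ k).2
    rw [h3, card_singleton] at this
    omega
  have hcn : c ∉ ({a, b} : Finset E) := by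
    simp only [mem_insert, mem_singleton, not_or]
    exact ⟨hq.2.2.1.symm, hq.2.2.2.2.1.symm⟩
  obtain ⟨O, h3, h4⟩ := context hc hT hS
    ⟨hab, hab, hB, vd_empty, fun _ k => absurd k (notMem_empty _), hw, hq', k2, k1, k7,
      Or.inl (mem_insert_self _ _), Or.inl (mem_insert_of_mem (mem_singleton_self _)), k8,
      d, fun e he h => by
        rw [hq.1] at he
        simp only [mem_insert, mem_singleton] at he ⊢
        rcases he with k | k | k | k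
        exacts [Or.inl (Or.inl k), Or.inl (Or.inr k), absurd (k ▸ hcX) h, Or.inr k]⟩
    ((hI _ (hB.ssub hw hcm hcn)).2 (hU _ hw).2) (fun W' k => (hI W' k).1) ε
  exact ⟨O, h3, hq.2.1, tg_empty (G := G) (W := S) ▸ h4⟩

end SG

end Pool.Agent.Work.MP_8c679b_co
end

-- merged part: Pool.Agent.Work.MP_8c679b_co.Six.PFp
section
/-!
Passes of both parities of an unbalanced side.
-/

set_option autoImplicit false

namespace Pool.Agent.Work.MP_8c679b_co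

open Finset

namespace SG

variable {V E : Type} [Fintype V] [DecidableEq V] [DecidableEq E] {G : SG V E}
  {T S X0 X1 X2 : Finset V} {a b c d x y u w : E} {p : V → ZMod 2}

theorem PFp_cov {O : Finset E} {K K' : Set (Finset E)} {C : Rl → Prop} (hq : G.Q4 X1 a b u w)
    (h : G.Pas0 X1 O a b ∅ K' C) (hK : ∀ t ∈ K, (∃ t' ∈ K', t' ⊆ t) ∨ u ∈ t) :
    G.Pas0 X1 O a b ∅ K C :=
  h.cov fun t ht => (hK t ht).imp_right fun k => ⟨u, k, cut_sub_tch hq.mem.2.2.1, fun k' =>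
    (h.cut.2.2.2.2 u hq.mem.2.2.1 k').elim hq.2.2.1.symm hq.2.2.2.2.1.symm⟩

theorem PFp_cov1 {O : Finset E} {C : Rl → Prop} (hc : G.Cub) (hT : G.HT T) (hX : X1 ⊆ T)
    (hq : G.Q4 X1 a b u w) (hs : G.Sp X1 a b X0) (hx : G.Q4 X0 a b x y) (hB : G.Bal (G.ins X0))
    (hN : G.NC (X1 \ X0) x y) (h : G.Pas0 X1 O a b ∅ (G.Kus (X1 \ X0)) C) :
    G.Pas0 X1 O a b ∅ (G.Kus X1) C :=
  PFp_cov hq h fun t ht => (hs.cov1 hc hT hX hq hx hB hN t ht).imp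
    (fun k => ⟨t, k, Subset.rfl⟩) fun k => k.1

theorem PFp_seq {Y : Finset V} {O O' : Finset E} {K : Set (Finset E)} {C : Rl → Prop}
    (hx : G.Q4 X0 a b x y) (h1 : G.Abs0 Y O' {x, y} K) (h2 : G.Pas0 X0 O a b ∅ ∅ C)
    (hd : Disjoint Y X0) (ha : a ∉ G.tch Y) (hb : b ∉ G.tch Y) :
    G.Pas0 (Y ∪ X0) (O' ∪ O) a b ∅ K C ∧
      G.par ((O' ∪ O) ∩ G.ins (Y ∪ X0)) = G.par O' + G.par (O ∩ G.ins X0) := by
  have k := h1.seqP (L := ∅) h2 hd ha hb (fun e he => absurd he (notMem_empty _))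
    (fun e he _ => Or.inl (by
      rcases mem_insert.1 he with rfl | he
      · exact cut_sub_tch hx.mem.2.2.1
      · rw [mem_singleton.1 he]
        exact cut_sub_tch hx.mem.2.2.2))
    (fun e he _ => he)
  rwa [Set.union_empty] at k

theorem PFp_far (h : x ∈ G.ins X1) : x ∉ G.tch (X2 \ X1) := fun k => by
  have h' := mem_ins.1 h
  rcases (mem_tch.1 k).2 with k | k
  · exact (mem_sdiff.1 k).2 h'.2.1
  · exact (mem_sdiff.1 k).2 h'.2.2

theorem PFp_z2 : ∀ s t : ZMod 2, s = t ∨ s = t + 1 := by decide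

theorem PFp_z2' : ∀ r s t v o : ZMod 2, o + r = v + 1 → o + s + t = r + s + t + v + 1 := by decide

theorem fp_tl (hL : G.TLp S) (hq : G.Q4 S a b c d) (hX : X1 = S ∨ G.Sp S a b X1)
    (h : ∀ ε, ∃ O, G.par (O ∩ G.ins X1) = ε ∧ G.Pas0 X1 O a b ∅ (G.Kus X1) Rl.PX) :
    ∃ X, G.Rg S X c d ∧ ∀ ε, ∃ O, G.par (O ∩ G.ins X) = ε ∧
      G.Pas0 X O a b ∅ (G.Kp S X c d) Rl.PX := by
  obtain ⟨X, δ, h3, h4⟩ := hL a b c d hq X1 hX
  refine ⟨X, h3, fun ε => ?_⟩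
  obtain ⟨O1, h5, h6⟩ := h (ε - δ)
  obtain ⟨O, h7, h8⟩ := h4 O1 _ h6
  exact ⟨O, by rw [h8, h5, sub_add_cancel], h7⟩

/-- an unbalanced piece after a balanced split.  HINT: `HDp X1`, `Sp.cov1`, `Pas0.cut`. -/
theorem fp_unb (hc : G.Cub) (hT : G.HT T) (hX : X1 ⊆ T) (hK : G.KB T) (hq : G.Q4 X1 a b u w)
    (hs : G.Sp X1 a b X0) (hx : G.Q4 X0 a b x y) (hB : G.Bal (G.ins X0))
    (hN : G.NC (X1 \ X0) x y) (hu : ¬ G.Bal (G.ins (X1 \ X0))) (hF : G.FPN (X1 \ X0))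
    (ε : ZMod 2) : ∃ O, G.par (O ∩ G.ins X1) = ε ∧ G.Pas0 X1 O a b ∅ (G.Kus X1) Rl.PX := by
  obtain ⟨h4, -⟩ := hs.link hc hT hX hq hx
  obtain ⟨p, hp⟩ := id hB
  obtain ⟨Om, h5, h6⟩ := hF ⟨h4.card, hu⟩ x y u w h4 hN (ε - (p (G.ie X0 a) + p (G.ie X0 b) +
    (p (G.ie X0 x) + p (G.ie X0 y)) + (G.n x + G.n y)))
  obtain ⟨O, k, -, k', -⟩ := (hK X1 hX).2.1 hq.card a b X0 x y hs hx p hp Om _ _ h6
  exact ⟨O, by rw [k, h5, add_sub_cancel], PFp_cov1 hc hT hX hq hs hx hB hN (k' fun _ r => r)⟩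

/-- the long pass through two balanced parts.  HINT: `HDp X1` with `BP (X1 \ X0)`, `sgn`,
`Sp.cov1`, `kus_bal`. -/
theorem fp_long (hc : G.Cub) (hT : G.HT T) (hX : X1 ⊆ T) (hK : G.KB T) (hq : G.Q4 X1 a b u w)
    (hs : G.Sp X1 a b X0) (hx : G.Q4 X0 a b x y) (hp : ∀ e ∈ G.ins X0, G.sw p e = 0)
    (hN : G.NC (X1 \ X0) x y) (hB : G.Bal (G.ins (X1 \ X0))) (hu : ¬ G.Bal (G.ins X1)) :
    ∃ O, G.par (O ∩ G.ins X1) = p (G.ie X0 a) + p (G.ie X0 b) + 1 ∧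
      G.Pas0 X1 O a b ∅ (G.Kus X1) Rl.PX := by
  obtain ⟨h4, -, -, -, l1, -, l2⟩ := hs.link hc hT hX hq hx
  obtain ⟨q, hq'⟩ := id hB
  obtain ⟨Om, h5, h6⟩ := (hK _ (sdiff_subset.trans hX)).1 x y u w h4 l1 q hq'
  obtain ⟨O, k, -, k', -⟩ := (hK X1 hX).2.1 hq.card a b X0 x y hs hx p hp Om _ _ h6
  refine ⟨O, ?_, PFp_cov1 hc hT hX hq hs hx ⟨p, hp⟩ hN
    (kus_bal hB ▸ k' fun _ r => Or.inl ⟨_, r⟩)⟩
  rw [k, h5, add_assoc, add_assoc, ← add_assoc (p (G.ie X0 x) + p (G.ie X0 y)),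
    sgn hs.1 l2 hu hp hq']

/-- the short pass.  HINT: `BP X0`, `ABp (X1 \ X0)`, `St.par_bal`, `Abs0.seqP`, `Sp.cov1`. -/
theorem fp_short (hc : G.Cub) (hT : G.HT T) (hX : X1 ⊆ T) (hK : G.KB T) (hq : G.Q4 X1 a b u w)
    (hs : G.Sp X1 a b X0) (hx : G.Q4 X0 a b x y) (hp : ∀ e ∈ G.ins X0, G.sw p e = 0)
    (hN : G.NC (X1 \ X0) x y) (hB : G.Bal (G.ins (X1 \ X0))) (h2 : 2 < (X1 \ X0).card) :
    ∃ O, G.par (O ∩ G.ins X1) = p (G.ie X0 a) + p (G.ie X0 b) ∧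
      G.Pas0 X1 O a b ∅ (G.Kus X1) Rl.PX := by
  obtain ⟨h4, -⟩ := hs.link hc hT hX hq hx
  obtain ⟨-, -, -, -, -, -, hv, -, ha, hb, -⟩ := hs.str hc hT hX hq
  obtain ⟨O, h5, h6⟩ := (hK _ (hs.1.trans hX)).1 a b x y hx hv p hp
  obtain ⟨O', h7⟩ := (hK _ (sdiff_subset.trans hX)).2.2.2.1 h2 x y u w h4 hN
  have k := PFp_seq hx h7 h6 sdiff_disjoint ha hb
  rw [sdiff_union_of_subset hs.1, h7.1.par_bal hB, zero_add, h5] at k
  exact ⟨_, k.2, PFp_cov1 hc hT hX hq hs hx ⟨p, hp⟩ hN (k.1.imp fun _ r => Or.inl ⟨_, r⟩)⟩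

/-- A balanced split, a rung and one more piece `P = X2 \ X1`.
HINT: `piece_pass` for `P`.  First option: `BP X0`, `rung_close` for `X1 \ X0` and `P`,
`Abs0.seqP`.  Second option: `DBp X1` (`Sp.rg`) and `Dbl.close` with the same pass of `P`.  The
two parities differ.  Coverage: `next_cov` for `X1` in `X2`, `Rg.e1` for `X0` in `X1`. -/
theorem fp_rung (hc : G.Cub) (hT : G.HT T) (hX : X2 ⊆ T) (hK : G.KB T) (hq : G.Q4 X2 a b c d)
    (hs : G.Sp X2 a b X1) (hq1 : G.Q4 X1 a b u w) (hN : G.NC (X2 \ X1) u w)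
    (hu : ¬ G.Bal (G.ins X1)) (hs0 : G.Sp X1 a b X0) (hB : G.Bal (G.ins X0))
    (h2 : (X1 \ X0).card ≤ 2) (ε : ZMod 2) :
    ∃ O, G.par (O ∩ G.ins X2) = ε ∧ G.Pas0 X2 O a b ∅ (G.Kus X2) Rl.PX := by
  have h1 := hs.1.trans hX
  have hP : X2 \ X1 ⊆ T := sdiff_subset.trans hX
  obtain ⟨h4, -, -, -, l1, -⟩ := hs.link hc hT hX hq hq1
  obtain ⟨-, -, -, -, -, -, -, -, ha, hb, -⟩ := hs.str hc hT hX hq
  obtain ⟨-, -, ea, eb, -, -, hv, -, ha', hb', -, -, x, y, hx, -⟩ := hs0.str hc hT h1 hq1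
  obtain ⟨h5, ix, iy, -, l2, -⟩ := hs0.link hc hT h1 hq1 hx
  obtain ⟨O2, σ, h6⟩ := piece_pass (hK _ hP).1 (hK _ hP).2.2.2.2.1 h4 l1 hN
  have hr := hs0.rg hc hT h1 hq1 h2
  have cv : ∀ t ∈ G.Kus X2, (u ∈ t ∧ w ∈ t) ∨ t ∈ G.Kus (X2 \ X1) ∨ (c ∈ t ∧ d ∈ t) :=
    fun t ht => (next_cov hc hT hX hq hs hq1 hN t ht).imp_left
      (hr.e1 hc hT h1 hq1 hB (Spl_ne hs0) t)
  obtain ⟨p, hp⟩ := id hB
  rcases PFp_z2 ε (G.par (G.ins (X1 \ X0)) + G.par (O2 ∩ G.ins (X2 \ X1)) + (G.n u + G.n w) +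
    (p (G.ie X0 a) + p (G.ie X0 b))) with rfl | rfl
  · obtain ⟨O', h7, h8⟩ := rung_close hc hT (sdiff_subset.trans h1) hP
      (disjoint_sdiff.mono_left sdiff_subset) h5 h2 l2 (PFp_far ix) (PFp_far iy) h6 fun _ k => k.tt
    obtain ⟨O, h9, h10⟩ := (hK _ (hs0.1.trans h1)).1 a b x y hx hv p hp
    have k := PFp_seq hx h7 h10
      (disjoint_union_left.2 ⟨sdiff_disjoint, sdiff_disjoint.mono_right hs0.1⟩)
      (by rw [tch_union, mem_union]; exact fun k => k.elim ha' ha)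
      (by rw [tch_union, mem_union]; exact fun k => k.elim hb' hb)
    rw [union_right_comm, sdiff_union_of_subset hs0.1, union_sdiff_of_subset hs.1, h8, h9] at k
    refine ⟨_, k.2, PFp_cov hq (k.1.imp fun _ r => Or.inl ⟨_, r⟩) fun t ht => ?_⟩
    rcases cv t ht with m | m | m
    · exact Or.inl ⟨{u, w}, Or.inr rfl, insert_subset m.1 (singleton_subset_iff.2 m.2)⟩
    · exact Or.inl ⟨t, Or.inl m, Subset.rfl⟩
    · exact Or.inr m.1
  · obtain ⟨O1, h7, h8⟩ := (hK _ h1).2.2.1 ⟨hq1.card, hu⟩ a b u w X0 hq1 (Spl_ne hs0) hr p hp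
    obtain ⟨O, h9, h10⟩ := h8.close h6 (fun _ k => k.tt) disjoint_sdiff hq.2.1 ha hb
    rw [union_sdiff_of_subset hs.1] at h9 h10
    refine ⟨O, ?_, PFp_cov hq (h9.imp fun _ r => Or.inr r) fun t ht => ?_⟩
    · rw [h10, ea, eb]
      exact PFp_z2' _ _ _ _ _ h7
    rcases cv t ht with m | m | m
    · exact Or.inl ⟨{u}, Or.inr rfl, singleton_subset_iff.2 m.1⟩
    · exact Or.inl ⟨t, Or.inl m, Subset.rfl⟩
    · exact Or.inr m.1

/-- HINT: `exists_bal`.  No balanced split: `exists_piece`, `FPN`, `fp_tl`.  Otherwise `X0` the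
largest balanced split and `X1` the next one (`exists_next`; it is unbalanced).  `X1 \ X0`
unbalanced: `fp_unb`.  Balanced with more than two vertices: `fp_long`, `fp_short`.  A rung
(`rg_rung`, `HT.rung`): if `X1 = S` this is `E1` (`Sp.rg`, `Rg.e1`, `fp_long`, `BP X0`, `DBp S`),
otherwise `exists_next` for `X1` and `fp_rung`. -/
theorem fp_step (hc : G.Cub) (hT : G.HT T) (hS : S ⊆ T) (hu : G.US S) (hK : G.KB T)
    (hN : ∀ S' ⊆ S, G.FPN S') : G.FP S := by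
  intro a b c d hq
  have hL := (hK S hS).2.2.2.2.2.1
  rcases exists_bal hc hT hS hq with hb | ⟨X0, s0, hB, hm⟩
  · obtain ⟨P, h1, h2, -⟩ := exists_piece hc hT hS hq
    refine Or.inl (fp_tl hL hq h1 ?_)
    rcases h1 with rfl | h1
    · exact hN P Subset.rfl hu a b c d hq h2
    · obtain ⟨-, -, -, -, -, -, -, -, -, -, -, -, x, y, hx, -⟩ := h1.str hc hT hS hq
      exact hN P h1.1 ⟨hx.card, hb P h1⟩ a b x y hx h2
  obtain ⟨-, -, ea, eb, -, -, hv, -, -, -, -, -, x, y, hx, -⟩ := s0.str hc hT hS hq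
  obtain ⟨X1, u, w, h1, h2, h3, h4, h5, -⟩ := exists_next hc hT hS hq s0 hx
  have hX : X1 ⊆ S := h1.elim (fun e => e.subset) fun e => e.1
  have hn : ¬ G.Bal (G.ins X1) := h1.elim (fun e => e ▸ hu.2) fun e => hm X1 e (Spl_ss h2)
  by_cases hB' : G.Bal (G.ins (X1 \ X0))
  swap
  · exact Or.inl (fp_tl hL hq h1 (fp_unb hc hT (hX.trans hS) hK h3 h2 hx hB h5 hB'
      (hN _ (sdiff_subset.trans hX))))
  obtain ⟨p, hp⟩ := id hB
  have hl := fp_long hc hT (hX.trans hS) hK h3 h2 hx hp h5 hB' hn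
  by_cases h6 : 2 < (X1 \ X0).card
  · refine Or.inl (fp_tl hL hq h1 fun ε => ?_)
    rcases PFp_z2 ε (p (G.ie X0 a) + p (G.ie X0 b)) with rfl | rfl
    · exact fp_short hc hT (hX.trans hS) hK h3 h2 hx hp h5 hB' h6
    · exact hl
  rcases h1 with rfl | h1
  · have hr := s0.rg hc hT hS hq (not_lt.1 h6)
    obtain ⟨O, h7, h8⟩ := (hK _ (s0.1.trans hS)).1 a b x y hx hv p hp
    refine Or.inr ⟨X0, Spl_ne s0, hr, hr.e1 hc hT hS hq hB (Spl_ne s0), _, hl,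
      ⟨O, h7, h8.imp fun _ r => Or.inl ⟨_, r⟩⟩, ?_⟩
    rw [ea, eb]
    exact (hK _ hS).2.2.1 hu a b c d X0 hq (Spl_ne s0) hr p hp
  · obtain ⟨X2, u', w', k1, k2, k3, -, k5, -⟩ := exists_next hc hT hS hq h1 h3
    have hX2 : X2 ⊆ S := k1.elim (fun e => e.subset) fun e => e.1
    exact Or.inl (fp_tl hL hq k1
      (fp_rung hc hT (hX2.trans hS) hK k3 k2 h3 k5 hn h2 hB (not_lt.1 h6)))

end SG

end Pool.Agent.Work.MP_8c679b_co
end

-- merged part: Pool.Agent.Work.MP_8c679b_co.Six.PAll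
section
/-!
The parity layer.
-/

set_option autoImplicit false

namespace Pool.Agent.Work.MP_8c679b_co

open Finset

namespace SG

variable {V E : Type} [Fintype V] [DecidableEq V] [DecidableEq E] {G : SG V E}
  {T S W X : Finset V} {a b c d : E} {Bs Ds : Finset (Finset V)}

/-- HINT: strong induction on `W.card`; `kb`, `IHP.mono`, `fpn`, `fp_step`, `cp_step`. -/
theorem par_all (hc : G.Cub) (hT : G.HT T) : G.PAR T := by
  intro W
  induction W using Finset.strongInduction with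
  | H W ih =>
    intro hW
    have hI : G.IHP W := fun S hS => ih S hS (hS.subset.trans hW)
    exact ⟨cp_step hc hT hW (kb hc hT) hI, fun hu => fp_step hc hT hW hu (kb hc hT)
      fun S' hS' => fpn hc hT (hS'.trans hW) (kb hc hT) (hI.mono hS')⟩

omit [Fintype V] in
/-- a flow whose outflows at each vertex of `T` are equal -/
theorem PAll_flow (hc : G.Cub) {p : V → ZMod 2}
    (hp : ∀ e ∈ G.ins T, G.n e + 1 + p (G.s e) + p (G.t e) = 0) :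
    ∃ φ : E → ZMod 3, (∀ e, φ e ≠ 0) ∧ ∀ v ∈ T, G.bd φ v = 0 := by
  refine ⟨fun e => if G.s e ∈ T then chi (p (G.s e)) else -(chi (G.n e) * chi (p (G.t e))),
    fun e => ?_, fun v hv => ?_⟩
  · dsimp only
    split_ifs
    exacts [Sol_chi_ne _, neg_ne_zero.2 (mul_ne_zero (Sol_chi_ne _) (Sol_chi_ne _))]
  · have k : ∀ x y z : ZMod 2, x + 1 + y + z = 0 → -(chi x * chi y) = (chi z : ZMod 3) := by decide
    have k' : ∀ x y : ZMod 2, x + 1 + y + y = 0 → (1 - chi x) * chi y = (2 * chi y : ZMod 3) := by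
      decide
    have h1 : G.bd (fun e => if G.s e ∈ T then chi (p (G.s e))
        else -(chi (G.n e) * chi (p (G.t e)))) v = (G.deg G.A v : ZMod 3) * chi (p v) := by
      rw [bd, deg, Nat.cast_sum, sum_mul]
      refine sum_congr rfl fun e he => ?_
      by_cases h1 : G.s e = v <;> by_cases h2 : G.t e = v
      · have h3 := hp e (mem_ins.2 ⟨he, h1 ▸ hv, h2 ▸ hv⟩)
        rw [h1, h2] at h3
        simpa [inc, iv, h1, h2, hv] using k' _ _ h3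
      · simp [inc, iv, h1, h2, hv]
      · by_cases h4 : G.s e ∈ T
        · have h3 := hp e (mem_ins.2 ⟨he, h4, h2 ▸ hv⟩)
          rw [h2] at h3
          simpa [inc, iv, h1, h2, h4] using k _ _ _ h3
        · simp [inc, iv, h1, h2, h4, ← mul_assoc, chi_mul_self]
      · simp [inc, iv, h1, h2]
    rw [h1]
    rcases hc v with h | h <;> rw [h]
    · simp
    · exact mul_eq_zero_of_left (by decide) _

/-- A clean solution of even parity on a three-side.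
HINT: with `FH T` use `par_all`.  Otherwise `T` is an odd circuit (`HT.f3'`, `iso_two`), every
vertex has one leaving edge, so it is a triangle; take `O = ∅` and a flow whose three outflows
at each vertex are equal (the sign condition around the triangle holds because it is odd);
`Kus T` is empty (`HT.us_card`). -/
theorem cse (hc : G.Cub) (h : G.T3 T) :
    ∃ O φ, G.St T O ∅ ∧ G.par O = 0 ∧ G.Sl T O (G.Kus T) φ := by
  obtain ⟨hT, h3, hU⟩ := h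
  by_cases hF : G.FH T
  · obtain ⟨O, h1, h2, -, h4⟩ := (par_all hc hT T Subset.rfl).1 ∅
      ⟨fun _ k => absurd k (notMem_empty _), fun _ k => absurd k (notMem_empty _)⟩ 0 (Or.inl hF)
    obtain ⟨φ, -, h5⟩ := h4 (fun _ => 1) (fun _ _ _ _ => one_ne_zero) trivial
    rw [tg_empty] at h5
    exact ⟨O, φ, h2, h1, h5⟩
  obtain ⟨C, h1, cC, oC⟩ := exists_odd_cc hU
  obtain ⟨h7, h8⟩ := iso_two (hT.f3' h3) h1 cC (Nu_of hF h1 cC oC)
  have hA := h1.trans ins_sub_A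
  have k1 : T.card ≤ 3 := by
    rw [← h3]
    refine (card_le_card fun v hv => ?_).trans (card_image_le (f := G.ie T))
    obtain ⟨e, k1, k2, k3⟩ := third_exists hc hA (h8 ▸ hv) (cC.2.1 v)
    have k4 := (mem_tch_iff.1 (sol1_at_tch k1 hv k3)).resolve_left (h7 ▸ k2)
    exact mem_image.2 ⟨e, k4, (eq_ie k4 hv k3).symm⟩
  have k2 : C.card = 3 := by
    have k3 := deg_sum hc hT.act
    have k4 := card_pos.2 cC.1
    rw [h7, h3] at k3
    omega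
  have k5 : (⟨G.A, G.s, G.t, fun e => G.n e + 1⟩ : SG V E).Bal C := by
    by_contra k
    obtain ⟨D, d1, d2, d3⟩ := exists_odd_cc k
    rw [cC.min hc hA d1 d2.2.1 d2.1, par, sum_add_distrib, sum_const, k2] at d3
    rw [show ∑ e ∈ C, G.n e = 1 from oC] at d3
    exact absurd d3 (by decide)
  obtain ⟨p, hp⟩ := k5
  obtain ⟨φ, f1, f2⟩ := PAll_flow (T := T) (p := p) hc fun e he => hp e (h7 ▸ he)
  refine ⟨∅, φ, ⟨empty_subset _, fun _ _ => sum_empty, empty_inter _⟩, sum_empty, f2,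
    fun e _ _ => f1 e, ?_⟩
  rintro t ⟨S, hS, hu, -⟩
  have := (hT.us_card hc hS hu).trans (card_le_card hS)
  omega

end SG

end Pool.Agent.Work.MP_8c679b_co
end
end
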