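import Pool.Agent.Work.MP_8c679b_co.Six.ASrd
import Pool.Agent.Work.MP_8c679b_co.Six.AX3

/-!
Two-sides without nontrivial three-side.
-/

set_option autoImplicit false

namespace Pool.Agent.Work.MP_8c679b_co

open Finset

namespace SG

variable {V E : Type} [Fintype V] [DecidableEq V] [DecidableEq E] {G : SG V E}
  {G' : SG V E} {X Y T : Finset V} {a b : E} {x : V} {h : E → ℤ} {p q : V → ZMod 2}
  {τ : E → ZMod 2}

variable (G) in
/-- every three-side inside `X` is trivial -/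
def N3S (X : Finset V) : Prop := ∀ Y ⊆ X, (G.cut Y).card = 3 → Y.card = 1 ∨ (X \ Y).card = 1

omit [Fintype V] in
theorem ASrdO_era {v : V} {e : E} (hv : v ∈ X) :
    e ∈ G.cut (X.erase v) ↔ ¬ (e ∈ G.cut X ↔ e ∈ G.cut {v}) := by
  simp only [mem_cut, mem_erase, mem_singleton]
  by_cases h1 : G.s e = v <;> by_cases h2 : G.t e = v <;> simp [h1, h2, hv]

theorem ASrdO_at {v : V} {e : E} (he : e ∈ G.cut {v}) : G.At e v :=
  mem_singleton.1 (ie_mem (cut_sub_tch he)) ▸ ie_at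

omit [Fintype V] in
theorem ASrdO_card {c : E} (h : G.Q3 X a b c) : (G.cut X).card = 3 :=
  card_eq_three.2 ⟨a, b, c, h.2.1, h.2.2.1, h.2.2.2, h.1⟩

omit [Fintype V] in
theorem ASrdO_mem {c : E} (h : G.Q3 X a b c) : a ∈ G.cut X ∧ b ∈ G.cut X ∧ c ∈ G.cut X := by
  simp [h.1]

omit [Fintype V] in
theorem ASrdO_ab (hX : G.S2 X a b) : a ∈ G.cut X ∧ b ∈ G.cut X := by
  simp [hX.1]

theorem ASrdO_sgn {e : E} (p : V → ZMod 2) (he : e ∈ G.cut X) (y : ℤ) :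
    G.kap p X e * y = y ∨ G.kap p X e * y = -y := by
  rcases Def6_kap p he with k | k <;> simp [k]

theorem ASrdO_chi (c : ZMod 2) (y : ℤ) : chi c * y = y ∨ chi c * y = -y := by
  rcases z2 c with rfl | rfl <;> simp

/-- conservation at a vertex with two inconsistent edges into `Y` -/
theorem ASrdO_bd {v : V} {x1 x2 : E} (hq : G.Q3 {v} a x1 x2) (h0 : G.ins {v} = ∅) (hv : v ∉ Y)
    (h1 : x1 ∈ G.cut Y) (h2 : x2 ∈ G.cut Y) (p : V → ZMod 2) (f : E → ℤ) :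
    G.bd f v = G.out {v} f a - chi (G.n x1 + p (G.ie Y x1)) * (G.kap p Y x1 * f x1) -
      chi (G.n x2 + p (G.ie Y x2)) * (G.kap p Y x2 * f x2) := by
  obtain ⟨-, m1, m2⟩ := ASrdO_mem hq
  have hd : Disjoint Y {v} := disjoint_singleton_right.2 hv
  rw [bd_single f h0, hq.1, sum_insert (by simp [hq.2.1, hq.2.2.1]), sum_pair hq.2.2.2,
    out_link f hd h1 m1, out_link f hd h2 m2, (kap_sign p h1).1, (kap_sign p h2).1, chi_add,
    chi_add, out, out, out]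
  linear_combination (chi (G.n x1) * G.kap (fun _ => 0) Y x1 * f x1) *
      chi_mul_self (R := ℤ) (p (G.ie Y x1)) +
    (chi (G.n x2) * G.kap (fun _ => 0) Y x2 * f x2) * chi_mul_self (R := ℤ) (p (G.ie Y x2))

theorem ASrdO_ne {c d : ZMod 2} (h : c ≠ d) : (chi d : ℤ) = -chi c := by
  rcases z2 c with rfl | rfl <;> rcases z2 d with rfl | rfl <;> simp at h ⊢

/-- The structure at the terminal of `a`.
HINT: if the terminals were adjacent the rest would have two leaving edges; if `x1, x2` had the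
same end `u` then `{ta, u}` would have two leaving edges. -/
theorem S2.one (hc : G.Cub) (hX : G.S2 X a b) (hN : G.N3S X) (h2 : 2 < X.card) :
    G.HT (X.erase (G.ie X a)) ∧ ∃ x1 x2, G.Q3 {G.ie X a} a x1 x2 ∧
      G.Q3 (X.erase (G.ie X a)) x1 x2 b ∧ ¬ G.At x1 (G.ie X b) ∧ ¬ G.At x2 (G.ie X b) ∧
      G.Dv ((X.erase (G.ie X a)).erase (G.ie X b)) x1 x2 := by
  obtain ⟨ha, hb⟩ := ASrdO_ab hX
  have hta := ie_mem (cut_sub_tch ha)
  have htb := ie_mem (cut_sub_tch hb)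
  have hne : G.ie X a ≠ G.ie X b := (xb_dv hc hX.1 hX.2.1 hX.2.2).1
  have hT : G.HT (X.erase (G.ie X a)) := fun Z hZ hn => by
    have k1 : Z ⊆ X := hZ.trans (erase_subset _ _)
    have k2 : G.ie X a ∉ Z := fun k => notMem_erase _ _ (hZ k)
    refine ⟨hX.2.2 Z ⟨k1, fun k => k2 (k hta)⟩ hn, fun k => (hN Z k1 k).imp_right fun k3 => ?_⟩
    refine hZ.antisymm fun v hv => by_contra fun k4 => (mem_erase.1 hv).1 ?_
    exact card_le_one.1 k3.le _ (mem_sdiff.2 ⟨(mem_erase.1 hv).2, k4⟩) _ (mem_sdiff.2 ⟨hta, k2⟩)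
  have h3 := (GXb_vtx hc hX.1 hX.2.1 hX.2.2 hta).2.1
  have ha' : a ∈ G.cut {G.ie X a} := (mem_inter.1 (Cut_ie ha rfl)).1
  have hb' : b ∉ G.cut {G.ie X a} := fun k => hne (eq_ie hb hta (ASrdO_at k))
  obtain ⟨x1, x2, k1, k2⟩ := card_eq_two.1
    (show ((G.cut {G.ie X a}).erase a).card = 2 by rw [card_erase_of_mem ha', h3])
  have m1 : x1 ∈ (G.cut {G.ie X a}).erase a := by simp [k2]
  have m2 : x2 ∈ (G.cut {G.ie X a}).erase a := by simp [k2]
  have q1 : G.Q3 {G.ie X a} a x1 x2 :=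
    ⟨by rw [← k2, insert_erase ha'], (mem_erase.1 m1).1.symm, (mem_erase.1 m2).1.symm, k1⟩
  have n1 : x1 ≠ b := fun k => hb' (k ▸ (mem_erase.1 m1).2)
  have n2 : x2 ≠ b := fun k => hb' (k ▸ (mem_erase.1 m2).2)
  have q2 : G.Q3 (X.erase (G.ie X a)) x1 x2 b := by
    refine ⟨ext fun e => ?_, k1, n1, n2⟩
    rw [ASrdO_era hta, hX.1, q1.1]
    have := hX.2.1
    have := q1.2.1
    have := q1.2.2.1
    simp only [mem_insert, mem_singleton]
    grind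
  obtain ⟨c1, c2, c3⟩ := ASrdO_mem q2
  have hY : 1 < (X.erase (G.ie X a)).card := by rw [card_erase_of_mem hta]; omega
  have htb' : G.ie X b ∈ X.erase (G.ie X a) := mem_erase.2 ⟨hne.symm, htb⟩
  have e3 : G.ie X b = G.ie (X.erase (G.ie X a)) b := eq_ie c3 htb' ie_at
  have d1 := hT.f2' hc (ASrdO_card q2) hY c1 c3 n1
  have d2 := hT.f2' hc (ASrdO_card q2) hY c2 c3 n2
  have d3 := hT.f2' hc (ASrdO_card q2) hY c1 c2 k1
  refine ⟨hT, x1, x2, q1, q2, fun k => d1 ((eq_ie c1 htb' k).symm.trans e3),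
    fun k => d2 ((eq_ie c2 htb' k).symm.trans e3), ?_⟩
  have key : ∀ e ∈ G.cut (X.erase (G.ie X a)), G.Dv (X.erase (G.ie X a)) e b →
      G.ie ((X.erase (G.ie X a)).erase (G.ie X b)) e = G.ie (X.erase (G.ie X a)) e :=
    fun e he hd => (cut_of_sub (erase_subset _ _) he (Cut_tch (mem_cut.1 he).1 ie_at
      (mem_erase.2 ⟨fun k => hd (k.trans e3), ie_mem (cut_sub_tch he)⟩))).2
  rw [Dv, key _ c1 d1, key _ c2 d2]
  exact d3

/-- Rooting at the terminal of `a` with an admissible twist.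
HINT: `srd_con` with `Y = X.erase ta`; the contraction is a digon with two signs (`Ce.bal`); the
values of `x1, x2` have sum and difference `±h a`, `±h b`, so the three values are not all
even. -/
theorem srd_root (hc : G.Cub) (hX : G.S2 X a b) (hI : G.IHS) (hv : G.Vd X a b h) (hO : G.X3O)
    (hY : Y = X.erase (G.ie X a)) (h3 : G.T3 Y) {x1 x2 : E} (hq : G.Q3 {G.ie X a} a x1 x2)
    (hq' : G.Q3 Y x1 x2 b) (hA : G.AdT Y q)
    (hs : G.n x1 + q (G.ie Y x1) ≠ G.n x2 + q (G.ie Y x2)) : G.Ext X h := by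
  obtain ⟨ha, hb⟩ := ASrdO_ab hX
  have hta := ie_mem (cut_sub_tch ha)
  have hYX : Y ⊆ X := hY ▸ erase_subset _ _
  have hn : G.ie X a ∉ Y := hY ▸ notMem_erase _ _
  obtain ⟨c1, c2, c3⟩ := ASrdO_mem hq'
  obtain ⟨m0, m1, m2⟩ := ASrdO_mem hq
  have h0 := (GXb_vtx hc hX.1 hX.2.1 hX.2.2 hta).2.2
  obtain ⟨G', hC⟩ := exists_ce (G := G) (ie_mem (cut_sub_tch c1)) fun e => G.n e + q (G.ie Y e)
  have h2 : 2 ≤ Y.card := by
    by_contra k
    have k1 := deg_sum hc h3.1.act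
    rw [h3.2.1] at k1
    refine h3.2.2 ⟨0, fun e he => ?_⟩
    have := card_pos.2 ⟨e, he⟩
    omega
  refine srd_con hc hX hI hv hYX h3.2.1 h2 hC (fun k => ?_) fun f k1 k2 k3 k4 =>
    hO Y q f h3 hA k3 k4 ?_
  · obtain ⟨p, -, k1⟩ := (hC.bal (hC.hA ▸ sdiff_subset_sdiff ins_sub_A Subset.rfl)).1 k
    have key : ∀ e ∈ G.cut Y, e ∈ G.cut {G.ie X a} → G.n e + q (G.ie Y e) = p (G.ie X a) :=
      fun e he he' => by
        have k2 := eq_oe he hn (ASrdO_at he')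
        rw [k2]
        refine k1 e (mem_sdiff.2 ⟨Cut_je_ins (mem_cut.1 he).1 (je_ie_oe (X := Y))
          (hYX (ie_mem (cut_sub_tch he))) (k2 ▸ hta), not_ins_of_cut he⟩) he
    exact hs ((key _ c1 m1).trans (key _ c2 m2).symm)
  · by_contra k
    simp only [not_exists, not_and, Int.not_odd_iff_even] at k
    have k5 := k2 _ (mem_sdiff.2 ⟨hta, hn⟩)
    rw [ASrdO_bd hq h0 hn c1 c2 q f, ASrdO_ne hs] at k5
    rw [tw, hq'.1, sum_insert (by simp [hq'.2.1, hq'.2.2.1]), sum_pair hq'.2.2.2] at k4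
    have a1 := Def6_out f m0
    have a2 := ASrdO_sgn q c1 (f x1)
    have a3 := ASrdO_sgn q c2 (f x2)
    have a4 := ASrdO_sgn q c3 (f b)
    have a5 := ASrdO_chi (G.n x1 + q (G.ie Y x1)) (G.kap q Y x1 * f x1 - G.kap q Y x2 * f x2)
    have a6 : G.out {G.ie X a} f a =
        chi (G.n x1 + q (G.ie Y x1)) * (G.kap q Y x1 * f x1 - G.kap q Y x2 * f x2) := by
      linear_combination k5
    rw [← a6] at a5
    obtain ⟨b1, b2⟩ := k3 _ c1
    obtain ⟨b3, b4⟩ := k3 _ c2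
    obtain ⟨b5, b6⟩ := k3 _ c3
    obtain ⟨b7, b8⟩ := hv.1 a ha
    rw [← k1 a ha] at b7 b8
    obtain ⟨r1, e1⟩ := k _ c1
    obtain ⟨r2, e2⟩ := k _ c2
    rw [abs_le] at b2 b4 b6 b8
    omega

/-- four values with prescribed differences -/
theorem srd_arith {A B : ℤ} (hA : A ≠ 0 ∧ |A| ≤ 5) (hB : B ≠ 0 ∧ |B| ≤ 5) (he : Even (A + B))
    (hne : |A| ≠ |B|) : ∃ u1 u2 w1 w2 : ℤ, u1 - u2 = A ∧ w1 - w2 = B ∧ u1 + u2 + w1 + w2 = 0 ∧
      |u1| + |u2| + |w1| + |w2| < 12 ∧ (∀ y ∈ [u1, u2, w1, w2], y ≠ 0 ∧ |y| ≤ 5) ∧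
      ((Odd u1 ∧ Odd u2 ∧ Even w1 ∧ Even w2) ∨ (Even u1 ∧ Even u2 ∧ Odd w1 ∧ Odd w2) ∨
        ((Odd u1 ↔ Even u2) ∧ (Odd w1 ↔ Even w2) ∧ u1 + w1 ≠ 0 ∧ u1 + w2 ≠ 0 ∧ u2 + w1 ≠ 0 ∧
          u2 + w2 ≠ 0)) := by
  have key : ∀ A ∈ [-5, -4, -3, -2, -1, 1, 2, 3, 4, (5 : ℤ)],
      ∀ B ∈ [-5, -4, -3, -2, -1, 1, 2, 3, 4, (5 : ℤ)], (A + B) % 2 = 0 → A ≠ B → A ≠ -B →
      ∃ u ∈ [-4, -3, -2, -1, 1, (2 : ℤ)], ∃ w ∈ [-2, -1, 1, 2, 3, (4 : ℤ)],
        u + A + u + (w + B) + w = 0 ∧ |u + A| + |u| + |w + B| + |w| < 12 ∧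
        (∀ y ∈ [u + A, u, w + B, w], y ≠ 0 ∧ |y| ≤ 5) ∧
        ((Odd (u + A) ∧ Odd u ∧ Even (w + B) ∧ Even w) ∨
          (Even (u + A) ∧ Even u ∧ Odd (w + B) ∧ Odd w) ∨
          ((Odd (u + A) ↔ Even u) ∧ (Odd (w + B) ↔ Even w) ∧ u + A + (w + B) ≠ 0 ∧
            u + A + w ≠ 0 ∧ u + (w + B) ≠ 0 ∧ u + w ≠ 0)) := by
    decide
  obtain ⟨a1, a2⟩ := hA
  obtain ⟨b1, b2⟩ := hB
  rw [abs_le] at a2 b2
  obtain ⟨u, -, w, -, k⟩ := key A (by simp only [List.mem_cons, List.not_mem_nil]; omega) B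
    (by simp only [List.mem_cons, List.not_mem_nil]; omega) (Int.even_iff.1 he)
    (fun k => hne (by rw [k])) fun k => hne (by rw [k, abs_neg])
  exact ⟨u + A, u, w + B, w, by ring, by ring, k⟩

/-- the two inner edges at `v` are inconsistent -/
theorem ASrdO_inc {v : V} {y1 y2 : E} (hq : G.Q3 {v} b y1 y2) (h0 : G.ins {v} = ∅)
    (hb : b ∈ G.cut Y) (h1 : y1 ∈ G.cut (Y.erase v)) (h2 : y2 ∈ G.cut (Y.erase v))
    (hp : ∀ e ∈ G.ins (Y.erase v), G.sw p e = 0) (hu : ¬ G.Bal (G.ins Y)) :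
    G.n y1 + p (G.ie (Y.erase v) y1) ≠ G.n y2 + p (G.ie (Y.erase v) y2) := by
  intro k
  refine hu ⟨fun w => if w = v then G.n y1 + p (G.ie (Y.erase v) y1) else p w, fun e he => ?_⟩
  obtain ⟨k1, k2, k3⟩ := mem_ins.1 he
  by_cases k4 : G.At e v
  · have k5 : e ∈ G.cut {v} := (mem_tch_iff.1 (Cut_tch k1 k4 (mem_singleton_self v))).resolve_left
      (by simp [h0])
    have key : e ∈ G.cut (Y.erase v) → G.n e + p (G.ie (Y.erase v) e) =
        G.n y1 + p (G.ie (Y.erase v) y1) → G.sw (fun w =>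
          if w = v then G.n y1 + p (G.ie (Y.erase v) y1) else p w) e = 0 := fun k6 k7 => by
      rw [Cut_sw (je_ie_oe (X := Y.erase v)), if_neg (mem_erase.1 (ie_mem (cut_sub_tch k6))).1,
        if_pos (eq_oe k6 (notMem_erase _ _) k4).symm, k7, z2_add_self]
    rw [hq.1, mem_insert, mem_insert, mem_singleton] at k5
    rcases k5 with rfl | rfl | rfl
    exacts [absurd he (not_ins_of_cut hb), key h1 rfl, key h2 k.symm]
  · have k5 : G.s e ≠ v := fun k6 => k4 (.inl k6)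
    have k6 : G.t e ≠ v := fun k6 => k4 (.inr k6)
    rw [sw, if_neg k5, if_neg k6]
    exact hp e (mem_ins.2 ⟨k1, mem_erase.2 ⟨k5, k2⟩, mem_erase.2 ⟨k6, k3⟩⟩)

/-- `b4` in terms of the switched outflows -/
theorem ASrdO_b4 {c d : E} {f g : E → ℤ} (hc : G.Cub) (hT : G.HT X) (hq : G.Q4 X a b c d)
    (hp : ∀ e ∈ G.ins X, G.sw p e = 0) (hf : ∀ e ∈ G.cut X, f e = G.kap p X e * g e)
    (hB : G.Bv X g) (ht : ∑ e ∈ G.cut X, g e = 0) (hs : ∑ e ∈ G.cut X, |g e| < 12)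
    (oa : Odd (g a)) (ob : Odd (g b)) (ec : Even (g c)) (ed : Even (g d))
    (hv : G.Dv X a b ∨ g a + g b ≠ 0) : G.Ext X f := by
  obtain ⟨ma, mb, mc, md⟩ := hq.mem
  have k1 : ∀ e ∈ G.cut X, f e = g e ∨ f e = -g e := fun e he => hf e he ▸ ASrdO_sgn p he _
  have k2 : ∀ e ∈ G.cut X, |f e| = |g e| := fun e he => by
    rcases k1 e he with k | k <;> simp [k]
  have k3 : ∀ e ∈ G.cut X, (Odd (g e) → Odd (f e)) ∧ (Even (g e) → Even (f e)) := fun e he => by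
    rcases k1 e he with k | k <;> simp [k]
  have k4 : ∀ e ∈ G.cut X, G.out X f e = chi (p (G.ie X e)) * g e := fun e he => by
    rw [out, hf e he, (kap_sign p he).1]
    linear_combination (chi (p (G.ie X e)) * g e) * (kap_sign (R := ℤ) p he).2
  refine b4 hc hT hq hp (fun e he => ?_) ?_ (by rwa [sum_congr rfl k2]) ((k3 a ma).1 oa)
    ((k3 b mb).1 ob) ((k3 c mc).2 ec) ((k3 d md).2 ed) ?_
  · rw [← abs_ne_zero, k2 e he, abs_ne_zero]
    exact hB e he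
  · rw [tw, ← ht]
    refine sum_congr rfl fun e he => ?_
    rw [hf e he]
    rcases Def6_kap p he with k | k <;> simp [k]
  · by_cases k : G.Dv X a b
    · exact .inl k
    · rw [k4 a ma, k4 b mb, not_not.1 k, ← mul_add]
      exact .inr (mul_ne_zero (sol1_chi_ne _) (hv.resolve_left k))

/-- The rest `A` of the two terminals is balanced.
HINT: `S2.one` for `a` and for `b`; both pairs of edges are inconsistent for the potential of
`A`; `srd_arith` for the switched outflows of `A`; `b4`, `bd_single`, `Ext.trans`. -/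
theorem srd_a (hc : G.Cub) (hX : G.S2 X a b) (hv : G.Vd X a b h) (hN : G.N3S X) (h2 : 2 < X.card)
    (hB : G.Bal (G.ins ((X.erase (G.ie X a)).erase (G.ie X b))))
    (h1 : ¬ G.Bal (G.ins (X.erase (G.ie X a)))) (h1' : ¬ G.Bal (G.ins (X.erase (G.ie X b)))) :
    G.Ext X h := by
  obtain ⟨ha, hb⟩ := ASrdO_ab hX
  have hta := ie_mem (cut_sub_tch ha)
  have htb := ie_mem (cut_sub_tch hb)
  have hne : G.ie X a ≠ G.ie X b := (xb_dv hc hX.1 hX.2.1 hX.2.2).1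
  obtain ⟨hT, x1, x2, q1, q2, n1, n2, d1⟩ := hX.one hc hN h2
  obtain ⟨-, y1, y2, r1, r2, o1, o2, d2⟩ := hX.symm.one hc hN h2
  have za := (GXb_vtx hc hX.1 hX.2.1 hX.2.2 hta).2.2
  have zb := (GXb_vtx hc hX.1 hX.2.1 hX.2.2 htb).2.2
  obtain ⟨A, hA⟩ : ∃ A, A = (X.erase (G.ie X a)).erase (G.ie X b) := ⟨_, rfl⟩
  have hA' : A = (X.erase (G.ie X b)).erase (G.ie X a) := hA.trans (erase_right_comm ..)
  obtain ⟨m0, m1, m2⟩ := ASrdO_mem q1
  obtain ⟨l0, l1, l2⟩ := ASrdO_mem r1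
  have e1 : x1 ≠ y1 := fun k => n1 (k ▸ ASrdO_at l1)
  have e2 : x1 ≠ y2 := fun k => n1 (k ▸ ASrdO_at l2)
  have e3 : x2 ≠ y1 := fun k => n2 (k ▸ ASrdO_at l1)
  have e4 : x2 ≠ y2 := fun k => n2 (k ▸ ASrdO_at l2)
  have q4 : G.Q4 A x1 x2 y1 y2 := by
    refine ⟨ext fun e => ?_, q1.2.2.2, e1, e2, e3, e4, r1.2.2.2⟩
    rw [hA, ASrdO_era (mem_erase.2 ⟨hne.symm, htb⟩), q2.1, r1.1]
    have := q2.2.2
    have := r1.2
    simp only [mem_insert, mem_singleton]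
    grind
  obtain ⟨c1, c2, c3, c4⟩ := q4.mem
  obtain ⟨p, hp⟩ := hB
  have i1 := ASrdO_inc (p := p) r1 zb (ASrdO_mem q2).2.2 (hA ▸ c3) (hA ▸ c4) hp h1
  rw [← hA] at hp d1 i1
  have i2 := ASrdO_inc (p := p) q1 za (ASrdO_mem r2).2.2 (hA' ▸ c1) (hA' ▸ c2) (hA' ▸ hp) h1'
  rw [← hA'] at d2 i2
  have hTA : G.HT A := hT.sub (hA ▸ erase_subset _ _)
  have na : G.ie X a ∉ A := hA' ▸ notMem_erase _ _
  have nb : G.ie X b ∉ A := hA ▸ notMem_erase _ _
  have hAX : A ⊆ X := hA ▸ (erase_subset _ _).trans (erase_subset _ _)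
  have hm : ∀ v ∈ X, v ∉ A → v = G.ie X a ∨ v = G.ie X b := fun v k1 k2 => by
    by_contra k3
    rw [not_or] at k3
    exact k2 (hA ▸ mem_erase.2 ⟨k3.2, mem_erase.2 ⟨k3.1, k1⟩⟩)
  obtain ⟨α, hα⟩ : ∃ α, α = chi (G.n x1 + p (G.ie A x1)) * G.out {G.ie X a} h a := ⟨_, rfl⟩
  obtain ⟨β, hβ⟩ : ∃ β, β = chi (G.n y1 + p (G.ie A y1)) * G.out {G.ie X b} h b := ⟨_, rfl⟩
  have s1 : α = h a ∨ α = -h a := by
    have := ASrdO_chi (G.n x1 + p (G.ie A x1)) (G.out {G.ie X a} h a)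
    have := Def6_out h m0
    omega
  have s2 : β = h b ∨ β = -h b := by
    have := ASrdO_chi (G.n y1 + p (G.ie A y1)) (G.out {G.ie X b} h b)
    have := Def6_out h l0
    omega
  have t1 : |α| = |h a| := by rcases s1 with k | k <;> simp [k]
  have t2 : |β| = |h b| := by rcases s2 with k | k <;> simp [k]
  obtain ⟨u1, u2, w1, w2, g1, g2, g3, g4, g5, g6⟩ := srd_arith (A := α) (B := β)
    (by rw [← abs_ne_zero, t1, abs_ne_zero]; exact hv.1 a ha)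
    (by rw [← abs_ne_zero, t2, abs_ne_zero]; exact hv.1 b hb)
    (by have := hv.2.1; rw [Int.even_iff] at this ⊢; omega) (by rw [t1, t2]; exact hv.2.2)
  obtain ⟨g, v1, v2, v3, v4⟩ : ∃ g : E → ℤ, g x1 = u1 ∧ g x2 = u2 ∧ g y1 = w1 ∧ g y2 = w2 :=
    ⟨fun e => if e = x1 then u1 else if e = x2 then u2 else if e = y1 then w1 else w2,
      by simp, by simp [q1.2.2.2.symm], by simp [e1.symm, e3.symm],
      by simp [e2.symm, e4.symm, r1.2.2.2.symm]⟩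
  subst v1 v2 v3 v4
  obtain ⟨f, f1, f2⟩ : ∃ f : E → ℤ, (∀ e ∈ G.cut A, f e = G.kap p A e * g e) ∧
      ∀ e ∉ G.cut A, f e = h e :=
    ⟨fun e => if e ∈ G.cut A then G.kap p A e * g e else h e, fun e he => if_pos he,
      fun e he => if_neg he⟩
  have f3 : ∀ e ∈ G.cut A, G.kap p A e * f e = g e := fun e he => by
    rw [f1 e he]
    rcases Def6_kap p he with k | k <;> simp [k]
  have f4 : ∀ e ∈ G.cut X, f e = h e := fun e he => f2 e fun k => by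
    have k1 := (cut_of_sub hAX he (cut_sub_tch k)).2 ▸ ie_mem (cut_sub_tch k)
    rw [hX.1, mem_insert, mem_singleton] at he
    rcases he with rfl | rfl
    exacts [na k1, nb k1]
  have hg : G.Bv A g := fun e he => g5 _ (by
    rw [q4.1] at he
    simp only [mem_insert, mem_singleton] at he
    rcases he with rfl | rfl | rfl | rfl <;> simp)
  have sm : ∀ F : E → ℤ, ∑ e ∈ G.cut A, F e = F x1 + F x2 + F y1 + F y2 := fun F => by
    rw [q4.1, sum_insert (by simp [q1.2.2.2, e1, e2]), sum_insert (by simp [e3, e4]),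
      sum_pair r1.2.2.2]
    ring
  have g3' := (sm g).trans g3
  have g4' := (sm fun e => |g e|).trans_lt g4
  refine Ext.trans hAX f4 (fun v hv => ?_) (fun e k1 k2 => ?_) ?_
  · rcases hm v (mem_sdiff.1 hv).1 (mem_sdiff.1 hv).2 with rfl | rfl
    · rw [ASrdO_bd q1 za na c1 c2 p f, f3 _ c1, f3 _ c2, ASrdO_ne i2, out, f4 a ha]
      rw [out] at hα
      linear_combination (-chi (G.n x1 + p (G.ie A x1))) * (g1.trans hα) -
        (G.kap (fun _ => 0) {G.ie X a} a * h a) * chi_mul_self (R := ℤ) (G.n x1 + p (G.ie A x1))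
    · rw [ASrdO_bd r1 zb nb c3 c4 p f, f3 _ c3, f3 _ c4, ASrdO_ne i1, out, f4 b hb]
      rw [out] at hβ
      linear_combination (-chi (G.n y1 + p (G.ie A y1))) * (g2.trans hβ) -
        (G.kap (fun _ => 0) {G.ie X b} b * h b) * chi_mul_self (R := ℤ) (G.n y1 + p (G.ie A y1))
  · have k3 : e ∈ G.cut A := by
      have k4 : G.At e (G.ie X a) ∨ G.At e (G.ie X b) := by
        obtain ⟨k5, k6, k7⟩ := mem_ins.1 k1
        by_cases k8 : G.s e ∈ A
        · exact (hm _ k7 fun k9 => k2 (mem_ins.2 ⟨k5, k8, k9⟩)).imp .inr .inr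
        · exact (hm _ k6 k8).imp .inl .inl
      have k5 : ∀ v, G.ins {v} = ∅ → G.At e v → e ∈ G.cut {v} := fun v k6 k7 =>
        (mem_tch_iff.1 (Cut_tch (ins_sub_A k1) k7 (mem_singleton_self v))).resolve_left
          (by simp [k6])
      rcases k4 with k4 | k4
      · have k6 := k5 _ za k4
        rw [q1.1, mem_insert, mem_insert, mem_singleton] at k6
        rcases k6 with rfl | rfl | rfl
        exacts [absurd k1 (not_ins_of_cut ha), c1, c2]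
      · have k6 := k5 _ zb k4
        rw [r1.1, mem_insert, mem_insert, mem_singleton] at k6
        rcases k6 with rfl | rfl | rfl
        exacts [absurd k1 (not_ins_of_cut hb), c3, c4]
    have k4 := hg e k3
    rcases f1 e k3 ▸ ASrdO_sgn p k3 (g e) with k | k <;> simpa [k] using k4
  · rcases g6 with ⟨j1, j2, j3, j4⟩ | ⟨j1, j2, j3, j4⟩ | ⟨j1, j2, j3, j4, j5, j6⟩
    · exact ASrdO_b4 hc hTA q4 hp f1 hg g3' g4' j1 j2 j3 j4 (.inl d1)
    · exact ASrdO_b4 hc hTA q4.flip hp f1 hg g3' g4' j3 j4 j1 j2 (.inl d2)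
    · rcases Int.even_or_odd (g x1) with k1 | k1 <;> rcases Int.even_or_odd (g y1) with k2 | k2
      · exact ASrdO_b4 hc hTA q4.swap1.swap2.mid hp f1 hg g3' g4'
          (Int.not_even_iff_odd.1 fun k => Int.not_odd_iff_even.2 k1 (j1.2 k))
          (Int.not_even_iff_odd.1 fun k => Int.not_odd_iff_even.2 k2 (j2.2 k)) k1 k2 (.inr j6)
      · exact ASrdO_b4 hc hTA q4.swap1.mid hp f1 hg g3' g4'
          (Int.not_even_iff_odd.1 fun k => Int.not_odd_iff_even.2 k1 (j1.2 k)) k2 k1 (j2.1 k2)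
          (.inr j5)
      · exact ASrdO_b4 hc hTA q4.swap2.mid hp f1 hg g3' g4' k1
          (Int.not_even_iff_odd.1 fun k => Int.not_odd_iff_even.2 k2 (j2.2 k)) (j1.1 k1) k2
          (.inr j4)
      · exact ASrdO_b4 hc hTA q4.mid hp f1 hg g3' g4' k1 k2 (j1.1 k1) (j2.1 k2) (.inr j3)

/-- HINT: if `X - ta` or `X - tb` is balanced: `srd_bal`.  Otherwise take a twist `q` of
`Y = X - ta` as in `srd_root` (`HT.f2'`) and `q' = q + iv (· = tb)`.  If both are bad (`not_adt`,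
`crit_pair`) the critical edges are the inner edges at `tb`, so the rest is balanced: `srd_a`. -/
theorem srd_one (hc : G.Cub) (hX : G.S2 X a b) (hI : G.IHS) (hv : G.Vd X a b h) (hO : G.X3O)
    (hu : ¬ G.Bal (G.ins X)) (hN : G.N3S X) (h2 : 2 < X.card) : G.Ext X h := by
  obtain ⟨ha, hb⟩ := ASrdO_ab hX
  have hta := ie_mem (cut_sub_tch ha)
  have htb := ie_mem (cut_sub_tch hb)
  have hne : G.ie X a ≠ G.ie X b := (xb_dv hc hX.1 hX.2.1 hX.2.2).1
  obtain ⟨hT, x1, x2, q1, q2, n1, n2, -⟩ := hX.one hc hN h2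
  obtain ⟨-, y1, y2, -, r2, -⟩ := hX.symm.one hc hN h2
  have ca : 2 ≤ (X.erase (G.ie X a)).card := by rw [card_erase_of_mem hta]; omega
  have cb : 2 ≤ (X.erase (G.ie X b)).card := by rw [card_erase_of_mem htb]; omega
  by_cases h1 : G.Bal (G.ins (X.erase (G.ie X a)))
  · exact srd_bal hc hX hI hv hu (erase_subset _ _) (ASrdO_card q2) ca h1
  by_cases h1' : G.Bal (G.ins (X.erase (G.ie X b)))
  · exact srd_bal hc hX hI hv hu (erase_subset _ _) (ASrdO_card r2) cb h1'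
  refine (em (G.Bal (G.ins ((X.erase (G.ie X a)).erase (G.ie X b))))).elim
    (fun k => srd_a hc hX hv hN h2 k h1 h1') fun hB => ?_
  have htb' : G.ie X b ∈ X.erase (G.ie X a) := mem_erase.2 ⟨hne.symm, htb⟩
  obtain ⟨Y, hY⟩ : ∃ Y, Y = X.erase (G.ie X a) := ⟨_, rfl⟩
  rw [← hY] at hT q2 ca h1 hB htb'
  have h3 : G.T3 Y := ⟨hT, ASrdO_card q2, h1⟩
  obtain ⟨c1, c2, c3⟩ := ASrdO_mem q2
  have e3 : G.ie X b = G.ie Y b := eq_ie c3 htb' ie_at
  have d1 : G.ie Y x1 ≠ G.ie Y b := hT.f2' hc h3.2.1 ca c1 c3 q2.2.2.1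
  have d2 : G.ie Y x2 ≠ G.ie Y b := hT.f2' hc h3.2.1 ca c2 c3 q2.2.2.2
  have d3 : G.ie Y x1 ≠ G.ie Y x2 := hT.f2' hc h3.2.1 ca c1 c2 q2.2.1
  have hz : ∀ s t : ZMod 2, s + (s + t + 1) ≠ t + 0 := by decide
  by_cases a1 : G.AdT Y fun v => if v = G.ie Y x1 then G.n x1 + G.n x2 + 1 else 0
  · exact srd_root hc hX hI hv hO hY h3 q1 q2 a1 (by rw [if_pos rfl, if_neg d3.symm]; exact hz _ _)
  by_cases a2 : G.AdT Y fun v => if v = G.ie Y x1 then G.n x1 + G.n x2 + 1 else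
    if v = G.ie Y b then 1 else 0
  · exact srd_root hc hX hI hv hO hY h3 q1 q2 a2
      (by rw [if_pos rfl, if_neg d3.symm, if_neg d2]; exact hz _ _)
  obtain ⟨z, -, p, p1, p2⟩ := not_adt h3 a1
  obtain ⟨z', -, p', p1', p2'⟩ := not_adt h3 a2
  have s1 : p (G.ie Y x1) + p' (G.ie Y x1) = 0 := by
    rw [p2 _ c1, p2' _ c1, if_pos rfl, if_pos rfl, z2_add_self]
  have s2 : p (G.ie Y x2) + p' (G.ie Y x2) = 0 := by
    rw [p2 _ c2, p2' _ c2, if_neg d3.symm, if_neg d3.symm, if_neg d2, add_zero]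
  have s3 : p (G.ie Y b) + p' (G.ie Y b) = 1 := by
    rw [p2 _ c3, p2' _ c3, if_neg d1.symm, if_neg d1.symm, if_pos rfl, zero_add]
  obtain ⟨e, he, k1, c, k2⟩ := crit_pair hc h3 p1 p1' (by
    rintro ⟨c, k⟩
    rw [k _ c1, add_right_comm, z2_add_self, zero_add] at s1
    rw [k _ c3, add_right_comm, z2_add_self, zero_add, s1] at s3
    exact zero_ne_one s3)
  have t1 := s1.symm.trans (k2 _ (ie_mem (cut_sub_tch c1)))
  have t2 := s2.symm.trans (k2 _ (ie_mem (cut_sub_tch c2)))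
  rw [q2.1, mem_insert, mem_insert, mem_singleton] at he
  rcases he with rfl | rfl | rfl
  · rw [iv, if_neg d3.symm, add_zero] at t2
    rw [iv, if_pos rfl, ← t2, zero_add] at t1
    exact absurd t1 zero_ne_one
  · rw [iv, if_neg d3, add_zero] at t1
    rw [iv, if_pos rfl, ← t1, zero_add] at t2
    exact absurd t2 zero_ne_one
  · refine absurd ⟨p, fun f hf => p1 f (ins_mono (erase_subset _ _) hf) ?_⟩ hB
    rintro rfl
    obtain ⟨-, k3, k4⟩ := mem_ins.1 hf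
    rcases ASrdO_at (ASrdO_mem k1).1 with k5 | k5
    exacts [(mem_erase.1 k3).1 (k5.trans e3.symm), (mem_erase.1 k4).1 (k5.trans e3.symm)]

end SG

end Pool.Agent.Work.MP_8c679b_co
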