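import Pool.Agent.Work.MP_8c679b_co.Six.ASrd
import Pool.Agent.Work.MP_8c679b_co.Six.Pure
import Pool.Agent.Work.MP_8c679b_co.Six.Fin

/-!
Two-sides whose inconsistent edges form a triangle.
-/

set_option autoImplicit false

namespace Pool.Agent.Work.MP_8c679b_co

open Finset

namespace SG

variable {V E : Type} [Fintype V] [DecidableEq V] [DecidableEq E] {G : SG V E}
  {G' : SG V E} {X Y T : Finset V} {a b : E} {x : V} {h : E → ℤ} {p q : V → ZMod 2}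
  {τ : E → ZMod 2}
  {m : ℤ}

variable (G) in
/-- the inconsistent edges of `X` are those of the triangle `T` -/
structure Tri (X T : Finset V) (a b : E) (p : V → ZMod 2) : Prop where
  s2 : G.S2 X a b
  sub : T ⊆ X
  c3 : T.card = 3
  k3 : (G.cut T).card = 3
  ha : a ∉ G.tch T
  hb : b ∉ G.tch T
  p0 : ∀ e ∈ G.ins X, e ∉ G.ins T → G.sw p e = 0
  p1 : ∀ e ∈ G.ins T, G.sw p e = 1

theorem ASrdT_chg {R : Finset V} {O : Finset E} {ψ : E → ZMod 3} (hψ : G.Sl R O ∅ ψ) {e : E}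
    {y : V} (he : e ∈ G.A) (hj : G.Je e y x) (hy : y ∉ R) (h0 : ψ e ≠ 0) {u : ZMod 3}
    (hu : u ≠ 0) : ∃ φ, G.Sl R O ∅ φ ∧ φ e = u ∧ (∀ f, ψ f ≠ 0 → φ f ≠ 0) ∧
      ∀ f, f ≠ e → (x ∈ R → f ∉ G.tch (G.cmp R x)) → φ f = ψ f := by
  by_cases hx : x ∈ R
  · rcases Ab_sgn _ _ h0 hu with k | k
    · exact ⟨ψ, hψ, k, fun _ => id, fun _ _ _ => rfl⟩
    obtain ⟨k1, k2, k3, -⟩ := cmp_spec (G := G) hx
    refine ⟨_, hψ.negOn (Y := G.cmp R x) fun f hf v hv ha => ?_, ?_, fun f hf => ?_,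
      fun f _ hf => if_neg (hf hx)⟩
    · have k4 := filter_eq_empty_iff.1 k3 (x := f)
      have k5 := @k2 (G.s f)
      have k6 := @k2 (G.t f)
      rw [mem_tch] at hf
      rw [mem_ins] at k4
      rcases ha with rfl | rfl <;> tauto
    · exact (if_pos (sol1_at_tch he k1 (hj.at_iff.2 (.inr rfl)))).trans k
    · split_ifs
      exacts [neg_ne_zero.2 hf, hf]
  · refine ⟨Function.update ψ e u, hψ.congr (fun f hf => Function.update_of_ne ?_ _ _)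
      fun _ _ => Iff.rfl, Function.update_self .., fun f hf => ?_,
      fun f hf _ => Function.update_of_ne hf _ _⟩
    · rintro rfl
      rcases hj with j | j <;> rcases (mem_tch.1 hf).2 with k | k <;> simp_all
    · by_cases k : f = e
      · rwa [k, Function.update_self]
      · rwa [Function.update_of_ne k]

variable (G) in
/-- edges that count in the switched sum -/
def ASrdT_N (W : Finset V) (q : V → ZMod 2) (a b f : E) : Prop :=
  (f ∈ G.ins W ∧ G.sw q f = 1) ∨ (f ∈ G.cut W ∧ f ≠ a ∧ f ≠ b)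

variable (G) in
/-- edges whose residue can be chosen -/
def ASrdT_F (W R : Finset V) (q : V → ZMod 2) (a b e : E) : Prop :=
  G.ASrdT_N W q a b e ∧ ∃ x y, G.Je e y x ∧ y ∉ R ∧
    ∀ f, G.ASrdT_N W q a b f → f ≠ e → x ∈ R → f ∉ G.tch (G.cmp R x)

theorem ASrdT_nt {W U : Finset V} (ha : a ∈ G.cut W) (h : G.ie W a ∈ U) : a ∉ G.tch (W \ U) := by
  intro k
  obtain ⟨k1, k2⟩ := cut_of_sub sdiff_subset ha k
  exact (mem_sdiff.1 (ie_mem k)).2 (k2 ▸ h)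

theorem ASrdT_path {W U : Finset V} {P : Finset E} (ha : a ∈ G.cut W) (hb : b ∈ G.cut W)
    (hab : a ≠ b) (hU : U ⊆ W) (hP : G.Pp U P (G.ie W a) (G.ie W b)) (hp : ∀ e ∈ P, G.sw q e = 0)
    (h1 : ∀ Z ⊆ W \ U, (G.cut Z).card ≠ 1) {e1 e2 : E} (hne : e1 ≠ e2)
    (f1 : G.ASrdT_F W (W \ U) q a b e1) (f2 : G.ASrdT_F W (W \ U) q a b e2) (η : E → ZMod 3) :
    ∃ O φ, O ⊆ G.ins (W \ U) ∧ G.St W (O ∪ insert a (insert b P)) {a, b} ∧
      G.Sl W (O ∪ insert a (insert b P)) ∅ φ ∧ φ a = η a ∧ φ b = η b := by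
  obtain ⟨O, hS, hA⟩ := abs_loc h1
  obtain ⟨ψ0, hψ0⟩ := hA.sl
  have na := ASrdT_nt ha hP.2.2.2.1
  have nb := ASrdT_nt hb hP.2.2.2.2
  obtain ⟨ψ, hψ, ea, eb, hn⟩ : ∃ ψ, G.Sl (W \ U) O ∅ ψ ∧ ψ a = η a ∧ ψ b = η b ∧
      ∀ e, e ∉ G.ins (W \ U) → e ≠ a → e ≠ b → ψ e ≠ 0 := by
    refine ⟨fun e => if e ∈ G.tch (W \ U) then ψ0 e else if e = a ∨ e = b then η e else 1,
      hψ0.congr (fun e he => if_pos he) fun _ _ => Iff.rfl, by simp [na], by simp [nb],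
      fun e k1 k2 k3 => ?_⟩
    by_cases k : e ∈ G.tch (W \ U)
    · simpa [k] using hψ0.2.1 e k fun k4 => k1 (hS.sub_ins k4)
    · simp [k, k2, k3]
  have hN : ∀ e, G.ASrdT_N W q a b e →
      e ≠ b ∧ e ≠ a ∧ e ∈ G.A ∧ (G.kap q W e : ZMod 3) ≠ 0 := fun e he => by
    obtain ⟨k1, -, -, k2⟩ := Pure_free (P := ∅) (L := {e}) (empty_subset _) ha hb (by simp)
      (he.imp_right fun k => ⟨k.1, mem_singleton_self e, k.2⟩)
    exact ⟨(mem_erase.1 k1).1, (mem_erase.1 (mem_erase.1 k1).2).1,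
      (mem_erase.1 (mem_erase.1 k1).2).2, k2⟩
  have hJ : ∀ {e x y}, G.Je e y x → y ∉ W \ U → e ∉ G.ins (W \ U) := fun j hy k =>
    hy ((Pth_ends j).1 (mem_ins.1 k).2).1
  obtain ⟨n1, x1, y1, j1, k1, c1⟩ := f1
  obtain ⟨n2, x2, y2, j2, k2, c2⟩ := f2
  obtain ⟨b1, a1, A1, K1⟩ := hN _ n1
  obtain ⟨b2, a2, A2, K2⟩ := hN _ n2
  obtain ⟨u1, u2, o1, o2, hw⟩ :=
    Pure_two3 (∑ e ∈ (G.A.erase e1).erase e2, G.kap q W e * ψ e) _ _ K1 K2
  obtain ⟨ψ1, s1, v1, w1, r1⟩ := ASrdT_chg hψ A1 j1 k1 (hn _ (hJ j1 k1) a1 b1) o1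
  obtain ⟨ψ2, s2, v2, w2, r2⟩ := ASrdT_chg s1 A2 j2 k2 (w1 _ (hn _ (hJ j2 k2) a2 b2)) o2
  have hout : ∀ f, f ∉ G.tch (W \ U) → f ≠ e1 → f ≠ e2 → ψ2 f = ψ f := fun f k i1 i2 =>
    (r2 f i2 fun hx k' => k (tch_mono (cmp_spec hx).2.1 k')).trans
      (r1 f i1 fun hx k' => k (tch_mono (cmp_spec hx).2.1 k'))
  obtain ⟨hSt, φ, hφ, hSl⟩ := fix_path ha hb hab hU hP hp hS s2 (fun e he _ i1 i2 =>
    w2 _ (w1 _ (hn e (fun k => by
      simp only [mem_ins, mem_tch, mem_sdiff] at he k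
      tauto) i1 i2))) (by
    rw [← add_sum_erase _ _ A1, ← add_sum_erase _ _ (mem_erase.2 ⟨hne.symm, A2⟩), v2,
      r2 e1 hne (c2 e1 n1 hne), v1, ← hw, ← add_assoc, add_comm]
    refine congrArg (· + _) (sum_congr rfl fun f hf => ?_)
    obtain ⟨i2, hf⟩ := mem_erase.1 hf
    obtain ⟨i1, hf⟩ := mem_erase.1 hf
    by_cases k : G.ASrdT_N W q a b f
    · rw [r2 f i2 (c2 f k i2), r1 f i1 (c1 f k i1)]
    by_cases k3 : f ∈ G.tch W
    · rcases mem_tch_iff.1 k3 with k4 | k4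
      · rw [kap_ins (mem_ins.1 k4).2.1 (mem_ins.1 k4).2.2,
          (z2 (G.sw q f)).resolve_right fun k5 => k (.inl ⟨k4, k5⟩)]
        simp
      · by_cases k5 : f = a
        · rw [hout f (k5 ▸ na) i1 i2]
        · rw [hout f ((not_not.1 fun k6 => k (.inr ⟨k4, k5, k6⟩)) ▸ nb) i1 i2]
    · rw [Pure_kap0 hf k3, zero_mul, zero_mul])
  have hP' : ∀ e ∈ G.cut W, e ∉ P := fun e he k => not_ins_of_cut he (ins_mono hU (hP.1 k))
  exact ⟨O, φ, hS.sub_ins, hSt, hSl, (hφ a (hP' a ha)).trans ((hout a na a1.symm a2.symm).trans ea),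
    (hφ b (hP' b hb)).trans ((hout b nb b1.symm b2.symm).trans eb)⟩

theorem ASrdT_sum (hT : G.Tri X T a b p) {C : Finset E} (hC : C ⊆ G.ins X) :
    ∑ e ∈ C, G.sw p e = ((C ∩ G.ins T).card : ZMod 2) := by
  rw [← sum_subset inter_subset_left fun e he k => hT.p0 e (hC he) fun k' =>
    k (mem_inter.2 ⟨he, k'⟩), sum_congr rfl fun e he => hT.p1 e (mem_inter.1 he).2, sum_const,
    nsmul_one]

theorem ASrdT_one (hT : G.Tri X T a b p) {U : Finset V} (hv : x ∈ X) (hU : x ∈ U) :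
    ∀ Z ⊆ X \ U, (G.cut Z).card ≠ 1 := by
  intro Z hZ k
  rcases Z.eq_empty_or_nonempty with rfl | hn
  · simp [cut, crs] at k
  · have := hT.s2.2.2 Z ⟨hZ.trans sdiff_subset, fun k => (mem_sdiff.1 (hZ (k hv))).2 hU⟩ hn
    omega

theorem ASrdT_card (hc : G.Cub) (hT : G.Tri X T a b p) : (G.ins T).card = 3 := by
  have := deg_sum hc (hT.sub.trans (xb_dv hc hT.s2.1 hT.s2.2.1 hT.s2.2.2).2.1)
  rw [hT.c3, hT.k3] at this
  omega

theorem ASrdT_av (hT : G.Tri X T a b p) (hv : G.Vd X a b h) {O : Finset E} {φ : E → ZMod 3}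
    (oa : Odd (h a) ↔ a ∈ O) (ob : Odd (h b) ↔ b ∈ O) (ea : φ a = h a) (eb : φ b = h b) :
    ∀ e ∈ G.cut X, Av O φ e (h e) := by
  intro e he
  have k := (hv.1 e he).2
  rw [hT.s2.1, mem_insert, mem_singleton] at he
  rcases he with rfl | rfl
  exacts [⟨k, oa, ea.symm⟩, ⟨k, ob, eb.symm⟩]

theorem ASrdT_ab (hT : G.Tri X T a b p) : a ∈ G.cut X ∧ b ∈ G.cut X := by
  simp [hT.s2.1]

/-- HINT: `not_df`, `w_lift` with weight one on `T` (an unbalanced set contains both ends of an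
edge of `T`), `Vd.half`, `xb_dv`, `ext_of_av`. -/
theorem tri_lift (hc : G.Cub) (hT : G.Tri X T a b p) (hv : G.Vd X a b h) {O J : Finset E}
    {φ : E → ZMod 3} (hS : G.St X O J) (hφ : G.Sl X O ∅ φ) (hh : ∀ e ∈ G.cut X, Av O φ e (h e))
    (hm : G.tw p X h = 2 * m) (hp : (m : ZMod 2) = ((O ∩ G.ins T).card : ZMod 2)) :
    G.Ext X h := by
  obtain ⟨-, hA, hl, -⟩ := xb_dv hc hT.s2.1 hT.s2.2.1 hT.s2.2.2
  obtain ⟨-, -, -, h8, -⟩ := hv.half hT.s2 p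
  have hw : ∀ K : Finset V, ∑ v ∈ K, (if v ∈ T then 1 else 0) = (K ∩ T).card := fun K => by
    rw [sum_ite_mem, card_eq_sum_ones]
  obtain ⟨f, h1, h2, h3⟩ := w_lift hc hA hl (hS.1.trans Ab_tch_sub) hS.2.1 hφ hh
    (not_df (hS.1.trans Ab_tch_sub) hS.2.1 p hm (by
      rw [ASrdT_sum hT inter_subset_right, inter_assoc, inter_eq_right.2 (ins_mono hT.sub), hp]))
    hT.s2.2.2 (fun v => if v ∈ T then 1 else 0) (fun K hK hB => by
      obtain ⟨e, he, k⟩ : ∃ e ∈ G.ins K, G.sw p e ≠ 0 := by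
        by_contra! k
        exact hB ⟨p, k⟩
      have k1 := ins_mono hK.1 he
      have k2 : e ∈ G.ins T := not_not.1 fun k2 => k (hT.p0 e k1 k2)
      rw [hw]
      exact one_lt_card.2 ⟨_, mem_inter.2 ⟨(mem_ins.1 he).2.1, (mem_ins.1 k2).2.1⟩, _,
        mem_inter.2 ⟨(mem_ins.1 he).2.2, (mem_ins.1 k2).2.2⟩, hl e (ins_sub_tch k1)⟩) (by
      rw [← Nat.cast_sum, hw, inter_eq_right.2 hT.sub, hT.c3]
      omega)
  exact ext_of_av hφ h1 h2 h3

/-- Even values.  HINT: `xb1`, the circuit is odd (`Ev.par_eq`), `pure_odd`, `abs_loc`, `fina`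
with `L = ∅` and `b` dead; no edge of `T` lies inside the rest (`GXb_cc`); `m` is odd. -/
theorem tri_even (hc : G.Cub) (hT : G.Tri X T a b p) (hv : G.Vd X a b h) (he : Even (h a)) :
    G.Ext X h := by
  obtain ⟨-, -, hl, -⟩ := xb_dv hc hT.s2.1 hT.s2.2.1 hT.s2.2.2
  obtain ⟨m, hm, -, -, h1, h2, -⟩ := hv.half hT.s2 p
  obtain ⟨eb, na, nb⟩ := h2 he
  obtain ⟨ha, hb⟩ := ASrdT_ab hT
  obtain ⟨C, hC, hcc, ta, h3⟩ := xb1 hc hT.s2.1 hT.s2.2.1 hT.s2.2.2 hT.sub hT.c3 hT.k3 hT.ha hT.hb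
  obtain ⟨hA, hX⟩ := sub_ins_iff.1 hC
  obtain ⟨O, hO⟩ := abs_loc (ASrdT_one hT (hX ta) ta)
  obtain ⟨⟨hS, hAb⟩, -⟩ := fina (pure_odd (L := ∅) hA hcc (by
    rw [hcc.2.1.par_eq p, ASrdT_sum hT hC, h3, Nat.cast_one])).2.2 hX (empty_subset _) hO b
    (fun e k1 k2 => by
      rw [hT.s2.1, mem_insert, mem_singleton] at k1
      exact .inr (k1.resolve_left fun k => ASrdT_nt ha ta (k ▸ k2))) (K0 := ∅)
    fun t ht => absurd ht (Set.notMem_empty t)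
  have hfr : G.fr X ∅ = G.ins X := by simp [fr]
  rw [hfr] at hAb
  obtain ⟨φ, k1, k2⟩ := hAb.2 (fun e => (h e : ZMod 3)) (fun e i1 i2 _ => by
    have := (mem_tch_iff.1 i1).resolve_left i2
    rw [hT.s2.1, mem_insert, mem_singleton] at this
    rcases this with rfl | rfl
    exacts [na, nb]) trivial
  refine tri_lift hc hT hv hS k2 (ASrdT_av hT hv
    (iff_of_false (Int.not_odd_iff_even.2 he) fun k => not_ins_of_cut ha (hS.sub_ins k))
    (iff_of_false (Int.not_odd_iff_even.2 eb) fun k => not_ins_of_cut hb (hS.sub_ins k))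
    (k1 a (not_ins_of_cut ha)) (k1 b (not_ins_of_cut hb))) hm ?_
  have k3 : O ∩ G.ins T = ∅ := eq_empty_of_forall_notMem fun e k => by
    obtain ⟨g, hg⟩ := card_pos.1 (h3.symm ▸ one_pos)
    obtain ⟨g1, g2⟩ := mem_inter.1 hg
    obtain ⟨i1, i2⟩ := mem_inter.1 k
    have i3 := (mem_ins.1 (hO.1.sub_ins i1)).2
    have i4 := s_mem_vs (G := G) g1
    have i5 := t_mem_vs (G := G) g1
    rw [mem_sdiff, mem_sdiff] at i3
    refine (three_lt_card_iff.2 ⟨_, _, _, _, (mem_ins.1 i2).2.1, (mem_ins.1 i2).2.2,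
      (mem_ins.1 g2).2.1, (mem_ins.1 g2).2.2, hl e (ins_sub_tch (ins_mono hT.sub i2)),
      fun j => i3.1.2 (j ▸ i4), fun j => i3.1.2 (j ▸ i5), fun j => i3.2.2 (j ▸ i4),
      fun j => i3.2.2 (j ▸ i5), hl g (ins_sub_tch (hC g1))⟩).ne' hT.c3
  rw [union_inter_distrib_right, k3, empty_union, h3, Nat.cast_one,
    ZMod.intCast_eq_one_iff_odd, ← Int.not_even_iff_odd]
  exact fun k => Int.not_odd_iff_even.2 he (h1 k).1

/-- Odd values, `m` even.  HINT: `xb2`; let `t` be the common vertex of the two edges of `T` on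
the path, `g` the third edge of `T` and `e3` the leaving edge of `T` at `t`.  For the potential
`p + iv (· = t)` exactly `g` and `e3` are inconsistent in `ins X`.  `abs_loc` on the rest with
`e3` dead; choose the residues of `g` and `e3` so that the switched sum vanishes; `fix_path`. -/
theorem tri_two (hc : G.Cub) (hT : G.Tri X T a b p) (hv : G.Vd X a b h) (ho : Odd (h a))
    (hm : G.tw p X h = 2 * m) (he : Even m) : G.Ext X h := by
  obtain ⟨-, -, hl, -⟩ := xb_dv hc hT.s2.1 hT.s2.2.1 hT.s2.2.2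
  obtain ⟨-, -, -, -, -, -, ob⟩ := hv.half hT.s2 p
  obtain ⟨ha, hb⟩ := ASrdT_ab hT
  obtain ⟨hcc, hvs, hje⟩ := GXb_cc hc hT.s2.1 hT.s2.2.1 hT.s2.2.2 hT.sub hT.c3 hT.k3
  obtain ⟨U, P, hU, hP, hTU, h2⟩ :=
    xb2 hc hT.s2.1 hT.s2.2.1 hT.s2.2.2 hT.sub hT.c3 hT.k3 hT.ha hT.hb
  have h3 := ASrdT_card hc hT
  have hPX := hP.1.trans (ins_mono hU)
  obtain ⟨g, hg⟩ : ∃ g, G.ins T \ P = {g} := card_eq_one.1 (by
    have := card_sdiff_add_card_inter (G.ins T) P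
    rw [inter_comm] at this
    omega)
  obtain ⟨g1, g2⟩ := mem_sdiff.1 (hg.ge (mem_singleton_self g))
  obtain ⟨gA, gs, gt⟩ := mem_ins.1 g1
  obtain ⟨t, ht, t1⟩ : ∃ t ∈ T, t ∉ ({G.s g, G.t g} : Finset V) :=
    exists_mem_notMem_of_card_lt_card (card_le_two.trans_lt (hT.c3.ge))
  rw [mem_insert, mem_singleton, not_or] at t1
  have gt' : ¬ G.At g t := fun k => k.elim (fun k => t1.1 k.symm) fun k => t1.2 k.symm
  have hat : ∀ e ∈ G.ins T, e ≠ g → G.At e t := by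
    obtain ⟨e1, i1, j1⟩ := hje t ht _ gs t1.1
    obtain ⟨e2, i2, j2⟩ := hje t ht _ gt t1.2
    have k1 := j1.at_iff.2 (.inl rfl)
    have k2 := j2.at_iff.2 (.inl rfl)
    intro e he hne
    by_contra k
    refine (three_lt_card_iff.2 ⟨e, g, e1, e2, he, g1, i1, i2, hne, fun j => k (j ▸ k1),
      fun j => k (j ▸ k2), fun j => gt' (j ▸ k1), fun j => gt' (j ▸ k2),
      Cut_je_ne j1.symm j2 (Ne.symm t1.1) (hl g (ins_sub_tch (ins_mono hT.sub g1)))⟩).ne' h3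
  obtain ⟨e3, A3, n3, a3⟩ := third_exists hc ins_sub_A (hvs.ge ht) (hcc.2.1 t)
  have u3 : ∀ e ∈ G.A, e ∉ G.ins T → G.At e t → e = e3 := fun e i1 i2 i3 =>
    third_unique hc ins_sub_A (hvs.ge ht) (hcc.2.1 t) A3 i1 n3 i2 a3 i3
  have c3 : e3 ∈ G.cut T := (mem_tch_iff.1 (sol1_at_tch A3 ht a3)).resolve_left n3
  have x3 := (hT.s2.cn hT.sub hT.k3 hT.ha hT.hb).2.1 c3
  have p3 : e3 ∉ P := fun k => by
    have k1 : G.ins T \ {g} ⊆ P := fun e he => not_not.1 fun k1 =>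
      (mem_sdiff.1 he).2 (hg.le (mem_sdiff.2 ⟨(mem_sdiff.1 he).1, k1⟩))
    obtain ⟨e1, i1, j1⟩ := hje t ht _ gs t1.1
    have k2 := j1.at_iff.2 (.inl rfl)
    refine n3 (mem_sdiff.1 (mem_of_even hc (hP.1.trans ins_sub_A)
      (hP.2.2.1.other (fun j => GXb_nt hT.s2.1 hT.ha (j ▸ ht))
        fun j => GXb_nt hT.s2.symm.1 hT.hb (j ▸ ht)) k1
      (mem_vs.2 ⟨e1, mem_sdiff.2 ⟨i1, fun j => gt' (mem_singleton.1 j ▸ k2)⟩, k2⟩) ?_ k a3)).1
    rw [dg_sdiff (singleton_subset_iff.2 g1), hcc.2.1 t, dg_singleton]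
    simp [iv, Ne.symm t1.1, Ne.symm t1.2]
  have hsw : ∀ e ∈ G.ins X, G.sw (fun v => p v + iv (v = t)) e = 1 ↔ e = g ∨ e = e3 := by
    classical
    intro e he
    have k1 := hl e (ins_sub_tch he)
    have k2 : G.sw (fun v => p v + iv (v = t)) e = G.sw p e + if G.At e t then 1 else 0 := by
      simp only [sw, At, iv]
      by_cases i1 : G.s e = t <;> by_cases i2 : G.t e = t <;> simp [i1, i2] at k1 ⊢ <;> ring
    rw [k2]
    by_cases i1 : e ∈ G.ins T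
    · have i2 : e ≠ e3 := fun j => n3 (j ▸ i1)
      by_cases i3 : e = g
      · simp [i3, gt', hT.p1 g g1]
      · simp [i2, i3, hat e i1 i3, hT.p1 e i1]
    · have i2 : e ≠ g := fun j => i1 (j ▸ g1)
      by_cases i3 : e = e3
      · simp [i3, a3, hT.p0 e3 x3 n3]
      · simp [i2, i3, hT.p0 e he i1, mt (u3 e (ins_sub_A he) i1) i3]
  have gX := ins_mono hT.sub g1
  obtain ⟨O, φ, k1, k2, k3, k4, k5⟩ := ASrdT_path (q := fun v => p v + iv (v = t)) ha hb hT.s2.2.1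
    hU hP (fun e he => (z2 _).resolve_right fun k => ((hsw e (hPX he)).1 k).elim
      (fun j => g2 (j ▸ he)) fun j => p3 (j ▸ he)) (ASrdT_one hT (hU hP.2.2.2.1) hP.2.2.2.1)
    (fun j : g = e3 => n3 (j ▸ g1))
    ⟨.inl ⟨gX, (hsw g gX).2 (.inl rfl)⟩, _, _, .inl ⟨rfl, rfl⟩,
      fun k => (mem_sdiff.1 k).2 (hTU gs), fun _ _ _ k => absurd (hTU gt) (mem_sdiff.1 k).2⟩
    ⟨.inl ⟨x3, (hsw e3 x3).2 (.inr rfl)⟩, _, _, je_ie_oe (X := T),
      fun k => (mem_sdiff.1 k).2 (hTU (ie_mem (cut_sub_tch c3))), fun f hf i1 i2 i3 => by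
        rcases hf with hf | hf
        · obtain rfl := ((hsw f hf.1).1 hf.2).resolve_right i1
          rcases (mem_tch.1 (tch_mono (cmp_spec i2).2.1 i3)).2 with k | k
          exacts [(mem_sdiff.1 k).2 (hTU gs), (mem_sdiff.1 k).2 (hTU gt)]
        · simp [hT.s2.1, hf.2] at hf⟩ fun e => (h e : ZMod 3)
  refine tri_lift hc hT hv k2 k3 (ASrdT_av hT hv (iff_of_true ho (by simp))
    (iff_of_true (ob ho) (by simp)) k4 k5) hm ?_
  have k6 : (O ∪ insert a (insert b P)) ∩ G.ins T = P ∩ G.ins T := by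
    ext e
    simp only [mem_inter, mem_union, mem_insert]
    refine and_congr_left fun i => ⟨?_, fun k => .inr (.inr (.inr k))⟩
    rintro (k | rfl | rfl | k)
    exacts [absurd (hTU (mem_ins.1 i).2.1) (mem_sdiff.1 (mem_ins.1 (k1 k)).2.1).2,
      absurd (ins_sub_tch i) hT.ha, absurd (ins_sub_tch i) hT.hb, k]
  rw [k6, h2, (ZMod.intCast_eq_zero_iff_even).2 he]
  rfl

/-- Odd values, `m` odd.  HINT: `xb3` gives a path in `Y = X \ T`; `abs_loc` on the rest of `Y`;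
the residues of `e1` and `e2` can be chosen independently (`Sl.negOn` on the components,
`cmp_spec`) without changing that of the third edge; `fix_path` in `Y` (`S2.cn`); then the
triangle closes by `pure_odd` with only its own edges free. -/
theorem tri_three (hc : G.Cub) (hT : G.Tri X T a b p) (hv : G.Vd X a b h) (ho : Odd (h a))
    (hm : G.tw p X h = 2 * m) (he : Odd m) : G.Ext X h := by
  obtain ⟨-, -, -, -, -, -, ob⟩ := hv.half hT.s2 p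
  obtain ⟨ha, hb⟩ := ASrdT_ab hT
  obtain ⟨hcc, hvs, -⟩ := GXb_cc hc hT.s2.1 hT.s2.2.1 hT.s2.2.2 hT.sub hT.c3 hT.k3
  obtain ⟨U, P, hU, hP, e1, c1, e2, c2, hne, hx⟩ :=
    xb3 hc hT.s2.1 hT.s2.2.1 hT.s2.2.2 hT.sub hT.c3 hT.k3 hT.ha hT.hb
  obtain ⟨-, hi, hcut⟩ := hT.s2.cn hT.sub hT.k3 hT.ha hT.hb
  have h3 := ASrdT_card hc hT
  have ha' : a ∈ G.cut (X \ T) := by simp [hcut]
  have hb' : b ∈ G.cut (X \ T) := by simp [hcut]
  have nT : ∀ e ∈ G.tch (X \ T), e ∉ G.ins T := fun e i1 i2 => by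
    simp only [mem_ins, mem_tch, mem_sdiff] at i1 i2
    tauto
  have p0 : ∀ e ∈ G.ins (X \ T), G.sw p e = 0 := fun e i =>
    hT.p0 e (ins_mono sdiff_subset i) (nT e (ins_sub_tch i))
  have cT : ∀ e ∈ G.cut T, e ∈ G.cut (X \ T) ∧ e ≠ a ∧ e ≠ b := fun e i =>
    ⟨by simp [hcut, i], fun j => hT.ha (j ▸ cut_sub_tch i), fun j => hT.hb (j ▸ cut_sub_tch i)⟩
  have hF : ∀ e ∈ G.cut T, e = e1 ∨ e = e2 → G.ASrdT_F (X \ T) ((X \ T) \ U) p a b e := by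
    refine fun e i1 i2 => ⟨.inr (cT e i1), _, _, je_ie_oe (X := T),
      fun k => (mem_sdiff.1 (mem_sdiff.1 k).1).2 (ie_mem (cut_sub_tch i1)), fun f hf i3 i4 i5 => ?_⟩
    rcases hf with hf | hf
    · exact zero_ne_one ((p0 f hf.1).symm.trans hf.2)
    have i6 : f ∈ G.cut T := by simpa [hcut, hf.2] using hf.1
    have i7 := ie_mem i5
    refine (hx e i2).resolve_left (mem_sdiff.1 i4).2 f i6 i3 ?_
    rwa [← eq_oe i6 (mem_sdiff.1 (mem_sdiff.1 ((cmp_spec i4).2.1 i7)).1).2 ie_at]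
  rw [← (cut_of_sub sdiff_subset ha (cut_sub_tch ha')).2,
    ← (cut_of_sub sdiff_subset hb (cut_sub_tch hb')).2] at hP
  obtain ⟨O, φ, -, k2, k3, k4, k5⟩ := ASrdT_path ha' hb' hT.s2.2.1 hU hP
    (fun e i => p0 e (ins_mono hU (hP.1 i)))
    (fun Z hZ => ASrdT_one hT (sdiff_subset (hU hP.2.2.2.1)) hP.2.2.2.1 Z
      (hZ.trans (sdiff_subset_sdiff sdiff_subset Subset.rfl))) hne (hF e1 c1 (.inl rfl))
    (hF e2 c2 (.inr rfl)) fun e => (h e : ZMod 3)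
  generalize hO : O ∪ insert a (insert b P) = O1 at k2 k3
  obtain ⟨s1, s2, -⟩ := pure_odd (L := ∅) ins_sub_A hcc (by
    rw [hcc.2.1.par_eq p, ASrdT_sum hT (ins_mono hT.sub), inter_self, h3]
    rfl)
  rw [hvs] at s1 s2
  obtain ⟨ψ, r1, r2⟩ := s2.2 φ (fun e i1 i2 _ => by
    obtain ⟨i3, i4⟩ := cT e ((mem_tch_iff.1 i1).resolve_left i2)
    refine k3.2.1 e (cut_sub_tch i3) fun k => ?_
    simpa [i4] using k2.2.2.le (mem_inter.2 ⟨k, i3⟩)) trivial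
  obtain ⟨u1, u2, u3, -⟩ := k2.union s1 sdiff_disjoint fun e _ i => by
    simpa using And.intro (fun j : e = a => hT.ha (j ▸ i)) fun j : e = b => hT.hb (j ▸ i)
  have u4 := (k3.congr (fun e i => r1 e (nT e i)) u2).union (r2.congr (fun _ _ => rfl) u3)
  rw [Set.union_empty] at u4
  rw [sdiff_union_of_subset hT.sub] at u1 u4
  refine tri_lift hc hT hv u1 u4 (ASrdT_av hT hv (iff_of_true ho (by simp [← hO]))
    (iff_of_true (ob ho) (by simp [← hO])) ((r1 a (nT a (cut_sub_tch ha'))).trans k4)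
    ((r1 b (nT b (cut_sub_tch hb'))).trans k5)) hm ?_
  rw [union_inter_cancel_right, h3, (ZMod.intCast_eq_one_iff_odd).2 he]
  rfl

theorem srd_tri (hc : G.Cub) (hT : G.Tri X T a b p) (hv : G.Vd X a b h) : G.Ext X h := by
  obtain ⟨m, hm, -⟩ := hv.half hT.s2 p
  rcases Int.even_or_odd (h a) with k | k
  · exact tri_even hc hT hv k
  rcases Int.even_or_odd m with k' | k'
  exacts [tri_two hc hT hv k hm k', tri_three hc hT hv k hm k']

end SG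

end Pool.Agent.Work.MP_8c679b_co
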