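import Pool.Agent.Work.MP_8c679b_co.Six.ASrdB
import Pool.Agent.Work.MP_8c679b_co.Six.ASrdT
import Pool.Agent.Work.MP_8c679b_co.Six.ASrdO

/-!
Extension into unbalanced two-sides.
-/

set_option autoImplicit false

namespace Pool.Agent.Work.MP_8c679b_co

open Finset

namespace SG

variable {V E : Type} [Fintype V] [DecidableEq V] [DecidableEq E] {G : SG V E}
  {G' : SG V E} {X Y T : Finset V} {a b : E} {x : V} {h : E → ℤ} {p q : V → ZMod 2}
  {τ : E → ZMod 2}

/-- a potential of the rest extends to the terminals of a three-side -/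
theorem ASrdM_pot (hc : G.Cub) (h3 : G.T3 T) (h2 : 1 < T.card) (hB : G.Bal (G.ins (X \ T))) :
    ∃ p : V → ZMod 2, ∀ e ∈ G.ins X, e ∉ G.ins T → G.sw p e = 0 := by
  classical
  obtain ⟨p0, hp0⟩ := hB
  refine ⟨fun v => if v ∈ T then
    (if k : ∃ e ∈ G.cut T, G.ie T e = v then G.n k.choose + p0 (G.oe T k.choose) else 0)
    else p0 v, fun e he hn => ?_⟩
  by_cases hk : e ∈ G.cut T
  · have k : ∃ f ∈ G.cut T, G.ie T f = G.ie T e := ⟨e, hk, rfl⟩
    have k1 : k.choose = e := by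
      by_contra hne
      exact h3.1.f2' hc h3.2.1 h2 k.choose_spec.1 hk hne k.choose_spec.2
    rw [Cut_sw (je_ie_oe (X := T)), if_pos (ie_mem (cut_sub_tch hk)), dif_pos k, k1,
      if_neg (oe_not_mem hk)]
    linear_combination z2_add_self (G.n e) + z2_add_self (p0 (G.oe T e))
  · have k1 : G.s e ∉ T ∧ G.t e ∉ T := by
      have a1 := (mem_ins.1 he).1
      rw [mem_ins] at hn
      rw [mem_cut] at hk
      tauto
    have k2 := hp0 e (mem_ins.2 ⟨(mem_ins.1 he).1, mem_sdiff.2 ⟨(mem_ins.1 he).2.1, k1.1⟩,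
      mem_sdiff.2 ⟨(mem_ins.1 he).2.2, k1.2⟩⟩)
    unfold sw at k2 ⊢
    simp only [if_neg k1.1, if_neg k1.2]
    exact k2

/-- a three-side with a terminal has a three-side as its rest -/
theorem ASrdM_rest (hX : G.S2 X a b) (hT : T ⊆ X) (h3 : (G.cut T).card = 3)
    (hn : (X \ T).Nonempty) {e : E} (he : e ∈ G.cut X) (ht : e ∈ G.tch T) :
    (G.cut (X \ T)).card = 3 := by
  have h1 := cut_add (G := G) hT
  have h2 : (G.cut X).card = 2 := by rw [hX.1, card_pair hX.2.1]
  have h4 : e ∈ G.cut T := by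
    have k1 := @hT (G.s e)
    have k2 := @hT (G.t e)
    rw [mem_cut] at he ⊢
    rw [mem_tch] at ht
    tauto
  have h5 : (G.crs (G.ins X) T).card < (G.cut T).card := by
    rw [crs_ins hT]
    exact card_lt_card ⟨sdiff_subset, fun k => (mem_sdiff.1 (k h4)).2 he⟩
  have h6 : X \ T ⊂ X := by
    refine ⟨sdiff_subset, fun k => ?_⟩
    exact (mem_sdiff.1 (k (hT (ie_mem ht)))).2 (ie_mem ht)
  have h7 := hX.2.2 _ h6 hn
  omega

/-- HINT: `srd_base`, `srd_one`.  Otherwise there is a nontrivial three-side (at least two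
vertices inside and outside).  A balanced one: `srd_bal`.  Else take `T` minimal; it is `T3`.
If `a` or `b` touches `T` then `X \ T` is a nontrivial three-side (`cut_add`), so unbalanced:
`srd_unb` with `x3n`.  Otherwise `srd_unb`, or `X \ T` is balanced: extend its potential to the
terminals of `T` so that the cut of `T` is consistent (`HT.f2'`); `exists_adt`, `Vd.half`,
`srd_b_odd`, `srd_b_even`, `srd_tri`. -/
theorem srd_step (hc : G.Cub) (hI : G.IHS) (hO : G.X3O) : G.SRD := by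
  classical
  intro X a b h k1 k2 k3 hu k4 k5 k6
  have hX : G.S2 X a b := ⟨k1, k2, k3⟩
  have hv : G.Vd X a b h := ⟨k4, k5, k6⟩
  have hX2 : (G.cut X).card = 2 := by rw [k1, card_pair k2]
  by_cases h2 : X.card ≤ 2
  · exact srd_base hc hX hv hu h2
  by_cases hN : G.N3S X
  · exact srd_one hc hX hI hv hO hu hN (not_le.1 h2)
  by_cases hb : ∃ Y ⊆ X, (G.cut Y).card = 3 ∧ 2 ≤ Y.card ∧ G.Bal (G.ins Y)
  · obtain ⟨Y, y1, y2, y3, y4⟩ := hb
    exact srd_bal hc hX hI hv hu y1 y2 y3 y4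
  have hF : (X.powerset.filter fun Y =>
      (G.cut Y).card = 3 ∧ 2 ≤ Y.card ∧ 2 ≤ (X \ Y).card).Nonempty := by
    unfold N3S at hN
    push Not at hN
    obtain ⟨Y, y1, y2, y3, y4⟩ := hN
    refine ⟨Y, mem_filter.2 ⟨mem_powerset.2 y1, y2, ?_, ?_⟩⟩
    · obtain ⟨e, he⟩ := card_pos.1 (by omega : 0 < (G.cut Y).card)
      have := card_pos.2 ⟨_, ie_mem (cut_sub_tch he)⟩
      omega
    · have : (X \ Y).card ≠ 0 := by
        intro k
        rw [subset_antisymm y1 (sdiff_eq_empty_iff_subset.1 (card_eq_zero.1 k))] at y2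
        omega
      omega
  obtain ⟨T, hT, hmin⟩ := exists_min_image _ card hF
  obtain ⟨t1, t2, t3, t4⟩ := mem_filter.1 hT
  rw [mem_powerset] at t1
  have hne : (X \ T).Nonempty := card_pos.1 (by omega)
  have hTX : T ⊂ X := by
    refine ⟨t1, fun k => ?_⟩
    obtain ⟨v, hv⟩ := hne
    exact (mem_sdiff.1 hv).2 (k (mem_sdiff.1 hv).1)
  have h3 : G.T3 T := by
    refine ⟨fun Z hZ hn => ⟨k3 Z (lt_of_le_of_lt hZ hTX) hn, fun z3 => ?_⟩, t2,
      fun k => hb ⟨T, t1, t2, t3, k⟩⟩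
    by_contra hcon
    push Not at hcon
    have z1 := card_pos.2 hn
    have z2 : (X \ T).card ≤ (X \ Z).card := card_le_card (sdiff_subset_sdiff subset_rfl hZ)
    have z4 := hmin Z (mem_filter.2 ⟨mem_powerset.2 (hZ.trans t1), z3, by omega, by omega⟩)
    exact hcon.2 (eq_of_subset_of_card_le hZ z4)
  by_cases hB : G.Bal (G.ins (X \ T))
  swap
  · exact srd_unb hc hX hI hv (x3n hc hO) t1 h3 hB
  have hab : ∀ e ∈ G.cut X, e ∉ G.tch T := fun e he ht =>
    hb ⟨X \ T, sdiff_subset, ASrdM_rest hX t1 t2 hne he ht, t4, hB⟩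
  have ha := hab a (by rw [k1]; simp)
  have hb' := hab b (by rw [k1]; simp)
  obtain ⟨p, hp⟩ := ASrdM_pot (X := X) hc h3 (by omega) hB
  rcases exists_adt hc h3 p with ⟨e1, he, hA⟩ | ⟨c3, p1⟩
  · obtain ⟨m, hm, -⟩ := hv.half hX p
    rcases Int.even_or_odd m with ho | ho
    · exact srd_b_even hc hX hv hO t1 h3 ha hb' hp he hA hm ho
    · exact srd_b_odd hc hX hI hv hO t1 h3 ha hb' hp he hA hm ho
  · exact srd_tri hc ⟨hX, t1, c3, t2, ha, hb', hp, p1⟩ hv

/-- HINT: strong induction on `G.A.card`. -/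
theorem srd (hO : ∀ G' : SG V E, G'.Cub → G'.X3O) (hc : G.Cub) : G.SRD := by
  have key : ∀ n, ∀ H : SG V E, H.A.card = n → H.Cub → H.SRD := by
    intro n
    induction n using Nat.strong_induction_on with
    | _ n ih =>
      intro H hn hH
      exact srd_step hH (fun G' h1 h2 => ih _ (hn ▸ h2) G' rfl h1) (hO H hH)
  exact key _ G rfl hc

end SG

end Pool.Agent.Work.MP_8c679b_co
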