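import Pool.Agent.Work.MP_8c679b_co.Six.AStepA
import Pool.Agent.Work.MP_8c679b_co.Six.AStepB
import Pool.Agent.Work.MP_8c679b_co.Six.ASrdM
import Pool.Agent.Work.MP_8c679b_co.Six.SpFin
import Pool.Agent.Work.MP_8c679b_co.Blow

/-!
The main induction.
-/

set_option autoImplicit false

namespace Pool.Agent.Work.MP_8c679b_co

open Finset

namespace SG

variable {V E : Type} [Fintype V] [DecidableEq V] [DecidableEq E] {G : SG V E}

/-- HINT: strong induction on `G.A.card`; `x3o_of_root`, `x3n`, `srd`, the steps, `sp_six`. -/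
theorem six_cubic (hR : ∀ G' : SG V E, G'.Root) (hc : G.Cub) (hA : G.Adm2) : G.Six := by
  induction hn : G.A.card using Nat.strong_induction_on generalizing G with
  | _ n ih =>
    have hI : G.IHM := fun G' c a l => ih _ (hn ▸ l) c a rfl
    have hO := x3o_of_root hR hc
    have hN := x3n hc hO
    by_cases hC : G.Con
    swap
    · exact step0 hc hA hI hC
    by_cases n1 : G.N1
    swap
    · exact step1 hc hA hI n1
    by_cases n2 : G.N2
    swap
    · exact step2 hc hA hI hC n1 n2
    by_cases n3 : G.N3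
    swap
    · exact step3 hc hA hI hC n1 n3
    by_cases n4 : G.N4
    swap
    · exact step4 hc hA hI hC n1 n2 (srd (fun _ c => x3o_of_root hR c) hc) n4
    by_cases h2 : G.TwoP
    swap
    · exact step7 hc hA hI hC n1 n3 n4 h2 hO hN
    by_cases n5 : G.N5
    swap
    · exact step5 hc hA hI hC n1 n2 n3 n5
    by_cases n6 : G.N6
    swap
    · exact step6 hc hA hI hC n1 n3 n4 h2 hN n6
    exact sp_six hc hA.1 hC n1 n4 n5 n6 h2

/-- HINT: `Adm.adm1`, `Adm.erase`. -/
theorem Adm.adm2 (h : G.Adm) : G.Adm2 :=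
  ⟨h.adm1, fun _ => h.erase⟩

/-- HINT: repeat the proof of `cov_of_adm` in Blow.lean (the graph `blow` is cubic and
admissible; sum the boundaries over the fibres).  If `E` is empty the statement is trivial. -/
theorem six_of_root [Fintype E] (hR : ∀ G' : SG (E × Bool) (E ⊕ E × Bool), G'.Root)
    (hA : G.Adm) : ∃ f, G.Fl6 f := by
  rcases isEmpty_or_nonempty E with hE | ⟨⟨e0⟩⟩
  · exact ⟨0, fun v => sum_eq_zero fun e _ => hE.elim e, fun e _ => hE.elim e⟩
  obtain ⟨f, hf, hf0⟩ := hA
  let c : E × Bool → ℤ := fun h => if h.2 then f h.1 else -(chi (G.n h.1) * f h.1)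
  obtain ⟨π, h1, h2, g, h3⟩ := blow_perm G.blowV (G.A ×ˢ (univ : Finset Bool)) c fun v => by
    rw [← hf v, sum_filter, sum_product, bd]
    refine sum_congr rfl fun e _ => ?_
    simp only [Fintype.sum_bool, blowV, c, iv]
    by_cases k1 : G.s e = v <;> by_cases k2 : G.t e = v <;> simp [k1, k2]
    ring
  have mem : ∀ h, π.symm h ∈ G.A ×ˢ (univ : Finset Bool) ↔ h ∈ G.A ×ˢ (univ : Finset Bool) := by
    intro h
    by_cases k : π.symm h ∈ G.A ×ˢ (univ : Finset Bool)
    · refine iff_of_true k ?_
      by_contra k'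
      exact k' (by rwa [π.symm_apply_eq.2 (h2 h k').symm] at k)
    · refine iff_of_false k ?_
      have := h2 _ k
      rw [Equiv.apply_symm_apply] at this
      rwa [this]
  have cub : (G.blow π).Cub := by
    intro h
    have e1 := blow_left (R := ℕ) G.A (fun _ => 1) h
    have e2 := blow_iv (R := ℕ) (Equiv.refl _) (G.A ×ˢ (univ : Finset Bool)) (fun _ => 1) h
    have e3 := blow_iv (R := ℕ) π (G.A ×ˢ (univ : Finset Bool)) (fun _ => 1) h
    simp only [mul_one, Equiv.refl_apply, Equiv.refl_symm, mem] at e1 e2 e3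
    rw [show (G.blow π).deg (G.blow π).A h = _ from (sum_disjSum _ _ _).trans
      (congrArg₂ (· + ·) e1 (sum_add_distrib.trans (congrArg₂ (· + ·) e2 e3)))]
    unfold iv
    split_ifs <;> simp
  have adm : (G.blow π).Adm := by
    refine ⟨Sum.elim f fun h => g h + (1 + ∑ k, |g k|), fun h => ?_, ?_⟩
    · have e1 := blow_left G.A c h
      have e2 := blow_iv (Equiv.refl _) (G.A ×ˢ (univ : Finset Bool))
        (fun h => g h + (1 + ∑ k, |g k|)) h
      have e3 := blow_iv π (G.A ×ˢ (univ : Finset Bool)) (fun h => g h + (1 + ∑ k, |g k|)) h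
      simp only [Equiv.refl_apply, Equiv.refl_symm, mem] at e2 e3
      refine (sum_disjSum _ _ _).trans ?_
      change ∑ e ∈ G.A, (iv ((e, true) = h) - iv ((e, false) = h) * chi (G.n e)) * f e +
        ∑ x ∈ G.A ×ˢ (univ : Finset Bool), (iv (x = h) - iv (π x = h) * chi 0) *
          (g x + (1 + ∑ k, |g k|)) = 0
      simp only [chi_zero, mul_one]
      rw [sum_congr rfl (g := fun e => iv ((e, true) = h) * c (e, true) +
        iv ((e, false) = h) * c (e, false)) fun e _ => by simp [c]; ring, e1]
      simp only [sub_mul]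
      rw [sum_sub_distrib, e3]
      erw [e2]
      unfold iv
      split_ifs with k
      · have := h3 _ ((mem h).2 k)
        rw [Equiv.apply_symm_apply] at this
        linarith
      · simp
    · rintro (e | h) he
      · exact hf0 e (inl_mem_disjSum.1 he)
      · have := single_le_sum (f := fun k => |g k|) (fun k _ => abs_nonneg _) (mem_univ h)
        have := neg_abs_le (g h)
        simp only [Sum.elim_inr]
        omega
  obtain ⟨φ, ⟨hφ, hc⟩, -⟩ := six_cubic hR cub adm.adm2 (Sum.inl e0) 2 (Or.inl rfl)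
  refine ⟨fun e => φ (Sum.inl e), fun v => ?_, fun e he => hc _ (inl_mem_disjSum.2 he)⟩
  · have := sum_eq_zero (s := univ.filter fun h => G.blowV h = v) fun h _ => hφ h
    simp only [bd] at this
    rw [sum_comm] at this
    simp only [← sum_mul, sum_sub_distrib, blow_fib] at this
    replace this := (sum_disjSum _ _ _).symm.trans this
    rw [sum_eq_zero (s := G.A ×ˢ (univ : Finset Bool)) fun k _ => ?_, add_zero] at this
    · exact this
    · change (iv (G.blowV k = v) - iv (G.blowV (π k) = v) * chi 0) * _ = 0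
      rw [h1, chi_zero, mul_one, sub_self, zero_mul]

end SG

end Pool.Agent.Work.MP_8c679b_co
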