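import Pool.Agent.Work.MP_8c679b_co.Six.ACon
import Pool.Agent.Work.MP_8c679b_co.Six.ABal
import Pool.Agent.Work.MP_8c679b_co.Six.GXb

/-!
Two-sides: contraction of a three-side.
-/

set_option autoImplicit false

namespace Pool.Agent.Work.MP_8c679b_co

open Finset

namespace SG

variable {V E : Type} [Fintype V] [DecidableEq V] [DecidableEq E] {G : SG V E}
  {G' : SG V E} {X Y T : Finset V} {a b : E} {x : V} {h : E → ℤ} {p q : V → ZMod 2}
  {τ : E → ZMod 2}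

variable (G) in
/-- two-sides all of whose proper subsets have at least three leaving edges -/
def S2 (X : Finset V) (a b : E) : Prop :=
  G.cut X = {a, b} ∧ a ≠ b ∧ ∀ Y ⊂ X, Y.Nonempty → 3 ≤ (G.cut Y).card

variable (G) in
/-- values accepted by a digon -/
def Vd (X : Finset V) (a b : E) (h : E → ℤ) : Prop :=
  G.Bv X h ∧ Even (h a + h b) ∧ |h a| ≠ |h b|

variable (G) in
/-- the induction hypothesis for two-sides -/
def IHS : Prop := ∀ G' : SG V E, G'.Cub → G'.A.card < G.A.card → G'.SRD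

theorem S2.symm (h : G.S2 X a b) : G.S2 X b a := by
  exact ⟨h.1.trans (pair_comm a b), h.2.1.symm, h.2.2⟩

theorem Vd.symm (hv : G.Vd X a b h) : G.Vd X b a h := by
  exact ⟨hv.1, add_comm (h a) (h b) ▸ hv.2.1, hv.2.2.symm⟩

theorem S2.con (hc : G.Cub) (hX : G.S2 X a b) (hY : Y ⊆ X) (h3 : (G.cut Y).card = 3)
    (hC : G.Ce G' Y x τ) : G'.S2 (insert x (X \ Y)) a b ∧ G'.Cub ∧
      G'.ins (insert x (X \ Y)) = G.ins X \ G.ins Y := by
  have hx := hC.mem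
  have h1 : insert x (X \ Y) ∪ Y = X := by
    rw [insert_union, sdiff_union_of_subset hY, insert_eq_of_mem (hY hx)]
  obtain ⟨k1, k2⟩ := hC.in_ (Z := insert x (X \ Y)) (mem_insert_self _ _)
  rw [h1] at k1 k2
  refine ⟨⟨k1.trans hX.1, hX.2.1, fun W hW hn => ?_⟩, hC.cub hc h3, k2⟩
  obtain ⟨v, v1, v2⟩ := exists_of_ssubset hW
  by_cases k : x ∈ W
  · rw [(hC.in_ k).1]
    have v3 := mem_sdiff.1 ((mem_insert.1 v1).resolve_left fun e => v2 (e ▸ k))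
    refine hX.2.2 _ ((ssubset_iff_of_subset ?_).2 ⟨v, v3.1, fun e => ?_⟩) (hn.mono subset_union_left)
    · rw [← h1]
      exact union_subset_union_left hW.1
    · exact (mem_union.1 e).elim v2 v3.2
  · have k3 : W ⊆ X \ Y := fun w hw =>
      (mem_insert.1 (hW.1 hw)).resolve_left fun e => k (e ▸ hw)
    rw [(hC.nin k).1, Finset.sdiff_eq_self_iff_disjoint.2 (sdiff_disjoint.mono_left k3)]
    exact hX.2.2 _ ((ssubset_iff_of_subset (k3.trans sdiff_subset)).2 ⟨x, hY hx, k⟩) hn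

/-- HINT: `S2.con`, `Ce.card` (`deg_sum`), the induction hypothesis with `cf Y h`, `Ce.tw_in`,
`Ce.back`. -/
theorem srd_con (hc : G.Cub) (hX : G.S2 X a b) (hI : G.IHS) (hv : G.Vd X a b h) (hY : Y ⊆ X)
    (h3 : (G.cut Y).card = 3) (h2 : 2 ≤ Y.card) (hC : G.Ce G' Y x fun e => G.n e + q (G.ie Y e))
    (hu : ¬ G'.Bal (G.ins X \ G.ins Y))
    (hE : ∀ f : E → ℤ, (∀ e ∈ G.cut X, f e = h e) → (∀ v ∈ X \ Y, G.bd f v = 0) → G.Bv Y f →
      G.tw q Y f = 0 → G.Ext Y f) : G.Ext X h := by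
  obtain ⟨k1, k2, k3⟩ := hX.con hc hY h3 hC
  have k4 := deg_sum hc (hY.trans (xb_dv hc hX.1 hX.2.1 hX.2.2).2.1)
  have k5 : G'.cut (insert x (X \ Y)) = G.cut X := k1.1.trans hX.1.symm
  obtain ⟨f, f1, f2, f3⟩ := hI G' k2 (hC.card (card_pos.1 (by omega))) _ a b (G.cf Y h) k1.1
    k1.2.1 k1.2.2 (k3 ▸ hu) (fun e he => (ACon_bv h e).2 (hv.1 e (k5 ▸ he)))
    (by rw [Int.even_add, (cf_abs h a).2.2, (cf_abs h b).2.2, ← Int.even_add]; exact hv.2.1)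
    (by rw [(cf_abs h a).1, (cf_abs h b).1]; exact hv.2.2)
  rw [k5] at f1
  have f4 : ∀ e ∈ G.cut X, G.cf Y f e = h e := fun e he => by
    rw [ACon_congr (f1 e he), cf_cf]
  refine hC.back hY f1 f2 f3 (hE _ f4 (fun v hv => ?_) (fun e he => ?_) ?_)
  · rw [← hC.agr.bd _ (mem_sdiff.1 hv).2, cf_cf, f2 v (mem_insert_of_mem hv)]
  · rcases mem_tch_iff.1 (tch_mono hY (cut_sub_tch he)) with k | k
    · exact (ACon_bv f e).2 (f3 e (k3 ▸ mem_sdiff.2 ⟨k, not_ins_of_cut he⟩))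
    · rw [f4 e k]
      exact hv.1 e k
  · rw [← hC.tw_in, cf_cf, f2 x (mem_insert_self _ _)]

/-- a balanced three-side.  HINT: `exists_ce`, `Ce.bal_iff`, `bal_rch`, `b23`, `srd_con`. -/
theorem srd_bal (hc : G.Cub) (hX : G.S2 X a b) (hI : G.IHS) (hv : G.Vd X a b h)
    (hu : ¬ G.Bal (G.ins X)) (hY : Y ⊆ X) (h3 : (G.cut Y).card = 3) (h2 : 2 ≤ Y.card)
    (hB : G.Bal (G.ins Y)) : G.Ext X h := by
  obtain ⟨p, hp⟩ := hB
  obtain ⟨x, hx⟩ : Y.Nonempty := card_pos.1 (by omega)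
  obtain ⟨G', hC⟩ := exists_ce (G := G) hx fun e => G.n e + p (G.ie Y e)
  have k1 : Y ≠ X := fun k => by
    rw [k, hX.1, card_pair hX.2.1] at h3
    omega
  have k2 : ∀ Z ⊆ Y, (G.cut Z).card ≠ 1 := fun Z hZ k => by
    obtain ⟨e, he⟩ : (G.cut Z).Nonempty := card_pos.1 (by omega)
    have := hX.2.2 Z (Finset.ssubset_of_subset_of_ssubset hZ (hY.ssubset_of_ne k1))
      ⟨_, ie_mem (cut_sub_tch he)⟩
    omega
  refine srd_con hc hX hI hv hY h3 h2 hC (fun k => hu ?_) fun f _ _ f3 f4 =>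
    b23 hc (hY.trans (xb_dv hc hX.1 hX.2.1 hX.2.2).2.1) k2 h3.le hp f3 f4
  rwa [hC.bal_iff hp (bal_rch k2 h3.le) (hC.hA ▸ sdiff_subset_sdiff ins_sub_A Subset.rfl),
    sdiff_union_of_subset (ins_mono hY)] at k

/-- a three-side with unbalanced rest.  HINT: `X3N`, `Agr.bal`, `srd_con`. -/
theorem srd_unb (hc : G.Cub) (hX : G.S2 X a b) (hI : G.IHS) (hv : G.Vd X a b h) (hN : G.X3N)
    (hT : T ⊆ X) (h3 : G.T3 T) (hu : ¬ G.Bal (G.ins (X \ T))) : G.Ext X h := by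
  obtain ⟨q, -, hq⟩ := hN T h3
  have k1 := deg_sum hc (hT.trans (xb_dv hc hX.1 hX.2.1 hX.2.2).2.1)
  have k2 : 0 < (G.ins T).card := card_pos.2 (nonempty_iff_ne_empty.2 fun k =>
    h3.2.2 ⟨fun _ => 0, fun e he => absurd (k ▸ he) (notMem_empty e)⟩)
  have k3 := h3.2.1
  obtain ⟨x, hx⟩ : T.Nonempty := card_pos.1 (by omega)
  obtain ⟨G', hC⟩ := exists_ce (G := G) hx fun e => G.n e + q (G.ie T e)
  refine srd_con hc hX hI hv hT k3 (by omega) hC (fun k => hu ?_) fun f _ _ f3 f4 => hq f f3 f4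
  exact (hC.agr.bal sdiff_disjoint Subset.rfl).1.1 (k.mono fun e he =>
    mem_sdiff.2 ⟨ins_mono sdiff_subset he, fun k' =>
      (mem_sdiff.1 (mem_ins.1 he).2.1).2 (mem_ins.1 k').2.1⟩)

/-- the base case.  HINT: `xb_dv`, `deg_sum`, `Dg.ext`. -/
theorem srd_base (hc : G.Cub) (hX : G.S2 X a b) (hv : G.Vd X a b h) (hu : ¬ G.Bal (G.ins X))
    (h2 : X.card ≤ 2) : G.Ext X h := by
  obtain ⟨k1, k2, k3, -⟩ := xb_dv hc hX.1 hX.2.1 hX.2.2
  have k4 : (G.cut X).card = 2 := by rw [hX.1, card_pair hX.2.1]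
  have k5 : X = {G.ie X a, G.ie X b} := (eq_of_subset_of_card_le
    (Cut_pair (GXb_ta hX.1) (GXb_ta hX.symm.1)) (by rw [card_pair k1]; exact h2)).symm
  generalize G.ie X a = u at k5
  generalize G.ie X b = v at k5
  have k6 := deg_sum hc k2
  have huv : u ≠ v := by
    rintro rfl
    rw [k5, pair_eq_singleton, card_singleton, ← pair_eq_singleton, ← k5] at k6
    omega
  have k7 : X.card = 2 := by rw [k5, card_pair huv]
  obtain ⟨e1, e2, -, k8⟩ := card_eq_two.1 (show (G.ins X).card = 2 by omega)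
  have k9 : ∀ e ∈ G.ins X, G.Je e u v := fun e he => by
    have j1 := k3 e (ins_sub_tch he)
    obtain ⟨-, j2, j3⟩ := mem_ins.1 he
    rw [k5, mem_insert, mem_singleton] at j2 j3
    unfold Je
    grind
  have m1 : e1 ∈ G.ins X := k8 ▸ mem_insert_self _ _
  have m2 : e2 ∈ G.ins X := k8 ▸ mem_insert_of_mem (mem_singleton_self _)
  refine Dg.ext hc ⟨u, v, e1, e2, huv, k5, ins_sub_A m1, ins_sub_A m2, k9 e1 m1, k9 e2 m2,
    fun k => hu ⟨fun w => if w = u then G.n e1 else 0, fun e he => ?_⟩, k4⟩ hX.1 hv.1 hv.2.1 hv.2.2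
  rw [Cut_sw (k9 e he), if_pos rfl, if_neg huv.symm, add_zero]
  rw [k8, mem_insert, mem_singleton] at he
  rcases he with rfl | rfl
  · exact z2_add_self _
  · rw [k]
    exact z2_add_self _

/-- the rest of a three-side without terminal is connected.  HINT: two components would need six
leaving edges. -/
theorem S2.cn (hX : G.S2 X a b) (hT : T ⊆ X) (h3 : (G.cut T).card = 3) (ha : a ∉ G.tch T)
    (hb : b ∉ G.tch T) : G.Cn (X \ T) (G.ins (X \ T)) ∧ G.cut T ⊆ G.ins X ∧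
      G.cut (X \ T) = insert a (insert b (G.cut T)) := by
  have k0 : ∀ e ∈ G.cut X, e ∉ G.tch T := fun e he => by
    rw [hX.1, mem_insert, mem_singleton] at he
    rcases he with rfl | rfl
    exacts [ha, hb]
  have k1 : G.cut T ⊆ G.ins X := fun e he =>
    (mem_tch_iff.1 (tch_mono hT (cut_sub_tch he))).resolve_right fun k => k0 e k (cut_sub_tch he)
  have k2 : G.cut (X \ T) = G.cut X ∪ G.cut T := by
    refine Subset.antisymm cut_sdiff_sub fun e he => ?_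
    rcases mem_union.1 he with k | k
    · have k' := k0 e k
      simp only [mem_cut, mem_tch, mem_sdiff] at k k' ⊢
      tauto
    · have k' := k1 k
      simp only [mem_cut, mem_ins, mem_sdiff] at k k' ⊢
      tauto
  refine ⟨fun y hy z hz => ?_, k1, by rw [k2, hX.1, insert_union, ← insert_eq]⟩
  obtain ⟨e, he⟩ : (G.cut T).Nonempty := card_pos.1 (by omega)
  have hs : X \ T ⊂ X := sdiff_ssubset hT ⟨_, ie_mem (cut_sub_tch he)⟩
  obtain ⟨c1, c2, c3, -⟩ := cmp_spec (G := G) hy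
  by_contra k
  have h4 := cut_add (G := G) c2
  have h5 := hX.2.2 _ (Finset.ssubset_of_subset_of_ssubset c2 hs) ⟨_, c1⟩
  have h6 := hX.2.2 ((X \ T) \ G.cmp (X \ T) y) (Finset.ssubset_of_subset_of_ssubset sdiff_subset hs)
    ⟨z, mem_sdiff.2 ⟨hz, fun k' => k (mem_cmp.1 k').2⟩⟩
  have h7 := card_union_le (G.cut X) (G.cut T)
  rw [← k2, hX.1, card_pair hX.2.1] at h7
  rw [c3, card_empty] at h4
  omega

theorem ASrd_half {s t x y : ℤ} (hs : s = 1 ∨ s = -1) (ht : t = 1 ∨ t = -1)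
    (hx : x ≠ 0 ∧ |x| ≤ 5) (hy : y ≠ 0 ∧ |y| ≤ 5) (he : Even (x + y)) (hn : |x| ≠ |y|) :
    ∃ m : ℤ, s * x + t * y = 2 * m ∧ m ≠ 0 ∧ |x| + |y| ≤ 8 ∧
      (Even m → Odd x ∧ Odd y ∧ (m : ZMod 3) ≠ 0) ∧
      (Even x → Even y ∧ (x : ZMod 3) ≠ 0 ∧ (y : ZMod 3) ≠ 0) ∧ (Odd x → Odd y) := by
  refine ⟨(s * x + t * y) / 2, ?_⟩
  simp only [Ne, ZMod.intCast_zmod_eq_zero_iff_dvd, Int.even_iff, Int.odd_iff,
    Nat.cast_ofNat] at *
  rcases abs_cases x with ⟨k1, k2⟩ | ⟨k1, k2⟩ <;> rcases abs_cases y with ⟨k3, k4⟩ | ⟨k3, k4⟩ <;>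
    rcases hs with rfl | rfl <;> rcases ht with rfl | rfl <;>
    refine ⟨?_, ?_, ?_, ?_, ?_, ?_⟩ <;> omega

/-- the arithmetic of the accepted values: `tw p X h = 2 m` -/
theorem Vd.half (hX : G.S2 X a b) (hv : G.Vd X a b h) (p : V → ZMod 2) :
    ∃ m : ℤ, G.tw p X h = 2 * m ∧ m ≠ 0 ∧ ∑ e ∈ G.cut X, |h e| ≤ 8 ∧
      (Even m → Odd (h a) ∧ Odd (h b) ∧ (m : ZMod 3) ≠ 0) ∧
      (Even (h a) → Even (h b) ∧ (h a : ZMod 3) ≠ 0 ∧ (h b : ZMod 3) ≠ 0) ∧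
      (Odd (h a) → Odd (h b)) := by
  have ma : a ∈ G.cut X := hX.1 ▸ mem_insert_self _ _
  have mb : b ∈ G.cut X := hX.1 ▸ mem_insert_of_mem (mem_singleton_self _)
  rw [tw, hX.1, sum_pair hX.2.1, sum_pair hX.2.1]
  exact ASrd_half (Def6_kap p ma) (Def6_kap p mb) (hv.1 a ma) (hv.1 b mb) hv.2.1 hv.2.2

end SG

end Pool.Agent.Work.MP_8c679b_co
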