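import Pool.Agent.Work.MP_8c679b_co.Six.ASrd

/-!
Two-sides: a three-side without terminal and with balanced rest.
-/

set_option autoImplicit false

namespace Pool.Agent.Work.MP_8c679b_co

open Finset

namespace SG

variable {V E : Type} [Fintype V] [DecidableEq V] [DecidableEq E] {G : SG V E}
  {G' : SG V E} {X Y T : Finset V} {a b : E} {x : V} {h : E → ℤ} {p q : V → ZMod 2}
  {τ : E → ZMod 2}
  {e1 : E}

theorem ASrdB_card (hc : G.Cub) (h3 : G.T3 T) (he : e1 ∈ G.cut T) : 1 < T.card := by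
  by_contra k
  have k1 : T = {G.ie T e1} :=
    eq_singleton_iff_unique_mem.2 ⟨Spl_ie he, fun v hv =>
      card_le_one.1 (not_lt.1 k) v hv _ (Spl_ie he)⟩
  have k2 := (h3.1.vtx hc (Spl_ie he)).2.1
  rw [← k1] at k2
  exact h3.2.2 ⟨fun _ => 0, fun e he' => absurd (k2 ▸ he') (notMem_empty e)⟩

theorem ASrdB_iv (hc : G.Cub) (h3 : G.T3 T) (he : e1 ∈ G.cut T) {e : E} (he' : e ∈ G.cut T) :
    (iv (G.ie T e = G.ie T e1) : ZMod 2) = iv (e = e1) := by
  by_cases k : e = e1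
  · simp [iv, k]
  · have k1 : G.ie T e ≠ G.ie T e1 := h3.1.f2' hc h3.2.1 (ASrdB_card hc h3 he) he' he k
    simp [iv, k, k1]

theorem ASrdB_oe {e : E} (he : e ∈ G.cut T) (he' : e ∈ G.ins X) : G.oe T e ∈ X \ T := by
  refine mem_sdiff.2 ⟨?_, oe_not_mem he⟩
  rcases oe_at (G := G) (X := T) (e := e) with k | k
  exacts [k ▸ (mem_ins.1 he').2.1, k ▸ (mem_ins.1 he').2.2]

theorem ASrdB_tw {R : Type} [CommRing R] (hT : T ⊆ X)
    (hp : ∀ e ∈ G.ins X, e ∉ G.ins T → G.sw p e = 0) {f : E → R}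
    (hf : ∀ v ∈ X \ T, G.bd f v = 0) : G.tw p T f = G.tw p X f := by
  have k1 := Def6_split (G := G) p X f
  have k2 := Def6_split (G := G) p T f
  rw [← sum_sdiff hT, sum_eq_zero fun v hv => by rw [hf v hv, mul_zero], zero_add, k2,
    ← sum_sdiff (ins_mono (G := G) hT), sum_eq_zero (s := G.ins X \ G.ins T) fun e he => by
      have k := mem_sdiff.1 he
      rw [kap_ins (mem_ins.1 k.1).2.1 (mem_ins.1 k.1).2.2, hp e k.1 k.2, chi_zero, sub_self,
        mul_zero, zero_mul], zero_add] at k1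
  have k3 : ∑ e ∈ G.ins T, G.kap p T e * f e = ∑ e ∈ G.ins T, G.kap p X e * f e :=
    sum_congr rfl fun e he => by
      rw [kap_ins (mem_ins.1 he).2.1 (mem_ins.1 he).2.2,
        kap_ins (hT (mem_ins.1 he).2.1) (hT (mem_ins.1 he).2.2)]
  rw [k3] at k1
  exact add_right_cancel k1

theorem ASrdB_q (hc : G.Cub) (h3 : G.T3 T) (he : e1 ∈ G.cut T) (f : E → ℤ) :
    G.tw (fun v => p v + iv (v = G.ie T e1)) T f = G.tw p T f - 2 * (G.kap p T e1 * f e1) := by
  have k : ∀ e ∈ G.cut T, (G.kap (fun v => p v + iv (v = G.ie T e1)) T e : ℤ) * f e =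
      G.kap p T e * f e - if e = e1 then 2 * (G.kap p T e1 * f e1) else 0 := fun e he' => by
    rw [(kap_sign _ he').1, chi_add, ASrdB_iv hc h3 he he']
    split_ifs with k
    · subst k
      rw [(kap_sign p he').1]
      simp only [iv, if_true, chi_one]
      ring
    · rw [(kap_sign p he').1]
      simp only [iv, k, if_false, chi_zero]
      ring
  rw [tw, tw, sum_congr rfl k, sum_sub_distrib, sum_ite_eq', if_pos he]

/-- the even case inside the contraction -/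
theorem ASrdB_core (hc : G.Cub) (hX : G.S2 X a b) (hv : G.Vd X a b h) (hx : x ∈ X)
    (xa : x ≠ G.ie X a) (xb : x ≠ G.ie X b) (h1 : e1 ∈ G.ins X) (h2 : G.At e1 x)
    (hp : ∀ e ∈ G.ins X, G.sw p e = iv (e = e1)) {m : ℤ} (hm : G.tw p X h = 2 * m)
    (ho : Even m) : ∃ f : E → ℤ, (∀ e ∈ G.cut X, f e = h e) ∧ (∀ v ∈ X, G.bd f v = 0) ∧
      (∀ e ∈ G.ins X, f e ≠ 0 ∧ |f e| ≤ 5) ∧ ∃ e ∈ G.A, G.At e x ∧ Odd (f e) := by
  obtain ⟨m', n1, -, n2, n3, -⟩ := hv.half hX p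
  obtain rfl : m = m' := by omega
  obtain ⟨oa, ob, m3⟩ := n3 ho
  obtain ⟨-, d2, d3, -⟩ := xb_dv hc hX.1 hX.2.1 hX.2.2
  obtain ⟨U, P, hU, hP, xU, nP⟩ := xb0 hc hX.1 hX.2.1 hX.2.2 hx xa xb e1
  have ha : a ∈ G.cut X := by rw [hX.1]; simp
  have hb : b ∈ G.cut X := by rw [hX.1]; simp
  have hab : ∀ e ∈ G.cut X, e = a ∨ e = b := fun e he => by simpa [hX.1] using he
  have p0 : ∀ e ∈ G.ins X, e ≠ e1 → G.sw p e = 0 := fun e he k => by simp [hp e he, iv, k]
  have c1 : e1 ∉ G.cut X := fun k => not_ins_of_cut k h1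
  have tU : e1 ∈ G.tch U := Cut_tch (mem_ins.1 h1).1 h2 xU
  obtain ⟨O', k1⟩ := abs_loc (G := G) (W := X \ U) fun Y hY k => by
    rcases Y.eq_empty_or_nonempty with rfl | hn
    · simp [cut, crs] at k
    · have := hX.2.2 Y (hY.trans_ssubset (sdiff_ssubset hU ⟨x, xU⟩)) hn
      omega
  obtain ⟨k2, k3, k4⟩ := k1.neg (L := (G.cut (X \ U)).erase e1) e1 fun e he =>
    (em (e = e1)).elim Or.inr fun k => Or.inl (mem_erase.2 ⟨k, he⟩)
  have na := KBp_out hU ha hP.2.2.2.1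
  have nb := KBp_out hU hb hP.2.2.2.2
  have c0 : (-(chi (p (G.s e1)) * (m : ZMod 3))) ≠ 0 := by
    rcases z2 (p (G.s e1)) with k | k <;> simpa [k] using m3
  have k5 : ∀ e, e ≠ a → e ≠ b → (if e ∈ G.cut X then (h e : ZMod 3) else
      if e = e1 then -(chi (p (G.s e1)) * (m : ZMod 3)) else 1) ≠ 0 := fun e e2 e3 => by
    rw [if_neg fun k => (hab e k).elim e2 e3]
    split_ifs
    · exact c0
    · decide
  obtain ⟨ψ, k6, k7⟩ := k4 (fun e => if e ∈ G.cut X then (h e : ZMod 3) else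
      if e = e1 then -(chi (p (G.s e1)) * (m : ZMod 3)) else 1)
    (fun e he _ _ => k5 e (fun k => na (k ▸ he)) fun k => nb (k ▸ he)) trivial
  have k8 : ∀ e ∈ G.cut X, ψ e = h e := fun e he => by
    refine (k6 e fun k => ?_).trans (if_pos he)
    rcases hab e he with rfl | rfl
    exacts [na (k3 k), nb (k3 k)]
  have i1 : e1 ∉ G.ins (X \ U) := fun k => Quo_ins k disjoint_sdiff tU
  have k9 : ψ e1 = -(chi (p (G.s e1)) * (m : ZMod 3)) := by
    refine (k6 e1 fun k => ?_).trans ((if_neg c1).trans (if_pos rfl))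
    rcases mem_union.1 k with k | k
    · exact i1 k
    · exact (mem_erase.1 (mem_inter.1 k).2).1 rfl
  obtain ⟨s1, φ, s2, s3⟩ := fix_path ha hb hX.2.1 hU hP
    (fun e he => p0 e (ins_mono hU (hP.1 he)) fun k => nP (k ▸ he))
    k2 k7 (fun e he _ e2 e3 => by
      by_cases k : e ∈ G.tch (X \ U)
      · exact k7.2.1 e k fun k' => Quo_ins (k2.sub_ins k') disjoint_sdiff he
      · rw [k6 e fun k' => k (k3 k')]
        exact k5 e e2 e3) (by
      have j1 : G.tw p X ψ = 2 * (m : ZMod 3) := by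
        have j := congrArg (Int.cast : ℤ → ZMod 3) hm
        rw [tw, Int.cast_sum, Int.cast_mul, Int.cast_ofNat] at j
        rw [← j]
        exact sum_congr rfl fun e he => by rw [k8 e he, Int.cast_mul, Def6_cast]
      rw [← sum_bd, Def6_split, j1, sum_eq_single_of_mem e1 h1 fun e he k => by
        rw [kap_ins (mem_ins.1 he).2.1 (mem_ins.1 he).2.2, p0 e he k, chi_zero, sub_self,
          mul_zero, zero_mul], kap_ins (mem_ins.1 h1).2.1 (mem_ins.1 h1).2.2, hp e1 h1, k9]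
      simp only [iv, if_true, chi_one]
      linear_combination (-2 * (m : ZMod 3)) * chi_mul_self (R := ZMod 3) (p (G.s e1)))
  have hOA := s1.1.trans Ab_tch_sub
  have nO : e1 ∉ O' ∪ insert a (insert b P) := by
    simp only [mem_union, mem_insert, not_or]
    exact ⟨fun k => i1 (k2.sub_ins k), fun k => c1 (k ▸ ha), fun k => c1 (k ▸ hb), nP⟩
  obtain ⟨f, f1, f2, f3⟩ := w_lift hc d2 d3 hOA s1.2.1 s3 (h := h)
    (fun e he => ⟨(hv.1 e he).2, by
      rcases hab e he with rfl | rfl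
      · exact iff_of_true oa (by simp)
      · exact iff_of_true ob (by simp), by
      rw [s2 e fun k => not_ins_of_cut he (ins_mono hU (hP.1 k)), k8 e he]⟩)
    (not_df hOA s1.2.1 p hm (by
      rw [(ZMod.intCast_zmod_eq_zero_iff_dvd m 2).2 ho.two_dvd]
      exact (sum_eq_zero fun e he =>
        p0 e (mem_inter.1 he).2 fun k => nO (k ▸ (mem_inter.1 he).1)).symm))
    hX.2.2 (fun v => if v = x then 2 else 0)
    (fun K hK hB => by
      by_cases k : x ∈ K
      · rw [sum_ite_eq', if_pos k]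
      · refine absurd ⟨p, fun e he => p0 e (ins_mono hK.1 he) fun k' => k ?_⟩ hB
        subst k'
        rcases h2 with rfl | rfl
        exacts [(mem_ins.1 he).2.1, (mem_ins.1 he).2.2])
    (by
      have j : ∑ v ∈ X, (((if v = x then 2 else 0 : ℕ) : ℕ) : ℤ) = 2 := by
        rw [← Nat.cast_sum, sum_ite_eq', if_pos hx]
        rfl
      omega)
  refine ⟨f, f1, f2, fun e he => ⟨(f3 e (ins_sub_tch he)).ne_zero (s3.2.1 e (ins_sub_tch he)),
    (f3 e (ins_sub_tch he)).1⟩, ?_⟩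
  obtain ⟨e, j1, j2⟩ := mem_vs.1 ((hP.2.1 x xU _ hP.2.2.2.1).mem_vs xa)
  have j3 := ins_mono hU (hP.1 j1)
  exact ⟨e, (mem_ins.1 j3).1, j2, (f3 e (ins_sub_tch j3)).2.1.2 (by simp [j1])⟩

/-- The contraction is unbalanced.  HINT: in the new graph only `e1` is inconsistent for `p`
(with value zero at `x`); `S2.cn`, `Ce.bal`, `HT.f2'`. -/
theorem srd_b_unb (hc : G.Cub) (hX : G.S2 X a b) (hT : T ⊆ X) (h3 : G.T3 T) (ha : a ∉ G.tch T)
    (hb : b ∉ G.tch T) (hp : ∀ e ∈ G.ins X, e ∉ G.ins T → G.sw p e = 0) (he : e1 ∈ G.cut T)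
    (hC : G.Ce G' T x fun e => G.n e + (p (G.ie T e) + iv (G.ie T e = G.ie T e1))) :
    ¬ G'.Bal (G.ins X \ G.ins T) ∧
      ∀ e ∈ G.ins X \ G.ins T, G'.sw (Function.update p x 0) e = iv (e = e1) := by
  have xT := hC.mem
  obtain ⟨c1, c2, -⟩ := hX.cn hT h3.2.1 ha hb
  have hs : G.ins X \ G.ins T ⊆ G'.A := by
    rw [hC.hA]
    exact sdiff_subset_sdiff ins_sub_A subset_rfl
  have z : ∀ e ∈ G.cut T, G.n e + p (G.ie T e) + p (G.oe T e) = 0 := fun e he' => by
    rw [← Cut_sw je_ie_oe]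
    exact hp e (c2 he') (not_ins_of_cut he')
  refine ⟨fun hB => ?_, fun e he' => ?_⟩
  · obtain ⟨r, r1, r2⟩ := (hC.bal hs).1 hB
    obtain ⟨e2, n1, n2⟩ : ∃ e2 ∈ G.cut T, e2 ≠ e1 :=
      exists_mem_ne (by rw [h3.2.1]; decide) e1
    have r3 : ∀ e ∈ G.cut T, p (G.oe T e) + r (G.oe T e) = iv (e = e1) := fun e k => by
      have j1 := r2 e (mem_sdiff.2 ⟨c2 k, not_ins_of_cut k⟩) k
      rw [ASrdB_iv hc h3 he k] at j1
      linear_combination z e k - j1
    have r4 := (c1 _ (ASrdB_oe n1 (c2 n1)) _ (ASrdB_oe he (c2 he))).closed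
      (P := fun v => p v + r v = 0) (fun e k => by
        have j0 : e ∉ G.tch T := Quo_ins k disjoint_sdiff
        have j1 := ins_mono sdiff_subset k
        have j2 : e ∉ G.ins T := fun j => j0 (ins_sub_tch j)
        have j3 := hp e j1 j2
        have j4 := r1 e (mem_sdiff.2 ⟨j1, j2⟩) fun j => j0 (cut_sub_tch j)
        have j5 : p (G.s e) + r (G.s e) = p (G.t e) + r (G.t e) := by
          refine z2_eq_of_add ?_
          rw [sw] at j3 j4
          linear_combination j3 + j4 - z2_add_self (G.n e)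
        simp only [j5]) (by simp [r3 e2 n1, iv, n2])
    rw [r3 e1 he] at r4
    simp [iv] at r4
  · obtain ⟨j1, j2⟩ := mem_sdiff.1 he'
    by_cases k : e ∈ G.cut T
    · have j3 : G.oe T e ≠ x := fun j => oe_not_mem k (j ▸ xT)
      rw [sw, (hC.ed e k).1, (hC.ed e k).2, (hC.agr.cut e k).1, Function.update_self,
        Function.update_of_ne j3, ASrdB_iv hc h3 he k]
      linear_combination z e k
    · obtain ⟨o1, o2, o3, o4, o5⟩ := ACon_off hC (hs he') k
      have j3 : e ≠ e1 := fun j => k (j ▸ he)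
      rw [sw, o3, o4, o5, Function.update_of_ne (ne_of_mem_of_not_mem xT o1).symm,
        Function.update_of_ne (ne_of_mem_of_not_mem xT o2).symm, iv, if_neg j3]
      exact hp e j1 j2

/-- `m` odd.  HINT: `srd_con`; by `sum_bd` on `X \ T` the value of `e1` is `m` or `-m`. -/
theorem srd_b_odd (hc : G.Cub) (hX : G.S2 X a b) (hI : G.IHS) (hv : G.Vd X a b h) (hO : G.X3O)
    (hT : T ⊆ X) (h3 : G.T3 T) (ha : a ∉ G.tch T) (hb : b ∉ G.tch T)
    (hp : ∀ e ∈ G.ins X, e ∉ G.ins T → G.sw p e = 0) (he : e1 ∈ G.cut T)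
    (hA : G.AdT T fun v => p v + iv (v = G.ie T e1)) {m : ℤ} (hm : G.tw p X h = 2 * m)
    (ho : Odd m) : G.Ext X h := by
  obtain ⟨G', hC⟩ := exists_ce (G := G) (Spl_ie he)
    fun e => G.n e + (p (G.ie T e) + iv (G.ie T e = G.ie T e1))
  refine srd_con (q := fun v => p v + iv (v = G.ie T e1)) hc hX hI hv hT h3.2.1
    (ASrdB_card hc h3 he) hC (srd_b_unb hc hX hT h3 ha hb hp he hC).1 fun f f1 f2 f3 f4 =>
      hO T _ f h3 hA f3 f4 ⟨e1, he, ?_⟩
  have k : G.tw p X f = G.tw p X h := sum_congr rfl fun e he' => by rw [f1 e he']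
  rw [ASrdB_q hc h3 he, ASrdB_tw hT hp f2, k, hm] at f4
  rw [Int.odd_iff] at ho ⊢
  rcases Def6_kap p he with k | k <;> rw [k] at f4 <;> omega

/-- `m` even.
HINT: work in the contraction `G'` (`S2.con`, `srd_b_unb`).  `xb0` gives a path through `x` that
avoids `e1`; `abs_loc` on the rest with `e1` dead (`Abs0.neg`); give `e1` the residue for which
the switched sum vanishes (`Vd.half`); `fix_path`, `not_df`, `w_lift` with weight two at `x`.
Two edges at `x` get odd values; `Ce.tw_in`, `X3O`, `Ce.back`. -/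
theorem srd_b_even (hc : G.Cub) (hX : G.S2 X a b) (hv : G.Vd X a b h) (hO : G.X3O)
    (hT : T ⊆ X) (h3 : G.T3 T) (ha : a ∉ G.tch T) (hb : b ∉ G.tch T)
    (hp : ∀ e ∈ G.ins X, e ∉ G.ins T → G.sw p e = 0) (he : e1 ∈ G.cut T)
    (hA : G.AdT T fun v => p v + iv (v = G.ie T e1)) {m : ℤ} (hm : G.tw p X h = 2 * m)
    (ho : Even m) : G.Ext X h := by
  obtain ⟨x, G', hC⟩ : ∃ x G', G.Ce G' T x
      fun e => G.n e + (p (G.ie T e) + iv (G.ie T e = G.ie T e1)) :=
    ⟨_, exists_ce (Spl_ie he) _⟩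
  have xT := hC.mem
  obtain ⟨s1, s2, s3⟩ := hX.con hc hT h3.2.1 hC
  obtain ⟨-, c2, -⟩ := hX.cn hT h3.2.1 ha hb
  have hcut : G'.cut (insert x (X \ T)) = G.cut X := s1.1.trans hX.1.symm
  have hab : ∀ e ∈ G.cut X, e ∉ G.tch T := fun e k => by
    rw [hX.1, mem_insert, mem_singleton] at k
    rcases k with rfl | rfl
    exacts [ha, hb]
  have nc : ∀ e ∈ G.cut X, e ∉ G.cut T := fun e k k' => hab e k (cut_sub_tch k')
  have off : ∀ e ∈ G.cut X, G.s e ∉ T ∧ G.t e ∉ T ∧ G'.s e = G.s e ∧ G'.t e = G.t e ∧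
      G'.n e = G.n e := fun e k => ACon_off hC (mem_cut.1 (hcut ▸ k)).1 (nc e k)
  have nx : ∀ e ∈ G.cut X, x ≠ G'.ie (insert x (X \ T)) e := fun e k j => by
    obtain ⟨o1, o2, o3, o4, -⟩ := off e k
    rcases ie_at (G := G') (X := insert x (X \ T)) (e := e) with i | i
    · exact o1 (by rw [← o3, i, ← j]; exact xT)
    · exact o2 (by rw [← o4, i, ← j]; exact xT)
  have cT : ∀ e ∈ G.cut T, e ∈ G'.ins (insert x (X \ T)) := fun e k => by
    rw [s3]
    exact mem_sdiff.2 ⟨c2 k, not_ins_of_cut k⟩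
  obtain ⟨f, f1, f2, f3, e, f4, f5, f6⟩ := ASrdB_core (p := Function.update p x 0) (m := m) s2 s1
    (h := h) ⟨fun e k => hv.1 e (hcut ▸ k), hv.2⟩ (mem_insert_self _ _)
    (nx a (by rw [hX.1]; simp)) (nx b (by rw [hX.1]; simp)) (cT e1 he) (Or.inr (hC.ed e1 he).1)
    (fun e k => (srd_b_unb hc hX hT h3 ha hb hp he hC).2 e (s3 ▸ k)) (by
      rw [← hm, tw, tw, hcut]
      refine sum_congr rfl fun e k => ?_
      obtain ⟨o1, o2, o3, o4, o5⟩ := off e k
      have n1 := (ne_of_mem_of_not_mem xT o1).symm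
      have n2 := (ne_of_mem_of_not_mem xT o2).symm
      simp only [kap, iv, o1, o2, o3, o4, o5, n1, n2, Function.update_of_ne n1,
        Function.update_of_ne n2, mem_insert, mem_sdiff, false_or, not_false_eq_true, and_true]) ho
  have eT : e ∈ G.cut T := by
    by_contra k
    obtain ⟨o1, o2, o3, o4, -⟩ := ACon_off hC f4 k
    rcases f5 with i | i
    · exact o1 (by rw [← o3, i]; exact xT)
    · exact o2 (by rw [← o4, i]; exact xT)
  refine hC.back hT (fun e k => (f1 e (hcut ▸ k)).trans (ACon_neg h (nc e k)).symm) f2 f3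
    (hO T _ _ h3 hA (fun e k => (ACon_bv f e).2 (f3 e (cT e k))) ?_ ⟨e, eT, (cf_abs f e).2.1.2 f6⟩)
  rw [← Ce.tw_in (q := fun v => p v + iv (v = G.ie T e1)) hC, cf_cf]
  exact f2 x (mem_insert_self _ _)

end SG

end Pool.Agent.Work.MP_8c679b_co
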