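import Pool.Agent.Work.MP_8c679b_co.Six.CFour
import Pool.Agent.Work.MP_8c679b_co.Six.AGad

/-!
Cuts with at most three edges that have a balanced side.
-/

set_option autoImplicit false

namespace Pool.Agent.Work.MP_8c679b_co

open Finset

namespace SG

variable {V E : Type} [Fintype V] [DecidableEq V] [DecidableEq E] {G : SG V E}
  {G' : SG V E} {X : Finset V} {a b : E} {p : V → ZMod 2}

variable (G) in
/-- every cut with at most three edges has a balanced side -/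
def Cl4 : Prop :=
  ∀ X, (G.cut X).card ≤ 3 → G.Bal (G.ins X) ∨ G.Bal (G.ins (univ \ X))

theorem Cl4.of_mem {x : V} (h : ∀ Z, x ∈ Z → (G.cut Z).card ≤ 3 →
    G.Bal (G.ins Z) ∨ G.Bal (G.ins (univ \ Z))) : G.Cl4 := fun Z hZ => by
  by_cases hx : x ∈ Z
  · exact h Z hx hZ
  · have := h (univ \ Z) (ACon_c.2 hx) (by rwa [cut_compl])
    rw [Finset.sdiff_sdiff_eq_self (subset_univ Z)] at this
    exact this.symm

theorem Cl4.ce {x : V} (h : G.Cl4) (hG : G.Ce G' X x fun e => G.n e + p (G.ie X e))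
    (hp : ∀ e ∈ G.ins X, G.sw p e = 0)
    (hr : ∀ e ∈ G.cut X, ∀ f ∈ G.cut X, G.Rch (G.ins X) (G.ie X e) (G.ie X f)) : G'.Cl4 := by
  refine Cl4.of_mem (x := x) fun Z hx hZ => ?_
  rw [(hG.in_ hx).1] at hZ
  refine (h _ hZ).imp (fun k => ?_) fun k => ?_
  · rw [hG.bal_iff hp hr ins_sub_A, (hG.in_ hx).2]
    exact k.mono (union_subset sdiff_subset (ins_mono subset_union_right))
  · rw [(hG.nin fun k' => ACon_c.1 k' hx).2, (hG.agr.bal sdiff_disjoint Subset.rfl).1]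
    refine k.mono (ins_mono fun v hv => ?_)
    simpa [not_or] using hv

theorem CFourB_se (hG : G.Se G' X a b (G.n a + G.n b + p (G.ie X a) + p (G.ie X b)))
    (hp : ∀ e ∈ G.ins X, G.sw p e = 0) (hr : G.Rch (G.ins X) (G.ie X a) (G.ie X b))
    {Z : Finset V} (hd : Disjoint Z X) (h : G.Bal (G.ins (Z ∪ X))) : G'.Bal (G'.ins Z) := by
  obtain ⟨ha, hb, -⟩ := AGad_sA hG
  have a1 := (AGad_cz hd ha).2.1
  by_cases k : G.oe X a ∈ Z ∧ G.oe X b ∈ Z
  swap
  · rw [(AGad_nb hG hd k).1, AGad_sbal hG a1]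
    exact h.mono (ins_mono subset_union_left)
  rw [(AGad_both hG hd k.1 k.2).1]
  obtain ⟨r, hr'⟩ := h
  refine ⟨r, fun e he => ?_⟩
  rcases mem_insert.1 he with rfl | l
  swap
  · rw [(AGad_sw hG r).2 e fun l' => a1 (l' ▸ l)]
    exact hr' e (ins_mono subset_union_left l)
  have l1 : ∀ f ∈ G.cut X, G.oe X f ∈ Z → G.n f + r (G.ie X f) + r (G.oe X f) = 0 :=
    fun f hf hf' => (Cut_sw je_ie_oe r).symm.trans (hr' f (Cut_je_ins (mem_cut.1 hf).1 je_ie_oe
      (mem_union_right _ (ie_mem (cut_sub_tch hf))) (mem_union_left _ hf')))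
  have l2 : r (G.ie X b) + p (G.ie X b) = r (G.ie X e) + p (G.ie X e) := by
    refine hr.closed (P := fun v => r v + p v = r (G.ie X e) + p (G.ie X e)) (fun f hf => ?_) rfl
    have m1 := hp f hf
    have m2 := hr' f (ins_mono subset_union_right hf)
    rw [sw] at m1 m2
    have : r (G.s f) + p (G.s f) = r (G.t f) + p (G.t f) := by
      linear_combination m1 + m2 - z2_add_self (G.n f + r (G.t f) + p (G.t f))
    rw [this]
  rw [(AGad_sw hG r).1]
  linear_combination l1 e ha k.1 + l1 b hb k.2 + l2 + z2_add_self (p (G.ie X e)) -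
    z2_add_self (r (G.ie X b))

theorem Cl4.se (h : G.Cl4)
    (hG : G.Se G' X a b (G.n a + G.n b + p (G.ie X a) + p (G.ie X b)))
    (hp : ∀ e ∈ G.ins X, G.sw p e = 0) (hr : G.Rch (G.ins X) (G.ie X a) (G.ie X b)) : G'.Cl4 := by
  obtain ⟨ha, hb, -⟩ := AGad_sA hG
  have k0 : ∀ Z, G'.ins Z = G'.ins (Z \ X) ∧ G'.cut Z = G'.cut (Z \ X) := fun Z =>
    AGad_loc fun f hf v hv => by simp [(AGad_sact hG f hf v hv).2]
  refine Cl4.of_mem (x := G.oe X a) fun Z hx hZ => ?_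
  rw [(k0 Z).2] at hZ
  rw [(k0 Z).1, (k0 (univ \ Z)).1]
  have hd : Disjoint (Z \ X) X := sdiff_disjoint
  have hd' : Disjoint ((univ \ Z) \ X) X := sdiff_disjoint
  have k1 : ¬ (G.oe X a ∈ (univ \ Z) \ X ∧ G.oe X b ∈ (univ \ Z) \ X) := fun k =>
    ACon_c.1 (mem_sdiff.1 k.1).1 hx
  rw [(AGad_nb hG hd' k1).1, AGad_sbal hG (AGad_cz hd' ha).2.1]
  by_cases k : G.oe X a ∈ Z \ X ∧ G.oe X b ∈ Z \ X
  · rw [(AGad_both hG hd k.1 k.2).2] at hZ
    refine (h _ hZ).imp (CFourB_se hG hp hr hd) fun k' => k'.mono (ins_mono fun v hv => ?_)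
    simp only [mem_sdiff, mem_univ, true_and, mem_union] at hv ⊢
    tauto
  · obtain ⟨k2, k3, -⟩ := AGad_nb hG hd k
    rw [k2, AGad_sbal hG (AGad_cz hd ha).2.1]
    refine (h _ (k3 ▸ hZ)).imp id fun k' => k'.mono (ins_mono fun v hv => ?_)
    simp only [mem_sdiff, mem_univ, true_and] at hv ⊢
    tauto

theorem CFourB_two (hc : G.Cub) (hA : G.Adm2) (h : G.Cl4) (hv : X ⊆ G.vs G.A)
    (h1 : (G.cut X).card = 2) (hp : ∀ e ∈ G.ins X, G.sw p e = 0)
    (hI : ∀ G' : SG V E, G'.Cub → G'.Adm2 → G'.Cl4 → G'.A.card < G.A.card → ∃ f, G'.Fl6 f) :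
    ∃ f, G.Fl6 f := by
  obtain ⟨a, b, hab, hX⟩ := card_eq_two.1 h1
  have ha : a ∈ G.cut X := hX ▸ mem_insert_self _ _
  have hb : b ∈ G.cut X := hX ▸ mem_insert_of_mem (mem_singleton_self _)
  have h2 : ∀ Y ⊆ X, (G.cut Y).card ≠ 1 := fun Y hY k =>
    hA.1 Y k (Bal.mono ⟨p, hp⟩ (ins_mono hY))
  have hr := bal_rch h2 (by omega) a ha b hb
  obtain ⟨G', hG⟩ := exists_se hX hab (G.n a + G.n b + p (G.ie X a) + p (G.ie X b))
  obtain ⟨f, f1⟩ := hI G' (hG.cub hc).1 (Se.adm_bal hA hp hr hG) (h.se hG hp hr) (hG.cub hc).2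
  obtain ⟨g, g1, -, -, k2⟩ := hG.back f1
  obtain ⟨F, k1, -⟩ := g1.glue (b23 hc hv h2 (by omega) hp
    (fun e he => g1.2 e (mem_cut.1 he).1 (not_ins_of_cut he)) (by
      have e2 : G.n a + G.n b + p (G.ie X a) + p (G.ie X b) + G.n a + G.n b =
          p (G.ie X a) + p (G.ie X b) := by
        generalize G.n a = x, G.n b = y, p (G.ie X a) = z, p (G.ie X b) = w
        revert x y z w
        decide
      rw [e2, chi_add] at k2
      rw [tw, hX, sum_pair hab, (kap_sign p ha).1, (kap_sign p hb).1]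
      simp only [out] at k2
      have e3 := chi_mul_self (R := ℤ) (p (G.ie X a))
      linear_combination chi (p (G.ie X a)) * k2 -
        chi (p (G.ie X b)) * G.kap (fun _ => 0) X b * g b * e3))
  exact ⟨F, k1⟩

theorem CFourB_con (hc : G.Cub) (hA : G.Adm2) (h : G.Cl4) (hv : X ⊆ G.vs G.A)
    (h1 : (G.cut X).card = 0 ∨ (G.cut X).card = 3) (hn : (G.ins X).Nonempty)
    (hp : ∀ e ∈ G.ins X, G.sw p e = 0)
    (hI : ∀ G' : SG V E, G'.Cub → G'.Adm2 → G'.Cl4 → G'.A.card < G.A.card → ∃ f, G'.Fl6 f) :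
    ∃ f, G.Fl6 f := by
  have h2 : ∀ Y ⊆ X, (G.cut Y).card ≠ 1 := fun Y hY k =>
    hA.1 Y k (Bal.mono ⟨p, hp⟩ (ins_mono hY))
  have h3 : (G.cut X).card ≤ 3 := by omega
  have hr := bal_rch h2 h3
  obtain ⟨e0, he0⟩ := id hn
  have hx := (mem_ins.1 he0).2.1
  obtain ⟨G', hG⟩ := exists_ce (G := G) hx fun e => G.n e + p (G.ie X e)
  have hc' : G'.Cub := fun v => by
    by_cases hv : v ∈ X
    · rw [ACon_deg hG hv, iv]
      split_ifs <;> omega
    · rw [(hG.agr.deg hv).1]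
      exact hc v
  obtain ⟨f, hf⟩ := hI G' hc' (hG.adm_bal hA hp hr) (h.ce hG hp hr) (hG.card hn)
  obtain ⟨F, k1, -⟩ := Out.glue (hG.agr.outX.1 (by
    rw [cf_cf]
    exact ⟨fun v _ => hf.1 v, fun e he _ => hf.2 e he⟩)) (b23 hc hv h2 h3 hp
      (fun e he => (ACon_bv f e).2 (hf.2 e (ACon_cs hG he))) (by
        rw [← hG.tw_in, cf_cf]
        exact hf.1 _))
  exact ⟨F, k1⟩

/-- cubic graphs in which every cut with at most three edges has a balanced side -/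
theorem Cl4.six (hc : G.Cub) (hA : G.Adm2) (h : G.Cl4) : ∃ f, G.Fl6 f := by
  induction hn : G.A.card using Nat.strong_induction_on generalizing G with
  | _ n ih =>
  have hI : ∀ G' : SG V E, G'.Cub → G'.Adm2 → G'.Cl4 → G'.A.card < G.A.card → ∃ f, G'.Fl6 f :=
    fun G' c a k l => ih _ (hn ▸ l) c a k rfl
  by_contra hf
  have k2 : ∀ X ⊆ G.vs G.A, G.Bal (G.ins X) → (G.cut X).card ≠ 2 := fun X hX ⟨p, hp⟩ k =>
    hf (CFourB_two hc hA h hX k hp hI)
  have k3 : ∀ X ⊆ G.vs G.A, G.Bal (G.ins X) → (G.cut X).card = 0 ∨ (G.cut X).card = 3 →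
      G.ins X = ∅ := fun X hX ⟨p, hp⟩ k => by_contra fun k' =>
    hf (CFourB_con hc hA h hX k (nonempty_iff_ne_empty.2 k') hp hI)
  have k4 : ∀ X ⊆ G.vs G.A, X.Nonempty → G.Bal (G.ins X) → (G.cut X).card ≤ 3 →
      (G.cut X).card = 3 ∧ X.card = 1 := fun X hX hn hB k => by
    have r1 := hA.1 X
    have r2 := k2 X hX hB
    have r3 := k3 X hX hB (by
      by_contra r
      exact r1 (by omega) hB)
    have r4 := deg_sum hc hX
    have r5 := card_pos.2 hn
    rw [r3, card_empty] at r4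
    omega
  rcases G.A.eq_empty_or_nonempty with h0 | ⟨e0, he0⟩
  · exact hf ⟨0, fun v => by simp [bd], fun e he => absurd (h0 ▸ he) (notMem_empty e)⟩
  refine hf (C4.six hc hA (fun X x3 x2 hB => ?_) (fun K hK hn => ?_) fun hB => ?_)
  · rw [← (AStepB_inter X).1] at x3
    rw [← (AStepB_inter X).2] at hB
    have := (k4 _ inter_subset_right (card_pos.1 (by omega)) hB x3.le).2
    omega
  · by_cases r : (G.cut K).card ≤ 3
    swap
    · omega
    rcases h K r with hB | hB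
    · obtain ⟨r1, r2⟩ := k4 K hK.1 hn hB r
      exact ⟨r1.ge, fun _ => Or.inl r2⟩
    · obtain ⟨r1, r2⟩ := k4 (G.vs G.A \ K) sdiff_subset (sdiff_nonempty.2 hK.2)
        (hB.mono (ins_mono (sdiff_subset_sdiff (subset_univ _) Subset.rfl)))
        (by rwa [SpSet_compl])
      rw [SpSet_compl] at r1
      exact ⟨r1.ge, fun _ => Or.inr r2⟩
  · have := (k4 _ Subset.rfl ⟨_, s_mem_vs he0⟩ (hB.mono ins_sub_A) (by
      rw [AStepB_vs.1]
      simp)).1
    rw [AStepB_vs.1] at this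
    simp at this

end SG

end Pool.Agent.Work.MP_8c679b_co
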